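import Pool.Agent.Run7.h92.TransfJ

/-!
# Comparison with positive definite matrices
-/

namespace Run7.h92

open Matrix Complex

variable {g : ℕ}

theorem form_eq (τ : Matrix (Fin g) (Fin g) ℂ) (x : Fin g → ℝ) :
    star x ⬝ᵥ ((τ.map Complex.im) *ᵥ x) = ∑ i, ∑ j, x i * (τ i j).im * x j := by
  simp only [dotProduct, mulVec, Finset.mul_sum, star_trivial, map_apply, mul_assoc]

theorem HH_of_pos {τ : Matrix (Fin g) (Fin g) ℂ} (h1 : τ.IsSymm) (h2 : (τ.map Complex.im).PosDef) :
    (τ : MM g) ∈ HH g := by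
  refine ⟨fun i j => (h1.apply j i), ?_⟩
  rcases Nat.eq_zero_or_pos g with hg | hg
  · subst hg
    exact ⟨1, one_pos, fun x => by simp⟩
  set S : Set (Fin g → ℝ) := {x | ∑ i, x i ^ 2 = 1} with hS
  have hclosed : IsClosed S := isClosed_eq (by fun_prop) continuous_const
  have hbdd : Bornology.IsBounded S := by
    rw [isBounded_iff_forall_norm_le]
    refine ⟨1, fun x hx => ?_⟩
    rw [pi_norm_le_iff_of_nonneg zero_le_one]
    intro i
    rw [Real.norm_eq_abs, ← sq_le_one_iff_abs_le_one]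
    rw [← (show ∑ i, x i ^ 2 = 1 from hx)]
    exact Finset.single_le_sum (f := fun i => x i ^ 2) (fun j _ => sq_nonneg _) (Finset.mem_univ i)
  have hcpt : IsCompact S := Metric.isCompact_of_isClosed_isBounded hclosed hbdd
  have hne : S.Nonempty := by
    refine ⟨Pi.single ⟨0, hg⟩ 1, ?_⟩
    show ∑ i, (Pi.single (⟨0, hg⟩ : Fin g) (1 : ℝ) : Fin g → ℝ) i ^ 2 = 1
    rw [Finset.sum_eq_single ⟨0, hg⟩]
    · simp
    · intro j _ hj
      rw [Pi.single_eq_of_ne hj]
      norm_num
    · intro h; exact absurd (Finset.mem_univ _) h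
  set q : (Fin g → ℝ) → ℝ := fun x => ∑ i, ∑ j, x i * (τ i j).im * x j with hq
  have hqc : Continuous q := by
    rw [hq]
    fun_prop
  obtain ⟨x0, hx0, hmin⟩ := hcpt.exists_isMinOn hne hqc.continuousOn
  have hx0ne : x0 ≠ 0 := by
    intro h
    rw [h] at hx0
    have : ∑ i, ((0 : Fin g → ℝ) i) ^ 2 = 1 := hx0
    simp at this
  have hpos : 0 < q x0 := by
    have := h2.dotProduct_mulVec_pos hx0ne
    rwa [form_eq] at this
  refine ⟨q x0, hpos, fun x => ?_⟩
  by_cases hx : x = 0
  · subst hx; simp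
  set s : ℝ := ∑ i, x i ^ 2 with hs
  have hs0 : 0 < s := by
    rcases (Finset.sum_nonneg fun i (_ : i ∈ Finset.univ) => sq_nonneg (x i)).lt_or_eq with h | h
    · exact h
    · exfalso
      apply hx
      funext i
      have := (Finset.sum_eq_zero_iff_of_nonneg (fun i _ => sq_nonneg (x i))).1 h.symm i
        (Finset.mem_univ i)
      exact pow_eq_zero_iff two_ne_zero |>.1 this
  have hr : 0 < Real.sqrt s := Real.sqrt_pos.2 hs0
  have hrr : Real.sqrt s ^ 2 = s := Real.sq_sqrt hs0.le
  have h3 : (fun i => x i / Real.sqrt s) ∈ S := by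
    show ∑ i, (x i / Real.sqrt s) ^ 2 = 1
    simp_rw [div_pow, hrr]
    rw [← Finset.sum_div, ← hs, div_self hs0.ne']
  have h4 := hmin h3
  have h5 : q (fun i => x i / Real.sqrt s) = q x / s := by
    simp only [hq]
    rw [Finset.sum_div]
    refine Finset.sum_congr rfl fun i _ => ?_
    rw [Finset.sum_div]
    refine Finset.sum_congr rfl fun j _ => ?_
    have : x i / Real.sqrt s * (τ i j).im * (x j / Real.sqrt s) =
        x i * (τ i j).im * x j / (Real.sqrt s ^ 2) := by
      field_simp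
    rw [this, hrr]
  have h6 : q x0 ≤ q x / s := by
    rw [← h5]
    exact h4
  rwa [le_div_iff₀ hs0] at h6

theorem pos_of_HH {τ : MM g} (hτ : τ ∈ HH g) :
    (Matrix.of τ).IsSymm ∧ ((Matrix.of τ).map Complex.im).PosDef := by
  obtain ⟨hs, c, hc, hLB⟩ := hτ
  refine ⟨Matrix.IsSymm.ext fun i j => (hs j i), ?_⟩
  refine Matrix.PosDef.of_dotProduct_mulVec_pos ?_ ?_
  · ext i j
    simp only [conjTranspose_apply, map_apply, of_apply, star_trivial]
    rw [hs j i]
  · intro x hx
    rw [form_eq]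
    refine lt_of_lt_of_le ?_ (hLB x)
    have hs0 : 0 < ∑ i, x i ^ 2 := by
      rcases (Finset.sum_nonneg fun i (_ : i ∈ Finset.univ) => sq_nonneg (x i)).lt_or_eq with h | h
      · exact h
      · exfalso
        apply hx
        funext i
        have := (Finset.sum_eq_zero_iff_of_nonneg (fun i _ => sq_nonneg (x i))).1 h.symm i
          (Finset.mem_univ i)
        exact pow_eq_zero_iff two_ne_zero |>.1 this
    positivity

end Run7.h92
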