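import Mathlib.Data.Nat.Notation
import Mathlib.Data.Int.Notation

/-!
# Gram matrices of the perfect forms of rank five, six and seven (rows)
-/

namespace Run7.h92

/-- Gram matrix, minimum 2 -/
def gm5_1 : List (List ℤ) :=
  [[2, 1, 1, 1, 0], [1, 2, 1, 1, 1], [1, 1, 2, 1, 0], [1, 1, 1, 2, 0], [0, 1, 0, 0, 2]]

/-- Gram matrix, minimum 2 -/
def gm5_2 : List (List ℤ) :=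
  [[2, 1, 1, 1, 0], [1, 2, 1, 1, 1], [1, 1, 2, 1, 1], [1, 1, 1, 2, 1], [0, 1, 1, 1, 2]]

/-- Gram matrix, minimum 4 -/
def gm5_3 : List (List ℤ) :=
  [[4, 2, 2, 1, 2], [2, 4, 1, 2, 1], [2, 1, 4, 2, 1], [1, 2, 2, 4, 2], [2, 1, 1, 2, 4]]

/-- Gram matrix, minimum 2 -/
def gm6_1 : List (List ℤ) :=
  [[2, 1, 1, 0, 1, 1], [1, 2, 1, 0, 1, 1], [1, 1, 2, 1, 1, 1], [0, 0, 1, 2, 0, 0], [1, 1, 1, 0,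
  2, 1], [1, 1, 1, 0, 1, 2]]

/-- Gram matrix, minimum 2 -/
def gm6_2 : List (List ℤ) :=
  [[2, 1, 0, 1, 0, 1], [1, 2, 0, 0, 0, 1], [0, 0, 2, 1, 1, 1], [1, 0, 1, 2, 1, 1], [0, 0, 1, 1,
  2, 1], [1, 1, 1, 1, 1, 2]]

/-- Gram matrix, minimum 2 -/
def gm6_3 : List (List ℤ) :=
  [[2, 1, 1, 1, 1, 1], [1, 2, 1, 0, 1, 1], [1, 1, 2, 0, 1, 0], [1, 0, 0, 2, 0, 1], [1, 1, 1, 0,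
  2, 1], [1, 1, 0, 1, 1, 2]]

/-- Gram matrix, minimum 4 -/
def gm6_4 : List (List ℤ) :=
  [[4, 2, 2, 2, 1, 2], [2, 4, 1, 1, 2, 1], [2, 1, 4, 1, 2, 1], [2, 1, 1, 4, 2, 2], [1, 2, 2, 2,
  4, 2], [2, 1, 1, 2, 2, 4]]

/-- Gram matrix, minimum 4 -/
def gm6_5 : List (List ℤ) :=
  [[4, 1, 1, 2, 1, 2], [1, 4, 1, 2, 1, 2], [1, 1, 4, 2, 1, 2], [2, 2, 2, 4, 2, 1], [1, 1, 1, 2,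
  4, 2], [2, 2, 2, 1, 2, 4]]

/-- Gram matrix, minimum 4 -/
def gm6_6 : List (List ℤ) :=
  [[4, 2, 2, 2, 1, 1], [2, 4, 1, 1, 2, 2], [2, 1, 4, 2, 1, 2], [2, 1, 2, 4, 2, 2], [1, 2, 1, 2,
  4, 1], [1, 2, 2, 2, 1, 4]]

/-- Gram matrix, minimum 4 -/
def gm6_7 : List (List ℤ) :=
  [[4, 2, 2, 1, 2, 2], [2, 4, 0, 2, 2, 1], [2, 0, 4, 1, 1, 2], [1, 2, 1, 4, 2, 0], [2, 2, 1, 2,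
  4, 2], [2, 1, 2, 0, 2, 4]]

/-- Gram matrix, minimum 2 -/
def gm7_1 : List (List ℤ) :=
  [[2, 1, 0, 1, 1, 1, 0], [1, 2, 1, 1, 1, 1, 1], [0, 1, 2, 1, 1, 1, 1], [1, 1, 1, 2, 1, 1, 1],
  [1, 1, 1, 1, 2, 1, 1], [1, 1, 1, 1, 1, 2, 0], [0, 1, 1, 1, 1, 0, 2]]

/-- Gram matrix, minimum 2 -/
def gm7_2 : List (List ℤ) :=
  [[2, 1, 0, 0, 0, 0, 1], [1, 2, 1, 1, 1, 0, 1], [0, 1, 2, 1, 1, 0, 1], [0, 1, 1, 2, 1, 1, 1],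
  [0, 1, 1, 1, 2, 0, 1], [0, 0, 0, 1, 0, 2, 0], [1, 1, 1, 1, 1, 0, 2]]

/-- Gram matrix, minimum 4 -/
def gm7_3 : List (List ℤ) :=
  [[4, 1, 2, 2, 1, 0, 2], [1, 4, 2, 2, 1, 2, 1], [2, 2, 4, 1, 2, 1, 2], [2, 2, 1, 4, 2, 1, 2],
  [1, 1, 2, 2, 4, 0, 2], [0, 2, 1, 1, 0, 4, 2], [2, 1, 2, 2, 2, 2, 4]]

/-- Gram matrix, minimum 4 -/
def gm7_4 : List (List ℤ) :=
  [[4, 2, 1, 0, 1, 2, 1], [2, 4, 1, 0, 1, 1, 2], [1, 1, 4, 2, 2, 0, 2], [0, 0, 2, 4, 2, 0, 2],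
  [1, 1, 2, 2, 4, 2, 2], [2, 1, 0, 0, 2, 4, 2], [1, 2, 2, 2, 2, 2, 4]]

/-- Gram matrix, minimum 4 -/
def gm7_5 : List (List ℤ) :=
  [[4, 0, 1, 2, 2, 2, 2], [0, 4, 2, 1, 1, 2, 2], [1, 2, 4, 1, 2, 1, 1], [2, 1, 1, 4, 0, 2, 2],
  [2, 1, 2, 0, 4, 2, 1], [2, 2, 1, 2, 2, 4, 2], [2, 2, 1, 2, 1, 2, 4]]

/-- Gram matrix, minimum 4 -/
def gm7_6 : List (List ℤ) :=
  [[4, 2, 1, 0, 2, 2, 2], [2, 4, 0, 1, 2, 2, 1], [1, 0, 4, 2, 2, 1, 2], [0, 1, 2, 4, 1, 2, 1],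
  [2, 2, 2, 1, 4, 2, 1], [2, 2, 1, 2, 2, 4, 2], [2, 1, 2, 1, 1, 2, 4]]

/-- Gram matrix, minimum 4 -/
def gm7_7 : List (List ℤ) :=
  [[4, 1, 2, 2, 2, 1, 2], [1, 4, 0, 2, 2, 2, 2], [2, 0, 4, 0, 1, 0, 2], [2, 2, 0, 4, 2, 0, 1],
  [2, 2, 1, 2, 4, 2, 2], [1, 2, 0, 0, 2, 4, 2], [2, 2, 2, 1, 2, 2, 4]]

/-- Gram matrix, minimum 6 -/
def gm7_8 : List (List ℤ) :=
  [[6, 2, 2, 1, 3, 1, 3], [2, 6, 2, 1, 3, 3, 3], [2, 2, 6, 1, 3, 1, 3], [1, 1, 1, 6, 3, 2, 3],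
  [3, 3, 3, 3, 6, 3, 2], [1, 3, 1, 2, 3, 6, 3], [3, 3, 3, 3, 2, 3, 6]]

/-- Gram matrix, minimum 4 -/
def gm7_9 : List (List ℤ) :=
  [[4, 1, 2, 2, 2, 1, 2], [1, 4, 1, 2, 2, 2, 1], [2, 1, 4, 1, 1, 2, 2], [2, 2, 1, 4, 1, 2, 2],
  [2, 2, 1, 1, 4, 2, 2], [1, 2, 2, 2, 2, 4, 2], [2, 1, 2, 2, 2, 2, 4]]

/-- Gram matrix, minimum 4 -/
def gm7_10 : List (List ℤ) :=
  [[4, 1, 1, 2, 1, 2, 2], [1, 4, 1, 1, 2, 2, 2], [1, 1, 4, 2, 1, 2, 2], [2, 1, 2, 4, 2, 2, 1],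
  [1, 2, 1, 2, 4, 1, 2], [2, 2, 2, 2, 1, 4, 1], [2, 2, 2, 1, 2, 1, 4]]

/-- Gram matrix, minimum 4 -/
def gm7_11 : List (List ℤ) :=
  [[4, 1, 2, 1, 2, 2, 1], [1, 4, 2, 2, 1, 2, 1], [2, 2, 4, 2, 1, 1, 2], [1, 2, 2, 4, 2, 1, 2],
  [2, 1, 1, 2, 4, 2, 2], [2, 2, 1, 1, 2, 4, 2], [1, 1, 2, 2, 2, 2, 4]]

/-- Gram matrix, minimum 4 -/
def gm7_12 : List (List ℤ) :=
  [[4, 0, 2, 1, 2, 1, 2], [0, 4, 1, 0, 2, 2, 1], [2, 1, 4, 1, 2, 2, 1], [1, 0, 1, 4, 1, 2, 1],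
  [2, 2, 2, 1, 4, 1, 2], [1, 2, 2, 2, 1, 4, 2], [2, 1, 1, 1, 2, 2, 4]]

/-- Gram matrix, minimum 6 -/
def gm7_13 : List (List ℤ) :=
  [[6, 3, 2, 3, 1, 1, 3], [3, 6, 3, 2, 3, 3, 1], [2, 3, 6, 3, 1, 3, 3], [3, 2, 3, 6, 0, 3, 3],
  [1, 3, 1, 0, 6, 3, 2], [1, 3, 3, 3, 3, 6, 2], [3, 1, 3, 3, 2, 2, 6]]

/-- Gram matrix, minimum 6 -/
def gm7_14 : List (List ℤ) :=
  [[6, 3, 3, 1, 0, 3, 3], [3, 6, 3, 3, 3, 2, 2], [3, 3, 6, 2, 3, 3, 3], [1, 3, 2, 6, 3, 3, 3],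
  [0, 3, 3, 3, 6, 1, 1], [3, 2, 3, 3, 1, 6, 2], [3, 2, 3, 3, 1, 2, 6]]

/-- Gram matrix, minimum 4 -/
def gm7_15 : List (List ℤ) :=
  [[4, 0, 1, 1, 0, 2, 0], [0, 4, 1, 1, 1, 2, 2], [1, 1, 4, 2, 1, 2, 2], [1, 1, 2, 4, 1, 2, 2],
  [0, 1, 1, 1, 4, 2, 2], [2, 2, 2, 2, 2, 4, 1], [0, 2, 2, 2, 2, 1, 4]]

/-- Gram matrix, minimum 6 -/
def gm7_16 : List (List ℤ) :=
  [[6, 3, 1, 3, 1, 3, 0], [3, 6, 0, 2, 3, 3, 3], [1, 0, 6, 3, 2, 3, 2], [3, 2, 3, 6, 3, 2, 1],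
  [1, 3, 2, 3, 6, 3, 3], [3, 3, 3, 2, 3, 6, 2], [0, 3, 2, 1, 3, 2, 6]]

/-- Gram matrix, minimum 2 -/
def gm7_17 : List (List ℤ) :=
  [[2, 1, 1, 1, 1, 1, 1], [1, 2, 0, 1, 1, 0, 1], [1, 0, 2, 0, 0, 1, 0], [1, 1, 0, 2, 1, 0, 1],
  [1, 1, 0, 1, 2, 0, 1], [1, 0, 1, 0, 0, 2, 0], [1, 1, 0, 1, 1, 0, 2]]

/-- Gram matrix, minimum 4 -/
def gm7_18 : List (List ℤ) :=
  [[4, 0, 1, 1, 2, 2, 2], [0, 4, 2, 2, 1, 2, 1], [1, 2, 4, 1, 0, 2, 2], [1, 2, 1, 4, 2, 2, 2],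
  [2, 1, 0, 2, 4, 1, 2], [2, 2, 2, 2, 1, 4, 2], [2, 1, 2, 2, 2, 2, 4]]

/-- Gram matrix, minimum 4 -/
def gm7_19 : List (List ℤ) :=
  [[4, 2, 0, 2, 1, 1, 2], [2, 4, 2, 2, 2, 2, 1], [0, 2, 4, 1, 2, 1, 0], [2, 2, 1, 4, 1, 1, 2],
  [1, 2, 2, 1, 4, 2, 2], [1, 2, 1, 1, 2, 4, 0], [2, 1, 0, 2, 2, 0, 4]]

/-- Gram matrix, minimum 4 -/
def gm7_20 : List (List ℤ) :=
  [[4, 1, 2, 1, 2, 2, 2], [1, 4, 1, 2, 1, 2, 1], [2, 1, 4, 2, 1, 2, 2], [1, 2, 2, 4, 2, 1, 1],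
  [2, 1, 1, 2, 4, 2, 2], [2, 2, 2, 1, 2, 4, 2], [2, 1, 2, 1, 2, 2, 4]]

/-- Gram matrix, minimum 6 -/
def gm7_21 : List (List ℤ) :=
  [[6, 2, 2, 3, 1, 2, 3], [2, 6, 2, 3, 1, 2, 3], [2, 2, 6, 3, 1, 2, 3], [3, 3, 3, 6, 3, 3, 2],
  [1, 1, 1, 3, 6, 1, 3], [2, 2, 2, 3, 1, 6, 3], [3, 3, 3, 2, 3, 3, 6]]

/-- Gram matrix, minimum 6 -/
def gm7_22 : List (List ℤ) :=
  [[6, 1, 3, 3, 3, 3, 3], [1, 6, 0, 3, 1, 3, 3], [3, 0, 6, 3, 3, 1, 1], [3, 3, 3, 6, 1, 2, 2],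
  [3, 1, 3, 1, 6, 3, 3], [3, 3, 1, 2, 3, 6, 2], [3, 3, 1, 2, 3, 2, 6]]

/-- Gram matrix, minimum 6 -/
def gm7_23 : List (List ℤ) :=
  [[6, 1, 0, 3, 3, 2, 3], [1, 6, 2, 3, 3, 0, 3], [0, 2, 6, 2, 3, 1, 0], [3, 3, 2, 6, 2, 2, 2],
  [3, 3, 3, 2, 6, 3, 3], [2, 0, 1, 2, 3, 6, 0], [3, 3, 0, 2, 3, 0, 6]]

/-- Gram matrix, minimum 6 -/
def gm7_24 : List (List ℤ) :=
  [[6, 3, 3, 3, 2, 2, 2], [3, 6, 1, 0, 3, 3, 3], [3, 1, 6, 2, 0, 3, 3], [3, 0, 2, 6, 2, 1, 2],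
  [2, 3, 0, 2, 6, 3, 1], [2, 3, 3, 1, 3, 6, 3], [2, 3, 3, 2, 1, 3, 6]]

/-- Gram matrix, minimum 6 -/
def gm7_25 : List (List ℤ) :=
  [[6, 2, 2, 3, 3, 3, 2], [2, 6, 3, 2, 3, 3, 3], [2, 3, 6, 2, 0, 3, 1], [3, 2, 2, 6, 3, 3, 3],
  [3, 3, 0, 3, 6, 1, 2], [3, 3, 3, 3, 1, 6, 1], [2, 3, 1, 3, 2, 1, 6]]

/-- Gram matrix, minimum 6 -/
def gm7_26 : List (List ℤ) :=
  [[6, 2, 0, 3, 3, 1, 2], [2, 6, 3, 1, 2, 3, 3], [0, 3, 6, 2, 3, 3, 1], [3, 1, 2, 6, 3, 3, 3],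
  [3, 2, 3, 3, 6, 3, 1], [1, 3, 3, 3, 3, 6, 3], [2, 3, 1, 3, 1, 3, 6]]

/-- Gram matrix, minimum 6 -/
def gm7_27 : List (List ℤ) :=
  [[6, 2, 0, 2, 3, 3, 1], [2, 6, 0, 1, 1, 3, 3], [0, 0, 6, 3, 2, 3, 0], [2, 1, 3, 6, 3, 3, 3],
  [3, 1, 2, 3, 6, 3, 3], [3, 3, 3, 3, 3, 6, 2], [1, 3, 0, 3, 3, 2, 6]]

/-- Gram matrix, minimum 6 -/
def gm7_28 : List (List ℤ) :=
  [[6, 3, 2, 2, 3, 1, 3], [3, 6, 3, 3, 3, 3, 2], [2, 3, 6, 2, 3, 3, 3], [2, 3, 2, 6, 3, 1, 3],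
  [3, 3, 3, 3, 6, 1, 1], [1, 3, 3, 1, 1, 6, 3], [3, 2, 3, 3, 1, 3, 6]]

/-- Gram matrix, minimum 8 -/
def gm7_29 : List (List ℤ) :=
  [[8, 3, 0, 4, 3, 1, 4], [3, 8, 3, 4, 1, 4, 2], [0, 3, 8, 1, 3, 4, 4], [4, 4, 1, 8, 4, 3, 4],
  [3, 1, 3, 4, 8, 4, 4], [1, 4, 4, 3, 4, 8, 4], [4, 2, 4, 4, 4, 4, 8]]

/-- Gram matrix, minimum 8 -/
def gm7_30 : List (List ℤ) :=
  [[8, 0, 1, 4, 4, 3, 4], [0, 8, 4, 4, 2, 3, 1], [1, 4, 8, 4, 4, 4, 3], [4, 4, 4, 8, 3, 2, 4],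
  [4, 2, 4, 3, 8, 2, 4], [3, 3, 4, 2, 2, 8, 4], [4, 1, 3, 4, 4, 4, 8]]

/-- Gram matrix, minimum 8 -/
def gm7_31 : List (List ℤ) :=
  [[8, 4, 4, 4, 0, 1, 1], [4, 8, 4, 4, 4, 3, 3], [4, 4, 8, 3, 3, 4, 4], [4, 4, 3, 8, 1, 4, 4],
  [0, 4, 3, 1, 8, 4, 4], [1, 3, 4, 4, 4, 8, 3], [1, 3, 4, 4, 4, 3, 8]]

/-- Gram matrix, minimum 10 -/
def gm7_32 : List (List ℤ) :=
  [[10, 5, 0, 5, 5, 5, 5], [5, 10, 4, 3, 5, 3, 3], [0, 4, 10, 4, 3, 4, 4], [5, 3, 4, 10, 5, 3,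
  3], [5, 5, 3, 5, 10, 5, 5], [5, 3, 4, 3, 5, 10, 3], [5, 3, 4, 3, 5, 3, 10]]

/-- Gram matrix, minimum 3 -/
def gm7_33 : List (List ℤ) :=
  [[3, 1, 1, -1, 1, -1, -1], [1, 3, 1, 1, -1, 1, -1], [1, 1, 3, 1, -1, -1, -1], [-1, 1, 1, 3, -1,
  1, 1], [1, -1, -1, -1, 3, -1, 1], [-1, 1, -1, 1, -1, 3, 1], [-1, -1, -1, 1, 1, 1, 3]]

end Run7.h92
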