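import Pool.Agent.Run7.h92.GramD
import Pool.Agent.Run7.h92.GramT

/-!
# Checks for forms of rank 6
-/

namespace Run7.h92

/-- inverse matrix times an integer -/
def im6_1 : List (List ℤ) :=
  [[6, -1, -2, 1, -1, -1], [-1, 6, -2, 1, -1, -1], [-2, -2, 10, -5, -2, -2], [1, 1, -5, 6, 1, 1],
  [-1, -1, -2, 1, 6, -1], [-1, -1, -2, 1, -1, 6]]

/-- weighted vectors -/
def wt6_1 : List (ℕ × List ℤ) :=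
  [(33, [0, 0, 0, 0, 0, 0]), (1, [0, 0, 0, -1, 0, 0]), (1, [-1, 0, 0, 0, 0, 0]), (1, [1, 0, 0,
  -1, 0, 0]), (1, [0, 0, 0, 0, -1, 0]), (1, [0, 0, 0, -1, 1, 0]), (1, [-1, 0, 0, 0, -1, 0]),
  (1, [1, 0, 0, -1, 1, 0]), (1, [1, 1, 1, 0, 1, 1]), (1, [-1, -1, -1, -1, -1, -1]), (1, [0, 1,
  1, 0, 1, 1]), (1, [0, -1, -1, -1, -1, -1]), (1, [1, 1, 1, 0, 0, 1]), (1, [-1, -1, -1, -1, 0,
  -1]), (1, [0, 1, 1, 0, 0, 1]), (1, [0, -1, -1, -1, 0, -1]), (1, [0, 0, 0, 0, 0, -1]), (1, [0,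
  0, 0, -1, 0, 1]), (1, [-1, 0, 0, 0, 0, -1]), (1, [1, 0, 0, -1, 0, 1]), (1, [0, 0, 0, 0, -1,
  -1]), (1, [0, 0, 0, -1, 1, 1]), (1, [-1, 0, 0, 0, -1, -1]), (1, [1, 0, 0, -1, 1, 1]), (1, [1,
  1, 1, 0, 1, 0]), (1, [-1, -1, -1, -1, -1, 0]), (1, [0, 1, 1, 0, 1, 0]), (1, [0, -1, -1, -1,
  -1, 0]), (1, [1, 1, 1, 0, 0, 0]), (1, [-1, -1, -1, -1, 0, 0]), (1, [0, 1, 1, 0, 0, 0]), (1,
  [0, -1, -1, -1, 0, 0]), (1, [0, 0, -1, -1, 0, 0]), (1, [0, 0, 1, 0, 0, 0]), (1, [-1, 0, -1,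
  -1, 0, 0]), (1, [1, 0, 1, 0, 0, 0]), (1, [0, 0, -1, -1, -1, 0]), (1, [0, 0, 1, 0, 1, 0]), (1,
  [-1, 0, -1, -1, -1, 0]), (1, [1, 0, 1, 0, 1, 0]), (1, [1, 1, 0, -1, 1, 1]), (1, [-1, -1, 0,
  0, -1, -1]), (1, [0, 1, 0, -1, 1, 1]), (1, [0, -1, 0, 0, -1, -1]), (1, [1, 1, 0, -1, 0, 1]),
  (1, [-1, -1, 0, 0, 0, -1]), (1, [0, 1, 0, -1, 0, 1]), (1, [0, -1, 0, 0, 0, -1]), (1, [0, 0,
  -1, -1, 0, -1]), (1, [0, 0, 1, 0, 0, 1]), (1, [-1, 0, -1, -1, 0, -1]), (1, [1, 0, 1, 0, 0,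
  1]), (1, [0, 0, -1, -1, -1, -1]), (1, [0, 0, 1, 0, 1, 1]), (1, [-1, 0, -1, -1, -1, -1]), (1,
  [1, 0, 1, 0, 1, 1]), (1, [1, 1, 0, -1, 1, 0]), (1, [-1, -1, 0, 0, -1, 0]), (1, [0, 1, 0, -1,
  1, 0]), (1, [0, -1, 0, 0, -1, 0]), (1, [1, 1, 0, -1, 0, 0]), (1, [-1, -1, 0, 0, 0, 0]), (1,
  [0, 1, 0, -1, 0, 0]), (1, [0, 1, 0, 0, 0, 0])]

theorem ck6_1 : chk 6 gm6_1 im6_1 2 7 wt6_1 = true := by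
  decide +kernel

/-- inverse matrix times an integer -/
def im6_2 : List (List ℤ) :=
  [[3, -1, 1, -2, 1, -1], [-1, 2, 0, 1, 0, -1], [1, 0, 2, -1, 0, -1], [-2, 1, -1, 3, -1, 0], [1,
  0, 0, -1, 2, -1], [-1, -1, -1, 0, -1, 3]]

/-- weighted vectors -/
def wt6_2 : List (ℕ × List ℤ) :=
  [(16, [0, 0, 0, 0, 0, 0]), (1, [1, 1, 0, 1, 1, 1]), (1, [-1, -1, -1, -1, -1, -1]), (1, [1, 1,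
  0, 1, 0, 1]), (1, [-1, -1, -1, -1, 0, -1]), (1, [0, 1, 0, 0, 1, 1]), (1, [0, -1, -1, 0, -1,
  -1]), (1, [0, 1, 0, 0, 0, 1]), (1, [0, -1, -1, 0, 0, -1]), (1, [1, 0, 0, 1, 1, 1]), (1, [-1,
  0, -1, -1, -1, -1]), (1, [1, 0, 0, 1, 0, 1]), (1, [-1, 0, -1, -1, 0, -1]), (1, [0, 0, 0, 0,
  1, 1]), (1, [0, 0, -1, 0, -1, -1]), (1, [0, 0, 0, 0, 0, 1]), (1, [0, 0, -1, 0, 0, -1]), (1,
  [1, 1, -1, 0, 0, 0]), (1, [-1, -1, 0, 0, 0, 0]), (1, [1, 1, -1, 0, -1, 0]), (1, [-1, -1, 0,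
  0, 1, 0]), (1, [0, 1, -1, -1, 0, 0]), (1, [0, -1, 0, 1, 0, 0]), (1, [0, 1, -1, -1, -1, 0]),
  (1, [0, -1, 0, 1, 1, 0]), (1, [1, 0, -1, 0, 0, 0]), (1, [-1, 0, 0, 0, 0, 0]), (1, [1, 0, -1,
  0, -1, 0]), (1, [-1, 0, 0, 0, 1, 0]), (1, [0, 0, -1, -1, 0, 0]), (1, [0, 0, 0, 1, 0, 0]), (1,
  [0, 0, -1, -1, -1, 0]), (1, [0, 0, 0, 1, 1, 0])]

theorem ck6_2 : chk 6 gm6_2 im6_2 2 2 wt6_2 = true := by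
  decide +kernel

/-- inverse matrix times an integer -/
def im6_3 : List (List ℤ) :=
  [[4, -1, -1, -2, -1, 0], [-1, 4, -2, 2, 1, -3], [-1, -2, 4, -1, -2, 3], [-2, 2, -1, 4, 2, -3],
  [-1, 1, -2, 2, 4, -3], [0, -3, 3, -3, -3, 6]]

/-- weighted vectors -/
def wt6_3 : List (ℕ × List ℤ) :=
  [(6, [0, 0, 0, 0, 0, 0]), (1, [-1, -1, 0, -1, 0, -1]), (1, [0, 0, 0, 0, -1, 0]), (1, [0, 0, 1,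
  0, 1, 0]), (1, [-1, 0, -1, 0, -1, 0]), (2, [0, 1, 1, 0, 0, 0]), (1, [-1, 0, 0, -1, 0, -1]),
  (1, [0, 0, 0, 1, 0, 1]), (1, [0, 0, 1, -1, 0, -1]), (1, [-1, -1, -1, 0, -1, 0]), (1, [0, 0,
  0, 1, 0, 0]), (1, [-1, 0, 0, -1, 0, 0]), (1, [-1, -1, 0, 0, -1, -1]), (1, [0, 1, 0, 0, 1,
  1]), (1, [-1, -1, -1, 0, -1, -1]), (1, [-1, 0, -1, -1, 0, 0]), (1, [0, 0, 0, 0, 1, 1]), (1,
  [0, -1, 0, 1, 0, 0])]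

theorem ck6_3 : chk 6 gm6_3 im6_3 2 3 wt6_3 = true := by
  decide +kernel

/-- inverse matrix times an integer -/
def im6_4 : List (List ℤ) :=
  [[16, -8, -8, -6, 10, -6], [-8, 10, 4, 3, -8, 3], [-8, 4, 10, 3, -8, 3], [-6, 3, 3, 9, -6, 0],
  [10, -8, -8, -6, 16, -6], [-6, 3, 3, 0, -6, 9]]

/-- weighted vectors -/
def wt6_4 : List (ℕ × List ℤ) :=
  [(21, [0, 0, 0, 0, 0, 0]), (1, [0, 0, 0, -1, -1, -1]), (1, [0, -1, 0, 0, -1, -1]), (1, [0, -1,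
  -1, 0, -1, 0]), (2, [0, 0, -1, -1, -1, 0]), (2, [0, 0, 1, 0, 0, -1]), (1, [1, 1, 1, 0, 0,
  0]), (2, [-1, -1, -1, -1, -1, -1]), (2, [1, 0, 1, 1, 0, 0]), (1, [1, 0, 0, 0, -1, 0]), (1,
  [-1, 0, 0, -1, 0, -1]), (1, [1, 1, 0, 0, 0, 1]), (1, [0, 0, -1, -1, -1, -1]), (1, [0, -1, 0,
  0, -1, 0]), (1, [0, 1, 0, -1, 0, -1]), (1, [0, 0, 0, -1, -1, 0]), (3, [1, 1, 0, 0, 0, 0]),
  (1, [-1, -1, 0, -1, -1, -1]), (3, [1, 0, 0, 1, 0, 0]), (1, [1, 0, 1, 1, 0, 1]), (2, [0, 1, 0,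
  0, 0, 0]), (2, [0, -1, 0, -1, -1, -1]), (1, [0, 0, 0, 0, -1, -1]), (2, [0, 0, -1, 0, -1, 0]),
  (1, [0, 0, 1, -1, 0, -1]), (1, [-1, 0, -1, -1, -1, -1]), (2, [-1, -1, -1, 0, -1, -1]), (1,
  [-1, 0, 0, 0, 0, -1]), (1, [0, -1, 1, 0, 0, 0]), (2, [0, 0, 1, -1, 0, 0]), (2, [0, 0, 0, 0,
  -1, 0]), (1, [0, -1, 0, -1, -1, 0]), (2, [0, 1, 0, 0, 0, -1]), (1, [1, 1, 0, 1, 0, 0]), (1,
  [1, 1, 1, 0, 1, 0]), (2, [1, 0, 1, 0, 0, 1])]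

theorem ck6_4 : chk 6 gm6_4 im6_4 4 18 wt6_4 = true := by
  decide +kernel

/-- inverse matrix times an integer -/
def im6_5 : List (List ℤ) :=
  [[2, 1, 1, -2, 1, -2], [1, 2, 1, -2, 1, -2], [1, 1, 2, -2, 1, -2], [-2, -2, -2, 4, -2, 3], [1,
  1, 1, -2, 2, -2], [-2, -2, -2, 3, -2, 4]]

/-- weighted vectors -/
def wt6_5 : List (ℕ × List ℤ) :=
  [(6, [0, 0, 0, 0, 0, 0]), (1, [0, -1, 0, 0, 0, -1]), (1, [0, 0, 1, 1, 1, 0]), (1, [0, -1, -1,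
  -1, -1, -1]), (1, [0, -1, -1, -1, 0, 0]), (1, [-1, 0, -1, -1, -1, -1]), (1, [-1, 0, 0, 0, 1,
  0]), (1, [-1, 0, 0, 0, -1, -1]), (1, [1, 0, 0, 0, 0, 0]), (1, [0, 0, 0, 0, 1, 0]), (1, [0, 1,
  0, 0, 0, 0]), (1, [-1, -1, 0, -1, -1, -1]), (1, [-1, -1, 0, -1, 0, 0]), (1, [0, -1, 1, 0, 0,
  0]), (1, [0, 0, 1, 0, -1, 0]), (1, [0, 0, 0, 1, 0, -1]), (1, [0, -1, -1, 0, 0, -1]), (1, [-1,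
  0, 0, -1, 0, 0]), (1, [-1, 0, -1, 0, 0, -1])]

theorem ck6_5 : chk 6 gm6_5 im6_5 4 3 wt6_5 = true := by
  decide +kernel

/-- inverse matrix times an integer -/
def im6_6 : List (List ℤ) :=
  [[24, -16, -9, -13, 8, 11], [-16, 28, 6, 13, -14, -16], [-9, 6, 18, 0, -3, -9], [-13, 13, 0,
  26, -13, -13], [8, -14, -3, -13, 20, 8], [11, -16, -9, -13, 8, 24]]

/-- weighted vectors -/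
def wt6_6 : List (ℕ × List ℤ) :=
  [(14, [0, 0, 0, 0, 0, 0]), (1, [0, 0, 0, 0, 0, -1]), (1, [1, 0, 0, 0, 0, -1]), (1, [0, -1, 0,
  -1, -1, -1]), (1, [-1, -1, 0, -1, -1, -1]), (1, [1, 1, 0, 1, 1, 0]), (1, [0, 0, 0, 1, 0, 0]),
  (1, [0, 0, 0, -1, 0, -1]), (1, [1, 0, 0, 1, 0, 0]), (1, [0, -1, 0, 0, -1, -1]), (1, [0, 1, 0,
  0, 1, 0]), (1, [1, 0, 0, 1, 1, 0]), (1, [0, -1, 0, 0, 0, -1]), (1, [0, 1, 0, 0, 0, 0]), (1,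
  [-1, -1, 0, 0, 0, -1]), (1, [1, 1, 0, 0, 0, 0]), (1, [0, 0, 0, 0, -1, 0]), (1, [1, 0, 0, 0,
  -1, 0]), (1, [0, -1, 0, 1, 0, 0]), (1, [-1, 0, -1, 0, 0, 0]), (1, [-1, -1, -1, -1, -1, -1]),
  (1, [1, 1, 1, 1, 1, 0]), (1, [-1, 0, -1, -1, 0, -1]), (3, [0, 0, -1, -1, 0, -1]), (1, [0, -1,
  -1, 0, -1, -1]), (1, [1, 0, 1, 1, 1, 0]), (1, [0, 0, 1, 1, 1, 0]), (1, [-1, -1, -1, 0, 0,
  -1]), (1, [1, 1, 1, 0, 0, 0]), (1, [0, 1, -1, 0, 0, 0]), (1, [1, 0, 1, 0, -1, 0]), (1, [0, 0,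
  -1, 0, -1, 0]), (1, [0, 0, -1, 0, 1, -1])]

theorem ck6_6 : chk 6 gm6_6 im6_6 4 39 wt6_6 = true := by
  decide +kernel

/-- inverse matrix times an integer -/
def im6_7 : List (List ℤ) :=
  [[4, -2, -2, 1, -1, 0], [-2, 4, 2, -2, 0, -1], [-2, 2, 4, -2, 1, -2], [1, -2, -2, 4, -2, 2],
  [-1, 0, 1, -2, 4, -2], [0, -1, -2, 2, -2, 4]]

/-- weighted vectors -/
def wt6_7 : List (ℕ × List ℤ) :=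
  [(23, [0, 0, 0, 0, 0, 0]), (1, [1, 1, 0, 1, 1, 0]), (1, [0, 0, 1, 1, 0, 0]), (1, [0, 1, 0, 0,
  0, 0]), (1, [1, 1, 1, 1, 1, 1]), (1, [0, 0, -1, 0, 0, -1]), (1, [1, 0, 0, 0, 1, 1]), (1, [0,
  1, 0, 1, 0, -1]), (1, [1, 1, 0, 0, 1, 1]), (1, [0, 0, 0, 1, 0, -1]), (1, [1, 0, 1, 1, 1, 1]),
  (1, [0, 1, -1, 0, 0, -1]), (1, [0, 1, 0, 1, 0, 0]), (1, [1, 0, 0, 0, 1, 0]), (1, [0, 0, -1,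
  0, 0, 0]), (1, [1, 1, 1, 1, 1, 0]), (1, [0, 1, -1, 0, 0, 0]), (1, [1, 0, 1, 1, 1, 0]), (1,
  [0, 0, 0, 1, 0, 0]), (1, [1, 1, 0, 0, 1, 0]), (1, [1, 0, 1, 0, 1, 1]), (1, [0, 1, -1, 1, 0,
  -1]), (1, [1, 1, 0, 1, 1, 1]), (1, [0, 0, 0, 0, 0, -1]), (1, [0, 1, 0, 0, 0, 1]), (1, [1, 1,
  1, 0, 1, 1]), (1, [1, 0, 0, 0, 0, 0]), (1, [0, 1, 0, 1, 1, 0]), (1, [1, 1, 1, 1, 0, 0]), (1,
  [0, 0, -1, 0, 1, 0]), (1, [1, 0, 1, 1, 0, 0]), (1, [0, 1, -1, 0, 1, 0]), (1, [1, 1, 0, 0, 0,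
  0]), (1, [0, 0, 0, 1, 1, 0]), (1, [1, 0, 1, 0, 0, 1]), (1, [0, 0, 0, 0, -1, -1]), (1, [0, 1,
  0, 0, 1, 1]), (1, [-1, 0, 0, 1, 0, -1]), (1, [0, 0, 1, 1, 1, 1]), (1, [1, 1, 1, 0, 0, 1]),
  (1, [1, 1, 0, 1, 0, 0]), (1, [0, 0, 0, 0, 1, 0]), (1, [1, 0, 1, 0, 0, 0]), (1, [0, 1, -1, 1,
  1, 0]), (1, [0, 0, 1, 1, 1, 0]), (1, [-1, 0, 0, 1, 0, 0]), (1, [0, 0, -1, 0, -1, -1]), (1,
  [0, 1, 0, 1, 1, 1]), (1, [1, 1, 0, 0, 0, 1]), (1, [-1, 0, -1, 1, 0, -1])]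

theorem ck6_7 : chk 6 gm6_7 im6_7 4 7 wt6_7 = true := by
  decide +kernel

end Run7.h92
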