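import Pool.Agent.Run7.h92.GramD
import Pool.Agent.Run7.h92.GramT

/-!
# Checks for forms of rank 7
-/

namespace Run7.h92

/-- inverse matrix times an integer -/
def im7_1 : List (List ℤ) :=
  [[4, -2, 2, -2, -2, 0, 2], [-2, 3, -1, 1, 1, -1, -2], [2, -1, 3, -1, -1, -1, 0], [-2, 1, -1, 3,
  1, -1, -2], [-2, 1, -1, 1, 3, -1, -2], [0, -1, -1, -1, -1, 3, 2], [2, -2, 0, -2, -2, 2, 4]]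

/-- weighted vectors -/
def wt7_1 : List (ℕ × List ℤ) :=
  [(8, [0, 0, 0, 0, 0, 0, 0]), (1, [-1, 0, 1, 0, 0, 0, 0]), (1, [1, 1, 0, 0, 1, 1, 0]), (1, [1,
  1, 1, 1, 1, 1, 1]), (1, [0, 0, 1, 0, 1, 1, 0]), (1, [0, 1, 0, 0, 0, 0, 0]), (1, [0, -1, -1,
  -1, 0, 0, -1]), (1, [0, 0, -1, -1, 0, -1, 0]), (1, [0, 1, 1, 0, 1, 0, 1]), (1, [0, 0, 0, 0,
  0, 1, -1]), (1, [1, 1, 0, 1, 0, 1, 0]), (1, [0, 0, -1, -1, -1, 0, -1]), (1, [0, 1, 1, 0, 0,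
  1, 0]), (1, [0, 0, 0, 0, 1, 0, 0]), (1, [1, 1, 0, 1, 1, 0, 1]), (1, [1, 0, 0, 1, 1, 1, 0]),
  (1, [0, 0, 0, -1, 0, 0, 0]), (1, [0, 0, 0, 1, 0, 0, 1]), (1, [0, 1, 1, 1, 1, 1, 1]), (1, [0,
  0, -1, 0, 0, 0, 0]), (1, [-1, -1, 0, 0, 0, 0, 0]), (1, [-1, 0, 0, 0, 0, -1, 1]), (1, [0, 0,
  0, 0, 1, 0, 1]), (1, [-1, 0, 0, 0, -1, 0, 0]), (1, [0, 0, 0, 0, 0, 1, 0]), (1, [0, 1, 0, 0,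
  0, 0, 1]), (1, [-1, 0, 0, -1, 0, 0, 0]), (1, [1, 1, 1, 1, 1, 1, 0]), (1, [-1, 0, 1, 0, 0, 0,
  1])]

theorem ck7_1 : chk 7 gm7_1 im7_1 2 2 wt7_1 = true := by
  decide +kernel

/-- inverse matrix times an integer -/
def im7_2 : List (List ℤ) :=
  [[7, -5, 2, 4, 2, -2, -5], [-5, 7, -2, -4, -2, 2, 3], [2, -2, 4, 0, 0, 0, -2], [4, -4, 0, 8, 0,
  -4, -4], [2, -2, 0, 0, 4, 0, -2], [-2, 2, 0, -4, 0, 4, 2], [-5, 3, -2, -4, -2, 2, 7]]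

/-- weighted vectors -/
def wt7_2 : List (ℕ × List ℤ) :=
  [(32, [0, 0, 0, 0, 0, 0, 0]), (1, [0, -1, -1, 0, -1, 0, 0]), (1, [0, 0, 0, 1, 0, 0, 1]), (1,
  [0, -1, -1, 0, -1, 1, 0]), (1, [0, 0, 0, 1, 0, 1, 1]), (1, [0, -1, 0, 0, -1, 0, 0]), (1, [0,
  0, 1, 1, 0, 0, 1]), (1, [0, -1, 0, 0, -1, 1, 0]), (1, [0, 0, 1, 1, 0, 1, 1]), (1, [1, 0, -1,
  0, -1, 0, 0]), (1, [1, 1, 0, 1, 0, 0, 1]), (1, [1, 0, -1, 0, -1, 1, 0]), (1, [1, 1, 0, 1, 0,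
  1, 1]), (1, [1, 0, 0, 0, -1, 0, 0]), (1, [1, 1, 1, 1, 0, 0, 1]), (1, [1, 0, 0, 0, -1, 1, 0]),
  (1, [1, 1, 1, 1, 0, 1, 1]), (1, [0, -1, -1, 0, 0, 0, 0]), (1, [0, 0, 0, 1, 1, 0, 1]), (1, [0,
  -1, -1, 0, 0, 1, 0]), (1, [0, 0, 0, 1, 1, 1, 1]), (1, [0, -1, 0, 0, 0, 0, 0]), (1, [0, 0, 1,
  1, 1, 0, 1]), (1, [0, -1, 0, 0, 0, 1, 0]), (1, [0, 0, 1, 1, 1, 1, 1]), (1, [1, 0, -1, 0, 0,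
  0, 0]), (1, [1, 1, 0, 1, 1, 0, 1]), (1, [1, 0, -1, 0, 0, 1, 0]), (1, [1, 1, 0, 1, 1, 1, 1]),
  (1, [1, 0, 0, 0, 0, 0, 0]), (1, [1, 1, 1, 1, 1, 0, 1]), (1, [1, 0, 0, 0, 0, 1, 0]), (1, [1,
  1, 1, 1, 1, 1, 1]), (1, [1, 1, 1, 0, 1, 0, 1]), (1, [1, 0, 0, -1, 0, 0, 0]), (1, [1, 1, 1, 0,
  1, -1, 1]), (1, [1, 0, 0, -1, 0, -1, 0]), (1, [1, 1, 0, 0, 1, 0, 1]), (1, [1, 0, -1, -1, 0,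
  0, 0]), (1, [1, 1, 0, 0, 1, -1, 1]), (1, [1, 0, -1, -1, 0, -1, 0]), (1, [0, 0, 1, 0, 1, 0,
  1]), (1, [0, -1, 0, -1, 0, 0, 0]), (1, [0, 0, 1, 0, 1, -1, 1]), (1, [0, -1, 0, -1, 0, -1,
  0]), (1, [0, 0, 0, 0, 1, 0, 1]), (1, [0, -1, -1, -1, 0, 0, 0]), (1, [0, 0, 0, 0, 1, -1, 1]),
  (1, [0, -1, -1, -1, 0, -1, 0]), (1, [1, 1, 1, 0, 0, 0, 1]), (1, [1, 0, 0, -1, -1, 0, 0]), (1,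
  [1, 1, 1, 0, 0, -1, 1]), (1, [1, 0, 0, -1, -1, -1, 0]), (1, [1, 1, 0, 0, 0, 0, 1]), (1, [1,
  0, -1, -1, -1, 0, 0]), (1, [1, 1, 0, 0, 0, -1, 1]), (1, [1, 0, -1, -1, -1, -1, 0]), (1, [0,
  0, 1, 0, 0, 0, 1]), (1, [0, -1, 0, -1, -1, 0, 0]), (1, [0, 0, 1, 0, 0, -1, 1]), (1, [0, -1,
  0, -1, -1, -1, 0]), (1, [0, 0, 0, 0, 0, 0, 1]), (1, [0, -1, -1, -1, -1, 0, 0]), (1, [0, 0, 0,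
  0, 0, -1, 1]), (1, [0, -1, -1, -1, -1, -1, 0])]

theorem ck7_2 : chk 7 gm7_2 im7_2 2 4 wt7_2 = true := by
  decide +kernel

/-- inverse matrix times an integer -/
def im7_3 : List (List ℤ) :=
  [[12, 0, -6, -6, 6, 6, -6], [0, 12, -6, -6, 0, -6, 6], [-6, -6, 13, 7, -6, -1, -2], [-6, -6, 7,
  13, -6, -1, -2], [6, 0, -6, -6, 12, 6, -6], [6, -6, -1, -1, 6, 13, -10], [-6, 6, -2, -2, -6,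
  -10, 16]]

/-- weighted vectors -/
def wt7_3 : List (ℕ × List ℤ) :=
  [(288, [0, 0, 0, 0, 0, 0, 0]), (28, [-1, 0, 0, -1, 0, 0, 0]), (10, [-1, 0, 0, 0, 0, 0, 0]),
  (16, [0, 0, 1, -1, 0, 0, 0]), (30, [0, 0, -1, 0, 0, 0, 0]), (20, [0, -1, 0, -1, 0, -1, 0]),
  (32, [0, 1, 0, 0, 0, 1, 0]), (10, [-1, -1, -1, -1, 0, -1, -1]), (4, [0, 1, 1, 0, 0, 1, 1]),
  (12, [1, 1, 1, 0, 0, 1, 1]), (14, [0, 1, 0, 1, 0, 1, 1]), (6, [1, 1, 0, 1, 0, 1, 1]), (22,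
  [1, 0, 1, 0, 0, 0, 1]), (15, [-1, 0, 0, -1, 0, 0, -1]), (30, [0, 0, 0, 0, 0, 0, 1]), (3, [1,
  0, 0, 0, 0, 0, 1]), (31, [1, 0, 1, 0, 1, 0, 1]), (6, [0, 0, 1, 0, 1, 0, 1]), (21, [-1, 0, -1,
  -1, -1, 0, -1]), (14, [1, 0, 0, 1, 1, 0, 1]), (15, [0, 0, 0, 0, 1, 0, 1]), (9, [0, 0, 0, 1,
  1, 0, 1]), (5, [0, 1, 1, 0, 1, 1, 1]), (23, [0, 1, 1, 1, 1, 1, 1]), (28, [0, 1, 0, 1, 1, 1,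
  1]), (38, [0, -1, 0, 0, 1, -1, 0]), (6, [0, 0, 0, 0, 1, 0, 0]), (20, [-1, 0, 0, 0, 1, 0, 0]),
  (12, [0, 0, 1, 0, 1, 0, 0]), (20, [1, 0, 0, 1, 0, 1, 1]), (2, [0, 0, 0, 1, 0, 1, 1]), (28,
  [1, 0, 1, 0, 0, 1, 1]), (10, [0, 0, 1, 0, 0, 1, 1]), (16, [0, -1, 0, 0, 0, 0, 1]), (8, [0,
  -1, -1, 0, 0, 0, 0]), (23, [-1, -1, -1, -1, 0, 0, 0]), (29, [-1, -1, -1, 0, 0, 0, 0]), (27,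
  [0, -1, 0, -1, 0, 0, 0]), (6, [-1, -1, 0, -1, 0, 0, 0]), (5, [0, 1, 0, 0, 0, 0, 0]), (18, [0,
  0, 0, 0, 0, 1, 0]), (5, [-1, 0, 0, -1, 0, 1, 0]), (31, [-1, 0, 0, 0, 0, 1, 0]), (6, [-1, 0,
  -1, 0, -1, 1, 0]), (34, [-1, 0, 0, -1, -1, 1, 0]), (8, [0, 0, 0, -1, -1, 1, 0]), (43, [0, 1,
  1, 0, 1, 0, 0]), (25, [0, -1, -1, -1, -1, 0, 0]), (10, [1, 1, 1, 1, 1, 0, 1]), (20, [0, 0, 0,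
  1, 1, 1, 1]), (10, [0, 0, 1, 0, 1, 1, 1])]

theorem ck7_3 : chk 7 gm7_3 im7_3 4 18 wt7_3 = true := by
  decide +kernel

/-- inverse matrix times an integer -/
def im7_4 : List (List ℤ) :=
  [[20, -12, -10, -6, 8, -18, 14], [-12, 20, 6, 10, -8, 14, -18], [-10, 6, 21, 3, -12, 17, -15],
  [-6, 10, 3, 21, -12, 15, -17], [8, -8, -12, -12, 24, -20, 12], [-18, 14, 17, 15, -20, 37,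
  -27], [14, -18, -15, -17, 12, -27, 37]]

/-- weighted vectors -/
def wt7_4 : List (ℕ × List ℤ) :=
  [(30, [0, 0, 0, 0, 0, 0, 0]), (3, [0, 0, 0, 1, 0, -1, 0]), (2, [0, 1, 1, 0, 0, 0, 1]), (2, [-1,
  0, 0, 1, 0, -1, 0]), (1, [1, 0, 0, 0, 0, 0, 0]), (5, [1, 1, 1, 0, 0, 0, 1]), (1, [0, 0, 1, 1,
  0, -1, 0]), (4, [1, 0, 1, 0, 0, 0, 0]), (1, [0, 0, 1, 0, 0, -1, 0]), (1, [-1, 0, 1, 0, 0, -1,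
  0]), (2, [-1, -1, 0, 0, 0, -1, -1]), (3, [0, 0, 0, 1, 0, 0, 0]), (1, [-1, 0, 0, 0, 0, -1,
  0]), (2, [1, 0, 0, 1, 0, 0, 0]), (2, [0, 1, 1, 1, 1, 0, 1]), (1, [0, 0, 0, 1, 1, 0, 0]), (1,
  [0, 0, 0, 0, -1, -1, 0]), (3, [-1, 0, 0, 0, -1, -1, 0]), (1, [0, -1, 0, 0, -1, -1, -1]), (3,
  [1, 1, 0, 0, 1, 1, 1]), (1, [1, 0, 1, 1, 1, 0, 0]), (4, [0, 0, -1, 0, -1, 0, 0]), (2, [1, 1,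
  0, 1, 1, 1, 1]), (1, [0, 0, 0, 0, 1, 0, 0]), (3, [-1, -1, -1, -1, -1, -1, -1]), (4, [0, 1, 0,
  0, 0, 0, 0]), (2, [-1, -1, 0, 1, 0, -1, 0]), (1, [1, 1, 1, 0, 0, 0, 0]), (1, [-1, -1, 1, 1,
  0, -1, 0]), (2, [-1, 0, 0, 0, 0, 0, 1]), (1, [0, 1, 1, 0, 0, -1, 0]), (3, [0, 0, 0, 0, 0, -1,
  -1]), (3, [0, 0, 0, 1, 0, 0, 1]), (2, [0, 1, 0, 0, 0, -1, 0]), (3, [0, 0, 1, 1, 0, 0, 1]),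
  (1, [0, 1, 0, 0, -1, -1, 0]), (3, [-1, 0, 1, 1, 1, 0, 1]), (2, [0, 0, 0, 0, -1, -1, -1]), (4,
  [0, 1, -1, -1, -1, 0, 0]), (2, [0, 0, 0, -1, -1, -1, -1]), (1, [1, 1, 1, 0, 1, 0, 0]), (2,
  [0, 0, -1, -1, -1, -1, -1]), (3, [0, 1, 0, 0, 1, 0, 0])]

theorem ck7_4 : chk 7 gm7_4 im7_4 4 32 wt7_4 = true := by
  decide +kernel

/-- inverse matrix times an integer -/
def im7_5 : List (List ℤ) :=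
  [[133, 66, -10, -44, -54, -23, -50], [66, 132, -60, 12, 12, -66, -60], [-10, -60, 100, -40,
  -60, 50, 20], [-44, 12, -40, 112, 72, -56, -20], [-54, 12, -60, 72, 132, -66, 0], [-23, -66,
  50, -56, -66, 133, 10], [-50, -60, 20, -20, 0, 10, 100]]

/-- weighted vectors -/
def wt7_5 : List (ℕ × List ℤ) :=
  [(21, [0, 0, 0, 0, 0, 0, 0]), (1, [0, 0, 0, -1, 1, 0, -1]), (1, [1, 0, 0, 0, 1, 1, 0]), (1,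
  [-1, 0, 0, -1, 0, -1, -1]), (2, [-1, 0, 0, -1, -1, -1, -1]), (1, [0, 0, 0, -1, 0, 0, 0]), (1,
  [1, 0, 0, 1, 1, 1, 0]), (1, [0, 0, 0, 0, 0, 1, 0]), (1, [1, 0, 0, 0, 1, 0, 0]), (1, [0, 0, 0,
  0, 1, 1, 0]), (1, [1, 0, 0, 0, 0, 0, 0]), (1, [-1, 0, 0, 0, -1, 0, -1]), (1, [-1, 0, 0, -1,
  0, 0, 0]), (1, [0, 0, 0, 1, 0, 1, 0]), (1, [-1, 0, 0, 0, 0, 0, -1]), (1, [0, 1, 0, 0, 0, 1,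
  0]), (1, [-1, 1, 0, 0, -1, 0, 0]), (1, [0, 1, 0, 0, 1, 1, 0]), (1, [-1, 1, 0, 0, 0, 0, 0]),
  (1, [0, 1, 0, 0, 0, 1, 1]), (1, [-1, 1, 0, -1, 0, 0, 0]), (1, [0, 1, 0, 1, 0, 1, 0]), (1, [0,
  1, 0, 0, 1, 1, 1]), (2, [1, 1, 0, 1, 0, 1, 1]), (1, [0, -1, 0, 0, 0, 0, -1]), (1, [1, 1, 0,
  0, 1, 1, 1]), (1, [0, 1, 1, 1, 0, 1, 1]), (1, [-1, 1, 1, 0, 0, 0, 0]), (1, [0, 1, 1, 1, 0, 1,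
  0]), (1, [0, 1, 1, 0, 1, 1, 1]), (2, [0, -1, -1, -1, 0, 0, -1]), (1, [0, 1, 1, 0, 0, 0, 0]),
  (1, [1, 1, 1, 1, 0, 1, 1]), (1, [0, 1, 1, 1, 0, 0, 0]), (1, [0, 1, 1, 0, 1, 0, 1]), (2, [0,
  1, 1, -1, 1, 0, 0]), (1, [0, 0, 1, 0, 1, 0, 0]), (1, [-1, 0, -1, -1, -1, -1, -1]), (2, [1, 0,
  1, 0, 1, 1, 0]), (2, [0, 0, 1, 0, 1, 0, -1]), (1, [0, 0, 1, 0, 0, 0, -1]), (1, [0, 0, 1, -1,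
  1, 0, 0]), (1, [0, 0, -1, 0, 0, 1, 0]), (1, [-1, 0, -1, -1, 0, 0, -1]), (1, [-1, 0, -1, 0,
  -1, 0, -1]), (1, [-1, 0, -1, -1, 0, 0, 0])]

theorem ck7_5 : chk 7 gm7_5 im7_5 4 180 wt7_5 = true := by
  decide +kernel

/-- inverse matrix times an integer -/
def im7_6 : List (List ℤ) :=
  [[27, -9, -6, 12, -3, -9, -6], [-9, 27, 18, -12, -15, 3, -6], [-6, 18, 44, -24, -26, 18, -20],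
  [12, -12, -24, 32, 12, -20, 8], [-3, -15, -26, 12, 35, -15, 14], [-9, 3, 18, -20, -15, 35,
  -14], [-6, -6, -20, 8, 14, -14, 28]]

/-- weighted vectors -/
def wt7_6 : List (ℕ × List ℤ) :=
  [(40, [0, 0, 0, 0, 0, 0, 0]), (2, [0, 0, 1, 0, 0, 0, 0]), (1, [1, 1, -1, 0, 0, 1, 0]), (1, [0,
  0, 0, -1, 0, 0, 0]), (3, [0, 0, 1, 1, 0, 0, 0]), (3, [1, 1, 0, 0, 1, 1, 0]), (3, [1, 1, 0, 1,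
  1, 1, 0]), (2, [0, 0, 0, 1, -1, 0, 0]), (3, [0, 0, -1, -1, -1, 0, 0]), (2, [1, 0, 0, 0, 0, 1,
  0]), (2, [0, 1, -1, 0, 0, 0, 0]), (1, [0, 1, 0, 1, 0, 0, 0]), (1, [0, -1, 0, 0, -1, 0, 0]),
  (1, [1, 0, 0, 0, 1, 1, 0]), (3, [0, -1, -1, -1, -1, 0, 0]), (1, [0, 0, 0, 0, 0, 0, -1]), (2,
  [1, 1, 0, 0, 0, 1, 1]), (1, [0, 0, -1, 0, 0, 0, -1]), (1, [0, 0, 0, 1, 0, 0, -1]), (1, [0, 0,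
  0, 0, -1, 0, 1]), (4, [1, 1, 1, 0, 1, 1, 1]), (3, [0, 0, -1, 0, -1, 0, -1]), (1, [1, 1, 1, 1,
  1, 1, 1]), (1, [1, 0, 0, 0, 0, 1, 1]), (3, [0, 1, 0, 0, 0, 0, 1]), (3, [0, 1, -1, 0, 0, 0,
  -1]), (4, [1, 0, 1, 1, 0, 1, 1]), (1, [0, -1, 0, 0, -1, 0, 1]), (2, [1, 0, 1, 1, 1, 1, 1]),
  (2, [1, 1, 0, 0, 0, 0, 0]), (3, [0, 0, 1, 0, 0, -1, 0]), (3, [1, 1, 0, 0, 1, 0, 0]), (2, [0,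
  0, 0, 0, -1, -1, 0]), (2, [1, 1, 0, -1, 1, 0, 0]), (2, [0, 0, -1, -1, -1, -1, 0]), (2, [0, 1,
  -1, 0, 0, 1, 0]), (2, [1, 0, 0, -1, 0, 0, 0]), (2, [0, 1, 0, 1, 0, 1, 0]), (1, [1, 0, -1, -1,
  0, 0, 0]), (2, [0, -1, 0, 0, -1, -1, 0]), (2, [1, 0, 1, 0, 1, 0, 0]), (1, [0, -1, 0, -1, -1,
  -1, 0]), (2, [1, 0, 0, -1, 1, 0, 0]), (1, [0, 0, 0, 0, 0, -1, -1]), (3, [1, 1, 0, 0, 0, 0,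
  1]), (1, [0, 0, 0, -1, 0, -1, -1]), (2, [0, 0, -1, -1, 0, -1, -1]), (3, [0, 0, -1, -1, -1,
  -1, -1]), (3, [1, 0, 0, 0, 0, 0, 1]), (3, [1, 0, 0, -1, 0, 0, 1]), (3, [0, 1, 0, 1, 0, 1,
  1]), (1, [1, 0, 1, 0, 1, 0, 1])]

theorem ck7_6 : chk 7 gm7_6 im7_6 4 48 wt7_6 = true := by
  decide +kernel

end Run7.h92
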