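import Pool.Agent.Run7.h92.GramD
import Pool.Agent.Run7.h92.GramT

/-!
# Checks for forms of rank 7
-/

namespace Run7.h92

/-- inverse matrix times an integer -/
def im7_7 : List (List ℤ) :=
  [[52, 14, -24, -32, 0, -18, -4], [14, 49, 0, -28, 0, -21, -14], [-24, 0, 48, 24, -12, 24, -24],
  [-32, -28, 24, 64, -24, 36, -4], [0, 0, -12, -24, 48, -24, 0], [-18, -21, 24, 36, -24, 57,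
  -18], [-4, -14, -24, -4, 0, -18, 52]]

/-- weighted vectors -/
def wt7_7 : List (ℕ × List ℤ) :=
  [(20, [0, 0, 0, 0, 0, 0, 0]), (1, [-1, 1, -1, 0, 0, 0, 0]), (1, [-1, 0, -1, -1, -1, 0, -1]),
  (2, [1, 1, 0, 1, 1, 0, 1]), (1, [-1, 0, -1, 0, 0, 0, 0]), (2, [0, 1, 0, 0, 0, 0, 0]), (1, [0,
  0, -1, 0, 0, 0, 0]), (1, [-1, 1, 0, 0, 0, 0, 0]), (1, [-1, 1, -1, 0, 0, 1, 0]), (2, [0, 1, 0,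
  1, 1, 1, 1]), (1, [0, 1, -1, 0, 0, 1, 0]), (2, [1, 1, 0, 1, 1, 1, 1]), (1, [0, -1, 0, 0, 0,
  -1, 0]), (1, [0, 0, 0, 1, 1, 0, 0]), (1, [-1, 0, -1, 0, 0, 0, -1]), (1, [0, 1, 0, 0, 0, 0,
  1]), (1, [0, 1, -1, 1, 1, 0, 0]), (1, [0, 0, 1, 0, 0, 0, 1]), (1, [-1, 0, -1, -1, -1, 0, 0]),
  (1, [0, 1, 1, 0, 0, 0, 1]), (1, [-1, 0, -1, 0, 0, -1, -1]), (2, [-1, -1, 0, -1, -1, -1, 0]),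
  (2, [-1, 0, 0, 0, 0, -1, -1]), (1, [0, 0, 0, 1, 0, 0, 0]), (1, [-1, 0, -1, 0, -1, 0, -1]),
  (1, [0, 0, 1, 0, 1, 0, 1]), (1, [0, 0, -1, 1, 0, 0, 0]), (1, [1, 1, 0, 1, 0, 0, 0]), (2, [0,
  0, 0, 1, 0, -1, 0]), (1, [1, 0, 0, 1, 0, -1, 0]), (1, [1, 0, 1, 1, 0, -1, 0]), (1, [0, 0, 0,
  0, -1, -1, -1]), (1, [-1, -1, -1, 0, -1, -1, -1]), (1, [0, -1, -1, 0, -1, -1, -1]), (2, [0,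
  0, 0, 0, 1, 0, 0]), (1, [0, 1, 0, 1, 0, 0, 1]), (1, [0, 0, 1, -1, 0, 0, 1]), (1, [-1, 0, -1,
  0, -1, 0, 0]), (1, [1, 1, 1, 1, 0, 0, 1]), (1, [0, 0, -1, 0, -1, 0, 0]), (1, [-1, 0, 0, 0,
  -1, -1, 0]), (1, [0, 0, -1, 1, 0, -1, -1]), (1, [0, -1, 0, 0, -1, -1, 0]), (1, [0, 0, 0, 1,
  0, -1, -1]), (1, [0, 0, 1, 0, -1, -1, 0])]

theorem ck7_7 : chk 7 gm7_7 im7_7 4 84 wt7_7 = true := by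
  decide +kernel

/-- inverse matrix times an integer -/
def im7_8 : List (List ℤ) :=
  [[21, 4, 9, 12, -21, 10, -21], [4, 16, 4, 8, -12, 0, -12], [9, 4, 21, 12, -21, 10, -21], [12,
  8, 12, 24, -24, 8, -24], [-21, -12, -21, -24, 45, -18, 33], [10, 0, 10, 8, -18, 20, -18],
  [-21, -12, -21, -24, 33, -18, 45]]

/-- weighted vectors -/
def wt7_8 : List (ℕ × List ℤ) :=
  [(16, [0, 0, 0, 0, 0, 0, 0]), (2, [0, -1, -1, -1, -1, -1, -1]), (2, [-1, 0, 0, 1, 0, 0, 0]),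
  (1, [0, 0, 0, 1, 0, 0, 0]), (1, [1, 0, 0, 0, 0, 0, 0]), (3, [0, -1, 0, 0, 0, -1, -1]), (1,
  [1, 0, 1, 0, 1, 0, 0]), (2, [-1, -1, -1, 0, 0, 0, -1]), (1, [0, -1, 0, -1, 0, -1, -1]), (2,
  [0, 0, 0, -1, -1, -1, 0]), (1, [0, 0, -1, 0, -1, 0, 0]), (1, [0, 0, 1, 0, 0, 0, 0]), (1, [0,
  0, 0, 1, 0, -1, 0]), (2, [1, 1, 1, 1, 1, 0, 1]), (1, [1, 0, 0, 0, 0, -1, 0]), (2, [0, 0, 0,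
  0, 0, -1, 0]), (2, [0, 0, -1, 1, 0, 0, 0]), (1, [1, 0, -1, 0, 0, 0, 0]), (3, [-1, 0, 0, 0,
  -1, 0, 0]), (2, [-1, -1, 0, 0, 0, 0, -1]), (1, [1, 0, 0, 1, 1, 0, 0]), (1, [0, 0, 0, 0, 0,
  -1, -1]), (2, [0, -1, 0, 0, -1, -1, 0]), (2, [-1, 0, -1, 0, 0, 0, -1]), (2, [-1, -1, 0, 0,
  -1, -1, 0]), (3, [0, -1, -1, 0, -1, 0, 0]), (1, [0, 0, -1, -1, -1, -1, -1]), (1, [0, -1, 0,
  1, 0, 0, 0]), (2, [0, -1, 1, 0, 0, -1, 0]), (2, [-1, 0, -1, -1, -1, -1, -1]), (3, [0, 0, 0,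
  -1, 0, 0, -1]), (1, [0, 0, -1, 0, 0, -1, -1]), (1, [0, 1, 0, 1, 1, 0, 0]), (1, [-1, 0, 0, 0,
  0, 0, -1]), (1, [0, -1, -1, 1, 0, 0, 0]), (1, [-1, 0, 0, -1, -1, -1, -1])]

theorem ck7_8 : chk 7 gm7_8 im7_8 6 48 wt7_8 = true := by
  decide +kernel

/-- inverse matrix times an integer -/
def im7_9 : List (List ℤ) :=
  [[152, 36, -80, -92, -92, 70, 12], [36, 108, -30, -66, -66, 0, 36], [-80, -30, 125, 65, 65,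
  -70, -45], [-92, -66, 65, 157, 87, -70, -57], [-92, -66, 65, 87, 157, -70, -57], [70, 0, -70,
  -70, -70, 140, 0], [12, 36, -45, -57, -57, 0, 117]]

/-- weighted vectors -/
def wt7_9 : List (ℕ × List ℤ) :=
  [(491, [0, 0, 0, 0, 0, 0, 0]), (35, [0, 1, 1, 0, 1, 1, 1]), (4, [0, 0, 0, -1, 1, 0, 0]), (1,
  [0, 1, 0, 1, 1, 1, 1]), (28, [0, 0, 1, 0, -1, 0, 0]), (38, [1, 1, 1, 1, 1, 1, 1]), (32, [-1,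
  0, 0, -1, 0, 0, 0]), (47, [-1, 0, 0, 0, -1, 0, 0]), (27, [0, 0, 1, 0, 0, 1, 0]), (15, [0, 1,
  0, 0, 1, 0, 1]), (11, [0, 1, 0, 1, 0, 0, 1]), (48, [0, 0, 0, 0, -1, -1, 0]), (22, [1, 1, 0,
  1, 1, 0, 1]), (29, [-1, 0, 0, 0, 0, 1, 0]), (22, [0, 0, 1, 0, 0, 1, 1]), (15, [0, 1, 1, 0, 0,
  0, 0]), (51, [0, 0, 0, -1, 0, -1, -1]), (56, [-1, 1, 0, 0, 0, 0, 0]), (71, [-1, 0, -1, -1, 0,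
  -1, -1]), (15, [1, 1, 0, 1, 1, 0, 0]), (56, [1, 1, 1, 1, 0, 0, 0]), (11, [-1, 0, 0, -1, -1,
  -1, -1]), (11, [1, 1, 1, 0, 1, 0, 0]), (26, [0, 1, 1, 1, 0, 1, 0]), (16, [0, 1, 1, 0, 1, 1,
  0]), (19, [0, 0, 0, 0, 0, 0, -1]), (11, [0, 1, 0, 1, 1, 1, 0]), (26, [-1, 0, 0, 0, -1, 0,
  -1]), (11, [-1, 0, 0, -1, 0, 0, -1]), (67, [-1, 0, -1, 0, 0, 0, -1]), (31, [0, 0, -1, 0, -1,
  -1, -1]), (23, [0, 1, 0, 0, 0, 0, 0]), (51, [0, 1, -1, 1, 0, 0, 0]), (18, [0, 1, -1, 0, 1, 0,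
  0]), (22, [-1, 0, -1, -1, -1, -1, -1]), (31, [1, 1, 0, 0, 1, 0, 0]), (47, [0, 0, 0, 0, -1, 0,
  -1]), (31, [0, 0, 0, -1, 0, 0, -1]), (66, [0, 1, 0, 1, 0, 1, 0]), (38, [0, 1, 0, 0, 1, 1,
  0]), (19, [0, 0, 1, 0, 0, 0, 1]), (37, [-1, 0, 0, -1, -1, 0, -1]), (40, [1, 1, 1, 0, 1, 1,
  0]), (17, [-1, 0, -1, 0, -1, 0, -1]), (2, [-1, 0, -1, -1, 0, 0, -1]), (11, [1, 1, 0, 1, 1, 1,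
  0]), (56, [0, 0, 0, -1, 0, 0, 0]), (10, [0, 0, 0, 0, -1, 0, 0]), (40, [0, 0, 1, 0, 0, 0, 0]),
  (26, [0, 1, 0, 0, 1, 1, 1]), (20, [0, 1, 0, 1, 0, 1, 1]), (16, [0, 0, 0, 0, 0, -1, 0]), (4,
  [-1, 1, -1, 0, 0, 0, -1])]

theorem ck7_9 : chk 7 gm7_9 im7_9 4 210 wt7_9 = true := by
  decide +kernel

/-- inverse matrix times an integer -/
def im7_10 : List (List ℤ) :=
  [[16, 4, 8, -8, 4, -8, -12], [4, 13, 4, 0, -3, -8, -7], [8, 4, 16, -8, 4, -8, -12], [-8, 0, -8,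
  16, -8, 0, 8], [4, -3, 4, -8, 13, 0, -7], [-8, -8, -8, 0, 0, 16, 8], [-12, -7, -12, 8, -7, 8,
  21]]

/-- weighted vectors -/
def wt7_10 : List (ℕ × List ℤ) :=
  [(27, [0, 0, 0, 0, 0, 0, 0]), (2, [1, 1, 0, 0, 0, 0, 1]), (1, [0, 1, 1, 0, 0, 1, 1]), (1, [0,
  0, 1, 0, 0, 0, 1]), (1, [0, 1, 0, 0, 0, 1, 0]), (1, [0, 0, 0, 0, -1, 0, 0]), (2, [0, 1, 1, 0,
  1, 0, 1]), (1, [1, 1, 0, 0, 1, 0, 1]), (1, [0, 1, 1, 0, 1, 1, 1]), (1, [1, 1, 0, 0, 1, 1,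
  1]), (1, [0, 1, 0, 0, 1, 0, 0]), (1, [0, 0, 1, 0, 1, 0, 1]), (1, [0, 0, -1, -1, 0, -1, 0]),
  (1, [1, 1, 1, 1, 0, 1, 1]), (2, [0, 0, -1, -1, 0, 0, 0]), (2, [-1, 0, 0, -1, 0, 0, 0]), (1,
  [0, 0, 0, -1, 0, -1, 1]), (1, [1, 1, 0, 1, 0, 1, 0]), (2, [-1, 0, -1, -1, 0, -1, -1]), (1,
  [0, 1, -1, -1, 0, 0, 0]), (3, [0, 0, 0, -1, 0, 0, 1]), (1, [-1, 1, 0, -1, 0, 0, 0]), (1, [1,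
  0, 1, 1, 0, 0, 1]), (2, [0, 0, -1, -1, -1, -1, 0]), (2, [-1, 0, 0, -1, -1, -1, 0]), (1, [1,
  1, 1, 1, 1, 1, 1]), (1, [0, 0, -1, -1, -1, 0, 0]), (1, [0, 1, 1, 1, 1, 1, 0]), (1, [1, 0, 1,
  1, 1, 0, 1]), (2, [0, 0, -1, 0, 1, 0, 0]), (1, [0, 0, -1, 0, 1, -1, 0]), (1, [-1, 0, 0, 0, 1,
  -1, 0]), (1, [0, 1, -1, 0, 1, 0, 0]), (1, [-1, 1, 0, 0, 1, 0, 0]), (2, [0, 0, 0, 0, 1, -1,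
  1]), (1, [0, 0, -1, 0, 0, 0, 0]), (2, [-1, 0, 0, 0, 0, 0, 0]), (3, [-1, 0, 0, 0, 0, -1, 0]),
  (2, [1, 1, 1, 0, 0, 1, 1]), (2, [0, 1, -1, 0, 0, 0, 0]), (1, [0, 0, 0, 0, 0, 0, 1]), (2, [-1,
  1, 0, 0, 0, 0, 0]), (1, [0, 1, 1, 0, 0, 1, 0]), (1, [0, 0, 0, 0, 0, -1, 1]), (1, [1, 1, 0, 0,
  0, 1, 0]), (2, [0, 1, 1, 1, 1, 1, 1]), (1, [1, 1, 0, 1, 1, 1, 1]), (1, [1, 1, 0, 1, 1, 0,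
  1]), (1, [0, 1, 0, 1, 1, 1, 0]), (1, [0, 1, 0, 1, 1, 0, 0]), (2, [1, 0, 0, 1, 1, 0, 1])]

theorem ck7_10 : chk 7 gm7_10 im7_10 4 24 wt7_10 = true := by
  decide +kernel

/-- inverse matrix times an integer -/
def im7_11 : List (List ℤ) :=
  [[133, 43, -89, 3, -51, -71, 60], [43, 133, -71, -51, 3, -89, 60], [-89, -71, 157, -15, 39, 67,
  -84], [3, -51, -15, 117, -45, 39, -36], [-51, 3, 39, -45, 117, -15, -36], [-71, -89, 67, 39,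
  -15, 157, -84], [60, 60, -84, -36, -36, -84, 144]]

/-- weighted vectors -/
def wt7_11 : List (ℕ × List ℤ) :=
  [(34, [0, 0, 0, 0, 0, 0, 0]), (2, [0, 0, 1, 1, 0, -1, 0]), (1, [1, 0, 1, 1, 1, 0, 1]), (2, [1,
  0, 0, 0, 1, 1, 0]), (1, [1, 0, 1, 1, 1, 0, 0]), (3, [0, 0, 0, 0, 0, 0, -1]), (1, [0, -1, 0,
  0, 0, -1, 0]), (1, [1, -1, 0, 0, 1, 0, 0]), (1, [0, -1, 0, 0, 0, -1, -1]), (2, [0, -1, -1,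
  -1, 0, 0, -1]), (3, [-1, 0, -1, 0, -1, -1, -1]), (1, [0, 0, 1, 0, 0, 0, 0]), (1, [0, 0, 0, 1,
  0, -1, 0]), (2, [1, 1, 0, 1, 1, 1, 0]), (1, [0, 1, 0, 1, 0, 0, 0]), (1, [0, 0, 0, 0, 0, -1,
  -1]), (2, [0, 0, 1, 1, 0, 0, 1]), (1, [1, 0, 0, 0, 1, 0, 0]), (1, [1, 0, 1, 1, 1, 1, 1]), (3,
  [0, -1, -1, -1, 0, -1, -1]), (1, [-1, -1, 0, 0, -1, -1, 0]), (2, [1, 1, 1, 1, 1, 0, 0]), (1,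
  [0, -1, 0, 0, 0, 0, 0]), (1, [0, 0, 1, 0, 0, -1, 0]), (1, [0, 0, 0, 1, 0, 0, 0]), (3, [1, 0,
  0, 1, 1, 1, 1]), (2, [1, 0, 1, 0, 1, 0, 0]), (3, [0, -1, -1, 0, 0, 0, 0]), (2, [0, -1, 0, -1,
  0, -1, 0]), (2, [-1, 0, -1, 0, 0, 0, -1]), (2, [-1, 0, 0, 1, 0, -1, 0]), (3, [0, 0, 0, 1, 1,
  0, 1]), (1, [0, -1, -1, 0, 1, 0, 0]), (1, [0, 1, 0, 1, 1, 1, 0]), (2, [-1, -1, -1, 0, 0, -1,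
  -1]), (1, [-1, -1, -1, 0, 0, -1, 0]), (2, [0, 0, 0, 0, -1, -1, -1]), (1, [-1, 0, 0, 0, 0, 0,
  0]), (2, [1, 0, 0, 0, 0, 0, -1]), (1, [0, -1, 0, 0, 1, 0, 1]), (2, [0, 1, 1, 1, 1, 1, 1]),
  (2, [-1, -1, 0, 0, 0, -1, 0]), (2, [1, 1, 1, 1, 0, 0, 0]), (1, [0, 0, 0, 1, 1, 1, 1]), (1,
  [-1, 0, -1, 0, 0, -1, -1]), (1, [-1, 0, 0, 1, 0, 0, 1]), (2, [0, 0, -1, 0, 1, 0, 0]), (1,
  [-1, -1, -1, 0, 0, 0, 0]), (2, [0, 1, 0, 1, 1, 0, 0]), (1, [1, 0, 1, 1, 0, 0, 0]), (2, [0, 0,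
  0, 0, 1, 0, 1]), (2, [0, -1, 0, 0, -1, -1, 0]), (2, [1, -1, 0, 0, 0, 0, 0]), (1, [0, 1, 1, 1,
  1, 0, 1])]

theorem ck7_11 : chk 7 gm7_11 im7_11 4 216 wt7_11 = true := by
  decide +kernel

/-- inverse matrix times an integer -/
def im7_12 : List (List ℤ) :=
  [[9, 3, -3, 0, -3, 0, -3], [3, 14, 4, 6, -11, -12, 4], [-3, 4, 11, 3, -7, -9, 5], [0, 6, 3, 9,
  -6, -9, 3], [-3, -11, -7, -6, 17, 12, -7], [0, -12, -9, -9, 12, 21, -9], [-3, 4, 5, 3, -7,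
  -9, 11]]

/-- weighted vectors -/
def wt7_12 : List (ℕ × List ℤ) :=
  [(36, [0, 0, 0, 0, 0, 0, 0]), (1, [0, -1, 0, 0, -1, 0, 0]), (3, [0, -1, -1, -1, -1, -1, 0]),
  (1, [0, 0, 1, 1, 0, 1, 0]), (1, [-1, 0, 0, 0, -1, 0, -1]), (2, [0, 1, 0, 0, 0, 1, 0]), (2,
  [0, 0, 0, 0, -1, 1, 0]), (2, [0, 0, -1, -1, -1, 0, 0]), (3, [1, 0, 0, 0, 0, 1, 1]), (2, [1,
  0, 1, 0, 0, 1, 0]), (1, [0, 0, 0, -1, -1, 0, -1]), (4, [1, 0, 1, 0, 1, 0, 0]), (2, [1, -1, 1,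
  0, 0, 0, 0]), (2, [0, -1, 0, -1, -1, -1, -1]), (6, [0, 0, 0, 1, 0, 1, 1]), (2, [1, -1, 0, -1,
  0, -1, 0]), (2, [0, 0, 1, 0, 0, 0, -1]), (5, [1, 1, 1, 0, 1, 1, 1]), (3, [0, -1, 0, 1, 0, 0,
  0]), (1, [1, 0, 0, -1, 0, 0, 1]), (2, [0, 1, 1, 0, 0, 1, 0]), (2, [1, 0, 1, 0, 1, 0, 1]), (2,
  [0, 0, 0, 1, 0, 1, 0]), (6, [0, 0, 1, 0, 0, 0, 0]), (1, [0, -1, 0, 0, -1, 0, -1]), (1, [1,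
  -1, 0, 0, 0, 0, 0]), (1, [1, 0, 1, -1, 0, 0, 0]), (5, [0, -1, 0, 0, 0, 0, 1]), (2, [1, 0, 0,
  0, 0, 0, 0]), (4, [1, -1, 1, 1, 0, 0, 0]), (1, [0, 0, 0, 1, 0, 0, 0]), (1, [0, -1, -1, 0, -1,
  -1, 0]), (3, [0, 0, 1, 0, 0, 1, 0]), (2, [-1, 0, 0, -1, -1, 0, -1]), (1, [1, -1, 0, 1, 0, 0,
  1]), (4, [0, 0, 0, 1, -1, 1, 0]), (1, [-1, -1, 0, -1, -1, -1, -1]), (1, [0, 0, 0, 1, 0, 0,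
  -1]), (2, [0, -1, 0, 1, -1, 0, -1]), (4, [0, -1, -1, 0, -1, -1, -1]), (5, [-1, 0, 0, -1, -1,
  0, 0]), (1, [1, 1, 1, 0, 1, 0, 0]), (2, [1, 1, 1, 1, 1, 1, 1]), (1, [1, 0, 1, 1, 0, 1, 1]),
  (1, [0, 0, 0, 0, -1, 0, 0]), (2, [0, -1, 0, 0, 0, 0, 0]), (4, [1, 0, 0, 0, 0, 0, 1]), (1,
  [-1, -1, 0, 0, -1, 0, -1])]

theorem ck7_12 : chk 7 gm7_12 im7_12 4 18 wt7_12 = true := by
  decide +kernel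

end Run7.h92
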