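import Pool.Agent.Run7.h92.GramD
import Pool.Agent.Run7.h92.GramT

/-!
# Checks for forms of rank 7
-/

namespace Run7.h92

/-- inverse matrix times an integer -/
def im7_13 : List (List ℤ) :=
  [[980, -630, 210, -280, 140, 280, -490], [-630, 1323, -567, -126, -630, -126, 693], [210, -567,
  963, -6, 390, -246, -537], [-280, -126, -6, 1052, 500, -548, -346], [140, -630, 390, 500,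
  1100, -500, -610], [280, -126, -246, -548, -500, 1052, 94], [-490, 693, -537, -346, -610, 94,
  1163]]

/-- weighted vectors -/
def wt7_13 : List (ℕ × List ℤ) :=
  [(873, [0, 0, 0, 0, 0, 0, 0]), (37, [-1, 0, 0, 0, 0, 0, 0]), (32, [-1, 0, 1, 0, 0, 0, 0]), (21,
  [0, 0, -1, 0, 0, 0, 0]), (37, [-1, 0, 0, -1, 0, 0, 0]), (17, [0, 0, -1, -1, 0, -1, 0]), (18,
  [-1, 0, 0, 0, 0, 1, 0]), (62, [-1, 0, 1, 0, 0, 1, 0]), (27, [0, 0, -1, 0, 0, -1, 0]), (23,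
  [0, 1, 0, 0, 1, 0, 0]), (25, [-1, -1, 0, 0, -1, 0, 0]), (87, [0, 1, 0, -1, 1, 0, 0]), (58,
  [0, 1, 0, 1, 1, 1, 0]), (36, [-1, -1, 0, -1, -1, -1, 0]), (37, [0, 1, 0, 0, 1, 1, 0]), (92,
  [0, -1, -1, 0, -1, -1, 0]), (64, [1, 0, 0, 0, 0, 0, 1]), (22, [0, 0, 0, 0, 0, 0, 1]), (24,
  [0, 0, 1, 0, 0, 0, 1]), (36, [-1, 0, -1, 0, 0, 0, -1]), (67, [0, 0, 0, 1, 0, 0, 1]), (121,
  [0, 0, 1, 1, 0, 0, 1]), (51, [1, 0, 0, 1, 0, 1, 1]), (27, [0, 0, 0, 1, 0, 1, 1]), (31, [0, 0,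
  1, 1, 0, 1, 1]), (43, [-1, 0, -1, -1, 0, -1, -1]), (82, [1, 0, 0, 0, 0, -1, 1]), (71, [-1,
  -1, -1, 0, -1, 0, -1]), (105, [-1, -1, -1, -1, -1, -1, -1]), (25, [0, 1, 1, 0, 1, 1, 1]), (5,
  [1, 1, 1, 0, 1, 1, 1]), (75, [0, 0, 0, 0, -1, 0, 0]), (53, [0, 0, 1, 0, -1, 0, 0]), (36, [1,
  0, 0, 1, -1, 0, 0]), (35, [0, 0, 0, 1, -1, 0, 0]), (35, [0, 0, 1, 1, -1, 0, 0]), (76, [0, 0,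
  0, 0, -1, -1, 0]), (60, [1, 1, 0, 0, 0, 0, 0]), (85, [0, 1, 0, 0, 0, 0, 0]), (2, [0, 1, 1, 0,
  0, 0, 0]), (48, [-1, -1, -1, 0, 0, 0, 0]), (25, [1, 1, 0, 1, 0, 0, 0]), (79, [-1, -1, -1, -1,
  0, 0, 0]), (69, [1, 1, 0, 1, 0, 1, 0]), (50, [0, 1, 1, 1, 0, 1, 0]), (46, [0, 1, 1, 0, 0, 1,
  0]), (58, [0, 0, 0, 0, 1, 0, 1]), (24, [-1, 0, 0, 0, -1, 0, -1]), (42, [1, 0, 1, 1, -1, 0,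
  1]), (36, [0, 0, 0, 1, 1, 1, 1]), (74, [0, 0, 0, 0, 1, 1, 1]), (20, [0, 0, -1, 0, -1, -1,
  -1]), (59, [0, -1, 0, 0, 0, 0, 1]), (41, [1, 1, 1, 1, 0, 1, 1])]

theorem ck7_13 : chk 7 gm7_13 im7_13 6 2520 wt7_13 = true := by
  decide +kernel

/-- inverse matrix times an integer -/
def im7_14 : List (List ℤ) :=
  [[32, -16, -4, 12, 8, -12, -12], [-16, 28, -4, -12, -8, 6, 6], [-4, -4, 32, 12, -16, -12, -12],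
  [12, -12, 12, 36, -12, -18, -18], [8, -8, -16, -12, 28, 6, 6], [-12, 6, -12, -18, 6, 27, 9],
  [-12, 6, -12, -18, 6, 9, 27]]

/-- weighted vectors -/
def wt7_14 : List (ℕ × List ℤ) :=
  [(228, [0, 0, 0, 0, 0, 0, 0]), (9, [0, 1, 0, 0, 1, 0, -1]), (10, [0, 1, 0, 0, 1, -1, 0]), (14,
  [1, 0, 1, 0, 0, 0, 1]), (2, [1, 1, 1, 0, 1, 0, 0]), (7, [1, 0, 1, 0, 0, 1, 0]), (6, [0, 1, 0,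
  1, 1, 0, 0]), (12, [0, 0, 0, -1, 0, 0, -1]), (11, [1, 1, 1, 1, 1, 0, 1]), (10, [1, 0, 1, -1,
  0, 0, 0]), (7, [1, 1, 1, 1, 1, 1, 0]), (8, [-1, 0, -1, -1, 0, -1, -1]), (3, [0, 0, 0, 0, 1,
  0, -1]), (17, [0, 0, 0, 0, 1, -1, 0]), (13, [1, 1, 1, 0, 0, 0, 1]), (7, [1, 1, 1, 0, 0, 1,
  0]), (9, [0, 0, 0, 1, 1, 0, 0]), (13, [0, -1, 0, -1, 0, 0, -1]), (5, [0, -1, 0, -1, 0, -1,
  0]), (5, [-1, -1, -1, -1, 0, -1, -1]), (6, [0, 0, 0, 0, 0, -1, 0]), (8, [0, 0, 0, 0, 0, 0,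
  -1]), (8, [0, 1, 0, 0, 1, 0, 0]), (5, [-1, 0, -1, 0, 0, -1, -1]), (11, [1, 1, 1, 0, 1, 1,
  0]), (4, [1, 1, 1, 0, 1, 0, 1]), (3, [0, 1, 0, 1, 1, 1, 0]), (10, [0, 0, 0, -1, 0, -1, -1]),
  (14, [0, 1, 0, 1, 1, 0, 1]), (3, [1, 1, 1, 1, 1, 1, 1]), (6, [0, 1, 0, 0, 0, -1, 0]), (7, [0,
  1, 0, 0, 0, 0, -1]), (6, [0, 0, 0, 0, 1, 0, 0]), (13, [-1, -1, -1, 0, 0, -1, -1]), (12, [1,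
  1, 1, 0, 0, 0, 0]), (9, [0, 0, 0, 1, 1, 1, 0]), (7, [0, 1, 0, 1, 0, 0, 0]), (6, [0, 0, 1, 0,
  1, 0, 0]), (5, [1, 1, 0, 0, 0, 0, 0]), (14, [-1, 0, 0, 0, 1, 0, -1]), (9, [-1, 0, 0, 0, 1,
  -1, 0]), (5, [0, 0, 1, 1, 1, 0, 1]), (14, [0, 0, 1, 1, 1, 1, 0]), (3, [-1, 0, 0, 1, 1, 0,
  0]), (1, [-1, -1, 0, -1, 0, 0, -1]), (15, [-1, -1, 0, -1, 0, -1, 0]), (7, [0, 0, 1, 0, 0, 0,
  1]), (4, [0, 1, 1, 0, 1, 0, 0]), (8, [0, 0, 1, 0, 0, 1, 0]), (1, [1, 0, 0, 0, 0, 0, 0]), (8,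
  [0, 1, 1, 1, 1, 0, 1]), (12, [0, 0, 1, -1, 0, 0, 0]), (11, [0, 1, 1, 1, 1, 1, 0]), (9, [0, 0,
  -1, -1, 0, -1, -1]), (7, [0, 0, 1, 0, 1, 1, 0]), (10, [0, 0, 1, 0, 1, 0, 1]), (13, [-1, -1,
  0, 0, 0, -1, 0]), (2, [-1, 0, 0, 0, 1, -1, -1]), (8, [-1, -1, 0, 0, 0, 0, -1]), (10, [-1, 0,
  0, 0, 1, 0, 0]), (8, [0, 0, 1, 1, 1, 1, 1]), (2, [-1, -1, 0, -1, 0, -1, -1]), (2, [0, 0, 1,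
  0, 0, 0, 0]), (11, [-1, 0, 0, 0, 0, -1, 0]), (15, [-1, 0, 0, 0, 0, 0, -1]), (9, [0, 1, 1, 1,
  1, 1, 1]), (12, [0, 1, 1, 1, 1, 0, 0]), (14, [-1, 0, 0, -1, 0, -1, -1]), (9, [1, 0, 0, -1, 0,
  0, 0])]

theorem ck7_14 : chk 7 gm7_14 im7_14 6 72 wt7_14 = true := by
  decide +kernel

/-- inverse matrix times an integer -/
def im7_15 : List (List ℤ) :=
  [[108, 60, 18, 18, 60, -120, -48], [60, 160, 48, 48, 84, -168, -128], [18, 48, 117, 3, 48, -96,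
  -84], [18, 48, 3, 117, 48, -96, -84], [60, 84, 48, 48, 160, -168, -128], [-120, -168, -96,
  -96, -168, 336, 180], [-48, -128, -84, -84, -128, 180, 224]]

/-- weighted vectors -/
def wt7_15 : List (ℕ × List ℤ) :=
  [(28, [0, 0, 0, 0, 0, 0, 0]), (1, [0, 0, 0, 0, -1, -1, 0]), (1, [1, 0, 0, 0, 1, 1, 0]), (1, [1,
  1, 0, 0, 0, 1, 0]), (1, [0, -1, 0, 0, 0, -1, 0]), (1, [0, 1, 1, 1, 1, 1, 1]), (1, [1, 1, 1,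
  1, 1, 1, 1]), (2, [0, 0, 1, 1, 1, 1, 0]), (2, [0, -1, -1, -1, 0, -1, 0]), (1, [0, -1, 0, 0,
  0, 0, -1]), (1, [1, -1, 0, 0, 0, 0, -1]), (1, [1, 0, 0, 0, -1, 0, -1]), (1, [0, 0, 0, 0, 1,
  0, 1]), (1, [1, 0, 0, 0, 0, 1, -1]), (1, [0, 0, 0, 0, 0, -1, 1]), (1, [1, 0, 0, 0, -1, 0,
  0]), (1, [0, 0, 0, 0, 1, 0, 0]), (1, [0, 1, 0, 0, 0, 0, 0]), (1, [1, -1, 0, 0, 0, 0, 0]), (4,
  [1, 0, 0, 0, 0, 1, 0]), (1, [1, 1, 1, 1, 0, 1, 1]), (1, [0, -1, -1, -1, 0, -1, -1]), (1, [0,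
  0, -1, -1, -1, -1, -1]), (1, [1, 0, 1, 1, 1, 1, 1]), (1, [0, 0, -1, -1, 0, 0, -1]), (1, [1,
  0, 1, 1, 0, 0, 1]), (2, [0, 0, -1, -1, 1, 0, 0]), (2, [0, 1, -1, -1, 0, 0, 0]), (1, [1, -1,
  0, 0, -1, 0, -1]), (1, [0, 1, 0, 0, 1, 0, 1]), (1, [0, 0, 1, 0, 1, 1, 0]), (1, [1, 0, 1, 0,
  1, 1, 0]), (1, [1, 1, 1, 0, 0, 1, 0]), (1, [0, -1, -1, 0, 0, -1, 0]), (1, [0, -1, 0, -1, 0,
  0, -1]), (1, [1, -1, 0, -1, 0, 0, -1]), (1, [1, 0, 0, -1, -1, 0, -1]), (1, [0, 0, 0, 1, 1, 0,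
  1]), (1, [0, -1, 0, -1, -1, -1, -1]), (1, [1, 1, 0, 1, 1, 1, 1]), (2, [0, 0, 0, -1, -1, -1,
  0]), (2, [1, 1, 0, 1, 0, 1, 0]), (1, [0, 1, 1, 0, 1, 1, 1]), (1, [1, 1, 1, 0, 1, 1, 1]), (1,
  [0, 1, 1, 0, 0, 0, 1]), (1, [1, -1, -1, 0, 0, 0, -1]), (1, [1, 0, -1, 0, -1, 0, -1]), (1, [0,
  0, 1, 0, 1, 0, 1]), (1, [1, 0, 1, 0, -1, 0, 0]), (1, [0, 0, -1, 0, 1, 0, 0]), (1, [0, 1, -1,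
  0, 0, 0, 0]), (1, [1, -1, 1, 0, 0, 0, 0]), (1, [0, 0, 0, -1, 0, 0, -1]), (1, [1, 0, 0, 1, 0,
  0, 1]), (2, [0, 0, 0, -1, 1, 0, 0]), (2, [1, -1, 0, 1, 0, 0, 0]), (1, [0, 0, -1, 0, 0, 0,
  -1]), (1, [1, 0, 1, 0, 0, 0, 1])]

theorem ck7_15 : chk 7 gm7_15 im7_15 4 228 wt7_15 = true := by
  decide +kernel

/-- inverse matrix times an integer -/
def im7_16 : List (List ℤ) :=
  [[1043, -424, 107, -504, 368, -455, 228], [-424, 1312, 644, -220, -188, -396, -608], [107, 644,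
  1163, -624, 148, -671, -456], [-504, -220, -624, 1128, -516, 480, 228], [368, -188, 148,
  -516, 992, -412, -228], [-455, -396, -671, 480, -412, 1187, 152], [228, -608, -456, 228,
  -228, 152, 912]]

/-- weighted vectors -/
def wt7_16 : List (ℕ × List ℤ) :=
  [(79, [0, 0, 0, 0, 0, 0, 0]), (2, [-1, -1, 0, 0, 0, 0, -1]), (1, [-1, 0, -1, -1, 0, 0, 0]), (4,
  [0, -1, 1, 1, 0, 0, -1]), (7, [-1, 0, 0, 0, 1, 0, 0]), (1, [0, 0, 1, 1, 1, 0, 0]), (2, [0,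
  -1, 0, 0, 0, 0, -1]), (2, [-1, 0, 0, 0, 0, 0, 0]), (4, [0, 0, 1, 1, 0, 0, 0]), (2, [0, 0, 0,
  1, 1, 0, 0]), (6, [-1, -1, 0, -1, -1, 0, -1]), (4, [0, -1, 1, 0, -1, 0, -1]), (4, [0, 0, -1,
  0, 0, 0, 0]), (4, [0, -1, 0, -1, -1, 0, -1]), (2, [0, 0, 0, 1, 0, 0, 0]), (3, [0, -1, 0, 0,
  -1, -1, -1]), (2, [-1, -1, -1, -1, -1, -1, -1]), (3, [0, 0, 1, 1, 1, 1, 0]), (6, [0, 0, 0, 0,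
  0, 1, 0]), (5, [-1, -1, 0, 0, 0, -1, -1]), (3, [1, 0, 1, 1, 0, 1, 0]), (3, [0, 0, 0, 0, 1, 1,
  0]), (1, [-1, -1, 0, 0, -1, -1, -1]), (8, [1, 0, 1, 1, 1, 1, 0]), (5, [0, -1, 0, 0, 0, -1,
  -1]), (1, [1, 0, 0, 0, 0, 1, 0]), (2, [-1, -1, -1, -1, 0, -1, -1]), (4, [0, 0, 1, 0, 0, 1,
  0]), (2, [-1, -1, 0, -1, -1, -1, -1]), (6, [0, -1, -1, 0, -1, -1, -1]), (4, [0, 0, 0, -1, 0,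
  1, 0]), (6, [1, 0, 1, 0, 0, 1, 0]), (4, [0, 0, 1, 0, 1, 1, 0]), (1, [1, 0, 0, 0, -1, 0, -1]),
  (4, [0, 0, -1, -1, -1, 0, -1]), (4, [-1, -1, 0, 0, 0, 0, 0]), (1, [0, 0, 0, 0, 0, 0, -1]),
  (3, [0, 0, 0, 0, -1, 0, -1]), (1, [1, 0, 0, 0, 0, 0, -1]), (6, [0, -1, 0, 0, 0, 0, 0]), (6,
  [0, 0, -1, -1, 0, 0, -1]), (8, [1, 0, 0, 1, 0, 0, -1]), (4, [0, 0, -1, 0, 0, 0, -1]), (2, [1,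
  1, 0, 1, 1, 0, 0]), (4, [0, 1, -1, 0, 1, 0, 0]), (6, [1, 0, -1, 0, -1, 0, -1]), (4, [-1, -1,
  0, -1, 0, 0, 0]), (4, [0, 0, 0, 1, 0, 0, -1]), (2, [0, -1, 1, 0, 0, 0, 0]), (4, [1, 0, -1, 0,
  0, 0, -1]), (4, [0, 1, 0, 1, 1, 0, 0]), (3, [-1, -1, 0, 0, 0, -1, 0]), (1, [0, 1, 0, 0, 1, 1,
  0]), (6, [0, 0, 1, 1, 1, 1, 1]), (3, [0, 1, 0, 0, 0, 1, 0]), (4, [1, 1, 1, 1, 0, 1, 0]), (5,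
  [1, 1, 0, 0, 1, 1, 0]), (4, [1, 1, 0, 1, 1, 1, 0]), (2, [1, 1, 0, 1, 0, 1, 0])]

theorem ck7_16 : chk 7 gm7_16 im7_16 6 2584 wt7_16 = true := by
  decide +kernel

/-- inverse matrix times an integer -/
def im7_17 : List (List ℤ) :=
  [[15, -3, -5, -3, -3, -5, -3], [-3, 7, 1, -1, -1, 1, -1], [-5, 1, 7, 1, 1, -1, 1], [-3, -1, 1,
  7, -1, 1, -1], [-3, -1, 1, -1, 7, 1, -1], [-5, 1, -1, 1, 1, 7, 1], [-3, -1, 1, -1, -1, 1, 7]]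

/-- weighted vectors -/
def wt7_17 : List (ℕ × List ℤ) :=
  [(32, [0, 0, 0, 0, 0, 0, 0]), (1, [1, 1, 0, 1, 1, 0, 1]), (1, [1, 0, 1, 0, 0, 1, 0]), (1, [0,
  0, 0, 0, 1, 0, 0]), (1, [0, 1, -1, 1, 0, -1, 1]), (1, [0, 0, -1, 0, 0, 0, 0]), (1, [0, 1, 0,
  1, 1, -1, 1]), (1, [1, 1, 1, 1, 0, 0, 1]), (1, [1, 0, 0, 0, 1, 1, 0]), (1, [0, 1, 0, 0, 0, 0,
  0]), (1, [0, 0, -1, 1, 1, -1, 1]), (1, [1, 0, 0, 1, 0, 0, 1]), (1, [1, 1, 1, 0, 1, 1, 0]),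
  (1, [1, 0, 1, 1, 1, 0, 1]), (1, [1, 1, 0, 0, 0, 1, 0]), (1, [0, 1, -1, 0, 1, 0, 0]), (1, [0,
  0, 0, 1, 0, -1, 1]), (1, [0, 0, 0, 0, 0, 0, 1]), (1, [0, 1, -1, 1, 1, -1, 0]), (1, [1, 1, 0,
  1, 0, 0, 0]), (1, [1, 0, 1, 0, 1, 1, 1]), (1, [1, 1, 1, 1, 1, 0, 0]), (1, [1, 0, 0, 0, 0, 1,
  1]), (1, [0, 0, -1, 0, 1, 0, 1]), (1, [0, 1, 0, 1, 0, -1, 0]), (1, [1, 0, 0, 1, 1, 0, 0]),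
  (1, [1, 1, 1, 0, 0, 1, 1]), (1, [0, 1, 0, 0, 1, 0, 1]), (1, [0, 0, -1, 1, 0, -1, 0]), (1, [0,
  1, -1, 0, 0, 0, 1]), (1, [0, 0, 0, 1, 1, -1, 0]), (1, [1, 0, 1, 1, 0, 0, 0]), (1, [1, 1, 0,
  0, 1, 1, 1]), (1, [0, 0, 0, 1, 0, 0, 0]), (1, [0, 1, -1, 0, 1, -1, 1]), (1, [1, 1, 0, 0, 0,
  0, 1]), (1, [1, 0, 1, 1, 1, 1, 0]), (1, [1, 1, 1, 0, 1, 0, 1]), (1, [1, 0, 0, 1, 0, 1, 0]),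
  (1, [0, 0, -1, 1, 1, 0, 0]), (1, [0, 1, 0, 0, 0, -1, 1]), (1, [1, 0, 0, 0, 1, 0, 1]), (1, [1,
  1, 1, 1, 0, 1, 0]), (1, [0, 1, 0, 1, 1, 0, 0]), (1, [0, 0, -1, 0, 0, -1, 1]), (1, [0, 1, -1,
  1, 0, 0, 0]), (1, [0, 0, 0, 0, 1, -1, 1]), (1, [1, 0, 1, 0, 0, 0, 1]), (1, [1, 1, 0, 1, 1, 1,
  0]), (1, [1, 1, 0, 0, 1, 0, 0]), (1, [1, 0, 1, 1, 0, 1, 1]), (1, [0, 0, 0, 1, 1, 0, 1]), (1,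
  [0, 1, -1, 0, 0, -1, 0]), (1, [0, 0, -1, 1, 0, 0, 1]), (1, [0, 1, 0, 0, 1, -1, 0]), (1, [1,
  1, 1, 0, 0, 0, 0]), (1, [1, 0, 0, 1, 1, 1, 1]), (1, [0, 1, 0, 1, 0, 0, 1]), (1, [0, 0, -1, 0,
  1, -1, 0]), (1, [1, 0, 0, 0, 0, 0, 0]), (1, [1, 1, 1, 1, 1, 1, 1]), (1, [1, 0, 1, 0, 1, 0,
  0]), (1, [1, 1, 0, 1, 0, 1, 1]), (1, [0, 1, -1, 1, 1, 0, 1]), (1, [0, 0, 0, 0, 0, 1, 0])]

theorem ck7_17 : chk 7 gm7_17 im7_17 2 8 wt7_17 = true := by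
  decide +kernel

/-- inverse matrix times an integer -/
def im7_18 : List (List ℤ) :=
  [[57, 26, -13, 7, -30, -30, -2], [26, 60, -30, -14, -24, -24, 18], [-13, -30, 57, 7, 26, -2,
  -30], [7, -14, 7, 49, -14, -14, -14], [-30, -24, 26, -14, 60, 18, -24], [-30, -24, -2, -14,
  18, 60, -10], [-2, 18, -30, -14, -24, -10, 60]]

/-- weighted vectors -/
def wt7_18 : List (ℕ × List ℤ) :=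
  [(432, [0, 0, 0, 0, 0, 0, 0]), (10, [0, 0, 0, 1, 0, 0, 1]), (1, [-1, 1, 0, 1, 0, 0, 0]), (29,
  [1, -1, 0, 0, 0, 0, 1]), (16, [0, 0, 1, 0, 0, 0, 1]), (16, [0, 0, -1, 1, 0, 0, 0]), (15, [1,
  -1, -1, 0, 0, 0, 0]), (11, [0, 0, 0, 0, 0, 0, 1]), (38, [0, 0, 0, 1, 0, 0, 0]), (8, [-1, 1,
  0, 0, 0, 0, 0]), (24, [0, 0, -1, 0, 0, 0, 0]), (22, [0, 0, 1, 1, 0, 0, 1]), (27, [0, -1, -1,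
  0, 0, 0, 0]), (32, [1, 0, 1, 0, 0, 0, 1]), (4, [0, -1, 0, 0, 0, 0, 1]), (30, [0, 1, 0, 1, 0,
  0, 0]), (2, [1, 0, 0, 0, 0, 0, 0]), (8, [0, 1, 1, 0, 0, 0, 1]), (10, [0, -1, -1, -1, 0, 0,
  0]), (12, [-1, 0, -1, 0, 0, 0, 0]), (12, [0, 1, 0, 0, 0, 0, 0]), (33, [1, 0, 0, -1, 0, 0,
  0]), (10, [1, 0, 1, 0, 0, 1, 1]), (7, [0, 1, 1, 1, 0, 1, 1]), (22, [0, -1, -1, 0, 0, -1, 0]),
  (31, [-1, 0, -1, 0, 0, -1, 0]), (13, [1, 0, 1, 1, 0, 1, 1]), (10, [0, -1, -1, -1, 0, -1, 0]),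
  (28, [0, 1, 1, 0, 0, 1, 1]), (22, [1, 0, 0, 0, 0, 1, 1]), (15, [-1, 0, 0, -1, 0, -1, 0]),
  (12, [0, -1, 0, 0, 0, -1, 0]), (6, [0, 0, 0, 1, 0, 1, 1]), (15, [-1, -1, -1, 0, 0, -1, 0]),
  (26, [1, 1, 1, 1, 0, 1, 1]), (20, [0, 0, -1, 0, 0, -1, -1]), (27, [0, 0, 0, -1, 0, -1, 0]),
  (24, [-1, 1, 1, 0, -1, 0, 0]), (26, [0, 0, 0, 1, 1, 0, 1]), (10, [0, 0, 0, 0, -1, 0, 0]),
  (33, [1, -1, 0, 0, 1, 0, 1]), (3, [0, 0, 1, 0, -1, 0, 0]), (11, [0, 0, 0, -1, -1, 0, 0]),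
  (19, [0, 0, 0, 0, 1, 0, 1]), (23, [0, -1, 0, -1, -1, 0, 0]), (18, [-1, 0, 0, 0, -1, 0, 0]),
  (26, [0, -1, -1, -1, -1, 0, -1]), (18, [-1, 0, -1, 0, -1, 0, -1]), (14, [0, -1, 0, 0, -1, 0,
  0]), (10, [1, 0, 0, 0, 1, 0, 1]), (18, [-1, 0, 0, -1, -1, 0, 0]), (11, [1, 0, -1, 0, 1, 0,
  0]), (28, [1, 0, 0, 1, 1, 1, 1]), (34, [-1, 0, 0, 0, -1, -1, 0]), (5, [0, -1, 0, -1, -1, -1,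
  0]), (9, [0, -1, -1, 0, 1, -1, 0]), (13, [0, -1, -1, -1, -1, -1, -1]), (48, [0, 1, 0, 1, 1,
  1, 1]), (1, [-1, 0, -1, -1, -1, -1, -1]), (20, [-1, -1, -1, -1, -1, -1, -1]), (27, [-1, -1,
  0, -1, -1, -1, 0]), (22, [0, 0, 0, 0, -1, 1, 0]), (4, [-1, -1, -1, 0, -1, -1, -1]), (35, [0,
  0, -1, 0, 1, -1, 0]), (18, [1, 1, 0, 1, 1, 1, 1])]

theorem ck7_18 : chk 7 gm7_18 im7_18 4 98 wt7_18 = true := by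
  decide +kernel

end Run7.h92
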