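import Pool.Agent.Run7.h92.GramD
import Pool.Agent.Run7.h92.GramT

/-!
# Checks for forms of rank 7
-/

namespace Run7.h92

/-- inverse matrix times an integer -/
def im7_19 : List (List ℤ) :=
  [[117, -54, 24, -15, 21, -15, -48], [-54, 148, -48, -30, -22, -30, 16], [24, -48, 128, -40,
  -88, 40, 64], [-15, -30, -40, 125, 65, -35, -80], [21, -22, -88, 65, 213, -95, -144], [-15,
  -30, 40, -35, -95, 125, 80], [-48, 16, 64, -80, -144, 80, 192]]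

/-- weighted vectors -/
def wt7_19 : List (ℕ × List ℤ) :=
  [(66, [0, 0, 0, 0, 0, 0, 0]), (3, [0, 0, 0, 0, -1, 0, -1]), (2, [1, 1, 0, 1, 0, 1, 0]), (6,
  [-1, -1, 0, -1, -1, -1, -1]), (3, [0, 0, 0, 0, -1, -1, 0]), (3, [0, 0, 0, 0, -1, -1, -1]),
  (5, [0, 0, 0, 0, -1, 0, 0]), (2, [0, 0, 0, 0, 0, 0, -1]), (2, [0, -1, 0, 0, 0, -1, 0]), (5,
  [-1, 0, 0, -1, 0, 1, -1]), (3, [1, 0, 0, 1, 0, 0, 0]), (4, [0, -1, 0, 0, 0, 0, 0]), (1, [-1,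
  0, 0, -1, 0, 0, -1]), (5, [1, 0, 0, 1, 0, 1, 0]), (6, [0, 1, 0, 0, 0, 1, -1]), (2, [0, 0, -1,
  0, -1, 0, 0]), (6, [0, 0, 1, 0, 0, 0, -1]), (6, [-1, -1, -1, -1, -1, 0, -1]), (2, [0, 0, 1,
  0, 0, -1, 0]), (2, [0, 0, -1, 0, -1, -1, 0]), (4, [0, 0, 1, 0, 0, 1, -1]), (6, [-1, -1, -1,
  -1, -1, -1, -1]), (2, [0, 0, -1, 0, -1, 0, -1]), (2, [0, 1, 1, 0, 0, 1, -1]), (2, [1, 0, -1,
  1, -1, 0, 0]), (4, [-1, 0, 1, -1, 0, 0, -1]), (2, [0, 1, 1, 0, 0, 0, 0]), (4, [0, -1, -1, 0,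
  -1, 0, 0]), (2, [-1, -1, 0, 0, -1, -1, -1]), (3, [0, 0, 0, 1, -1, -1, 0]), (2, [0, 0, 0, -1,
  0, 1, -1]), (2, [0, 0, 0, 1, 0, 0, 0]), (3, [0, 0, 0, -1, -1, 0, -1]), (4, [-1, -1, 0, 0, 0,
  0, 0]), (2, [-1, -1, 0, 0, -1, 0, -1]), (5, [0, 0, 0, 1, -1, 0, 0]), (2, [0, 0, 0, 1, 0, 1,
  0]), (1, [0, 0, 0, -1, -1, -1, -1]), (4, [-1, -1, 0, 0, -1, -1, 0]), (1, [-1, 0, 0, 0, 0, 0,
  0]), (4, [0, 1, 0, 1, 0, 1, 0]), (1, [-1, 0, 0, 0, 0, 1, -1]), (1, [-1, 0, 0, 0, 0, -1, 0]),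
  (4, [0, 1, 0, 1, 0, 0, 0]), (3, [-1, 0, 0, 0, 0, 0, -1]), (2, [-1, -1, -1, 0, -1, -1, 0]),
  (6, [1, 1, 1, 0, 0, 0, 0]), (2, [0, 0, 1, 1, 0, 0, 0]), (2, [1, 0, -1, 0, -1, 0, 0]), (4,
  [-1, 0, 1, 0, 0, 0, -1]), (4, [0, 1, 1, 1, 0, 0, 0]), (4, [0, -1, -1, -1, -1, 0, -1]), (2,
  [0, -1, -1, -1, -1, -1, 0]), (2, [-1, 0, 1, 0, 0, -1, 0]), (4, [1, 0, -1, 0, -1, -1, 0]), (2,
  [0, -1, -1, -1, -1, -1, -1]), (2, [-1, 0, 1, 0, 0, 0, 0])]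

theorem ck7_19 : chk 7 gm7_19 im7_19 4 240 wt7_19 = true := by
  decide +kernel

/-- inverse matrix times an integer -/
def im7_20 : List (List ℤ) :=
  [[39, -6, -18, 12, -18, 0, -3], [-6, 44, 20, -32, 20, -28, -6], [-18, 20, 60, -40, 32, -28,
  -18], [12, -32, -40, 64, -40, 28, 12], [-18, 20, 32, -40, 60, -28, -18], [0, -28, -28, 28,
  -28, 56, 0], [-3, -6, -18, 12, -18, 0, 39]]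

/-- weighted vectors -/
def wt7_20 : List (ℕ × List ℤ) :=
  [(25, [0, 0, 0, 0, 0, 0, 0]), (1, [0, 0, 0, 0, 1, 1, 1]), (2, [0, 0, 1, 0, 0, 0, 0]), (1, [-1,
  0, -1, 0, 0, 0, 0]), (1, [0, -1, 0, 0, 1, 0, 1]), (1, [-1, -1, -1, 0, 0, -1, 0]), (2, [0, 0,
  0, 1, 0, -1, 0]), (2, [-1, 0, 0, 1, 0, -1, 0]), (2, [-1, 0, -1, -1, -1, 0, -1]), (1, [0, 1,
  0, 1, 0, 0, 0]), (1, [-1, 1, 0, 1, 0, 0, 0]), (1, [0, 1, 0, 1, 1, 1, 1]), (2, [0, 1, 1, 1, 0,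
  0, 0]), (1, [0, 0, 1, 0, 0, 1, 0]), (2, [-1, 0, -1, 0, 0, -1, 0]), (3, [-1, 0, 0, 0, -1, 0,
  -1]), (1, [0, -1, 1, 0, 0, 0, 0]), (1, [0, 1, 0, 0, 1, 1, 1]), (3, [-1, -1, 0, 0, -1, -1,
  -1]), (1, [0, 1, 0, 0, 0, 0, 0]), (1, [-1, -1, 0, 0, 0, 0, 0]), (2, [-1, 0, -1, -1, 0, 0,
  0]), (2, [0, 0, 1, 1, 1, 1, 1]), (2, [-1, 0, -1, -1, -1, -1, -1]), (1, [0, 0, 0, -1, 0, 0,
  0]), (2, [0, 1, 1, 1, 0, 1, 0]), (1, [0, 0, 0, 0, -1, -1, 0]), (2, [0, 0, 1, 0, 0, 0, 1]),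
  (1, [-1, 0, -1, 0, 0, 0, -1]), (1, [0, 0, 0, 0, 0, 0, 1]), (2, [-1, 0, 0, 0, 0, 0, -1]), (2,
  [0, 1, 0, 0, -1, 0, 0]), (1, [-1, 1, 0, 0, -1, 0, 0]), (1, [-1, -1, -1, 0, 0, -1, -1]), (2,
  [0, 1, 0, 0, 0, 1, 1]), (1, [0, 0, 0, -1, -1, 0, 0]), (1, [-1, 0, 0, -1, -1, 0, 0]), (2, [0,
  -1, 0, -1, -1, -1, 0]), (1, [-1, -1, 0, -1, -1, -1, 0]), (2, [0, 1, 1, 1, 0, 0, 1]), (2, [-1,
  -1, -1, -1, -1, -1, 0]), (1, [0, 0, 1, 0, 0, 1, 1]), (2, [-1, 0, -1, 0, 0, -1, -1]), (3, [0,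
  0, 0, 0, 1, 0, 0]), (1, [0, -1, 1, 0, 0, 0, 1]), (1, [0, 0, 0, -1, 0, 0, 1]), (1, [0, 1, 0,
  1, 1, 0, 0]), (1, [-1, -1, 0, -1, -1, 0, 0])]

theorem ck7_20 : chk 7 gm7_20 im7_20 4 84 wt7_20 = true := by
  decide +kernel

/-- inverse matrix times an integer -/
def im7_21 : List (List ℤ) :=
  [[15, 5, 5, -15, 10, 5, -15], [5, 15, 5, -15, 10, 5, -15], [5, 5, 15, -15, 10, 5, -15], [-15,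
  -15, -15, 39, -24, -15, 29], [10, 10, 10, -24, 24, 10, -24], [5, 5, 5, -15, 10, 15, -15],
  [-15, -15, -15, 29, -24, -15, 39]]

/-- weighted vectors -/
def wt7_21 : List (ℕ × List ℤ) :=
  [(72, [0, 0, 0, 0, 0, 0, 0]), (2, [-1, -1, 0, -1, 0, -1, 0]), (8, [1, 0, 1, 0, -1, 0, 0]), (1,
  [0, 0, 0, 0, 0, -1, 0]), (7, [-1, -1, 0, -1, 0, 0, 0]), (5, [1, 0, 0, 0, 0, 0, 0]), (2, [0,
  0, 1, 0, -1, 1, 0]), (6, [0, -1, 0, -1, 0, 0, 0]), (4, [1, 0, 0, 0, 0, -1, 0]), (7, [1, 0, 0,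
  0, -1, 0, 0]), (7, [0, 0, 1, 0, 0, -1, 0]), (2, [0, -1, 0, -1, -1, 0, 0]), (3, [1, 1, 1, 1,
  0, 0, 0]), (1, [1, 0, 0, 0, -1, 1, 0]), (4, [-1, 0, 1, 0, 0, 0, 0]), (4, [0, 0, 0, 0, 1, -1,
  0]), (3, [0, 1, 1, 1, 0, 0, 0]), (12, [-1, -1, 0, -1, -1, -1, -1]), (2, [0, 0, 0, 0, -1, 0,
  -1]), (3, [-1, -1, 0, -1, -1, 0, -1]), (2, [1, 0, 1, 0, 0, 1, 1]), (1, [1, 0, 0, 0, 1, 0,
  1]), (6, [0, 0, 1, 0, 0, 0, 1]), (1, [0, 0, 1, 0, 0, 1, 1]), (2, [-1, -1, -1, -1, -1, -1,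
  -1]), (6, [1, 0, 0, 0, 0, 0, 1]), (2, [0, 0, 1, 0, 1, 0, 1]), (5, [1, 0, 0, 0, 0, 1, 1]), (1,
  [0, -1, -1, -1, -1, -1, -1]), (4, [0, 0, 0, 0, 0, -1, -1]), (7, [0, -1, -1, -1, -1, 0, -1]),
  (3, [0, 0, 0, -1, -1, -1, 0]), (2, [1, 0, 1, 1, 0, 1, 0]), (1, [0, 0, 0, -1, -1, 0, 0]), (3,
  [1, 0, 1, 1, 0, 0, 0]), (10, [0, -1, 0, 0, 1, 0, 0]), (12, [0, 0, 1, 1, 0, 1, 0]), (5, [0,
  -1, 0, 0, 1, -1, 0]), (1, [-1, 0, 0, -1, -1, 0, 0]), (7, [0, -1, 0, 0, 0, 0, 0]), (1, [0, -1,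
  0, 0, 0, 1, 0]), (3, [0, 0, 1, 1, 1, 0, 0]), (1, [0, 1, 1, 0, -1, 0, 0]), (4, [0, 0, 0, -1,
  0, -1, 0]), (1, [1, -1, 0, 0, 0, 0, 0]), (9, [1, 0, 1, 1, 1, 1, 1]), (3, [1, 0, 1, 1, 1, 0,
  1]), (6, [0, 0, 0, -1, 0, 0, 1]), (3, [0, -1, 0, 0, 0, -1, -1]), (1, [-1, 0, 0, -1, -1, -1,
  -1]), (4, [1, 1, 1, 0, 0, 0, 1]), (5, [0, -1, 0, 0, -1, 0, -1]), (3, [0, 1, 1, 0, 0, 0, 1]),
  (8, [0, 1, 1, 0, 0, 1, 1])]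

theorem ck7_21 : chk 7 gm7_21 im7_21 6 40 wt7_21 = true := by
  decide +kernel

/-- inverse matrix times an integer -/
def im7_22 : List (List ℤ) :=
  [[1152, 496, -232, -376, 24, -504, -504], [496, 1164, 156, -564, 120, -546, -546], [-232, 156,
  1052, -564, -608, 266, 266], [-376, -564, -564, 1128, 376, 0, 0], [24, 120, -608, 376, 1152,
  -504, -504], [-504, -546, 266, 0, -504, 1043, 385], [-504, -546, 266, 0, -504, 385, 1043]]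

/-- weighted vectors -/
def wt7_22 : List (ℕ × List ℤ) :=
  [(36, [0, 0, 0, 0, 0, 0, 0]), (2, [0, 1, 0, 0, 0, 0, 1]), (2, [-1, 0, 0, 0, 0, -1, 0]), (2, [0,
  0, 0, 0, 1, 0, 0]), (2, [-1, 0, 0, 0, -1, -1, 0]), (2, [-1, 0, -1, 0, -1, -1, 0]), (2, [0, 0,
  -1, 0, 0, 0, 0]), (4, [0, 1, -1, 0, 0, 0, 1]), (1, [0, 0, 0, 0, -1, -1, 0]), (3, [0, 1, 0, 0,
  1, 1, 1]), (2, [0, 0, 0, 0, 0, -1, 0]), (2, [-1, 0, 0, 0, 0, 0, 0]), (1, [0, 0, 1, 0, 0, -1,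
  0]), (1, [0, 1, -1, 0, 0, 1, 1]), (4, [-1, 0, -1, 0, 0, 0, 0]), (2, [-1, 0, -1, 0, -1, 0,
  0]), (2, [0, 1, 0, 1, 0, 0, 1]), (3, [1, 1, 0, 1, 0, 1, 1]), (1, [-1, 0, 0, -1, 0, -1, 0]),
  (2, [0, 0, 0, 1, -1, 0, 0]), (2, [1, 1, 0, 1, 1, 1, 1]), (4, [0, 0, 1, 1, 1, 0, 0]), (3, [1,
  1, 1, 1, 1, 1, 1]), (1, [-1, 0, -1, -1, -1, -1, 0]), (2, [-1, 0, -1, -1, 0, -1, 0]), (4, [1,
  1, 0, 1, 0, 0, 1]), (2, [-1, 0, 0, -1, 0, 0, 0]), (2, [0, 0, 1, 1, 0, -1, 0]), (4, [0, 0, 0,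
  0, 0, 0, 1]), (2, [0, 0, 1, 0, 1, 0, 1]), (2, [1, 0, 1, 0, 1, 1, 1]), (4, [0, -1, 0, 0, 0,
  -1, 0]), (2, [0, 0, 0, 0, 0, -1, 1]), (1, [1, 0, 0, 0, 0, 0, 1]), (3, [-1, 1, 0, 0, 0, 0,
  0]), (4, [0, -1, 0, 0, -1, -1, 0]), (2, [1, 0, 0, 0, 1, 0, 1]), (1, [1, 0, 1, 0, 1, 0, 1]),
  (1, [-1, 1, -1, 0, -1, 0, 0]), (2, [0, -1, 1, 0, 0, -1, 0]), (3, [0, 1, 0, 1, -1, 0, 0]), (3,
  [0, 0, 0, -1, 1, 0, 1]), (5, [0, 1, 1, 1, 0, 0, 0]), (1, [0, 0, -1, -1, 0, 0, 1]), (4, [1, 0,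
  1, 1, 1, 1, 1]), (2, [0, 1, 0, 1, 0, 1, 0]), (2, [1, 0, 1, 1, 1, 0, 1])]

theorem ck7_22 : chk 7 gm7_22 im7_22 6 2632 wt7_22 = true := by
  decide +kernel

/-- inverse matrix times an integer -/
def im7_23 : List (List ℤ) :=
  [[73, 33, 28, -45, -52, 12, -12], [33, 73, 12, -45, -52, 28, -12], [28, 12, 64, -36, -64, 24,
  24], [-45, -45, -36, 81, 60, -36, -12], [-52, -52, -64, 60, 144, -64, -40], [12, 28, 24, -36,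
  -64, 64, 24], [-12, -12, 24, -12, -40, 24, 64]]

/-- weighted vectors -/
def wt7_23 : List (ℕ × List ℤ) :=
  [(13, [0, 0, 0, 0, 0, 0, 0]), (1, [1, 0, 0, 0, 1, 1, 1]), (2, [-1, -1, -1, -1, -1, 0, -1]), (1,
  [0, -1, -1, -1, 0, 0, 0]), (1, [0, 0, 0, 0, 0, -1, 0]), (2, [1, 0, 0, 0, 1, 0, 1]), (2, [1,
  0, -1, 0, 0, 0, 0]), (1, [0, -1, 0, -1, 0, 0, 0]), (2, [-1, -1, 0, -1, -1, -1, -1]), (1, [0,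
  0, 1, 0, 0, 0, 0]), (2, [-1, -1, 0, -1, -1, 0, -1]), (2, [0, 0, -1, -1, 0, 0, 0]), (2, [1,
  -1, 0, 0, 0, 0, 0]), (4, [0, 1, 0, 0, 0, -1, 0]), (1, [1, 0, 0, 1, 0, 0, 0]), (1, [1, -1, -1,
  0, 0, 1, 0]), (3, [0, -1, -1, 0, -1, 0, -1]), (4, [0, 0, 0, -1, 0, 0, 0]), (3, [1, 0, 0, 1,
  0, 1, 0]), (1, [-1, 0, 1, 0, 0, 0, -1]), (3, [0, -1, 0, -1, 0, 0, -1]), (2, [0, 0, 1, 0, 1,
  1, 0]), (3, [0, 0, 1, 0, 0, 0, -1]), (3, [0, 0, 1, 0, 1, 0, 0]), (2, [0, 0, 0, 0, 0, 0, -1]),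
  (2, [1, 0, 0, 0, 0, -1, 1]), (1, [1, 0, 0, 0, 1, 1, 0]), (2, [0, 0, 0, 0, -1, -1, 0]), (1,
  [1, 1, 1, 1, 1, 1, 0]), (1, [1, 0, 1, 1, 1, 1, 0]), (2, [0, -1, 0, 0, -1, -1, 0]), (1, [0, 0,
  1, 1, 0, 1, -1])]

theorem ck7_23 : chk 7 gm7_23 im7_23 6 168 wt7_23 = true := by
  decide +kernel

/-- inverse matrix times an integer -/
def im7_24 : List (List ℤ) :=
  [[68, -46, -30, -34, 4, 8, 22], [-46, 83, 20, 41, -29, -8, -41], [-30, 20, 60, 0, 18, -30,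
  -18], [-34, 41, 0, 59, -29, 10, -29], [4, -29, 18, -29, 59, -30, 19], [8, -8, -30, 10, -30,
  60, -12], [22, -41, -18, -29, 19, -12, 59]]

/-- weighted vectors -/
def wt7_24 : List (ℕ × List ℤ) :=
  [(10047, [0, 0, 0, 0, 0, 0, 0]), (545, [1, 1, 0, 0, 1, 0, 0]), (407, [0, 0, 0, -1, 0, 0, -1]),
  (473, [1, 1, 0, 1, 1, 0, 1]), (696, [0, 0, -1, 0, 1, 0, 0]), (235, [1, 1, 0, 0, 0, 0, 0]),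
  (228, [0, 0, 0, 0, 1, 0, 0]), (720, [1, 1, 0, 1, 0, 0, 1]), (198, [0, 0, -1, -1, 0, 0, -1]),
  (515, [1, 0, 0, 1, 1, 0, 0]), (857, [1, 0, 1, 1, 0, 0, 0]), (689, [1, 0, 0, 0, 0, 0, -1]),
  (706, [0, 1, -1, -1, 0, 0, 0]), (399, [0, 0, 0, 0, -1, -1, 0]), (594, [0, 0, 0, -1, -1, -1,
  -1]), (234, [1, 1, 1, 0, 1, 1, 0]), (13, [0, 0, -1, -1, 0, -1, -1]), (224, [1, 1, 1, 1, 1, 1,
  1]), (444, [1, 1, 0, 0, 1, 1, 0]), (190, [0, 0, 0, 0, 0, -1, 0]), (298, [1, 1, 0, 1, 1, 1,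
  1]), (323, [0, 0, -1, 0, -1, -1, 0]), (323, [1, 1, 1, 1, 0, 1, 1]), (449, [0, 0, -1, -1, -1,
  -1, -1]), (299, [0, 1, 0, 0, 1, 1, 1]), (1043, [0, 1, 0, -1, 1, 1, 0]), (305, [1, 0, 0, 1, 0,
  -1, 0]), (929, [0, 1, 1, 0, 0, 1, 1]), (608, [1, 0, 1, 1, 1, 1, 0]), (642, [0, 1, 0, 0, 0, 1,
  1]), (701, [0, 1, 0, -1, 0, 1, 0]), (698, [1, 0, 1, 1, 0, 1, 0]), (514, [0, 0, 0, 0, 0, 0,
  1]), (505, [0, 0, 0, -1, 0, 0, 0]), (588, [1, 1, 0, 1, 1, 0, 0]), (335, [0, 0, -1, 0, 1, 0,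
  -1]), (711, [1, 1, 1, 0, 0, 0, 1]), (553, [0, 0, -1, 1, 1, 0, 0]), (595, [1, 1, 0, 0, 0, 0,
  1]), (402, [0, 0, 0, 0, 1, 0, -1]), (272, [0, 0, 0, 1, 1, 0, 0]), (750, [0, 0, 1, 0, 0, 0,
  1]), (138, [0, 1, 0, 0, 0, 0, 0]), (139, [0, 1, 0, -1, 0, 0, 1]), (497, [0, 1, -1, 0, 1, 0,
  0]), (387, [1, 0, 1, 0, 0, 0, 0]), (325, [1, 0, 1, 1, 0, 0, 1]), (851, [1, 0, 0, 0, 0, 0,
  0]), (911, [0, 1, 0, 0, 1, 0, 0]), (243, [1, 0, 1, 0, -1, 0, 0]), (641, [0, 0, 0, -1, -1, -1,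
  0]), (809, [0, 0, -1, 0, 0, -1, -1]), (486, [1, 1, 1, 0, 1, 1, 1]), (449, [0, 0, 0, 0, 0, -1,
  -1]), (382, [1, 1, 1, 0, 0, 1, 1]), (216, [0, 1, 0, 0, 1, 1, 0]), (37, [0, 1, 0, -1, 0, 1,
  1]), (456, [1, 0, 1, 0, 0, 1, 0]), (324, [1, 0, 1, 1, 0, 1, 1])]

theorem ck7_24 : chk 7 gm7_24 im7_24 6 146 wt7_24 = true := by
  decide +kernel

end Run7.h92
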