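import Pool.Agent.Run7.h92.GramD
import Pool.Agent.Run7.h92.GramT

/-!
# Checks for forms of rank 7
-/

namespace Run7.h92

/-- inverse matrix times an integer -/
def im7_25 : List (List ℤ) :=
  [[124, 68, -44, 26, -84, -66, -42], [68, 229, -100, 103, -147, -108, -105], [-44, -100, 124,
  -58, 84, 18, 42], [26, 103, -58, 166, -105, -87, -84], [-84, -147, 84, -105, 189, 84, 63],
  [-66, -108, 18, -87, 84, 153, 63], [-42, -105, 42, -84, 63, 63, 126]]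

/-- weighted vectors -/
def wt7_25 : List (ℕ × List ℤ) :=
  [(362, [0, 0, 0, 0, 0, 0, 0]), (4, [0, 0, 0, 1, 0, 0, 1]), (32, [1, 0, 0, 1, 1, 1, 0]), (6,
  [-1, 0, 0, 0, -1, 0, 0]), (26, [1, 0, 0, 1, 1, 0, 1]), (11, [0, 0, 0, 0, 0, -1, 1]), (6, [0,
  0, 0, 1, 0, 1, 0]), (17, [1, 0, 0, 0, 0, 0, 0]), (18, [1, 0, 0, 1, 0, 0, 1]), (22, [1, 0, 0,
  1, 0, 1, 0]), (12, [0, -1, -1, 0, 0, -1, 0]), (40, [0, 1, 1, 1, 0, 1, 1]), (13, [0, 1, 1, 0,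
  0, 0, 1]), (9, [-1, -1, -1, 0, 0, -1, 0]), (6, [1, 1, 1, 1, 0, 1, 1]), (18, [-1, 0, 0, 0, 0,
  -1, 0]), (18, [1, 0, 0, 1, 0, 1, 1]), (14, [0, 0, 0, 0, -1, 0, 1]), (12, [0, 0, 0, 1, 1, 0,
  0]), (18, [0, 0, 0, 0, 1, -1, 0]), (19, [1, 0, 0, 0, 0, 0, 1]), (19, [0, 0, 0, 0, 0, -1, 0]),
  (10, [1, 0, 0, 1, 1, 0, 0]), (20, [0, 0, 0, 0, 0, 0, 1]), (32, [0, 0, 0, 1, 0, 0, 0]), (18,
  [0, -1, -1, 0, -1, 0, 0]), (20, [0, 1, 1, 1, 1, 0, 1]), (19, [-1, -1, -1, 0, 0, -1, -1]),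
  (13, [0, -1, -1, 0, 0, 0, 0]), (52, [1, 1, 1, 1, 1, 1, 0]), (20, [-1, -1, -1, 0, -1, 0, 0]),
  (6, [0, 1, 1, 1, 0, 1, 0]), (6, [1, 0, -1, 0, 1, 0, 0]), (24, [0, 0, 1, 1, 0, 1, 0]), (17,
  [0, 0, -1, 0, 0, 0, 0]), (18, [0, 0, 1, 1, 0, 0, 1]), (38, [0, 0, -1, 0, 1, 0, 0]), (38, [0,
  0, -1, 1, 1, 0, 1]), (3, [-1, 0, -1, 0, 0, -1, 1]), (4, [1, 0, 1, 1, 0, 1, 0]), (20, [1, 0,
  1, 1, 0, 0, 1]), (12, [0, 0, -1, 0, 1, -1, 1]), (20, [-1, -1, 0, 0, -1, -1, 0]), (24, [0, 1,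
  0, 0, 0, 0, 1]), (10, [0, -1, 0, 1, 0, 0, 0]), (27, [0, -1, 0, 0, 0, -1, 0]), (26, [1, 1, 0,
  0, 1, 0, 1]), (17, [-1, 1, 0, 0, 0, 0, 1]), (24, [0, 1, 0, 0, 1, 0, 1]), (16, [0, 0, -1, 0,
  1, -1, 0]), (25, [-1, 0, -1, 0, 0, -1, 0]), (7, [0, 0, -1, 0, 0, 0, 1]), (13, [-1, 1, 0, 0,
  0, 0, 0]), (18, [0, 1, 0, 1, 1, 1, 0]), (10, [1, 1, 0, 0, 1, 0, 0]), (20, [1, 1, 0, 1, 1, 0,
  1]), (19, [0, -1, 0, 0, 0, -1, -1])]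

theorem ck7_25 : chk 7 gm7_25 im7_25 6 336 wt7_25 = true := by
  decide +kernel

/-- inverse matrix times an integer -/
def im7_26 : List (List ℤ) :=
  [[660, -330, 330, -330, -330, 220, 0], [-330, 701, -367, 371, 73, -194, -280], [330, -367, 629,
  -257, -251, -2, 140], [-330, 371, -257, 701, -37, -194, -280], [-330, 73, -251, -37, 629,
  -222, 140], [220, -194, -2, -194, -222, 596, -140], [0, -280, 140, -280, 140, -140, 560]]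

/-- weighted vectors -/
def wt7_26 : List (ℕ × List ℤ) :=
  [(3135, [0, 0, 0, 0, 0, 0, 0]), (224, [0, 1, 0, -1, 0, 0, 0]), (331, [0, 0, -1, -1, -1, 0, 0]),
  (23, [1, 1, 0, 0, 0, 0, 1]), (214, [-1, 0, 0, -1, 0, 0, -1]), (217, [0, -1, -1, 0, -1, -1,
  0]), (146, [0, 0, 0, 0, 0, -1, 0]), (219, [0, 0, 0, 1, 0, 1, 1]), (22, [0, 1, 0, 0, 0, 1,
  1]), (318, [-1, -1, -1, 0, -1, 0, 0]), (169, [-1, 0, -1, -1, -1, 0, 0]), (126, [-1, 0, 0, 0,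
  0, 0, 0]), (246, [0, -1, -1, -1, -1, -1, -1]), (143, [-1, 0, 0, 0, 0, 1, 0]), (116, [0, 0,
  -1, 0, -1, 0, 1]), (309, [0, 1, 0, 0, 0, 0, 1]), (159, [1, 1, 0, 1, 0, 1, 1]), (59, [0, 0,
  -1, 0, -1, 0, 0]), (209, [0, 0, 0, 1, 0, 0, 0]), (41, [0, 1, 0, 0, 0, 0, 0]), (197, [0, 1, 0,
  0, 0, 1, 0]), (331, [1, 1, 0, 1, 0, 0, 1]), (140, [0, 0, -1, 0, -1, -1, 0]), (80, [1, 1, 0,
  0, 0, 0, 0]), (273, [-1, 0, 0, -1, 0, 0, 0]), (103, [0, 0, -1, -1, -1, -1, -1]), (137, [0,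
  -1, -1, 0, -1, -1, -1]), (107, [0, 0, 0, 0, 0, -1, -1]), (150, [-1, -1, -1, -1, -1, -1, 0]),
  (94, [0, 0, -1, 0, 0, 0, 0]), (29, [1, -1, -1, 0, 0, -1, -1]), (16, [1, 0, -1, 1, 0, 0, 1]),
  (186, [0, 0, 0, 1, 1, 1, 0]), (79, [-1, 0, 0, 0, -1, 0, 1]), (338, [0, -1, -1, 0, 0, -1,
  -1]), (139, [0, 0, -1, -1, 0, -1, -1]), (75, [1, 0, 0, 1, 1, 0, 0]), (232, [1, 1, 0, 0, 1, 0,
  0]), (261, [1, 0, -1, 0, 0, 0, 0]), (78, [0, 0, 0, 0, 1, 0, -1]), (158, [0, -1, -1, 0, 0, 0,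
  -1]), (167, [1, 0, 0, 1, 1, 1, 0]), (134, [1, 1, 0, 0, 1, 1, 0]), (55, [0, 0, 0, 0, 1, 0,
  0]), (98, [0, -1, -1, 0, 0, 0, 0]), (10, [0, 0, -1, -1, 0, 0, 0]), (298, [-1, 0, 0, -1, -1,
  -1, -1]), (62, [1, 1, 0, 0, 1, 1, 1]), (159, [0, -1, -1, 0, 0, -1, 0]), (192, [0, 0, -1, -1,
  0, -1, 0]), (134, [-1, 0, 0, -1, -1, 0, -1]), (195, [1, 0, -1, 0, 0, 0, 1]), (19, [0, 0, 0,
  0, 1, 1, 0]), (127, [0, 0, 0, 1, 1, 1, 1]), (168, [-1, 0, 0, 0, -1, 0, 0]), (161, [0, 0, -1,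
  0, 0, 0, 1]), (136, [-1, 1, 1, 0, 0, 1, 0]), (172, [0, 1, 0, 0, -1, 0, 1])]

theorem ck7_26 : chk 7 gm7_26 im7_26 6 1540 wt7_26 = true := by
  decide +kernel

/-- inverse matrix times an integer -/
def im7_27 : List (List ℤ) :=
  [[4307, -1204, 2402, -1708, -2343, -1534, 2421], [-1204, 3920, -280, 1288, 1596, -1792, -2604],
  [2402, -280, 4652, -2408, -1658, -2188, 2502], [-1708, 1288, -2408, 4592, 756, -280, -2940],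
  [-2343, 1596, -1658, 756, 4587, -498, -2913], [-1534, -1792, -2188, -280, -498, 4988, -122],
  [2421, -2604, 2502, -2940, -2913, -122, 5667]]

/-- weighted vectors -/
def wt7_27 : List (ℕ × List ℤ) :=
  [(385, [0, 0, 0, 0, 0, 0, 0]), (41, [0, -1, 0, -1, 0, 0, -1]), (38, [0, 0, -1, 0, 0, -1, 1]),
  (6, [0, 0, -1, -1, 0, -1, 0]), (28, [0, -1, 0, 0, 0, 0, 0]), (9, [1, 0, 0, 0, 1, 0, 0]), (42,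
  [1, 0, 0, 0, 0, 0, 0]), (16, [-1, -1, -1, -1, 0, -1, 0]), (24, [0, 0, -1, -1, -1, -1, 0]),
  (10, [0, -1, 0, 0, 1, 0, 0]), (34, [0, 0, 0, 1, 1, 0, 1]), (2, [-1, 0, -1, -1, 0, -1, 0]),
  (17, [1, 1, 0, 0, 0, 0, 0]), (24, [0, 0, 0, 0, 1, 0, 0]), (3, [0, 1, -1, 0, 0, 0, 1]), (33,
  [0, 0, -1, -1, 0, 0, 0]), (22, [0, -1, 0, 0, 0, -1, 0]), (28, [-1, -1, 0, -1, -1, -1, -1]),
  (28, [1, 0, -1, 0, 1, 0, 1]), (3, [-1, 0, 0, 0, -1, -1, 0]), (9, [0, -1, 0, -1, 0, -1, -1]),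
  (22, [0, 0, -1, 0, 0, 0, 1]), (27, [0, 0, 0, 0, 0, -1, 0]), (16, [0, 1, -1, -1, 0, 0, 0]),
  (4, [1, 1, -1, 0, 1, 0, 1]), (18, [-1, 0, 0, -1, -1, -1, -1]), (36, [-1, -1, 0, 0, -1, -1,
  0]), (14, [1, 1, -1, 0, 0, 0, 1]), (1, [-1, -1, 0, 0, 0, -1, 0]), (34, [0, -1, 1, 1, 1, 0,
  0]), (13, [-1, -1, 0, -1, 0, -1, -1]), (9, [-1, 0, 0, 0, 0, -1, 0]), (12, [1, 1, -1, -1, 0,
  0, 0]), (31, [-1, 1, 0, 0, 0, 0, 1]), (3, [-1, 0, 0, -1, 0, 0, 0]), (8, [0, -1, -1, -1, -1,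
  -1, -1]), (32, [0, 0, 0, 0, 1, 0, 1]), (8, [0, 0, -1, 0, -1, -1, 0]), (32, [-1, 0, 0, 0, 0,
  0, 1]), (33, [0, 0, -1, -1, -1, -1, -1]), (4, [0, 1, 0, 0, 0, 0, 1]), (22, [0, -1, -1, 0, 0,
  -1, 0]), (16, [1, 1, 1, 1, 1, 1, 1]), (42, [1, 0, 1, 0, 1, 1, 0]), (37, [0, -1, -1, -1, 0,
  -1, -1]), (22, [0, 1, 0, -1, 0, 0, 0]), (42, [1, 0, 0, 1, 1, 0, 0]), (2, [1, 0, -1, 0, 0, 0,
  0]), (10, [0, -1, 0, 0, -1, -1, -1]), (15, [0, 0, 1, 1, 1, 0, 1]), (42, [-1, 0, 0, -1, 0, -1,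
  0]), (16, [1, 1, -1, 0, 0, 0, 0]), (20, [0, 0, 1, 0, 1, 0, 0]), (33, [0, 0, 1, 0, 0, 0, 0]),
  (26, [1, 1, 0, 0, 1, 1, 1]), (8, [0, -1, 0, 0, 0, -1, -1])]

theorem ck7_27 : chk 7 gm7_27 im7_27 6 10808 wt7_27 = true := by
  decide +kernel

/-- inverse matrix times an integer -/
def im7_28 : List (List ℤ) :=
  [[287, -141, 64, 115, -144, 102, -213], [-141, 303, -68, -141, 24, -146, 143], [64, -68, 248,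
  64, -128, -24, -132], [115, -141, 64, 287, -144, 102, -213], [-144, 24, -128, -144, 288, -32,
  168], [102, -146, -24, 102, -32, 252, -162], [-213, 143, -132, -213, 168, -162, 399]]

/-- weighted vectors -/
def wt7_28 : List (ℕ × List ℤ) :=
  [(79, [0, 0, 0, 0, 0, 0, 0]), (1, [1, 0, 0, 0, 0, 1, 1]), (6, [0, 0, 0, 1, 0, 1, 1]), (7, [0,
  1, 0, 1, 0, 0, 0]), (4, [1, 1, 0, 1, 0, 1, 1]), (2, [1, 1, 0, 0, 0, 0, 0]), (2, [0, 0, 0, 0,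
  0, 1, 0]), (3, [0, 0, 0, 1, 0, 0, 1]), (10, [1, 1, 0, 1, 0, 0, 1]), (6, [0, -1, 0, 0, 0, 0,
  1]), (1, [0, 0, 1, 0, 0, 1, 1]), (3, [1, 0, -1, 0, 0, 0, 0]), (2, [0, 1, 1, 1, 0, 1, 1]), (3,
  [1, 1, 1, 0, 0, 1, 1]), (6, [0, -1, -1, 0, 0, 0, 0]), (2, [0, 0, -1, 0, 0, 0, -1]), (1, [1,
  0, -1, 0, 0, -1, 0]), (4, [0, 0, -1, 1, 0, -1, 0]), (2, [0, -1, -1, 0, 0, -1, 0]), (4, [0, 0,
  0, 1, 0, 0, 0]), (5, [1, 0, 0, 0, 0, 0, 0]), (3, [0, 0, 0, 0, 0, 1, 1]), (1, [0, -1, 0, 0, 0,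
  0, 0]), (1, [1, 1, 0, 0, 0, 1, 1]), (1, [0, 1, 0, 1, 0, 1, 1]), (1, [0, 0, 0, -1, 0, 1, 0]),
  (2, [1, 0, 0, 1, 0, 0, 1]), (5, [-1, 0, 0, 0, 0, 1, 0]), (1, [0, 0, 0, 0, 0, 0, -1]), (7, [1,
  0, 1, 0, 0, 1, 1]), (5, [0, 0, -1, 0, 0, 0, 0]), (3, [0, -1, -1, 0, 0, -1, -1]), (4, [0, 0,
  -1, -1, 0, 0, -1]), (4, [-1, 0, -1, 0, 0, 0, -1]), (1, [0, 0, 1, 0, 0, 1, 0]), (5, [1, 1, 1,
  1, 1, 1, 1]), (4, [0, -1, -1, -1, -1, 0, 0]), (2, [-1, -1, -1, 0, -1, 0, 0]), (3, [-1, 0, -1,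
  0, -1, 0, -1]), (4, [0, 0, -1, -1, -1, 0, -1]), (3, [0, -1, -1, -1, -1, -1, 0]), (3, [-1, -1,
  -1, 0, -1, -1, 0]), (3, [-1, 0, 0, 0, -1, 0, 0]), (2, [0, 0, 0, 0, -1, 1, 1]), (1, [0, 0, 0,
  -1, -1, 0, 0]), (1, [1, 1, 0, 1, 1, 0, 0]), (5, [-1, 0, 0, 0, -1, 1, 0]), (6, [0, 0, 0, 0,
  -1, 0, 1]), (4, [0, 0, 0, -1, -1, 1, 0]), (2, [1, 0, 0, 1, 1, 0, 1]), (7, [0, 0, -1, -1, -1,
  0, 0]), (1, [-1, 0, -1, 0, -1, 0, 0]), (5, [-1, -1, -1, 0, -1, -1, -1]), (4, [0, -1, -1, -1,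
  -1, -1, -1]), (2, [-1, -1, -1, -1, -1, 0, 0]), (1, [-1, 0, -1, -1, -1, 0, -1]), (4, [0, -1,
  -1, 0, -1, -1, 0]), (4, [0, 0, 0, 0, -1, 0, 0]), (7, [-1, -1, 0, 0, -1, 0, 0]), (5, [-1, 0,
  0, -1, -1, 1, 0]), (3, [1, 1, 0, 0, 1, 1, 0]), (5, [0, 1, 0, 1, 1, 1, 0])]

theorem ck7_28 : chk 7 gm7_28 im7_28 6 688 wt7_28 = true := by
  decide +kernel

/-- inverse matrix times an integer -/
def im7_29 : List (List ℤ) :=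
  [[788, -496, 388, 108, -348, 348, -518], [-496, 992, -496, -496, 496, -496, 496], [388, -496,
  788, 348, -348, 108, -518], [108, -496, 348, 788, -388, 148, -378], [-348, 496, -348, -388,
  788, -388, 218], [348, -496, 108, 148, -388, 788, -378], [-518, 496, -518, -378, 218, -378,
  973]]

/-- weighted vectors -/
def wt7_29 : List (ℕ × List ℤ) :=
  [(74, [0, 0, 0, 0, 0, 0, 0]), (5, [0, 0, 0, 0, 0, -1, 0]), (2, [0, 0, -1, 0, 0, 0, -1]), (1,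
  [0, 0, -1, 0, 0, -1, -1]), (3, [-1, 0, 0, -1, 0, 0, -1]), (5, [1, 0, -1, 0, 0, -1, 0]), (4,
  [1, 0, -1, 1, 0, -1, 0]), (2, [-1, 0, 1, -1, 0, 0, 0]), (7, [0, 1, 1, 0, 0, 0, 0]), (3, [0,
  1, 0, 0, 0, 0, -1]), (4, [-1, -1, -1, 0, 0, -1, -1]), (5, [-1, -1, -1, -1, 0, 0, -1]), (7,
  [1, 1, 0, 0, 0, 0, 0]), (6, [-1, -1, 0, -1, 0, 0, 0]), (4, [0, 0, 0, 0, 1, 1, 0]), (6, [0, 0,
  0, 0, 1, 0, 0]), (7, [0, 0, 0, 1, 1, 0, 0]), (2, [0, 0, 0, -1, -1, -1, 0]), (7, [0, 0, 1, 1,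
  1, 0, 1]), (5, [0, 0, -1, -1, -1, -1, -1]), (8, [1, 0, 0, 0, 1, 1, 1]), (3, [1, 0, 0, 1, 1,
  0, 1]), (4, [-1, 0, 0, -1, -1, -1, -1]), (2, [1, 0, -1, 1, 1, 0, 0]), (6, [0, 1, 1, 0, 1, 1,
  0]), (3, [0, -1, -1, -1, -1, -1, 0]), (4, [0, -1, 0, 0, 1, 0, 1]), (3, [-1, -1, -1, -1, -1,
  -1, -1]), (2, [0, 0, -1, 0, 0, 0, 0]), (4, [0, 0, -1, 1, 0, 0, 0]), (4, [0, 0, 0, 0, 0, 1,
  1]), (8, [0, 0, 0, 0, 0, 0, 1]), (3, [0, 0, 0, 1, 0, 0, 1]), (3, [-1, 0, 0, 0, 0, 1, 0]), (8,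
  [-1, 0, 0, 0, 0, 0, 0]), (2, [0, 1, 0, 0, 0, 1, 0]), (2, [0, 1, 0, 0, 0, 0, 0]), (2, [0, 1,
  0, 1, 0, 0, 0]), (2, [0, -1, 0, -1, 0, -1, 0]), (4, [0, 1, 1, 0, 0, 1, 1]), (7, [0, -1, -1,
  -1, 0, -1, -1]), (4, [1, 1, 0, 1, 0, 1, 1]), (3, [-1, 1, 1, 0, 0, 1, 0]), (6, [1, 1, -1, 1,
  0, 0, 0]), (1, [0, 0, -1, 0, -1, 0, 0]), (3, [0, 0, -1, 0, -1, -1, 0]), (10, [1, 0, 1, 0, 1,
  0, 1]), (2, [-1, 0, 0, -1, -1, 0, 0]), (6, [0, 1, 0, 0, -1, 0, 0]), (6, [0, 1, 0, 1, 1, 1,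
  0]), (4, [1, 1, 0, 1, 1, 1, 1])]

theorem ck7_29 : chk 7 gm7_29 im7_29 8 2480 wt7_29 = true := by
  decide +kernel

/-- inverse matrix times an integer -/
def im7_30 : List (List ℤ) :=
  [[155, 65, 77, -108, -82, -85, 23], [65, 115, 15, -88, -42, -65, 45], [77, 15, 139, -80, -74,
  -77, 23], [-108, -88, -80, 176, 62, 88, -68], [-82, -42, -74, 62, 124, 62, -50], [-85, -65,
  -77, 88, 62, 139, -65], [23, 45, 23, -68, -50, -65, 115]]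

/-- weighted vectors -/
def wt7_30 : List (ℕ × List ℤ) :=
  [(113, [0, 0, 0, 0, 0, 0, 0]), (7, [0, -1, 0, -1, 0, 0, -1]), (6, [0, 0, 0, 0, 0, -1, 0]), (2,
  [1, -1, 0, 0, 0, 0, 0]), (3, [-1, 0, 0, -1, 0, 0, -1]), (6, [-1, 0, 0, -1, 0, -1, -1]), (2,
  [0, -1, 0, -1, 0, 0, 0]), (4, [0, 0, 0, 0, 0, 0, -1]), (6, [0, 0, 0, 0, 0, -1, -1]), (3, [-1,
  0, 0, -1, 0, 0, 0]), (1, [1, -1, 0, 0, 0, 1, 1]), (1, [-1, 0, 0, -1, -1, 0, -1]), (8, [1, -1,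
  0, 0, 1, 0, 0]), (3, [0, 0, 0, 0, -1, 0, 0]), (10, [0, 0, 0, 0, 1, -1, 0]), (9, [1, -1, 0, 0,
  1, 0, 1]), (4, [0, -1, 0, 0, 0, 0, 0]), (7, [0, 0, 0, -1, 0, 0, -1]), (7, [1, 0, 0, 0, 0, 1,
  0]), (11, [-1, -1, 0, -1, 0, -1, -1]), (9, [1, 0, 0, 0, 0, 0, 0]), (10, [0, 0, 0, -1, 0, 1,
  0]), (4, [0, 1, 0, 0, 0, 0, -1]), (5, [1, 0, 0, 0, 0, 1, 1]), (6, [-1, -1, 0, -1, 0, 0, 0]),
  (1, [1, 0, 0, 0, 1, 0, 0]), (8, [0, -1, 0, 0, -1, 0, 0]), (10, [1, 0, 0, 0, 1, 1, 1]), (6,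
  [1, 0, 0, 0, 1, 0, 1]), (10, [-1, -1, 0, -1, -1, 0, 0]), (6, [0, 0, 0, -1, 1, 0, 0]), (8, [1,
  0, 1, 1, 1, 0, 1]), (2, [1, 0, 1, 1, 1, 1, 1]), (11, [0, -1, -1, -1, -1, 0, -1]), (8, [0, -1,
  -1, -1, -1, -1, -1]), (10, [1, 0, 1, 1, 1, 0, 0]), (4, [0, 0, 1, 0, 1, 0, 1]), (10, [0, 0, 1,
  0, 1, 1, 1]), (11, [0, 0, 1, 0, 0, 0, 0]), (3, [0, 0, 1, 0, 0, 1, 0]), (9, [-1, 1, 1, 0, 0,
  0, 0]), (5, [1, 0, 1, 1, 0, 1, 1]), (3, [0, -1, -1, -1, 0, 0, 0]), (7, [0, -1, -1, -1, 0, -1,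
  0]), (8, [0, 0, 1, 0, 0, 1, 1]), (5, [-1, 1, 1, 0, 0, 0, -1]), (9, [0, 1, 1, 0, 1, 1, 0]),
  (3, [0, 0, -1, -1, -1, 0, -1]), (7, [1, 1, 1, 1, 1, 1, 0]), (13, [0, 1, 1, 0, 0, 1, 0]), (8,
  [0, 0, -1, -1, 0, 0, 0])]

theorem ck7_30 : chk 7 gm7_30 im7_30 8 394 wt7_30 = true := by
  decide +kernel

end Run7.h92
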