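import Pool.Agent.Run7.h92.GramD
import Pool.Agent.Run7.h92.GramT

/-!
# Checks for forms of rank 7
-/

namespace Run7.h92

/-- inverse matrix times an integer -/
def im7_31 : List (List ℤ) :=
  [[5775, -1435, -3150, -3050, 250, 2030, 2030], [-1435, 5675, -1010, -2230, -3050, 870, 870],
  [-3150, -1010, 6200, 2560, 760, -2900, -2900], [-3050, -2230, 2560, 7800, 3240, -4060,
  -4060], [250, -3050, 760, 3240, 6200, -2900, -2900], [2030, 870, -2900, -4060, -2900, 6032,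
  2088], [2030, 870, -2900, -4060, -2900, 2088, 6032]]

/-- weighted vectors -/
def wt7_31 : List (ℕ × List ℤ) :=
  [(38, [0, 0, 0, 0, 0, 0, 0]), (2, [0, -1, 0, -1, -1, -1, 0]), (1, [0, 0, 0, 0, 0, -1, 1]), (4,
  [0, -1, 0, -1, 0, 0, -1]), (4, [0, -1, 0, 0, -1, 0, 0]), (1, [0, 0, 0, -1, 0, -1, 0]), (1,
  [0, 0, 0, 1, 0, 0, 1]), (1, [0, -1, 0, 0, 0, 0, 0]), (1, [1, 0, 1, 0, 0, 0, 0]), (1, [-1, -1,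
  -1, -1, -1, -1, 0]), (3, [-1, -1, -1, -1, -1, 0, -1]), (1, [1, 0, 1, 0, -1, 0, 0]), (2, [-1,
  -1, -1, -1, 0, -1, 0]), (3, [-1, -1, -1, -1, 0, 0, -1]), (1, [-1, -1, -1, 0, -1, 0, 0]), (3,
  [1, 0, 1, 1, 0, 1, 0]), (1, [-1, -1, -1, 0, 0, 0, 0]), (1, [0, 0, 0, 0, 0, 1, 0]), (1, [0, 0,
  0, 0, 0, 0, 1]), (1, [0, 0, 0, 0, -1, -1, 0]), (2, [0, -1, 0, -1, 0, 0, 0]), (4, [0, 0, 0, 0,
  -1, 0, -1]), (2, [0, -1, 0, 0, -1, -1, 0]), (1, [0, 0, 0, -1, 0, 0, 0]), (1, [0, -1, 0, 0,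
  -1, 0, -1]), (1, [0, 0, 0, 1, 0, 1, 1]), (3, [0, 0, 0, 1, -1, 0, 0]), (3, [0, 0, 0, -1, -1,
  -1, -1]), (1, [-1, -1, -1, -1, 0, 0, 0]), (2, [-1, -1, -1, -1, 0, -1, -1]), (1, [-1, -1, -1,
  0, -1, -1, 0]), (1, [-1, -1, -1, 0, -1, 0, -1]), (3, [1, 0, 1, 1, 0, 1, 1]), (2, [-1, 0, 0,
  0, 0, 1, 0]), (2, [-1, 0, 0, 0, 0, 0, 1]), (3, [1, 0, 0, 0, -1, -1, 0]), (1, [-1, -1, 0, -1,
  0, 0, 0]), (1, [1, 0, 0, 0, -1, 0, -1]), (1, [-1, 0, 0, -1, 0, 0, 0]), (1, [-1, -1, 0, 0, 0,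
  1, 0]), (1, [-1, -1, 0, 0, 0, 0, 1]), (1, [0, 0, 1, 0, 0, 1, 0]), (1, [0, 0, 1, 0, 0, 0, 1]),
  (2, [0, 0, 1, 0, 1, 1, 0]), (3, [0, 0, 1, 0, 1, 0, 1]), (2, [0, -1, -1, 0, -1, -1, 0]), (3,
  [0, 0, 1, -1, 0, 0, 0]), (1, [0, -1, -1, 0, -1, 0, -1]), (3, [0, 0, 1, 1, 0, 1, 1]), (3, [1,
  0, 0, 0, 0, 0, 0]), (3, [-1, -1, 0, -1, 0, -1, 0]), (3, [1, 0, 0, 0, -1, -1, -1]), (1, [-1,
  -1, 0, 0, -1, 0, 0]), (1, [1, 0, 0, 1, 0, 0, 1]), (1, [-1, -1, 0, 0, 0, 0, 0]), (3, [0, 0, 1,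
  0, 0, 0, 0]), (4, [0, -1, -1, 0, -1, -1, -1]), (1, [0, -1, -1, 0, 0, 0, 0])]

theorem ck7_31 : chk 7 gm7_31 im7_31 8 19720 wt7_31 = true := by
  decide +kernel

/-- inverse matrix times an integer -/
def im7_32 : List (List ℤ) :=
  [[3983, -1855, 2695, -1855, 910, -1855, -1855], [-1855, 1935, -1575, 895, -910, 895, 895],
  [2695, -1575, 2975, -1575, 910, -1575, -1575], [-1855, 895, -1575, 1935, -910, 895, 895],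
  [910, -910, 910, -910, 1820, -910, -910], [-1855, 895, -1575, 895, -910, 1935, 895], [-1855,
  895, -1575, 895, -910, 895, 1935]]

/-- weighted vectors -/
def wt7_32 : List (ℕ × List ℤ) :=
  [(24, [0, 0, 0, 0, 0, 0, 0]), (2, [0, 0, -1, -1, 0, -1, 0]), (4, [0, 0, 1, 0, 0, 1, 0]), (2,
  [0, 0, 0, -1, 0, 0, 0]), (2, [0, 0, 0, 0, -1, -1, 0]), (1, [-1, 0, 0, 0, -1, -1, -1]), (5,
  [0, 0, 1, 1, 0, 0, 1]), (5, [0, 0, 1, 0, 1, 1, 1]), (4, [1, 0, 0, 0, 0, 0, 1]), (2, [0, 0, 0,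
  0, 1, 0, 1]), (1, [1, 0, 0, 1, 0, 0, 1]), (2, [0, 0, 0, 0, 0, -1, 0]), (4, [-1, 0, 0, -1, -1,
  -1, 0]), (4, [0, 0, 1, 1, 0, 0, 0]), (4, [-1, 0, 0, -1, 0, 0, 0]), (2, [0, 0, -1, -1, -1, -1,
  0]), (2, [0, 0, 0, -1, -1, 0, 0]), (1, [0, 0, 1, 0, 0, 1, 1]), (2, [0, 0, 0, 0, 0, 0, 1]),
  (1, [-1, 0, 0, -1, -1, 0, -1]), (5, [1, 0, 0, 0, 0, 1, 1]), (1, [0, 0, 1, 1, 1, 0, 1]), (4,
  [-1, -1, 0, -1, -1, -1, 0]), (1, [0, -1, -1, -1, 0, 0, 0]), (8, [0, 1, 1, 0, 0, 0, 0]), (1,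
  [-1, -1, 0, 0, -1, -1, 0]), (2, [0, -1, 0, 0, -1, 0, 0]), (1, [-1, -1, 0, -1, 0, 0, 0]), (1,
  [0, -1, -1, 0, -1, -1, 0]), (4, [-1, -1, 0, 0, -1, 0, -1]), (4, [-1, -1, 0, -1, -1, 0, -1]),
  (2, [0, 1, 1, 0, 1, 0, 1]), (2, [0, -1, 0, 0, 0, 0, 0]), (1, [-1, -1, 0, -1, -1, 0, 0]), (1,
  [0, -1, -1, 0, 0, -1, 0]), (1, [0, -1, -1, -1, -1, 0, 0]), (5, [-1, -1, 0, 0, 0, -1, 0]), (2,
  [0, 1, 1, 0, 0, 0, 1])]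

theorem ck7_32 : chk 7 gm7_32 im7_32 10 7280 wt7_32 = true := by
  decide +kernel

/-- inverse matrix times an integer -/
def im7_33 : List (List ℤ) :=
  [[2, -1, -1, 1, -1, 0, 0], [-1, 2, 0, -1, 0, -1, 1], [-1, 0, 2, -1, 1, 1, 0], [1, -1, -1, 2, 0,
  0, -1], [-1, 0, 1, 0, 2, 1, -1], [0, -1, 1, 0, 1, 2, -1], [0, 1, 0, -1, -1, -1, 2]]

/-- weighted vectors -/
def wt7_33 : List (ℕ × List ℤ) :=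
  [(8, [0, 0, 0, 0, 0, 0, 0]), (1, [0, 0, 0, 0, 0, 0, 1]), (1, [0, 0, 0, 0, 0, -1, 0]), (1, [0,
  0, 0, 0, -1, 0, 0]), (1, [0, 0, 0, -1, 0, -1, -1]), (1, [0, 0, 0, -1, -1, 0, -1]), (1, [0, 0,
  1, 0, 0, 0, 0]), (1, [0, 0, -1, 0, 0, 1, 1]), (1, [0, 0, 1, 0, -1, 0, 0]), (1, [0, 0, -1, -1,
  0, 1, 0]), (1, [0, 0, -1, -1, 1, 0, 0]), (1, [0, 1, 0, 0, 0, 0, 0]), (1, [0, -1, 0, 0, 1, 0,
  1]), (1, [0, -1, 0, -1, 1, -1, 0]), (1, [0, 1, 1, 1, 0, 0, 0]), (1, [0, -1, -1, -1, 1, 0,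
  1]), (1, [0, 1, 1, 1, -1, 1, 0]), (1, [-1, 0, 0, 0, -1, 0, -1]), (1, [-1, 0, 0, 0, -1, 1,
  0]), (1, [-1, 0, 0, 1, 0, 0, 1]), (1, [1, 0, 1, 0, 0, -1, 0]), (1, [-1, 0, -1, 0, 0, 1, 1]),
  (1, [-1, 0, -1, 1, 0, 1, 1]), (1, [-1, -1, 0, 0, 0, 0, 1]), (1, [-1, -1, 0, 0, 0, -1, 0]),
  (1, [-1, -1, 0, 0, -1, 0, 0]), (1, [-1, -1, 0, 1, 0, 0, 1]), (1, [-1, 1, 0, 1, -1, 1, 0]),
  (1, [1, 1, 1, 0, 0, 0, 0])]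

theorem ck7_33 : chk 7 gm7_33 im7_33 3 2 wt7_33 = true := by
  decide +kernel

end Run7.h92
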