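import Mathlib.Data.Nat.Notation
import Mathlib.Data.Int.Notation

/-!
# A finite check for certificates
-/

namespace Run7.h92

/-- dot product of lists -/
def ld : List ℤ → List ℤ → ℤ
  | [], _ => 0
  | a :: l, l' => match l' with
    | [] => 0
    | b :: l'' => a * b + ld l l''

/-- pairing of lists of bits -/
def lb : List Bool → List Bool → Bool
  | [], _ => false
  | a :: l, l' => match l' with
    | [] => false
    | b :: l'' => (a && b) ^^ lb l l''

/-- all lists of bits of given length -/
def allB : ℕ → List (List Bool)
  | 0 => [[]]
  | n + 1 => (allB n).map (List.cons false) ++ (allB n).map (List.cons true)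

/-- oddness -/
def od (z : ℤ) : Bool := z % 2 == 1

/-- the check -/
def chk (r : ℕ) (G H : List (List ℤ)) (m d : ℤ) (D : List (ℕ × List ℤ)) : Bool :=
  let tot : ℕ := (D.map Prod.fst).sum
  decide (0 < d) && decide (0 < m) && decide (0 < tot) &&
  decide (G.length = r) && decide (H.length = r) &&
  G.all (fun x => decide (x.length = r)) && H.all (fun x => decide (x.length = r)) &&
  D.all (fun x => decide (x.2.length = r)) &&
  (List.range r).all (fun i => (List.range r).all fun j =>
    decide (ld (G.getD i []) (H.getD j []) = if i = j then d else 0)) &&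
  D.all (fun x => decide (m * ld x.2 (H.map fun h => ld h x.2) < 4 * d)) &&
  (List.range r).all (fun i => (List.range r).all fun j =>
    decide (3 * m * (D.map fun x => (x.1 : ℤ) * (x.2.getD i 0 * x.2.getD j 0)).sum =
      (tot : ℤ) * (G.getD i []).getD j 0)) &&
  (List.range r).all (fun i => (List.range r).all fun j =>
    decide ((H.getD i []).getD j 0 = (H.getD j []).getD i 0)) &&
  (allB r).all (fun b => b.all (fun t => !t) ||
    decide (tot ≤ 3 * (D.map fun x => if lb b (x.2.map od) then x.1 else 0).sum))

end Run7.h92
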