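import Pool.Agent.Run7.h92.GramC
import Pool.Agent.Run7.h92.GramD

/-!
# Checking certificates for Gram matrices given by lists
-/

namespace Run7.h92

open Matrix

variable {k r : ℕ}

/-- the vector of a list -/
def toV (r : ℕ) (l : List ℤ) : Fin r → ℤ := fun i => l.getD i 0

/-- the matrix of a list of rows -/
def toM (r : ℕ) (L : List (List ℤ)) : Matrix (Fin r) (Fin r) ℤ :=
  Matrix.of fun i j => (L.getD i []).getD j 0

theorem toV_cons (a : ℤ) (l : List ℤ) : toV (r + 1) (a :: l) = Fin.cons a (toV r l) := by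
  funext i
  refine Fin.cases rfl (fun i => ?_) i
  rfl

theorem ld_toV : ∀ (r : ℕ) (l l' : List ℤ), l.length = r → l'.length = r →
    toV r l ⬝ᵥ toV r l' = ld l l' := by
  intro r
  induction r with
  | zero =>
    intro l l' h h'
    rw [List.length_eq_zero_iff] at h
    subst h
    simp [dotProduct, ld]
  | succ r ih =>
    intro l l' h h'
    match l, l', h, h' with
    | a :: l, b :: l', h, h' =>
      have h1 : l.length = r := by simpa using h
      have h2 : l'.length = r := by simpa using h'
      unfold dotProduct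
      rw [Fin.sum_univ_succ]
      have h3 := ih l l' h1 h2
      unfold dotProduct at h3
      rw [toV_cons, toV_cons]
      simp only [Fin.cons_zero, Fin.cons_succ]
      rw [h3]
      rfl

theorem od_iff (z : ℤ) : od z = true ↔ (z : ZMod 2) = 1 := by
  unfold od
  rw [beq_iff_eq]
  have h := ZMod.intCast_eq_intCast_iff' z 1 2
  push_cast at h
  rw [h]

theorem zmod2_cases (x : ZMod 2) : x = 0 ∨ x = 1 := by
  revert x
  decide

/-- bits of a class -/
def bits (r : ℕ) (b : Fin r → ZMod 2) : List Bool := List.ofFn fun i => decide (b i = 1)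

theorem bits_mem : ∀ (r : ℕ) (b : Fin r → ZMod 2), bits r b ∈ allB r := by
  intro r
  induction r with
  | zero =>
    intro b
    simp [bits, allB]
  | succ r ih =>
    intro b
    have h1 : bits (r + 1) b = decide (b 0 = 1) :: bits r (fun i => b i.succ) := by
      unfold bits
      rw [List.ofFn_succ]
    rw [h1]
    unfold allB
    rw [List.mem_append, List.mem_map, List.mem_map]
    cases h : decide (b 0 = 1) with
    | false => exact Or.inl ⟨_, ih _, rfl⟩
    | true => exact Or.inr ⟨_, ih _, rfl⟩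

theorem lb_bits : ∀ (r : ℕ) (b : Fin r → ZMod 2) (l : List ℤ), l.length = r →
    (lb (bits r b) (l.map od) = true ↔ b ⬝ᵥ rd2 (toV r l) = 1) := by
  intro r
  induction r with
  | zero =>
    intro b l h
    rw [List.length_eq_zero_iff] at h
    subst h
    simp [bits, lb, dotProduct]
  | succ r ih =>
    intro b l h
    match l, h with
    | a :: l, h =>
      have h1 : l.length = r := by simpa using h
      have h2 : bits (r + 1) b = decide (b 0 = 1) :: bits r (fun i => b i.succ) := by
        unfold bits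
        rw [List.ofFn_succ]
      have h3 := ih (fun i => b i.succ) l h1
      have h4 : b ⬝ᵥ rd2 (toV (r + 1) (a :: l)) =
          b 0 * (a : ZMod 2) + (fun i => b i.succ) ⬝ᵥ rd2 (toV r l) := by
        unfold dotProduct
        rw [Fin.sum_univ_succ]
        rfl
      rw [h2, h4]
      show ((decide (b 0 = 1) && od a) ^^ lb (bits r fun i => b i.succ) (l.map od)) = true ↔ _
      generalize (fun i => b i.succ) ⬝ᵥ rd2 (toV r l) = x at h3 ⊢
      generalize lb (bits r fun i => b i.succ) (l.map od) = y at h3 ⊢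
      have h5 := od_iff a
      generalize (a : ZMod 2) = z at h5 ⊢
      generalize od a = w at h5 ⊢
      generalize b 0 = t
      revert h3 h5
      revert t w z y x
      decide

theorem list_sum_fin {α : Type*} {β : Type*} [AddCommMonoid β] (D : List α) (f : α → β) :
    ∑ i : Fin D.length, f (D.get i) = (D.map f).sum := by
  induction D with
  | nil => simp
  | cons a D ih =>
    rw [List.map_cons, List.sum_cons, ← ih]
    exact Fin.sum_univ_succ (fun i : Fin (D.length + 1) => f ((a :: D).get i))

theorem chk_sound {G H : List (List ℤ)} {m d : ℤ} {D : List (ℕ × List ℤ)}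
    (h : chk r G H m d D = true) :
    ∃ P, FCert (toM r G) m P ∧
      (∀ b : Fin r → ZMod 2, ∑ e, (if b ⬝ᵥ e = 1 then P e else 0) =
        (D.map fun x => if lb (bits r b) (x.2.map od) then x.1 else 0).sum) ∧
      (∑ e, P e = (D.map Prod.fst).sum) ∧ 0 < d ∧ (toM r G) * (toM r H) = d • 1 ∧
      (∀ w : Fin r → ℤ, 0 ≤ w ⬝ᵥ toM r G *ᵥ w) ∧ ∀ a b, toM r G a b = toM r G b a := by
  unfold chk at h
  simp only [Bool.and_eq_true, decide_eq_true_eq, List.all_eq_true, List.mem_range,
    Bool.or_eq_true, Bool.not_eq_true'] at h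
  obtain ⟨⟨⟨⟨⟨⟨⟨⟨⟨⟨⟨⟨hd, hm⟩, htot⟩, hG⟩, hH⟩, hG'⟩, hH'⟩, hD⟩, hGH⟩, hu⟩, hq⟩, hHs⟩, hge⟩ := h
  have hrow : ∀ (L : List (List ℤ)) (i : Fin r), toM r L i = toV r (L.getD i []) := fun L i => rfl
  have hlen : ∀ (L : List (List ℤ)), L.length = r → (∀ x ∈ L, x.length = r) → ∀ i : Fin r,
      (L.getD i []).length = r := by
    intro L hL hL' i
    have hi : i.val < L.length := by rw [hL]; exact i.isLt
    rw [List.getD_eq_getElem L [] hi]
    exact hL' _ (List.getElem_mem hi)
  have hprod : toM r G * toM r H = d • (1 : Matrix (Fin r) (Fin r) ℤ) := by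
    have hsymm : (toM r H)ᵀ = toM r H := by
      ext i j
      exact hHs _ j.isLt _ i.isLt
    ext i j
    have e1 : (toM r G * toM r H) i j = toV r (G.getD i []) ⬝ᵥ toV r (H.getD j []) := by
      conv_lhs => rw [← hsymm]
      rfl
    rw [e1, ld_toV r _ _ (hlen G hG hG' i) (hlen H hH hH' j), hGH _ i.isLt _ j.isLt]
    rw [Matrix.smul_apply, Matrix.one_apply]
    by_cases hij : i = j
    · subst hij
      simp
    · rw [if_neg hij, if_neg (fun hc => hij (Fin.ext hc))]
      simp
  have hmv : ∀ x : List ℤ, x.length = r → toM r H *ᵥ toV r x = toV r (H.map fun h => ld h x) := by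
    intro x hx
    funext i
    have e1 : (toM r H *ᵥ toV r x) i = toV r (H.getD i []) ⬝ᵥ toV r x := rfl
    rw [e1, ld_toV r _ _ (hlen H hH hH' i) hx]
    have hi : i.val < H.length := by rw [hH]; exact i.isLt
    unfold toV
    have hi' : i.val < (H.map fun h => ld h x).length := by rw [List.length_map]; exact hi
    rw [List.getD_eq_getElem _ _ hi', List.getElem_map, List.getD_eq_getElem H [] hi]
  have hlb : ∀ b : Fin r → ZMod 2, ∑ i : Fin D.length,
      (if b ⬝ᵥ rd2 (toV r (D.get i).2) = 1 then (D.get i).1 else 0) =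
      (D.map fun x => if lb (bits r b) (x.2.map od) then x.1 else 0).sum := by
    intro b
    rw [← list_sum_fin D fun x => if lb (bits r b) (x.2.map od) then x.1 else 0]
    refine Finset.sum_congr rfl fun i _ => ?_
    have e3 := lb_bits r b (D.get i).2 (hD _ (List.get_mem D i))
    by_cases h : lb (bits r b) ((D.get i).2.map od) = true
    · rw [if_pos h, if_pos (e3.1 h)]
    · rw [if_neg h, if_neg (fun hc => h (e3.2 hc))]
  have htt : ∑ i : Fin D.length, (D.get i).1 = (D.map Prod.fst).sum := list_sum_fin D Prod.fst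
  have k1 : ∀ i : Fin D.length, toM r G *ᵥ (toM r H *ᵥ toV r (D.get i).2) =
      d • toV r (D.get i).2 := by
    intro i
    rw [mulVec_mulVec, hprod, smul_mulVec, one_mulVec]
  have k2 : ∀ i : Fin D.length,
      m * (toV r (D.get i).2 ⬝ᵥ (toM r H *ᵥ toV r (D.get i).2)) < 4 * d := by
    intro i
    have hx := hD _ (List.get_mem D i)
    rw [hmv _ hx, ld_toV r _ _ hx (by rw [List.length_map]; exact hH)]
    exact hu _ (List.get_mem D i)
  have k3 : ∀ a b : Fin r, 3 * m * ∑ i : Fin D.length, (((D.get i).1 : ℕ) : ℤ) *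
      (toV r (D.get i).2 a * toV r (D.get i).2 b) =
      (∑ i : Fin D.length, (((D.get i).1 : ℕ) : ℤ)) * toM r G a b := by
    intro a b
    have e1 := hq a a.isLt b b.isLt
    have e2 : ∑ i : Fin D.length, (((D.get i).1 : ℕ) : ℤ) *
        (toV r (D.get i).2 a * toV r (D.get i).2 b) =
        (D.map fun x => (x.1 : ℤ) * (x.2.getD a 0 * x.2.getD b 0)).sum :=
      list_sum_fin D fun x => (x.1 : ℤ) * (x.2.getD a 0 * x.2.getD b 0)
    have e3 : ∑ i : Fin D.length, (((D.get i).1 : ℕ) : ℤ) = (((D.map Prod.fst).sum : ℕ) : ℤ) := by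
      rw [← Nat.cast_sum]
      congr 1
    rw [e2, e3, e1]
    rfl
  have k4 : ∀ b : Fin r → ZMod 2, b ≠ 0 → ∑ i : Fin D.length, (D.get i).1 ≤
      3 * ∑ i : Fin D.length, if b ⬝ᵥ rd2 (toV r (D.get i).2) = 1 then (D.get i).1 else 0 := by
    intro b hb
    have e1 := hge _ (bits_mem r b)
    rcases e1 with e1 | e1
    · exfalso
      apply hb
      funext i
      have hi : decide (b i = 1) ∈ bits r b := by
        unfold bits
        rw [List.mem_ofFn]
        exact ⟨i, rfl⟩
      have e2 := e1 _ hi
      rw [decide_eq_false_iff_not] at e2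
      rcases zmod2_cases (b i) with h | h
      · exact h
      · exact absurd h e2
    · rw [hlb, htt]
      exact e1
  have k5 : 0 < ∑ i : Fin D.length, (D.get i).1 := by
    rw [htt]
    exact htot
  obtain ⟨hF, hs1, hs2, hpos, hsym⟩ := gram_cert hd hm k1 k2 k3 k4 k5
  exact ⟨_, hF, fun b => (hs1 b).trans (hlb b), hs2.trans htt, hd, hprod, hpos, hsym⟩

end Run7.h92
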