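import Pool.Agent.Run7.h92.Ck5
import Pool.Agent.Run7.h92.Ck6
import Pool.Agent.Run7.h92.Ck7a
import Pool.Agent.Run7.h92.Ck7b
import Pool.Agent.Run7.h92.Ck7c
import Pool.Agent.Run7.h92.Ck7d
import Pool.Agent.Run7.h92.Ck7e
import Pool.Agent.Run7.h92.Ck7f
import Pool.Agent.Run7.h92.GramL

/-!
# Certificates for the perfect forms of rank five, six and seven
-/

namespace Run7.h92

/-- The symmetric matrix of size `r` with diagonal entries `m` and with the entry at `(i, j)`,
`i > j`, equal to `x - 1` where `x` is the digit of `N` at `10 ^ (i (i - 1) / 2 + j)`. -/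
def gramOf (r : ℕ) (m : ℤ) (N : ℕ) : Matrix (Fin r) (Fin r) ℤ := Matrix.of fun i j =>
  if i = j then m
  else ((N / 10 ^ (max i.val j.val * (max i.val j.val - 1) / 2 + min i.val j.val) % 10 : ℕ) : ℤ) - 1

/-- The perfect forms of rank 5, 6, 7: pairs of the minimum and the code of the Gram matrix. -/
def forms (r : ℕ) : List (ℤ × ℕ) :=
  if r = 5 then
    [(2, 1121222222),
     (2, 2221222222),
     (4, 3223332233)]
  else if r = 6 then
    [(2, 212221222211222),
     (2, 222222211212112),
     (2, 221221222112222),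
     (4, 332233332223233),
     (4, 323333222333222),
     (4, 233323232323233),
     (4, 313233233232133)]
  else if r = 7 then
    [(2, 122221222222222222212),
     (2, 122222121112221221212),
     (4, 333323122313322233332),
     (4, 333332311233322311223),
     (4, 323233332331323223321),
     (4, 322323332332333321123),
     (4, 332333311323233133132),
     (6, 434444432424444222333),
     (4, 333323333322233233232),
     (4, 232333233333232323222),
     (4, 333322322333223332332),
     (4, 332223233322333212231),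
     (6, 334424444421242434434),
     (6, 324434244344441342444),
     (4, 233331333332221322221),
     (6, 342341434444342434124),
     (2, 122122112122122122122),
     (4, 333323233333123232321),
     (4, 133123322322332233313),
     (4, 332323323333223332232),
     (6, 443444243334222444333),
     (6, 343244432442424444142),
     (6, 143144432133444344312),
     (6, 423443424433143314244),
     (6, 234243244444144334433),
     (6, 424243444424434324413),
     (6, 344142444444324423113),
     (6, 424434224424444343434),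
     (8, 555535545525424255414),
     (8, 555425335444535555521),
     (8, 455542555422451455555),
     (10, 464546645466466546516),
     (3, 222000020200002220222)]
  else []

theorem fc_of {r : ℕ} {m : ℤ} {N : ℕ} {G H : List (List ℤ)} {d : ℤ} {D : List (ℕ × List ℤ)}
    (h : chk r G H m d D = true) (h2 : toM r G = gramOf r m N) :
    ∃ P, FCert (gramOf r m N) m P := by
  rw [← h2]
  exact (chk_sound h).imp fun _ h => h.1

theorem forms_cert {r : ℕ} {m : ℤ} {N : ℕ} (hF : (m, N) ∈ forms r) :
    ∃ P, FCert (gramOf r m N) m P := by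
  unfold forms at hF
  split_ifs at hF with h h h
  · subst h
    simp only [List.mem_cons, List.not_mem_nil, or_false, Prod.mk.injEq] at hF
    rcases hF with ⟨rfl, rfl⟩ | ⟨rfl, rfl⟩ | ⟨rfl, rfl⟩
    · exact fc_of ck5_1 (by decide +kernel)
    · exact fc_of ck5_2 (by decide +kernel)
    · exact fc_of ck5_3 (by decide +kernel)
  · subst h
    simp only [List.mem_cons, List.not_mem_nil, or_false, Prod.mk.injEq] at hF
    rcases hF with ⟨rfl, rfl⟩ | ⟨rfl, rfl⟩ | ⟨rfl, rfl⟩ | ⟨rfl, rfl⟩ | ⟨rfl, rfl⟩ | ⟨rfl, rfl⟩ | ⟨rfl, rfl⟩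
    · exact fc_of ck6_1 (by decide +kernel)
    · exact fc_of ck6_2 (by decide +kernel)
    · exact fc_of ck6_3 (by decide +kernel)
    · exact fc_of ck6_4 (by decide +kernel)
    · exact fc_of ck6_5 (by decide +kernel)
    · exact fc_of ck6_6 (by decide +kernel)
    · exact fc_of ck6_7 (by decide +kernel)
  · subst h
    simp only [List.mem_cons, List.not_mem_nil, or_false, Prod.mk.injEq] at hF
    rcases hF with ⟨rfl, rfl⟩ | ⟨rfl, rfl⟩ | ⟨rfl, rfl⟩ | ⟨rfl, rfl⟩ | ⟨rfl, rfl⟩ | ⟨rfl, rfl⟩ | ⟨rfl, rfl⟩ | ⟨rfl, rfl⟩ | ⟨rfl, rfl⟩ | ⟨rfl, rfl⟩ | ⟨rfl, rfl⟩ | ⟨rfl, rfl⟩ | ⟨rfl, rfl⟩ | ⟨rfl, rfl⟩ | ⟨rfl, rfl⟩ | ⟨rfl, rfl⟩ | ⟨rfl, rfl⟩ | ⟨rfl, rfl⟩ | ⟨rfl, rfl⟩ | ⟨rfl, rfl⟩ | ⟨rfl, rfl⟩ | ⟨rfl, rfl⟩ | ⟨rfl, rfl⟩ | ⟨rfl, rfl⟩ | ⟨rfl, rfl⟩ | ⟨rfl, rfl⟩ | ⟨rfl, rfl⟩ | ⟨rfl, rfl⟩ | ⟨rfl, rfl⟩ | ⟨rfl, rfl⟩ | ⟨rfl, rfl⟩ | ⟨rfl, rfl⟩ | ⟨rfl, rfl⟩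
    · exact fc_of ck7_1 (by decide +kernel)
    · exact fc_of ck7_2 (by decide +kernel)
    · exact fc_of ck7_3 (by decide +kernel)
    · exact fc_of ck7_4 (by decide +kernel)
    · exact fc_of ck7_5 (by decide +kernel)
    · exact fc_of ck7_6 (by decide +kernel)
    · exact fc_of ck7_7 (by decide +kernel)
    · exact fc_of ck7_8 (by decide +kernel)
    · exact fc_of ck7_9 (by decide +kernel)
    · exact fc_of ck7_10 (by decide +kernel)
    · exact fc_of ck7_11 (by decide +kernel)
    · exact fc_of ck7_12 (by decide +kernel)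
    · exact fc_of ck7_13 (by decide +kernel)
    · exact fc_of ck7_14 (by decide +kernel)
    · exact fc_of ck7_15 (by decide +kernel)
    · exact fc_of ck7_16 (by decide +kernel)
    · exact fc_of ck7_17 (by decide +kernel)
    · exact fc_of ck7_18 (by decide +kernel)
    · exact fc_of ck7_19 (by decide +kernel)
    · exact fc_of ck7_20 (by decide +kernel)
    · exact fc_of ck7_21 (by decide +kernel)
    · exact fc_of ck7_22 (by decide +kernel)
    · exact fc_of ck7_23 (by decide +kernel)
    · exact fc_of ck7_24 (by decide +kernel)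
    · exact fc_of ck7_25 (by decide +kernel)
    · exact fc_of ck7_26 (by decide +kernel)
    · exact fc_of ck7_27 (by decide +kernel)
    · exact fc_of ck7_28 (by decide +kernel)
    · exact fc_of ck7_29 (by decide +kernel)
    · exact fc_of ck7_30 (by decide +kernel)
    · exact fc_of ck7_31 (by decide +kernel)
    · exact fc_of ck7_32 (by decide +kernel)
    · exact fc_of ck7_33 (by decide +kernel)
  · exact absurd hF List.not_mem_nil

end Run7.h92
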