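import Pool.Agent.Run7.h92.RootE
import Mathlib.LinearAlgebra.Matrix.Cartan

/-!
# Certificates for the root lattices E6 and E7
-/

namespace Run7.h92

/-- Cartan matrix, rows -/
def gmE6 : List (List ℤ) :=
  [[2, 0, -1, 0, 0, 0], [0, 2, 0, -1, 0, 0], [-1, 0, 2, -1, 0, 0], [0, -1, -1, 2, -1, 0], [0, 0,
  0, -1, 2, -1], [0, 0, 0, 0, -1, 2]]

/-- inverse matrix times an integer -/
def imE6 : List (List ℤ) :=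
  [[4, 3, 5, 6, 4, 2], [3, 6, 6, 9, 6, 3], [5, 6, 10, 12, 8, 4], [6, 9, 12, 18, 12, 6], [4, 6, 8,
  12, 10, 5], [2, 3, 4, 6, 5, 4]]

/-- weighted vectors -/
def wtE6 : List (ℕ × List ℤ) :=
  [(9, [0, 0, 0, 0, 0, 0]), (1, [0, 0, 0, 0, 0, -1]), (1, [0, 0, 0, 0, -1, 1]), (1, [0, 0, 0, -1,
  1, 0]), (1, [0, 0, -1, 0, 1, 0]), (1, [0, 0, -1, 1, 0, 0]), (1, [0, 0, -1, 1, 0, -1]), (1,
  [0, 0, -1, 1, -1, 1]), (1, [0, -1, 0, 0, 0, 1]), (1, [0, -1, 0, 0, 1, 0]), (1, [0, -1, 0, 0,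
  1, -1]), (1, [0, -1, 0, 1, 0, -1]), (1, [0, -1, 0, 1, -1, 0]), (1, [0, -1, 0, 1, -1, 1]), (1,
  [0, -1, 1, 0, 0, 0]), (1, [0, -1, -1, 1, 0, 0]), (1, [-1, 0, 0, 0, 0, 0]), (1, [-1, 0, 0, 0,
  0, 1]), (1, [-1, 0, 0, 0, 1, -1]), (1, [-1, 0, 0, 1, -1, 0]), (1, [-1, 0, 1, 0, 0, 0]), (1,
  [-1, 0, 1, 0, 0, -1]), (1, [-1, 0, 1, 0, -1, 1]), (1, [-1, 0, 1, -1, 1, 0]), (1, [-1, 1, 0,
  0, 0, 0]), (1, [-1, -1, 0, 1, 0, 0]), (1, [-1, -1, 1, 0, 0, 0]), (1, [-1, 1, 1, -1, 0, 0])]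

theorem ckE6 : chk 6 gmE6 imE6 2 3 wtE6 = true := by
  decide +kernel

theorem ck2E6 : chk2 6 gmE6 wtE6 = true := by
  decide +kernel

theorem toM_E6 : toM 6 gmE6 = CartanMatrix.E₆ := by
  decide +kernel

theorem gcert_E6 : ∃ P, GCert CartanMatrix.E₆ P := by
  rw [← toM_E6]
  exact gcert_of_chk ckE6 ck2E6

/-- Cartan matrix, rows -/
def gmE7 : List (List ℤ) :=
  [[2, 0, -1, 0, 0, 0, 0], [0, 2, 0, -1, 0, 0, 0], [-1, 0, 2, -1, 0, 0, 0], [0, -1, -1, 2, -1, 0,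
  0], [0, 0, 0, -1, 2, -1, 0], [0, 0, 0, 0, -1, 2, -1], [0, 0, 0, 0, 0, -1, 2]]

/-- inverse matrix times an integer -/
def imE7 : List (List ℤ) :=
  [[4, 4, 6, 8, 6, 4, 2], [4, 7, 8, 12, 9, 6, 3], [6, 8, 12, 16, 12, 8, 4], [8, 12, 16, 24, 18,
  12, 6], [6, 9, 12, 18, 15, 10, 5], [4, 6, 8, 12, 10, 8, 4], [2, 3, 4, 6, 5, 4, 3]]

/-- weighted vectors -/
def wtE7 : List (ℕ × List ℤ) :=
  [(8, [0, 0, 0, 0, 0, 0, 0]), (1, [0, 0, 0, 0, 0, 0, -1]), (1, [0, 0, 0, 0, 0, -1, 1]), (1, [0,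
  0, 0, 0, -1, 1, 0]), (1, [0, 0, 0, -1, 1, 0, 0]), (1, [0, 0, -1, 0, 1, 0, 0]), (1, [0, 0, -1,
  1, 0, 0, -1]), (1, [0, 0, -1, 1, 0, -1, 1]), (1, [0, 0, -1, 1, -1, 1, 0]), (1, [0, -1, 0, 0,
  0, 1, 0]), (1, [0, -1, 0, 0, 1, 0, -1]), (1, [0, -1, 0, 0, 1, -1, 1]), (1, [0, -1, 0, 1, 0,
  -1, 0]), (1, [0, -1, 0, 1, -1, 0, 1]), (1, [0, -1, 0, 1, -1, 1, -1]), (1, [0, -1, 1, 0, 0, 0,
  0]), (1, [0, -1, -1, 1, 0, 0, 0]), (1, [-1, 0, 0, 0, 0, 0, 1]), (1, [-1, 0, 0, 0, 0, 1, -1]),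
  (1, [-1, 0, 0, 0, 1, -1, 0]), (1, [-1, 0, 0, 1, -1, 0, 0]), (1, [-1, 0, 1, 0, 0, 0, -1]), (1,
  [-1, 0, 1, 0, 0, -1, 1]), (1, [-1, 0, 1, 0, -1, 1, 0]), (1, [-1, 0, 1, -1, 1, 0, 0]), (1,
  [-1, 1, 0, 0, 0, 0, 0]), (1, [-1, -1, 0, 1, 0, 0, 0]), (1, [-1, -1, 1, 0, 0, 0, 0]), (1, [-1,
  1, 1, -1, 0, 0, 0])]

theorem ckE7 : chk 7 gmE7 imE7 2 2 wtE7 = true := by
  decide +kernel

theorem ck2E7 : chk2 7 gmE7 wtE7 = true := by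
  decide +kernel

theorem toM_E7 : toM 7 gmE7 = CartanMatrix.E₇ := by
  decide +kernel

theorem gcert_E7 : ∃ P, GCert CartanMatrix.E₇ P := by
  rw [← toM_E7]
  exact gcert_of_chk ckE7 ck2E7

end Run7.h92
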