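import Pool.Agent.Run7.h92.RootA

/-!
# Certificates for the root lattices of type D
-/

namespace Run7.h92

open Matrix

variable {n : ℕ}

/-- the spinor class -/
def vs (n : ℕ) : Fin (n + 1) → ZMod 2 := Pi.single 0 1

/-- the weights -/
def PD (n : ℕ) (e : Fin (n + 1) → ZMod 2) : ℕ :=
  (if e = 0 then 2 ^ n else 0) + (if vs n ⬝ᵥ e = 1 then 2 else 0)

theorem vs_dot (e : Fin (n + 1) → ZMod 2) : vs n ⬝ᵥ e = e 0 := by
  unfold vs
  rw [single_dotProduct, one_mul]

theorem vs_ne : vs n ≠ 0 := by
  intro h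
  have h1 := congrFun h 0
  unfold vs at h1
  rw [Pi.single_eq_same, Pi.zero_apply] at h1
  exact absurd h1 (by decide)

/-- number of classes pairing to one -/
def nc (b : Fin (n + 1) → ZMod 2) : ℕ := ∑ e : Fin (n + 1) → ZMod 2, (if b ⬝ᵥ e = 1 then 1 else 0)

theorem nc_ne {b : Fin (n + 1) → ZMod 2} (hb : b ≠ 0) : nc b = 2 ^ n := by
  have h := half_sum hb
  unfold nc
  rw [pow_succ] at h
  omega

theorem nc_zero : nc (0 : Fin (n + 1) → ZMod 2) = 0 := by
  unfold nc
  refine Finset.sum_eq_zero fun e _ => ?_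
  rw [zero_dotProduct, if_neg (by decide)]

theorem PD_tot : ∑ e, PD n e = 3 * 2 ^ n := by
  unfold PD
  rw [Finset.sum_add_distrib, Finset.sum_ite_eq']
  have h1 : ∑ e : Fin (n + 1) → ZMod 2, (if vs n ⬝ᵥ e = 1 then 2 else 0) = 2 * nc (vs n) := by
    unfold nc
    rw [Finset.mul_sum]
    exact Finset.sum_congr rfl fun e _ => by split_ifs <;> rfl
  rw [h1, nc_ne vs_ne]
  simp
  ring

theorem PD_odd (b : Fin (n + 1) → ZMod 2) :
    (∑ e, if b ⬝ᵥ e = 1 then PD n e else 0) + nc (b + vs n) = nc b + nc (vs n) := by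
  unfold nc
  rw [← Finset.sum_add_distrib, ← Finset.sum_add_distrib]
  refine Finset.sum_congr rfl fun e _ => ?_
  unfold PD
  rw [add_dotProduct]
  by_cases he : e = 0
  · rw [he, dotProduct_zero, dotProduct_zero, if_neg (by decide), if_neg (by decide)]
    decide
  · rw [if_neg he]
    rcases zmod2_cases (b ⬝ᵥ e) with h | h <;> rcases zmod2_cases (vs n ⬝ᵥ e) with h' | h' <;>
      rw [h, h'] <;> decide

theorem add_vs_ne {b : Fin (n + 1) → ZMod 2} (hb : b ≠ vs n) : b + vs n ≠ 0 := by
  intro h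
  apply hb
  have h1 : b = -vs n := eq_neg_of_add_eq_zero_left h
  rw [h1]
  funext i
  rw [Pi.neg_apply]
  generalize vs n i = x
  revert x
  decide

theorem gcert_D (n : ℕ) : GCert (gD n) (PD n) := by
  have hval : ∀ b : Fin (n + 1) → ZMod 2, b ≠ 0 → b ≠ vs n →
      (∑ e, if b ⬝ᵥ e = 1 then PD n e else 0) = 2 ^ n := by
    intro b h0 h1
    have h2 := PD_odd b
    rw [nc_ne h0, nc_ne vs_ne, nc_ne (add_vs_ne h1)] at h2
    omega
  have hvs : (∑ e, if vs n ⬝ᵥ e = 1 then PD n e else 0) = 2 * 2 ^ n := by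
    have h2 := PD_odd (vs n)
    have h3 : vs n + vs n = 0 := by
      funext i
      rw [Pi.add_apply, Pi.zero_apply]
      generalize vs n i = x
      revert x
      decide
    rw [nc_ne vs_ne, h3, nc_zero] at h2
    omega
  have hp : 0 < 2 ^ n := by positivity
  -- roots are not the spinor class
  have hne : ∀ w : Fin (n + 1) → ℤ, w ⬝ᵥ gD n *ᵥ w = 2 → rd2 w ≠ 0 ∧ rd2 w ≠ vs n := by
    intro w hw
    have key : ¬ ∀ i : Fin n, (2 : ℤ) ∣ w i.succ := by
      intro hc
      rw [gD_val] at hw
      have h2 : (4 : ℤ) ∣ ∑ i : Fin n, w i.succ ^ 2 := Finset.dvd_sum fun i _ => by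
        obtain ⟨c, hc⟩ := hc i
        exact ⟨c ^ 2, by rw [hc]; ring⟩
      have h3 : (4 : ℤ) ∣ (2 * w 0 - ∑ i : Fin n, w i.succ) ^ 2 := by
        obtain ⟨c, hc⟩ := Finset.dvd_sum fun i (_ : i ∈ (Finset.univ : Finset (Fin n))) => hc i
        exact ⟨(w 0 - c) ^ 2, by rw [hc]; ring⟩
      have h4 := dvd_add h3 h2
      rw [hw] at h4
      norm_num at h4
    refine ⟨fun h0 => key fun i => even_of_rd2 (congrFun h0 i.succ), fun h0 => key fun i => ?_⟩
    refine even_of_rd2 (i := i.succ) ?_
    rw [h0]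
    unfold vs
    rw [Pi.single_eq_of_ne (Fin.succ_ne_zero i)]
  refine ⟨⟨?_, ?_, ?_, ?_⟩, ?_, ?_⟩
  · rw [PD_tot]
    positivity
  · intro b hb
    rw [PD_tot]
    by_cases h : b = vs n
    · rw [h, hvs]
      omega
    · rw [hval b hb h]
  · intro w hw
    obtain ⟨h1, h2⟩ := hne w hw
    rw [PD_tot, hval _ h1 h2]
  · intro e he
    by_cases h0 : e = 0
    · refine ⟨0, ?_, fun w _ => by rw [dotProduct_zero]; norm_num⟩
      rw [h0]
      funext i
      show ((0 : ℤ) : ZMod 2) = 0
      norm_num
    · have h1 : e 0 = 1 := by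
        by_contra hc
        apply he
        unfold PD
        rw [if_neg h0, vs_dot, if_neg hc]
      refine ⟨Fin.cons 1 fun i => -(if e i.succ = 1 then 1 else 0), ?_, ?_⟩
      · funext i
        refine Fin.cases ?_ (fun i => ?_) i
        · show ((1 : ℤ) : ZMod 2) = e 0
          rw [h1]
          norm_num
        · show ((-(if e i.succ = 1 then 1 else 0) : ℤ) : ZMod 2) = e i.succ
          rcases zmod2_cases (e i.succ) with h | h <;> rw [h] <;> decide
      · intro w hw
        rw [gD_val] at hw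
        set T : ℤ := ∑ i : Fin n, w i.succ with hT
        have h2 := part_bound (w := fun i : Fin n => w i.succ)
          (c := fun i => if e i.succ = 1 then 1 else 0) (fun i => by
            split_ifs <;> simp)
        set x : ℤ := ∑ i : Fin n, w i.succ * (if e i.succ = 1 then 1 else 0) with hx
        have h3 : ∑ i : Fin n, w i.succ * (1 - (if e i.succ = 1 then 1 else 0)) = T - x := by
          rw [hT, hx, ← Finset.sum_sub_distrib]
          exact Finset.sum_congr rfl fun i _ => by ring
        rw [h3] at h2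
        have h4 : w ⬝ᵥ (Fin.cons 1 fun i => -(if e i.succ = 1 then 1 else 0) : Fin (n + 1) → ℤ) =
            w 0 - x := by
          unfold dotProduct
          rw [Fin.sum_univ_succ]
          simp only [Fin.cons_zero, Fin.cons_succ, mul_one]
          rw [hx, sub_eq_add_neg, ← Finset.sum_neg_distrib]
          congr 1
          exact Finset.sum_congr rfl fun i _ => by ring
        rw [h4]
        have h5 : |2 * w 0 - T| ≤ (2 * w 0 - T) ^ 2 := by
          generalize 2 * w 0 - T = z
          rw [← sq_abs z]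
          rcases eq_or_lt_of_le (abs_nonneg z) with h | h
          · rw [← h]; norm_num
          · nlinarith
        have h6 : |2 * w 0 - T| + |x| + |T - x| ≤ 2 := by linarith
        have h7 : 2 * (w 0 - x) = (2 * w 0 - T) + (T - x) - x := by ring
        have h8 : |2 * (w 0 - x)| ≤ 2 := by
          rw [h7]
          calc |(2 * w 0 - T) + (T - x) - x| ≤ |(2 * w 0 - T) + (T - x)| + |x| := abs_sub _ _
            _ ≤ |2 * w 0 - T| + |T - x| + |x| := by
              have := abs_add_le (2 * w 0 - T) (T - x)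
              linarith
            _ ≤ 2 := by linarith
        rw [abs_mul] at h8
        norm_num at h8
        linarith
  · intro w hw
    rw [gD_val]
    have h1 := two_dvd_sum (fun i : Fin n => w i.succ)
    have h3 : (2 : ℤ) ∣ (2 * w 0 - ∑ i : Fin n, w i.succ) ^ 2 + ∑ i : Fin n, w i.succ ^ 2 := by
      have e1 : (2 * w 0 - ∑ i : Fin n, w i.succ) ^ 2 + ∑ i : Fin n, w i.succ ^ 2 =
          (∑ i : Fin n, w i.succ ^ 2 + (∑ i : Fin n, w i.succ) ^ 2) +
            2 * (2 * w 0 ^ 2 - 2 * w 0 * ∑ i : Fin n, w i.succ) := by ring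
      rw [e1]
      exact dvd_add h1 (dvd_mul_right _ _)
    refine Int.le_of_dvd ?_ h3
    by_cases h0 : (fun i : Fin n => w i.succ) = 0
    · have h4 : w 0 ≠ 0 := by
        intro h4
        apply hw
        funext i
        refine Fin.cases h4 (fun i => congrFun h0 i) i
      have h5 : ∀ i : Fin n, w i.succ = 0 := fun i => congrFun h0 i
      simp only [h5]
      simp
      positivity
    · have h4 := sum_sq_pos h0
      positivity
  · intro b hb
    rw [PD_tot]
    by_cases h : b = vs n
    · rw [h, hvs]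
      omega
    · rw [hval b hb h]
      omega

end Run7.h92
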