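import Pool.Agent.Run7.h92.RootC
import Pool.Agent.Run7.h92.RootD

/-!
# Certificates for the Cartan matrices of type D
-/

namespace Run7.h92

open Matrix

variable {r n : ℕ}

/-- coordinates of the root lattice of type D, rank `n + 2` -/
def dd : (n : ℕ) → ℤ → (Fin (n + 2) → ℤ) → (Fin (n + 2) → ℤ)
  | 0, c, w => ![w 0 + w 1 - c, w 1 - w 0]
  | n + 1, c, w => Fin.cons (w 0 - c) (dd n (w 0) fun i => w i.succ)

/-- pairing with the first node -/
def fd : (n : ℕ) → (Fin (n + 2) → ℤ) → ℤ
  | 0, w => w 0 + w 1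
  | _ + 1, w => w 0

theorem dd_add : ∀ (n : ℕ) (c c' : ℤ) (w w' : Fin (n + 2) → ℤ),
    dd n (c + c') (w + w') = dd n c w + dd n c' w' := by
  intro n
  induction n with
  | zero =>
    intro c c' w w'
    funext i
    fin_cases i
    · show (w 0 + w' 0) + (w 1 + w' 1) - (c + c') = (w 0 + w 1 - c) + (w' 0 + w' 1 - c')
      ring
    · show (w 1 + w' 1) - (w 0 + w' 0) = (w 1 - w 0) + (w' 1 - w' 0)
      ring
  | succ n ih =>
    intro c c' w w'
    funext i
    refine Fin.cases ?_ (fun i => ?_) i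
    · show (w 0 + w' 0) - (c + c') = (w 0 - c) + (w' 0 - c')
      ring
    · exact congrFun (ih (w 0) (w' 0) (fun i => w i.succ) (fun i => w' i.succ)) i

theorem dd_smul : ∀ (n : ℕ) (t c : ℤ) (w : Fin (n + 2) → ℤ),
    dd n (t * c) (t • w) = t • dd n c w := by
  intro n
  induction n with
  | zero =>
    intro t c w
    funext i
    fin_cases i
    · show (t * w 0) + (t * w 1) - (t * c) = t * (w 0 + w 1 - c)
      ring
    · show (t * w 1) - (t * w 0) = t * (w 1 - w 0)
      ring
  | succ n ih =>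
    intro t c w
    funext i
    refine Fin.cases ?_ (fun i => ?_) i
    · show (t * w 0) - (t * c) = t * (w 0 - c)
      ring
    · exact congrFun (ih t (w 0) (fun i => w i.succ)) i

theorem dd_sum : ∀ (n : ℕ) (c : ℤ) (w : Fin (n + 2) → ℤ),
    ∑ i, dd n c w i = 2 * w (Fin.last (n + 1)) - c := by
  intro n
  induction n with
  | zero =>
    intro c w
    rw [Fin.sum_univ_two]
    show (w 0 + w 1 - c) + (w 1 - w 0) = 2 * w 1 - c
    ring
  | succ n ih =>
    intro c w
    rw [Fin.sum_univ_succ]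
    have h1 : ∑ i : Fin (n + 2), dd (n + 1) c w i.succ =
        2 * w (Fin.last (n + 1)).succ - w 0 := ih (w 0) fun i => w i.succ
    rw [h1]
    show (w 0 - c) + (2 * w (Fin.last (n + 1 + 1)) - w 0) = _
    ring

theorem dd_surj : ∀ (n : ℕ) (c t : ℤ) (x : Fin (n + 2) → ℤ), ∑ i, x i = 2 * t - c →
    ∃ w, dd n c w = x ∧ w (Fin.last (n + 1)) = t := by
  intro n
  induction n with
  | zero =>
    intro c t x hx
    rw [Fin.sum_univ_two] at hx
    refine ⟨![t - x 1, t], ?_, rfl⟩
    funext i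
    fin_cases i
    · show (t - x 1) + t - c = x 0
      linarith
    · show t - (t - x 1) = x 1
      ring
  | succ n ih =>
    intro c t x hx
    rw [Fin.sum_univ_succ] at hx
    obtain ⟨w, hw, hw'⟩ := ih (x 0 + c) t (fun i => x i.succ) (by linarith)
    refine ⟨Fin.cons (x 0 + c) w, ?_, hw'⟩
    funext i
    refine Fin.cases ?_ (fun i => ?_) i
    · show (x 0 + c) - c = x 0
      ring
    · exact congrFun hw i

theorem cartanD_rec (n : ℕ) (w : Fin (n + 3) → ℤ) :
    w ⬝ᵥ CartanMatrix.D (n + 3) *ᵥ w = 2 * w 0 ^ 2 - 2 * w 0 * fd n (fun i => w i.succ) +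
      (fun i : Fin (n + 2) => w i.succ) ⬝ᵥ CartanMatrix.D (n + 2) *ᵥ
        (fun i : Fin (n + 2) => w i.succ) := by
  rw [front_val (G' := CartanMatrix.D (n + 2))
    (c := fun j => if j.val = 0 ∨ (n = 0 ∧ j.val = 1) then 1 else 0)]
  · congr 2
    congr 1
    cases n with
    | zero =>
      rw [Fin.sum_univ_two]
      simp [fd]
    | succ n =>
      rw [Fin.sum_univ_succ]
      simp [fd]
  · simp [CartanMatrix.D]
  · intro i j
    simp only [CartanMatrix.D, Matrix.of_apply, Fin.succ_inj, Fin.val_succ]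
    have hi := i.isLt
    have hj := j.isLt
    split_ifs <;> first | rfl | (exfalso; omega)
  · intro j
    have hj := j.isLt
    have hv : (j.succ : Fin (n + 3)).val = j.val + 1 := Fin.val_succ j
    have h0 : (0 : Fin (n + 3)).val = 0 := rfl
    simp only [CartanMatrix.D, Matrix.of_apply]
    rw [if_neg (Ne.symm (Fin.succ_ne_zero j))]
    split_ifs <;> first | (exfalso; omega) | norm_num
  · intro j
    have hj := j.isLt
    have hv : (j.succ : Fin (n + 3)).val = j.val + 1 := Fin.val_succ j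
    have h0 : (0 : Fin (n + 3)).val = 0 := rfl
    simp only [CartanMatrix.D, Matrix.of_apply]
    rw [if_neg (Fin.succ_ne_zero j)]
    split_ifs <;> first | (exfalso; omega) | norm_num

theorem cartanD_val : ∀ (n : ℕ) (c : ℤ) (w : Fin (n + 2) → ℤ),
    w ⬝ᵥ CartanMatrix.D (n + 2) *ᵥ w + c ^ 2 - 2 * c * fd n w = ∑ i, dd n c w i ^ 2 := by
  intro n
  induction n with
  | zero =>
    intro c w
    rw [CartanMatrix.D_two]
    have e1 : w ⬝ᵥ (!![2, 0; 0, 2] : Matrix (Fin 2) (Fin 2) ℤ) *ᵥ w = 2 * w 0 ^ 2 + 2 * w 1 ^ 2 := by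
      simp [Matrix.mulVec, dotProduct, Fin.sum_univ_two]
      ring
    rw [e1, Fin.sum_univ_two]
    show _ = (w 0 + w 1 - c) ^ 2 + (w 1 - w 0) ^ 2
    show 2 * w 0 ^ 2 + 2 * w 1 ^ 2 + c ^ 2 - 2 * c * (w 0 + w 1) = _
    ring
  | succ n ih =>
    intro c w
    rw [cartanD_rec, Fin.sum_univ_succ]
    have h1 := ih (w 0) fun i => w i.succ
    have h2 : ∑ i : Fin (n + 2), dd (n + 1) c w i.succ ^ 2 =
        ∑ i : Fin (n + 2), dd n (w 0) (fun i => w i.succ) i ^ 2 := rfl
    have h3 : dd (n + 1) c w 0 = w 0 - c := rfl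
    have h5 : fd (n + 1) w = w 0 := rfl
    rw [h2, h3, h5]
    linear_combination h1

/-- the root lattices of type D -/
theorem gcert_cartanD (n : ℕ) : ∃ P, GCert (CartanMatrix.D (n + 2)) P := by
  let f : (Fin (n + 2) → ℤ) →ₗ[ℤ] (Fin (n + 2) → ℤ) :=
    { toFun := fun w => Fin.cons (w (Fin.last (n + 1))) fun i : Fin (n + 1) => dd n 0 w i.succ
      map_add' := fun w w' => by
        have := dd_add n 0 0 w w'
        rw [add_zero] at this
        funext i
        refine Fin.cases rfl (fun i => ?_) i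
        show dd n 0 (w + w') i.succ = dd n 0 w i.succ + dd n 0 w' i.succ
        rw [this]
        rfl
      map_smul' := fun t w => by
        have := dd_smul n t 0 w
        rw [mul_zero] at this
        funext i
        refine Fin.cases rfl (fun i => ?_) i
        show dd n 0 (t • w) i.succ = t * dd n 0 w i.succ
        rw [this]
        rfl }
  refine (gcert_D (n + 1)).comap f (fun y => ?_) fun w => ?_
  · obtain ⟨w, hw, hw'⟩ := dd_surj n 0 (y 0)
      (Fin.cons (2 * y 0 - ∑ i : Fin (n + 1), y i.succ) fun i : Fin (n + 1) => y i.succ) (by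
        rw [Fin.sum_univ_succ]
        simp only [Fin.cons_zero, Fin.cons_succ]
        ring)
    refine ⟨w, ?_⟩
    funext i
    refine Fin.cases hw' (fun i => ?_) i
    show dd n 0 w i.succ = y i.succ
    rw [hw]
    rfl
  · rw [gD_val]
    show _ = (2 * w (Fin.last (n + 1)) - ∑ i : Fin (n + 1), dd n 0 w i.succ) ^ 2 +
      ∑ i : Fin (n + 1), dd n 0 w i.succ ^ 2
    have h1 := dd_sum n 0 w
    rw [Fin.sum_univ_succ, sub_zero] at h1
    have h2 := cartanD_val n 0 w
    rw [Fin.sum_univ_succ] at h2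
    rw [← h1]
    linear_combination h2

end Run7.h92
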