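import Pool.Agent.Run7.h92.Lead

/-!
# Rounding for unimodular systems
-/

namespace Run7.h92

open Matrix

variable {k r : ℕ}

/-- extraction of a frame from a spanning family -/
theorem exists_frame {ι : Type*} {r : ℕ} (v : ι → Fin r → ℝ)
    (h : ∀ d : Fin r → ℝ, (∀ l, ∑ i, v l i * d i = 0) → d = 0) :
    ∃ f : Fin r → ι, (Matrix.of fun i j => v (f i) j).det ≠ 0 := by
  classical
  have hspan : Submodule.span ℝ (Set.range v) = ⊤ := by
    by_contra hne
    obtain ⟨φ, hφ, hker⟩ := Submodule.exists_le_ker_of_lt_top _ (lt_top_iff_ne_top.2 hne)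
    apply hφ
    have hφw : ∀ w : Fin r → ℝ, φ w = ∑ i, w i * φ (Pi.single i 1) := by
      intro w
      conv_lhs => rw [pi_eq_sum_univ' w]
      rw [map_sum]
      refine Finset.sum_congr rfl fun i _ => ?_
      rw [map_smul, smul_eq_mul]
    have hd : (fun i => φ (Pi.single i 1)) = 0 := by
      apply h
      intro l
      have h1 : v l ∈ LinearMap.ker φ := hker (Submodule.subset_span ⟨l, rfl⟩)
      rw [← hφw]
      exact h1
    refine LinearMap.ext fun w => ?_
    rw [hφw]
    simp only [LinearMap.zero_apply]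
    refine Finset.sum_eq_zero fun i _ => ?_
    rw [show φ (Pi.single i 1) = 0 from congrFun hd i, mul_zero]
  obtain ⟨κ, a, _, hsp, hli⟩ := exists_linearIndependent' ℝ v
  have hb : ⊤ ≤ Submodule.span ℝ (Set.range (v ∘ a)) := by rw [hsp, hspan]
  set B := Module.Basis.mk hli hb with hB
  have : Finite κ := Module.Finite.finite_basis B
  have : Fintype κ := Fintype.ofFinite κ
  have hcard : Fintype.card κ = r := by
    have := Module.finrank_eq_card_basis B
    rw [← this]
    simp
  set e : Fin r ≃ κ := (Fintype.equivFinOfCardEq hcard).symm with he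
  refine ⟨fun i => a (e i), ?_⟩
  have h2 : LinearIndependent ℝ (Matrix.of fun i j => v (a (e i)) j).row :=
    hli.comp e e.injective
  rw [linearIndependent_rows_iff_isUnit, isUnit_iff_isUnit_det] at h2
  exact h2.ne_zero

/-- integral matrix of a tuple of vectors -/
def fm (V : Fin k → Fin r → ℤ) (f : Fin r → Fin k) : Matrix (Fin r) (Fin r) ℤ :=
  Matrix.of fun i j => V (f i) j

/-- all maximal minors are zero or units -/
def Unim (V : Fin k → Fin r → ℤ) : Prop :=
  ∀ f : Fin r → Fin k, (fm V f).det ≠ 0 → IsUnit (fm V f).det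

theorem pv_add' (v : Fin r → ℤ) (x y : Fin r → ℝ) : pv v (x + y) = pv v x + pv v y := by
  unfold pv
  rw [← Finset.sum_add_distrib]
  exact Finset.sum_congr rfl fun i _ => by simp [mul_add]

theorem pv_smul' (v : Fin r → ℤ) (c : ℝ) (y : Fin r → ℝ) : pv v (c • y) = c * pv v y := by
  unfold pv
  rw [Finset.mul_sum]
  exact Finset.sum_congr rfl fun i _ => by simp; ring

/-- a point with enough integral values is integral -/
theorem int_of_span {V : Fin k → Fin r → ℤ} (hV : Unim V) (x : Fin r → ℝ)
    (h : ∀ d : Fin r → ℝ, (∀ l, (∃ n : ℤ, pv (V l) x = n) → pv (V l) d = 0) → d = 0) :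
    ∃ z : Fin r → ℤ, x = fun i => (z i : ℝ) := by
  classical
  obtain ⟨f, hf⟩ := exists_frame (ι := {l // ∃ n : ℤ, pv (V l) x = n})
    (fun l i => (V l.1 i : ℝ)) (fun d hd => h d fun l hl => hd ⟨l, hl⟩)
  set F := fm V (fun i => (f i).1) with hF
  have hmap : (Matrix.of fun i j => ((V (f i).1 j : ℤ) : ℝ)) = F.map (Int.castRingHom ℝ) := by
    ext i j
    rfl
  have hdet : (Matrix.of fun i j => ((V (f i).1 j : ℤ) : ℝ)).det = ((F.det : ℤ) : ℝ) := by
    rw [hmap]
    exact (RingHom.map_det (Int.castRingHom ℝ) F).symm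
  have hne : F.det ≠ 0 := by
    intro h0
    apply hf
    rw [hdet, h0]
    simp
  obtain hu := Int.isUnit_iff.1 (hV _ hne)
  choose n hn using fun i => (f i).2
  refine ⟨fun i => F.det * (F.adjugate *ᵥ n) i, ?_⟩
  have h1 : F.map (Int.castRingHom ℝ) *ᵥ x = fun i => (n i : ℝ) := by
    funext i
    exact hn i
  have h2 : (F.map (Int.castRingHom ℝ)).adjugate *ᵥ (F.map (Int.castRingHom ℝ) *ᵥ x) =
      ((F.det : ℤ) : ℝ) • x := by
    rw [mulVec_mulVec, adjugate_mul, smul_mulVec, one_mulVec, ← hmap, hdet]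
  have h3 : (F.map (Int.castRingHom ℝ)).adjugate *ᵥ (fun i => (n i : ℝ)) =
      fun i => (((F.adjugate *ᵥ n) i : ℤ) : ℝ) := by
    have h4 : (F.map (Int.castRingHom ℝ)).adjugate = F.adjugate.map (Int.castRingHom ℝ) :=
      (RingHom.map_adjugate (Int.castRingHom ℝ) F).symm
    rw [h4]
    funext i
    simp [mulVec, dotProduct]
  rw [h1, h3] at h2
  have hsq : ((F.det : ℤ) : ℝ) * ((F.det : ℤ) : ℝ) = 1 := by
    rcases hu with h | h <;> rw [h] <;> norm_num
  funext i
  have h5 := congrFun h2 i
  simp only [Pi.smul_apply, smul_eq_mul] at h5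
  rw [Int.cast_mul, h5, ← mul_assoc, hsq, one_mul]

open Classical in
/-- rounding -/
theorem rounding {V : Fin k → Fin r → ℤ} (hV : Unim V)
    (hsp : ∀ d : Fin r → ℝ, (∀ l, ∑ i, (V l i : ℝ) * d i = 0) → d = 0) :
    ∀ (n : ℕ) (x : Fin r → ℝ), (Finset.univ.filter fun l => ¬ ∃ m : ℤ, pv (V l) x = m).card = n →
      ∃ z : Fin r → ℤ, ∀ l, (⌊pv (V l) x⌋ : ℝ) ≤ pv (V l) (fun i => (z i : ℝ)) ∧
        pv (V l) (fun i => (z i : ℝ)) ≤ (⌈pv (V l) x⌉ : ℝ) := by
  classical
  intro n
  induction n using Nat.strong_induction_on with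
  | _ n ih =>
    intro x hx
    by_cases hd : ∀ d : Fin r → ℝ, (∀ l, (∃ n : ℤ, pv (V l) x = n) → pv (V l) d = 0) → d = 0
    · obtain ⟨z, hz⟩ := int_of_span hV x hd
      refine ⟨z, fun l => ?_⟩
      rw [← hz]
      exact ⟨Int.floor_le _, Int.le_ceil _⟩
    · push Not at hd
      obtain ⟨d, hd1, hd2⟩ := hd
      -- the moving rows
      set S : Finset (Fin k) := Finset.univ.filter fun l => pv (V l) d ≠ 0 with hS
      have hSne : S.Nonempty := by
        by_contra hc
        rw [Finset.not_nonempty_iff_eq_empty] at hc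
        apply hd2
        apply hsp
        intro l
        by_contra hl
        have : l ∈ S := Finset.mem_filter.2 ⟨Finset.mem_univ _, hl⟩
        rw [hc] at this
        exact absurd this (Finset.notMem_empty _)
      set tt : Fin k → ℝ := fun l => if 0 < pv (V l) d then
        (⌈pv (V l) x⌉ - pv (V l) x) / pv (V l) d else
          (pv (V l) x - ⌊pv (V l) x⌋) / (-pv (V l) d) with htt
      obtain ⟨l0, hl0, hmin⟩ := Finset.exists_min_image S tt hSne
      have hnon : ∀ l ∈ S, ¬ ∃ m : ℤ, pv (V l) x = m := by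
        intro l hl hm
        exact (Finset.mem_filter.1 hl).2 (hd1 l hm)
      have htpos : ∀ l ∈ S, 0 < tt l := by
        intro l hl
        have h1 := hnon l hl
        have h2 := (Finset.mem_filter.1 hl).2
        rw [htt]
        simp only
        split_ifs with h3
        · apply div_pos _ h3
          rw [sub_pos]
          exact lt_of_le_of_ne (Int.le_ceil _) fun h => h1 ⟨_, h⟩
        · apply div_pos
          · rw [sub_pos]
            exact lt_of_le_of_ne (Int.floor_le _) fun h => h1 ⟨_, h.symm⟩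
          · have : pv (V l) d < 0 := lt_of_le_of_ne (not_lt.1 h3) h2
            linarith
      set t := tt l0 with ht
      have ht0 : 0 < t := htpos l0 hl0
      set y : Fin r → ℝ := x + t • d with hy
      have hpv : ∀ l, pv (V l) y = pv (V l) x + t * pv (V l) d := by
        intro l
        rw [hy, pv_add', pv_smul']
      have hbd : ∀ l, (⌊pv (V l) x⌋ : ℝ) ≤ pv (V l) y ∧ pv (V l) y ≤ (⌈pv (V l) x⌉ : ℝ) := by
        intro l
        rw [hpv]
        by_cases hl : l ∈ S
        · have h1 := hmin l hl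
          have h2 := (Finset.mem_filter.1 hl).2
          rw [htt] at h1
          simp only at h1
          have h4 := Int.floor_le (pv (V l) x)
          have h5 := Int.le_ceil (pv (V l) x)
          split_ifs at h1 with h3
          · rw [le_div_iff₀ h3] at h1
            have := mul_pos ht0 h3
            constructor <;> linarith
          · have h3' : pv (V l) d < 0 := lt_of_le_of_ne (not_lt.1 h3) h2
            rw [le_div_iff₀ (by linarith)] at h1
            have := mul_neg_of_pos_of_neg ht0 h3'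
            constructor <;> linarith
        · have h2 : pv (V l) d = 0 := by
            by_contra hc
            exact hl (Finset.mem_filter.2 ⟨Finset.mem_univ _, hc⟩)
          rw [h2, mul_zero, add_zero]
          exact ⟨Int.floor_le _, Int.le_ceil _⟩
      have hkeep : ∀ l, (∃ m : ℤ, pv (V l) x = m) → ∃ m : ℤ, pv (V l) y = m := by
        intro l hl
        rw [hpv, hd1 l hl, mul_zero, add_zero]
        exact hl
      have hnew : ∃ m : ℤ, pv (V l0) y = m := by
        have h2 := (Finset.mem_filter.1 hl0).2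
        rw [hpv, ht, htt]
        simp only
        split_ifs with h3
        · refine ⟨⌈pv (V l0) x⌉, ?_⟩
          rw [div_mul_cancel₀ _ h2]
          ring
        · refine ⟨⌊pv (V l0) x⌋, ?_⟩
          rw [div_neg, neg_mul, div_mul_cancel₀ _ h2]
          ring
      have hlt : (Finset.univ.filter fun l => ¬ ∃ m : ℤ, pv (V l) y = m).card < n := by
        rw [← hx]
        apply Finset.card_lt_card
        rw [Finset.ssubset_iff_of_subset]
        · refine ⟨l0, ?_, ?_⟩
          · exact Finset.mem_filter.2 ⟨Finset.mem_univ _, hnon l0 hl0⟩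
          · intro h
            exact (Finset.mem_filter.1 h).2 hnew
        · intro l hl
          refine Finset.mem_filter.2 ⟨Finset.mem_univ _, fun h => (Finset.mem_filter.1 hl).2 (hkeep l h)⟩
      obtain ⟨z, hz⟩ := ih _ hlt y rfl
      refine ⟨z, fun l => ?_⟩
      obtain ⟨h1, h2⟩ := hz l
      obtain ⟨h3, h4⟩ := hbd l
      have h5 : ⌊pv (V l) x⌋ ≤ ⌊pv (V l) y⌋ := Int.le_floor.2 h3
      have h6 : ⌈pv (V l) y⌉ ≤ ⌈pv (V l) x⌉ := Int.ceil_le.2 h4
      have h5' : (⌊pv (V l) x⌋ : ℝ) ≤ ⌊pv (V l) y⌋ := by exact_mod_cast h5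
      have h6' : (⌈pv (V l) y⌉ : ℝ) ≤ ⌈pv (V l) x⌉ := by exact_mod_cast h6
      exact ⟨h5'.trans h1, h2.trans h6'⟩

end Run7.h92
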