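import Pool.Agent.Run7.h92.CertC
import Pool.Agent.Run7.h92.Round

/-!
# Unimodular systems have certificates
-/

namespace Run7.h92

open Matrix

variable {k r : ℕ}

theorem half_sum {b : Fin r → ZMod 2} (hb : b ≠ 0) :
    2 * ∑ e : Fin r → ZMod 2, (if b ⬝ᵥ e = 1 then 1 else 0) = 2 ^ r := by
  obtain ⟨i, hi⟩ : ∃ i, b i ≠ 0 := by
    by_contra hc
    push Not at hc
    exact hb (funext hc)
  have hi1 : b i = 1 := (z2_cases (b i)).resolve_left hi
  have h1 : ∑ e : Fin r → ZMod 2, (if b ⬝ᵥ e = 1 then 1 else 0) =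
      ∑ e : Fin r → ZMod 2, (if b ⬝ᵥ e = 0 then 1 else 0) := by
    rw [← Equiv.sum_comp (Equiv.addRight (Pi.single i 1 : Fin r → ZMod 2))
      fun e => if b ⬝ᵥ e = 1 then 1 else 0]
    refine Finset.sum_congr rfl fun e _ => ?_
    have h2 : b ⬝ᵥ (Equiv.addRight (Pi.single i 1 : Fin r → ZMod 2)) e = b ⬝ᵥ e + 1 := by
      rw [Equiv.coe_addRight, dotProduct_add, dotProduct_single, hi1, mul_one]
    rw [h2]
    rcases z2_cases (b ⬝ᵥ e) with h | h <;> rw [h] <;> decide
  have h2 : ∑ e : Fin r → ZMod 2, ((if b ⬝ᵥ e = 1 then 1 else 0) + (if b ⬝ᵥ e = 0 then 1 else 0)) =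
      2 ^ r := by
    have h3 : ∀ e : Fin r → ZMod 2, ((if b ⬝ᵥ e = 1 then 1 else 0) +
        (if b ⬝ᵥ e = 0 then 1 else 0)) = 1 := by
      intro e
      rcases z2_cases (b ⬝ᵥ e) with h | h <;> rw [h] <;> decide
    simp_rw [h3]
    simp
  rw [Finset.sum_add_distrib, ← h1] at h2
  omega

/-- the weights -/
def P0 (r : ℕ) (e : Fin r → ZMod 2) : ℕ := 2 + if e = 0 then 2 ^ r else 0

theorem P0_tot : ∑ e, P0 r e = 3 * 2 ^ r := by
  unfold P0
  rw [Finset.sum_add_distrib, Finset.sum_ite_eq']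
  simp
  ring

theorem P0_odd {b : Fin r → ZMod 2} (hb : b ≠ 0) :
    ∑ e, (if b ⬝ᵥ e = 1 then P0 r e else 0) = 2 ^ r := by
  rw [← half_sum hb, Finset.mul_sum]
  refine Finset.sum_congr rfl fun e _ => ?_
  unfold P0
  by_cases he : e = 0
  · rw [he, dotProduct_zero]
    have : ¬ (0 : ZMod 2) = 1 := by decide
    simp [this]
  · rw [if_neg he]
    split_ifs <;> rfl

theorem good_unim {V : Fin k → Fin r → ℤ} (hV : Unim V)
    (hsp : ∀ d : Fin r → ℝ, (∀ l, ∑ i, (V l i : ℝ) * d i = 0) → d = 0) (e : Fin r → ZMod 2) :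
    ∃ β : Fin r → ℤ, rd2 β = e ∧ ∀ l, |V l ⬝ᵥ β| ≤ 1 := by
  classical
  set e' : Fin r → Bool := bz.symm e with he'
  have hee : bz e' = e := Equiv.apply_symm_apply _ _
  obtain ⟨z, hz⟩ := rounding hV hsp _ (hfv e') rfl
  refine ⟨fun i => (if e' i then 1 else 0) - 2 * z i, ?_, fun l => ?_⟩
  · funext i
    rw [← hee]
    unfold rd2 bz
    have h2 : (2 : ZMod 2) = 0 := by decide
    simp only [Equiv.coe_fn_mk]
    push_cast
    rw [h2, zero_mul, sub_zero]
  · have h1 := hz l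
    set q : ℤ := ∑ i, V l i * (if e' i then 1 else 0) with hq
    set p : ℤ := ∑ i, V l i * z i with hp
    have e1 : pv (V l) (hfv e') = (q : ℝ) / 2 := sum_hfv0 (V l) e'
    have e2 : pv (V l) (fun i => (z i : ℝ)) = p := by
      unfold pv
      rw [hp]
      push_cast
      rfl
    rw [e1, e2] at h1
    have e3 : V l ⬝ᵥ (fun i => (if e' i then 1 else 0) - 2 * z i) = q - 2 * p := by
      rw [hq, hp, Finset.mul_sum, ← Finset.sum_sub_distrib]
      unfold dotProduct
      exact Finset.sum_congr rfl fun i _ => by ring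
    rw [e3]
    obtain ⟨h3, h4⟩ := h1
    have h5 : ⌊(q : ℝ) / 2⌋ ≤ p := by exact_mod_cast h3
    have h6 : p ≤ ⌈(q : ℝ) / 2⌉ := by exact_mod_cast h4
    have h7 : ((p - 1 : ℤ) : ℝ) < (q : ℝ) / 2 := Int.lt_ceil.1 (show p - 1 < ⌈(q : ℝ) / 2⌉ by omega)
    have h8 : (q : ℝ) / 2 < ((p + 1 : ℤ) : ℝ) := Int.floor_lt.1 (show ⌊(q : ℝ) / 2⌋ < p + 1 by omega)
    have h9 : 2 * p - 2 < q := by
      have : ((2 * p - 2 : ℤ) : ℝ) < q := by push_cast at h7 ⊢; linarith
      exact_mod_cast this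
    have h10 : q < 2 * p + 2 := by
      have : (q : ℝ) < ((2 * p + 2 : ℤ) : ℝ) := by push_cast at h8 ⊢; linarith
      exact_mod_cast this
    rw [abs_le]
    omega

theorem unim_rd2 {V : Fin k → Fin r → ℤ} (hV : Unim V)
    (hsp : ∀ d : Fin r → ℝ, (∀ l, ∑ i, (V l i : ℝ) * d i = 0) → d = 0) {l : Fin k}
    (hne : V l ≠ 0) : rd2 (V l) ≠ 0 := by
  intro h0
  obtain ⟨f0, hf0⟩ := exists_frame (fun l i => (V l i : ℝ)) hsp
  have hmap : (Matrix.of fun i j => ((V (f0 i) j : ℤ) : ℝ)) = (fm V f0).map (Int.castRingHom ℝ) := by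
    ext i j
    rfl
  have hdet : (fm V f0).det ≠ 0 := by
    intro h1
    apply hf0
    rw [hmap]
    have h2 := (RingHom.map_det (Int.castRingHom ℝ) (fm V f0)).symm
    rw [h1, map_zero] at h2
    exact h2
  have hcr : ∀ i, (cramer (fm V f0)ᵀ (V l)) i = 0 := by
    intro i
    rw [cramer_transpose_apply]
    have h1 : (fm V f0).updateRow i (V l) = fm V (Function.update f0 i l) := by
      ext a j
      unfold fm
      by_cases h : a = i
      · subst h
        simp
      · rw [updateRow_ne h]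
        simp only [of_apply]
        rw [Function.update_of_ne h]
    by_contra hc
    rw [h1] at hc
    have h2 := hV _ hc
    have h3 : (Int.castRingHom (ZMod 2)) (fm V (Function.update f0 i l)).det = 0 := by
      rw [RingHom.map_det]
      apply det_eq_zero_of_row_eq_zero i
      intro j
      have h4 := congrFun h0 j
      unfold rd2 at h4
      have h5 : (Int.castRingHom (ZMod 2)).mapMatrix (fm V (Function.update f0 i l)) i j =
          ((V l j : ℤ) : ZMod 2) := by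
        unfold fm
        simp
      rw [h5, h4]
      rfl
    have h4 := h2.map (Int.castRingHom (ZMod 2))
    rw [h3] at h4
    exact not_isUnit_zero h4
  have h1 := mulVec_cramer (fm V f0)ᵀ (V l)
  have h2 : cramer (fm V f0)ᵀ (V l) = 0 := funext hcr
  rw [h2, mulVec_zero, det_transpose] at h1
  apply hne
  exact (smul_eq_zero.1 h1.symm).resolve_left hdet

/-- unimodular systems have certificates -/
theorem cert_unim {V : Fin k → Fin r → ℤ} (hV : Unim V)
    (hsp : ∀ d : Fin r → ℝ, (∀ l, ∑ i, (V l i : ℝ) * d i = 0) → d = 0)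
    (hne : ∀ l, V l ≠ 0) : Cert V (P0 r) where
  pos := ⟨0, by unfold P0; simp⟩
  ge := fun b hb => by
    rw [P0_odd hb, P0_tot]
  eq := fun l => by
    rw [P0_odd (unim_rd2 hV hsp (hne l)), P0_tot]
  good := fun e _ => good_unim hV hsp e

end Run7.h92
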