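import Pool.Agent.Run7.h92.KZ
import Pool.Agent.Run7.h92.TUC

/-!
# Minimal vectors of positive forms in rank at most four have certificates
-/

namespace Run7.h92

open Matrix

variable {k r : ℕ}

/-- an integral vector read as a real one -/
def rv (v : Fin r → ℤ) : Fin r → ℝ := fun i => (v i : ℝ)

/-- minimal vectors of a form with minimum one, spanning the space -/
structure MinSys (Q : Matrix (Fin r) (Fin r) ℝ) (A : Fin k → Fin r → ℤ) : Prop where
  sym : Qᵀ = Q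
  ge : ∀ v : Fin r → ℤ, v ≠ 0 → 1 ≤ rv v ⬝ᵥ (Q *ᵥ rv v)
  eq : ∀ l, rv (A l) ⬝ᵥ (Q *ᵥ rv (A l)) = 1
  all : ∀ v : Fin r → ℤ, rv v ⬝ᵥ (Q *ᵥ rv v) = 1 → ∃ l, v = A l ∨ v = - A l
  span : ∀ d : Fin r → ℝ, (∀ l, ∑ i, (A l i : ℝ) * d i = 0) → d = 0

/-- real matrix of a frame -/
def frm (A : Fin k → Fin r → ℤ) (f : Fin r → Fin k) : Matrix (Fin r) (Fin r) ℝ :=
  Matrix.of fun i j => (A (f i) j : ℝ)

/-- lattice in frame coordinates -/
def La (M : Matrix (Fin r) (Fin r) ℝ) : AddSubgroup (Fin r → ℝ) where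
  carrier := {x | ∃ w : Fin r → ℤ, x ᵥ* M = rv w}
  add_mem' := by
    rintro x y ⟨w, hw⟩ ⟨w', hw'⟩
    refine ⟨w + w', ?_⟩
    rw [add_vecMul, hw, hw']
    funext i
    simp [rv]
  zero_mem' := ⟨0, by rw [zero_vecMul]; funext i; simp [rv]⟩
  neg_mem' := by
    rintro x ⟨w, hw⟩
    refine ⟨-w, ?_⟩
    rw [neg_vecMul, hw]
    funext i
    simp [rv]

theorem mem_La {M : Matrix (Fin r) (Fin r) ℝ} {x : Fin r → ℝ} :
    x ∈ La M ↔ ∃ w : Fin r → ℤ, x ᵥ* M = rv w := Iff.rfl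

theorem qv_frame (M Q : Matrix (Fin r) (Fin r) ℝ) (x : Fin r → ℝ) :
    qv' (M * Q * Mᵀ) x = (x ᵥ* M) ⬝ᵥ (Q *ᵥ (x ᵥ* M)) := by
  unfold qv'
  rw [← mulVec_mulVec, ← mulVec_mulVec, mulVec_transpose, dotProduct_mulVec]

theorem rv_inj {v w : Fin r → ℤ} (h : rv v = rv w) : v = w := by
  funext i
  have := congrFun h i
  unfold rv at this
  exact_mod_cast this

theorem MinSys.frL {Q : Matrix (Fin r) (Fin r) ℝ} {A : Fin k → Fin r → ℤ} (h : MinSys Q A)
    {f : Fin r → Fin k} (hf : (frm A f).det ≠ 0) :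
    FrL (frm A f * Q * (frm A f)ᵀ) (La (frm A f)) where
  sym := by
    rw [transpose_mul, transpose_mul, transpose_transpose, h.sym, Matrix.mul_assoc]
  dia := fun i => by
    have h1 := qv_frame (frm A f) Q (Pi.single i 1)
    have h2 : (Pi.single i 1 : Fin r → ℝ) ᵥ* frm A f = rv (A (f i)) := by
      rw [single_one_vecMul]
      rfl
    rw [h2, h.eq] at h1
    unfold qv' at h1
    rw [single_dotProduct, one_mul, mulVec_single_one] at h1
    exact h1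
  mem := fun i => ⟨A (f i), by rw [single_one_vecMul]; rfl⟩
  ge := fun x hx h0 => by
    obtain ⟨w, hw⟩ := hx
    rw [qv_frame, hw]
    apply h.ge
    rintro rfl
    apply h0
    have h1 : x ᵥ* frm A f = 0 := by rw [hw]; funext i; simp [rv]
    by_contra hx0
    exact hf (exists_vecMul_eq_zero_iff.1 ⟨x, hx0, h1⟩)

/-- coordinates in a frame -/
theorem coord_mem {M : Matrix (Fin r) (Fin r) ℝ} (hM : M.det ≠ 0) (w : Fin r → ℤ) :
    rv w ᵥ* M⁻¹ ∈ La M ∧ (rv w ᵥ* M⁻¹) ᵥ* M = rv w := by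
  have h1 : (rv w ᵥ* M⁻¹) ᵥ* M = rv w := by
    rw [vecMul_vecMul, nonsing_inv_mul _ (isUnit_iff_ne_zero.2 hM), vecMul_one]
  exact ⟨⟨w, h1⟩, h1⟩

/-- an integral frame is a basis -/
theorem basis_of_int {F : Matrix (Fin r) (Fin r) ℤ}
    (h : ∀ w : Fin r → ℤ, ∃ n : Fin r → ℤ, n ᵥ* F = w) :
    ∃ X : Matrix (Fin r) (Fin r) ℤ, X * F = 1 ∧ F * X = 1 := by
  choose n hn using h
  set X : Matrix (Fin r) (Fin r) ℤ := Matrix.of fun i => n (Pi.single i 1) with hX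
  have h1 : X * F = 1 := by
    ext i j
    have := congrFun (hn (Pi.single i 1)) j
    rw [Matrix.mul_apply, Matrix.one_apply]
    have e : ∑ l, X i l * F l j = (n (Pi.single i 1) ᵥ* F) j := rfl
    rw [e, this, Pi.single_apply]
    simp [eq_comm]
  exact ⟨X, h1, mul_eq_one_comm.1 h1⟩

theorem rv_vecMul (n : Fin r → ℤ) (F : Matrix (Fin r) (Fin r) ℤ) :
    rv n ᵥ* (F.map fun x : ℤ => (x : ℝ)) = rv (n ᵥ* F) := by
  funext j
  simp [rv, vecMul, dotProduct]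

theorem frm_map (A : Fin k → Fin r → ℤ) (f : Fin r → Fin k) :
    frm A f = (fm A f).map fun x : ℤ => (x : ℝ) := by
  ext i j
  rfl

theorem frm_det (A : Fin k → Fin r → ℤ) (f : Fin r → Fin k) :
    (frm A f).det = (((fm A f).det : ℤ) : ℝ) := by
  have : frm A f = (fm A f).map (Int.castRingHom ℝ) := by
    ext i j
    rfl
  rw [this]
  exact (RingHom.map_det (Int.castRingHom ℝ) (fm A f)).symm

theorem frm_ne {A : Fin k → Fin r → ℤ} {f : Fin r → Fin k} (h : (fm A f).det ≠ 0) :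
    (frm A f).det ≠ 0 := by
  rw [frm_det]
  exact_mod_cast h

theorem MinSys.ne {Q : Matrix (Fin r) (Fin r) ℝ} {A : Fin k → Fin r → ℤ} (h : MinSys Q A)
    (l : Fin k) : A l ≠ 0 := by
  intro h0
  have h1 := h.eq l
  have h3 : rv (0 : Fin r → ℤ) = 0 := by funext i; simp [rv]
  rw [h0, h3, zero_dotProduct] at h1
  norm_num at h1

theorem MinSys.int_case {Q : Matrix (Fin r) (Fin r) ℝ} {A : Fin k → Fin r → ℤ} (h : MinSys Q A)
    (hI : ∀ f : Fin r → Fin k, (frm A f).det ≠ 0 → ∀ x ∈ La (frm A f), ∀ i, ∃ n : ℤ, x i = n) :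
    ∃ P, Cert A P := by
  have hU : Unim A := by
    intro f hf
    obtain ⟨X, hX1, hX2⟩ : ∃ X : Matrix (Fin r) (Fin r) ℤ, X * fm A f = 1 ∧ fm A f * X = 1 := by
      apply basis_of_int
      intro w
      obtain ⟨h1, h2⟩ := coord_mem (frm_ne hf) w
      choose n hn using hI f (frm_ne hf) _ h1
      refine ⟨n, ?_⟩
      have h3 : rv w ᵥ* (frm A f)⁻¹ = rv n := funext hn
      rw [h3, frm_map, rv_vecMul] at h2
      exact rv_inj h2
    exact IsUnit.of_mul_eq_one _ (by rw [← det_mul, hX2, det_one])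
  exact ⟨P0 r, cert_unim hU h.span h.ne⟩

end Run7.h92
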