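import Pool.Agent.Run7.h92.D4
import Pool.Agent.Run7.h92.MinS

/-!
# Minimal vectors in rank at most four: the exceptional case
-/

namespace Run7.h92

open Matrix

variable {k r : ℕ}

theorem list_int (a b c d : ℤ) (h : a ^ 2 + b ^ 2 + c ^ 2 + d ^ 2 = 1) :
    (![a - d, b - d, c - d, 2 * d] : Fin 4 → ℤ) ∈ L12 ∨ -(![a - d, b - d, c - d, 2 * d] : Fin 4 → ℤ) ∈ L12 := by
  have ha : -1 ≤ a ∧ a ≤ 1 := by constructor <;> nlinarith [sq_nonneg b, sq_nonneg c, sq_nonneg d]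
  have hb : -1 ≤ b ∧ b ≤ 1 := by constructor <;> nlinarith [sq_nonneg a, sq_nonneg c, sq_nonneg d]
  have hc : -1 ≤ c ∧ c ≤ 1 := by constructor <;> nlinarith [sq_nonneg b, sq_nonneg a, sq_nonneg d]
  have hd : -1 ≤ d ∧ d ≤ 1 := by constructor <;> nlinarith [sq_nonneg b, sq_nonneg c, sq_nonneg a]
  obtain ⟨ha1, ha2⟩ := ha
  obtain ⟨hb1, hb2⟩ := hb
  obtain ⟨hc1, hc2⟩ := hc
  obtain ⟨hd1, hd2⟩ := hd
  interval_cases a <;> interval_cases b <;> interval_cases c <;> interval_cases d <;>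
    first | (exfalso; revert h; decide) | decide

theorem list_half (a b c d : ℤ) (h : a * (a + 1) + b * (b + 1) + c * (c + 1) + d * (d + 1) = 0) :
    (![a - d, b - d, c - d, 2 * d + 1] : Fin 4 → ℤ) ∈ L12 ∨
      -(![a - d, b - d, c - d, 2 * d + 1] : Fin 4 → ℤ) ∈ L12 := by
  have key : ∀ x : ℤ, 0 ≤ x * (x + 1) := by
    intro x
    rcases le_or_gt 0 x with h | h
    · exact mul_nonneg h (by omega)
    · exact mul_nonneg_of_nonpos_of_nonpos (by omega) (by omega)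
  have key2 : ∀ x : ℤ, x * (x + 1) = 0 → x = 0 ∨ x = -1 := by
    intro x hx
    rcases mul_eq_zero.1 hx with h | h
    · exact Or.inl h
    · right; omega
  have ka := key a
  have kb := key b
  have kc := key c
  have kd := key d
  have ha := key2 a (by omega)
  have hb := key2 b (by omega)
  have hc := key2 c (by omega)
  have hd := key2 d (by omega)
  rcases ha with rfl | rfl <;> rcases hb with rfl | rfl <;> rcases hc with rfl | rfl <;>
    rcases hd with rfl | rfl <;> decide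

theorem MinSys.half_case {Q : Matrix (Fin 4) (Fin 4) ℝ} {A : Fin k → Fin 4 → ℤ} (h : MinSys Q A)
    {f : Fin 4 → Fin k} (hf : (frm A f).det ≠ 0) {x : Fin 4 → ℝ} (hx : x ∈ La (frm A f))
    (hx2 : ∀ i, ∃ n : ℤ, x i = n + 1 / 2) : ∃ P, Cert A P := by
  have hL := h.frL hf
  have hG := hL.orth hx hx2
  have hs1 : ∀ i, (![1, 1, 1, 1] : Fin 4 → ℤ) i = 1 ∨ (![1, 1, 1, 1] : Fin 4 → ℤ) i = -1 := by
    decide
  have hm : ∀ s : Fin 4 → ℤ, (∀ i, s i = 1 ∨ s i = -1) → hs4 s ∈ La (frm A f) :=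
    fun s hs => hL.hs4_mem hx hx2 hs
  obtain ⟨hv, hhv⟩ := hm _ hs1
  have hq1 := hL.hs4_one hm hs1
  -- twice the centre
  have hvj : ∀ j, (hv j : ℝ) = ((A (f 0) j : ℝ) + A (f 1) j + A (f 2) j + A (f 3) j) / 2 := by
    intro j
    have h1 := congrFun hhv j
    have h2 : (hs4 ![1, 1, 1, 1] ᵥ* frm A f) j = ∑ i, hs4 ![1, 1, 1, 1] i * (A (f i) j : ℝ) := rfl
    rw [h2, Fin.sum_univ_four] at h1
    unfold hs4 at h1
    simp only [Matrix.cons_val_zero, Matrix.cons_val_one, Matrix.cons_val] at h1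
    unfold rv at h1
    rw [← h1]
    push_cast
    ring
  set F : Matrix (Fin 4) (Fin 4) ℤ := Matrix.of ![A (f 0), A (f 1), A (f 2), hv] with hF
  -- integral coordinates
  have hco : ∀ (w : Fin 4 → ℤ) (y : Fin 4 → ℝ), y ᵥ* frm A f = rv w → ∀ n : Fin 4 → ℤ,
      (n 0 : ℝ) = y 0 - y 3 → (n 1 : ℝ) = y 1 - y 3 → (n 2 : ℝ) = y 2 - y 3 → (n 3 : ℝ) = 2 * y 3 →
      n ᵥ* F = w := by
    intro w y hy n n0 n1 n2 n3
    apply rv_inj
    rw [← hy]
    funext j
    have e1 : rv (n ᵥ* F) j = (n 0 : ℝ) * A (f 0) j + n 1 * A (f 1) j + n 2 * A (f 2) j +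
        n 3 * hv j := by
      have : (n ᵥ* F) j = ∑ i, n i * F i j := rfl
      unfold rv
      rw [this, Fin.sum_univ_four]
      push_cast
      rfl
    have e2 : (y ᵥ* frm A f) j = y 0 * A (f 0) j + y 1 * A (f 1) j + y 2 * A (f 2) j +
        y 3 * A (f 3) j := by
      have : (y ᵥ* frm A f) j = ∑ i, y i * (A (f i) j : ℝ) := rfl
      rw [this, Fin.sum_univ_four]
    rw [e1, e2, n0, n1, n2, n3, hvj]
    ring
  have hbas : ∃ X : Matrix (Fin 4) (Fin 4) ℤ, X * F = 1 ∧ F * X = 1 := by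
    apply basis_of_int
    intro w
    obtain ⟨h1, h2⟩ := coord_mem hf w
    rcases hL.int_or_half le_rfl h1 with h3 | ⟨_, h3⟩
    · choose n hn using h3
      refine ⟨![n 0 - n 3, n 1 - n 3, n 2 - n 3, 2 * n 3], hco w _ h2 _ ?_ ?_ ?_ ?_⟩ <;>
        simp [hn]
    · choose n hn using h3
      refine ⟨![n 0 - n 3, n 1 - n 3, n 2 - n 3, 2 * n 3 + 1], hco w _ h2 _ ?_ ?_ ?_ ?_⟩ <;>
        simp [hn]
      ring
  obtain ⟨X, hX1, hX2⟩ := hbas
  set V : Fin k → Fin 4 → ℤ := fun l => A l ᵥ* X with hV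
  have hAV : ∀ l, A l = V l ᵥ* F := by
    intro l
    rw [hV]
    simp only
    rw [vecMul_vecMul, hX1, vecMul_one]
  have hVn : ∀ l (n : Fin 4 → ℤ), n ᵥ* F = A l → V l = n := by
    intro l n hn
    rw [hV]
    simp only
    rw [← hn, vecMul_vecMul, hX2, vecMul_one]
  have hlist : ∀ l, V l ∈ L12 ∨ -V l ∈ L12 := by
    intro l
    obtain ⟨h1, h2⟩ := coord_mem hf (A l)
    set y := rv (A l) ᵥ* (frm A f)⁻¹ with hy
    have h3 : qv' (frm A f * Q * (frm A f)ᵀ) y = 1 := by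
      rw [qv_frame, h2, h.eq]
    have h4 := unit_vectors hG h3
    rcases hL.int_or_half le_rfl h1 with h5 | ⟨_, h5⟩
    · choose n hn using h5
      rw [hVn l ![n 0 - n 3, n 1 - n 3, n 2 - n 3, 2 * n 3]]
      · apply list_int
        rw [hn, hn, hn, hn] at h4
        exact_mod_cast h4
      · refine hco _ _ h2 _ ?_ ?_ ?_ ?_ <;> simp [hn]
    · choose n hn using h5
      rw [hVn l ![n 0 - n 3, n 1 - n 3, n 2 - n 3, 2 * n 3 + 1]]
      · apply list_half
        rw [hn, hn, hn, hn] at h4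
        have h6 : ((n 0 * (n 0 + 1) + n 1 * (n 1 + 1) + n 2 * (n 2 + 1) + n 3 * (n 3 + 1) : ℤ) : ℝ) =
            ((0 : ℤ) : ℝ) := by
          push_cast
          linarith
        exact_mod_cast h6
      · refine hco _ _ h2 _ ?_ ?_ ?_ ?_ <;> simp [hn]
        ring
  have h5 := (cert_D4 hlist).change (B := F) (B' := X) hX2 hX1
  simp only [← hAV] at h5
  exact ⟨_, h5⟩

/-- minimal vectors of forms in rank at most four have certificates -/
theorem MinSys.hasCert {Q : Matrix (Fin r) (Fin r) ℝ} {A : Fin k → Fin r → ℤ} (h : MinSys Q A)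
    (hr : r ≤ 4) : ∃ P, Cert A P := by
  by_cases hI : ∀ f : Fin r → Fin k, (frm A f).det ≠ 0 → ∀ x ∈ La (frm A f),
      ∀ i, ∃ n : ℤ, x i = n
  · exact h.int_case hI
  · push Not at hI
    obtain ⟨f, hf, x, hx, i, hi⟩ := hI
    rcases (h.frL hf).int_or_half hr hx with h1 | ⟨h1, h2⟩
    · obtain ⟨n, hn⟩ := h1 i
      exact absurd hn (hi n)
    · subst h1
      exact h.half_case hf hx h2

end Run7.h92
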