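import Mathlib

/-!
# One variable: the Jensen gap of an entire function
-/

namespace Run7.h92

open Complex MeasureTheory Metric Real Set Filter Topology

/-- The Jensen gap: circle average of `log |F|` minus the value at the centre. -/
noncomputable def Sg (F : ℂ → ℂ) (w : ℂ) (σ : ℝ) : ℝ :=
  Real.circleAverage (fun z => Real.log ‖F z‖) w σ - Real.log ‖F w‖

/-- multiplicity of a zero -/
noncomputable def mz (F : ℂ → ℂ) (u : ℂ) : ℝ := (MeromorphicOn.divisor F univ u : ℝ)

section
variable {F : ℂ → ℂ} (hF : Differentiable ℂ F)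
include hF

theorem analyticU (U : Set ℂ) : AnalyticOnNhd ℂ F U := fun z _ => hF.analyticAt z

theorem div_apply {U : Set ℂ} {u : ℂ} (hu : u ∈ U) :
    (MeromorphicOn.divisor F U u : ℝ) = mz F u := by
  unfold mz
  rw [MeromorphicOn.AnalyticOnNhd.divisor_apply (analyticU hF U) hu,
    MeromorphicOn.AnalyticOnNhd.divisor_apply (analyticU hF univ) (mem_univ u)]

theorem mz_nonneg (u : ℂ) : 0 ≤ mz F u := by
  unfold mz
  have := MeromorphicOn.AnalyticOnNhd.divisor_nonneg (analyticU hF univ)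
  exact_mod_cast this u

theorem mz_eq_zero {u : ℂ} (hu : F u ≠ 0) : mz F u = 0 := by
  unfold mz
  rw [MeromorphicOn.AnalyticOnNhd.divisor_apply (analyticU hF univ) (mem_univ u),
    (hF.analyticAt u).analyticOrderAt_eq_zero.2 hu]
  simp

theorem Sg_eq {w : ℂ} (hw : F w ≠ 0) {σ : ℝ} (hσ : 0 < σ) {s : Finset ℂ}
    (hs : ∀ u ∈ closedBall w σ, F u = 0 → u ∈ s) :
    Sg F w σ = ∑ u ∈ s, mz F u * posLog (σ * ‖w - u‖⁻¹) := by
  have h := AnalyticOnNhd.circleAverage_log_norm (c := w) (R := σ) (f := F) hσ.ne'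
    (fun z _ => hF.analyticAt z) hw
  unfold Sg
  rw [h, add_sub_cancel_right]
  have e1 : ∀ u, (MeromorphicOn.divisor F (closedBall w |σ|) u : ℝ) *
      Real.log (σ * ‖w - u‖⁻¹) = mz F u * posLog (σ * ‖w - u‖⁻¹) := by
    intro u
    rw [abs_of_pos hσ]
    by_cases hu : u ∈ closedBall w σ
    · rw [div_apply hF hu]
      by_cases huw : u = w
      · subst huw
        simp
      · congr 1
        have h1 : 0 < ‖w - u‖ := norm_pos_iff.2 (sub_ne_zero.2 (Ne.symm huw))
        rw [mem_closedBall, dist_comm, dist_eq_norm] at hu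
        rw [posLog_eq_log]
        rw [abs_of_nonneg (by positivity), ← div_eq_mul_inv, one_le_div h1]
        exact hu
    · rw [Function.locallyFinsuppWithin.apply_eq_zero_of_notMem _ hu]
      rw [mem_closedBall, dist_comm, dist_eq_norm, not_le] at hu
      have h1 : 0 < ‖w - u‖ := hσ.trans hu
      have : posLog (σ * ‖w - u‖⁻¹) = 0 := by
        rw [posLog_eq_zero_iff, abs_of_nonneg (by positivity), ← div_eq_mul_inv, div_le_one h1]
        exact hu.le
      rw [this]
      simp
  simp_rw [e1]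
  rw [finsum_eq_sum_of_support_subset]
  intro u hu
  rw [Function.mem_support] at hu
  by_contra hus
  apply hu
  by_cases h0 : F u = 0
  · have hub : u ∉ closedBall w σ := fun hb => hus (hs u hb h0)
    rw [mem_closedBall, dist_comm, dist_eq_norm, not_le] at hub
    have h1 : 0 < ‖w - u‖ := hσ.trans hub
    have : posLog (σ * ‖w - u‖⁻¹) = 0 := by
      rw [posLog_eq_zero_iff, abs_of_nonneg (by positivity), ← div_eq_mul_inv, div_le_one h1]
      exact hub.le
    rw [this, mul_zero]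
  · rw [mz_eq_zero hF h0, zero_mul]

theorem zeros_finite (hne : ∃ z, F z ≠ 0) (w : ℂ) (R : ℝ) : {u ∈ closedBall w R | F u = 0}.Finite := by
  obtain ⟨z, hz⟩ := hne
  by_contra hinf
  have hinf' : {u ∈ closedBall w R | F u = 0}.Infinite := hinf
  obtain ⟨a, ha, hacc⟩ := hinf'.exists_accPt_of_subset_isCompact (isCompact_closedBall w R)
    (fun u hu => hu.1)
  have h1 : ∃ᶠ u in 𝓝[≠] a, F u = 0 := by
    rw [accPt_iff_frequently_nhdsNE] at hacc
    exact hacc.mono fun u hu => hu.2
  have h2 := (analyticU hF univ).eqOn_zero_of_preconnected_of_frequently_eq_zero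
    isPreconnected_univ (mem_univ a) h1
  exact hz (h2 (mem_univ z))

theorem Sg_nonneg {w : ℂ} (hw : F w ≠ 0) {σ : ℝ} (hσ : 0 < σ) : 0 ≤ Sg F w σ := by
  have hfin := zeros_finite hF ⟨w, hw⟩ w σ
  rw [Sg_eq hF hw hσ (s := hfin.toFinset) (fun u hu h0 => by simpa using ⟨by simpa using hu, h0⟩)]
  exact Finset.sum_nonneg fun u _ => mul_nonneg (mz_nonneg hF u) posLog_nonneg

theorem Sg_eq_zero {w : ℂ} {σ : ℝ} (hσ : 0 < σ)
    (h : ∀ u ∈ closedBall w σ, F u ≠ 0) : Sg F w σ = 0 := by
  rw [Sg_eq hF (h w (mem_closedBall_self hσ.le)) hσ (s := ∅) (fun u hu h0 => absurd h0 (h u hu))]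
  simp

end

/-- finiteness of the integral of `log⁺ (1/|w|)` -/
theorem integrable_posLog : Integrable (fun w : ℂ => posLog (‖w‖⁻¹)) := by
  rw [integrable_fun_norm_addHaar (E := ℂ) volume (f := fun y : ℝ => posLog y⁻¹)]
  rw [Complex.finrank_real_complex]
  have h1 : IntegrableOn (fun y : ℝ => y ^ (2 - 1) • posLog y⁻¹) (Ioc 0 1) := by
    refine Measure.integrableOn_of_bounded (M := 1) (by simp) ?_ ?_
    · exact (by fun_prop : Measurable fun y : ℝ => y ^ (2 - 1) • posLog y⁻¹).aestronglyMeasurable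
    · refine (ae_restrict_iff' measurableSet_Ioc).2 (Filter.Eventually.of_forall fun y hy => ?_)
      have hy0 : 0 < y := hy.1
      rw [smul_eq_mul, Real.norm_eq_abs, abs_of_nonneg (mul_nonneg (by positivity) posLog_nonneg)]
      have h2 : posLog y⁻¹ ≤ y⁻¹ := by
        rw [posLog_apply]
        refine max_le (by positivity) ((Real.log_le_sub_one_of_pos (by positivity)).trans ?_)
        linarith
      calc y ^ (2 - 1) * posLog y⁻¹ ≤ y ^ (2 - 1) * y⁻¹ := by gcongr
        _ = 1 := by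
          rw [show (2 : ℕ) - 1 = 1 from rfl, pow_one]
          field_simp
  have h2 : IntegrableOn (fun y : ℝ => y ^ (2 - 1) • posLog y⁻¹) (Ioi 1) := by
    refine (integrableOn_zero).congr_fun (fun y hy => ?_) measurableSet_Ioi
    have hy1 : (1 : ℝ) < y := hy
    have : posLog y⁻¹ = 0 := by
      rw [posLog_eq_zero_iff, abs_of_nonneg (by positivity)]
      exact inv_le_one_of_one_le₀ hy1.le
    simp [this]
  have := h1.union h2
  rwa [Ioc_union_Ioi_eq_Ioi zero_le_one] at this

/-- the constant -/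
noncomputable def C0 : ℝ := ∫ w : ℂ, posLog (‖w‖⁻¹)

theorem C0_nonneg : 0 ≤ C0 := integral_nonneg fun _ => posLog_nonneg

theorem posLog_scale (σ : ℝ) (hσ : 0 < σ) (u w : ℂ) :
    posLog (σ * ‖w - u‖⁻¹) = posLog (‖σ⁻¹ • (w - u)‖⁻¹) := by
  rw [norm_smul, norm_inv, Real.norm_of_nonneg hσ.le, mul_inv, inv_inv]

theorem integrable_posLog' (σ : ℝ) (hσ : 0 < σ) (u : ℂ) :
    Integrable (fun w : ℂ => posLog (σ * ‖w - u‖⁻¹)) := by
  simp_rw [posLog_scale σ hσ]
  have h := (integrable_comp_smul_iff (volume : Measure ℂ) (fun w : ℂ => posLog (‖w‖⁻¹))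
    (inv_ne_zero hσ.ne')).2 integrable_posLog
  exact h.comp_sub_right u

theorem integral_posLog' (σ : ℝ) (hσ : 0 < σ) (u : ℂ) :
    ∫ w : ℂ, posLog (σ * ‖w - u‖⁻¹) = σ ^ 2 * C0 := by
  simp_rw [posLog_scale σ hσ]
  rw [integral_sub_right_eq_self (fun w : ℂ => posLog (‖σ⁻¹ • w‖⁻¹)) u]
  rw [Measure.integral_comp_smul_of_nonneg _ (fun w : ℂ => posLog (‖w‖⁻¹)) σ⁻¹ (hR := by positivity)]
  rw [Complex.finrank_real_complex, smul_eq_mul, C0]
  field_simp

theorem zeros_null {F : ℂ → ℂ} (hF : Differentiable ℂ F) (hne : ∃ z, F z ≠ 0) :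
    volume {w | F w = 0} = 0 := by
  have h1 : {w | F w = 0} ⊆ ⋃ n : ℕ, {u ∈ closedBall (0 : ℂ) n | F u = 0} := by
    intro w hw
    obtain ⟨n, hn⟩ := exists_nat_ge ‖w‖
    exact mem_iUnion.2 ⟨n, by simpa using hn, hw⟩
  refine measure_mono_null h1 (measure_iUnion_null fun n => ?_)
  exact (zeros_finite hF hne 0 n).measure_zero _

/-- The local mass of the Jensen gap at small scale is controlled by the gap at scale `4`. -/
theorem Sg_integral {F : ℂ → ℂ} (hF : Differentiable ℂ F) (h0 : F 0 ≠ 0) {σ : ℝ} (hσ : 0 < σ)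
    (hσ1 : σ ≤ 1) :
    IntegrableOn (fun w => Sg F w σ) (closedBall 0 1) ∧
    ∫ w in closedBall (0 : ℂ) 1, Sg F w σ ≤ C0 / Real.log 2 * σ ^ 2 * Sg F 0 4 := by
  have hfin := zeros_finite hF ⟨0, h0⟩ 0 2
  set s := hfin.toFinset with hs
  have hmem : ∀ u, u ∈ s ↔ ‖u‖ ≤ 2 ∧ F u = 0 := by
    intro u
    simp [hs]
  have e1 : ∀ w ∈ closedBall (0 : ℂ) 1, F w ≠ 0 →
      Sg F w σ = ∑ u ∈ s, mz F u * posLog (σ * ‖w - u‖⁻¹) := by
    intro w hw hFw
    refine Sg_eq hF hFw hσ fun u hu hu0 => (hmem u).2 ⟨?_, hu0⟩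
    rw [mem_closedBall, dist_zero_right] at hw
    rw [mem_closedBall, dist_eq_norm] at hu
    calc ‖u‖ = ‖(u - w) + w‖ := by ring_nf
      _ ≤ ‖u - w‖ + ‖w‖ := norm_add_le _ _
      _ ≤ 2 := by linarith
  have e2 : (fun w => ∑ u ∈ s, mz F u * posLog (σ * ‖w - u‖⁻¹)) =ᵐ[volume.restrict (closedBall 0 1)]
      fun w => Sg F w σ := by
    have h1 : ∀ᵐ w ∂(volume.restrict (closedBall (0 : ℂ) 1)), F w ≠ 0 := by
      refine ae_restrict_of_ae ?_
      rw [ae_iff]
      simpa using zeros_null hF ⟨0, h0⟩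
    have h2 : ∀ᵐ w ∂(volume.restrict (closedBall (0 : ℂ) 1)), w ∈ closedBall (0 : ℂ) 1 :=
      ae_restrict_mem measurableSet_closedBall
    filter_upwards [h1, h2] with w hw1 hw2
    exact (e1 w hw2 hw1).symm
  have hint : Integrable (fun w => ∑ u ∈ s, mz F u * posLog (σ * ‖w - u‖⁻¹)) :=
    integrable_finsetSum _ fun u _ => (integrable_posLog' σ hσ u).const_mul _
  refine ⟨hint.integrableOn.congr e2, ?_⟩
  rw [← integral_congr_ae e2]
  have h3 : ∫ w in closedBall (0 : ℂ) 1, ∑ u ∈ s, mz F u * posLog (σ * ‖w - u‖⁻¹) ≤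
      ∫ w, ∑ u ∈ s, mz F u * posLog (σ * ‖w - u‖⁻¹) := by
    refine setIntegral_le_integral hint (Filter.Eventually.of_forall fun w => ?_)
    exact Finset.sum_nonneg fun u _ => mul_nonneg (mz_nonneg hF u) posLog_nonneg
  refine h3.trans ?_
  rw [integral_finsetSum _ fun u _ => (integrable_posLog' σ hσ u).const_mul _]
  simp_rw [integral_const_mul, integral_posLog' σ hσ]
  rw [← Finset.sum_mul]
  have h4 : (∑ u ∈ s, mz F u) * Real.log 2 ≤ Sg F 0 4 := by
    have hfin4 := zeros_finite hF ⟨0, h0⟩ 0 4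
    rw [Sg_eq hF h0 (by norm_num : (0:ℝ) < 4) (s := hfin4.toFinset)
      (fun u hu hu0 => by simpa using ⟨by simpa using hu, hu0⟩)]
    have hsub : s ⊆ hfin4.toFinset := by
      intro u hu
      have := (hmem u).1 hu
      simp only [Set.Finite.mem_toFinset, mem_ofPred_eq, mem_closedBall, dist_zero_right]
      exact ⟨by linarith [this.1], this.2⟩
    calc (∑ u ∈ s, mz F u) * Real.log 2 = ∑ u ∈ s, mz F u * Real.log 2 := by rw [Finset.sum_mul]
      _ ≤ ∑ u ∈ s, mz F u * posLog (4 * ‖0 - u‖⁻¹) := by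
        refine Finset.sum_le_sum fun u hu => mul_le_mul_of_nonneg_left ?_ (mz_nonneg hF u)
        obtain ⟨hu2, hu0⟩ := (hmem u).1 hu
        have hune : u ≠ 0 := fun h => h0 (h ▸ hu0)
        have hup : 0 < ‖u‖ := norm_pos_iff.2 hune
        rw [zero_sub, norm_neg]
        have : (2 : ℝ) ≤ 4 * ‖u‖⁻¹ := by
          rw [← div_eq_mul_inv, le_div_iff₀ hup]
          linarith
        rw [posLog_eq_log (by rw [abs_of_pos (by positivity)]; linarith)]
        exact Real.log_le_log (by norm_num) this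
      _ ≤ _ := Finset.sum_le_sum_of_subset_of_nonneg hsub fun u _ _ =>
        mul_nonneg (mz_nonneg hF u) posLog_nonneg
  have hl : 0 < Real.log 2 := Real.log_pos (by norm_num)
  have h5 : (∑ u ∈ s, mz F u) ≤ Sg F 0 4 / Real.log 2 := by
    rw [le_div_iff₀ hl]; exact h4
  calc (∑ u ∈ s, mz F u) * (σ ^ 2 * C0) ≤ (Sg F 0 4 / Real.log 2) * (σ ^ 2 * C0) :=
        mul_le_mul_of_nonneg_right h5 (mul_nonneg (by positivity) C0_nonneg)
    _ = _ := by ring

/-- doubling the radius around a zero -/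
theorem circleAverage_double {F : ℂ → ℂ} (hF : Differentiable ℂ F) (hne : ∃ z, F z ≠ 0)
    (h0 : F 0 = 0) {r : ℝ} (hr : 0 < r) :
    Real.circleAverage (fun z => Real.log ‖F z‖) 0 r + Real.log 2 ≤
      Real.circleAverage (fun z => Real.log ‖F z‖) 0 (2 * r) := by
  classical
  have hM : Meromorphic F := fun z => (hF.analyticAt z).meromorphicAt
  have j1 := Function.locallyFinsuppWithin.logCounting_divisor_eq_circleAverage_sub_const hM
    (R := r) hr.ne'
  have j2 := Function.locallyFinsuppWithin.logCounting_divisor_eq_circleAverage_sub_const hM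
    (R := 2 * r) (by positivity)
  set D := MeromorphicOn.divisor F univ with hD
  have hD1 : Function.locallyFinsuppWithin.single (0 : ℂ) (1 : ℤ) ≤ D := by
    intro u
    rw [Function.locallyFinsuppWithin.single_apply]
    by_cases hu : u = 0
    · subst hu
      rw [if_pos rfl, hD, MeromorphicOn.AnalyticOnNhd.divisor_apply (analyticU hF univ) (mem_univ _)]
      have h1 : analyticOrderAt F 0 ≠ 0 := fun h =>
        (hF.analyticAt 0).analyticOrderAt_eq_zero.1 h h0
      have h2 : analyticOrderAt F 0 ≠ ⊤ := by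
        intro h
        rw [analyticOrderAt_eq_top] at h
        obtain ⟨z, hz⟩ := hne
        have h2 := (analyticU hF univ).eqOn_zero_of_preconnected_of_frequently_eq_zero
          isPreconnected_univ (mem_univ 0) (h.filter_mono nhdsWithin_le_nhds).frequently
        exact hz (h2 (mem_univ z))
      obtain ⟨n, hn⟩ := ENat.ne_top_iff_exists.1 h2
      rw [← hn] at h1 ⊢
      have : n ≠ 0 := by
        rintro rfl
        exact h1 rfl
      simp only [ENat.map_natCast]
      have h3 : (1 : ℤ) ≤ (n : ℤ) := by omega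
      exact h3
    · rw [if_neg hu]
      have := MeromorphicOn.AnalyticOnNhd.divisor_nonneg (analyticU hF univ)
      exact this u
  have e : Function.locallyFinsuppWithin.logCounting D =
      Function.locallyFinsuppWithin.logCounting (Function.locallyFinsuppWithin.single (0 : ℂ) (1 : ℤ)) +
      Function.locallyFinsuppWithin.logCounting (D - Function.locallyFinsuppWithin.single (0 : ℂ) (1 : ℤ)) := by
    rw [← map_add]
    congr 1
    abel
  have hm := Function.locallyFinsuppWithin.logCounting_mono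
    (D := D - Function.locallyFinsuppWithin.single (0 : ℂ) (1 : ℤ)) (by simpa using hD1)
    (show r ∈ Ioi (0:ℝ) from hr) (show 2 * r ∈ Ioi (0:ℝ) by simpa using hr) (by linarith)
  have e1 := Function.locallyFinsuppWithin.logCounting_single_eq_log_sub_const (e := (0:ℂ)) (n := 1) (r := r)
    (by simpa using hr.le)
  have e2 := Function.locallyFinsuppWithin.logCounting_single_eq_log_sub_const (e := (0:ℂ)) (n := 1)
    (r := 2 * r) (by simpa using hr.le)
  rw [e] at j1 j2
  simp only [Pi.add_apply] at j1 j2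
  rw [e1] at j1
  rw [e2, Real.log_mul (by norm_num) hr.ne'] at j2
  simp only [Int.cast_one, one_mul] at j1 j2
  linarith

end Run7.h92
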