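import Pool.Agent.Helper540.Osgood
import Pool.Agent.Run7.h92.OneVar

/-!
# Projections of zero sets over null sets are null
-/

namespace Run7.h92

open Complex MeasureTheory Metric Real Set Filter Topology
open Pool.Agent.Helper540 (dirD dirD_diff dirD_all_zero contDiffOn_of_differentiableOn)

theorem haus_of_null {s : Set ℂ} (h : volume s = 0) :
    (Measure.hausdorffMeasure 2 : Measure ℂ) s = 0 := by
  have hH : (Measure.hausdorffMeasure (Module.finrank ℝ ℂ) : Measure ℂ).IsAddHaarMeasure :=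
    inferInstance
  rw [Complex.finrank_real_complex] at hH
  have h8 := Measure.isAddLeftInvariant_eq_smul
    (Measure.hausdorffMeasure ((2 : ℕ) : ℝ) : Measure ℂ) (volume : Measure ℂ)
  have h9 : (Measure.hausdorffMeasure ((2 : ℕ) : ℝ) : Measure ℂ) s = 0 := by
    rw [h8, Measure.smul_apply, h, smul_zero]
  exact_mod_cast h9

theorem null_of_haus {s : Set ℂ} (h : (Measure.hausdorffMeasure 2 : Measure ℂ) s = 0) :
    volume s = 0 := by
  have hH : (Measure.hausdorffMeasure (Module.finrank ℝ ℂ) : Measure ℂ).IsAddHaarMeasure :=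
    inferInstance
  rw [Complex.finrank_real_complex] at hH
  have h8 := Measure.isAddLeftInvariant_eq_smul (volume : Measure ℂ)
    (Measure.hausdorffMeasure ((2 : ℕ) : ℝ) : Measure ℂ)
  have h9 : (Measure.hausdorffMeasure ((2 : ℕ) : ℝ) : Measure ℂ) s = 0 := by
    exact_mod_cast h
  rw [h8, Measure.smul_apply, h9, smul_zero]

theorem lip_null2 {R : Set (ℂ × ℂ)} {C : NNReal}
    (h : ∀ p ∈ R, ∀ q ∈ R, ‖p.1 - q.1‖ ≤ C * ‖p.2 - q.2‖) (h0 : volume (Prod.snd '' R) = 0) :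
    volume (Prod.fst '' R) = 0 := by
  classical
  have hex : ∀ t : ℂ, ∃ ξ : ℂ, (∃ η, (η, t) ∈ R) → (ξ, t) ∈ R := by
    intro t
    by_cases ht : ∃ η, (η, t) ∈ R
    · obtain ⟨η, hη⟩ := ht
      exact ⟨η, fun _ => hη⟩
    · exact ⟨0, fun h => absurd h ht⟩
  choose f hf using hex
  have hlip : LipschitzOnWith C f (Prod.snd '' R) := by
    rw [lipschitzOnWith_iff_dist_le_mul]
    rintro _ ⟨⟨a, s⟩, ha, rfl⟩ _ ⟨⟨b, t⟩, hb, rfl⟩
    have h1 := h _ (hf s ⟨a, ha⟩) _ (hf t ⟨b, hb⟩)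
    rw [dist_eq_norm, dist_eq_norm]
    exact h1
  have himg : Prod.fst '' R ⊆ f '' (Prod.snd '' R) := by
    rintro _ ⟨⟨a, s⟩, ha, rfl⟩
    refine ⟨s, ⟨(a, s), ha, rfl⟩, ?_⟩
    have h1 := h _ (hf s ⟨a, ha⟩) _ ha
    simp only [sub_self, norm_zero, mul_zero] at h1
    exact (sub_eq_zero.1 (norm_le_zero_iff.1 h1))
  have h2 : Measure.hausdorffMeasure 2 (f '' (Prod.snd '' R)) = 0 := by
    have h3 := hlip.hausdorffMeasure_image_le (d := 2) (by norm_num)
    rw [haus_of_null h0, mul_zero] at h3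
    exact nonpos_iff_eq_zero.1 h3
  exact measure_mono_null himg (null_of_haus h2)

theorem curve_null2 {Ψ : ℂ × ℂ → ℂ} (hΨ : Differentiable ℂ Ψ) {B : Set ℂ} (hB : volume B = 0)
    (hJ : ∀ t ∈ B, ∃ ξ, Ψ (ξ, t) ≠ 0) : volume {ξ | ∃ t ∈ B, Ψ (ξ, t) = 0} = 0 := by
  set e : ℂ × ℂ := (1, 0) with he
  have hd : ∀ j, Differentiable ℂ (dirD Ψ e j) := fun j =>
    differentiableOn_univ.1 (dirD_diff isOpen_univ hΨ.differentiableOn e j)
  set E : ℕ → Set (ℂ × ℂ) := fun k =>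
    {p | p.2 ∈ B ∧ dirD Ψ e k p = 0 ∧ dirD Ψ e (k + 1) p ≠ 0} with hE
  have hsub : {ξ | ∃ t ∈ B, Ψ (ξ, t) = 0} ⊆ ⋃ k, Prod.fst '' E k := by
    rintro ξ ⟨t, ht, h0⟩
    obtain ⟨ξ', hξ'⟩ := hJ t ht
    have h1 : ∃ j, dirD Ψ e j (ξ, t) ≠ 0 := by
      by_contra hcon
      push Not at hcon
      have h2 := dirD_all_zero isOpen_univ hΨ.differentiableOn (mem_univ (ξ, t)) hcon
      have h3 : Differentiable ℂ fun s : ℂ => Ψ ((ξ, t) + s • e) := by
        have h4 : Differentiable ℂ fun s : ℂ => (ξ, t) + s • e := by fun_prop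
        exact hΨ.comp h4
      have h5 := (analyticU h3 univ).eqOn_zero_of_preconnected_of_frequently_eq_zero
        isPreconnected_univ (mem_univ 0) ((h2.filter_mono nhdsWithin_le_nhds).frequently)
      have h6 := h5 (mem_univ (ξ' - ξ))
      apply hξ'
      have h7 : (ξ, t) + (ξ' - ξ) • e = (ξ', t) := by
        rw [he]
        ext <;> simp
      simp only [h7, Pi.zero_apply] at h6
      exact h6
    classical
    set j := Nat.find h1 with hj
    have hj1 := Nat.find_spec h1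
    have hj0 : j ≠ 0 := by
      intro h
      rw [← hj, h] at hj1
      exact hj1 h0
    obtain ⟨k, hk⟩ := Nat.exists_eq_succ_of_ne_zero hj0
    refine mem_iUnion.2 ⟨k, (ξ, t), ⟨ht, ?_, ?_⟩, rfl⟩
    · by_contra h
      have := Nat.find_min h1 (m := k) (by rw [← hj]; omega)
      exact this h
    · rw [← hj, hk] at hj1
      exact hj1
  refine measure_mono_null hsub (measure_iUnion_null fun k => ?_)
  have hloc : ∀ x ∈ E k, ∃ U ∈ 𝓝 x, volume (Prod.fst '' (E k ∩ U)) = 0 := by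
    rintro ⟨ξ₀, t₀⟩ ⟨-, -, ha⟩
    set H := dirD Ψ e k with hH
    have hcd : ContDiff ℂ 1 H := by
      have := contDiffOn_of_differentiableOn isOpen_univ (hd k).differentiableOn 1
      rw [contDiffOn_univ] at this
      exact_mod_cast this
    have hst : HasStrictFDerivAt H (fderiv ℂ H (ξ₀, t₀)) (ξ₀, t₀) :=
      hcd.contDiffAt.hasStrictFDerivAt (by simp)
    set H' := fderiv ℂ H (ξ₀, t₀) with hH'
    have ha' : H' (1, 0) ≠ 0 := ha
    set a := H' (1, 0) with haa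
    set b := H' (0, 1) with hbb
    have hapos : 0 < ‖a‖ := norm_pos_iff.2 ha'
    have hc : (0 : ℝ) < ‖a‖ / 2 := by positivity
    have h1 := hst.isLittleO.def hc
    rw [nhds_prod_eq, Filter.eventually_prod_iff] at h1
    obtain ⟨pa, hpa, pb, hpb, hab⟩ := h1
    set V := {y : ℂ × ℂ | pa y ∧ pb y} with hV
    have hVn : V ∈ 𝓝 (ξ₀, t₀) := hpa.and hpb
    refine ⟨V, hVn, ?_⟩
    refine lip_null2 (C := Real.toNNReal ((‖b‖ + ‖a‖ / 2) / (‖a‖ / 2))) ?_ ?_
    · rintro ⟨ξ, t⟩ ⟨⟨-, hp0, -⟩, hpV⟩ ⟨η, s⟩ ⟨⟨-, hq0, -⟩, hqV⟩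
      have h2 := hab hpV.1 hqV.2
      simp only at h2 hp0 hq0 ⊢
      rw [show H (ξ, t) = 0 from hp0, show H (η, s) = 0 from hq0, sub_self, zero_sub,
        norm_neg] at h2
      have h3 : (ξ, t) - (η, s) = (ξ - η) • ((1 : ℂ), (0 : ℂ)) +
          (t - s) • ((0 : ℂ), (1 : ℂ)) := by
        ext <;> simp
      have h4 : H' ((ξ, t) - (η, s)) = (ξ - η) * a + (t - s) * b := by
        rw [h3, map_add, map_smul, map_smul, smul_eq_mul, smul_eq_mul]
      rw [h4] at h2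
      have h5 : ‖(ξ, t) - (η, s)‖ ≤ ‖ξ - η‖ + ‖t - s‖ := by
        rw [Prod.norm_def]
        simp only [Prod.fst_sub, Prod.snd_sub]
        exact max_le (le_add_of_nonneg_right (norm_nonneg _)) (le_add_of_nonneg_left (norm_nonneg _))
      have h6 : ‖ξ - η‖ * ‖a‖ ≤ ‖(ξ - η) * a + (t - s) * b‖ + ‖t - s‖ * ‖b‖ := by
        have : (ξ - η) * a = ((ξ - η) * a + (t - s) * b) - (t - s) * b := by ring
        calc ‖ξ - η‖ * ‖a‖ = ‖(ξ - η) * a‖ := (norm_mul _ _).symm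
          _ = ‖((ξ - η) * a + (t - s) * b) - (t - s) * b‖ := by rw [← this]
          _ ≤ ‖(ξ - η) * a + (t - s) * b‖ + ‖(t - s) * b‖ := norm_sub_le _ _
          _ = _ := by
            rw [norm_mul (t - s)]
      rw [Real.coe_toNNReal _ (by positivity)]
      rw [div_mul_eq_mul_div, le_div_iff₀ (by positivity)]
      nlinarith [mul_le_mul_of_nonneg_left h5 hc.le]
    · refine measure_mono_null ?_ hB
      rintro _ ⟨p, hp, rfl⟩
      exact hp.1.1
  choose! U hU hU0 using hloc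
  obtain ⟨T, hTE, hTc, hcov⟩ := TopologicalSpace.countable_cover_nhdsWithin (f := U) (s := E k)
    (fun x hx => mem_nhdsWithin_of_mem_nhds (hU x hx))
  have h10 : Prod.fst '' E k ⊆ ⋃ x ∈ T, Prod.fst '' (E k ∩ U x) := by
    rintro _ ⟨p, hp, rfl⟩
    obtain ⟨x, hx, hpx⟩ := mem_iUnion₂.1 (hcov hp)
    exact mem_iUnion₂.2 ⟨x, hx, p, ⟨hp, hpx⟩, rfl⟩
  exact measure_mono_null h10 ((measure_biUnion_null_iff hTc).2 fun x hx => hU0 x (hTE hx))

/-- closedness of projections of zero sets over compact sets -/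
theorem closed_proj {n : ℕ} {Φ : (Fin n → ℂ) × ℂ → ℂ} (hc : Continuous Φ) {K : Set ℂ}
    (hK : IsCompact K) : IsClosed {q | ∃ t ∈ K, Φ (q, t) = 0} := by
  have h1 : IsClosed {p : (Fin n → ℂ) × ℂ | Φ p = 0 ∧ p.2 ∈ K} :=
    (isClosed_eq hc continuous_const).inter (hK.isClosed.preimage continuous_snd)
  rw [← isSeqClosed_iff_isClosed]
  rintro u q hu huq
  choose p hp hpu using hu
  obtain ⟨t, ht, φ, hφ, hlim⟩ := hK.tendsto_subseq (fun m => hp m)
  refine ⟨t, ht, ?_⟩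
  have h3 : Tendsto (fun m => (u (φ m), p (φ m))) atTop (𝓝 (q, t)) :=
    (huq.comp hφ.tendsto_atTop).prodMk_nhds hlim
  have h4 := h1.mem_of_tendsto h3 (Filter.Eventually.of_forall fun m => ⟨hpu (φ m), hp (φ m)⟩)
  exact h4.1

/-- measurability of projections of zero sets over relatively open subsets of compact sets -/
theorem meas_proj {n : ℕ} {Φ : (Fin n → ℂ) × ℂ → ℂ} (hc : Continuous Φ) {K O : Set ℂ}
    (hK : IsCompact K) (hO : IsOpen O) : MeasurableSet {q | ∃ t ∈ O ∩ K, Φ (q, t) = 0} := by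
  obtain ⟨F, hF1, hF2, hF3, -⟩ := hO.exists_iUnion_isClosed
  have e1 : {q | ∃ t ∈ O ∩ K, Φ (q, t) = 0} = ⋃ i, {q | ∃ t ∈ K ∩ F i, Φ (q, t) = 0} := by
    ext q
    simp only [mem_iUnion, mem_ofPred_eq]
    constructor
    · rintro ⟨t, ⟨ht1, ht2⟩, h0⟩
      rw [← hF3] at ht1
      obtain ⟨i, hi⟩ := mem_iUnion.1 ht1
      exact ⟨i, t, ⟨ht2, hi⟩, h0⟩
    · rintro ⟨i, t, ⟨ht1, ht2⟩, h0⟩
      refine ⟨t, ⟨?_, ht1⟩, h0⟩
      rw [← hF3]
      exact mem_iUnion.2 ⟨i, ht2⟩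
  rw [e1]
  exact MeasurableSet.iUnion fun i => (closed_proj hc (hK.inter_right (hF1 i))).measurableSet

end Run7.h92
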