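import Pool.Agent.Run7.h92.Strip

/-!
# Cesaro decay of Fourier coefficients
-/

namespace Run7.h92

open Complex MeasureTheory Metric Real Set Filter Topology

variable {g : ℕ}

theorem chi_smul (k : Fin g ⊕ Fin g → ℤ) (n : ℕ) (p : TT g) :
    chi ((n : ℤ) • k) p = chi k p ^ n := by
  rw [← pr_rep p, chi_pr, chi_pr, ← Complex.exp_nat_mul]
  congr 1
  have : dt ((n : ℤ) • k) (rep p) = n * dt k (rep p) := by
    unfold dt
    rw [Finset.mul_sum]
    refine Finset.sum_congr rfl fun i _ => ?_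
    simp
    ring
  rw [this]
  push_cast
  ring

theorem norm_circleAverage_le {h : ℂ → ℂ} {C : ℝ} (hC : ∀ w : ℂ, ‖w‖ = 1 → ‖h w‖ ≤ C) :
    ‖Real.circleAverage h 0 1‖ ≤ C := by
  unfold Real.circleAverage
  rw [norm_smul]
  have h1 := intervalIntegral.norm_integral_le_of_norm_le_const (a := 0) (b := 2 * π)
    (f := fun θ => h (circleMap 0 1 θ)) (C := C) (fun θ _ => hC _ (by simp))
  rw [sub_zero, abs_of_pos Real.two_pi_pos] at h1
  rw [Real.norm_of_nonneg (by positivity)]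
  calc (2 * π)⁻¹ * ‖∫ θ in (0)..(2 * π), h (circleMap 0 1 θ)‖ ≤ (2 * π)⁻¹ * (C * (2 * π)) := by
        gcongr
    _ = C := by
      have := Real.two_pi_pos
      field_simp

namespace Dat

variable (D : Dat g)

/-- the linear function on the direction line -/
noncomputable def lam (k : Fin g ⊕ Fin g → ℤ) : ℂ →ₗ[ℝ] ℝ where
  toFun w := dt k (D.A.symm (w • D.dir k))
  map_add' a b := by
    rw [add_smul, map_add]
    unfold dt
    rw [← Finset.sum_add_distrib]
    exact Finset.sum_congr rfl fun i _ => by simp [mul_add]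
  map_smul' r a := by
    rw [smul_assoc, map_smul]
    unfold dt
    rw [RingHom.id_apply, smul_eq_mul, Finset.mul_sum]
    exact Finset.sum_congr rfl fun i _ => by simp; ring

theorem lam_apply (k : Fin g ⊕ Fin g → ℤ) (w : ℂ) :
    D.lam k w = dt k (D.A.symm (w • D.dir k)) := rfl

theorem continuous_lam (k : Fin g ⊕ Fin g → ℤ) : Continuous (D.lam k) :=
  (D.lam k).continuous_of_finiteDimensional

theorem lam_one_pos {k : Fin g ⊕ Fin g → ℤ} (hk : k ≠ 0) : 0 < D.lam k 1 := by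
  rw [lam_apply, one_smul, dir, LinearEquiv.symm_apply_apply]
  unfold dt iv
  obtain ⟨i, hi⟩ : ∃ i, k i ≠ 0 := by
    by_contra h
    push Not at h
    exact hk (funext h)
  refine Finset.sum_pos' (fun j _ => mul_self_nonneg _) ⟨i, Finset.mem_univ i, ?_⟩
  have : (k i : ℝ) ≠ 0 := by exact_mod_cast hi
  exact mul_self_pos.2 this

/-- the second moment -/
noncomputable def kap (k : Fin g ⊕ Fin g → ℤ) : ℝ :=
  Real.circleAverage (fun w => (2 * π * D.lam k w) ^ 2 / 2) 0 1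

theorem kap_pos {k : Fin g ⊕ Fin g → ℤ} (hk : k ≠ 0) : 0 < D.kap k := by
  unfold kap Real.circleAverage
  rw [smul_eq_mul]
  have hc : Continuous fun θ : ℝ => (2 * π * D.lam k (circleMap 0 1 θ)) ^ 2 / 2 := by
    have := D.continuous_lam k
    fun_prop
  have := intervalIntegral.integral_pos (a := 0) (b := 2 * π) Real.two_pi_pos
    (f := fun θ : ℝ => (2 * π * D.lam k (circleMap 0 1 θ)) ^ 2 / 2) hc.continuousOn
    (fun x _ => by positivity) ⟨0, ⟨le_rfl, Real.two_pi_pos.le⟩, by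
      have h1 := D.lam_one_pos hk
      have h2 : circleMap 0 1 0 = (1 : ℂ) := by simp [circleMap]
      rw [h2]
      positivity⟩
  positivity

theorem J_bound (k : Fin g ⊕ Fin g → ℤ) : ∃ C : ℝ, 0 < C ∧ ∀ s : ℝ, |s| * C ≤ 1 →
    ‖D.J k (s • D.dir k) + ((s ^ 2 * D.kap k : ℝ) : ℂ)‖ ≤ (|s| * C) ^ 3 := by
  obtain ⟨C, hC⟩ := (isCompact_sphere (0 : ℂ) 1).exists_bound_of_continuousOn
    (D.continuous_lam k).continuousOn
  refine ⟨2 * π * (|C| + 1), by positivity, fun s hs => ?_⟩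
  set x : ℂ → ℂ := fun w => -(2 * π * I * ((s * D.lam k w : ℝ) : ℂ)) with hx
  have hcl := D.continuous_lam k
  have hcx : Continuous x := by
    have : Continuous fun w => ((s * D.lam k w : ℝ) : ℂ) := Complex.continuous_ofReal.comp (by fun_prop)
    rw [hx]
    fun_prop
  have e1 : ∀ w : ℂ, chi k (-(D.dis (w • s • D.dir k))) = Complex.exp (x w) := by
    intro w
    rw [D.chi_dis_neg, smul_comm, map_smul, hx]
    have : dt k (s • D.A.symm (w • D.dir k)) = s * D.lam k w := by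
      rw [lam_apply]
      unfold dt
      rw [Finset.mul_sum]
      exact Finset.sum_congr rfl fun i _ => by simp; ring
    rw [this]
  have i1 : CircleIntegrable (fun w => Complex.exp (x w)) 0 1 :=
    (by fun_prop : Continuous fun w => Complex.exp (x w)).continuousOn.circleIntegrable'
  have i2 : CircleIntegrable (fun w => x w) 0 1 := hcx.continuousOn.circleIntegrable'
  have i3 : CircleIntegrable (fun w => x w ^ 2 / 2) 0 1 :=
    (by fun_prop : Continuous fun w => x w ^ 2 / 2).continuousOn.circleIntegrable'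
  have i0 : CircleIntegrable (fun _ : ℂ => (1 : ℂ)) 0 1 :=
    continuous_const.continuousOn.circleIntegrable'
  have i23 : CircleIntegrable (fun w => x w + x w ^ 2 / 2) 0 1 :=
    (by fun_prop : Continuous fun w => x w + x w ^ 2 / 2).continuousOn.circleIntegrable'
  have i123 : CircleIntegrable (fun w => 1 + (x w + x w ^ 2 / 2)) 0 1 :=
    (by fun_prop : Continuous fun w => 1 + (x w + x w ^ 2 / 2)).continuousOn.circleIntegrable'
  have a2 : Real.circleAverage (fun w => x w) 0 1 = 0 := by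
    have h1 := circleAverage_lin (D.lam k)
    have h2 : (fun w => x w) = fun w => (-(2 * π * I * s) : ℂ) • ((D.lam k w : ℝ) : ℂ) := by
      funext w
      rw [hx]
      simp only [smul_eq_mul]
      push_cast
      ring
    rw [h2, Real.circleAverage_fun_smul]
    have h3 : Real.circleAverage (fun w => ((D.lam k w : ℝ) : ℂ)) 0 1 =
        ((Real.circleAverage (fun w => D.lam k w) 0 1 : ℝ) : ℂ) := by
      unfold Real.circleAverage
      rw [smul_eq_mul, Complex.ofReal_mul, ← intervalIntegral.integral_ofReal, Complex.real_smul]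
    rw [h3, h1]
    simp
  have a3 : Real.circleAverage (fun w => x w ^ 2 / 2) 0 1 = -((s ^ 2 * D.kap k : ℝ) : ℂ) := by
    have h2 : (fun w => x w ^ 2 / 2) = fun w => (-(s ^ 2 : ℝ) : ℂ) •
        (((2 * π * D.lam k w) ^ 2 / 2 : ℝ) : ℂ) := by
      funext w
      rw [hx]
      simp only [smul_eq_mul]
      push_cast
      ring_nf
      rw [I_sq]
      ring
    rw [h2, Real.circleAverage_fun_smul]
    have h3 : Real.circleAverage (fun w => (((2 * π * D.lam k w) ^ 2 / 2 : ℝ) : ℂ)) 0 1 =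
        ((D.kap k : ℝ) : ℂ) := by
      unfold kap Real.circleAverage
      rw [smul_eq_mul, Complex.ofReal_mul, ← intervalIntegral.integral_ofReal, Complex.real_smul]
    rw [h3, smul_eq_mul]
    push_cast
    ring
  have e2 : D.J k (s • D.dir k) + ((s ^ 2 * D.kap k : ℝ) : ℂ) =
      Real.circleAverage (fun w => Complex.exp (x w) - (1 + (x w + x w ^ 2 / 2))) 0 1 := by
    rw [Real.circleAverage_fun_sub i1 i123, Real.circleAverage_fun_add i0 i23,
      Real.circleAverage_fun_add i2 i3, a2, a3, Real.circleAverage_const]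
    unfold J
    simp_rw [e1]
    ring
  rw [e2]
  refine norm_circleAverage_le fun w hw => ?_
  have hxn : ‖x w‖ ≤ |s| * (2 * π * (|C| + 1)) := by
    rw [hx]
    simp only [norm_neg, norm_mul, Complex.norm_ofNat, Complex.norm_real, Complex.norm_I, mul_one,
      Real.norm_eq_abs, abs_of_pos Real.pi_pos]
    have h3 := hC w (by simpa using hw)
    rw [Real.norm_eq_abs] at h3
    have h4 : |D.lam k w| ≤ |C| + 1 := by linarith [le_abs_self C]
    calc 2 * π * (|s| * |D.lam k w|) ≤ 2 * π * (|s| * (|C| + 1)) := by gcongr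
      _ = _ := by ring
  have h5 := Complex.exp_bound (hxn.trans hs) (n := 3) (by norm_num)
  have h6 : ∑ m ∈ Finset.range 3, x w ^ m / (m.factorial : ℂ) = 1 + (x w + x w ^ 2 / 2) := by
    simp [Finset.sum_range_succ, Nat.factorial]
    ring
  rw [h6] at h5
  refine h5.trans ?_
  calc ‖x w‖ ^ 3 * (((3 : ℕ).succ : ℝ) * ((3 : ℕ).factorial * (3 : ℕ) : ℝ)⁻¹) ≤ ‖x w‖ ^ 3 * 1 := by
        gcongr
        norm_num [Nat.factorial]
    _ ≤ (|s| * (2 * π * (|C| + 1))) ^ 3 := by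
        rw [mul_one]
        gcongr

theorem J_tendsto (k : Fin g ⊕ Fin g → ℤ) (n : ℕ) :
    Tendsto (fun σ : ℝ => (((σ ^ 2)⁻¹ : ℝ) : ℂ) * D.J ((n : ℤ) • k) (σ • D.dir k)) (𝓝[>] 0)
      (𝓝 (-((n : ℂ) ^ 2 * (D.kap k : ℂ)))) := by
  obtain ⟨C, hC, hb⟩ := D.J_bound k
  have h1 : ∀ᶠ σ in 𝓝[>] (0 : ℝ), ‖(((σ ^ 2)⁻¹ : ℝ) : ℂ) * D.J ((n : ℤ) • k) (σ • D.dir k) -
      (-((n : ℂ) ^ 2 * (D.kap k : ℂ)))‖ ≤ σ * (n * C) ^ 3 := by
    have h2 : ∀ᶠ σ in 𝓝[>] (0 : ℝ), σ * (n * C) < 1 := by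
      have : Tendsto (fun σ : ℝ => σ * (n * C)) (𝓝[>] 0) (𝓝 (0 * (n * C))) :=
        (tendsto_id.mul_const _).mono_left nhdsWithin_le_nhds
      rw [zero_mul] at this
      exact this.eventually (gt_mem_nhds one_pos)
    filter_upwards [h2, self_mem_nhdsWithin] with σ hσ hσ0
    have hσ0' : (0 : ℝ) < σ := hσ0
    have e1 : D.J ((n : ℤ) • k) (σ • D.dir k) = D.J k ((n * σ : ℝ) • D.dir k) := by
      rw [D.J_smul, smul_smul]
      norm_cast
    have h3 := hb (n * σ) (by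
      rw [abs_of_nonneg (by positivity)]
      linarith)
    rw [e1]
    have e2 : (((σ ^ 2)⁻¹ : ℝ) : ℂ) * D.J k ((n * σ : ℝ) • D.dir k) -
      (-((n : ℂ) ^ 2 * (D.kap k : ℂ))) = (((σ ^ 2)⁻¹ : ℝ) : ℂ) *
        (D.J k ((n * σ : ℝ) • D.dir k) + (((n * σ) ^ 2 * D.kap k : ℝ) : ℂ)) := by
      have : (σ : ℂ) ≠ 0 := by exact_mod_cast hσ0'.ne'
      push_cast
      field_simp
      ring
    rw [e2, norm_mul, Complex.norm_real, Real.norm_of_nonneg (by positivity)]
    calc (σ ^ 2)⁻¹ * ‖D.J k ((n * σ : ℝ) • D.dir k) + (((n * σ) ^ 2 * D.kap k : ℝ) : ℂ)‖ ≤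
        (σ ^ 2)⁻¹ * (|n * σ| * C) ^ 3 := by gcongr
      _ = _ := by
        rw [abs_of_nonneg (by positivity)]
        field_simp
  rw [tendsto_iff_norm_sub_tendsto_zero]
  have h4 : Tendsto (fun σ : ℝ => σ * (n * C) ^ 3) (𝓝[>] 0) (𝓝 0) := by
    have : Tendsto (fun σ : ℝ => σ * (n * C) ^ 3) (𝓝[>] 0) (𝓝 (0 * (n * C) ^ 3)) :=
      (tendsto_id.mul_const _).mono_left nhdsWithin_le_nhds
    rwa [zero_mul] at this
  exact squeeze_zero' (Filter.Eventually.of_forall fun _ => norm_nonneg _) h1 h4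

/-- the averaged exponential sum -/
noncomputable def KM (k : Fin g ⊕ Fin g → ℤ) (M : ℕ) (p : TT g) : ℂ :=
  (M : ℂ)⁻¹ * ∑ n ∈ Finset.range M, chi (((n + 1 : ℕ) : ℤ) • k) p

theorem KM_le_one (k : Fin g ⊕ Fin g → ℤ) (M : ℕ) (p : TT g) : ‖KM k M p‖ ≤ 1 := by
  unfold KM
  rw [norm_mul, norm_inv, Complex.norm_natCast]
  rcases Nat.eq_zero_or_pos M with h | h
  · subst h; simp
  · have hM : (0 : ℝ) < M := by exact_mod_cast h
    rw [inv_mul_le_iff₀ hM, mul_one]
    refine (norm_sum_le _ _).trans ?_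
    simp [norm_chi]

theorem KM_le (k : Fin g ⊕ Fin g → ℤ) {M : ℕ} (hM : 0 < M) {δ : ℝ} (hδ : 0 < δ) (p : TT g)
    (hp : p ∉ strip k δ) : ‖KM k M p‖ ≤ 2 / (δ * M) := by
  have hδ' : δ ≤ ‖chi k p - 1‖ := not_lt.1 hp
  have hM' : (0 : ℝ) < M := by exact_mod_cast hM
  have h1 : chi k p - 1 ≠ 0 := norm_pos_iff.1 (hδ.trans_le hδ')
  unfold KM
  have h2 : ∑ n ∈ Finset.range M, chi (((n + 1 : ℕ) : ℤ) • k) p =
      chi k p * ((chi k p ^ M - 1) / (chi k p - 1)) := by
    rw [← geom_sum_eq (sub_ne_zero.1 h1), Finset.mul_sum]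
    refine Finset.sum_congr rfl fun n _ => ?_
    rw [chi_smul, pow_succ]
    ring
  rw [h2, norm_mul, norm_mul, norm_div, norm_chi, norm_inv, Complex.norm_natCast, one_mul]
  have h3 : ‖chi k p ^ M - 1‖ ≤ 2 := by
    refine (norm_sub_le _ _).trans ?_
    rw [norm_pow, norm_chi, one_pow, norm_one]
    norm_num
  calc (M : ℝ)⁻¹ * (‖chi k p ^ M - 1‖ / ‖chi k p - 1‖) ≤ (M : ℝ)⁻¹ * (2 / δ) := by gcongr
    _ = 2 / (δ * M) := by field_simp

theorem cesaro {k : Fin g ⊕ Fin g → ℤ} (hk0 : k ≠ 0) (hk : D.Good k) :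
    Tendsto (fun M : ℕ => (M : ℂ)⁻¹ * ∑ n ∈ Finset.range M,
      ((n + 1 : ℕ) : ℂ) ^ 2 * D.uh (((n + 1 : ℕ) : ℤ) • k)) atTop (𝓝 0) := by
  set a : ℕ → ℂ := fun M => (M : ℂ)⁻¹ * ∑ n ∈ Finset.range M,
      ((n + 1 : ℕ) : ℂ) ^ 2 * D.uh (((n + 1 : ℕ) : ℤ) • k) with ha
  have hkap := D.kap_pos hk0
  have key : ∀ ε > 0, ∃ δ > 0, ∀ M : ℕ, 0 < M →
      D.kap k * ‖a M‖ ≤ ε + 2 / (δ * M) * D.q (D.dir k) := by
    intro ε hε
    obtain ⟨δ, hδ, σ₀, hσ₀, hs⟩ := D.strip_small hk hε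
    refine ⟨δ, hδ, fun M hM => ?_⟩
    have hnk : ∀ n : ℕ, (((n + 1 : ℕ) : ℤ) • k) ≠ 0 := by
      intro n h
      rcases smul_eq_zero.1 h with h | h
      · exact absurd h (by positivity)
      · exact hk0 h
    -- the limit
    have hlim : Tendsto (fun σ : ℝ => (M : ℂ)⁻¹ * ∑ n ∈ Finset.range M,
        ((((σ ^ 2)⁻¹ : ℝ) : ℂ) * D.J (((n + 1 : ℕ) : ℤ) • k) (σ • D.dir k)) *
          D.uh (((n + 1 : ℕ) : ℤ) • k)) (𝓝[>] 0) (𝓝 (-(D.kap k : ℂ) * a M)) := by
      have h1 : -(D.kap k : ℂ) * a M = (M : ℂ)⁻¹ * ∑ n ∈ Finset.range M,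
          (-((((n + 1 : ℕ) : ℕ) : ℂ) ^ 2 * (D.kap k : ℂ))) * D.uh (((n + 1 : ℕ) : ℤ) • k) := by
        rw [ha]
        simp only
        rw [← mul_assoc, mul_comm (-(D.kap k : ℂ)) _, mul_assoc, Finset.mul_sum]
        congr 1
        refine Finset.sum_congr rfl fun n _ => ?_
        ring
      rw [h1]
      refine tendsto_const_nhds.mul (tendsto_finsetSum _ fun n _ => ?_)
      exact (D.J_tendsto k (n + 1)).mul_const _
    -- the bound
    have hbd : ∀ᶠ σ in 𝓝[>] (0 : ℝ), ‖(M : ℂ)⁻¹ * ∑ n ∈ Finset.range M,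
        ((((σ ^ 2)⁻¹ : ℝ) : ℂ) * D.J (((n + 1 : ℕ) : ℤ) • k) (σ • D.dir k)) *
          D.uh (((n + 1 : ℕ) : ℤ) • k)‖ ≤ ε + 2 / (δ * M) * D.q (D.dir k) := by
      have h1 : ∀ᶠ σ in 𝓝[>] (0 : ℝ), σ < σ₀ :=
        (gt_mem_nhds hσ₀ : ∀ᶠ σ in 𝓝 (0:ℝ), σ < σ₀).filter_mono nhdsWithin_le_nhds
      filter_upwards [h1, self_mem_nhdsWithin] with σ hσ hσ0
      have hσ0' : (0 : ℝ) < σ := hσ0
      have hint : ∀ n : ℕ, Integrable fun p =>
          chi (((n + 1 : ℕ) : ℤ) • k) p * (D.S p (σ • D.dir k) : ℂ) := fun n =>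
        (D.integrable_S _).ofReal.bdd_mul (measurable_chi _).aestronglyMeasurable
          (Filter.Eventually.of_forall fun q => (norm_chi _ q).le)
      have e1 : (M : ℂ)⁻¹ * ∑ n ∈ Finset.range M,
          ((((σ ^ 2)⁻¹ : ℝ) : ℂ) * D.J (((n + 1 : ℕ) : ℤ) • k) (σ • D.dir k)) *
            D.uh (((n + 1 : ℕ) : ℤ) • k) =
          ∫ p, KM k M p * (((σ ^ 2)⁻¹ * D.S p (σ • D.dir k) : ℝ) : ℂ) := by
        have e2 : ∀ p, KM k M p * (((σ ^ 2)⁻¹ * D.S p (σ • D.dir k) : ℝ) : ℂ) =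
            ((M : ℂ)⁻¹ * (((σ ^ 2)⁻¹ : ℝ) : ℂ)) * ∑ n ∈ Finset.range M,
              chi (((n + 1 : ℕ) : ℤ) • k) p * (D.S p (σ • D.dir k) : ℂ) := by
          intro p
          unfold KM
          rw [← Finset.sum_mul]
          push_cast
          ring
        simp_rw [e2]
        rw [integral_const_mul, integral_finsetSum _ fun n _ => hint n]
        simp_rw [D.fourier_S (hnk _)]
        have e3 : ∑ n ∈ Finset.range M,
          ((((σ ^ 2)⁻¹ : ℝ) : ℂ) * D.J (((n + 1 : ℕ) : ℤ) • k) (σ • D.dir k)) *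
            D.uh (((n + 1 : ℕ) : ℤ) • k) = (((σ ^ 2)⁻¹ : ℝ) : ℂ) * ∑ n ∈ Finset.range M,
            D.J (((n + 1 : ℕ) : ℤ) • k) (σ • D.dir k) * D.uh (((n + 1 : ℕ) : ℤ) • k) := by
          rw [Finset.mul_sum]
          exact Finset.sum_congr rfl fun n _ => by ring
        rw [e3]
        ring
      rw [e1]
      refine (norm_integral_le_integral_norm _).trans ?_
      have h3 : ∫ p, ‖KM k M p * (((σ ^ 2)⁻¹ * D.S p (σ • D.dir k) : ℝ) : ℂ)‖ ≤
          ∫ p, (D.hm k δ σ p + 2 / (δ * M) * ((σ ^ 2)⁻¹ * D.S p (σ • D.dir k))) := by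
        refine integral_mono_of_nonneg (Filter.Eventually.of_forall fun _ => norm_nonneg _)
          ((D.integrable_hm k δ σ).add (((D.integrable_S _).const_mul _).const_mul _)) ?_
        filter_upwards [D.ae_nonneg (σ • D.dir k)] with p hp
        have hpp : 0 ≤ (σ ^ 2)⁻¹ * D.S p (σ • D.dir k) := mul_nonneg (by positivity) hp
        rw [norm_mul, Complex.norm_real, Real.norm_of_nonneg hpp]
        unfold hm
        by_cases hps : p ∈ strip k δ
        · rw [indicator_of_mem hps]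
          have h4 := mul_le_mul_of_nonneg_right (KM_le_one k M p) hpp
          have h5 : 0 ≤ 2 / (δ * M) * ((σ ^ 2)⁻¹ * D.S p (σ • D.dir k)) :=
            mul_nonneg (by positivity) hpp
          linarith
        · rw [indicator_of_notMem hps, zero_add]
          exact mul_le_mul_of_nonneg_right (KM_le k hM hδ p hps) hpp
      refine h3.trans ?_
      rw [integral_add (D.integrable_hm k δ σ) (((D.integrable_S _).const_mul _).const_mul _),
        integral_const_mul, integral_const_mul, D.integral_S, D.q_smul]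
      have h6 := hs σ hσ0' hσ
      have h7 : (σ ^ 2)⁻¹ * (σ ^ 2 * D.q (D.dir k)) = D.q (D.dir k) := by
        field_simp
      rw [h7]
      linarith
    have h8 := le_of_tendsto hlim.norm hbd
    rw [norm_mul, norm_neg, Complex.norm_real, Real.norm_of_nonneg hkap.le] at h8
    exact h8
  rw [Metric.tendsto_atTop]
  intro ε hε
  obtain ⟨δ, hδ, hM⟩ := key (D.kap k * (ε / 4)) (by positivity)
  have htend : Tendsto (fun M : ℕ => 2 / (δ * M) * D.q (D.dir k)) atTop (𝓝 0) := by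
    have h1 : Tendsto (fun M : ℕ => (2 / δ * D.q (D.dir k)) / (M : ℝ)) atTop (𝓝 0) :=
      tendsto_const_div_atTop_nhds_zero_nat _
    refine h1.congr fun M => ?_
    by_cases h0 : (M : ℝ) = 0
    · rw [h0]; simp
    · field_simp
  have hev : ∀ᶠ M : ℕ in atTop, 2 / (δ * M) * D.q (D.dir k) < D.kap k * (ε / 4) :=
    htend.eventually (gt_mem_nhds (by positivity))
  obtain ⟨N, hN⟩ := Filter.eventually_atTop.1 (hev.and (Filter.eventually_gt_atTop 0))
  refine ⟨N, fun M hMN => ?_⟩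
  obtain ⟨h1, h2⟩ := hN M hMN
  have h3 := hM M h2
  rw [dist_zero_right]
  have h4 : D.kap k * ‖a M‖ < D.kap k * ε := by nlinarith
  exact lt_of_mul_lt_mul_left h4 hkap.le

end Dat

end Run7.h92
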