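import Pool.Agent.Helper540.Osgood
import Pool.Agent.Run7.h92.Cesaro

/-!
# Projections of zero sets along real directions are null
-/

namespace Run7.h92

open Complex MeasureTheory Metric Real Set Filter Topology
open Pool.Agent.Helper540 (dirD dirD_diff dirD_all_zero contDiffOn_of_differentiableOn)

theorem lip_null {R : Set (ℂ × ℝ)} {C : NNReal}
    (h : ∀ p ∈ R, ∀ q ∈ R, ‖p.1 - q.1‖ ≤ C * |p.2 - q.2|) : volume (Prod.fst '' R) = 0 := by
  classical
  have hex : ∀ t : ℝ, ∃ ξ : ℂ, (∃ η, (η, t) ∈ R) → (ξ, t) ∈ R := by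
    intro t
    by_cases ht : ∃ η, (η, t) ∈ R
    · obtain ⟨η, hη⟩ := ht
      exact ⟨η, fun _ => hη⟩
    · exact ⟨0, fun h => absurd h ht⟩
  choose f hf using hex
  have hlip : LipschitzOnWith C f (Prod.snd '' R) := by
    rw [lipschitzOnWith_iff_dist_le_mul]
    rintro _ ⟨⟨a, s⟩, ha, rfl⟩ _ ⟨⟨b, t⟩, hb, rfl⟩
    have h1 := h _ (hf s ⟨a, ha⟩) _ (hf t ⟨b, hb⟩)
    rw [dist_eq_norm, Real.dist_eq]
    exact h1
  have himg : Prod.fst '' R ⊆ f '' (Prod.snd '' R) := by
    rintro _ ⟨⟨a, s⟩, ha, rfl⟩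
    refine ⟨s, ⟨(a, s), ha, rfl⟩, ?_⟩
    have h1 := h _ (hf s ⟨a, ha⟩) _ ha
    simp only [sub_self, abs_zero, mul_zero] at h1
    exact (sub_eq_zero.1 (norm_le_zero_iff.1 h1))
  have h2 : Measure.hausdorffMeasure 2 (f '' (Prod.snd '' R)) = 0 := by
    have h3 := hlip.hausdorffMeasure_image_le (d := 2) (by norm_num)
    have h4 : Measure.hausdorffMeasure 2 (Prod.snd '' R : Set ℝ) = 0 := by
      refine hausdorffMeasure_of_dimH_lt (d := 2) ?_
      have h5 : dimH (Prod.snd '' R : Set ℝ) ≤ 1 := by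
        have h6 : dimH (Prod.snd '' R : Set ℝ) ≤ dimH (univ : Set ℝ) := dimH_mono (subset_univ _)
        rwa [Real.dimH_univ] at h6
      exact h5.trans_lt (by norm_num)
    rw [h4, mul_zero] at h3
    exact nonpos_iff_eq_zero.1 h3
  have h7 : (volume : Measure ℂ) (f '' (Prod.snd '' R)) = 0 := by
    have hH : (Measure.hausdorffMeasure (Module.finrank ℝ ℂ) : Measure ℂ).IsAddHaarMeasure :=
      inferInstance
    rw [Complex.finrank_real_complex] at hH
    have h8 := Measure.isAddLeftInvariant_eq_smul (volume : Measure ℂ)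
      (Measure.hausdorffMeasure ((2 : ℕ) : ℝ) : Measure ℂ)
    rw [h8]
    have h9 : (Measure.hausdorffMeasure ((2 : ℕ) : ℝ) : Measure ℂ) (f '' (Prod.snd '' R)) = 0 := by
      exact_mod_cast h2
    rw [Measure.smul_apply, h9, smul_zero]
  exact measure_mono_null himg h7

theorem curve_null {Ψ : ℂ × ℂ → ℂ} (hΨ : Differentiable ℂ Ψ) {J : Set ℝ}
    (hJ : ∀ t ∈ J, ∃ ξ, Ψ (ξ, (t : ℂ)) ≠ 0) : volume {ξ | ∃ t ∈ J, Ψ (ξ, (t : ℂ)) = 0} = 0 := by
  set e : ℂ × ℂ := (1, 0) with he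
  have hd : ∀ j, Differentiable ℂ (dirD Ψ e j) := fun j =>
    differentiableOn_univ.1 (dirD_diff isOpen_univ hΨ.differentiableOn e j)
  set E : ℕ → Set (ℂ × ℝ) := fun k =>
    {p | dirD Ψ e k (p.1, (p.2 : ℂ)) = 0 ∧ dirD Ψ e (k + 1) (p.1, (p.2 : ℂ)) ≠ 0} with hE
  have hsub : {ξ | ∃ t ∈ J, Ψ (ξ, (t : ℂ)) = 0} ⊆ ⋃ k, Prod.fst '' E k := by
    rintro ξ ⟨t, ht, h0⟩
    obtain ⟨ξ', hξ'⟩ := hJ t ht
    have h1 : ∃ j, dirD Ψ e j (ξ, (t : ℂ)) ≠ 0 := by
      by_contra hcon
      push Not at hcon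
      have h2 := dirD_all_zero isOpen_univ hΨ.differentiableOn (mem_univ (ξ, (t : ℂ))) hcon
      have h3 : Differentiable ℂ fun s : ℂ => Ψ ((ξ, (t : ℂ)) + s • e) := by
        have h4 : Differentiable ℂ fun s : ℂ => (ξ, (t : ℂ)) + s • e := by fun_prop
        exact hΨ.comp h4
      have h5 := (analyticU h3 univ).eqOn_zero_of_preconnected_of_frequently_eq_zero
        isPreconnected_univ (mem_univ 0) ((h2.filter_mono nhdsWithin_le_nhds).frequently)
      have h6 := h5 (mem_univ (ξ' - ξ))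
      apply hξ'
      have h7 : (ξ, (t : ℂ)) + (ξ' - ξ) • e = (ξ', (t : ℂ)) := by
        rw [he]
        ext <;> simp
      simp only [h7, Pi.zero_apply] at h6
      exact h6
    classical
    set j := Nat.find h1 with hj
    have hj1 := Nat.find_spec h1
    have hj0 : j ≠ 0 := by
      intro h
      rw [← hj, h] at hj1
      exact hj1 h0
    obtain ⟨k, hk⟩ := Nat.exists_eq_succ_of_ne_zero hj0
    refine mem_iUnion.2 ⟨k, (ξ, t), ⟨?_, ?_⟩, rfl⟩
    · by_contra h
      have := Nat.find_min h1 (m := k) (by rw [← hj]; omega)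
      exact this h
    · rw [← hj, hk] at hj1
      exact hj1
  refine measure_mono_null hsub (measure_iUnion_null fun k => ?_)
  have hloc : ∀ x ∈ E k, ∃ U ∈ 𝓝 x, volume (Prod.fst '' (E k ∩ U)) = 0 := by
    rintro ⟨ξ₀, t₀⟩ ⟨-, ha⟩
    set H := dirD Ψ e k with hH
    have hcd : ContDiff ℂ 1 H := by
      have := contDiffOn_of_differentiableOn isOpen_univ (hd k).differentiableOn 1
      rw [contDiffOn_univ] at this
      exact_mod_cast this
    have hst : HasStrictFDerivAt H (fderiv ℂ H (ξ₀, (t₀ : ℂ))) (ξ₀, (t₀ : ℂ)) :=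
      hcd.contDiffAt.hasStrictFDerivAt (by simp)
    set H' := fderiv ℂ H (ξ₀, (t₀ : ℂ)) with hH'
    have ha' : H' (1, 0) ≠ 0 := ha
    set a := H' (1, 0) with haa
    set b := H' (0, 1) with hbb
    have hapos : 0 < ‖a‖ := norm_pos_iff.2 ha'
    have hc : (0 : ℝ) < ‖a‖ / 2 := by positivity
    have h1 := hst.isLittleO.def hc
    rw [nhds_prod_eq, Filter.eventually_prod_iff] at h1
    obtain ⟨pa, hpa, pb, hpb, hab⟩ := h1
    set V := {y : ℂ × ℂ | pa y ∧ pb y} with hV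
    have hVn : V ∈ 𝓝 (ξ₀, (t₀ : ℂ)) := hpa.and hpb
    have hcont : Continuous fun p : ℂ × ℝ => (p.1, (p.2 : ℂ)) := by fun_prop
    refine ⟨(fun p : ℂ × ℝ => (p.1, (p.2 : ℂ))) ⁻¹' V, hcont.continuousAt.preimage_mem_nhds hVn, ?_⟩
    refine lip_null (C := Real.toNNReal ((‖b‖ + ‖a‖ / 2) / (‖a‖ / 2))) ?_
    rintro ⟨ξ, t⟩ ⟨⟨hp0, -⟩, hpV⟩ ⟨η, s⟩ ⟨⟨hq0, -⟩, hqV⟩
    have h2 := hab hpV.1 hqV.2
    simp only at h2 hp0 hq0 ⊢
    rw [show H (ξ, (t : ℂ)) = 0 from hp0, show H (η, (s : ℂ)) = 0 from hq0, sub_self, zero_sub,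
      norm_neg] at h2
    have h3 : (ξ, (t : ℂ)) - (η, (s : ℂ)) = (ξ - η) • ((1 : ℂ), (0 : ℂ)) +
        ((t : ℂ) - s) • ((0 : ℂ), (1 : ℂ)) := by
      ext <;> simp
    have h4 : H' ((ξ, (t : ℂ)) - (η, (s : ℂ))) = (ξ - η) * a + ((t : ℂ) - s) * b := by
      rw [h3, map_add, map_smul, map_smul, smul_eq_mul, smul_eq_mul]
    rw [h4] at h2
    have h5 : ‖(ξ, (t : ℂ)) - (η, (s : ℂ))‖ ≤ ‖ξ - η‖ + |t - s| := by
      rw [Prod.norm_def]
      have : ‖((t : ℂ) - s)‖ = |t - s| := by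
        rw [← Complex.ofReal_sub, Complex.norm_real, Real.norm_eq_abs]
      simp only [Prod.fst_sub, Prod.snd_sub, this]
      exact max_le (le_add_of_nonneg_right (abs_nonneg _)) (le_add_of_nonneg_left (norm_nonneg _))
    have h6 : ‖ξ - η‖ * ‖a‖ ≤ ‖(ξ - η) * a + ((t : ℂ) - s) * b‖ + |t - s| * ‖b‖ := by
      have : (ξ - η) * a = ((ξ - η) * a + ((t : ℂ) - s) * b) - ((t : ℂ) - s) * b := by ring
      calc ‖ξ - η‖ * ‖a‖ = ‖(ξ - η) * a‖ := (norm_mul _ _).symm
        _ = ‖((ξ - η) * a + ((t : ℂ) - s) * b) - ((t : ℂ) - s) * b‖ := by rw [← this]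
        _ ≤ ‖(ξ - η) * a + ((t : ℂ) - s) * b‖ + ‖((t : ℂ) - s) * b‖ := norm_sub_le _ _
        _ = _ := by
          rw [norm_mul ((t : ℂ) - s), ← Complex.ofReal_sub, Complex.norm_real, Real.norm_eq_abs]
    rw [Real.coe_toNNReal _ (by positivity)]
    rw [div_mul_eq_mul_div, le_div_iff₀ (by positivity)]
    nlinarith [mul_le_mul_of_nonneg_left h5 hc.le]
  choose! U hU hU0 using hloc
  obtain ⟨T, hTE, hTc, hcov⟩ := TopologicalSpace.countable_cover_nhdsWithin (f := U) (s := E k)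
    (fun x hx => mem_nhdsWithin_of_mem_nhds (hU x hx))
  have h10 : Prod.fst '' E k ⊆ ⋃ x ∈ T, Prod.fst '' (E k ∩ U x) := by
    rintro _ ⟨p, hp, rfl⟩
    obtain ⟨x, hx, hpx⟩ := mem_iUnion₂.1 (hcov hp)
    exact mem_iUnion₂.2 ⟨x, hx, p, ⟨hp, hpx⟩, rfl⟩
  exact measure_mono_null h10 ((measure_biUnion_null_iff hTc).2 fun x hx => hU0 x (hTE hx))

theorem proj_null : ∀ (n : ℕ) {Φ : (Fin n → ℂ) × ℂ → ℂ}, Differentiable ℂ Φ → ∀ (a b : ℝ),
    (∀ t ∈ Icc a b, ∃ q, Φ (q, (t : ℂ)) ≠ 0) →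
    volume {q | ∃ t ∈ Icc a b, Φ (q, (t : ℂ)) = 0} = 0 := by
  intro n
  induction n with
  | zero =>
    intro Φ _ a b h
    have : {q | ∃ t ∈ Icc a b, Φ (q, (t : ℂ)) = 0} = ∅ := by
      rw [eq_empty_iff_forall_notMem]
      rintro q ⟨t, ht, h0⟩
      obtain ⟨q', hq'⟩ := h t ht
      rw [Subsingleton.elim q' q] at hq'
      exact hq' h0
    rw [this, measure_empty]
  | succ n ih =>
    intro Φ hΦ a b h
    have hc : Continuous Φ := hΦ.continuous
    have hmain : ∀ J : Set ℝ, IsCompact J → ∀ q₀ : Fin (n + 1) → ℂ, (∃ c d : ℝ, J = Icc c d) →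
        (∀ t ∈ J, Φ (q₀, (t : ℂ)) ≠ 0) → volume {q | ∃ t ∈ J, Φ (q, (t : ℂ)) = 0} = 0 := by
      rintro J hJ q₀ ⟨c, d, rfl⟩ hq₀
      set W : Set (Fin (n + 1) → ℂ) := {q | ∃ t ∈ Icc c d, Φ (q, (t : ℂ)) = 0} with hW
      have hWc : IsClosed W := by
        have h1 : IsClosed {p : (Fin (n + 1) → ℂ) × ℝ | Φ (p.1, (p.2 : ℂ)) = 0 } := by
          refine isClosed_eq ?_ continuous_const
          exact hc.comp (by fun_prop)
        have h2 : W = Prod.fst '' ({p : (Fin (n + 1) → ℂ) × ℝ | Φ (p.1, (p.2 : ℂ)) = 0} ∩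
            (univ ×ˢ Icc c d)) := by
          ext q
          constructor
          · rintro ⟨t, ht, h0⟩
            exact ⟨(q, t), ⟨h0, mem_univ _, ht⟩, rfl⟩
          · rintro ⟨⟨q', t⟩, ⟨h0, -, ht⟩, rfl⟩
            exact ⟨t, ht, h0⟩
        rw [h2]
        rw [← isSeqClosed_iff_isClosed]
        rintro u q hu huq
        choose p hp hpu using hu
        obtain ⟨t, ht, φ, hφ, hlim⟩ := isCompact_Icc.tendsto_subseq (x := fun m => (p m).2)
          (s := Icc c d) (fun m => (hp m).2.2)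
        refine ⟨(q, t), ⟨?_, mem_univ _, ht⟩, rfl⟩
        have h3 : Tendsto (fun m => p (φ m)) atTop (𝓝 (q, t)) := by
          rw [nhds_prod_eq]
          refine Filter.Tendsto.prodMk ?_ hlim |>.congr fun m => rfl
          have h4 := huq.comp hφ.tendsto_atTop
          refine h4.congr fun m => ?_
          simp [hpu]
        exact h1.mem_of_tendsto h3 (Filter.Eventually.of_forall fun m => (hp (φ m)).1)
      have hcons : Differentiable ℂ fun p : (ℂ × (Fin n → ℂ)) => (Fin.cons p.1 p.2 : Fin (n + 1) → ℂ) := by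
        rw [differentiable_pi]
        intro i
        refine Fin.cases ?_ (fun j => ?_) i
        · simp only [Fin.cons_zero]
          fun_prop
        · simp only [Fin.cons_succ]
          fun_prop
      have hq0' : q₀ = Fin.cons (q₀ 0) (Fin.tail q₀) := (Fin.cons_self_tail q₀).symm
      -- induction hypothesis
      have h5 : volume {q' : Fin n → ℂ | ∃ t ∈ Icc c d,
          Φ ((Fin.cons (q₀ 0) q' : Fin (n + 1) → ℂ), (t : ℂ)) = 0} = 0 := by
        refine ih (Φ := fun p => Φ ((Fin.cons (q₀ 0) p.1 : Fin (n + 1) → ℂ), p.2)) ?_ c d ?_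
        · have h6 : Differentiable ℂ fun p : (Fin n → ℂ) × ℂ =>
              ((Fin.cons (q₀ 0) p.1 : Fin (n + 1) → ℂ), p.2) := by
            have h7 : Differentiable ℂ fun p : (Fin n → ℂ) × ℂ =>
                (Fin.cons (q₀ 0) p.1 : Fin (n + 1) → ℂ) := by
              have h8 : Differentiable ℂ fun p : (Fin n → ℂ) × ℂ => ((q₀ 0, p.1) : ℂ × (Fin n → ℂ)) := by
                fun_prop
              exact hcons.comp h8
            exact h7.prodMk differentiable_snd
          exact hΦ.comp h6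
        · intro t ht
          refine ⟨Fin.tail q₀, ?_⟩
          simp only [Fin.cons_self_tail]
          exact hq₀ t ht
      -- curves
      have h9 : ∀ q' : Fin n → ℂ, q' ∉ {q' : Fin n → ℂ | ∃ t ∈ Icc c d,
          Φ ((Fin.cons (q₀ 0) q' : Fin (n + 1) → ℂ), (t : ℂ)) = 0} →
          volume {ξ : ℂ | (Fin.cons ξ q' : Fin (n + 1) → ℂ) ∈ W} = 0 := by
        intro q' hq'
        refine curve_null (Ψ := fun p => Φ ((Fin.cons p.1 q' : Fin (n + 1) → ℂ), p.2)) ?_ ?_
        · have h6 : Differentiable ℂ fun p : ℂ × ℂ =>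
              ((Fin.cons p.1 q' : Fin (n + 1) → ℂ), p.2) := by
            have h7 : Differentiable ℂ fun p : ℂ × ℂ =>
                (Fin.cons p.1 q' : Fin (n + 1) → ℂ) := by
              have h8 : Differentiable ℂ fun p : ℂ × ℂ => ((p.1, q') : ℂ × (Fin n → ℂ)) := by
                fun_prop
              exact hcons.comp h8
            exact h7.prodMk differentiable_snd
          exact hΦ.comp h6
        · intro t ht
          refine ⟨q₀ 0, fun h0 => hq' ⟨t, ht, h0⟩⟩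
      -- Fubini
      have hmp := volume_preserving_piFinSuccAbove (fun _ : Fin (n + 1) => ℂ) 0
      set eq := MeasurableEquiv.piFinSuccAbove (fun _ : Fin (n + 1) => ℂ) 0 with heq
      set W' : Set (ℂ × (Fin n → ℂ)) := {p | (Fin.cons p.1 p.2 : Fin (n + 1) → ℂ) ∈ W} with hW'
      have hW'm : MeasurableSet W' := by
        have : Continuous fun p : (ℂ × (Fin n → ℂ)) => (Fin.cons p.1 p.2 : Fin (n + 1) → ℂ) :=
          hcons.continuous
        exact (hWc.preimage this).measurableSet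
      have hWW : W = eq ⁻¹' W' := by
        ext q
        have : (Fin.cons (eq q).1 (eq q).2 : Fin (n + 1) → ℂ) = q := by
          funext i
          refine Fin.cases ?_ (fun j => ?_) i
          · rfl
          · rfl
        simp only [mem_preimage, hW', mem_ofPred_eq, this]
      rw [hWW, hmp.measure_preimage hW'm.nullMeasurableSet]
      have hsw : (volume : Measure (ℂ × (Fin n → ℂ))) W' =
          (volume : Measure ((Fin n → ℂ) × ℂ)) (Prod.swap ⁻¹' W') := by
        have := (Measure.measurePreserving_swap (μ := (volume : Measure (Fin n → ℂ)))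
          (ν := (volume : Measure ℂ))).measure_preimage hW'm.nullMeasurableSet
        exact this.symm
      rw [hsw]
      have hfin := (Measure.measure_prod_null (μ := (volume : Measure (Fin n → ℂ)))
        (ν := (volume : Measure ℂ)) (s := Prod.swap ⁻¹' W') (measurable_swap hW'm)).2 ?_
      · exact hfin
      · have h10 : ∀ᵐ q' : Fin n → ℂ, q' ∉ {q' : Fin n → ℂ | ∃ t ∈ Icc c d,
          Φ ((Fin.cons (q₀ 0) q' : Fin (n + 1) → ℂ), (t : ℂ)) = 0} := by
          rw [ae_iff]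
          refine measure_mono_null (fun q' hq' => ?_) h5
          simpa only [not_not, mem_ofPred_eq] using hq'
        filter_upwards [h10] with q' hq'
        exact h9 q' hq'
    -- cover
    have hcov : ∀ S : Set ℝ, (S ⊆ Icc a b) → ∀ t₀ ∈ Icc a b, ∃ V ∈ 𝓝[Icc a b] t₀,
        volume {q | ∃ t ∈ V, Φ (q, (t : ℂ)) = 0} = 0 := by
      intro _ _ t₀ ht₀
      obtain ⟨q₀, hq₀⟩ := h t₀ ht₀
      have hct : Continuous fun t : ℝ => Φ (q₀, (t : ℂ)) := hc.comp (by fun_prop)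
      have h1 : ∀ᶠ t : ℝ in 𝓝 t₀, Φ (q₀, (t : ℂ)) ≠ 0 := hct.continuousAt.eventually_ne hq₀
      obtain ⟨ρ, hρ, hball⟩ := Metric.nhds_basis_closedBall.mem_iff.1 h1
      rw [Real.closedBall_eq_Icc] at hball
      refine ⟨Icc (t₀ - ρ) (t₀ + ρ), mem_nhdsWithin_of_mem_nhds (Icc_mem_nhds (by linarith) (by linarith)), ?_⟩
      exact hmain _ isCompact_Icc q₀ ⟨_, _, rfl⟩ fun t ht => hball ht
    refine isCompact_Icc.induction_on (s := Icc a b)
      (p := fun S : Set ℝ => volume {q | ∃ t ∈ S, Φ (q, (t : ℂ)) = 0} = 0) ?_ ?_ ?_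
      (fun t ht => hcov ∅ (empty_subset _) t ht)
    · simp
    · intro s t hst ht
      refine measure_mono_null ?_ ht
      rintro q ⟨x, hx, h0⟩
      exact ⟨x, hst hx, h0⟩
    · intro s t hs ht
      refine measure_mono_null ?_ (measure_union_null hs ht)
      rintro q ⟨x, hx | hx, h0⟩
      · exact Or.inl ⟨x, hx, h0⟩
      · exact Or.inr ⟨x, hx, h0⟩

theorem proj_null_univ {n : ℕ} {Φ : (Fin n → ℂ) × ℂ → ℂ} (hΦ : Differentiable ℂ Φ)
    (h : ∀ t : ℝ, ∃ q, Φ (q, (t : ℂ)) ≠ 0) :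
    volume {q | ∃ t : ℝ, Φ (q, (t : ℂ)) = 0} = 0 := by
  have h1 : {q | ∃ t : ℝ, Φ (q, (t : ℂ)) = 0} ⊆
      ⋃ m : ℕ, {q | ∃ t ∈ Icc (-(m : ℝ)) m, Φ (q, (t : ℂ)) = 0} := by
    rintro q ⟨t, ht⟩
    obtain ⟨m, hm⟩ := exists_nat_ge |t|
    exact mem_iUnion.2 ⟨m, t, abs_le.1 hm, ht⟩
  exact measure_mono_null h1 (measure_iUnion_null fun m => proj_null n hΦ _ _ fun t _ => h t)

namespace Dat

variable {g : ℕ} (D : Dat g)

/-- the function vanishes on an affine complex hyperplane of direction `k` -/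
def Flat (k : Fin g ⊕ Fin g → ℤ) : Prop :=
  ∃ a b : ℝ, ∀ z : Fin g → ℂ, dt k (D.A.symm z) = b → dt k (D.A.symm (I • z)) = a → D.f z = 0

/-- the real linear functional -/
noncomputable def Lam (k : Fin g ⊕ Fin g → ℤ) : (Fin g → ℂ) →ₗ[ℝ] ℝ where
  toFun z := dt k (D.A.symm z)
  map_add' a b := by
    rw [map_add]
    unfold dt
    rw [← Finset.sum_add_distrib]
    exact Finset.sum_congr rfl fun i _ => by simp [mul_add]
  map_smul' r a := by
    rw [map_smul]
    unfold dt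
    rw [RingHom.id_apply, smul_eq_mul, Finset.mul_sum]
    exact Finset.sum_congr rfl fun i _ => by simp; ring

/-- the complex linear functional with imaginary part `Lam` -/
noncomputable def Ell (k : Fin g ⊕ Fin g → ℤ) : (Fin g → ℂ) →ₗ[ℂ] ℂ where
  toFun z := (D.Lam k (I • z) : ℂ) + I * (D.Lam k z : ℂ)
  map_add' a b := by
    rw [smul_add, map_add, map_add]
    push_cast
    ring
  map_smul' c z := by
    have h1 : c • z = c.re • z + c.im • (I • z) := by
      conv_lhs => rw [← Complex.re_add_im c]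
      rw [add_smul, mul_smul]
      simp
    have h2 : I • c • z = c.re • (I • z) - c.im • z := by
      rw [h1, smul_add, smul_comm I c.re, smul_comm I c.im, ← mul_smul I I, I_mul_I]
      simp [sub_eq_add_neg]
    have e1 : D.Lam k (c.re • (I • z) - c.im • z) = c.re * D.Lam k (I • z) - c.im * D.Lam k z := by
      rw [map_sub, map_smul (D.Lam k) c.re (I • z), map_smul (D.Lam k) c.im z]
      rfl
    have e2 : D.Lam k (c.re • z + c.im • (I • z)) = c.re * D.Lam k z + c.im * D.Lam k (I • z) := by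
      rw [map_add, map_smul (D.Lam k) c.re z, map_smul (D.Lam k) c.im (I • z)]
      rfl
    rw [h2, h1, e1, e2, RingHom.id_apply, smul_eq_mul]
    conv_rhs => rw [← Complex.re_add_im c]
    push_cast
    linear_combination (-(c.im : ℂ) * (D.Lam k z : ℂ)) * I_sq

theorem Ell_eq_iff (k : Fin g ⊕ Fin g → ℤ) (z : Fin g → ℂ) (a b : ℝ) :
    D.Ell k z = (a : ℂ) + I * (b : ℂ) ↔ D.Lam k (I • z) = a ∧ D.Lam k z = b := by
  have : D.Ell k z = (D.Lam k (I • z) : ℂ) + I * (D.Lam k z : ℂ) := rfl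
  rw [this]
  constructor
  · intro h
    have h1 := congrArg Complex.re h
    have h2 := congrArg Complex.im h
    simp at h1 h2
    exact ⟨h1, h2⟩
  · rintro ⟨rfl, rfl⟩
    rfl

theorem good_of_not_flat {k : Fin g ⊕ Fin g → ℤ} (hk0 : k ≠ 0) (hk : ¬ D.Flat k) : D.Good k := by
  unfold Good
  set e := D.dir k with he
  have hLe : 0 < D.Lam k e := by
    have := D.lam_one_pos hk0
    rw [lam_apply, one_smul] at this
    exact this
  have hne : D.Ell k e ≠ 0 := by
    intro h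
    have h1 : D.Ell k e = ((0 : ℝ) : ℂ) + I * ((0 : ℝ) : ℂ) := by rw [h]; simp
    have h2 := ((D.Ell_eq_iff k e 0 0).1 h1).2
    exact hLe.ne' h2
  have hs : ∀ s : ℤ, ∀ᵐ x : XX g, ∀ w : ℂ, dt k (x + D.A.symm (w • e)) = s →
      D.f (D.A x + w • e) ≠ 0 := by
    intro s
    set Φ : (Fin g → ℂ) × ℂ → ℂ := fun p =>
      D.f (p.1 - (D.Ell k p.1 / D.Ell k e) • e + ((p.2 + I * (s : ℂ)) / D.Ell k e) • e) with hΦ
    have hEc : Differentiable ℂ (D.Ell k) := (LinearMap.toContinuousLinearMap (D.Ell k)).differentiable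
    have hΦd : Differentiable ℂ Φ := by
      have h1 : Differentiable ℂ fun p : (Fin g → ℂ) × ℂ =>
          p.1 - (D.Ell k p.1 / D.Ell k e) • e + ((p.2 + I * (s : ℂ)) / D.Ell k e) • e := by
        have h2 : Differentiable ℂ fun p : (Fin g → ℂ) × ℂ => D.Ell k p.1 :=
          hEc.comp differentiable_fst
        fun_prop
      exact D.hf.comp h1
    have hval : ∀ (z : Fin g → ℂ) (w : ℂ), D.Lam k (z + w • e) = s →
        Φ (z, ((D.Lam k (I • (z + w • e)) : ℝ) : ℂ)) = D.f (z + w • e) := by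
      intro z w hzw
      have h1 : D.Ell k (z + w • e) = ((D.Lam k (I • (z + w • e)) : ℝ) : ℂ) + I * ((s : ℝ) : ℂ) :=
        (D.Ell_eq_iff k _ _ _).2 ⟨rfl, hzw⟩
      have h2 : ((D.Lam k (I • (z + w • e)) : ℝ) : ℂ) + I * ((s : ℤ) : ℂ) = D.Ell k z + w * D.Ell k e := by
        rw [← smul_eq_mul w, ← map_smul, ← map_add, h1]
        push_cast
        rfl
      rw [hΦ]
      simp only
      rw [h2]
      congr 1
      rw [add_div, mul_div_assoc, div_self hne, mul_one, add_smul]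
      abel
    have hnz : ∀ t : ℝ, ∃ z, Φ (z, (t : ℂ)) ≠ 0 := by
      intro t
      have h1 : ¬ ∀ z : Fin g → ℂ, dt k (D.A.symm z) = s → dt k (D.A.symm (I • z)) = t → D.f z = 0 :=
        fun h => hk ⟨t, s, h⟩
      push Not at h1
      obtain ⟨z, hz1, hz2, hz3⟩ := h1
      refine ⟨z, ?_⟩
      have h3 := hval z 0 (by rw [zero_smul, add_zero]; exact hz1)
      simp only [zero_smul, add_zero] at h3
      have h4 : D.Lam k (I • z) = t := hz2
      rw [h4] at h3
      rw [h3]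
      exact hz3
    have hnull := proj_null_univ hΦd hnz
    have h5 := D.null_A hnull
    have h6 : ∀ᵐ x : XX g, D.A x ∉ {q | ∃ t : ℝ, Φ (q, (t : ℂ)) = 0} := by
      rw [ae_iff]
      refine measure_mono_null (fun q' hq' => ?_) h5
      exact not_not.1 hq'
    filter_upwards [h6] with x hx w hw h0
    apply hx
    have h7 : D.Lam k (D.A x + w • e) = s := by
      have : D.A.symm (D.A x + w • e) = x + D.A.symm (w • e) := by
        rw [map_add, LinearEquiv.symm_apply_apply]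
      show dt k (D.A.symm (D.A x + w • e)) = s
      rw [this]
      exact hw
    refine ⟨D.Lam k (I • (D.A x + w • e)), ?_⟩
    rw [hval _ _ h7, h0]
  have := (ae_all_iff.2 hs)
  filter_upwards [this] with x hx w hw
  obtain ⟨s, hs'⟩ := hw
  exact hx s w hs'

end Dat

end Run7.h92
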