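import Pool.Agent.Run7.h92.Abs1
import Pool.Agent.Run7.h92.Null

/-!
# Projections of zero sets over null sets are null: several variables
-/

namespace Run7.h92

open Complex MeasureTheory Metric Real Set Filter Topology

theorem cons_diff (n : ℕ) :
    Differentiable ℂ fun p : (ℂ × (Fin n → ℂ)) => (Fin.cons p.1 p.2 : Fin (n + 1) → ℂ) := by
  rw [differentiable_pi]
  intro i
  refine Fin.cases ?_ (fun j => ?_) i
  · simp only [Fin.cons_zero]
    fun_prop
  · simp only [Fin.cons_succ]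
    fun_prop

/-- a decreasing sequence of open sets around a null set, with null intersection -/
theorem open_approx {B : Set ℂ} (hB : volume B = 0) : ∃ O : ℕ → Set ℂ, (∀ m, IsOpen (O m)) ∧
    Antitone O ∧ (∀ m, B ⊆ O m) ∧ volume (⋂ m, O m) = 0 := by
  have h1 : ∀ m : ℕ, ∃ U ⊇ B, IsOpen U ∧ volume U < ENNReal.ofReal (1 / ((m : ℝ) + 1)) := fun m =>
    Set.exists_isOpen_lt_of_lt B _ (by rw [hB]; exact ENNReal.ofReal_pos.2 (by positivity))
  choose U hU1 hU2 hU3 using h1
  refine ⟨fun m => ⋂ i ∈ Finset.range (m + 1), U i, ?_, ?_, ?_, ?_⟩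
  · intro m
    exact isOpen_biInter_finset fun i _ => hU2 i
  · intro a b hab
    refine biInter_subset_biInter_left ?_
    intro i hi
    have := Finset.mem_range.1 hi
    exact Finset.mem_range.2 (by omega)
  · intro m
    exact subset_iInter₂ fun i _ => hU1 i
  · refine le_antisymm (ge_of_tendsto' (f := fun m : ℕ => ENNReal.ofReal (1 / ((m : ℝ) + 1)))
      (x := atTop) ?_ fun m => ?_) zero_le
    · have := tendsto_one_div_add_atTop_nhds_zero_nat (𝕜 := ℝ)
      have h2 := ENNReal.tendsto_ofReal this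
      rwa [ENNReal.ofReal_zero] at h2
    · refine (measure_mono ?_).trans (hU3 m).le
      refine (iInter_subset _ m).trans ?_
      exact biInter_subset_of_mem (Finset.mem_coe.2 (Finset.self_mem_range_succ m))

theorem proj_null2 : ∀ (n : ℕ) {Φ : (Fin n → ℂ) × ℂ → ℂ}, Differentiable ℂ Φ → ∀ B : Set ℂ,
    volume B = 0 → (∀ t ∈ B, ∃ q, Φ (q, t) ≠ 0) → volume {q | ∃ t ∈ B, Φ (q, t) = 0} = 0 := by
  intro n
  induction n with
  | zero =>
    intro Φ _ B _ h
    have : {q | ∃ t ∈ B, Φ (q, t) = 0} = ∅ := by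
      rw [eq_empty_iff_forall_notMem]
      rintro q ⟨t, ht, h0⟩
      obtain ⟨q', hq'⟩ := h t ht
      rw [Subsingleton.elim q' q] at hq'
      exact hq' h0
    rw [this, measure_empty]
  | succ n ih =>
    intro Φ hΦ B hB h
    have hc : Continuous Φ := hΦ.continuous
    have hcons := cons_diff n
    -- local statement
    have hmain : ∀ (c₀ : ℂ) (ρ : ℝ) (q₀ : Fin (n + 1) → ℂ), 0 < ρ →
        (∀ t ∈ closedBall c₀ ρ, Φ (q₀, t) ≠ 0) → ∀ B' : Set ℂ, volume B' = 0 →
          B' ⊆ closedBall c₀ ρ → volume {q | ∃ t ∈ B', Φ (q, t) = 0} = 0 := by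
      intro c₀ ρ q₀ hρ hq₀ B' hB' hB'K
      set K := closedBall c₀ ρ with hK
      have hKc : IsCompact K := isCompact_closedBall _ _
      obtain ⟨O, hO1, hO2, hO3, hO4⟩ := open_approx hB'
      set W : Set (Fin (n + 1) → ℂ) := ⋂ m, {q | ∃ t ∈ O m ∩ K, Φ (q, t) = 0} with hW
      have hWm : MeasurableSet W := MeasurableSet.iInter fun m => meas_proj hc hKc (hO1 m)
      have hsub : {q | ∃ t ∈ B', Φ (q, t) = 0} ⊆ W := by
        rintro q ⟨t, ht, h0⟩
        exact mem_iInter.2 fun m => ⟨t, ⟨hO3 m ht, hB'K ht⟩, h0⟩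
      refine measure_mono_null hsub ?_
      have hq0' : q₀ = Fin.cons (q₀ 0) (Fin.tail q₀) := (Fin.cons_self_tail q₀).symm
      set Φ1 : (Fin n → ℂ) × ℂ → ℂ := fun p => Φ ((Fin.cons (q₀ 0) p.1 : Fin (n + 1) → ℂ), p.2)
        with hΦ1
      have hΦ1d : Differentiable ℂ Φ1 := by
        have h6 : Differentiable ℂ fun p : (Fin n → ℂ) × ℂ =>
            ((Fin.cons (q₀ 0) p.1 : Fin (n + 1) → ℂ), p.2) := by
          have h7 : Differentiable ℂ fun p : (Fin n → ℂ) × ℂ =>
              (Fin.cons (q₀ 0) p.1 : Fin (n + 1) → ℂ) := by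
            have h8 : Differentiable ℂ fun p : (Fin n → ℂ) × ℂ => ((q₀ 0, p.1) : ℂ × (Fin n → ℂ)) := by
              fun_prop
            exact hcons.comp h8
          exact h7.prodMk differentiable_snd
        exact hΦ.comp h6
      have hΦ1n : ∀ t ∈ K, ∃ q, Φ1 (q, t) ≠ 0 := by
        intro t ht
        refine ⟨Fin.tail q₀, ?_⟩
        rw [hΦ1]
        simp only [Fin.cons_self_tail]
        exact hq₀ t ht
      have hc0K : c₀ ∈ K := mem_closedBall_self hρ.le
      have h5 := ih hΦ1d ((⋂ m, O m) ∩ K) (measure_mono_null inter_subset_left hO4)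
        (fun t ht => hΦ1n t ht.2)
      have h5' := ih hΦ1d {c₀} (by simp) (fun t ht => hΦ1n t (by rw [mem_singleton_iff.1 ht]; exact hc0K))
      -- sections
      have h9 : ∀ q' : Fin n → ℂ, q' ∉ {q | ∃ t ∈ (⋂ m, O m) ∩ K, Φ1 (q, t) = 0} →
          q' ∉ {q | ∃ t ∈ ({c₀} : Set ℂ), Φ1 (q, t) = 0} →
          volume {ξ : ℂ | (Fin.cons ξ q' : Fin (n + 1) → ℂ) ∈ W} = 0 := by
        intro q' hq' hq''
        set Ψ : ℂ × ℂ → ℂ := fun p => Φ ((Fin.cons p.1 q' : Fin (n + 1) → ℂ), p.2) with hΨ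
        have hΨd : Differentiable ℂ Ψ := by
          have h6 : Differentiable ℂ fun p : ℂ × ℂ =>
              ((Fin.cons p.1 q' : Fin (n + 1) → ℂ), p.2) := by
            have h7 : Differentiable ℂ fun p : ℂ × ℂ =>
                (Fin.cons p.1 q' : Fin (n + 1) → ℂ) := by
              have h8 : Differentiable ℂ fun p : ℂ × ℂ => ((p.1, q') : ℂ × (Fin n → ℂ)) := by
                fun_prop
              exact hcons.comp h8
            exact h7.prodMk differentiable_snd
          exact hΦ.comp h6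
        have a1 := curve_null2 hΨd (B := (⋂ m, O m) ∩ K) (measure_mono_null inter_subset_left hO4)
          (fun t ht => ⟨q₀ 0, fun h0 => hq' ⟨t, ht, h0⟩⟩)
        have a2 := curve_null2 hΨd (B := {c₀}) (by simp)
          (fun t ht => ⟨q₀ 0, fun h0 => hq'' ⟨t, ht, h0⟩⟩)
        refine measure_mono_null ?_ (measure_union_null a1 a2)
        intro ξ hξ
        by_cases hz : Ψ (ξ, c₀) = 0
        · exact Or.inr ⟨c₀, rfl, hz⟩
        · left
          have hF : Differentiable ℂ fun t : ℂ => Ψ (ξ, t) := by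
            have h8 : Differentiable ℂ fun t : ℂ => ((ξ, t) : ℂ × ℂ) := by fun_prop
            exact hΨd.comp h8
          have hfin := zeros_finite hF ⟨c₀, hz⟩ c₀ ρ
          by_contra hcon
          have hcon2 : ∀ t ∈ {u ∈ closedBall c₀ ρ | Ψ (ξ, u) = 0}, ∃ m, t ∉ O m := by
            rintro t ⟨ht1, ht2⟩
            by_contra hno
            push Not at hno
            exact hcon ⟨t, ⟨mem_iInter.2 hno, ht1⟩, ht2⟩
          choose! mm hmm using hcon2
          obtain ⟨Mx, hMx⟩ := (hfin.image mm).bddAbove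
          have hξM := mem_iInter.1 hξ Mx
          obtain ⟨t, ⟨ht1, ht2⟩, ht3⟩ := hξM
          have hmem : t ∈ {u ∈ closedBall c₀ ρ | Ψ (ξ, u) = 0} := ⟨ht2, ht3⟩
          exact hmm t hmem (hO2 (hMx (mem_image_of_mem mm hmem)) ht1)
      -- Fubini
      have hmp := volume_preserving_piFinSuccAbove (fun _ : Fin (n + 1) => ℂ) 0
      set eq := MeasurableEquiv.piFinSuccAbove (fun _ : Fin (n + 1) => ℂ) 0 with heq
      set W' : Set (ℂ × (Fin n → ℂ)) := {p | (Fin.cons p.1 p.2 : Fin (n + 1) → ℂ) ∈ W} with hW'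
      have hW'm : MeasurableSet W' := by
        have : Continuous fun p : (ℂ × (Fin n → ℂ)) => (Fin.cons p.1 p.2 : Fin (n + 1) → ℂ) :=
          hcons.continuous
        exact this.measurable hWm
      have hWW : W = eq ⁻¹' W' := by
        ext q
        have : (Fin.cons (eq q).1 (eq q).2 : Fin (n + 1) → ℂ) = q := by
          funext i
          refine Fin.cases ?_ (fun j => ?_) i
          · rfl
          · rfl
        simp only [mem_preimage, hW', mem_ofPred_eq, this]
      rw [hWW, hmp.measure_preimage hW'm.nullMeasurableSet]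
      have hsw : (volume : Measure (ℂ × (Fin n → ℂ))) W' =
          (volume : Measure ((Fin n → ℂ) × ℂ)) (Prod.swap ⁻¹' W') := by
        have := (Measure.measurePreserving_swap (μ := (volume : Measure (Fin n → ℂ)))
          (ν := (volume : Measure ℂ))).measure_preimage hW'm.nullMeasurableSet
        exact this.symm
      rw [hsw]
      have hfin := (Measure.measure_prod_null (μ := (volume : Measure (Fin n → ℂ)))
        (ν := (volume : Measure ℂ)) (s := Prod.swap ⁻¹' W') (measurable_swap hW'm)).2 ?_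
      · exact hfin
      · have b1 : ∀ᵐ q' : Fin n → ℂ, q' ∉ {q | ∃ t ∈ (⋂ m, O m) ∩ K, Φ1 (q, t) = 0} := by
          rw [ae_iff]
          refine measure_mono_null (fun q' hq' => ?_) h5
          simpa only [not_not, mem_ofPred_eq] using hq'
        have b2 : ∀ᵐ q' : Fin n → ℂ, q' ∉ {q | ∃ t ∈ ({c₀} : Set ℂ), Φ1 (q, t) = 0} := by
          rw [ae_iff]
          refine measure_mono_null (fun q' hq' => ?_) h5'
          simpa only [not_not, mem_ofPred_eq] using hq'
        filter_upwards [b1, b2] with q' hq' hq''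
        exact h9 q' hq' hq''
    -- cover
    have hcov : ∀ c ∈ B, ∃ U ∈ 𝓝 c, volume {q | ∃ t ∈ B ∩ U, Φ (q, t) = 0} = 0 := by
      intro c₀ hc₀
      obtain ⟨q₀, hq₀⟩ := h c₀ hc₀
      have hct : Continuous fun t : ℂ => Φ (q₀, t) := hc.comp (by fun_prop)
      have h1 : ∀ᶠ t : ℂ in 𝓝 c₀, Φ (q₀, t) ≠ 0 := hct.continuousAt.eventually_ne hq₀
      obtain ⟨ρ, hρ, hball⟩ := Metric.nhds_basis_closedBall.mem_iff.1 h1
      refine ⟨closedBall c₀ ρ, closedBall_mem_nhds _ hρ, ?_⟩
      exact hmain c₀ ρ q₀ hρ (fun t ht => hball ht) _ (measure_mono_null inter_subset_left hB)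
        inter_subset_right
    choose! U hU hU0 using hcov
    obtain ⟨T, hTB, hTc, hcov2⟩ := TopologicalSpace.countable_cover_nhdsWithin (f := U) (s := B)
      (fun x hx => mem_nhdsWithin_of_mem_nhds (hU x hx))
    have h10 : {q | ∃ t ∈ B, Φ (q, t) = 0} ⊆ ⋃ x ∈ T, {q | ∃ t ∈ B ∩ U x, Φ (q, t) = 0} := by
      rintro q ⟨t, ht, h0⟩
      obtain ⟨x, hx, hpx⟩ := mem_iUnion₂.1 (hcov2 ht)
      exact mem_iUnion₂.2 ⟨x, hx, t, ⟨ht, hpx⟩, h0⟩
    exact measure_mono_null h10 ((measure_biUnion_null_iff hTc).2 fun x hx => hU0 x (hTB hx))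

theorem null_strip {E : Set ℝ} (hE : volume E = 0) : volume {c : ℂ | c.im ∈ E} = 0 := by
  obtain ⟨E', hE1, hE2, hE3⟩ := exists_measurable_superset_of_null hE
  have h1 : {c : ℂ | c.im ∈ E} ⊆ Complex.measurableEquivRealProd ⁻¹' (univ ×ˢ E') := by
    intro c hc
    exact ⟨mem_univ _, hE1 hc⟩
  refine measure_mono_null h1 ?_
  rw [Complex.volume_preserving_equiv_real_prod.measure_preimage
    (MeasurableSet.univ.prod hE2).nullMeasurableSet]
  show (volume : Measure (ℝ × ℝ)) (univ ×ˢ E') = 0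
  rw [Measure.volume_eq_prod, Measure.prod_prod, hE3, mul_zero]

namespace Dat

variable {g : ℕ} (D : Dat g)

/-- almost every line avoids the zeros with real coordinate in a null set -/
theorem good_null {k : Fin g ⊕ Fin g → ℤ} (hk0 : k ≠ 0) (hk : ¬ D.Flat k) {E : Set ℝ}
    (hE : volume E = 0) :
    ∀ᵐ x : XX g, ∀ w : ℂ, dt k (x + D.A.symm (w • D.dir k)) ∈ E →
      D.f (D.A x + w • D.dir k) ≠ 0 := by
  set e := D.dir k with he
  have hLe : 0 < D.Lam k e := by
    have := D.lam_one_pos hk0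
    rw [lam_apply, one_smul] at this
    exact this
  have hne : D.Ell k e ≠ 0 := by
    intro h
    have h1 : D.Ell k e = ((0 : ℝ) : ℂ) + I * ((0 : ℝ) : ℂ) := by rw [h]; simp
    have h2 := ((D.Ell_eq_iff k e 0 0).1 h1).2
    exact hLe.ne' h2
  set Φ : (Fin g → ℂ) × ℂ → ℂ := fun p =>
    D.f (p.1 - (D.Ell k p.1 / D.Ell k e) • e + (p.2 / D.Ell k e) • e) with hΦ
  have hEc : Differentiable ℂ (D.Ell k) := (LinearMap.toContinuousLinearMap (D.Ell k)).differentiable
  have hΦd : Differentiable ℂ Φ := by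
    have h1 : Differentiable ℂ fun p : (Fin g → ℂ) × ℂ =>
        p.1 - (D.Ell k p.1 / D.Ell k e) • e + (p.2 / D.Ell k e) • e := by
      have h2 : Differentiable ℂ fun p : (Fin g → ℂ) × ℂ => D.Ell k p.1 :=
        hEc.comp differentiable_fst
      fun_prop
    exact D.hf.comp h1
  have hval : ∀ (z : Fin g → ℂ) (w : ℂ), Φ (z, D.Ell k (z + w • e)) = D.f (z + w • e) := by
    intro z w
    rw [hΦ]
    simp only
    rw [map_add, map_smul, smul_eq_mul]
    congr 1
    rw [add_div, mul_div_assoc, div_self hne, mul_one, add_smul]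
    abel
  have hnz : ∀ c : ℂ, ∃ z, Φ (z, c) ≠ 0 := by
    intro c
    have h1 : ¬ ∀ z : Fin g → ℂ, dt k (D.A.symm z) = c.im → dt k (D.A.symm (I • z)) = c.re →
        D.f z = 0 := fun h => hk ⟨c.re, c.im, h⟩
    push Not at h1
    obtain ⟨z, hz1, hz2, hz3⟩ := h1
    refine ⟨z, ?_⟩
    have h3 := hval z 0
    rw [zero_smul, add_zero] at h3
    have h4 : D.Ell k z = c := by
      have := (D.Ell_eq_iff k z c.re c.im).2 ⟨hz2, hz1⟩
      rw [this, mul_comm]
      exact Complex.re_add_im c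
    rw [h4] at h3
    rw [h3]
    exact hz3
  have hnull := proj_null2 g hΦd {c : ℂ | c.im ∈ E} (null_strip hE) fun t _ => hnz t
  have h5 := D.null_A hnull
  have h6 : ∀ᵐ x : XX g, D.A x ∉ {q | ∃ t ∈ {c : ℂ | c.im ∈ E}, Φ (q, t) = 0} := by
    rw [ae_iff]
    refine measure_mono_null (fun q' hq' => ?_) h5
    exact not_not.1 hq'
  filter_upwards [h6] with x hx w hw h0
  apply hx
  refine ⟨D.Ell k (D.A x + w • e), ?_, ?_⟩
  · have h7 : D.A.symm (D.A x + w • e) = x + D.A.symm (w • e) := by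
      rw [map_add, LinearEquiv.symm_apply_apply]
    have h8 := ((D.Ell_eq_iff k (D.A x + w • e) (D.Lam k (I • (D.A x + w • e)))
      (D.Lam k (D.A x + w • e))).2 ⟨rfl, rfl⟩)
    show (D.Ell k (D.A x + w • e)).im ∈ E
    rw [h8]
    have h9 : D.Lam k (D.A x + w • e) = dt k (x + D.A.symm (w • e)) := by
      rw [← h7]
      rfl
    rw [h9]
    simpa using hw
  · rw [hval, h0]

end Dat

end Run7.h92
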