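import Pool.Agent.Run7.h92.Strip

/-!
# The mass of the gap on thin sets
-/

namespace Run7.h92

open Complex MeasureTheory Metric Real Set Filter Topology

variable {g : ℕ}

namespace Dat

variable (D : Dat g)

/-- the function integrated over thin sets -/
noncomputable def hE (k : Fin g ⊕ Fin g → ℤ) (E : Set (TT g)) (σ : ℝ) (p : TT g) : ℝ :=
  indicator E (fun p => (σ ^ 2)⁻¹ * D.S p (σ • D.dir k)) p

theorem integrable_hE (k : Fin g ⊕ Fin g → ℤ) {E : Set (TT g)} (hE : MeasurableSet E) (σ : ℝ) :
    Integrable (D.hE k E σ) :=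
  ((D.integrable_S _).const_mul _).indicator hE

theorem thin_small (k : Fin g ⊕ Fin g → ℤ) (E : ℕ → Set (TT g)) (hEm : ∀ m, MeasurableSet (E m))
    (σ : ℕ → ℝ) (hσ0 : ∀ m, 0 < σ m) (hσ1 : ∀ m, σ m ≤ 1)
    (hav : ∀ᵐ p : TT g, ∀ z ∈ {u ∈ closedBall (0:ℂ) 2 | D.f (D.A (rep p) + u • D.dir k) = 0},
      ∀ᶠ m in atTop, ∀ w : ℂ, ‖w - z‖ ≤ σ m → p + D.dis (w • D.dir k) ∉ E m) :
    Tendsto (fun m => ∫ p, D.hE k (E m) (σ m) p) atTop (𝓝 0) := by
  set cB : Set ℂ := closedBall 0 1 with hcB
  have hcBfin : volume cB < ⊤ := measure_closedBall_lt_top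
  have hfinm : IsFiniteMeasure (volume.restrict cB) := ⟨by rw [Measure.restrict_apply_univ]; exact hcBfin⟩
  set e := D.dir k with he
  have hTm : Measurable (Function.uncurry fun (w : ℂ) (p : TT g) => p + D.dis (w • e)) := by
    have h1 : Measurable fun q : ℂ × TT g => q.1 • e := by
      have : Continuous fun w : ℂ => w • e := by fun_prop
      exact this.measurable.comp measurable_fst
    exact measurable_snd.add (D.measurable_dis.comp h1)
  set Im : ℕ → TT g → ℝ := fun m p => ∫ w in cB, D.hE k (E m) (σ m) (p + D.dis (w • e)) with hIm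
  have hgen := fun m => avg_gen (ν := volume.restrict cB) (fun (w : ℂ) (p : TT g) => p + D.dis (w • e))
    hTm (fun _ => tr_mp _) (D.integrable_hE k (hEm m) (σ m))
  have hval : ∀ m, ∫ p, Im m p = (volume.restrict cB).real univ * ∫ p, D.hE k (E m) (σ m) p :=
    fun m => (hgen m).2.2
  have hvpos : 0 < (volume.restrict cB).real univ := by
    rw [measureReal_restrict_apply_univ, measureReal_def]
    exact ENNReal.toReal_pos (measure_closedBall_pos _ _ one_pos).ne' hcBfin.ne
  -- pointwise description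
  have hpt : ∀ p : TT g, D.f (D.A (rep p)) ≠ 0 → ∀ m, ∀ᵐ w ∂(volume.restrict cB),
      D.hE k (E m) (σ m) (p + D.dis (w • e)) =
        indicator (E m) (fun _ => (σ m ^ 2)⁻¹ *
          Sg (fun v => D.f (D.A (rep p) + v • e)) w (σ m)) (p + D.dis (w • e)) := by
    intro p hp m
    have hF := line_diff D.hf (D.A (rep p)) e
    have h1 : ∀ᵐ w ∂(volume.restrict cB), D.f (D.A (rep p) + w • e) ≠ 0 := by
      refine ae_restrict_of_ae ?_
      rw [ae_iff]
      simpa using zeros_null hF ⟨0, by simpa using hp⟩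
    filter_upwards [h1] with w hw
    unfold hE
    have h2 : p + D.dis (w • e) = pr (rep p + D.A.symm (w • e)) := by
      rw [pr_add, pr_rep, dis]
    have h3 : D.A (rep p + D.A.symm (w • e)) = D.A (rep p) + w • e := by
      rw [map_add, LinearEquiv.apply_symm_apply]
    have h4 : D.S (p + D.dis (w • e)) (σ m • D.dir k) =
        Sg (fun v => D.f (D.A (rep p) + v • e)) w (σ m) := by
      rw [h2, D.S_lift (by rw [h3]; exact hw), h3, SS_line]
    by_cases hs : p + D.dis (w • e) ∈ E m
    · rw [indicator_of_mem hs, indicator_of_mem hs, h4]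
    · rw [indicator_of_notMem hs, indicator_of_notMem hs]
  -- domination
  have hdom : ∀ m, ∀ᵐ p : TT g, ‖Im m p‖ ≤ C0 / Real.log 2 * D.S p ((4 : ℝ) • e) := by
    intro m
    filter_upwards [D.ae_fne] with p hp
    have hF := line_diff D.hf (D.A (rep p)) e
    have hF0 : (fun v : ℂ => D.f (D.A (rep p) + v • e)) 0 ≠ 0 := by simpa using hp
    obtain ⟨i1, i2⟩ := Sg_integral hF hF0 (hσ0 m) (hσ1 m)
    have hS4 : D.S p ((4 : ℝ) • e) = Sg (fun v : ℂ => D.f (D.A (rep p) + v • e)) 0 4 := by
      rw [D.S_rep hp]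
      have := SS_line D.f (D.A (rep p)) e 0 4
      simpa using this
    rw [hS4]
    rw [hIm]
    simp only
    rw [integral_congr_ae (hpt p hp m)]
    refine (norm_integral_le_integral_norm _).trans ?_
    have h5 : ∫ w in cB, ‖indicator (E m) (fun _ => (σ m ^ 2)⁻¹ *
          Sg (fun v => D.f (D.A (rep p) + v • e)) w (σ m)) (p + D.dis (w • e))‖ ≤
        ∫ w in cB, (σ m ^ 2)⁻¹ * Sg (fun v => D.f (D.A (rep p) + v • e)) w (σ m) := by
      refine integral_mono_of_nonneg (Filter.Eventually.of_forall fun _ => norm_nonneg _)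
        (i1.const_mul _) ?_
      have h1 : ∀ᵐ w ∂(volume.restrict cB), D.f (D.A (rep p) + w • e) ≠ 0 := by
        refine ae_restrict_of_ae ?_
        rw [ae_iff]
        simpa using zeros_null hF ⟨0, by simpa using hp⟩
      filter_upwards [h1] with w hw
      have h6 : 0 ≤ (σ m ^ 2)⁻¹ * Sg (fun v => D.f (D.A (rep p) + v • e)) w (σ m) :=
        mul_nonneg (by positivity) (Sg_nonneg hF hw (hσ0 m))
      by_cases hs : p + D.dis (w • e) ∈ E m
      · rw [indicator_of_mem hs, Real.norm_of_nonneg h6]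
      · rw [indicator_of_notMem hs, norm_zero]
        exact h6
    refine h5.trans ?_
    rw [integral_const_mul]
    calc (σ m ^ 2)⁻¹ * ∫ w in cB, Sg (fun v => D.f (D.A (rep p) + v • e)) w (σ m) ≤
        (σ m ^ 2)⁻¹ * (C0 / Real.log 2 * σ m ^ 2 *
          Sg (fun v : ℂ => D.f (D.A (rep p) + v • e)) 0 4) := by
          exact mul_le_mul_of_nonneg_left i2 (by positivity)
      _ = _ := by
        have := (hσ0 m).ne'
        field_simp
  -- convergence
  have hconv : ∀ᵐ p : TT g, Tendsto (fun m => Im m p) atTop (𝓝 0) := by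
    filter_upwards [D.ae_fne, hav] with p hp hgood
    have hF := line_diff D.hf (D.A (rep p)) e
    have hF0 : (fun v : ℂ => D.f (D.A (rep p) + v • e)) 0 ≠ 0 := by simpa using hp
    have hfin := zeros_finite hF ⟨0, hF0⟩ 0 2
    have hev2 := (hfin.eventually_all).2 hgood
    refine tendsto_const_nhds.congr' ?_
    filter_upwards [hev2] with m hm
    symm
    rw [hIm]
    simp only
    rw [integral_congr_ae (hpt p hp m)]
    refine (integral_congr_ae (g := fun _ => (0 : ℝ)) ?_).trans (by simp)
    refine (ae_restrict_iff' measurableSet_closedBall).2 (Filter.Eventually.of_forall fun w hw => ?_)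
    beta_reduce
    by_cases hs : p + D.dis (w • e) ∈ E m
    · rw [indicator_of_mem hs]
      have : Sg (fun v => D.f (D.A (rep p) + v • e)) w (σ m) = 0 := by
        refine Sg_eq_zero hF (hσ0 m) fun z hz hz0 => ?_
        have hz2 : z ∈ closedBall (0:ℂ) 2 := by
          rw [mem_closedBall, dist_zero_right]
          rw [mem_closedBall, dist_eq_norm] at hz
          rw [mem_closedBall, dist_zero_right] at hw
          calc ‖z‖ = ‖(z - w) + w‖ := by ring_nf
            _ ≤ ‖z - w‖ + ‖w‖ := norm_add_le _ _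
            _ ≤ 2 := by linarith [hσ1 m]
        have h9 := hm z ⟨hz2, hz0⟩ w (by
          rw [mem_closedBall, dist_comm, dist_eq_norm] at hz
          exact hz)
        exact h9 hs
      rw [this, mul_zero]
    · rw [indicator_of_notMem hs]
  have hlim := tendsto_integral_of_dominated_convergence (F := Im) (f := fun _ => (0 : ℝ))
    (fun p => C0 / Real.log 2 * D.S p ((4 : ℝ) • e)) (fun m => (hgen m).2.1.aestronglyMeasurable)
    ((D.integrable_S _).const_mul _) hdom hconv
  rw [integral_zero] at hlim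
  have h10 := hlim.const_mul ((volume.restrict cB).real univ)⁻¹
  rw [mul_zero] at h10
  refine h10.congr fun m => ?_
  rw [hval]
  field_simp

end Dat

end Run7.h92
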