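import Mathlib

/-!
# Averages of unimodular characters are small outside of small sets
-/

namespace Run7.h92

open Complex MeasureTheory Metric Real Set Filter Topology

/-- the average of unimodular monomials -/
noncomputable def Qa (θ : ℕ → ℂ) (φ : ℕ → ℕ) (M : ℕ) (z : ℂ) : ℂ :=
  (M : ℂ)⁻¹ * ∑ j ∈ Finset.range M, θ j * z ^ (φ j + 1)

theorem Qa_continuous (θ : ℕ → ℂ) (φ : ℕ → ℕ) (M : ℕ) : Continuous (Qa θ φ M) := by
  unfold Qa
  fun_prop

theorem Qa_le_one {θ : ℕ → ℂ} (hθ : ∀ j, ‖θ j‖ = 1) (φ : ℕ → ℕ) (M : ℕ) {z : ℂ} (hz : ‖z‖ = 1) :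
    ‖Qa θ φ M z‖ ≤ 1 := by
  unfold Qa
  rw [norm_mul, norm_inv, Complex.norm_natCast]
  rcases Nat.eq_zero_or_pos M with h | h
  · subst h; simp
  have hM : (0 : ℝ) < M := by exact_mod_cast h
  have h1 : ‖∑ j ∈ Finset.range M, θ j * z ^ (φ j + 1)‖ ≤ M := by
    refine (norm_sum_le _ _).trans (le_of_eq ?_)
    have : ∀ j ∈ Finset.range M, ‖θ j * z ^ (φ j + 1)‖ = 1 := by
      intro j _
      rw [norm_mul, norm_pow, hθ, hz, one_pow, one_mul]
    rw [Finset.sum_congr rfl this]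
    simp
  calc (M : ℝ)⁻¹ * _ ≤ (M : ℝ)⁻¹ * M := by gcongr
    _ = 1 := inv_mul_cancel₀ hM.ne'

/-- the exponential -/
noncomputable def eu (t : ℝ) : ℂ := Complex.exp (2 * π * I * (t : ℝ))

theorem norm_eu (t : ℝ) : ‖eu t‖ = 1 := by
  unfold eu
  rw [show (2 * π * I * (t : ℝ) : ℂ) = ((2 * π * t : ℝ) : ℂ) * I by push_cast; ring,
    Complex.norm_exp_ofReal_mul_I]

theorem continuous_eu : Continuous eu := by
  unfold eu
  fun_prop

theorem eu_int {n : ℤ} (hn : n ≠ 0) (a : ℝ) : ∫ t in a..(a + 1), Complex.exp (2 * π * I * n * (t : ℂ)) = 0 := by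
  have hc : (2 * π * I * n : ℂ) ≠ 0 := by
    refine mul_ne_zero Complex.two_pi_I_ne_zero ?_
    exact_mod_cast hn
  rw [integral_exp_mul_complex hc]
  have h1 : Complex.exp (2 * π * I * n * ((a + 1 : ℝ) : ℂ)) =
      Complex.exp (2 * π * I * n * (a : ℂ)) := by
    rw [show (2 * π * I * n * ((a + 1 : ℝ) : ℂ) : ℂ) = 2 * π * I * n * (a : ℂ) + n * (2 * π * I) by
      push_cast; ring, Complex.exp_add, Complex.exp_int_mul_two_pi_mul_I, mul_one]
  rw [h1, sub_self, zero_div]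

theorem sq_int {θ : ℕ → ℂ} (hθ : ∀ j, ‖θ j‖ = 1) {φ : ℕ → ℕ} (hφ : Function.Injective φ) {M : ℕ}
    (hM : 0 < M) (a : ℝ) : ∫ t in a..(a + 1), ‖Qa θ φ M (eu t)‖ ^ 2 = 1 / M := by
  have hM' : (M : ℂ) ≠ 0 := by exact_mod_cast hM.ne'
  have h1 : ∀ t : ℝ, ((‖Qa θ φ M (eu t)‖ ^ 2 : ℝ) : ℂ) = ((M : ℂ)⁻¹) ^ 2 *
      ∑ j ∈ Finset.range M, ∑ l ∈ Finset.range M, (θ j * (starRingEnd ℂ) (θ l)) *
        Complex.exp (2 * π * I * (((φ j : ℤ) - (φ l : ℤ) : ℤ) : ℂ) * (t : ℂ)) := by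
    intro t
    rw [← Complex.normSq_eq_norm_sq, ← Complex.mul_conj]
    unfold Qa
    rw [map_mul, map_inv₀, map_natCast, map_sum,
      show ∀ A B : ℂ, (M : ℂ)⁻¹ * A * ((M : ℂ)⁻¹ * B) = ((M : ℂ)⁻¹) ^ 2 * (A * B) by intros; ring,
      Finset.sum_mul_sum]
    congr 1
    refine Finset.sum_congr rfl fun j _ => Finset.sum_congr rfl fun l _ => ?_
    rw [map_mul, map_pow]
    have h2 : (starRingEnd ℂ) (eu t) = Complex.exp (-(2 * π * I * (t : ℝ))) := by
      unfold eu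
      rw [← Complex.exp_conj]
      congr 1
      rw [show (2 * π * I * (t : ℝ) : ℂ) = ((2 * π * t : ℝ) : ℂ) * I by push_cast; ring,
        map_mul, Complex.conj_ofReal, Complex.conj_I, mul_neg]
    rw [h2]
    unfold eu
    rw [← Complex.exp_nat_mul, ← Complex.exp_nat_mul,
      show ∀ A B C D : ℂ, A * B * (C * D) = (A * C) * (B * D) by intros; ring, ← Complex.exp_add]
    congr 2
    push_cast
    ring
  have h3 : ((∫ t in a..(a + 1), ‖Qa θ φ M (eu t)‖ ^ 2 : ℝ) : ℂ) = ((1 / M : ℝ) : ℂ) := by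
    rw [← intervalIntegral.integral_ofReal]
    simp_rw [h1]
    rw [intervalIntegral.integral_const_mul]
    have hii : ∀ (c : ℂ) (n : ℤ), IntervalIntegrable
        (fun t : ℝ => c * Complex.exp (2 * π * I * (n : ℂ) * (t : ℂ))) volume a (a + 1) := by
      intro c n
      apply Continuous.intervalIntegrable
      fun_prop
    rw [intervalIntegral.integral_finsetSum]
    swap
    · intro j _
      apply Continuous.intervalIntegrable
      fun_prop
    have h4 : ∀ j ∈ Finset.range M, ∫ t in a..(a + 1), ∑ l ∈ Finset.range M,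
        (θ j * (starRingEnd ℂ) (θ l)) *
        Complex.exp (2 * π * I * (((φ j : ℤ) - (φ l : ℤ) : ℤ) : ℂ) * (t : ℂ)) = 1 := by
      intro j hj
      rw [intervalIntegral.integral_finsetSum fun l _ => hii _ _]
      rw [Finset.sum_eq_single j]
      · rw [sub_self, Complex.mul_conj, Complex.normSq_eq_norm_sq, hθ]
        simp
      · intro l _ hl
        rw [intervalIntegral.integral_const_mul, eu_int, mul_zero]
        intro h
        apply hl
        apply hφ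
        omega
      · intro h
        exact absurd hj h
    rw [Finset.sum_congr rfl h4]
    simp only [Finset.sum_const, Finset.card_range, nsmul_eq_mul, mul_one]
    push_cast
    field_simp
  exact_mod_cast h3

/-- smallness outside of a null set, along a sparse sequence -/
theorem Qa_null {θ : ℕ → ℂ} (hθ : ∀ j, ‖θ j‖ = 1) {φ : ℕ → ℕ} (hφ : Function.Injective φ)
    {η : ℝ} (hη : 0 < η) :
    volume {t : ℝ | ¬ ∀ᶠ m : ℕ in atTop, ‖Qa θ φ (2 ^ m) (eu t)‖ < η} = 0 := by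
  have h1 : ∀ i : ℤ, ∀ᵐ t ∂(volume.restrict (Ioc (i : ℝ) (i + 1))),
      ∀ᶠ m : ℕ in atTop, t ∉ {t : ℝ | η ^ 2 ≤ ‖Qa θ φ (2 ^ m) (eu t)‖ ^ 2} := by
    intro i
    refine ae_eventually_notMem ?_
    have h2 : ∀ m : ℕ, (volume.restrict (Ioc (i : ℝ) (i + 1)))
        {t : ℝ | η ^ 2 ≤ ‖Qa θ φ (2 ^ m) (eu t)‖ ^ 2} ≤
          ENNReal.ofReal ((η ^ 2)⁻¹ * (1 / 2) ^ m) := by
      intro m
      have hfin : IsFiniteMeasure (volume.restrict (Ioc (i : ℝ) (i + 1))) :=
        ⟨by rw [Measure.restrict_apply_univ]; exact measure_Ioc_lt_top⟩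
      have hc : Continuous fun t : ℝ => ‖Qa θ φ (2 ^ m) (eu t)‖ ^ 2 :=
        (((Qa_continuous θ φ _).comp continuous_eu).norm).pow 2
      have h3 := mul_meas_ge_le_integral_of_nonneg (μ := volume.restrict (Ioc (i : ℝ) (i + 1)))
        (f := fun t : ℝ => ‖Qa θ φ (2 ^ m) (eu t)‖ ^ 2)
        (Filter.Eventually.of_forall fun t => sq_nonneg _)
        (hc.integrableOn_Ioc) (η ^ 2)
      have h4 : ∫ t in Ioc (i : ℝ) (i + 1), ‖Qa θ φ (2 ^ m) (eu t)‖ ^ 2 = 1 / ((2 ^ m : ℕ) : ℝ) := by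
        rw [← intervalIntegral.integral_of_le (by linarith)]
        exact sq_int hθ hφ (by positivity) _
      rw [h4] at h3
      rw [← ENNReal.ofReal_toReal (measure_ne_top (volume.restrict (Ioc (i : ℝ) (i + 1))) _)]
      apply ENNReal.ofReal_le_ofReal
      have hη2 : 0 < η ^ 2 := by positivity
      rw [← mul_le_mul_iff_right₀ hη2]
      refine h3.trans (le_of_eq ?_)
      push_cast
      field_simp
      rw [← mul_pow]
      norm_num
    refine ne_of_lt ((ENNReal.tsum_le_tsum h2).trans_lt ?_)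
    rw [← ENNReal.ofReal_tsum_of_nonneg (fun m => by positivity)
      ((summable_geometric_two).mul_left _)]
    exact ENNReal.ofReal_lt_top
  have h2 : ∀ᵐ t : ℝ, ∀ i : ℤ, t ∈ Ioc (i : ℝ) (i + 1) →
      ∀ᶠ m : ℕ in atTop, t ∉ {t : ℝ | η ^ 2 ≤ ‖Qa θ φ (2 ^ m) (eu t)‖ ^ 2} :=
    ae_all_iff.2 fun i => (ae_restrict_iff' measurableSet_Ioc).1 (h1 i)
  rw [← ae_iff]
  filter_upwards [h2] with t ht
  have h3 := ht (⌈t⌉ - 1) ⟨by
    have := Int.ceil_lt_add_one t
    push_cast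
    linarith, by
    have := Int.le_ceil t
    push_cast
    linarith⟩
  filter_upwards [h3] with m hm
  simp only [not_le] at hm
  exact lt_of_pow_lt_pow_left₀ 2 hη.le hm

end Run7.h92
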