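import Pool.Agent.Run7.h92.Tr

/-!
# Cesaro decay of the absolute values of the Fourier coefficients
-/

namespace Run7.h92

open Complex MeasureTheory Metric Real Set Filter Topology

variable {g : ℕ}

theorem continuous_chi (k : Fin g ⊕ Fin g → ℤ) : Continuous (chi k) := by
  unfold chi
  exact continuous_finsetProd _ fun i _ => (fourier (k i)).continuous.comp (continuous_apply i)

theorem chi_neg_pt (k : Fin g ⊕ Fin g → ℤ) (p : TT g) : chi k (-p) = (starRingEnd ℂ) (chi k p) := by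
  have h1 : chi k p * chi k (-p) = 1 := by
    rw [← chi_add, add_neg_cancel, ← pr_rep (0 : TT g), chi_pr]
    have h2 : chi k (0 : TT g) = 1 := by
      unfold chi
      simp
    rw [← chi_pr, pr_rep, h2]
  have h3 : chi k p * (starRingEnd ℂ) (chi k p) = 1 := by
    rw [Complex.mul_conj, Complex.normSq_eq_norm_sq, norm_chi]
    norm_num
  have h4 : chi k p ≠ 0 := left_ne_zero_of_mul_eq_one h1
  exact mul_left_cancel₀ h4 (h1.trans h3.symm)

namespace Dat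

variable (D : Dat g)

/-- the mass in a strip, after translation -/
noncomputable def msk (k : Fin g ⊕ Fin g → ℤ) (δ σ : ℝ) (t : TT g) : ℝ :=
  ∫ p, indicator (strip k δ) (fun p => (σ ^ 2)⁻¹ * D.S (p + t) (σ • D.dir k)) p

theorem integrable_S_tr (t : TT g) (ζ : Fin g → ℂ) : Integrable fun p => D.S (p + t) ζ :=
  (tr_mp t).integrable_comp_of_integrable (D.integrable_S ζ)

theorem ae_nonneg_tr (t : TT g) (ζ : Fin g → ℂ) : ∀ᵐ p : TT g, 0 ≤ D.S (p + t) ζ :=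
  (tr_mp t).quasiMeasurePreserving.ae (D.ae_nonneg ζ)

theorem msk_eq (k : Fin g ⊕ Fin g → ℤ) (δ σ : ℝ) (t : TT g) :
    D.msk k δ σ t = ∫ p, indicator {p | ‖chi k (p - t) - 1‖ < δ}
      (fun p => (σ ^ 2)⁻¹ * D.S p (σ • D.dir k)) p := by
  unfold msk
  have h2 := integral_add_right_eq_self (μ := (volume : Measure (TT g)))
    (fun p : TT g => indicator {p | ‖chi k (p - t) - 1‖ < δ}
      (fun p => (σ ^ 2)⁻¹ * D.S p (σ • D.dir k)) p) t
  rw [← h2]
  congr 1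
  funext p
  by_cases hp : p ∈ strip k δ
  · rw [indicator_of_mem hp, indicator_of_mem]
    show ‖chi k (p + t - t) - 1‖ < δ
    rw [add_sub_cancel_right]
    exact hp
  · rw [indicator_of_notMem hp, indicator_of_notMem]
    show ¬ ‖chi k (p + t - t) - 1‖ < δ
    rw [add_sub_cancel_right]
    exact hp

theorem strip_unif {k : Fin g ⊕ Fin g → ℤ} (hk : ∀ s, (D.tr s).Good k) {ε : ℝ} (hε : 0 < ε) :
    ∃ δ > 0, ∃ σ₀ > 0, ∀ t : TT g, ∀ σ : ℝ, 0 < σ → σ < σ₀ → D.msk k δ σ t ≤ ε := by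
  have h1 : ∀ t : TT g, ∃ δ > 0, ∃ σ₀ > 0, ∀ σ : ℝ, 0 < σ → σ < σ₀ → D.msk k δ σ t ≤ ε := by
    intro t
    obtain ⟨δ, hδ, σ₀, hσ₀, h⟩ := (D.tr (rep t)).strip_small (hk (rep t)) hε
    refine ⟨δ, hδ, σ₀, hσ₀, fun σ h0 h1 => ?_⟩
    refine le_trans (le_of_eq ?_) (h σ h0 h1)
    unfold msk hm
    simp_rw [tr_S, pr_rep]
    rfl
  choose δ hδ σ₀ hσ₀ h2 using h1
  have hcov : (Set.univ : Set (TT g)) ⊆ ⋃ t ∈ (Set.univ : Set (TT g)),
      {t' : TT g | ‖chi k (t' - t) - 1‖ < δ t / 2} := by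
    intro t _
    simp only [mem_univ, iUnion_true, mem_iUnion, mem_ofPred_eq]
    refine ⟨t, ?_⟩
    have : chi k (0 : TT g) = 1 := by
      unfold chi
      simp
    rw [sub_self, this, sub_self, norm_zero]
    exact half_pos (hδ t)
  obtain ⟨b, -, hbf, hb⟩ := isCompact_univ.elim_finite_subcover_image (b := Set.univ)
    (c := fun t : TT g => {t' : TT g | ‖chi k (t' - t) - 1‖ < δ t / 2}) (fun t _ => by
      refine isOpen_lt ?_ continuous_const
      exact (((continuous_chi k).comp (continuous_id.sub continuous_const)).sub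
        continuous_const).norm) hcov
  have hbne : (hbf.toFinset).Nonempty := by
    obtain ⟨t, ht⟩ : ∃ t, t ∈ b := by
      by_contra hcon
      push Not at hcon
      have h3 := hb (mem_univ (0 : TT g))
      simp only [mem_iUnion] at h3
      obtain ⟨t, ht, _⟩ := h3
      exact hcon t ht
    exact ⟨t, hbf.mem_toFinset.2 ht⟩
  refine ⟨(hbf.toFinset.inf' hbne δ) / 2, ?_, hbf.toFinset.inf' hbne σ₀, ?_, ?_⟩
  · exact half_pos ((Finset.lt_inf'_iff hbne).2 fun t _ => hδ t)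
  · exact (Finset.lt_inf'_iff hbne).2 fun t _ => hσ₀ t
  · intro t σ h0 hσ
    have h3 := hb (mem_univ t)
    simp only [mem_iUnion, mem_ofPred_eq] at h3
    obtain ⟨t0, ht0, h4⟩ := h3
    have h5 : hbf.toFinset.inf' hbne δ ≤ δ t0 := Finset.inf'_le _ (hbf.mem_toFinset.2 ht0)
    have h6 : hbf.toFinset.inf' hbne σ₀ ≤ σ₀ t0 := Finset.inf'_le _ (hbf.mem_toFinset.2 ht0)
    refine le_trans ?_ (h2 t0 σ h0 (hσ.trans_le h6))
    rw [msk_eq, msk_eq]
    have hm1 : ∀ (t : TT g) (δ : ℝ), MeasurableSet {p : TT g | ‖chi k (p - t) - 1‖ < δ} := by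
      intro t δ
      refine measurableSet_lt ?_ measurable_const
      exact (((measurable_chi k).comp (measurable_id.sub_const t)).sub_const 1).norm
    refine integral_mono_ae (((D.integrable_S _).const_mul _).indicator (hm1 _ _))
      (((D.integrable_S _).const_mul _).indicator (hm1 _ _)) ?_
    filter_upwards [D.ae_nonneg (σ • D.dir k)] with p hp
    have hpp : 0 ≤ (σ ^ 2)⁻¹ * D.S p (σ • D.dir k) := mul_nonneg (by positivity) hp
    by_cases hps : ‖chi k (p - t) - 1‖ < (hbf.toFinset.inf' hbne δ) / 2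
    · rw [indicator_of_mem (show p ∈ {p | ‖chi k (p - t) - 1‖ < (hbf.toFinset.inf' hbne δ) / 2}
        from hps), indicator_of_mem]
      show ‖chi k (p - t0) - 1‖ < δ t0
      have e1 : chi k (p - t0) - 1 = (chi k (p - t) - 1) * chi k (t - t0) + (chi k (t - t0) - 1) := by
        have : p - t0 = (p - t) + (t - t0) := by abel
        rw [this, chi_add]
        ring
      rw [e1]
      refine (norm_add_le _ _).trans_lt ?_
      rw [norm_mul, norm_chi, mul_one]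
      linarith
    · rw [indicator_of_notMem (show p ∉ {p | ‖chi k (p - t) - 1‖ < (hbf.toFinset.inf' hbne δ) / 2}
        from hps)]
      exact indicator_apply_nonneg fun _ => hpp

theorem avg_conv (k : Fin g ⊕ Fin g → ℤ) {M : ℕ} (hM : 0 < M) {ε δ σ : ℝ} (hδ : 0 < δ)
    (hσ : 0 < σ) (t : TT g) (h : D.msk k δ σ t ≤ ε) :
    ‖∫ p, KM k M (p - t) * (((σ ^ 2)⁻¹ * D.S p (σ • D.dir k) : ℝ) : ℂ)‖ ≤
      ε + 2 / (δ * M) * D.q (D.dir k) := by
  rw [msk_eq] at h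
  have hm1 : ∀ (t : TT g) (δ : ℝ), MeasurableSet {p : TT g | ‖chi k (p - t) - 1‖ < δ} := by
    intro t δ
    refine measurableSet_lt ?_ measurable_const
    exact (((measurable_chi k).comp (measurable_id.sub_const t)).sub_const 1).norm
  refine (norm_integral_le_integral_norm _).trans ?_
  have h3 : ∫ p, ‖KM k M (p - t) * (((σ ^ 2)⁻¹ * D.S p (σ • D.dir k) : ℝ) : ℂ)‖ ≤
      ∫ p, (indicator {p | ‖chi k (p - t) - 1‖ < δ}
        (fun p => (σ ^ 2)⁻¹ * D.S p (σ • D.dir k)) p +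
          2 / (δ * M) * ((σ ^ 2)⁻¹ * D.S p (σ • D.dir k))) := by
    refine integral_mono_of_nonneg (Filter.Eventually.of_forall fun _ => norm_nonneg _)
      ((((D.integrable_S _).const_mul _).indicator (hm1 _ _)).add
        (((D.integrable_S _).const_mul _).const_mul _)) ?_
    filter_upwards [D.ae_nonneg (σ • D.dir k)] with p hp
    have hpp : 0 ≤ (σ ^ 2)⁻¹ * D.S p (σ • D.dir k) := mul_nonneg (by positivity) hp
    rw [norm_mul, Complex.norm_real, Real.norm_of_nonneg hpp]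
    by_cases hps : ‖chi k (p - t) - 1‖ < δ
    · rw [indicator_of_mem (show p ∈ {p | ‖chi k (p - t) - 1‖ < δ} from hps)]
      have h4 := mul_le_mul_of_nonneg_right (KM_le_one k M (p - t)) hpp
      have h5 : 0 ≤ 2 / (δ * M) * ((σ ^ 2)⁻¹ * D.S p (σ • D.dir k)) :=
        mul_nonneg (by positivity) hpp
      linarith
    · rw [indicator_of_notMem (show p ∉ {p | ‖chi k (p - t) - 1‖ < δ} from hps), zero_add]
      exact mul_le_mul_of_nonneg_right (KM_le k hM hδ (p - t) hps) hpp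
  refine h3.trans ?_
  rw [integral_add (((D.integrable_S _).const_mul _).indicator (hm1 _ _))
    (((D.integrable_S _).const_mul _).const_mul _),
    integral_const_mul, integral_const_mul, D.integral_S, D.q_smul]
  have h7 : (σ ^ 2)⁻¹ * (σ ^ 2 * D.q (D.dir k)) = D.q (D.dir k) := by
    field_simp
  rw [h7]
  linarith

/-- the scaled Fourier coefficient -/
noncomputable def bn (k : Fin g ⊕ Fin g → ℤ) (n : ℕ) (σ : ℝ) : ℂ :=
  ((((σ ^ 2)⁻¹ : ℝ) : ℂ) * D.J (((n + 1 : ℕ) : ℤ) • k) (σ • D.dir k)) *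
    D.uh (((n + 1 : ℕ) : ℤ) • k)

theorem bn_eq {k : Fin g ⊕ Fin g → ℤ} (hk0 : k ≠ 0) (n : ℕ) (σ : ℝ) :
    D.bn k n σ = ∫ p, chi (((n + 1 : ℕ) : ℤ) • k) p * (((σ ^ 2)⁻¹ * D.S p (σ • D.dir k) : ℝ) : ℂ) := by
  have hnk : (((n + 1 : ℕ) : ℤ) • k) ≠ 0 := by
    intro h
    rcases smul_eq_zero.1 h with h | h
    · exact absurd h (by positivity)
    · exact hk0 h
  have e2 : ∀ p, chi (((n + 1 : ℕ) : ℤ) • k) p * (((σ ^ 2)⁻¹ * D.S p (σ • D.dir k) : ℝ) : ℂ) =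
      (((σ ^ 2)⁻¹ : ℝ) : ℂ) * (chi (((n + 1 : ℕ) : ℤ) • k) p * (D.S p (σ • D.dir k) : ℂ)) := by
    intro p
    push_cast
    ring
  simp_rw [e2]
  rw [integral_const_mul, D.fourier_S hnk]
  unfold bn
  ring

theorem sq_avg_le {k : Fin g ⊕ Fin g → ℤ} (hk0 : k ≠ 0) {M : ℕ} (hM : 0 < M) {ε δ σ : ℝ}
    (hδ : 0 < δ) (hσ : 0 < σ) (h : ∀ t, D.msk k δ σ t ≤ ε) :
    (M : ℝ)⁻¹ * ∑ n ∈ Finset.range M, ‖D.bn k n σ‖ ^ 2 ≤
      (ε + 2 / (δ * M) * D.q (D.dir k)) * D.q (D.dir k) := by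
  set ρ : TT g → ℝ := fun p => (σ ^ 2)⁻¹ * D.S p (σ • D.dir k) with hρ
  have hρi : Integrable ρ := (D.integrable_S _).const_mul _
  have hρ0 : ∀ᵐ p, 0 ≤ ρ p := by
    filter_upwards [D.ae_nonneg (σ • D.dir k)] with p hp
    exact mul_nonneg (by positivity) hp
  have hρm : ∫ p, ρ p = D.q (D.dir k) := by
    rw [hρ]
    simp only
    rw [integral_const_mul, D.integral_S, D.q_smul]
    field_simp
  have hint : ∀ n : ℕ, Integrable fun p => chi (((n + 1 : ℕ) : ℤ) • k) p * (ρ p : ℂ) := fun n =>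
    hρi.ofReal.bdd_mul (measurable_chi _).aestronglyMeasurable
      (Filter.Eventually.of_forall fun q => (norm_chi _ q).le)
  have hb : ∀ n, D.bn k n σ = ∫ p, chi (((n + 1 : ℕ) : ℤ) • k) p * (ρ p : ℂ) := fun n =>
    D.bn_eq hk0 n σ
  -- the convolution
  set H : TT g → ℂ := fun t => ∫ p, KM k M (p - t) * ((ρ p : ℝ) : ℂ) with hH
  have hHle : ∀ t, ‖H t‖ ≤ ε + 2 / (δ * M) * D.q (D.dir k) := fun t =>
    D.avg_conv k hM hδ hσ t (h t)
  have hHeq : ∀ t, H t = (M : ℂ)⁻¹ * ∑ n ∈ Finset.range M,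
      D.bn k n σ * (starRingEnd ℂ) (chi (((n + 1 : ℕ) : ℤ) • k) t) := by
    intro t
    rw [hH]
    simp only
    have e1 : ∀ p, KM k M (p - t) * ((ρ p : ℝ) : ℂ) = (M : ℂ)⁻¹ * ∑ n ∈ Finset.range M,
        (chi (((n + 1 : ℕ) : ℤ) • k) p * (ρ p : ℂ)) *
          (starRingEnd ℂ) (chi (((n + 1 : ℕ) : ℤ) • k) t) := by
      intro p
      unfold KM
      rw [mul_assoc, Finset.sum_mul]
      congr 1
      refine Finset.sum_congr rfl fun n _ => ?_
      rw [sub_eq_add_neg, chi_add, chi_neg_pt]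
      ring
    simp_rw [e1]
    rw [integral_const_mul, integral_finsetSum _ fun n _ => (hint n).mul_const _]
    congr 1
    refine Finset.sum_congr rfl fun n _ => ?_
    rw [integral_mul_const, hb]
  have hfin : (((M : ℝ)⁻¹ * ∑ n ∈ Finset.range M, ‖D.bn k n σ‖ ^ 2 : ℝ) : ℂ) =
      ∫ t, H t * ((ρ t : ℝ) : ℂ) := by
    have e2 : ∀ t, H t * ((ρ t : ℝ) : ℂ) = (M : ℂ)⁻¹ * ∑ n ∈ Finset.range M,
        D.bn k n σ * (starRingEnd ℂ) (chi (((n + 1 : ℕ) : ℤ) • k) t * (ρ t : ℂ)) := by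
      intro t
      rw [hHeq, mul_assoc, Finset.sum_mul]
      congr 1
      refine Finset.sum_congr rfl fun n _ => ?_
      rw [map_mul, Complex.conj_ofReal]
      ring
    simp_rw [e2]
    have hci : ∀ n : ℕ, Integrable fun t =>
        (starRingEnd ℂ) (chi (((n + 1 : ℕ) : ℤ) • k) t * (ρ t : ℂ)) := fun n =>
      (Complex.conjCLE : ℂ ≃L[ℝ] ℂ).toContinuousLinearMap.integrable_comp (hint n)
    rw [integral_const_mul, integral_finsetSum _ fun n _ => (hci n).const_mul _]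
    rw [Complex.ofReal_mul, Complex.ofReal_inv, Complex.ofReal_natCast, Complex.ofReal_sum]
    congr 1
    refine Finset.sum_congr rfl fun n _ => ?_
    rw [integral_const_mul, integral_conj, ← hb, Complex.mul_conj, Complex.normSq_eq_norm_sq]
  have h5 : ‖(((M : ℝ)⁻¹ * ∑ n ∈ Finset.range M, ‖D.bn k n σ‖ ^ 2 : ℝ) : ℂ)‖ ≤
      (ε + 2 / (δ * M) * D.q (D.dir k)) * D.q (D.dir k) := by
    rw [hfin]
    refine (norm_integral_le_integral_norm _).trans ?_
    rw [← hρm, ← integral_const_mul]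
    refine integral_mono_of_nonneg (Filter.Eventually.of_forall fun _ => norm_nonneg _)
      (hρi.const_mul _) ?_
    filter_upwards [hρ0] with t ht
    rw [norm_mul, Complex.norm_real, Real.norm_of_nonneg ht]
    have := hHle t
    rw [← hρm] at this
    exact mul_le_mul_of_nonneg_right this ht
  rw [Complex.norm_real, Real.norm_of_nonneg (by positivity)] at h5
  exact h5

theorem cesaro_sq {k : Fin g ⊕ Fin g → ℤ} (hk0 : k ≠ 0) (hk : ∀ s, (D.tr s).Good k) :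
    Tendsto (fun M : ℕ => (M : ℝ)⁻¹ * ∑ n ∈ Finset.range M,
      ‖((n + 1 : ℕ) : ℂ) ^ 2 * D.uh (((n + 1 : ℕ) : ℤ) • k)‖ ^ 2) atTop (𝓝 0) := by
  set a : ℕ → ℝ := fun M => (M : ℝ)⁻¹ * ∑ n ∈ Finset.range M,
      ‖((n + 1 : ℕ) : ℂ) ^ 2 * D.uh (((n + 1 : ℕ) : ℤ) • k)‖ ^ 2 with ha
  have ha0 : ∀ M, 0 ≤ a M := fun M => by rw [ha]; positivity
  have hkap := D.kap_pos hk0
  have hq := D.q_nonneg (D.dir k)
  have key : ∀ ε > 0, ∃ δ > 0, ∀ M : ℕ, 0 < M →
      D.kap k ^ 2 * a M ≤ (ε + 2 / (δ * M) * D.q (D.dir k)) * D.q (D.dir k) := by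
    intro ε hε
    obtain ⟨δ, hδ, σ₀, hσ₀, hs⟩ := D.strip_unif hk hε
    refine ⟨δ, hδ, fun M hM => ?_⟩
    have hlim : Tendsto (fun σ : ℝ => (M : ℝ)⁻¹ * ∑ n ∈ Finset.range M, ‖D.bn k n σ‖ ^ 2)
        (𝓝[>] 0) (𝓝 (D.kap k ^ 2 * a M)) := by
      have h1 : D.kap k ^ 2 * a M = (M : ℝ)⁻¹ * ∑ n ∈ Finset.range M,
          ‖(-((((n + 1 : ℕ) : ℕ) : ℂ) ^ 2 * (D.kap k : ℂ))) * D.uh (((n + 1 : ℕ) : ℤ) • k)‖ ^ 2 := by
        rw [ha]
        simp only
        rw [← mul_assoc, mul_comm (D.kap k ^ 2) _, mul_assoc, Finset.mul_sum]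
        congr 1
        refine Finset.sum_congr rfl fun n _ => ?_
        rw [norm_mul, norm_mul, norm_neg, norm_mul, Complex.norm_real, Real.norm_of_nonneg hkap.le]
        ring
      rw [h1]
      refine tendsto_const_nhds.mul (tendsto_finsetSum _ fun n _ => ?_)
      exact (((D.J_tendsto k (n + 1)).mul_const _).norm).pow 2
    refine le_of_tendsto hlim ?_
    have h1 : ∀ᶠ σ in 𝓝[>] (0 : ℝ), σ < σ₀ :=
      (gt_mem_nhds hσ₀ : ∀ᶠ σ in 𝓝 (0:ℝ), σ < σ₀).filter_mono nhdsWithin_le_nhds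
    filter_upwards [h1, self_mem_nhdsWithin] with σ hσ hσ0
    have hσ0' : (0 : ℝ) < σ := hσ0
    exact D.sq_avg_le hk0 hM hδ hσ0' fun t => hs t σ hσ0' hσ
  rw [Metric.tendsto_atTop]
  intro ε hε
  set Q := D.q (D.dir k) with hQ
  obtain ⟨δ, hδ, hM⟩ := key (D.kap k ^ 2 * ε / (4 * (Q + 1))) (by positivity)
  have htend : Tendsto (fun M : ℕ => 2 / (δ * M) * Q * Q) atTop (𝓝 0) := by
    have h1 : Tendsto (fun M : ℕ => (2 * Q * Q / δ) * (1 / (M : ℝ))) atTop (𝓝 ((2 * Q * Q / δ) * 0)) :=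
      tendsto_one_div_atTop_nhds_zero_nat.const_mul _
    rw [mul_zero] at h1
    refine h1.congr fun M => ?_
    rcases Nat.eq_zero_or_pos M with h | h
    · subst h; simp
    · have : (0 : ℝ) < M := by exact_mod_cast h
      field_simp
  have h2 := htend.eventually (gt_mem_nhds (show (0 : ℝ) < D.kap k ^ 2 * ε / 4 by positivity))
  obtain ⟨M0, hM0⟩ := eventually_atTop.1 h2
  refine ⟨max M0 1, fun M hMM => ?_⟩
  have hM1 : 0 < M := lt_of_lt_of_le Nat.one_pos ((le_max_right _ _).trans hMM)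
  have h3 := hM0 M ((le_max_left _ _).trans hMM)
  have h4 := hM M hM1
  rw [Real.dist_eq, sub_zero, abs_of_nonneg (ha0 M)]
  have h5 : D.kap k ^ 2 * ε / (4 * (Q + 1)) * Q ≤ D.kap k ^ 2 * ε / 4 := by
    rw [div_mul_eq_mul_div, div_le_div_iff₀ (by positivity) (by norm_num)]
    have : 0 < D.kap k ^ 2 * ε := by positivity
    nlinarith
  have h6 : D.kap k ^ 2 * a M < D.kap k ^ 2 * ε := by
    have : (D.kap k ^ 2 * ε / (4 * (Q + 1)) + 2 / (δ * M) * Q) * Q =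
        D.kap k ^ 2 * ε / (4 * (Q + 1)) * Q + 2 / (δ * M) * Q * Q := by ring
    have h7 : 0 < D.kap k ^ 2 * ε := by positivity
    linarith
  exact lt_of_mul_lt_mul_left h6 (by positivity)

theorem cesaro_abs {k : Fin g ⊕ Fin g → ℤ} (hk0 : k ≠ 0) (hk : ∀ s, (D.tr s).Good k) :
    Tendsto (fun M : ℕ => (M : ℝ)⁻¹ * ∑ n ∈ Finset.range M,
      ‖((n + 1 : ℕ) : ℂ) ^ 2 * D.uh (((n + 1 : ℕ) : ℤ) • k)‖) atTop (𝓝 0) := by
  have h1 := (D.cesaro_sq hk0 hk).sqrt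
  rw [Real.sqrt_zero] at h1
  refine squeeze_zero (fun M => by positivity) (fun M => ?_) h1
  apply Real.le_sqrt_of_sq_le
  rcases Nat.eq_zero_or_pos M with h | h
  · subst h; simp
  have hM : (0 : ℝ) < M := by exact_mod_cast h
  have h2 := sq_sum_le_card_mul_sum_sq (s := Finset.range M)
    (f := fun n => ‖((n + 1 : ℕ) : ℂ) ^ 2 * D.uh (((n + 1 : ℕ) : ℤ) • k)‖)
  rw [Finset.card_range] at h2
  rw [mul_pow]
  calc (M : ℝ)⁻¹ ^ 2 * (∑ n ∈ Finset.range M,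
        ‖((n + 1 : ℕ) : ℂ) ^ 2 * D.uh (((n + 1 : ℕ) : ℤ) • k)‖) ^ 2 ≤ (M : ℝ)⁻¹ ^ 2 *
        (M * ∑ n ∈ Finset.range M,
          ‖((n + 1 : ℕ) : ℂ) ^ 2 * D.uh (((n + 1 : ℕ) : ℤ) • k)‖ ^ 2) := by gcongr
    _ = _ := by field_simp

end Dat

end Run7.h92
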