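import Pool.Agent.Run7.h92.Abs2
import Pool.Agent.Run7.h92.Abs3
import Pool.Agent.Run7.h92.Abs4
import Pool.Agent.Run7.h92.CesU

/-!
# Decay of the Fourier coefficients along multiples
-/

namespace Run7.h92

open Complex MeasureTheory Metric Real Set Filter Topology

variable {g : ℕ}

namespace Dat

variable (D : Dat g)

theorem chi_dis (k : Fin g ⊕ Fin g → ℤ) (w : ℂ) : chi k (D.dis (w • D.dir k)) = eu (D.lam k w) := by
  unfold dis
  rw [chi_pr, lam_apply]
  rfl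

theorem dis_sub (k : Fin g ⊕ Fin g → ℤ) (p : TT g) (w z : ℂ) :
    chi k (p + D.dis (w • D.dir k)) = chi k (p + D.dis (z • D.dir k)) * eu (D.lam k (w - z)) := by
  rw [chi_add, chi_add, chi_dis, chi_dis, map_sub]
  unfold eu
  rw [mul_assoc (chi k p), ← Complex.exp_add]
  congr 2
  push_cast
  ring

theorem decay {k : Fin g ⊕ Fin g → ℤ} (hk0 : k ≠ 0) (hk : ¬ D.Flat k) :
    Tendsto (fun n : ℕ => ‖((n + 1 : ℕ) : ℂ) ^ 2 * D.uh (((n + 1 : ℕ) : ℤ) • k)‖) atTop (𝓝 0) := by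
  by_contra hcon
  set a : ℕ → ℝ := fun n => ‖((n + 1 : ℕ) : ℂ) ^ 2 * D.uh (((n + 1 : ℕ) : ℤ) • k)‖ with ha
  have ha0 : ∀ n, 0 ≤ a n := fun n => norm_nonneg _
  have h1 : ∃ ε > 0, ∃ᶠ n in atTop, ε ≤ a n := by
    by_contra hno
    push Not at hno
    apply hcon
    rw [Metric.tendsto_atTop]
    intro ε hε
    have h2 := hno ε hε
    obtain ⟨N, hN⟩ := eventually_atTop.1 h2
    refine ⟨N, fun n hn => ?_⟩
    rw [Real.dist_eq, sub_zero, abs_of_nonneg (ha0 n)]
    exact hN n hn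
  obtain ⟨ε, hε, hfr⟩ := h1
  obtain ⟨φ, hφ, hφa⟩ := Filter.extraction_of_frequently_atTop hfr
  have hkap := D.kap_pos hk0
  have hq := D.q_nonneg (D.dir k)
  -- the limit coefficients
  set β : ℕ → ℂ := fun j => (-((((φ j + 1 : ℕ) : ℕ) : ℂ) ^ 2 * (D.kap k : ℂ))) *
    D.uh (((φ j + 1 : ℕ) : ℤ) • k) with hβ
  have hβn : ∀ j, ‖β j‖ = D.kap k * a (φ j) := by
    intro j
    rw [hβ, ha]
    simp only
    rw [norm_mul, norm_mul, norm_neg, norm_mul, Complex.norm_real, Real.norm_of_nonneg hkap.le]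
    ring
  have hβ1 : ∀ j, D.kap k * ε ≤ ‖β j‖ := by
    intro j
    rw [hβn]
    exact mul_le_mul_of_nonneg_left (hφa j) hkap.le
  have hβ0 : ∀ j, β j ≠ 0 := fun j => norm_pos_iff.1 (lt_of_lt_of_le (by positivity) (hβ1 j))
  set θ : ℕ → ℂ := fun j => (starRingEnd ℂ) (β j) / ‖β j‖ with hθd
  have hθ : ∀ j, ‖θ j‖ = 1 := by
    intro j
    rw [hθd]
    simp only
    rw [norm_div, Complex.norm_conj, Complex.norm_real, norm_norm]
    exact div_self (norm_ne_zero_iff.2 (hβ0 j))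
  have hθβ : ∀ j, θ j * β j = (‖β j‖ : ℂ) := by
    intro j
    rw [hθd]
    simp only
    have h3 : (‖β j‖ : ℂ) ≠ 0 := by exact_mod_cast norm_ne_zero_iff.2 (hβ0 j)
    rw [div_mul_eq_mul_div, mul_comm, Complex.mul_conj, Complex.normSq_eq_norm_sq]
    push_cast
    rw [sq, mul_div_assoc, div_self h3, mul_one]
  set η : ℝ := D.kap k * ε / (4 * (D.q (D.dir k) + 1)) with hη
  have hηpos : 0 < η := by positivity
  -- functions on the torus
  set F : ℕ → TT g → ℂ := fun m p => Qa θ φ (2 ^ m) (chi k p) with hF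
  have hFm : ∀ m, Measurable (F m) := fun m =>
    (Qa_continuous θ φ _).measurable.comp (measurable_chi k)
  have hF1 : ∀ m p, ‖F m p‖ ≤ 1 := fun m p => Qa_le_one hθ φ _ (norm_chi k p)
  set ρ : ℝ → TT g → ℝ := fun σ p => (σ ^ 2)⁻¹ * D.S p (σ • D.dir k) with hρ
  have hρi : ∀ σ, Integrable (ρ σ) := fun σ => (D.integrable_S _).const_mul _
  have hρ0 : ∀ σ, ∀ᵐ p, 0 ≤ ρ σ p := by
    intro σ
    filter_upwards [D.ae_nonneg (σ • D.dir k)] with p hp
    exact mul_nonneg (by positivity) hp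
  have hρm : ∀ σ, 0 < σ → ∫ p, ρ σ p = D.q (D.dir k) := by
    intro σ hσ
    rw [hρ]
    simp only
    rw [integral_const_mul, D.integral_S, D.q_smul]
    field_simp
  have hFint : ∀ (m : ℕ) (σ : ℝ), ∫ p, F m p * (ρ σ p : ℂ) = ((2 ^ m : ℕ) : ℂ)⁻¹ *
      ∑ j ∈ Finset.range (2 ^ m), θ j * D.bn k (φ j) σ := by
    intro m σ
    have e1 : ∀ p, F m p * (ρ σ p : ℂ) = ((2 ^ m : ℕ) : ℂ)⁻¹ *
        ∑ j ∈ Finset.range (2 ^ m), θ j * (chi (((φ j + 1 : ℕ) : ℤ) • k) p * (ρ σ p : ℂ)) := by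
      intro p
      rw [hF]
      simp only
      unfold Qa
      rw [mul_assoc, Finset.sum_mul]
      congr 1
      refine Finset.sum_congr rfl fun j _ => ?_
      rw [chi_smul]
      ring
    simp_rw [e1]
    have hint : ∀ n : ℕ, Integrable fun p => chi (((n + 1 : ℕ) : ℤ) • k) p * (ρ σ p : ℂ) := fun n =>
      (hρi σ).ofReal.bdd_mul (measurable_chi _).aestronglyMeasurable
        (Filter.Eventually.of_forall fun q => (norm_chi _ q).le)
    rw [integral_const_mul, integral_finsetSum _ fun j _ => (hint _).const_mul _]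
    congr 1
    refine Finset.sum_congr rfl fun j _ => ?_
    rw [integral_const_mul, D.bn_eq hk0]
  have hlim1 : ∀ m, ∀ᶠ σ in 𝓝[>] (0 : ℝ), D.kap k * ε / 2 < ‖∫ p, F m p * (ρ σ p : ℂ)‖ := by
    intro m
    have h2 : Tendsto (fun σ => ∫ p, F m p * (ρ σ p : ℂ)) (𝓝[>] 0)
        (𝓝 (((2 ^ m : ℕ) : ℂ)⁻¹ * ∑ j ∈ Finset.range (2 ^ m), θ j * β j)) := by
      simp_rw [hFint]
      refine tendsto_const_nhds.mul (tendsto_finsetSum _ fun j _ => ?_)
      exact ((D.J_tendsto k (φ j + 1)).mul_const _).const_mul _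
    have h3 : D.kap k * ε ≤ ‖((2 ^ m : ℕ) : ℂ)⁻¹ * ∑ j ∈ Finset.range (2 ^ m), θ j * β j‖ := by
      simp_rw [hθβ]
      rw [← Complex.ofReal_sum, norm_mul, norm_inv, Complex.norm_natCast, Complex.norm_real,
        Real.norm_of_nonneg (Finset.sum_nonneg fun j _ => norm_nonneg _)]
      have hp : (0 : ℝ) < ((2 ^ m : ℕ) : ℝ) := by positivity
      rw [inv_mul_eq_div, le_div_iff₀ hp]
      calc D.kap k * ε * ((2 ^ m : ℕ) : ℝ) = ∑ _j ∈ Finset.range (2 ^ m), D.kap k * ε := by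
            rw [Finset.sum_const, Finset.card_range, nsmul_eq_mul, mul_comm]
        _ ≤ _ := Finset.sum_le_sum fun j _ => hβ1 j
    have h4 : D.kap k * ε / 2 < ‖((2 ^ m : ℕ) : ℂ)⁻¹ * ∑ j ∈ Finset.range (2 ^ m), θ j * β j‖ := by
      have : 0 < D.kap k * ε := by positivity
      linarith
    exact h2.norm.eventually (lt_mem_nhds h4)
  have hlim2 : ∀ m, ∀ᶠ σ in 𝓝[>] (0 : ℝ), ∀ v : ℂ, ‖v‖ ≤ σ → ∀ z : ℂ, ‖z‖ = 1 →
      ‖Qa θ φ (2 ^ m) (z * eu (D.lam k v)) - Qa θ φ (2 ^ m) z‖ < η / 2 := by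
    intro m
    have hK : IsCompact (closedBall (0 : ℂ) 1) := isCompact_closedBall _ _
    have huc := hK.uniformContinuousOn_of_continuous (Qa_continuous θ φ (2 ^ m)).continuousOn
    rw [Metric.uniformContinuousOn_iff] at huc
    obtain ⟨δ, hδ, h5⟩ := huc (η / 2) (by positivity)
    have h6 : Continuous fun v : ℂ => eu (D.lam k v) := continuous_eu.comp (D.continuous_lam k)
    have h7 : ∀ᶠ v : ℂ in 𝓝 0, ‖eu (D.lam k v) - 1‖ < δ := by
      have h8 : Tendsto (fun v : ℂ => ‖eu (D.lam k v) - 1‖) (𝓝 0) (𝓝 ‖eu (D.lam k 0) - 1‖) :=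
        ((h6.tendsto 0).sub_const 1).norm
      have h9 : eu (D.lam k 0) = 1 := by
        rw [map_zero]
        unfold eu
        simp
      rw [h9, sub_self, norm_zero] at h8
      exact h8.eventually (gt_mem_nhds hδ)
    obtain ⟨r, hr, hball⟩ := Metric.nhds_basis_ball.mem_iff.1 h7
    have h10 : ∀ᶠ σ in 𝓝[>] (0 : ℝ), σ < r :=
      (gt_mem_nhds hr : ∀ᶠ σ in 𝓝 (0:ℝ), σ < r).filter_mono nhdsWithin_le_nhds
    filter_upwards [h10] with σ hσ v hv z hz
    have h11 : ‖eu (D.lam k v) - 1‖ < δ := hball (by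
      rw [mem_ball, dist_zero_right]
      exact hv.trans_lt hσ)
    have h12 := h5 (z * eu (D.lam k v)) (by
      rw [mem_closedBall, dist_zero_right, norm_mul, hz, norm_eu, one_mul]) z (by
      rw [mem_closedBall, dist_zero_right, hz]) (by
      rw [dist_eq_norm]
      have : z * eu (D.lam k v) - z = z * (eu (D.lam k v) - 1) := by ring
      rw [this, norm_mul, hz, one_mul]
      exact h11)
    rwa [dist_eq_norm] at h12
  have hlim3 : ∀ᶠ σ in 𝓝[>] (0 : ℝ), σ ≤ 1 :=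
    ((gt_mem_nhds one_pos : ∀ᶠ σ in 𝓝 (0:ℝ), σ < 1).mono fun _ h => h.le).filter_mono
      nhdsWithin_le_nhds
  have hex : ∀ m : ℕ, ∃ σ : ℝ, 0 < σ ∧ σ ≤ 1 ∧ D.kap k * ε / 2 < ‖∫ p, F m p * (ρ σ p : ℂ)‖ ∧
      ∀ v : ℂ, ‖v‖ ≤ σ → ∀ z : ℂ, ‖z‖ = 1 →
        ‖Qa θ φ (2 ^ m) (z * eu (D.lam k v)) - Qa θ φ (2 ^ m) z‖ < η / 2 := by
    intro m
    obtain ⟨σ, hσ⟩ := ((hlim1 m).and ((hlim2 m).and (hlim3.and self_mem_nhdsWithin))).exists
    exact ⟨σ, hσ.2.2.2, hσ.2.2.1, hσ.1, hσ.2.1⟩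
  choose σ hσ0 hσ1 hσ2 hσ3 using hex
  set E : ℕ → Set (TT g) := fun m => {p | η ≤ ‖F m p‖} with hEd
  have hEm : ∀ m, MeasurableSet (E m) := fun m => measurableSet_le measurable_const (hFm m).norm
  have hthin := D.thin_small k E hEm σ hσ0 hσ1 (by
    have hnull := Qa_null hθ hφ.injective (show 0 < η / 2 by positivity)
    filter_upwards [ae_torus (D.good_null hk0 hk hnull)] with p hp z hz
    have h13 : D.f (D.A (rep p) + z • D.dir k) = 0 := hz.2
    have h14 : ∀ᶠ m : ℕ in atTop,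
        ‖Qa θ φ (2 ^ m) (eu (dt k (rep p + D.A.symm (z • D.dir k))))‖ < η / 2 := by
      by_contra hno
      exact hp z hno h13
    filter_upwards [h14] with m hm w hw hmem
    have h15 : chi k (p + D.dis (z • D.dir k)) =
        eu (dt k (rep p + D.A.symm (z • D.dir k))) := by
      have : p + D.dis (z • D.dir k) = pr (rep p + D.A.symm (z • D.dir k)) := by
        rw [pr_add, pr_rep]
        rfl
      rw [this, chi_pr]
      rfl
    have h16 := hσ3 m (w - z) hw (chi k (p + D.dis (z • D.dir k))) (norm_chi _ _)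
    rw [← D.dis_sub, h15] at h16
    have h17 : η ≤ ‖Qa θ φ (2 ^ m) (chi k (p + D.dis (w • D.dir k)))‖ := hmem
    have h18 := norm_le_norm_add_norm_sub (Qa θ φ (2 ^ m) (eu (dt k (rep p + D.A.symm (z • D.dir k)))))
      (Qa θ φ (2 ^ m) (chi k (p + D.dis (w • D.dir k))))
    rw [norm_sub_rev] at h16
    linarith)
  have hlow : ∀ m, D.kap k * ε / 4 ≤ ∫ p, D.hE k (E m) (σ m) p := by
    intro m
    have h1 : ‖∫ p, F m p * (ρ (σ m) p : ℂ)‖ ≤
        ∫ p, (D.hE k (E m) (σ m) p + η * ρ (σ m) p) := by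
      refine (norm_integral_le_integral_norm _).trans ?_
      refine integral_mono_of_nonneg (Filter.Eventually.of_forall fun _ => norm_nonneg _)
        ((D.integrable_hE k (hEm m) (σ m)).add ((hρi _).const_mul _)) ?_
      filter_upwards [hρ0 (σ m)] with p hp
      rw [norm_mul, Complex.norm_real, Real.norm_of_nonneg hp]
      unfold Dat.hE
      by_cases hs : p ∈ E m
      · rw [indicator_of_mem hs]
        have h2 := mul_le_mul_of_nonneg_right (hF1 m p) hp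
        have h3 : 0 ≤ η * ρ (σ m) p := mul_nonneg hηpos.le hp
        rw [one_mul] at h2
        exact h2.trans (le_add_of_nonneg_right h3)
      · rw [indicator_of_notMem hs, zero_add]
        have h4 : ‖F m p‖ < η := not_le.1 hs
        exact mul_le_mul_of_nonneg_right h4.le hp
    rw [integral_add (D.integrable_hE k (hEm m) (σ m)) ((hρi _).const_mul _), integral_const_mul,
      hρm _ (hσ0 m)] at h1
    have h2 := hσ2 m
    have h3 : η * D.q (D.dir k) ≤ D.kap k * ε / 4 := by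
      rw [hη, div_mul_eq_mul_div, div_le_div_iff₀ (by positivity) (by norm_num)]
      have : 0 < D.kap k * ε := by positivity
      nlinarith
    linarith
  have := ge_of_tendsto' hthin hlow
  have h5 : 0 < D.kap k * ε := by positivity
  linarith

end Dat

end Run7.h92
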