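import Pool.Agent.Run7.h92.Theta

/-!
# Transformation laws of theta functions
-/

namespace Run7.h92

open Complex Metric Real Set Filter Topology Matrix

variable {g : ℕ}

/-- shifted lattice vector -/
noncomputable def nu (n : Fin g → ℤ) (ε : Fin g → ℝ) : Fin g → ℂ := fun i => (n i : ℂ) + ε i

theorem dbl (x y : Fin g → ℂ) (M : MM g) :
    ∑ i, ∑ j, x i * M i j * y j = x ⬝ᵥ (Matrix.of M) *ᵥ y := by
  simp only [dotProduct, mulVec, Finset.mul_sum, mul_assoc, Matrix.of_apply]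

theorem ex_eq (τ : MM g) (ε : Fin g → ℝ) (z : Fin g → ℂ) (n : Fin g → ℤ) :
    ex τ ε z n = π * I * (nu n ε ⬝ᵥ (Matrix.of τ) *ᵥ nu n ε) + 2 * π * I * (nu n ε ⬝ᵥ z) := by
  unfold ex
  rw [← dbl]
  rfl

theorem thc_shift_char (τ : MM g) (ε : Fin g → ℝ) (z : Fin g → ℂ) (m : Fin g → ℤ) :
    thc τ (fun i => ε i + m i) z = thc τ ε z := by
  unfold thc
  rw [← (Equiv.addRight m).tsum_eq (fun n => cexp (ex τ ε z n))]
  refine tsum_congr fun n => ?_
  congr 1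
  unfold ex
  simp only [Equiv.coe_addRight, Pi.add_apply]
  push_cast
  have : ∀ i, ((n i : ℂ) + (ε i + m i)) = ((n i : ℂ) + m i + ε i) := fun i => by ring
  simp_rw [this]

theorem thc_shift_z (τ : MM g) (ε : Fin g → ℝ) (z : Fin g → ℂ) (m : Fin g → ℤ) :
    thc τ ε (fun i => z i + m i) = cexp (2 * π * I * ∑ i, (ε i : ℂ) * m i) * thc τ ε z := by
  unfold thc
  rw [← tsum_mul_left]
  refine tsum_congr fun n => ?_
  rw [← Complex.exp_add, Complex.exp_eq_exp_iff_exists_int]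
  refine ⟨∑ i, n i * m i, ?_⟩
  unfold ex
  have : ∑ i, ((n i : ℂ) + ε i) * (z i + m i) = ∑ i, ((n i : ℂ) + ε i) * z i +
      (∑ i, (ε i : ℂ) * m i + ∑ i, (n i : ℂ) * m i) := by
    rw [← Finset.sum_add_distrib, ← Finset.sum_add_distrib]
    exact Finset.sum_congr rfl fun i _ => by ring
  rw [this]
  push_cast
  ring

/-- characteristics as translations -/
theorem thc_char {τ : MM g} (hs : ∀ i j, τ i j = τ j i) (ε : Fin g → ℝ) (z : Fin g → ℂ) :
    thc τ ε z = cexp (π * I * (∑ i, ∑ j, (ε i : ℂ) * τ i j * ε j) + 2 * π * I * ∑ i, (ε i : ℂ) * z i) *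
      thc τ 0 (fun i => z i + ∑ j, τ i j * ε j) := by
  unfold thc
  rw [← tsum_mul_left]
  refine tsum_congr fun n => ?_
  rw [← Complex.exp_add]
  congr 1
  unfold ex
  have e1 : ∑ i, ∑ j, ((n i : ℂ) + ε i) * τ i j * ((n j : ℂ) + ε j) =
      ∑ i, ∑ j, (n i : ℂ) * τ i j * n j + 2 * ∑ i, ∑ j, (n i : ℂ) * τ i j * ε j +
        ∑ i, ∑ j, (ε i : ℂ) * τ i j * ε j := by
    have e2 : ∑ i, ∑ j, (ε i : ℂ) * τ i j * n j = ∑ i, ∑ j, (n i : ℂ) * τ i j * ε j := by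
      rw [Finset.sum_comm]
      refine Finset.sum_congr rfl fun i _ => Finset.sum_congr rfl fun j _ => ?_
      rw [hs j i]; ring
    have e3 : ∑ i, ∑ j, ((n i : ℂ) + ε i) * τ i j * ((n j : ℂ) + ε j) =
      ∑ i, ∑ j, (n i : ℂ) * τ i j * n j + ∑ i, ∑ j, (n i : ℂ) * τ i j * ε j +
        ∑ i, ∑ j, (ε i : ℂ) * τ i j * n j + ∑ i, ∑ j, (ε i : ℂ) * τ i j * ε j := by
      simp_rw [← Finset.sum_add_distrib]
      refine Finset.sum_congr rfl fun i _ => Finset.sum_congr rfl fun j _ => ?_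
      ring
    rw [e3, e2]; ring
  have e4 : ∑ i, ((n i : ℂ) + ((0 : Fin g → ℝ) i : ℂ)) * (z i + ∑ j, τ i j * ε j) =
      ∑ i, (n i : ℂ) * z i + ∑ i, ∑ j, (n i : ℂ) * τ i j * ε j := by
    rw [← Finset.sum_add_distrib]
    refine Finset.sum_congr rfl fun i _ => ?_
    simp only [Pi.zero_apply, Complex.ofReal_zero, add_zero]
    rw [mul_add, Finset.mul_sum]
    congr 1
    exact Finset.sum_congr rfl fun j _ => by ring
  have e5 : ∑ i, ((n i : ℂ) + ε i) * z i = ∑ i, (n i : ℂ) * z i + ∑ i, (ε i : ℂ) * z i := by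
    rw [← Finset.sum_add_distrib]
    exact Finset.sum_congr rfl fun i _ => by ring
  rw [e1, e4, e5]
  simp only [Pi.zero_apply, Complex.ofReal_zero, add_zero]
  ring

/-- translation by an integral symmetric matrix -/
theorem thc_T {τ : MM g} (B : Fin g → Fin g → ℤ) (hB : ∀ i j, B i j = B j i) (ε : Fin g → ℝ)
    (z : Fin g → ℂ) :
    thc (fun i j => τ i j + B i j) ε z =
      cexp (-(π * I * (∑ i, ∑ j, (ε i : ℂ) * B i j * ε j)) - π * I * ∑ i, (B i i : ℂ) * ε i) *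
      thc τ ε (fun i => z i + ∑ j, (B i j : ℂ) * ε j + (B i i : ℂ) / 2) := by
  unfold thc
  rw [← tsum_mul_left]
  refine tsum_congr fun n => ?_
  rw [← Complex.exp_add, Complex.exp_eq_exp_iff_exists_int]
  -- parity
  obtain ⟨k, hk⟩ : ∃ k : ℤ, ∑ i, ∑ j, n i * B i j * n j = ∑ i, B i i * n i + 2 * k := by
    have h1 : ∀ (G : ℕ) (B : Fin G → Fin G → ℤ), (∀ i j, B i j = B j i) → ∀ n : Fin G → ℤ,
        ∃ k : ℤ, ∑ i, ∑ j, n i * B i j * n j = ∑ i, B i i * n i + 2 * k := by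
      intro G
      induction G with
      | zero => intro B _ n; exact ⟨0, by simp⟩
      | succ G ih =>
        intro B hB n
        obtain ⟨k, hk⟩ := ih (fun i j => B i.succ j.succ) (fun i j => hB _ _) (fun i => n i.succ)
        have hpar : ∃ l : ℤ, n 0 * n 0 = n 0 + 2 * l := by
          obtain ⟨l, hl⟩ := Int.even_mul_pred_self (n 0)
          exact ⟨l, by linarith⟩
        obtain ⟨l, hl⟩ := hpar
        refine ⟨k + l * B 0 0 + ∑ j : Fin G, n 0 * B 0 j.succ * n j.succ, ?_⟩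
        simp only [Fin.sum_univ_succ, Finset.sum_add_distrib]
        rw [hk]
        have e1 : ∑ x : Fin G, n x.succ * B x.succ 0 * n 0 = ∑ j : Fin G, n 0 * B 0 j.succ * n j.succ := by
          refine Finset.sum_congr rfl fun j _ => ?_
          rw [hB j.succ 0]; ring
        rw [e1]
        linear_combination B 0 0 * hl
    exact h1 g B hB n
  refine ⟨k, ?_⟩
  unfold ex
  have hkc : ∑ i, ∑ j, (n i : ℂ) * B i j * n j = ∑ i, (B i i : ℂ) * n i + 2 * k := by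
    exact_mod_cast hk
  have e2 : ∑ i, ∑ j, (ε i : ℂ) * B i j * n j = ∑ i, ∑ j, (n i : ℂ) * B i j * ε j := by
    rw [Finset.sum_comm]
    refine Finset.sum_congr rfl fun i _ => Finset.sum_congr rfl fun j _ => ?_
    rw [hB j i]; ring
  have e3 : ∑ i, ∑ j, ((n i : ℂ) + ε i) * (τ i j + B i j) * ((n j : ℂ) + ε j) =
      ∑ i, ∑ j, ((n i : ℂ) + ε i) * τ i j * ((n j : ℂ) + ε j) +
      (∑ i, ∑ j, (n i : ℂ) * B i j * n j + ∑ i, ∑ j, (n i : ℂ) * B i j * ε j +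
        ∑ i, ∑ j, (ε i : ℂ) * B i j * n j + ∑ i, ∑ j, (ε i : ℂ) * B i j * ε j) := by
    simp_rw [← Finset.sum_add_distrib]
    refine Finset.sum_congr rfl fun i _ => Finset.sum_congr rfl fun j _ => ?_
    ring
  have e4 : ∑ i, ((n i : ℂ) + ε i) * (z i + ∑ j, (B i j : ℂ) * ε j + (B i i : ℂ) / 2) =
      ∑ i, ((n i : ℂ) + ε i) * z i + (∑ i, ∑ j, (n i : ℂ) * B i j * ε j +
        ∑ i, ∑ j, (ε i : ℂ) * B i j * ε j) + (∑ i, (B i i : ℂ) * n i + ∑ i, (B i i : ℂ) * ε i) / 2 := by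
    rw [← Finset.sum_add_distrib, ← Finset.sum_add_distrib, ← Finset.sum_add_distrib,
      Finset.sum_div, ← Finset.sum_add_distrib]
    refine Finset.sum_congr rfl fun i _ => ?_
    have e5 : ∑ j, (n i : ℂ) * B i j * ε j + ∑ j, (ε i : ℂ) * B i j * ε j =
        ((n i : ℂ) + ε i) * ∑ j, (B i j : ℂ) * ε j := by
      rw [Finset.mul_sum, ← Finset.sum_add_distrib]
      exact Finset.sum_congr rfl fun j _ => by ring
    rw [e5]; ring
  rw [e3, e4, e2, hkc]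
  ring

/-- the action of `GL(g, ℤ)` on matrices -/
def Rm (U : Matrix (Fin g) (Fin g) ℤ) (τ : MM g) : MM g :=
  U.map (Int.cast : ℤ → ℂ) * Matrix.of τ * (U.map (Int.cast : ℤ → ℂ))ᵀ

theorem thc_R (τ : MM g) {U V : Matrix (Fin g) (Fin g) ℤ} (h1 : U * V = 1) (h2 : V * U = 1)
    (ε : Fin g → ℝ) (z : Fin g → ℂ) :
    thc (Rm U τ) ε z = thc τ ((U.map (Int.cast : ℤ → ℝ))ᵀ *ᵥ ε) (V.map (Int.cast : ℤ → ℂ) *ᵥ z) := by
  unfold thc
  have hUt : Uᵀ * Vᵀ = 1 := by rw [← transpose_mul, h2, transpose_one]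
  have hVt : Vᵀ * Uᵀ = 1 := by rw [← transpose_mul, h1, transpose_one]
  set e : (Fin g → ℤ) ≃ (Fin g → ℤ) :=
    { toFun := fun n => Uᵀ *ᵥ n
      invFun := fun n => Vᵀ *ᵥ n
      left_inv := fun n => by simp only [mulVec_mulVec, hVt, one_mulVec]
      right_inv := fun n => by simp only [mulVec_mulVec, hUt, one_mulVec] } with he
  rw [← e.tsum_eq (fun n => cexp (ex τ _ _ n))]
  refine tsum_congr fun n => ?_
  congr 1
  rw [ex_eq, ex_eq]
  have e1 : nu (e n) ((U.map (Int.cast : ℤ → ℝ))ᵀ *ᵥ ε) = (U.map (Int.cast : ℤ → ℂ))ᵀ *ᵥ nu n ε := by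
    funext i
    simp only [nu, he, Equiv.coe_fn_mk, mulVec, dotProduct, transpose_apply, map_apply]
    push_cast
    rw [← Finset.sum_add_distrib]
    exact Finset.sum_congr rfl fun j _ => by ring
  rw [e1]
  have e2 : (U.map (Int.cast : ℤ → ℂ)) * (V.map (Int.cast : ℤ → ℂ)) = 1 := by
    have : ((U * V).map (Int.cast : ℤ → ℂ)) = 1 := by
      rw [h1]; simp
    rw [← this]
    exact (Matrix.map_mul (f := Int.castRingHom ℂ)).symm
  have e3 : nu n ε ⬝ᵥ (Matrix.of (Rm U τ)) *ᵥ nu n ε =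
      ((U.map (Int.cast : ℤ → ℂ))ᵀ *ᵥ nu n ε) ⬝ᵥ (Matrix.of τ) *ᵥ
        ((U.map (Int.cast : ℤ → ℂ))ᵀ *ᵥ nu n ε) := by
    have h : Matrix.of (Rm U τ) = U.map (Int.cast : ℤ → ℂ) * Matrix.of τ *
      (U.map (Int.cast : ℤ → ℂ))ᵀ := rfl
    rw [h, ← mulVec_mulVec, ← mulVec_mulVec, dotProduct_mulVec, ← mulVec_transpose]
  have e4 : ((U.map (Int.cast : ℤ → ℂ))ᵀ *ᵥ nu n ε) ⬝ᵥ (V.map (Int.cast : ℤ → ℂ) *ᵥ z) =
      nu n ε ⬝ᵥ z := by
    rw [mulVec_transpose, ← dotProduct_mulVec, mulVec_mulVec, e2, one_mulVec]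
  rw [e3, e4]

end Run7.h92
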