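import Pool.Agent.Run7.h92.Theta

/-!
# The inversion in one variable
-/

namespace Run7.h92

open Complex Metric Real Set Filter Topology Matrix

variable {g : ℕ}

/-- Poisson summation in one variable with characteristics -/
theorem poisson {τ : ℂ} (_hτ : 0 < τ.im) (ε : ℝ) (s : ℂ) :
    ∑' n : ℤ, cexp (π * I * ((n : ℂ) + ε) ^ 2 * τ + 2 * π * I * ((n : ℂ) + ε) * s) =
      1 / (-I * τ) ^ (1 / 2 : ℂ) *
        ∑' m : ℤ, cexp (-(π * I * ((m : ℂ) - s) ^ 2 / τ) + 2 * π * I * m * ε) := by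
  have hτ0 : τ ≠ 0 := by
    intro h
    rw [h] at _hτ
    simp at _hτ
  have h1 : ∑' n : ℤ, cexp (π * I * ((n : ℂ) + ε) ^ 2 * τ + 2 * π * I * ((n : ℂ) + ε) * s) =
      cexp (π * I * ε ^ 2 * τ + 2 * π * I * ε * s) * jacobiTheta₂ (s + ε * τ) τ := by
    unfold jacobiTheta₂ jacobiTheta₂_term
    rw [← tsum_mul_left]
    refine tsum_congr fun n => ?_
    rw [← Complex.exp_add]
    congr 1
    ring
  have h2 : ∑' m : ℤ, cexp (-(π * I * ((m : ℂ) - s) ^ 2 / τ) + 2 * π * I * m * ε) =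
      cexp (-(π * I * s ^ 2 / τ)) * jacobiTheta₂ ((s + ε * τ) / τ) (-1 / τ) := by
    unfold jacobiTheta₂ jacobiTheta₂_term
    rw [← tsum_mul_left]
    refine tsum_congr fun n => ?_
    rw [← Complex.exp_add]
    congr 1
    field_simp
    ring
  rw [h1, h2, jacobiTheta₂_functional_equation]
  have h3 : cexp (π * I * ε ^ 2 * τ + 2 * π * I * ε * s) * cexp (-π * I * (s + ε * τ) ^ 2 / τ) =
      cexp (-(π * I * s ^ 2 / τ)) := by
    rw [← Complex.exp_add]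
    congr 1
    field_simp
    ring
  rw [← h3]
  ring

theorem ex_cons {τ : MM (g + 1)} (hs : ∀ i j, τ i j = τ j i) (ε : Fin (g + 1) → ℝ)
    (z : Fin (g + 1) → ℂ) (a : ℤ) (n : Fin g → ℤ) :
    ex τ ε z (Fin.cons a n : Fin (g + 1) → ℤ) =
      π * I * (((a : ℂ) + ε 0) ^ 2 * τ 0 0 +
        2 * ((a : ℂ) + ε 0) * ∑ j : Fin g, τ 0 j.succ * ((n j : ℂ) + ε j.succ) +
        ∑ i : Fin g, ∑ j : Fin g, ((n i : ℂ) + ε i.succ) * τ i.succ j.succ * ((n j : ℂ) + ε j.succ)) +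
      2 * π * I * (((a : ℂ) + ε 0) * z 0 + ∑ j : Fin g, ((n j : ℂ) + ε j.succ) * z j.succ) := by
  unfold ex
  simp only [Fin.sum_univ_succ, Fin.cons_zero, Fin.cons_succ, Finset.sum_add_distrib]
  have e1 : ∑ x : Fin g, ((n x : ℂ) + ε x.succ) * τ x.succ 0 * ((a : ℂ) + ε 0) =
      ((a : ℂ) + ε 0) * ∑ j : Fin g, τ 0 j.succ * ((n j : ℂ) + ε j.succ) := by
    rw [Finset.mul_sum]
    refine Finset.sum_congr rfl fun j _ => ?_
    rw [hs j.succ 0]; ring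
  have e2 : ∑ x : Fin g, ((a : ℂ) + ε 0) * τ 0 x.succ * ((n x : ℂ) + ε x.succ) =
      ((a : ℂ) + ε 0) * ∑ j : Fin g, τ 0 j.succ * ((n j : ℂ) + ε j.succ) := by
    rw [Finset.mul_sum]
    exact Finset.sum_congr rfl fun j _ => by ring
  rw [e1, e2]
  ring

/-- the inversion of the first variable -/
noncomputable def Jm (τ : MM (g + 1)) : MM (g + 1) :=
  Fin.cons (Fin.cons (-1 / τ 0 0) fun j => τ 0 j.succ / τ 0 0)
    fun i => Fin.cons (τ 0 i.succ / τ 0 0) fun j =>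
      τ i.succ j.succ - τ 0 i.succ * τ 0 j.succ / τ 0 0

@[simp] theorem Jm_00 (τ : MM (g + 1)) : Jm τ 0 0 = -1 / τ 0 0 := rfl
@[simp] theorem Jm_0s (τ : MM (g + 1)) (j : Fin g) : Jm τ 0 j.succ = τ 0 j.succ / τ 0 0 := rfl
@[simp] theorem Jm_s0 (τ : MM (g + 1)) (i : Fin g) : Jm τ i.succ 0 = τ 0 i.succ / τ 0 0 := rfl
@[simp] theorem Jm_ss (τ : MM (g + 1)) (i j : Fin g) :
    Jm τ i.succ j.succ = τ i.succ j.succ - τ 0 i.succ * τ 0 j.succ / τ 0 0 := rfl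

theorem Jm_symm {τ : MM (g + 1)} (hs : ∀ i j, τ i j = τ j i) : ∀ i j, Jm τ i j = Jm τ j i := by
  intro i j
  refine Fin.cases ?_ (fun i => ?_) i <;> refine Fin.cases ?_ (fun j => ?_) j
  · rfl
  · simp
  · simp
  · simp only [Jm_ss]
    rw [hs i.succ j.succ]; ring

theorem LB_00 {c : ℝ} {τ : MM (g + 1)} (h : LB c τ) : c ≤ (τ 0 0).im := by
  have := h (Pi.single 0 1)
  simpa [Pi.single_apply, Finset.sum_ite_eq] using this

/-- the symmetric positive matrices -/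
def HH (g : ℕ) : Set (MM g) := {τ | (∀ i j, τ i j = τ j i) ∧ ∃ c : ℝ, 0 < c ∧ LB c τ}

theorem Jm_LB {c : ℝ} (hc : 0 < c) {τ : MM (g + 1)} (hs : ∀ i j, τ i j = τ j i) (h : LB c τ) :
    ∃ c' : ℝ, 0 < c' ∧ LB c' (Jm τ) := by
  have h00 : 0 < (τ 0 0).im := hc.trans_le (LB_00 h)
  have hτ0 : τ 0 0 ≠ 0 := by
    intro h
    rw [h] at h00
    simp at h00
  set K : ℝ := 2 * ‖τ 0 0‖ ^ 2 + 2 * ∑ j : Fin g, ‖τ 0 j.succ‖ ^ 2 + 1 with hK
  have hK0 : 0 < K := by positivity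
  refine ⟨c / K, by positivity, fun x => ?_⟩
  set T : ℂ := ∑ j : Fin g, τ 0 j.succ * x j.succ with hT
  set w : ℂ := ((x 0 : ℂ) - T) / τ 0 0 with hw
  have hx0 : (x 0 : ℂ) = τ 0 0 * w + T := by
    rw [hw]; field_simp; ring
  -- the quadratic form
  have hTim : T.im = -(τ 0 0 * w).im := by
    have := congrArg Complex.im hx0
    rw [Complex.ofReal_im, Complex.add_im] at this
    linarith
  have hQ : ∀ y : ℝ, ∑ i, ∑ j, (Fin.cons y (fun k => x k.succ) : Fin (g + 1) → ℝ) i * (τ i j).im *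
        (Fin.cons y (fun k => x k.succ) : Fin (g + 1) → ℝ) j = y ^ 2 * (τ 0 0).im + 2 * y * T.im +
        ∑ i : Fin g, ∑ j : Fin g, x i.succ * (τ i.succ j.succ).im * x j.succ := by
    intro y
    simp only [Fin.sum_univ_succ, Fin.cons_zero, Fin.cons_succ, Finset.sum_add_distrib]
    have e0 : T.im = ∑ j : Fin g, (τ 0 j.succ).im * x j.succ := by
      rw [hT, Complex.im_sum]
      refine Finset.sum_congr rfl fun j _ => ?_
      rw [mul_comm, Complex.im_ofReal_mul, mul_comm]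
    have e1 : ∑ k : Fin g, x k.succ * (τ k.succ 0).im * y = y * T.im := by
      rw [e0, Finset.mul_sum]
      refine Finset.sum_congr rfl fun j _ => ?_
      rw [hs j.succ 0]; ring
    have e2 : ∑ k : Fin g, y * (τ 0 k.succ).im * x k.succ = y * T.im := by
      rw [e0, Finset.mul_sum]
      exact Finset.sum_congr rfl fun j _ => by ring
    rw [e1, e2]; ring
  have key : ∑ i, ∑ j, x i * (Jm τ i j).im * x j =
      (w.re ^ 2 * (τ 0 0).im + 2 * w.re * T.im +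
        ∑ i : Fin g, ∑ j : Fin g, x i.succ * (τ i.succ j.succ).im * x j.succ) +
      (τ 0 0).im * w.im ^ 2 := by
    have e1 : ∑ i, ∑ j, x i * (Jm τ i j).im * x j =
        (∑ i, ∑ j, (x i : ℂ) * Jm τ i j * x j).im := by
      rw [Complex.im_sum]
      refine Finset.sum_congr rfl fun i _ => ?_
      rw [Complex.im_sum]
      refine Finset.sum_congr rfl fun j _ => ?_
      have : (x i : ℂ) * Jm τ i j * x j = ((x i * x j : ℝ) : ℂ) * Jm τ i j := by push_cast; ring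
      rw [this, Complex.im_ofReal_mul]; ring
    have e2 : (∑ i, ∑ j, (x i : ℂ) * Jm τ i j * x j) =
        -(τ 0 0 * w ^ 2) + ∑ i : Fin g, ∑ j : Fin g, (x i.succ : ℂ) * τ i.succ j.succ * x j.succ := by
      simp only [Fin.sum_univ_succ, Finset.sum_add_distrib, Jm_00, Jm_0s, Jm_s0, Jm_ss]
      have f1 : ∑ k : Fin g, (x k.succ : ℂ) * (τ 0 k.succ / τ 0 0) * x 0 = x 0 * T / τ 0 0 := by
        rw [hT, Finset.mul_sum, Finset.sum_div]
        exact Finset.sum_congr rfl fun j _ => by ring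
      have f2 : ∑ k : Fin g, (x 0 : ℂ) * (τ 0 k.succ / τ 0 0) * x k.succ = x 0 * T / τ 0 0 := by
        rw [hT, Finset.mul_sum, Finset.sum_div]
        exact Finset.sum_congr rfl fun j _ => by ring
      have f3 : ∑ i : Fin g, ∑ j : Fin g, (x i.succ : ℂ) *
          (τ i.succ j.succ - τ 0 i.succ * τ 0 j.succ / τ 0 0) * x j.succ =
          ∑ i : Fin g, ∑ j : Fin g, (x i.succ : ℂ) * τ i.succ j.succ * x j.succ -
            T * T / τ 0 0 := by
        rw [hT, Finset.sum_mul_sum, Finset.sum_div, ← Finset.sum_sub_distrib]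
        refine Finset.sum_congr rfl fun i _ => ?_
        rw [Finset.sum_div, ← Finset.sum_sub_distrib]
        exact Finset.sum_congr rfl fun j _ => by ring
      rw [f1, f2, f3, hw]
      field_simp
      ring
    have e3 : (∑ i : Fin g, ∑ j : Fin g, (x i.succ : ℂ) * τ i.succ j.succ * x j.succ).im =
        ∑ i : Fin g, ∑ j : Fin g, x i.succ * (τ i.succ j.succ).im * x j.succ := by
      rw [Complex.im_sum]
      refine Finset.sum_congr rfl fun i _ => ?_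
      rw [Complex.im_sum]
      refine Finset.sum_congr rfl fun j _ => ?_
      have : (x i.succ : ℂ) * τ i.succ j.succ * x j.succ =
        ((x i.succ * x j.succ : ℝ) : ℂ) * τ i.succ j.succ := by push_cast; ring
      rw [this, Complex.im_ofReal_mul]; ring
    rw [e1, e2, Complex.add_im, e3, hTim]
    simp only [Complex.neg_im, Complex.mul_im, sq, Complex.mul_re]
    ring
  have h1 := h (Fin.cons w.re (fun k => x k.succ))
  rw [hQ] at h1
  simp only [Fin.sum_univ_succ, Fin.cons_zero, Fin.cons_succ] at h1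
  have h2 : c * w.im ^ 2 ≤ (τ 0 0).im * w.im ^ 2 := by
    have := LB_00 h
    gcongr
  have h3 : ‖w‖ ^ 2 = w.re ^ 2 + w.im ^ 2 := by
    rw [Complex.sq_norm, Complex.normSq_apply]; ring
  have h4 : c * (‖w‖ ^ 2 + ∑ j : Fin g, x j.succ ^ 2) ≤ ∑ i, ∑ j, x i * (Jm τ i j).im * x j := by
    rw [key, h3]
    linarith
  have h5 : ‖T‖ ^ 2 ≤ (∑ j : Fin g, ‖τ 0 j.succ‖ ^ 2) * ∑ j : Fin g, x j.succ ^ 2 := by
    have h6 : ‖T‖ ≤ ∑ j : Fin g, ‖τ 0 j.succ‖ * |x j.succ| := by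
      rw [hT]
      refine (norm_sum_le _ _).trans (Finset.sum_le_sum fun j _ => ?_)
      rw [norm_mul, Complex.norm_real, Real.norm_eq_abs]
    calc ‖T‖ ^ 2 ≤ (∑ j : Fin g, ‖τ 0 j.succ‖ * |x j.succ|) ^ 2 := by gcongr
      _ ≤ (∑ j : Fin g, ‖τ 0 j.succ‖ ^ 2) * ∑ j : Fin g, |x j.succ| ^ 2 :=
        Finset.sum_mul_sq_le_sq_mul_sq _ _ _
      _ = _ := by simp only [sq_abs]
  have h6 : x 0 ^ 2 ≤ 2 * (‖τ 0 0‖ ^ 2 * ‖w‖ ^ 2) + 2 * ‖T‖ ^ 2 := by
    have h7 : |x 0| ≤ ‖τ 0 0‖ * ‖w‖ + ‖T‖ := by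
      calc |x 0| = ‖(x 0 : ℂ)‖ := by rw [Complex.norm_real, Real.norm_eq_abs]
        _ = ‖τ 0 0 * w + T‖ := by rw [← hx0]
        _ ≤ _ := by
          refine (norm_add_le _ _).trans ?_
          rw [norm_mul]
    have h8 : |x 0| ^ 2 ≤ (‖τ 0 0‖ * ‖w‖ + ‖T‖) ^ 2 := by gcongr
    rw [sq_abs] at h8
    nlinarith [sq_nonneg (‖τ 0 0‖ * ‖w‖ - ‖T‖)]
  have hS : 0 ≤ ∑ j : Fin g, x j.succ ^ 2 := Finset.sum_nonneg fun i _ => sq_nonneg _
  have hN : 0 ≤ ∑ j : Fin g, ‖τ 0 j.succ‖ ^ 2 := Finset.sum_nonneg fun i _ => sq_nonneg _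
  have h9 : ∑ i, x i ^ 2 ≤ K * (‖w‖ ^ 2 + ∑ j : Fin g, x j.succ ^ 2) := by
    rw [Fin.sum_univ_succ, hK]
    nlinarith [mul_nonneg hN (sq_nonneg ‖w‖), mul_nonneg (sq_nonneg ‖τ 0 0‖) hS, sq_nonneg ‖w‖]
  calc c / K * ∑ i, x i ^ 2 ≤ c / K * (K * (‖w‖ ^ 2 + ∑ j : Fin g, x j.succ ^ 2)) := by gcongr
    _ = c * (‖w‖ ^ 2 + ∑ j : Fin g, x j.succ ^ 2) := by field_simp
    _ ≤ _ := h4

/-- the theta function at real characteristics -/
noncomputable def th (τ : MM g) (ε δ : Fin g → ℝ) : ℂ := thc τ ε (fun i => (δ i : ℂ))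

theorem thc_J {τ : MM (g + 1)} (hτ : τ ∈ HH (g + 1)) (ε δ : Fin (g + 1) → ℝ) :
    th τ ε δ = 1 / (-I * τ 0 0) ^ (1 / 2 : ℂ) * cexp (2 * π * I * (ε 0 * δ 0)) *
      th (Jm τ) (Function.update ε 0 (-δ 0)) (Function.update δ 0 (ε 0)) := by
  obtain ⟨hs, c, hc, hLB⟩ := hτ
  obtain ⟨c', hc', hLB'⟩ := Jm_LB hc hs hLB
  have h00 : 0 < (τ 0 0).im := hc.trans_le (LB_00 hLB)
  have hτ0 : τ 0 0 ≠ 0 := by
    intro h
    rw [h] at h00
    simp at h00
  set e : (Fin g → ℤ) × ℤ ≃ (Fin (g + 1) → ℤ) :=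
    (Equiv.prodComm _ _).trans (Fin.consEquiv (fun _ => ℤ)) with he
  have he' : ∀ p, e p = (Fin.cons p.2 p.1 : Fin (g + 1) → ℤ) := fun p => rfl
  unfold th thc
  have s1 := summable_thc hc hLB ε (fun i => (δ i : ℂ))
  have s2 := summable_thc hc' hLB' (Function.update ε 0 (-δ 0))
    (fun i => ((Function.update δ 0 (ε 0) i : ℝ) : ℂ))
  have t1 := (e.summable_iff.2 s1).tsum_prod
  have t2 := (e.summable_iff.2 s2).tsum_prod
  simp only [Function.comp_apply] at t1 t2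
  rw [← e.tsum_eq, ← e.tsum_eq (fun n => cexp (ex (Jm τ) _ _ n)), t1, t2, ← tsum_mul_left]
  refine tsum_congr fun n => ?_
  simp only [he']
  simp only [ex_cons hs, ex_cons (Jm_symm hs)]
  set T : ℂ := ∑ j : Fin g, τ 0 j.succ * ((n j : ℂ) + ε j.succ) with hT
  set R : ℂ := ∑ i : Fin g, ∑ j : Fin g,
    ((n i : ℂ) + ε i.succ) * τ i.succ j.succ * ((n j : ℂ) + ε j.succ) with hR
  set S : ℂ := ∑ j : Fin g, ((n j : ℂ) + ε j.succ) * δ j.succ with hS
  have f1 : ∑ j : Fin g, Jm τ 0 j.succ * ((n j : ℂ) + (Function.update ε 0 (-δ 0) j.succ : ℝ)) =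
      T / τ 0 0 := by
    rw [hT, Finset.sum_div]
    refine Finset.sum_congr rfl fun j _ => ?_
    rw [Function.update_of_ne (Fin.succ_ne_zero j), Jm_0s]; ring
  have f2 : ∑ i : Fin g, ∑ j : Fin g, ((n i : ℂ) + (Function.update ε 0 (-δ 0) i.succ : ℝ)) *
      Jm τ i.succ j.succ * ((n j : ℂ) + (Function.update ε 0 (-δ 0) j.succ : ℝ)) =
      R - T * T / τ 0 0 := by
    rw [hR, hT, Finset.sum_mul_sum, Finset.sum_div, ← Finset.sum_sub_distrib]
    refine Finset.sum_congr rfl fun i _ => ?_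
    rw [Finset.sum_div, ← Finset.sum_sub_distrib]
    refine Finset.sum_congr rfl fun j _ => ?_
    rw [Function.update_of_ne (Fin.succ_ne_zero j), Function.update_of_ne (Fin.succ_ne_zero i),
      Jm_ss]
    ring
  have f3 : ∑ j : Fin g, ((n j : ℂ) + (Function.update ε 0 (-δ 0) j.succ : ℝ)) *
      ((Function.update δ 0 (ε 0) j.succ : ℝ) : ℂ) = S := by
    rw [hS]
    refine Finset.sum_congr rfl fun j _ => ?_
    rw [Function.update_of_ne (Fin.succ_ne_zero j), Function.update_of_ne (Fin.succ_ne_zero j)]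
  simp only [f1, f2, f3, Function.update_self, Jm_00]
  have g1 : ∀ a : ℤ, cexp (π * I * (((a : ℂ) + ε 0) ^ 2 * τ 0 0 + 2 * ((a : ℂ) + ε 0) * T + R) +
      2 * π * I * (((a : ℂ) + ε 0) * δ 0 + S)) =
      cexp (π * I * ((a : ℂ) + ε 0) ^ 2 * τ 0 0 + 2 * π * I * ((a : ℂ) + ε 0) * (δ 0 + T)) *
        cexp (π * I * R + 2 * π * I * S) := by
    intro a
    rw [← Complex.exp_add]
    congr 1
    ring
  have g2 : ∀ a : ℤ, 1 / (-I * τ 0 0) ^ (1 / 2 : ℂ) * cexp (2 * π * I * (ε 0 * δ 0)) *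
      cexp (π * I * (((a : ℂ) + ((-δ 0 : ℝ) : ℂ)) ^ 2 * (-1 / τ 0 0) +
        2 * ((a : ℂ) + ((-δ 0 : ℝ) : ℂ)) * (T / τ 0 0) + (R - T * T / τ 0 0)) +
      2 * π * I * (((a : ℂ) + ((-δ 0 : ℝ) : ℂ)) * ε 0 + S)) =
      (1 / (-I * τ 0 0) ^ (1 / 2 : ℂ) *
        cexp (-(π * I * ((a : ℂ) - (δ 0 + T)) ^ 2 / τ 0 0) + 2 * π * I * a * ε 0)) *
        cexp (π * I * R + 2 * π * I * S) := by
    intro a
    have k1 : ∀ x y z u v : ℂ, x + y = u + v → z * cexp x * cexp y = z * cexp u * cexp v := by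
      intro x y z u v h
      rw [mul_assoc, mul_assoc, ← Complex.exp_add, ← Complex.exp_add, h]
    refine k1 _ _ _ _ _ ?_
    push_cast
    field_simp
    ring
  simp only [g1]
  rw [← tsum_mul_left]
  simp only [g2]
  rw [tsum_mul_right, tsum_mul_right, tsum_mul_left, poisson h00]

end Run7.h92
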