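import Pool.Agent.Run7.h92.SpGen
import Pool.Agent.Run7.h92.Transf
import Pool.Agent.Run7.h92.TransfJ

/-!
# The action of the integral symplectic group
-/

namespace Run7.h92

open Matrix Complex

variable {g : ℕ}

/-- integer matrices as complex matrices -/
def ci (A : Matrix (Fin g) (Fin g) ℤ) : Matrix (Fin g) (Fin g) ℂ := A.map (Int.cast : ℤ → ℂ)

theorem ci_mul (A B : Matrix (Fin g) (Fin g) ℤ) : ci (A * B) = ci A * ci B :=
  Matrix.map_mul (L := A) (M := B) (f := Int.castRingHom ℂ)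

theorem ci_add (A B : Matrix (Fin g) (Fin g) ℤ) : ci (A + B) = ci A + ci B := by
  ext i j
  simp [ci]

theorem ci_one : ci (1 : Matrix (Fin g) (Fin g) ℤ) = 1 := by
  ext i j
  simp [ci, Matrix.one_apply]

theorem ci_zero : ci (0 : Matrix (Fin g) (Fin g) ℤ) = 0 := by
  ext i j
  simp [ci]

theorem ci_transpose (A : Matrix (Fin g) (Fin g) ℤ) : ci Aᵀ = (ci A)ᵀ := rfl

/-- numerator -/
noncomputable def num (M : Z2 g) (τ : MM g) : Matrix (Fin g) (Fin g) ℂ :=
  ci M.toBlocks₁₁ * Matrix.of τ + ci M.toBlocks₁₂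

/-- denominator -/
noncomputable def aut (M : Z2 g) (τ : MM g) : Matrix (Fin g) (Fin g) ℂ :=
  ci M.toBlocks₂₁ * Matrix.of τ + ci M.toBlocks₂₂

/-- the action -/
noncomputable def act (M : Z2 g) (τ : MM g) : MM g := num M τ * (aut M τ)⁻¹

theorem of_act (M : Z2 g) (τ : MM g) : Matrix.of (act M τ) = num M τ * (aut M τ)⁻¹ := rfl

theorem blocks_mul (M N : Z2 g) :
    (M * N).toBlocks₁₁ = M.toBlocks₁₁ * N.toBlocks₁₁ + M.toBlocks₁₂ * N.toBlocks₂₁ ∧
    (M * N).toBlocks₁₂ = M.toBlocks₁₁ * N.toBlocks₁₂ + M.toBlocks₁₂ * N.toBlocks₂₂ ∧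
    (M * N).toBlocks₂₁ = M.toBlocks₂₁ * N.toBlocks₁₁ + M.toBlocks₂₂ * N.toBlocks₂₁ ∧
    (M * N).toBlocks₂₂ = M.toBlocks₂₁ * N.toBlocks₁₂ + M.toBlocks₂₂ * N.toBlocks₂₂ := by
  have h : M * N = fromBlocks (M.toBlocks₁₁ * N.toBlocks₁₁ + M.toBlocks₁₂ * N.toBlocks₂₁)
      (M.toBlocks₁₁ * N.toBlocks₁₂ + M.toBlocks₁₂ * N.toBlocks₂₂)
      (M.toBlocks₂₁ * N.toBlocks₁₁ + M.toBlocks₂₂ * N.toBlocks₂₁)
      (M.toBlocks₂₁ * N.toBlocks₁₂ + M.toBlocks₂₂ * N.toBlocks₂₂) := by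
    conv_lhs => rw [← fromBlocks_toBlocks M, ← fromBlocks_toBlocks N, fromBlocks_multiply]
  rw [h]
  simp only [toBlocks_fromBlocks₁₁, toBlocks_fromBlocks₁₂, toBlocks_fromBlocks₂₁,
    toBlocks_fromBlocks₂₂, and_self]

theorem num_act {M N : Z2 g} {τ : MM g} (h : (aut N τ).det ≠ 0) :
    num (M * N) τ = num M (act N τ) * aut N τ ∧ aut (M * N) τ = aut M (act N τ) * aut N τ := by
  have hu : IsUnit (aut N τ).det := isUnit_iff_ne_zero.2 h
  have h1 : Matrix.of (act N τ) * aut N τ = num N τ := by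
    rw [of_act, Matrix.mul_assoc, nonsing_inv_mul _ hu, Matrix.mul_one]
  obtain ⟨b1, b2, b3, b4⟩ := blocks_mul M N
  constructor
  · rw [num, num, Matrix.add_mul, Matrix.mul_assoc, h1, num, aut, b1, b2]
    simp only [ci_add, ci_mul, Matrix.mul_add, Matrix.add_mul, Matrix.mul_assoc]
    abel
  · rw [aut, aut.eq_1 M, Matrix.add_mul, Matrix.mul_assoc, h1, num, aut, b3, b4]
    simp only [ci_add, ci_mul, Matrix.mul_add, Matrix.add_mul, Matrix.mul_assoc]
    abel

theorem act_mul {M N : Z2 g} {τ : MM g} (h : (aut N τ).det ≠ 0) :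
    act (M * N) τ = act M (act N τ) := by
  have hu : IsUnit (aut N τ).det := isUnit_iff_ne_zero.2 h
  obtain ⟨h1, h2⟩ := num_act (M := M) h
  unfold act
  rw [h1, h2, Matrix.mul_inv_rev, Matrix.mul_assoc, ← Matrix.mul_assoc (aut N τ),
    mul_nonsing_inv _ hu, Matrix.one_mul]
  rfl

theorem aut_one (τ : MM g) : aut 1 τ = 1 := by
  unfold aut
  rw [← fromBlocks_one, toBlocks_fromBlocks₂₁, toBlocks_fromBlocks₂₂, ci_zero, ci_one]
  simp

theorem act_one (τ : MM g) : act 1 τ = τ := by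
  unfold act
  rw [aut_one]
  unfold num
  rw [← fromBlocks_one, toBlocks_fromBlocks₁₁, toBlocks_fromBlocks₁₂, ci_zero, ci_one]
  simp
  rfl

theorem aut_TB (B : Matrix (Fin g) (Fin g) ℤ) (τ : MM g) : aut (TB B) τ = 1 := by
  unfold aut TB
  rw [toBlocks_fromBlocks₂₁, toBlocks_fromBlocks₂₂, ci_zero, ci_one]
  simp

theorem act_TB (B : Matrix (Fin g) (Fin g) ℤ) (τ : MM g) :
    act (TB B) τ = fun i j => τ i j + B i j := by
  unfold act
  rw [aut_TB]
  unfold num TB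
  rw [toBlocks_fromBlocks₁₁, toBlocks_fromBlocks₁₂, ci_one]
  simp
  rfl

theorem aut_RU (U V : Matrix (Fin g) (Fin g) ℤ) (τ : MM g) : aut (RU U V) τ = (ci V)ᵀ := by
  unfold aut RU
  rw [toBlocks_fromBlocks₂₁, toBlocks_fromBlocks₂₂, ci_zero, ci_transpose]
  simp

theorem act_RU {U V : Matrix (Fin g) (Fin g) ℤ} (h1 : U * V = 1) (τ : MM g) :
    act (RU U V) τ = Rm U τ := by
  unfold act
  rw [aut_RU]
  have h3 : (ci V)ᵀ * (ci U)ᵀ = 1 := by
    rw [← transpose_mul, ← ci_mul, h1, ci_one, transpose_one]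
  rw [Matrix.inv_eq_right_inv h3]
  unfold num RU
  rw [toBlocks_fromBlocks₁₁, toBlocks_fromBlocks₁₂, ci_zero, add_zero]
  rfl

theorem aut_JI (τ : MM (g + 1)) : aut (JI 0) τ =
    Matrix.of (Fin.cons (τ 0) fun i => Pi.single i.succ (1 : ℂ) : MM (g + 1)) := by
  unfold aut JI
  rw [toBlocks_fromBlocks₂₁, toBlocks_fromBlocks₂₂]
  ext i j
  simp only [Matrix.add_apply, Matrix.mul_apply, ci, Matrix.map_apply, Matrix.of_apply,
    diagonal_apply, dl]
  refine Fin.cases ?_ (fun i => ?_) i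
  · rw [Finset.sum_eq_single 0]
    · simp
    · intro k _ hk
      simp [hk.symm]
    · intro h; exact absurd (Finset.mem_univ _) h
  · rw [Finset.sum_eq_zero]
    · simp [Pi.single_apply, eq_comm]
    · intro k _
      by_cases hk : i.succ = k
      · subst hk; simp
      · simp [hk]

theorem num_JI (τ : MM (g + 1)) : num (JI 0) τ =
    Matrix.of (Fin.cons (Pi.single 0 (-1 : ℂ)) fun i => τ i.succ : MM (g + 1)) := by
  unfold num JI
  rw [toBlocks_fromBlocks₁₁, toBlocks_fromBlocks₁₂]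
  ext i j
  simp only [Matrix.add_apply, Matrix.mul_apply, ci, Matrix.map_apply, Matrix.of_apply,
    diagonal_apply, dl]
  refine Fin.cases ?_ (fun i => ?_) i
  · rw [Finset.sum_eq_zero]
    · by_cases hj : j = 0
      · subst hj; simp
      · simp [Ne.symm hj, Pi.single_apply, hj]
    · intro k _
      by_cases hk : 0 = k
      · subst hk; simp
      · simp [hk]
  · rw [Finset.sum_eq_single i.succ]
    · simp
    · intro k _ hk
      simp [hk.symm]
    · intro h; exact absurd (Finset.mem_univ _) h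

theorem det_aut_JI (τ : MM (g + 1)) : (aut (JI 0) τ).det = τ 0 0 := by
  rw [aut_JI, det_succ_column_zero, Fin.sum_univ_succ]
  have h1 : ∀ i : Fin g, (Matrix.of (Fin.cons (τ 0) fun i => Pi.single i.succ (1 : ℂ) :
      MM (g + 1))) i.succ 0 = 0 := by
    intro i
    simp
  simp only [h1]
  have h2 : (Matrix.of (Fin.cons (τ 0) fun i => Pi.single i.succ (1 : ℂ) :
      MM (g + 1))).submatrix (Fin.succAbove 0) Fin.succ = 1 := by
    ext i j
    simp [Matrix.one_apply, Pi.single_apply, eq_comm]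
  rw [h2]
  simp

theorem act_JI {τ : MM (g + 1)} (hs : ∀ i j, τ i j = τ j i) (h0 : τ 0 0 ≠ 0) :
    act (JI 0) τ = Jm τ := by
  have hd : IsUnit (aut (JI 0) τ).det := by
    rw [det_aut_JI]
    exact isUnit_iff_ne_zero.2 h0
  have h1 : Matrix.of (Jm τ) * aut (JI 0) τ = num (JI 0) τ := by
    rw [aut_JI, num_JI]
    ext i j
    simp only [Matrix.mul_apply, Matrix.of_apply, Fin.sum_univ_succ, Fin.cons_zero, Fin.cons_succ]
    refine Fin.cases ?_ (fun i => ?_) i <;> refine Fin.cases ?_ (fun j => ?_) j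
    · simp [h0, Pi.single_apply, z_ne]
    · rw [Finset.sum_eq_single j]
      · simp
        ring
      · intro k _ hk
        simp [Pi.single_apply, Ne.symm hk, Fin.succ_inj]
      · intro h; exact absurd (Finset.mem_univ _) h
    · simp [h0, Pi.single_apply, z_ne]
      exact hs _ _
    · rw [Finset.sum_eq_single j]
      · simp
        ring
      · intro k _ hk
        simp [Pi.single_apply, Ne.symm hk, Fin.succ_inj]
      · intro h; exact absurd (Finset.mem_univ _) h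
  unfold act
  rw [← h1, Matrix.mul_assoc, mul_nonsing_inv _ hd, Matrix.mul_one]
  rfl

/-- partial inversions are conjugate to the first one -/
theorem JI_conj (i : Fin (g + 1)) :
    JI i = RU ((Equiv.swap 0 i).permMatrix ℤ) ((Equiv.swap 0 i).permMatrix ℤ) * JI 0 *
      RU ((Equiv.swap 0 i).permMatrix ℤ) ((Equiv.swap 0 i).permMatrix ℤ) := by
  have ht : ((Equiv.swap 0 i).permMatrix ℤ)ᵀ = (Equiv.swap 0 i).permMatrix ℤ := by
    rw [transpose_permMatrix, Equiv.swap_inv]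
  have hd : ∀ v : Fin (g + 1) → ℤ, (Equiv.swap 0 i).permMatrix ℤ * diagonal v *
      (Equiv.swap 0 i).permMatrix ℤ = diagonal (v ∘ Equiv.swap 0 i) := by
    intro v
    ext k l
    rw [Matrix.mul_assoc, PEquiv.toMatrix_toPEquiv_mul]
    simp only [submatrix_apply, id, diagonal_mul, PEquiv.toMatrix_apply, Equiv.toPEquiv_apply,
      Option.mem_some_iff, diagonal_apply, Function.comp_apply]
    by_cases hkl : k = l
    · subst hkl; simp
    · simp [hkl]
  unfold RU JI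
  rw [fromBlocks_multiply, fromBlocks_multiply]
  simp only [Matrix.zero_mul, Matrix.mul_zero, add_zero, zero_add, ht]
  simp only [hd]
  have e1 : (dl 0 : Fin (g + 1) → ℤ) ∘ Equiv.swap 0 i = dl i := by
    funext k
    simp only [Function.comp_apply, dl, Pi.single_apply]
    by_cases hk : k = i
    · subst hk; simp
    · rw [if_neg hk, if_neg]
      intro h
      apply hk
      have := congrArg (Equiv.swap 0 i) h
      simpa using this
  rw [← e1]
  rfl

/-- induction over the integral symplectic group -/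
theorem gg_ind {P : Z2 (g + 1) → Prop} (hone : P 1)
    (hmul : ∀ M N, M ∈ GG (g + 1) → N ∈ GG (g + 1) → P M → P N → P (M * N))
    (hT : ∀ B : Matrix (Fin (g + 1)) (Fin (g + 1)) ℤ, Bᵀ = B → P (TB B))
    (hR : ∀ U V : Matrix (Fin (g + 1)) (Fin (g + 1)) ℤ, U * V = 1 → V * U = 1 → P (RU U V))
    (hJ : P (JI 0)) : ∀ M ∈ GG (g + 1), P M := by
  intro M hM
  refine Submonoid.closure_induction (motive := fun M _ => P M) ?_ hone
    (fun x y hx hy h1 h2 => hmul x y hx hy h1 h2) hM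
  rintro M (⟨B, hB, rfl⟩ | ⟨U, V, h1, h2, rfl⟩ | ⟨i, rfl⟩)
  · exact hT B hB
  · exact hR U V h1 h2
  · have hs : (Equiv.swap 0 i).permMatrix ℤ * (Equiv.swap 0 i).permMatrix ℤ = 1 := by
      rw [← permMatrix_mul, Equiv.swap_mul_self, permMatrix_one]
    rw [JI_conj]
    exact hmul _ _ (mul_mem (RU_mem hs hs) (JI_mem 0)) (RU_mem hs hs)
      (hmul _ _ (RU_mem hs hs) (JI_mem 0) (hR _ _ hs hs) hJ) (hR _ _ hs hs)

theorem HH_TB {τ : MM g} (hτ : τ ∈ HH g) {B : Matrix (Fin g) (Fin g) ℤ} (hB : Bᵀ = B) :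
    (fun i j => τ i j + B i j : MM g) ∈ HH g := by
  obtain ⟨hs, c, hc, hLB⟩ := hτ
  refine ⟨fun i j => ?_, c, hc, fun x => ?_⟩
  · have := congrFun (congrFun hB i) j
    rw [transpose_apply] at this
    show τ i j + (B i j : ℂ) = τ j i + (B j i : ℂ)
    rw [hs i j, this]
  · simpa using hLB x

theorem Rm_form (U : Matrix (Fin g) (Fin g) ℤ) (τ : MM g) (x : Fin g → ℝ) :
    ∑ i, ∑ j, x i * (Rm U τ i j).im * x j =
      ∑ i, ∑ j, ((U.map (Int.cast : ℤ → ℝ))ᵀ *ᵥ x) i * (τ i j).im *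
        ((U.map (Int.cast : ℤ → ℝ))ᵀ *ᵥ x) j := by
  have h1 : ∀ i j, (Rm U τ i j).im = ∑ k, ∑ l, (U i k : ℝ) * (τ k l).im * (U j l : ℝ) := by
    intro i j
    have : Rm U τ i j = ∑ k, ∑ l, ((U i k : ℝ) * (U j l : ℝ) : ℝ) * τ k l := by
      unfold Rm
      rw [Matrix.mul_apply, Finset.sum_comm]
      refine Finset.sum_congr rfl fun l _ => ?_
      rw [Matrix.mul_apply, Finset.sum_mul]
      refine Finset.sum_congr rfl fun k _ => ?_
      simp only [map_apply, of_apply, transpose_apply]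
      push_cast
      ring
    rw [this, Complex.im_sum]
    refine Finset.sum_congr rfl fun k _ => ?_
    rw [Complex.im_sum]
    refine Finset.sum_congr rfl fun l _ => ?_
    rw [Complex.im_ofReal_mul]
    ring
  have h2 : ∀ k, ((U.map (Int.cast : ℤ → ℝ))ᵀ *ᵥ x) k = ∑ i, (U i k : ℝ) * x i := fun k => rfl
  simp only [h1, h2, Finset.mul_sum, Finset.sum_mul]
  -- reorder the four sums
  have e1 : ∑ i, ∑ j, ∑ k, ∑ l, x i * ((U i k : ℝ) * (τ k l).im * (U j l : ℝ)) * x j =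
      ∑ k, ∑ l, ∑ j, ∑ i, x i * ((U i k : ℝ) * (τ k l).im * (U j l : ℝ)) * x j := by
    calc ∑ i, ∑ j, ∑ k, ∑ l, x i * ((U i k : ℝ) * (τ k l).im * (U j l : ℝ)) * x j =
        ∑ i, ∑ k, ∑ j, ∑ l, x i * ((U i k : ℝ) * (τ k l).im * (U j l : ℝ)) * x j :=
          Finset.sum_congr rfl fun i _ => Finset.sum_comm
      _ = ∑ k, ∑ i, ∑ j, ∑ l, x i * ((U i k : ℝ) * (τ k l).im * (U j l : ℝ)) * x j :=
          Finset.sum_comm
      _ = ∑ k, ∑ i, ∑ l, ∑ j, x i * ((U i k : ℝ) * (τ k l).im * (U j l : ℝ)) * x j :=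
          Finset.sum_congr rfl fun k _ => Finset.sum_congr rfl fun i _ => Finset.sum_comm
      _ = ∑ k, ∑ l, ∑ i, ∑ j, x i * ((U i k : ℝ) * (τ k l).im * (U j l : ℝ)) * x j :=
          Finset.sum_congr rfl fun k _ => Finset.sum_comm
      _ = _ := Finset.sum_congr rfl fun k _ => Finset.sum_congr rfl fun l _ => Finset.sum_comm
  rw [e1]
  refine Finset.sum_congr rfl fun k _ => Finset.sum_congr rfl fun l _ =>
    Finset.sum_congr rfl fun j _ => Finset.sum_congr rfl fun i _ => ?_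
  ring

theorem HH_RU {τ : MM g} (hτ : τ ∈ HH g) {U V : Matrix (Fin g) (Fin g) ℤ} (h1 : U * V = 1) :
    Rm U τ ∈ HH g := by
  obtain ⟨hs, c, hc, hLB⟩ := hτ
  refine ⟨fun i j => ?_, ?_⟩
  · have h2 : (Matrix.of (Rm U τ))ᵀ = Matrix.of (Rm U τ) := by
      have h3 : (Matrix.of τ)ᵀ = Matrix.of τ := by
        ext i j
        exact (hs i j).symm
      have h4 : Matrix.of (Rm U τ) = U.map (Int.cast : ℤ → ℂ) * Matrix.of τ *
        (U.map (Int.cast : ℤ → ℂ))ᵀ := rfl
      rw [h4, transpose_mul, transpose_mul, transpose_transpose, h3, Matrix.mul_assoc]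
    exact (congrFun (congrFun h2 i) j).symm
  · set W : Matrix (Fin g) (Fin g) ℝ := V.map (Int.cast : ℤ → ℝ) with hW
    set K : ℝ := ∑ i, ∑ j, W j i ^ 2 + 1 with hK
    have hK0 : 0 < K := by positivity
    refine ⟨c / K, by positivity, fun x => ?_⟩
    rw [Rm_form]
    set y : Fin g → ℝ := (U.map (Int.cast : ℤ → ℝ))ᵀ *ᵥ x with hy
    have h5 : x = Wᵀ *ᵥ y := by
      have h6 : Wᵀ * (U.map (Int.cast : ℤ → ℝ))ᵀ = 1 := by
        rw [← transpose_mul]
        have : (U.map (Int.cast : ℤ → ℝ)) * W = (1 : Matrix (Fin g) (Fin g) ℝ) := by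
          have h7 := Matrix.map_mul (L := U) (M := V) (f := Int.castRingHom ℝ)
          rw [h1] at h7
          rw [hW]
          refine h7.symm.trans ?_
          simp
        rw [this, transpose_one]
      rw [hy, mulVec_mulVec, h6, one_mulVec]
    have h8 : ∑ i, x i ^ 2 ≤ K * ∑ i, y i ^ 2 := by
      have hS : 0 ≤ ∑ i, y i ^ 2 := Finset.sum_nonneg fun i _ => sq_nonneg _
      calc ∑ i, x i ^ 2 ≤ ∑ i, ((∑ j, W j i ^ 2) * ∑ j, y j ^ 2) := by
            refine Finset.sum_le_sum fun i _ => ?_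
            have : x i = ∑ j, W j i * y j := congrFun h5 i
            rw [this]
            exact Finset.sum_mul_sq_le_sq_mul_sq _ _ _
        _ = (∑ i, ∑ j, W j i ^ 2) * ∑ j, y j ^ 2 := by rw [Finset.sum_mul]
        _ ≤ _ := by
          rw [hK]
          nlinarith
    calc c / K * ∑ i, x i ^ 2 ≤ c / K * (K * ∑ i, y i ^ 2) := by gcongr
      _ = c * ∑ i, y i ^ 2 := by field_simp
      _ ≤ _ := hLB y

theorem HH_00 {τ : MM (g + 1)} (hτ : τ ∈ HH (g + 1)) : τ 0 0 ≠ 0 := by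
  obtain ⟨hs, c, hc, hLB⟩ := hτ
  have h00 : 0 < (τ 0 0).im := hc.trans_le (LB_00 hLB)
  intro h
  rw [h] at h00
  simp at h00

theorem HH_JI {τ : MM (g + 1)} (hτ : τ ∈ HH (g + 1)) : Jm τ ∈ HH (g + 1) := by
  obtain ⟨hs, c, hc, hLB⟩ := hτ
  exact ⟨Jm_symm hs, Jm_LB hc hs hLB⟩

/-- the action preserves the Siegel space -/
theorem gg_HH : ∀ M ∈ GG (g + 1), ∀ τ ∈ HH (g + 1), (aut M τ).det ≠ 0 ∧ act M τ ∈ HH (g + 1) := by
  refine gg_ind ?_ ?_ ?_ ?_ ?_
  · intro τ hτ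
    rw [aut_one, act_one]
    simpa using hτ
  · intro M N _ _ hM hN τ hτ
    obtain ⟨h1, h2⟩ := hN τ hτ
    obtain ⟨h3, h4⟩ := hM _ h2
    rw [(num_act h1).2, det_mul, act_mul h1]
    exact ⟨mul_ne_zero h3 h1, h4⟩
  · intro B hB τ hτ
    rw [aut_TB, act_TB]
    exact ⟨by simp, HH_TB hτ hB⟩
  · intro U V h1 h2 τ hτ
    rw [aut_RU, act_RU h1]
    refine ⟨?_, HH_RU hτ h1⟩
    rw [det_transpose]
    intro h
    have h3 : (ci U * ci V).det = 1 := by rw [← ci_mul, h1, ci_one, det_one]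
    rw [det_mul, h, mul_zero] at h3
    exact zero_ne_one h3
  · intro τ hτ
    rw [det_aut_JI, act_JI hτ.1 (HH_00 hτ)]
    exact ⟨HH_00 hτ, HH_JI hτ⟩

end Run7.h92
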