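import Mathlib

/-!
# A weighted inequality for the second Bernoulli function on `ℤ / N`
-/

namespace Run7.h92

open Complex Real Finset

variable {N : ℕ} [NeZero N]

/-- the Bernoulli type function -/
noncomputable def gf (j : ZMod N) : ℝ := (1 / 2 - (j.val : ℝ) / N) ^ 2

/-- the standard character -/
noncomputable def ps (j : ZMod N) : ℂ := ZMod.stdAddChar j

theorem ps_add (a b : ZMod N) : ps (a + b) = ps a * ps b := AddChar.map_add_eq_mul _ _ _

theorem ps_zero : ps (0 : ZMod N) = 1 := AddChar.map_zero_eq_one _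

theorem norm_ps (a : ZMod N) : ‖ps a‖ = 1 := by
  unfold ps
  rw [ZMod.stdAddChar_apply]
  exact Circle.norm_coe _

theorem ps_neg (a : ZMod N) : ps (-a) = (starRingEnd ℂ) (ps a) := by
  have h1 : ps a * ps (-a) = 1 := by rw [← ps_add, add_neg_cancel, ps_zero]
  have h2 : ps a * (starRingEnd ℂ) (ps a) = 1 := by
    rw [Complex.mul_conj, Complex.normSq_eq_norm_sq, norm_ps]
    norm_num
  have h3 : ps a ≠ 0 := left_ne_zero_of_mul_eq_one h1
  exact mul_left_cancel₀ h3 (h1.trans h2.symm)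

theorem sum_ps (b : ZMod N) : ∑ x : ZMod N, ps (x * b) = if b = 0 then (N : ℂ) else 0 := by
  have := AddChar.sum_mulShift b (ZMod.isPrimitive_stdAddChar N)
  unfold ps
  rw [this, ZMod.card]
  split_ifs <;> simp

theorem ps_ne_one {k : ZMod N} (hk : k ≠ 0) : ps k ≠ 1 := by
  intro h
  apply hk
  apply ZMod.injective_stdAddChar (N := N)
  rw [AddChar.map_zero_eq_one]
  exact h

/-- the Fourier transform -/
noncomputable def gh (k : ZMod N) : ℂ := ∑ j, (gf j : ℂ) * ps (-(j * k))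

theorem gf_inv (j : ZMod N) : (gf j : ℂ) = 1 / N * ∑ k, gh k * ps (j * k) := by
  have hN : (N : ℂ) ≠ 0 := Nat.cast_ne_zero.2 (NeZero.ne N)
  unfold gh
  simp_rw [Finset.sum_mul]
  rw [Finset.sum_comm]
  have : ∀ l : ZMod N, ∑ k, (gf l : ℂ) * ps (-(l * k)) * ps (j * k) =
      if l = j then (gf l : ℂ) * N else 0 := by
    intro l
    have h1 : ∀ k : ZMod N, (gf l : ℂ) * ps (-(l * k)) * ps (j * k) = (gf l : ℂ) * ps (k * (j - l)) := by
      intro k
      rw [mul_assoc, ← ps_add]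
      congr 2
      ring
    simp_rw [h1]
    rw [← Finset.mul_sum, sum_ps]
    by_cases hl : l = j
    · subst hl; simp
    · rw [if_neg hl, if_neg (sub_ne_zero.2 (Ne.symm hl)), mul_zero]
  simp_rw [this]
  rw [Finset.sum_ite_eq' Finset.univ j]
  simp only [Finset.mem_univ, if_true]
  field_simp

theorem gf_diff (hN : 2 ≤ N) (j : ZMod N) :
    gf (j + 1) + gf (j - 1) - 2 * gf j = 2 / (N : ℝ) ^ 2 - if j = 0 then 2 / (N : ℝ) else 0 := by
  have hN0 : (N : ℝ) ≠ 0 := Nat.cast_ne_zero.2 (NeZero.ne N)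
  have : Fact (1 < N) := ⟨by omega⟩
  have hv := j.val_lt
  have h1 : gf (j + 1) = (1 / 2 - ((j.val : ℝ) + 1) / N) ^ 2 := by
    unfold gf
    rw [ZMod.val_add, ZMod.val_one N]
    by_cases h : j.val + 1 = N
    · rw [h, Nat.mod_self]
      have : (j.val : ℝ) + 1 = N := by exact_mod_cast h
      rw [this, div_self hN0]
      norm_num
    · rw [Nat.mod_eq_of_lt (by omega)]
      push_cast
      rfl
  have h2 : gf (j - 1) = if j = 0 then (1 / 2 - ((N : ℝ) - 1) / N) ^ 2 else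
      (1 / 2 - ((j.val : ℝ) - 1) / N) ^ 2 := by
    unfold gf
    by_cases h : j = 0
    · rw [if_pos h, h, zero_sub, ZMod.neg_val]
      rw [if_neg one_ne_zero, ZMod.val_one N, Nat.cast_sub (by omega)]
      simp
    · rw [if_neg h]
      have hv0 : j.val ≠ 0 := fun h' => h ((ZMod.val_eq_zero j).1 h')
      have h3 : (j - 1).val = j.val - 1 := by
        have := ZMod.val_sub (n := N) (a := j) (b := 1) (by rw [ZMod.val_one N]; omega)
        rw [this, ZMod.val_one N]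
      rw [h3, Nat.cast_sub (by omega)]
      simp
  rw [h1, h2]
  by_cases h : j = 0
  · rw [if_pos h, if_pos h, h]
    unfold gf
    rw [ZMod.val_zero]
    field_simp
    push_cast
    ring
  · rw [if_neg h, if_neg h]
    unfold gf
    field_simp
    ring

theorem gh_diff (hN : 2 ≤ N) {k : ZMod N} (hk : k ≠ 0) :
    gh k * (ps k + ps (-k) - 2) = -(2 / N) := by
  have hN0 : (N : ℂ) ≠ 0 := Nat.cast_ne_zero.2 (NeZero.ne N)
  have h1 : ∑ j : ZMod N, (gf (j + 1) : ℂ) * ps (-(j * k)) = ps k * gh k := by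
    have e := Equiv.sum_comp (Equiv.addRight (1 : ZMod N))
      (fun j => (gf j : ℂ) * ps (-((j - 1) * k)))
    simp only [Equiv.coe_addRight, add_sub_cancel_right] at e
    rw [e]
    unfold gh
    rw [Finset.mul_sum]
    refine Finset.sum_congr rfl fun j _ => ?_
    rw [show -((j - 1) * k) = k + -(j * k) by ring, ps_add]
    ring
  have h2 : ∑ j : ZMod N, (gf (j - 1) : ℂ) * ps (-(j * k)) = ps (-k) * gh k := by
    have e := Equiv.sum_comp (Equiv.subRight (1 : ZMod N))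
      (fun j => (gf j : ℂ) * ps (-((j + 1) * k)))
    simp only [Equiv.subRight_apply, sub_add_cancel] at e
    rw [e]
    unfold gh
    rw [Finset.mul_sum]
    refine Finset.sum_congr rfl fun j _ => ?_
    rw [show -((j + 1) * k) = -k + -(j * k) by ring, ps_add]
    ring
  have h3 : gh k * (ps k + ps (-k) - 2) =
      ∑ j : ZMod N, ((gf (j + 1) + gf (j - 1) - 2 * gf j : ℝ) : ℂ) * ps (-(j * k)) := by
    have : ∀ j : ZMod N, ((gf (j + 1) + gf (j - 1) - 2 * gf j : ℝ) : ℂ) * ps (-(j * k)) =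
        (gf (j + 1) : ℂ) * ps (-(j * k)) + (gf (j - 1) : ℂ) * ps (-(j * k)) -
          2 * ((gf j : ℂ) * ps (-(j * k))) := by
      intro j
      push_cast
      ring
    simp_rw [this]
    rw [Finset.sum_sub_distrib, Finset.sum_add_distrib, h1, h2, ← Finset.mul_sum]
    unfold gh
    ring
  rw [h3]
  simp_rw [gf_diff hN]
  have h4 : ∀ j : ZMod N, ((2 / (N : ℝ) ^ 2 - (if j = 0 then 2 / (N : ℝ) else 0) : ℝ) : ℂ) *
      ps (-(j * k)) = 2 / (N : ℂ) ^ 2 * ps (j * -k) - if j = 0 then 2 / (N : ℂ) else 0 := by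
    intro j
    by_cases h : j = 0
    · subst h
      simp [ps_zero]
    · rw [if_neg h, if_neg h]
      push_cast
      rw [show -(j * k) = j * -k by ring]
      ring
  simp_rw [h4]
  rw [Finset.sum_sub_distrib, ← Finset.mul_sum, sum_ps, if_neg (neg_ne_zero.2 hk),
    Finset.sum_ite_eq' Finset.univ]
  simp

theorem gh_pos (hN : 2 ≤ N) {k : ZMod N} (hk : k ≠ 0) :
    0 ≤ (gh k).re ∧ (gh k).im = 0 := by
  have h1 := gh_diff hN hk
  have h2 : ps k + ps (-k) - 2 = ((2 * (ps k).re - 2 : ℝ) : ℂ) := by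
    rw [ps_neg, Complex.add_conj]
    push_cast
    ring
  have h3 : (ps k).re < 1 := by
    have h4 : (ps k).re ≤ 1 := by
      have := Complex.re_le_norm (ps k)
      rwa [norm_ps] at this
    refine lt_of_le_of_ne h4 fun h => ?_
    apply ps_ne_one hk
    have h5 : ‖ps k‖ ^ 2 = 1 := by rw [norm_ps]; norm_num
    rw [Complex.sq_norm, Complex.normSq_apply, h] at h5
    have h6 : (ps k).im = 0 := by
      have : (ps k).im * (ps k).im = 0 := by linarith
      exact mul_self_eq_zero.1 this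
    exact Complex.ext h h6
  rw [h2] at h1
  have h4 : (2 * (ps k).re - 2 : ℝ) < 0 := by linarith
  have h5 : gh k = (((2 / N) / (2 - 2 * (ps k).re) : ℝ) : ℂ) := by
    have h6 : ((2 * (ps k).re - 2 : ℝ) : ℂ) ≠ 0 := by exact_mod_cast h4.ne
    apply mul_right_cancel₀ h6
    rw [h1, ← Complex.ofReal_mul]
    have : (2 / (N : ℝ)) / (2 - 2 * (ps k).re) * (2 * (ps k).re - 2) = -(2 / (N : ℝ)) := by
      have h7 : 2 - 2 * (ps k).re ≠ 0 := by linarith
      rw [show 2 * (ps k).re - 2 = -(2 - 2 * (ps k).re) by ring, mul_neg, div_mul_cancel₀ _ h7]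
    rw [this]
    push_cast
    rfl
  rw [h5]
  refine ⟨?_, Complex.ofReal_im _⟩
  rw [Complex.ofReal_re]
  have : 0 < 2 - 2 * (ps k).re := by linarith
  positivity

theorem sum_zmod (f : ℕ → ℝ) : ∑ j : ZMod N, f j.val = ∑ i ∈ Finset.range N, f i := by
  obtain ⟨n, rfl⟩ : ∃ n, N = n + 1 := ⟨N - 1, by have := NeZero.pos N; omega⟩
  rw [← Fin.sum_univ_eq_sum_range]
  rfl

theorem sum_gf : ∑ j : ZMod N, gf j = N / 12 + 1 / (6 * N) := by
  have hN0 : (N : ℝ) ≠ 0 := Nat.cast_ne_zero.2 (NeZero.ne N)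
  unfold gf
  rw [sum_zmod (fun v => (1 / 2 - (v : ℝ) / N) ^ 2)]
  have key : ∀ (c : ℝ), c ≠ 0 → ∀ m : ℕ, ∑ i ∈ Finset.range m, (1 / 2 - (i : ℝ) / c) ^ 2 =
      m / 4 - (m : ℝ) * (m - 1) / (2 * c) + (m : ℝ) * (m - 1) * (2 * m - 1) / (6 * c ^ 2) := by
    intro c hc m
    induction m with
    | zero => simp
    | succ m ih =>
      rw [Finset.sum_range_succ, ih]
      push_cast
      field_simp
      ring
  rw [key _ hN0]
  field_simp
  ring

theorem gh_zero : gh (0 : ZMod N) = ((N / 12 + 1 / (6 * N) : ℝ) : ℂ) := by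
  rw [← sum_gf]
  unfold gh
  push_cast
  refine Finset.sum_congr rfl fun j _ => ?_
  rw [mul_zero, neg_zero, ps_zero, mul_one]

/-- the weighted inequality -/
theorem bern_ineq (hN : 2 ≤ N) {ι : Type*} (s : Finset ι) (w : ι → ℝ) (y : ι → ZMod N)
    (hw : ∀ k : ZMod N, k ≠ 0 →
      ‖∑ x ∈ s, (w x : ℂ) * ps (y x * k)‖ * ((N : ℝ) ^ 2 - 1) ≤ ∑ x ∈ s, w x) :
    (∑ x ∈ s, w x) / 12 ≤ ∑ x ∈ s, w x * gf (y x) := by
  classical
  have hN0 : (N : ℝ) ≠ 0 := Nat.cast_ne_zero.2 (NeZero.ne N)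
  have hNp : (0 : ℝ) < N := Nat.cast_pos.2 (NeZero.pos N)
  have hN2 : (2 : ℝ) ≤ N := by exact_mod_cast hN
  have hN1 : 0 < (N : ℝ) ^ 2 - 1 := by nlinarith
  set S := ∑ x ∈ s, w x with hS
  have h1 : ((∑ x ∈ s, w x * gf (y x) : ℝ) : ℂ) =
      1 / N * ∑ k, gh k * ∑ x ∈ s, (w x : ℂ) * ps (y x * k) := by
    push_cast
    have e : ∀ x, (w x : ℂ) * (gf (y x) : ℂ) = ∑ k, 1 / N * (gh k * ((w x : ℂ) * ps (y x * k))) := by
      intro x
      rw [gf_inv (y x), Finset.mul_sum, Finset.mul_sum]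
      refine Finset.sum_congr rfl fun k _ => ?_
      ring
    simp_rw [e, Finset.mul_sum]
    rw [Finset.sum_comm]
  have h2 : (∑ x ∈ s, w x * gf (y x)) * N =
      (∑ k, gh k * ∑ x ∈ s, (w x : ℂ) * ps (y x * k)).re := by
    have h3 : ((∑ x ∈ s, w x * gf (y x) : ℝ) : ℂ) * N =
        ∑ k, gh k * ∑ x ∈ s, (w x : ℂ) * ps (y x * k) := by
      rw [h1]
      have : (N : ℂ) ≠ 0 := Nat.cast_ne_zero.2 (NeZero.ne N)
      field_simp
    rw [← h3, show (((∑ x ∈ s, w x * gf (y x) : ℝ) : ℂ) * N) =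
      (((∑ x ∈ s, w x * gf (y x)) * N : ℝ) : ℂ) by push_cast; rfl, Complex.ofReal_re]
  have h4 : (∑ k : ZMod N, gh k).re = (N : ℝ) / 4 := by
    have h5 := gf_inv (0 : ZMod N)
    simp only [zero_mul, ps_zero, mul_one] at h5
    have h6 : (gf (0 : ZMod N)) = 1 / 4 := by
      unfold gf
      rw [ZMod.val_zero]
      norm_num
    rw [h6] at h5
    have h7 : ∑ k, gh (k : ZMod N) = (((N : ℝ) / 4 : ℝ) : ℂ) := by
      have : (N : ℂ) ≠ 0 := Nat.cast_ne_zero.2 (NeZero.ne N)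
      have h8 : ∑ k, gh (k : ZMod N) = N * (1 / N * ∑ k : ZMod N, gh k) := by field_simp
      rw [h8, ← h5]
      push_cast
      ring
    rw [h7, Complex.ofReal_re]
  have hsplit : ∀ F : ZMod N → ℂ, (∑ k, F k).re = (F 0).re + ∑ k ∈ Finset.univ.erase 0, (F k).re := by
    intro F
    rw [← Finset.add_sum_erase _ _ (Finset.mem_univ (0 : ZMod N)), Complex.add_re, Complex.re_sum]
  rw [hsplit] at h4
  rw [hsplit] at h2
  have h5 : ∀ k ∈ Finset.univ.erase (0 : ZMod N),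
      -((gh k).re * (S / ((N : ℝ) ^ 2 - 1))) ≤ (gh k * ∑ x ∈ s, (w x : ℂ) * ps (y x * k)).re := by
    intro k hk
    have hk0 := (Finset.mem_erase.1 hk).1
    obtain ⟨g1, g2⟩ := gh_pos hN hk0
    rw [Complex.mul_re, g2, zero_mul, sub_zero]
    have h6 := hw k hk0
    have h7 : ‖∑ x ∈ s, (w x : ℂ) * ps (y x * k)‖ ≤ S / ((N : ℝ) ^ 2 - 1) := by
      rwa [le_div_iff₀ hN1]
    have h8 := (abs_le.1 (Complex.abs_re_le_norm (∑ x ∈ s, (w x : ℂ) * ps (y x * k)))).1
    rw [← mul_neg]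
    exact mul_le_mul_of_nonneg_left (by linarith) g1
  have h6 := Finset.sum_le_sum h5
  rw [Finset.sum_neg_distrib, ← Finset.sum_mul] at h6
  have h7 : (gh (0 : ZMod N) * ∑ x ∈ s, (w x : ℂ) * ps (y x * 0)).re =
      (N / 12 + 1 / (6 * N)) * S := by
    simp only [mul_zero, ps_zero, mul_one]
    rw [gh_zero, ← Complex.ofReal_sum, ← Complex.ofReal_mul, Complex.ofReal_re]
  rw [h7] at h2
  rw [gh_zero, Complex.ofReal_re] at h4
  have h8 : ∑ k ∈ Finset.univ.erase (0 : ZMod N), (gh k).re = N / 4 - (N / 12 + 1 / (6 * N)) := by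
    linarith
  rw [h8] at h6
  have h9 : (N / 12 + 1 / (6 * N) : ℝ) * S -
      (N / 4 - (N / 12 + 1 / (6 * N))) * (S / ((N : ℝ) ^ 2 - 1)) = N * (S / 12) := by
    field_simp
    ring
  have h10 : (N : ℝ) * (S / 12) ≤ (∑ x ∈ s, w x * gf (y x)) * N := by linarith
  rw [mul_comm] at h10
  exact le_of_mul_le_mul_right h10 hNp

end Run7.h92
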