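import Pool.Agent.Run7.h92.Tor7

/-!
# Triangular systems are nice; triangular form of integral matrices
-/

namespace Run7.h92

open Matrix

theorem nice_of_tri (r : ℕ) : ∀ (Pd : (Fin r → ℤ) → Prop) (e : Fin r → ℤ) (w : Fin r → Fin r → ℤ)
    (κ : Fin r → ℤ) (u : Fin r → Bool), (∃ m, Pd m) → (∀ i j, i < j → w i j = 0) →
    (∀ i, w i i ≠ 0) →
    (∀ m, Pd m → ∀ i, (u i = false → ∑ j, w i j * (2 * m j + e j) + κ i = 0) ∧
      (u i = true → (∑ j, w i j * (2 * m j + e j) + κ i = 1 ∨
        ∑ j, w i j * (2 * m j + e j) + κ i = -1))) →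
    Nice r Pd fun i => u i && decide ((w i i).natAbs = 1) := by
  induction r with
  | zero =>
    intro Pd e w κ u h _ _ _
    exact h
  | succ r ih =>
    intro Pd e w κ u hne htri hdiag hc
    obtain ⟨m, hm⟩ := hne
    have hrow : ∀ m' : Fin (r + 1) → ℤ, ∑ j, w 0 j * (2 * m' j + e j) + κ 0 =
        w 0 0 * (2 * m' 0 + e 0) + κ 0 := by
      intro m'
      rw [Fin.sum_univ_succ]
      have : ∑ i : Fin r, w 0 i.succ * (2 * m' i.succ + e i.succ) = 0 :=
        Finset.sum_eq_zero fun i _ => by rw [htri 0 i.succ (Fin.succ_pos i), zero_mul]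
      rw [this]
      ring
    have hslice : Nice r (fun m' => Pd (Fin.cons (m 0) m'))
        fun i => u i.succ && decide ((w i.succ i.succ).natAbs = 1) := by
      refine ih (fun m' => Pd (Fin.cons (m 0) m')) (fun i => e i.succ) (fun i j => w i.succ j.succ)
        (fun i => κ i.succ + w i.succ 0 * (2 * m 0 + e 0)) (fun i => u i.succ) ?_ ?_ ?_ ?_
      · refine ⟨fun i => m i.succ, ?_⟩
        have : (Fin.cons (m 0) (fun i => m i.succ) : Fin (r + 1) → ℤ) = m := Fin.cons_self_tail m
        rwa [this]
      · intro i j hij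
        exact htri i.succ j.succ (Fin.succ_lt_succ_iff.2 hij)
      · intro i
        exact hdiag i.succ
      · intro m' hm' i
        have h1 := hc _ hm' i.succ
        have h2 : ∑ j : Fin r, w i.succ j.succ * (2 * m' j + e j.succ) +
            (κ i.succ + w i.succ 0 * (2 * m 0 + e 0)) =
            ∑ j, w i.succ j * (2 * (Fin.cons (m 0) m' : Fin (r + 1) → ℤ) j + e j) + κ i.succ := by
          rw [Fin.sum_univ_succ]
          simp only [Fin.cons_zero, Fin.cons_succ]
          ring
        rw [h2]
        exact h1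
    have hm0 := hc m hm 0
    rw [hrow] at hm0
    by_cases hu : u 0 = true
    · have hN := hm0.2 hu
      by_cases hw : (w 0 0).natAbs = 1
      · have hw2 : w 0 0 = 1 ∨ w 0 0 = -1 := by omega
        refine ⟨m 0, -(w 0 0 * (2 * m 0 + e 0) + κ 0) * w 0 0, ?_, ?_, hslice⟩
        · rcases hN with h2 | h2 <;> rw [h2] <;> rcases hw2 with h3 | h3 <;> rw [h3] <;> norm_num
        · intro m' hm'
          have h1 := hc m' hm' 0
          rw [hrow] at h1
          have h2 := h1.2 hu
          by_cases h3 : m' 0 = m 0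
          · exact Or.inl h3
          · right
            refine ⟨by simp [hu, hw], ?_⟩
            rcases hw2 with h4 | h4 <;> rw [h4] at hN h2 ⊢ <;> rcases hN with h5 | h5 <;>
              rcases h2 with h6 | h6 <;> rw [h5] <;> omega
      · refine ⟨m 0, 1, Or.inl rfl, ?_, hslice⟩
        intro m' hm'
        left
        have h1 := hc m' hm' 0
        rw [hrow] at h1
        have h2 := h1.2 hu
        by_contra h3
        apply hw
        have h4 : w 0 0 * (m' 0 - m 0) = 1 ∨ w 0 0 * (m' 0 - m 0) = -1 ∨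
            w 0 0 * (m' 0 - m 0) = 0 := by
          have h5 : w 0 0 * (2 * m' 0 + e 0) + κ 0 - (w 0 0 * (2 * m 0 + e 0) + κ 0) =
              2 * (w 0 0 * (m' 0 - m 0)) := by ring
          omega
        rcases h4 with h4 | h4 | h4
        · rw [Int.natAbs_eq_iff]
          have := Int.isUnit_iff.1 (IsUnit.of_mul_eq_one _ h4)
          simpa using this
        · have h5 : w 0 0 * (-(m' 0 - m 0)) = 1 := by rw [mul_neg, h4]; norm_num
          rw [Int.natAbs_eq_iff]
          have := Int.isUnit_iff.1 (IsUnit.of_mul_eq_one _ h5)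
          simpa using this
        · exfalso
          rcases mul_eq_zero.1 h4 with h5 | h5
          · exact hdiag 0 h5
          · exact h3 (by omega)
    · have hu' : u 0 = false := by simpa using hu
      refine ⟨m 0, 1, Or.inl rfl, ?_, hslice⟩
      intro m' hm'
      left
      have h1 := hc m' hm' 0
      rw [hrow] at h1
      have h2 := h1.1 hu'
      have h3 := hm0.1 hu'
      have h4 : w 0 0 * (m' 0 - m 0) = 0 := by
        have h5 : w 0 0 * (2 * m' 0 + e 0) + κ 0 - (w 0 0 * (2 * m 0 + e 0) + κ 0) =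
            2 * (w 0 0 * (m' 0 - m 0)) := by ring
        omega
      rcases mul_eq_zero.1 h4 with h5 | h5
      · exact absurd h5 (hdiag 0)
      · omega

/-- triangular form -/
theorem tri_form (r : ℕ) : ∀ F : Matrix (Fin r) (Fin r) ℤ, ∃ B B' : Matrix (Fin r) (Fin r) ℤ,
    B * B' = 1 ∧ B' * B = 1 ∧ ∀ i j, i < j → (F * B) i j = 0 := by
  induction r with
  | zero => exact fun F => ⟨1, 1, by simp, by simp, fun i => i.elim0⟩
  | succ r ih =>
    intro F
    have h1 : ∃ B1 B1' : Matrix (Fin (r + 1)) (Fin (r + 1)) ℤ, B1 * B1' = 1 ∧ B1' * B1 = 1 ∧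
        ∀ j : Fin r, (F * B1) 0 j.succ = 0 := by
      by_cases hx : F 0 = 0
      · refine ⟨1, 1, by simp, by simp, fun j => ?_⟩
        rw [Matrix.mul_one]
        exact congrFun hx _
      · obtain ⟨U, V, hUV, hVU, d, _, hd⟩ := exists_gl _ (F 0) le_rfl hx
        refine ⟨Uᵀ, Vᵀ, ?_, ?_, fun j => ?_⟩
        · rw [← transpose_mul, hVU, transpose_one]
        · rw [← transpose_mul, hUV, transpose_one]
        · have h2 : (F * Uᵀ) 0 j.succ = (U *ᵥ F 0) j.succ := by
            rw [Matrix.mul_apply]
            unfold mulVec dotProduct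
            exact Finset.sum_congr rfl fun l _ => by rw [transpose_apply, mul_comm]
          rw [h2, hd]
          simp
    obtain ⟨B1, B1', h2, h3, h4⟩ := h1
    obtain ⟨B2, B2', h5, h6, h7⟩ := ih (Matrix.of fun i j => (F * B1) i.succ j.succ)
    refine ⟨B1 * ups 1 B2, ups 1 B2' * B1', ?_, ?_, ?_⟩
    · calc B1 * ups 1 B2 * (ups 1 B2' * B1') = B1 * (ups 1 B2 * ups 1 B2') * B1' := by
            simp only [Matrix.mul_assoc]
        _ = 1 := by rw [ups_mul, h5, one_mul, ups_one, Matrix.mul_one, h2]
    · calc ups 1 B2' * B1' * (B1 * ups 1 B2) = ups 1 B2' * (B1' * B1) * ups 1 B2 := by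
            simp only [Matrix.mul_assoc]
        _ = 1 := by rw [h3, Matrix.mul_one, ups_mul, h6, one_mul, ups_one]
    · intro i j hij
      rw [← Matrix.mul_assoc, Matrix.mul_apply, Fin.sum_univ_succ]
      revert hij
      refine Fin.cases ?_ (fun j => ?_) j
      · intro hij
        exact absurd hij (Fin.not_lt_zero i)
      · intro hij
        rw [ups_0s, mul_zero, zero_add]
        revert hij
        refine Fin.cases ?_ (fun i => ?_) i
        · intro _
          refine Finset.sum_eq_zero fun l _ => ?_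
          rw [h4, zero_mul]
        · intro hij
          have h8 := h7 i j (Fin.succ_lt_succ_iff.1 hij)
          rw [Matrix.mul_apply] at h8
          rw [← h8]
          rfl

theorem tri_det {r : ℕ} {F : Matrix (Fin r) (Fin r) ℤ} (h : ∀ i j, i < j → F i j = 0)
    (hd : F.det ≠ 0) (i : Fin r) : F i i ≠ 0 := by
  rw [Matrix.det_of_lowerTriangular F (fun i j hij => h i j hij)] at hd
  exact Finset.prod_ne_zero_iff.1 hd i (Finset.mem_univ i)

end Run7.h92
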