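import Pool.Agent.Run7.h92.TorC
import Pool.Agent.Run7.h92.Tri

/-!
# Certificates of configurations of integral vectors
-/

namespace Run7.h92

open Matrix

variable {g k r : ℕ}

/-- reduction modulo two -/
def rd2 (v : Fin r → ℤ) : Fin r → ZMod 2 := fun i => (v i : ZMod 2)

/-- certificate of a configuration of integral vectors -/
structure Cert (V : Fin k → Fin r → ℤ) (P : (Fin r → ZMod 2) → ℕ) : Prop where
  pos : ∃ e, P e ≠ 0
  ge : ∀ b : Fin r → ZMod 2, b ≠ 0 → ∑ e, P e ≤ 3 * ∑ e, (if b ⬝ᵥ e = 1 then P e else 0)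
  eq : ∀ l, 3 * ∑ e, (if rd2 (V l) ⬝ᵥ e = 1 then P e else 0) = ∑ e, P e
  good : ∀ e, P e ≠ 0 → ∃ β : Fin r → ℤ, rd2 β = e ∧ ∀ l, |V l ⬝ᵥ β| ≤ 1

theorem z2_cases (z : ZMod 2) : z = 0 ∨ z = 1 := by
  revert z
  decide

theorem rd2_dot (v w : Fin r → ℤ) : rd2 v ⬝ᵥ rd2 w = ((v ⬝ᵥ w : ℤ) : ZMod 2) := by
  unfold dotProduct rd2
  push_cast
  rfl

theorem rd2_vecMul (v : Fin r → ℤ) (B : Matrix (Fin r) (Fin r) ℤ) :
    rd2 (v ᵥ* B) = rd2 v ᵥ* B.map (Int.cast : ℤ → ZMod 2) := by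
  funext j
  simp [rd2, vecMul, dotProduct]

theorem rd2_mulVec (v : Fin r → ℤ) (B : Matrix (Fin r) (Fin r) ℤ) :
    rd2 (B *ᵥ v) = B.map (Int.cast : ℤ → ZMod 2) *ᵥ rd2 v := by
  funext j
  simp [rd2, mulVec, dotProduct]

theorem map2_mul (A B : Matrix (Fin r) (Fin r) ℤ) :
    (A * B).map (Int.cast : ℤ → ZMod 2) = A.map (Int.cast : ℤ → ZMod 2) * B.map (Int.cast : ℤ → ZMod 2) :=
  Matrix.map_mul (L := A) (M := B) (f := Int.castRingHom (ZMod 2))

theorem map2_one : (1 : Matrix (Fin r) (Fin r) ℤ).map (Int.cast : ℤ → ZMod 2) = 1 :=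
  Matrix.map_one _ Int.cast_zero Int.cast_one

/-- invariance under change of basis -/
theorem Cert.change {V : Fin k → Fin r → ℤ} {P : (Fin r → ZMod 2) → ℕ} (h : Cert V P)
    {B B' : Matrix (Fin r) (Fin r) ℤ} (h1 : B * B' = 1) (h2 : B' * B = 1) :
    Cert (fun l => V l ᵥ* B) fun e => P (B.map (Int.cast : ℤ → ZMod 2) *ᵥ e) := by
  set C := B.map (Int.cast : ℤ → ZMod 2) with hC
  set C' := B'.map (Int.cast : ℤ → ZMod 2) with hC'
  have h3 : C * C' = 1 := by rw [hC, hC', ← map2_mul, h1, map2_one]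
  have h4 : C' * C = 1 := by rw [hC, hC', ← map2_mul, h2, map2_one]
  set E : (Fin r → ZMod 2) ≃ (Fin r → ZMod 2) :=
    { toFun := fun e => C *ᵥ e
      invFun := fun e => C' *ᵥ e
      left_inv := fun e => by simp only [mulVec_mulVec, h4, one_mulVec]
      right_inv := fun e => by simp only [mulVec_mulVec, h3, one_mulVec] } with hE
  have htot : ∑ e, P (C *ᵥ e) = ∑ e, P e := E.sum_comp P
  have hodd : ∀ b : Fin r → ZMod 2, ∑ e, (if (b ᵥ* C) ⬝ᵥ e = 1 then P (C *ᵥ e) else 0) =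
      ∑ e, (if b ⬝ᵥ e = 1 then P e else 0) := by
    intro b
    rw [← E.sum_comp fun e => if b ⬝ᵥ e = 1 then P e else 0]
    refine Finset.sum_congr rfl fun e _ => ?_
    have e1 : b ⬝ᵥ E e = (b ᵥ* C) ⬝ᵥ e := dotProduct_mulVec b C e
    rw [e1]
    rfl
  constructor
  · obtain ⟨e, he⟩ := h.pos
    refine ⟨C' *ᵥ e, ?_⟩
    rw [mulVec_mulVec, h3, one_mulVec]
    exact he
  · intro b hb
    have e1 : b = (b ᵥ* C') ᵥ* C := by rw [vecMul_vecMul, h4, vecMul_one]
    rw [htot, e1, hodd]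
    apply h.ge
    intro h0
    apply hb
    rw [e1, h0, zero_vecMul]
  · intro l
    rw [rd2_vecMul, hodd, htot]
    exact h.eq l
  · intro e he
    obtain ⟨β, hβ, hb⟩ := h.good _ he
    refine ⟨B' *ᵥ β, ?_, fun l => ?_⟩
    · rw [rd2_mulVec, hβ, mulVec_mulVec, h4, one_mulVec]
    · rw [dotProduct_mulVec, vecMul_vecMul, h1, vecMul_one]
      exact hb l

/-- translation between booleans and integers modulo two -/
def bz : (Fin r → Bool) ≃ (Fin r → ZMod 2) where
  toFun e i := if e i then 1 else 0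
  invFun z i := decide (z i = 1)
  left_inv e := by
    funext i
    cases h : e i <;> simp [h]
  right_inv z := by
    funext i
    rcases z2_cases (z i) with h | h <;> simp [h]

theorem bz_par (v : Fin r → ℤ) : bz (par v) = rd2 v := by
  funext i
  unfold bz par rd2
  simp only [Equiv.coe_fn_mk, decide_eq_true_eq]
  rcases Int.emod_two_eq_zero_or_one (v i) with h | h
  · rw [h, if_neg (by norm_num)]
    symm
    rw [ZMod.intCast_zmod_eq_zero_iff_dvd]
    exact Int.dvd_of_emod_eq_zero h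
  · rw [h, if_pos rfl]
    have h1 : v i = 2 * (v i / 2) + 1 := by omega
    rw [h1]
    push_cast
    have : (2 : ZMod 2) = 0 := by decide
    rw [this, zero_mul, zero_add]

theorem sg_bz (b e : Fin r → Bool) : sg b e = if bz b ⬝ᵥ bz e = 1 then -1 else 1 := by
  classical
  unfold sg dotProduct
  have key : ∀ s : Finset (Fin r), (∏ i ∈ s, if (b i && e i) = true then (-1 : ℝ) else 1) =
      if ∑ i ∈ s, bz b i * bz e i = 1 then -1 else 1 := by
    intro s
    induction s using Finset.induction_on with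
    | empty => simp
    | insert i s hi ih =>
      rw [Finset.prod_insert hi, Finset.sum_insert hi, ih]
      have h1 : bz b i * bz e i = if (b i && e i) = true then 1 else 0 := by
        unfold bz
        cases hb : b i <;> cases he : e i <;> simp [hb, he]
      rw [h1]
      rcases z2_cases (∑ i ∈ s, bz b i * bz e i) with h2 | h2
      · rw [h2]
        split_ifs <;> simp_all
      · rw [h2]
        have h3 : (1 : ZMod 2) + 1 = 0 := by decide
        split_ifs <;> simp_all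
  exact key Finset.univ

theorem sum_sg (P : (Fin r → ZMod 2) → ℕ) (b : Fin r → Bool) :
    ∑ e : Fin r → Bool, (P (bz e) : ℝ) * sg b e =
      ((∑ e, P e : ℕ) : ℝ) - 2 * ((∑ e, (if bz b ⬝ᵥ e = 1 then P e else 0) : ℕ) : ℝ) := by
  have h1 : ∑ e : Fin r → Bool, (P (bz e) : ℝ) * sg b e =
      ∑ e : Fin r → ZMod 2, (P e : ℝ) * (if bz b ⬝ᵥ e = 1 then -1 else 1) := by
    rw [← bz.sum_comp fun e => (P e : ℝ) * (if bz b ⬝ᵥ e = 1 then -1 else 1)]
    refine Finset.sum_congr rfl fun e _ => ?_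
    rw [sg_bz]
  rw [h1]
  push_cast
  rw [Finset.mul_sum, ← Finset.sum_sub_distrib]
  refine Finset.sum_congr rfl fun e _ => ?_
  split_ifs <;> push_cast <;> ring

theorem sum_bz (P : (Fin r → ZMod 2) → ℕ) :
    ∑ e : Fin r → Bool, (P (bz e) : ℝ) = ((∑ e, P e : ℕ) : ℝ) := by
  push_cast
  exact bz.sum_comp fun e => (P e : ℝ)

/-- the toric condition from a bound -/
theorem Pdc_of_abs {V : Fin k → Fin r → ℤ} {e : Fin r → Bool} {m : Fin r → ℤ}
    (h : ∀ l, |∑ i, (V l i : ℝ) * ((m i : ℝ) + hfv e i)| ≤ 1 / 2) : Pdc V e m := by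
  intro l
  set n : ℤ := ∑ i, V l i * m i with hn
  have e1 : ∑ i, (V l i : ℝ) * ((m i : ℝ) + hfv e i) = (n : ℝ) + ∑ i, (V l i : ℝ) * hfv e i := by
    rw [hn]
    push_cast
    rw [← Finset.sum_add_distrib]
    exact Finset.sum_congr rfl fun i _ => by ring
  have h1 := h l
  rw [e1] at h1 ⊢
  set t := ∑ i, (V l i : ℝ) * hfv e i with ht
  refine le_antisymm ?_ ?_
  · have h2 := sq_ge _ h1 (-n - round t)
    refine h2.trans (le_of_eq ?_)
    unfold hmin
    push_cast
    ring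
  · have := hmin_le t n
    rw [add_comm]
    exact this

theorem sum_hfv (v : Fin r → ℤ) (e : Fin r → Bool) (m : Fin r → ℤ) :
    ∑ i, (v i : ℝ) * ((m i : ℝ) + hfv e i) =
      ((∑ i, v i * (2 * m i + if e i then 1 else 0) : ℤ) : ℝ) / 2 := by
  push_cast
  rw [Finset.sum_div]
  refine Finset.sum_congr rfl fun i _ => ?_
  unfold hfv
  split_ifs <;> ring

theorem sum_hfv0 (v : Fin r → ℤ) (e : Fin r → Bool) :
    ∑ i, (v i : ℝ) * hfv e i = ((∑ i, v i * (if e i then 1 else 0) : ℤ) : ℝ) / 2 := by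
  push_cast
  rw [Finset.sum_div]
  refine Finset.sum_congr rfl fun i _ => ?_
  unfold hfv
  split_ifs <;> ring

theorem hmin_half_int (q : ℤ) : hmin ((q : ℝ) / 2) = if q % 2 = 0 then 0 else 1 / 4 := by
  split_ifs with h
  · obtain ⟨p, hp⟩ : ∃ p : ℤ, q = 2 * p := ⟨q / 2, by omega⟩
    have h3 : (q : ℝ) / 2 = 0 + (p : ℤ) := by
      rw [hp]
      push_cast
      ring
    rw [h3, hmin_add_int]
    unfold hmin
    simp
  · obtain ⟨p, hp⟩ : ∃ p : ℤ, q = 2 * p + 1 := ⟨q / 2, by omega⟩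
    have h3 : (q : ℝ) / 2 = 1 / 2 + (p : ℤ) := by
      rw [hp]
      push_cast
      ring
    rw [h3, hmin_add_int, ← (min_half 0).2 (Or.inl rfl)]
    norm_num

theorem dot_bz (v : Fin r → ℤ) (e : Fin r → Bool) :
    rd2 v ⬝ᵥ bz e = (((∑ i, v i * (if e i then 1 else 0) : ℤ)) : ZMod 2) := by
  unfold dotProduct rd2 bz
  push_cast
  rfl

/-- members of the toric condition -/
theorem Pdc_iff {V : Fin k → Fin r → ℤ} {e : Fin r → Bool} {m : Fin r → ℤ} (h : Pdc V e m)
    (l : Fin k) :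
    (¬ rd2 (V l) ⬝ᵥ bz e = 1 → ∑ i, V l i * (2 * m i + if e i then 1 else 0) = 0) ∧
      (rd2 (V l) ⬝ᵥ bz e = 1 → (∑ i, V l i * (2 * m i + if e i then 1 else 0) = 1 ∨
        ∑ i, V l i * (2 * m i + if e i then 1 else 0) = -1)) := by
  have h1 := h l
  rw [sum_hfv, sum_hfv0, hmin_half_int] at h1
  rw [dot_bz]
  set N : ℤ := ∑ i, V l i * (2 * m i + if e i then 1 else 0) with hN
  set q : ℤ := ∑ i, V l i * (if e i then 1 else 0) with hq
  have hpar : ((q : ℤ) : ZMod 2) = 1 ↔ ¬ q % 2 = 0 := by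
    constructor
    · intro h2 h3
      have h4 : ((q : ℤ) : ZMod 2) = 0 := by
        rw [ZMod.intCast_zmod_eq_zero_iff_dvd]
        exact Int.dvd_of_emod_eq_zero h3
      rw [h4] at h2
      exact absurd h2 (by decide)
    · intro h2
      rcases z2_cases ((q : ℤ) : ZMod 2) with h3 | h3
      · exfalso
        rw [ZMod.intCast_zmod_eq_zero_iff_dvd] at h3
        omega
      · exact h3
  rw [hpar]
  constructor
  · intro h2
    rw [not_not] at h2
    rw [if_pos h2] at h1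
    have h3 : (N : ℝ) = 0 := by
      have := pow_eq_zero_iff (two_ne_zero) |>.1 h1
      linarith
    exact_mod_cast h3
  · intro h2
    rw [if_neg h2] at h1
    have h3 : ((N ^ 2 : ℤ) : ℝ) = ((1 : ℤ) : ℝ) := by
      push_cast
      linarith
    have h4 : N ^ 2 = 1 := by exact_mod_cast h3
    have h5 : (N - 1) * (N + 1) = 0 := by
      have : (N - 1) * (N + 1) = N ^ 2 - 1 := by ring
      rw [this, h4]
      norm_num
    rcases mul_eq_zero.1 h5 with h6 | h6
    · left; omega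
    · right; omega

theorem Cert.pdc {V : Fin k → Fin r → ℤ} {P : (Fin r → ZMod 2) → ℕ} (h : Cert V P)
    (e : Fin r → Bool) (he : P (bz e) ≠ 0) : ∃ m, Pdc V e m := by
  obtain ⟨β, hβ, hb⟩ := h.good _ he
  have h1 : ∀ i, ∃ m : ℤ, β i = 2 * m + if e i then 1 else 0 := by
    intro i
    have h2 : ((β i : ℤ) : ZMod 2) = if e i then 1 else 0 := congrFun hβ i
    cases hc : e i with
    | false =>
      rw [hc] at h2
      have h3 : ((β i : ℤ) : ZMod 2) = 0 := h2
      rw [ZMod.intCast_zmod_eq_zero_iff_dvd] at h3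
      obtain ⟨m, hm⟩ := h3
      exact ⟨m, by simpa using hm⟩
    | true =>
      rw [hc] at h2
      have h3 : ((β i : ℤ) : ZMod 2) = 1 := h2
      refine ⟨β i / 2, ?_⟩
      have h4 : ¬ β i % 2 = 0 := by
        intro h5
        have h6 : ((β i : ℤ) : ZMod 2) = 0 := by
          rw [ZMod.intCast_zmod_eq_zero_iff_dvd]
          exact Int.dvd_of_emod_eq_zero h5
        rw [h6] at h3
        exact absurd h3 (by decide)
      simp only [if_true]
      omega
  choose m hm using h1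
  refine ⟨m, Pdc_of_abs fun l => ?_⟩
  rw [sum_hfv]
  have h2 : ∑ i, V l i * (2 * m i + if e i then 1 else 0) = V l ⬝ᵥ β := by
    unfold dotProduct
    exact Finset.sum_congr rfl fun i _ => by rw [hm i]
  rw [h2]
  have h3 : ((|V l ⬝ᵥ β| : ℤ) : ℝ) ≤ ((1 : ℤ) : ℝ) := by exact_mod_cast hb l
  rw [Int.cast_abs] at h3
  push_cast at h3
  rw [abs_div]
  have : |(2 : ℝ)| = 2 := by norm_num
  rw [this]
  linarith

/-- certificates in triangular position -/
theorem Cert.certB {V : Fin k → Fin r → ℤ} {P : (Fin r → ZMod 2) → ℕ} (h : Cert V P)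
    {f : Fin r → Fin k} (h1 : ∀ i j, i < j → V (f i) j = 0) (h2 : ∀ i, V (f i) i ≠ 0) :
    CertB V (fun e => P (bz e)) fun e i =>
      decide (rd2 (V (f i)) ⬝ᵥ bz e = 1) && decide ((V (f i) i).natAbs = 1) where
  pos := by
    obtain ⟨e, he⟩ := h.pos
    exact ⟨bz.symm e, by rw [Equiv.apply_symm_apply]; exact he⟩
  c1 := fun i => by
    have h3 := h.eq (f i)
    have h4 : ∑ e : Fin r → Bool, (if (decide (rd2 (V (f i)) ⬝ᵥ bz e = 1) &&
        decide ((V (f i) i).natAbs = 1)) = true then (P (bz e) : ℝ) else 0) ≤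
        ((∑ e, (if rd2 (V (f i)) ⬝ᵥ e = 1 then P e else 0) : ℕ) : ℝ) := by
      push_cast
      rw [← bz.sum_comp fun e => if rd2 (V (f i)) ⬝ᵥ e = 1 then (P e : ℝ) else 0]
      refine Finset.sum_le_sum fun e _ => ?_
      have h5 : (0 : ℝ) ≤ P (bz e) := Nat.cast_nonneg _
      split_ifs with h6 h7 h7
      · exact le_rfl
      · simp at h6
        exact absurd h6.1 h7
      · exact h5
      · exact le_rfl
    rw [sum_bz, ← h3]
    push_cast at h4 ⊢
    linarith
  c2 := fun b hb => by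
    have h3 : bz b ≠ 0 := by
      intro h0
      apply hb
      apply bz.injective
      rw [h0]
      funext i
      simp [bz]
    have h4 := h.ge _ h3
    have h5 : ((∑ e, P e : ℕ) : ℝ) ≤ ((3 * ∑ e, (if bz b ⬝ᵥ e = 1 then P e else 0) : ℕ) : ℝ) := by
      exact_mod_cast h4
    rw [sum_sg, sum_bz]
    push_cast at h5 ⊢
    linarith
  c3 := fun l => by
    have h4 := h.eq l
    have h5 : ((3 * ∑ e, (if rd2 (V l) ⬝ᵥ e = 1 then P e else 0) : ℕ) : ℝ) =
        ((∑ e, P e : ℕ) : ℝ) := by exact_mod_cast h4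
    rw [sum_sg, sum_bz, bz_par]
    push_cast at h5 ⊢
    linarith
  c4 := fun e he => by
    refine nice_of_tri r (Pdc V e) (fun i => if e i then 1 else 0) (fun i => V (f i)) (fun _ => 0)
      (fun i => decide (rd2 (V (f i)) ⬝ᵥ bz e = 1)) (h.pdc e he) h1 h2 ?_
    intro m hm i
    obtain ⟨h3, h4⟩ := Pdc_iff hm (f i)
    simp only [add_zero, decide_eq_false_iff_not, decide_eq_true_eq]
    exact ⟨h3, h4⟩

end Run7.h92
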