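import Pool.Agent.Run7.h92.GramD
import Pool.Agent.Run7.h92.GramT

/-!
# Checks for forms of rank 5
-/

namespace Run7.h92

/-- inverse matrix times an integer -/
def im5_1 : List (List ℤ) :=
  [[5, -2, -1, -1, 1], [-2, 8, -2, -2, -4], [-1, -2, 5, -1, 1], [-1, -2, -1, 5, 1], [1, -4, 1, 1,
  5]]

/-- weighted vectors -/
def wt5_1 : List (ℕ × List ℤ) :=
  [(17, [0, 0, 0, 0, 0]), (1, [-1, -1, -1, -1, 0]), (1, [0, -1, 0, 0, -1]), (1, [-1, 0, -1, -1,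
  1]), (1, [0, 0, -1, 0, 0]), (1, [-1, -1, 0, -1, 0]), (1, [0, -1, -1, 0, -1]), (1, [-1, 0, 0,
  -1, 1]), (1, [-1, 0, 0, 0, 0]), (1, [0, -1, -1, -1, 0]), (1, [-1, -1, 0, 0, -1]), (1, [0, 0,
  -1, -1, 1]), (1, [-1, 0, -1, 0, 0]), (1, [0, -1, 0, -1, 0]), (1, [-1, -1, -1, 0, -1]), (1,
  [0, 0, 0, -1, 1]), (1, [0, 0, 0, 0, 1]), (1, [-1, -1, -1, -1, -1]), (1, [0, -1, 0, 0, 0]),
  (1, [-1, 0, -1, -1, 0]), (1, [0, 0, -1, 0, 1]), (1, [-1, -1, 0, -1, -1]), (1, [0, -1, -1, 0,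
  0]), (1, [-1, 0, 0, -1, 0]), (1, [-1, 0, 0, 0, 1]), (1, [0, -1, -1, -1, -1]), (1, [-1, -1, 0,
  0, 0]), (1, [0, 0, -1, -1, 0]), (1, [-1, 0, -1, 0, 1]), (1, [0, -1, 0, -1, -1]), (1, [-1, -1,
  -1, 0, 0]), (1, [0, 0, 0, 1, 0])]

theorem ck5_1 : chk 5 gm5_1 im5_1 2 6 wt5_1 = true := by
  decide +kernel

/-- inverse matrix times an integer -/
def im5_2 : List (List ℤ) :=
  [[5, -2, -2, -2, 3], [-2, 4, 0, 0, -2], [-2, 0, 4, 0, -2], [-2, 0, 0, 4, -2], [3, -2, -2, -2,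
  5]]

/-- weighted vectors -/
def wt5_2 : List (ℕ × List ℤ) :=
  [(7, [0, 0, 0, 0, 0]), (2, [-1, -1, -1, -1, 0]), (1, [0, 0, -1, 0, 0]), (1, [-1, 0, 0, 0, 1]),
  (1, [0, -1, 0, -1, -1]), (1, [0, -1, 0, 0, 0]), (1, [-1, 0, 0, -1, 0]), (1, [0, 0, -1, -1,
  -1]), (1, [0, 0, 0, -1, -1]), (1, [0, 0, 0, -1, 0]), (1, [-1, -1, 0, 0, 0]), (1, [0, 1, 1, 0,
  1]), (1, [0, 1, 0, 0, 1]), (1, [1, 0, 1, 0, 0]), (1, [1, 0, 0, 0, 0]), (1, [0, 0, 1, 0, 1]),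
  (1, [-1, -1, -1, -1, -1])]

theorem ck5_2 : chk 5 gm5_2 im5_2 2 4 wt5_2 = true := by
  decide +kernel

/-- inverse matrix times an integer -/
def im5_3 : List (List ℤ) :=
  [[4, -2, -2, 2, -2], [-2, 3, 1, -2, 1], [-2, 1, 3, -2, 1], [2, -2, -2, 4, -2], [-2, 1, 1, -2,
  3]]

/-- weighted vectors -/
def wt5_3 : List (ℕ × List ℤ) :=
  [(7, [0, 0, 0, 0, 0]), (1, [0, 0, -1, -1, 0]), (1, [0, 1, -1, 0, 0]), (1, [1, 1, 0, 0, 0]), (1,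
  [-1, -1, -1, -1, 0]), (1, [1, 0, 1, 0, 0]), (1, [0, -1, -1, -1, 0]), (1, [0, 0, -1, 0, 0]),
  (1, [0, 0, 0, -1, 0]), (1, [1, 0, 0, 0, 0]), (1, [0, -1, 0, -1, -1]), (1, [-1, -1, -1, -1,
  -1]), (1, [-1, 0, -1, 0, -1]), (1, [-1, -1, 0, 0, -1]), (1, [0, 1, 0, 0, -1]), (2, [0, 0, 0,
  -1, -1]), (1, [-1, 0, 0, 0, -1])]

theorem ck5_3 : chk 5 gm5_3 im5_3 4 6 wt5_3 = true := by
  decide +kernel

end Run7.h92
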