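import Pool.Agent.Run7.h92.Fejer

/-!
# Counting torsion zeros
-/

namespace Run7.h92

open Complex MeasureTheory Metric Real Set Filter Topology

variable {g : ℕ}

/-- torsion points as real vectors -/
noncomputable def xiv {N : ℕ} (x : Fin g ⊕ Fin g → Fin N) : XX g := fun i => ((x i : ℕ) : ℝ) / N

theorem nsmul_pr (N : ℕ) (y : XX g) : N • pr y = pr ((N : ℝ) • y) := by
  funext i
  simp only [Pi.smul_apply, pr, smul_eq_mul]
  rw [← nsmul_eq_mul, AddCircle.coe_nsmul]

namespace Dat

variable (D : Dat g)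

open Classical in
/-- torsion zeros -/
noncomputable def Zs (N : ℕ) : Finset (Fin g ⊕ Fin g → Fin N) :=
  Finset.univ.filter fun x => D.f (D.A (xiv x)) = 0

/-- the unit polydisc in real coordinates -/
def KK : Set (XX g) := D.A ⁻¹' UU g

theorem measurableSet_KK : MeasurableSet D.KK := D.continuous_A.measurable measurableSet_closedBall

theorem exists_R0 : ∃ R : ℝ, 1 ≤ R ∧ ∀ y ∈ D.KK, ∀ i, |y i| ≤ R := by
  obtain ⟨R, hR⟩ := (isCompact_closedBall (0 : Fin g → ℂ) 1).exists_bound_of_continuousOn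
    D.continuous_B.continuousOn
  refine ⟨max R 1, le_max_right _ _, fun y hy i => ?_⟩
  have h1 := hR (D.A y) hy
  rw [LinearEquiv.symm_apply_apply] at h1
  exact ((norm_le_pi_norm y i).trans h1).trans (le_max_left _ _)

/-- the scaled translate of `KK` -/
def KKx (ξ : XX g) (r : ℝ) : Set (XX g) := {y | r⁻¹ • (y - ξ) ∈ D.KK}

theorem measurableSet_KKx (ξ : XX g) (r : ℝ) : MeasurableSet (D.KKx ξ r) := by
  have : Measurable fun y : XX g => r⁻¹ • (y - ξ) := by fun_prop
  exact this D.measurableSet_KK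

/-- change of variables -/
theorem change {c : ENNReal}
    (hc : Measure.map D.A (volume : Measure (XX g)) = c • (volume : Measure (Fin g → ℂ)))
    (Ψ : XX g → ℝ) (ξ : XX g) {r : ℝ} (hr : 0 < r) :
    c.toReal * r ^ (2 * g) * ∫ p in UU g, Ψ (ξ + r • D.A.symm p) =
      ∫ y, indicator (D.KKx ξ r) Ψ y := by
  have hemb : MeasurableEmbedding D.A :=
    D.A.toContinuousLinearEquiv.toHomeomorph.measurableEmbedding
  have h1 : ∫ p in UU g, Ψ (ξ + r • D.A.symm p) ∂(Measure.map D.A (volume : Measure (XX g))) =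
      ∫ y in D.KK, Ψ (ξ + r • y) := by
    rw [hemb.setIntegral_map]
    simp only [LinearEquiv.symm_apply_apply]
    rfl
  rw [hc, Measure.restrict_smul, integral_smul_measure, smul_eq_mul] at h1
  have h2 : ∫ y in D.KK, Ψ (ξ + r • y) = ∫ y, indicator (D.KKx ξ r) Ψ (ξ + r • y) := by
    rw [← integral_indicator D.measurableSet_KK]
    congr 1
    funext y
    by_cases hy : y ∈ D.KK
    · have : ξ + r • y ∈ D.KKx ξ r := by
        show r⁻¹ • (ξ + r • y - ξ) ∈ D.KK
        rw [add_sub_cancel_left, smul_smul, inv_mul_cancel₀ hr.ne', one_smul]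
        exact hy
      rw [indicator_of_mem hy, indicator_of_mem this]
    · have : ξ + r • y ∉ D.KKx ξ r := by
        show ¬ (r⁻¹ • (ξ + r • y - ξ) ∈ D.KK)
        rw [add_sub_cancel_left, smul_smul, inv_mul_cancel₀ hr.ne', one_smul]
        exact hy
      rw [indicator_of_notMem hy, indicator_of_notMem this]
  have h3 := Measure.integral_comp_smul_of_nonneg (volume : Measure (XX g))
    (fun y => indicator (D.KKx ξ r) Ψ (ξ + y)) r (hR := hr.le)
  rw [h3, integral_add_left_eq_self, Module.finrank_fintype_fun_eq_card, Fintype.card_sum,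
    Fintype.card_fin, ← two_mul, smul_eq_mul] at h2
  rw [mul_right_comm, h1, h2]
  field_simp

/-- the contribution of one zero -/
theorem one_zero {ξ : XX g} (hξ : D.f (D.A ξ) = 0) {r : ℝ} (hr : 0 < r) :
    Integrable (fun ζ => ∫ p in UU g, D.S (pr (ξ + r • D.A.symm p)) ((2 * r) • ζ))
      (volume.restrict (UU g)) ∧
    vU g ^ 2 * Real.log 2 ≤
      ∫ ζ in UU g, ∫ p in UU g, D.S (pr (ξ + r • D.A.symm p)) ((2 * r) • ζ) := by
  have hfd : Differentiable ℂ fun z : Fin g → ℂ => D.f (D.A ξ + (r : ℂ) • z) := by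
    have : Differentiable ℂ fun z : Fin g → ℂ => D.A ξ + (r : ℂ) • z := by fun_prop
    exact D.hf.comp this
  have hrc : (r : ℂ) ≠ 0 := by exact_mod_cast hr.ne'
  have hfne : ∃ z : Fin g → ℂ, D.f (D.A ξ + (r : ℂ) • z) ≠ 0 := by
    obtain ⟨z, hz⟩ := D.hne
    refine ⟨(r : ℂ)⁻¹ • (z - D.A ξ), ?_⟩
    rw [smul_smul, mul_inv_cancel₀ hrc, one_smul]
    simpa using hz
  obtain ⟨h1, h2⟩ := lower hfd hfne (by simpa using hξ)
  rw [integral_prod_symm _ h1] at h2
  have h3 := h1.integral_prod_right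
  have hnull := null_zero hfd hfne
  have hae : ∀ᵐ p : Fin g → ℂ, D.f (D.A ξ + (r : ℂ) • p) ≠ 0 := by
    rw [ae_iff]
    simpa using hnull
  have e1 : ∀ ζ : Fin g → ℂ, ∫ p in UU g, SS (fun z => D.f (D.A ξ + (r : ℂ) • z)) p ((2 : ℝ) • ζ) =
      ∫ p in UU g, D.S (pr (ξ + r • D.A.symm p)) ((2 * r) • ζ) := by
    intro ζ
    refine integral_congr_ae (ae_restrict_of_ae ?_)
    filter_upwards [hae] with p hp
    have e2 : D.A (ξ + r • D.A.symm p) = D.A ξ + (r : ℂ) • p := by
      rw [map_add, map_smul, LinearEquiv.apply_symm_apply]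
      rfl
    rw [D.S_lift (by rw [e2]; exact hp), e2]
    unfold SS
    congr 1
    funext w
    show D.f (D.A ξ + (r : ℂ) • (p + w • (2 : ℝ) • ζ)) = D.f (D.A ξ + (r : ℂ) • p + w • (2 * r) • ζ)
    rw [smul_add, add_assoc]
    congr 3
    rw [smul_comm (r : ℂ) w, mul_comm 2 r, mul_smul]
    rfl
  simp only [e1] at h2 h3
  exact ⟨h3, h2⟩

/-- the main upper bound, for a fixed direction -/
theorem sum_le {N m : ℕ} (hN : 0 < N) (hm : 0 < m) {R a : ℝ} (hR1 : 1 ≤ R)
    (hR : ∀ y ∈ D.KK, ∀ i, |y i| ≤ R) (ha : 0 < a) (haR : a * R ≤ 1 / (6 * m))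
    (ζ : Fin g → ℂ) :
    ∑ x ∈ D.Zs N, ∫ y, indicator (D.KKx (xiv x) (a / N)) (fun y => D.S (pr y) ζ) y ≤
      ∫ p, Xi m (N • p) * D.S p ζ := by
  have hN' : (0 : ℝ) < N := by exact_mod_cast hN
  have hm' : (1 : ℝ) ≤ m := by exact_mod_cast hm
  have haR6 : a * R ≤ 1 / 6 := haR.trans (by
    rw [div_le_div_iff₀ (by positivity) (by norm_num)]
    linarith)
  set a0 : XX g := fun _ => -(1 / (2 * (N : ℝ))) with ha0
  have hmp := pr_mp a0
  -- coordinates
  have hK : ∀ x : Fin g ⊕ Fin g → Fin N, ∀ y ∈ D.KKx (xiv x) (a / N), ∀ i,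
      |y i - xiv x i| ≤ a * R / N := by
    intro x y hy i
    have h1 := hR _ hy i
    simp only [Pi.smul_apply, Pi.sub_apply, smul_eq_mul, abs_mul] at h1
    rw [abs_of_pos (by positivity)] at h1
    rw [inv_mul_le_iff₀ (by positivity)] at h1
    calc |y i - xiv x i| ≤ a / N * R := h1
      _ = _ := by ring
  have hlt : a * R / N < 1 / (2 * N) := by
    rw [div_lt_div_iff₀ hN' (by positivity)]
    nlinarith
  have hcube : ∀ x : Fin g ⊕ Fin g → Fin N, ∀ y ∈ D.KKx (xiv x) (a / N), y ∈ cube a0 := by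
    intro x y hy i _
    have h1 := hK x y hy i
    rw [abs_le] at h1
    have h2 : (0 : ℝ) ≤ xiv x i := by unfold xiv; positivity
    have h3 : xiv x i ≤ 1 - 1 / N := by
      unfold xiv
      have : ((x i : ℕ) : ℝ) ≤ N - 1 := by
        have := (x i).2
        have h4 : ((x i : ℕ) : ℝ) + 1 ≤ N := by exact_mod_cast this
        linarith
      rw [div_le_iff₀ hN']
      calc ((x i : ℕ) : ℝ) ≤ N - 1 := this
        _ = (1 - 1 / N) * N := by field_simp
    have h5 : (1 : ℝ) / N = 2 * (1 / (2 * N)) := by field_simp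
    constructor
    · simp only [ha0]; linarith
    · simp only [ha0]; linarith
  have huniq : ∀ x x' : Fin g ⊕ Fin g → Fin N, ∀ y ∈ D.KKx (xiv x) (a / N),
      y ∈ D.KKx (xiv x') (a / N) → x = x' := by
    intro x x' y hy hy'
    funext i
    have h1 := hK x y hy i
    have h2 := hK x' y hy' i
    rw [abs_le] at h1 h2
    have h3 : |xiv x i - xiv x' i| < 1 / N := by
      have h5 : (1 : ℝ) / N = 2 * (1 / (2 * N)) := by field_simp
      rw [abs_lt]
      constructor <;> linarith
    unfold xiv at h3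
    rw [← sub_div, abs_div, abs_of_pos hN', div_lt_div_iff_of_pos_right hN'] at h3
    have h4 : |((x i : ℕ) : ℤ) - ((x' i : ℕ) : ℤ)| < 1 := by exact_mod_cast h3
    rw [Int.abs_lt_one_iff] at h4
    apply Fin.ext
    omega
  have hXi : ∀ x : Fin g ⊕ Fin g → Fin N, ∀ y ∈ D.KKx (xiv x) (a / N), 1 ≤ Xi m (N • pr y) := by
    intro x y hy
    have h1 : N • pr y = pr ((N : ℝ) • (y - xiv x)) := by
      rw [nsmul_pr, pr_eq_iff]
      refine ⟨fun i => ((x i : ℕ) : ℤ), ?_⟩
      funext i
      simp only [Pi.smul_apply, Pi.add_apply, Pi.sub_apply, smul_eq_mul, iv, xiv]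
      push_cast
      field_simp
      ring
    rw [h1]
    refine Xi_ge_one hm fun i => ?_
    simp only [Pi.smul_apply, Pi.sub_apply, smul_eq_mul]
    rw [abs_mul, abs_of_pos hN']
    have h2 := hK x y hy i
    calc (N : ℝ) * |y i - xiv x i| ≤ N * (a * R / N) := by gcongr
      _ = a * R := by field_simp
      _ ≤ _ := haR
  -- integrability
  have hXim : Measurable fun p : TT g => Xi m (N • p) := by
    unfold Xi
    refine Measurable.const_mul ?_ _
    refine Measurable.pow_const ?_ _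
    refine Measurable.norm ?_
    refine Finset.measurable_sum _ fun s _ => ?_
    simp_rw [chi_nsmul]
    exact measurable_chi _
  have hXib : ∀ p : TT g, Xi m p ≤ (4 / (m : ℝ) ^ 2) ^ (2 * g) *
      (Fintype.card (Fin g ⊕ Fin g → Fin m)) ^ 2 := by
    intro p
    unfold Xi
    gcongr
    refine (norm_sum_le _ _).trans ?_
    simp_rw [norm_chi]
    simp
  have hI : Integrable fun p : TT g => Xi m (N • p) * D.S p ζ := by
    refine (D.integrable_S ζ).bdd_mul hXim.aestronglyMeasurable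
      (Filter.Eventually.of_forall fun p => ?_)
      (c := (4 / (m : ℝ) ^ 2) ^ (2 * g) * (Fintype.card (Fin g ⊕ Fin g → Fin m)) ^ 2)
    rw [Real.norm_of_nonneg (Xi_nonneg _ _)]
    exact hXib _
  have hI' : IntegrableOn (fun y => Xi m (N • pr y) * D.S (pr y) ζ) (cube a0) :=
    hmp.integrable_comp_of_integrable hI
  have hSc : IntegrableOn (fun y => D.S (pr y) ζ) (cube a0) :=
    hmp.integrable_comp_of_integrable (D.integrable_S ζ)
  have hSK : ∀ x : Fin g ⊕ Fin g → Fin N,
      Integrable (indicator (D.KKx (xiv x) (a / N)) (fun y => D.S (pr y) ζ)) := by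
    intro x
    rw [integrable_indicator_iff (D.measurableSet_KKx _ _)]
    exact hSc.mono_set (hcube x)
  have hval : ∫ p, Xi m (N • p) * D.S p ζ =
      ∫ y, indicator (cube a0) (fun y => Xi m (N • pr y) * D.S (pr y) ζ) y := by
    rw [integral_indicator (measurableSet_cube a0)]
    have := integral_map hmp.measurable.aemeasurable (f := fun p => Xi m (N • p) * D.S p ζ)
      (μ := volume.restrict (cube a0)) (by rw [hmp.map_eq]; exact hI.aestronglyMeasurable)
    rw [← this, hmp.map_eq]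
  rw [hval, ← integral_finsetSum _ fun x _ => hSK x]
  refine integral_mono_ae (integrable_finsetSum _ fun x _ => hSK x)
    ((integrable_indicator_iff (measurableSet_cube a0)).2 hI') ?_
  filter_upwards [D.ae_ne] with y hy
  have hS0 : 0 ≤ D.S (pr y) ζ := by
    rw [D.S_lift hy]
    exact SS_nonneg D.hf hy ζ
  have hXS : 0 ≤ Xi m (N • pr y) * D.S (pr y) ζ := mul_nonneg (Xi_nonneg _ _) hS0
  by_cases hex : ∃ x ∈ D.Zs N, y ∈ D.KKx (xiv x) (a / N)
  · obtain ⟨x, hx, hyx⟩ := hex
    rw [Finset.sum_eq_single x]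
    · rw [indicator_of_mem hyx, indicator_of_mem (hcube x y hyx)]
      exact le_mul_of_one_le_left hS0 (hXi x y hyx)
    · intro x' _ hne
      refine indicator_of_notMem (fun h => hne (huniq _ _ y h hyx)) _
    · intro h; exact absurd hx h
  · rw [Finset.sum_eq_zero]
    · exact indicator_apply_nonneg fun _ => hXS
    · intro x hx
      exact indicator_of_notMem (fun h => hex ⟨x, hx, h⟩) _

end Dat

end Run7.h92
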