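import Pool.Agent.Run7.h92.Count
import Pool.Agent.Run7.h92.Null

/-!
# Counting torsion zeros: conclusion
-/

namespace Run7.h92

open Complex MeasureTheory Metric Real Set Filter Topology

variable {g : ℕ}

namespace Dat

variable (D : Dat g)

/-- the average -/
noncomputable def GG (m N : ℕ) (a : ℝ) : ℝ :=
  ∫ ζ in UU g, ∫ p, Xi m (N • p) * D.S p ((2 * (a / N)) • ζ)

/-- integrated symbol -/
noncomputable def Jb (k : Fin g ⊕ Fin g → ℤ) (a : ℝ) : ℂ := ∫ ζ in UU g, D.J k ((2 * a) • ζ)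

theorem cont_int {m N : ℕ} (hN : 0 < N) (r : ℝ) :
    Continuous fun ζ : Fin g → ℂ => ∫ p, Xi m (N • p) * D.S p (r • ζ) := by
  have h1 : (fun ζ : Fin g → ℂ => ∫ p, Xi m (N • p) * D.S p (r • ζ)) = fun ζ =>
      ((((4 / (m : ℝ) ^ 2) ^ (2 * g) : ℝ) : ℂ) *
      ∑ s : Fin g ⊕ Fin g → Fin m, ∑ t : Fin g ⊕ Fin g → Fin m,
        if s = t then (D.q (r • ζ) : ℂ) else D.J ((N : ℤ) • (fr s - fr t)) (r • ζ) *
          D.uh ((N : ℤ) • (fr s - fr t))).re := by
    funext ζ
    rw [← D.int_Xi hN (r • ζ), Complex.ofReal_re]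
  rw [h1]
  refine Complex.continuous_re.comp (continuous_const.mul ?_)
  refine continuous_finsetSum _ fun s _ => continuous_finsetSum _ fun t _ => ?_
  have h2 : Continuous fun ζ : Fin g → ℂ => r • ζ := by fun_prop
  split_ifs
  · exact Complex.continuous_ofReal.comp (D.continuous_q.comp h2)
  · exact ((D.continuous_J _).comp h2).mul continuous_const

theorem G_le {c : ENNReal}
    (hc : Measure.map D.A (volume : Measure (XX g)) = c • (volume : Measure (Fin g → ℂ)))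
    {N m : ℕ} (hN : 0 < N) (hm : 0 < m) {R a : ℝ} (hR1 : 1 ≤ R)
    (hR : ∀ y ∈ D.KK, ∀ i, |y i| ≤ R) (ha : 0 < a) (haR : a * R ≤ 1 / (6 * m)) :
    c.toReal * (a / N) ^ (2 * g) * ((D.Zs N).card * (vU g ^ 2 * Real.log 2)) ≤ D.GG m N a := by
  have hN' : (0 : ℝ) < N := by exact_mod_cast hN
  have hr : 0 < a / N := by positivity
  have hz : ∀ x ∈ D.Zs N, D.f (D.A (xiv x)) = 0 := by
    intro x hx
    simpa [Zs] using hx
  have h1 : (D.Zs N).card * (vU g ^ 2 * Real.log 2) ≤ ∑ x ∈ D.Zs N,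
      ∫ ζ in UU g, ∫ p in UU g, D.S (pr (xiv x + (a / N) • D.A.symm p)) ((2 * (a / N)) • ζ) := by
    rw [← nsmul_eq_mul]
    exact Finset.card_nsmul_le_sum _ _ _ fun x hx => (D.one_zero (hz x hx) hr).2
  have h2 : 0 ≤ c.toReal * (a / N) ^ (2 * g) := by positivity
  refine (mul_le_mul_of_nonneg_left h1 h2).trans ?_
  rw [← integral_finsetSum _ fun x hx => (D.one_zero (hz x hx) hr).1, ← integral_const_mul]
  unfold GG
  refine setIntegral_mono_on ?_ ?_ measurableSet_closedBall fun ζ _ => ?_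
  · exact (integrable_finsetSum _ fun x hx => (D.one_zero (hz x hx) hr).1).const_mul _
  · exact (D.cont_int hN _).continuousOn.integrableOn_compact (isCompact_closedBall _ _)
  · rw [Finset.mul_sum]
    have h3 := D.sum_le hN hm hR1 hR ha haR ((2 * (a / N)) • ζ)
    refine le_trans (le_of_eq ?_) h3
    refine Finset.sum_congr rfl fun x _ => ?_
    exact D.change hc (fun y => D.S (pr y) ((2 * (a / N)) • ζ)) (xiv x) hr

theorem G_eq {N m : ℕ} (hN : 0 < N) (a : ℝ) :
    ((D.GG m N a : ℝ) : ℂ) * (N : ℂ) ^ 2 = ((4 / (m : ℝ) ^ 2) ^ (2 * g) : ℝ) *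
      ∑ s : Fin g ⊕ Fin g → Fin m, ∑ t : Fin g ⊕ Fin g → Fin m,
        if s = t then ((4 * a ^ 2 * ∫ ζ in UU g, D.q ζ : ℝ) : ℂ) else
          D.Jb (fr s - fr t) a * ((N : ℂ) ^ 2 * D.uh ((N : ℤ) • (fr s - fr t))) := by
  have hN' : (N : ℂ) ≠ 0 := by exact_mod_cast hN.ne'
  have hNr : (N : ℝ) ≠ 0 := by exact_mod_cast hN.ne'
  unfold GG
  rw [← integral_complex_ofReal]
  simp_rw [D.int_Xi hN]
  rw [integral_const_mul]
  have hcq : ∀ r : ℝ, Continuous fun ζ : Fin g → ℂ => (D.q (r • ζ) : ℂ) := fun r =>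
    Complex.continuous_ofReal.comp (D.continuous_q.comp (by fun_prop))
  have hcJ : ∀ (r : ℝ) k, Continuous fun ζ : Fin g → ℂ => D.J k (r • ζ) := fun r k =>
    (D.continuous_J k).comp (by fun_prop)
  have hterm : ∀ s t : Fin g ⊕ Fin g → Fin m, IntegrableOn (fun ζ : Fin g → ℂ =>
      if s = t then (D.q ((2 * (a / N)) • ζ) : ℂ) else
        D.J ((N : ℤ) • (fr s - fr t)) ((2 * (a / N)) • ζ) * D.uh ((N : ℤ) • (fr s - fr t)))
      (UU g) := by
    intro s t
    have : Continuous (fun ζ : Fin g → ℂ =>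
      if s = t then (D.q ((2 * (a / N)) • ζ) : ℂ) else
        D.J ((N : ℤ) • (fr s - fr t)) ((2 * (a / N)) • ζ) * D.uh ((N : ℤ) • (fr s - fr t))) := by
      split_ifs
      · exact hcq _
      · exact (hcJ _ _).mul continuous_const
    exact this.continuousOn.integrableOn_compact (isCompact_closedBall _ _)
  rw [integral_finsetSum _ fun s _ => integrable_finsetSum _ fun t _ => hterm s t, mul_assoc,
    Finset.sum_mul]
  congr 1
  refine Finset.sum_congr rfl fun s _ => ?_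
  rw [integral_finsetSum _ fun t _ => hterm s t, Finset.sum_mul]
  refine Finset.sum_congr rfl fun t _ => ?_
  by_cases hst : s = t
  · simp only [hst, if_true]
    simp_rw [D.q_smul]
    rw [integral_complex_ofReal, integral_const_mul]
    push_cast
    field_simp
    ring
  · simp only [if_neg hst]
    rw [integral_mul_const]
    have : ∀ ζ, D.J ((N : ℤ) • (fr s - fr t)) ((2 * (a / N)) • ζ) =
        D.J (fr s - fr t) ((2 * a) • ζ) := by
      intro ζ
      rw [D.J_smul, smul_smul]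
      congr 2
      push_cast
      field_simp
    simp_rw [this]
    unfold Jb
    ring

/-- **Counting theorem.** -/
theorem count (hnf : ∀ k ≠ 0, ¬ D.Flat k) :
    ∃ n : ℕ, 0 < n ∧ (D.Zs (2 * n)).card * (2 * n) ^ 2 ≤ (2 * n) ^ (2 * g) := by
  by_contra hcon
  push Not at hcon
  obtain ⟨c, hc0, hct, hc⟩ := D.map_A
  obtain ⟨R, hR1, hR⟩ := D.exists_R0
  have hcpos : 0 < c.toReal := ENNReal.toReal_pos hc0 hct
  have hv := vU_pos (g := g)
  have hl : 0 < Real.log 2 := Real.log_pos (by norm_num)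
  set QU : ℝ := ∫ ζ in UU g, D.q ζ with hQU
  have hR0 : 0 < R := by linarith
  have key : ∀ m : ℕ, 0 < m → c.toReal * (1 / (6 * m * R)) ^ (2 * g) * (vU g ^ 2 * Real.log 2) ≤
      (4 / (m : ℝ) ^ 2) ^ (2 * g) * ((m : ℝ) ^ (2 * g) * (4 * (1 / (6 * m * R)) ^ 2 * QU)) := by
    intro m hm
    have hm' : (0 : ℝ) < m := by exact_mod_cast hm
    set a : ℝ := 1 / (6 * m * R) with ha
    have ha0 : 0 < a := by positivity
    have haR : a * R ≤ 1 / (6 * m) := by
      rw [ha]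
      apply le_of_eq
      field_simp
    -- lower bound for each N
    have hlow : ∀ n : ℕ, c.toReal * a ^ (2 * g) * (vU g ^ 2 * Real.log 2) ≤
        D.GG m (2 * (n + 1)) a * ((2 * (n + 1) : ℕ) : ℝ) ^ 2 := by
      intro n
      have hNpos : 0 < 2 * (n + 1) := by omega
      set N := 2 * (n + 1) with hN
      have hN' : (0 : ℝ) < N := by exact_mod_cast hNpos
      have h1 := D.G_le hc hNpos hm hR1 hR ha0 haR
      have h2 : ((N : ℝ)) ^ (2 * g) ≤ (D.Zs N).card * (N : ℝ) ^ 2 := by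
        have := (hcon (n + 1) (by omega)).le
        rw [← hN] at this
        exact_mod_cast this
      calc c.toReal * a ^ (2 * g) * (vU g ^ 2 * Real.log 2) =
          (c.toReal * (a / N) ^ (2 * g)) * (((N : ℝ) ^ (2 * g)) * (vU g ^ 2 * Real.log 2)) := by
            have : (a / N) ^ (2 * g) * (N : ℝ) ^ (2 * g) = a ^ (2 * g) := by
              rw [← mul_pow, div_mul_cancel₀ _ hN'.ne']
            rw [← this]
            ring
        _ ≤ (c.toReal * (a / N) ^ (2 * g)) * (((D.Zs N).card * (N : ℝ) ^ 2) *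
            (vU g ^ 2 * Real.log 2)) := by gcongr
        _ = (c.toReal * (a / N) ^ (2 * g) * ((D.Zs N).card * (vU g ^ 2 * Real.log 2))) *
            (N : ℝ) ^ 2 := by ring
        _ ≤ D.GG m N a * (N : ℝ) ^ 2 := by gcongr
    -- the Cesaro limit
    have hlim : Tendsto (fun M : ℕ => (M : ℂ)⁻¹ * ∑ n ∈ Finset.range M,
        ((D.GG m (2 * (n + 1)) a : ℝ) : ℂ) * ((2 * (n + 1) : ℕ) : ℂ) ^ 2) atTop
        (𝓝 (((4 / (m : ℝ) ^ 2) ^ (2 * g) : ℝ) * ∑ s : Fin g ⊕ Fin g → Fin m,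
          ∑ t : Fin g ⊕ Fin g → Fin m, if s = t then ((4 * a ^ 2 * QU : ℝ) : ℂ) else 0)) := by
      have e1 : ∀ M : ℕ, 0 < M → (M : ℂ)⁻¹ * ∑ n ∈ Finset.range M,
        ((D.GG m (2 * (n + 1)) a : ℝ) : ℂ) * ((2 * (n + 1) : ℕ) : ℂ) ^ 2 =
          ((4 / (m : ℝ) ^ 2) ^ (2 * g) : ℝ) * ∑ s : Fin g ⊕ Fin g → Fin m,
          ∑ t : Fin g ⊕ Fin g → Fin m, if s = t then ((4 * a ^ 2 * QU : ℝ) : ℂ) else
            4 * D.Jb (fr s - fr t) a * ((M : ℂ)⁻¹ * ∑ n ∈ Finset.range M,
              ((n + 1 : ℕ) : ℂ) ^ 2 * D.uh (((n + 1 : ℕ) : ℤ) • ((2 : ℤ) • (fr s - fr t)))) := by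
        intro M hM
        have hM' : (M : ℂ) ≠ 0 := by exact_mod_cast hM.ne'
        have e2 : ∀ n : ℕ, ((D.GG m (2 * (n + 1)) a : ℝ) : ℂ) * ((2 * (n + 1) : ℕ) : ℂ) ^ 2 =
            ((4 / (m : ℝ) ^ 2) ^ (2 * g) : ℝ) * ∑ s : Fin g ⊕ Fin g → Fin m,
          ∑ t : Fin g ⊕ Fin g → Fin m, if s = t then ((4 * a ^ 2 * QU : ℝ) : ℂ) else
            4 * D.Jb (fr s - fr t) a * (((n + 1 : ℕ) : ℂ) ^ 2 *
              D.uh (((n + 1 : ℕ) : ℤ) • ((2 : ℤ) • (fr s - fr t)))) := by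
          intro n
          rw [D.G_eq (by omega) a]
          congr 1
          refine Finset.sum_congr rfl fun s _ => Finset.sum_congr rfl fun t _ => ?_
          split_ifs
          · rfl
          · rw [smul_smul]
            have : ((n + 1 : ℕ) : ℤ) * 2 = ((2 * (n + 1) : ℕ) : ℤ) := by push_cast; ring
            rw [this]
            push_cast
            ring
        simp_rw [e2]
        rw [← Finset.mul_sum, ← mul_assoc, mul_comm (M : ℂ)⁻¹, mul_assoc]
        congr 1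
        rw [Finset.sum_comm, Finset.mul_sum]
        refine Finset.sum_congr rfl fun s _ => ?_
        rw [Finset.sum_comm, Finset.mul_sum]
        refine Finset.sum_congr rfl fun t _ => ?_
        split_ifs
        · rw [Finset.sum_const, Finset.card_range, nsmul_eq_mul, ← mul_assoc,
            inv_mul_cancel₀ hM', one_mul]
        · rw [← Finset.mul_sum]
          ring
      have e3 : Tendsto (fun M : ℕ => (((4 / (m : ℝ) ^ 2) ^ (2 * g) : ℝ) : ℂ) *
          ∑ s : Fin g ⊕ Fin g → Fin m,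
          ∑ t : Fin g ⊕ Fin g → Fin m, if s = t then ((4 * a ^ 2 * QU : ℝ) : ℂ) else
            4 * D.Jb (fr s - fr t) a * ((M : ℂ)⁻¹ * ∑ n ∈ Finset.range M,
              ((n + 1 : ℕ) : ℂ) ^ 2 * D.uh (((n + 1 : ℕ) : ℤ) • ((2 : ℤ) • (fr s - fr t))))) atTop
          (𝓝 (((4 / (m : ℝ) ^ 2) ^ (2 * g) : ℝ) * ∑ s : Fin g ⊕ Fin g → Fin m,
          ∑ t : Fin g ⊕ Fin g → Fin m, if s = t then ((4 * a ^ 2 * QU : ℝ) : ℂ) else 0)) := by
        refine tendsto_const_nhds.mul (tendsto_finsetSum _ fun s _ => tendsto_finsetSum _ fun t _ => ?_)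
        by_cases hst : s = t
        · simp only [if_pos hst]
          exact tendsto_const_nhds
        · simp only [if_neg hst]
          have hk : (2 : ℤ) • (fr s - fr t) ≠ 0 := by
            intro h
            rcases smul_eq_zero.1 h with h | h
            · exact absurd h (by norm_num)
            · exact fr_sub_ne hst h
          have := D.cesaro hk (D.good_of_not_flat hk (hnf _ hk))
          have h4 := this.const_mul (4 * D.Jb (fr s - fr t) a)
          rw [mul_zero] at h4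
          exact h4
      refine e3.congr' ?_
      filter_upwards [Filter.eventually_gt_atTop 0] with M hM
      exact (e1 M hM).symm
    have hre := (Complex.continuous_re.tendsto _).comp hlim
    have hev : ∀ᶠ M : ℕ in atTop, c.toReal * a ^ (2 * g) * (vU g ^ 2 * Real.log 2) ≤
        (Complex.re ∘ fun M : ℕ => (M : ℂ)⁻¹ * ∑ n ∈ Finset.range M,
        ((D.GG m (2 * (n + 1)) a : ℝ) : ℂ) * ((2 * (n + 1) : ℕ) : ℂ) ^ 2) M := by
      filter_upwards [Filter.eventually_gt_atTop 0] with M hM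
      have hM' : (0 : ℝ) < M := by exact_mod_cast hM
      have e5 : (Complex.re ∘ fun M : ℕ => (M : ℂ)⁻¹ * ∑ n ∈ Finset.range M,
        ((D.GG m (2 * (n + 1)) a : ℝ) : ℂ) * ((2 * (n + 1) : ℕ) : ℂ) ^ 2) M =
          (M : ℝ)⁻¹ * ∑ n ∈ Finset.range M, D.GG m (2 * (n + 1)) a * ((2 * (n + 1) : ℕ) : ℝ) ^ 2 := by
        simp only [Function.comp_apply]
        rw [← Complex.ofReal_re ((M : ℝ)⁻¹ * ∑ n ∈ Finset.range M,
          D.GG m (2 * (n + 1)) a * ((2 * (n + 1) : ℕ) : ℝ) ^ 2)]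
        congr 1
        push_cast
        rfl
      rw [e5, le_inv_mul_iff₀ hM']
      calc (M : ℝ) * (c.toReal * a ^ (2 * g) * (vU g ^ 2 * Real.log 2)) =
          ∑ _n ∈ Finset.range M, (c.toReal * a ^ (2 * g) * (vU g ^ 2 * Real.log 2)) := by
            rw [Finset.sum_const, Finset.card_range, nsmul_eq_mul]
        _ ≤ _ := Finset.sum_le_sum fun n _ => hlow n
    have h6 := ge_of_tendsto hre hev
    refine h6.trans (le_of_eq ?_)
    have e7 : ∑ s : Fin g ⊕ Fin g → Fin m,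
          ∑ t : Fin g ⊕ Fin g → Fin m, (if s = t then ((4 * a ^ 2 * QU : ℝ) : ℂ) else 0) =
        (((m : ℝ) ^ (2 * g) * (4 * a ^ 2 * QU) : ℝ) : ℂ) := by
      simp_rw [Finset.sum_ite_eq, Finset.mem_univ, if_true]
      rw [Finset.sum_const, Finset.card_univ, nsmul_eq_mul]
      have : Fintype.card (Fin g ⊕ Fin g → Fin m) = m ^ (2 * g) := by
        rw [Fintype.card_fun, Fintype.card_sum, Fintype.card_fin, Fintype.card_fin, two_mul]
      rw [this]
      push_cast
      ring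
    rw [e7, ← Complex.ofReal_mul, Complex.ofReal_re]
  -- conclusion
  have hconst : ∀ m : ℕ, 0 < m → c.toReal * (vU g ^ 2 * Real.log 2) * (36 * R ^ 2) * (m : ℝ) ^ 2 ≤
      (24 * R) ^ (2 * g) * (4 * QU) := by
    intro m hm
    have hm' : (0 : ℝ) < m := by exact_mod_cast hm
    have h1 := key m hm
    have h2 : (0 : ℝ) < (6 * m * R) ^ (2 * g) * (36 * R ^ 2 * (m : ℝ) ^ 2) := by positivity
    have h3 := mul_le_mul_of_nonneg_right h1 h2.le
    calc c.toReal * (vU g ^ 2 * Real.log 2) * (36 * R ^ 2) * (m : ℝ) ^ 2 =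
        c.toReal * (1 / (6 * m * R)) ^ (2 * g) * (vU g ^ 2 * Real.log 2) *
          ((6 * m * R) ^ (2 * g) * (36 * R ^ 2 * (m : ℝ) ^ 2)) := by
          rw [one_div, inv_pow]
          have : (6 * (m : ℝ) * R) ^ (2 * g) ≠ 0 := by positivity
          field_simp
      _ ≤ _ := h3
      _ = (24 * R) ^ (2 * g) * (4 * QU) := by
          have e : (24 * R) ^ (2 * g) = (4 / (m : ℝ) ^ 2) ^ (2 * g) * (m : ℝ) ^ (2 * g) *
              (6 * m * R) ^ (2 * g) := by
            rw [← mul_pow, ← mul_pow]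
            congr 1
            field_simp
            ring
          rw [e]
          field_simp
          ring
  have hpos : 0 < c.toReal * (vU g ^ 2 * Real.log 2) * (36 * R ^ 2) := by positivity
  obtain ⟨m, hm⟩ := exists_nat_gt ((24 * R) ^ (2 * g) * (4 * QU) /
    (c.toReal * (vU g ^ 2 * Real.log 2) * (36 * R ^ 2)))
  have hm1 : (m : ℝ) < (m + 1 : ℕ) := by exact_mod_cast Nat.lt_succ_self m
  have h4 := hconst (m + 1) (Nat.succ_pos m)
  rw [div_lt_iff₀ hpos] at hm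
  have h5 : ((m + 1 : ℕ) : ℝ) ≤ ((m + 1 : ℕ) : ℝ) ^ 2 := by
    have : (1 : ℝ) ≤ ((m + 1 : ℕ) : ℝ) := by
      push_cast
      linarith [Nat.cast_nonneg (α := ℝ) m]
    nlinarith
  have h6 : (m : ℝ) * (c.toReal * (vU g ^ 2 * Real.log 2) * (36 * R ^ 2)) ≤
      c.toReal * (vU g ^ 2 * Real.log 2) * (36 * R ^ 2) * ((m + 1 : ℕ) : ℝ) ^ 2 := by
    rw [mul_comm]
    exact mul_le_mul_of_nonneg_left (hm1.le.trans h5) hpos.le
  linarith

end Dat

end Run7.h92
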