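import Pool.Agent.Run7.h92.FU

/-!
# The zeros of the one-variable theta function
-/

namespace Run7.h92

open Complex Real Set Filter Topology

/-- even part -/
noncomputable def T0 (τ u : ℂ) : ℂ := jacobiTheta₂ (2 * u) (2 * τ)

/-- odd part -/
noncomputable def T1 (τ u : ℂ) : ℂ :=
  cexp (π * I * τ / 2 + 2 * π * I * u) * jacobiTheta₂ (2 * u + τ) (2 * τ)

theorem im_two {τ : ℂ} (hτ : 0 < τ.im) : 0 < (2 * τ).im := by
  simp [Complex.mul_im]
  linarith

theorem add_formula {τ : ℂ} (hτ : 0 < τ.im) (u v : ℂ) :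
    jacobiTheta₂ (u + v) τ * jacobiTheta₂ (u - v) τ = T0 τ u * T0 τ v + T1 τ u * T1 τ v := by
  have hs : ∀ z, Summable fun n : ℤ => ‖jacobiTheta₂_term n z τ‖ := fun z =>
    ((summable_jacobiTheta₂_term_iff z τ).2 hτ).norm
  have hs2 : ∀ z, Summable fun n : ℤ => ‖jacobiTheta₂_term n z (2 * τ)‖ := fun z =>
    ((summable_jacobiTheta₂_term_iff z (2 * τ)).2 (im_two hτ)).norm
  set f : ℤ × ℤ → ℂ := fun p => jacobiTheta₂_term p.1 (u + v) τ * jacobiTheta₂_term p.2 (u - v) τ
    with hf
  have hfs : Summable f := summable_mul_of_summable_norm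
    (f := fun n => jacobiTheta₂_term n (u + v) τ) (g := fun n => jacobiTheta₂_term n (u - v) τ)
    (hs _) (hs _)
  have h0 : jacobiTheta₂ (u + v) τ * jacobiTheta₂ (u - v) τ = ∑' p, f p := by
    unfold jacobiTheta₂
    exact tsum_mul_tsum_of_summable_norm (f := fun n => jacobiTheta₂_term n (u + v) τ)
      (g := fun n => jacobiTheta₂_term n (u - v) τ) (hs _) (hs _)
  set gE : ℤ × ℤ → ℤ × ℤ := fun p => (p.1 + p.2, p.1 - p.2) with hgE
  set gO : ℤ × ℤ → ℤ × ℤ := fun p => (p.1 + p.2 + 1, p.1 - p.2) with hgO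
  have iE : Function.Injective gE := by
    intro p q h
    simp only [hgE, Prod.mk.injEq] at h
    ext <;> omega
  have iO : Function.Injective gO := by
    intro p q h
    simp only [hgO, Prod.mk.injEq] at h
    ext <;> omega
  have hc : (range gE)ᶜ = range gO := by
    ext ⟨a, b⟩
    simp only [mem_compl_iff, mem_range, hgE, hgO, Prod.mk.injEq, Prod.exists]
    constructor
    · intro h
      push Not at h
      rcases Int.even_or_odd' (a + b) with ⟨k, hk | hk⟩
      · exact absurd (h k (a - k) (by omega)) (by omega)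
      · exact ⟨k, a - k - 1, by omega, by omega⟩
    · rintro ⟨k, l, h1, h2⟩ ⟨m, n, h3, h4⟩
      omega
  rw [h0, ← Summable.tsum_add_tsum_compl (s := range gE) (hfs.subtype _) (hfs.subtype _), hc,
    tsum_range f iE, tsum_range f iO]
  congr 1
  · unfold T0 jacobiTheta₂
    rw [tsum_mul_tsum_of_summable_norm (hs2 _) (hs2 _)]
    congr 1
    funext p
    simp only [hf, hgE, jacobiTheta₂_term]
    rw [← Complex.exp_add, ← Complex.exp_add]
    congr 1
    push_cast
    ring
  · unfold T1 jacobiTheta₂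
    have : ∀ a b c d : ℂ, a * b * (c * d) = a * c * (b * d) := fun a b c d => by ring
    rw [this, tsum_mul_tsum_of_summable_norm (hs2 _) (hs2 _), ← tsum_mul_left]
    congr 1
    funext p
    simp only [hf, hgO, jacobiTheta₂_term]
    rw [← Complex.exp_add, ← Complex.exp_add, ← Complex.exp_add, ← Complex.exp_add]
    congr 1
    push_cast
    ring

theorem jt_ne {τ : ℂ} (hτ : 0 < τ.im) : ∃ z, jacobiTheta₂ z τ ≠ 0 := by
  by_contra h
  push Not at h
  have hs : Summable fun n : ℤ => cexp (π * I * n ^ 2 * τ) := by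
    have := (summable_jacobiTheta₂_term_iff 0 τ).2 hτ
    have e : (fun n : ℤ => cexp (π * I * n ^ 2 * τ)) = fun n => jacobiTheta₂_term n 0 τ := by
      funext n
      unfold jacobiTheta₂_term
      congr 1
      ring
    rw [e]
    exact this
  have h1 := fu_one hs (by
    intro x
    rw [← h x]
    unfold jacobiTheta₂
    congr 1
    funext n
    unfold jacobiTheta₂_term
    rw [← Complex.exp_add]
    congr 1
    ring) 0
  exact Complex.exp_ne_zero _ h1

theorem jt_diff {τ : ℂ} (hτ : 0 < τ.im) : Differentiable ℂ fun z => jacobiTheta₂ z τ :=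
  fun z => differentiableAt_jacobiTheta₂_fst z hτ

/-- a product of entire functions vanishes only if a factor does -/
theorem entire_mul {F G : ℂ → ℂ} (hF : Differentiable ℂ F) (hG : Differentiable ℂ G)
    (h : ∀ z, F z * G z = 0) : (∀ z, F z = 0) ∨ ∀ z, G z = 0 := by
  have aF : AnalyticOnNhd ℂ F univ := hF.differentiableOn.analyticOnNhd isOpen_univ
  have aG : AnalyticOnNhd ℂ G univ := hG.differentiableOn.analyticOnNhd isOpen_univ
  rcases (aF 0 (mem_univ _)).eventually_eq_zero_or_eventually_ne_zero with h1 | h1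
  · left
    intro z
    exact aF.eqOn_zero_of_preconnected_of_eventuallyEq_zero isPreconnected_univ (mem_univ 0) h1
      (mem_univ z)
  · rcases (aG 0 (mem_univ _)).eventually_eq_zero_or_eventually_ne_zero with h2 | h2
    · right
      intro z
      exact aG.eqOn_zero_of_preconnected_of_eventuallyEq_zero isPreconnected_univ (mem_univ 0) h2
        (mem_univ z)
    · exfalso
      obtain ⟨z, hz1, hz2⟩ := (h1.and h2).exists
      rcases mul_eq_zero.1 (h z) with h3 | h3
      · exact hz1 h3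
      · exact hz2 h3

theorem no_common {τ : ℂ} (hτ : 0 < τ.im) (w : ℂ) : T0 τ w ≠ 0 ∨ T1 τ w ≠ 0 := by
  by_contra hcon
  push Not at hcon
  obtain ⟨z, hz⟩ := jt_ne hτ
  have h1 : ∀ v, jacobiTheta₂ (w + v) τ * jacobiTheta₂ (w - v) τ = 0 := by
    intro v
    rw [add_formula hτ, hcon.1, hcon.2]
    ring
  rcases entire_mul (F := fun v => jacobiTheta₂ (w + v) τ) (G := fun v => jacobiTheta₂ (w - v) τ)
    ((jt_diff hτ).comp (by fun_prop)) ((jt_diff hτ).comp (by fun_prop)) h1 with h2 | h2
  · exact hz (by simpa using h2 (z - w))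
  · exact hz (by simpa using h2 (w - z))

theorem T0_half (τ w : ℂ) : T0 τ (w + 1 / 2) = T0 τ w := by
  unfold T0
  rw [show 2 * (w + 1 / 2) = 2 * w + 1 by ring, jacobiTheta₂_add_left]

theorem T1_half (τ w : ℂ) : T1 τ (w + 1 / 2) = -T1 τ w := by
  unfold T1
  rw [show 2 * (w + 1 / 2) + τ = 2 * w + τ + 1 by ring, jacobiTheta₂_add_left,
    show π * I * τ / 2 + 2 * π * I * (w + 1 / 2) = (π * I * τ / 2 + 2 * π * I * w) + π * I by ring,
    Complex.exp_add, Complex.exp_pi_mul_I]
  ring

theorem T0_tau (τ w : ℂ) : T0 τ (w + τ / 2) = cexp (-(π * I * τ / 2 + 2 * π * I * w)) * T1 τ w := by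
  unfold T0 T1
  rw [← mul_assoc, ← Complex.exp_add, neg_add_cancel, Complex.exp_zero, one_mul]
  congr 1
  ring

theorem T1_tau (τ w : ℂ) : T1 τ (w + τ / 2) = cexp (-(π * I * τ / 2 + 2 * π * I * w)) * T0 τ w := by
  unfold T0 T1
  rw [show 2 * (w + τ / 2) + τ = 2 * w + 2 * τ by ring, jacobiTheta₂_add_left', ← mul_assoc,
    ← Complex.exp_add]
  congr 2
  ring

theorem T0_diff {τ : ℂ} (hτ : 0 < τ.im) : Differentiable ℂ (T0 τ) := by
  unfold T0
  exact (jt_diff (im_two hτ)).comp (by fun_prop)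

theorem T1_diff {τ : ℂ} (hτ : 0 < τ.im) : Differentiable ℂ (T1 τ) := by
  unfold T1
  exact (by fun_prop : Differentiable ℂ fun u : ℂ => cexp (π * I * τ / 2 + 2 * π * I * u)).mul
    ((jt_diff (im_two hτ)).comp (by fun_prop))

/-- cross relation -/
theorem cross {τ : ℂ} (hτ : 0 < τ.im) {x y : ℂ} (hx : jacobiTheta₂ x τ = 0)
    (hy : jacobiTheta₂ y τ = 0) (w : ℂ) :
    T0 τ (w + (x - y)) * T1 τ w = T1 τ (w + (x - y)) * T0 τ w := by
  set v := w - y with hv
  have h1 : T0 τ (x + v) * T0 τ v + T1 τ (x + v) * T1 τ v = 0 := by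
    rw [← add_formula hτ, show x + v - v = x by ring, hx, mul_zero]
  have h2 : T0 τ (y + v) * T0 τ v + T1 τ (y + v) * T1 τ v = 0 := by
    rw [← add_formula hτ, show y + v - v = y by ring, hy, mul_zero]
  have e1 : x + v = w + (x - y) := by rw [hv]; ring
  have e2 : y + v = w := by rw [hv]; ring
  rw [e1] at h1
  rw [e2] at h2
  rcases no_common hτ v with h3 | h3
  · apply mul_right_cancel₀ h3
    linear_combination T1 τ w * h1 - T1 τ (w + (x - y)) * h2
  · apply mul_right_cancel₀ h3
    linear_combination T0 τ (w + (x - y)) * h2 - T0 τ w * h1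

theorem jt_zeros {τ : ℂ} (hτ : 0 < τ.im) {x y : ℂ} (hx : jacobiTheta₂ x τ = 0)
    (hy : jacobiTheta₂ y τ = 0) : ∃ m n : ℤ, x - y = m + n * τ := by
  have hcr := cross hτ hx hy
  set s := x - y with hs
  classical
  set E : ℂ → ℂ := fun w => if T0 τ w ≠ 0 then T0 τ (w + s) / T0 τ w else T1 τ (w + s) / T1 τ w
    with hE
  have hE0 : ∀ w, E w * T0 τ w = T0 τ (w + s) := by
    intro w
    simp only [hE]
    by_cases h : T0 τ w ≠ 0
    · rw [if_pos h, div_mul_cancel₀ _ h]
    · rw [if_neg h]
      push Not at h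
      have h1 : T1 τ w ≠ 0 := (no_common hτ w).resolve_left (by rw [h]; simp)
      have h2 := hcr w
      rw [h, mul_zero] at h2
      rw [h, mul_zero]
      exact ((mul_eq_zero.1 h2).resolve_right h1).symm
  have hE1 : ∀ w, E w * T1 τ w = T1 τ (w + s) := by
    intro w
    simp only [hE]
    by_cases h : T0 τ w ≠ 0
    · rw [if_pos h, div_mul_eq_mul_div, hcr w, mul_div_assoc, div_self h, mul_one]
    · rw [if_neg h]
      push Not at h
      have h1 : T1 τ w ≠ 0 := (no_common hτ w).resolve_left (by rw [h]; simp)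
      rw [div_mul_cancel₀ _ h1]
  have huniq : ∀ w e, e * T0 τ w = T0 τ (w + s) → e * T1 τ w = T1 τ (w + s) → e = E w := by
    intro w e h0 h1
    rcases no_common hτ w with h | h
    · exact mul_right_cancel₀ h (h0.trans (hE0 w).symm)
    · exact mul_right_cancel₀ h (h1.trans (hE1 w).symm)
  have hEd : Differentiable ℂ E := by
    intro w
    rcases no_common hτ w with h | h
    · have h1 : ∀ᶠ z in 𝓝 w, E z = T0 τ (z + s) / T0 τ z := by
        filter_upwards [(T0_diff hτ).continuous.continuousAt.eventually_ne h] with z hz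
        rw [← hE0 z, mul_div_cancel_right₀ _ hz]
      refine DifferentiableAt.congr_of_eventuallyEq ?_ h1
      exact (((T0_diff hτ).comp (by fun_prop : Differentiable ℂ fun z : ℂ => z + s)) w).div
        (T0_diff hτ w) h
    · have h1 : ∀ᶠ z in 𝓝 w, E z = T1 τ (z + s) / T1 τ z := by
        filter_upwards [(T1_diff hτ).continuous.continuousAt.eventually_ne h] with z hz
        rw [← hE1 z, mul_div_cancel_right₀ _ hz]
      refine DifferentiableAt.congr_of_eventuallyEq ?_ h1
      exact (((T1_diff hτ).comp (by fun_prop : Differentiable ℂ fun z : ℂ => z + s)) w).div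
        (T1_diff hτ w) h
  have p1 : ∀ w, E (w + 1 / 2) = E w := by
    intro w
    refine huniq w _ ?_ ?_
    · have := hE0 (w + 1 / 2)
      rw [T0_half, show w + 1 / 2 + s = w + s + 1 / 2 by ring, T0_half] at this
      exact this
    · have := hE1 (w + 1 / 2)
      rw [T1_half, show w + 1 / 2 + s = w + s + 1 / 2 by ring, T1_half] at this
      linear_combination -this
  have p2 : ∀ w, E (w + τ / 2) * cexp (2 * π * I * s) = E w := by
    intro w
    have k : ∀ a b : ℂ, E (w + τ / 2) * (cexp (-(π * I * τ / 2 + 2 * π * I * w)) * a) =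
        cexp (-(π * I * τ / 2 + 2 * π * I * (w + s))) * b →
        E (w + τ / 2) * cexp (2 * π * I * s) * a = b := by
      intro a b h
      have e : cexp (-(π * I * τ / 2 + 2 * π * I * (w + s))) * cexp (2 * π * I * s) =
          cexp (-(π * I * τ / 2 + 2 * π * I * w)) := by
        rw [← Complex.exp_add]; congr 1; ring
      rw [← e] at h
      apply mul_left_cancel₀ (Complex.exp_ne_zero (-(π * I * τ / 2 + 2 * π * I * (w + s))))
      linear_combination h
    refine huniq w _ ?_ ?_
    · have := hE1 (w + τ / 2)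
      rw [T1_tau, show w + τ / 2 + s = w + s + τ / 2 by ring, T1_tau] at this
      exact k _ _ this
    · have := hE0 (w + τ / 2)
      rw [T0_tau, show w + τ / 2 + s = w + s + τ / 2 by ring, T0_tau] at this
      exact k _ _ this
  set β : ℝ := 2 * s.im / τ.im with hβ
  set G : ℂ → ℂ := fun w => E w * cexp (2 * π * I * β * w) with hG
  have hGd : Differentiable ℂ G := hEd.mul (by fun_prop)
  have q1 : ∀ w, ‖G (w + 1 / 2)‖ = ‖G w‖ := by
    intro w
    simp only [hG]
    rw [p1, norm_mul, norm_mul, show (2 * π * I * β * (w + 1 / 2) : ℂ) =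
      2 * π * I * β * w + ((π * β : ℝ) : ℂ) * I by push_cast; ring, Complex.exp_add, norm_mul,
      Complex.norm_exp_ofReal_mul_I, mul_one]
  have q2 : ∀ w, ‖G (w + τ / 2)‖ = ‖G w‖ := by
    intro w
    simp only [hG]
    rw [← p2 w, norm_mul, norm_mul (E (w + τ / 2) * _), norm_mul (E (w + τ / 2)),
      mul_assoc ‖E (w + τ / 2)‖, ← norm_mul (cexp _), ← Complex.exp_add]
    congr 1
    rw [Complex.norm_exp, Complex.norm_exp]
    congr 1
    have e1 : (2 * π * I * β * (w + τ / 2) : ℂ).re = -(2 * π * β * (w.im + τ.im / 2)) := by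
      rw [show (2 * π * I * β * (w + τ / 2) : ℂ) = ((2 * π * β : ℝ) : ℂ) * (I * (w + τ / 2)) by
        push_cast; ring, Complex.re_ofReal_mul]
      simp [Complex.mul_re, Complex.div_im]
      try ring
    have e2 : (2 * π * I * s + 2 * π * I * β * w : ℂ).re = -(2 * π * s.im) - 2 * π * β * w.im := by
      rw [show (2 * π * I * s + 2 * π * I * β * w : ℂ) = ((2 * π : ℝ) : ℂ) * (I * s) +
        ((2 * π * β : ℝ) : ℂ) * (I * w) by push_cast; ring, Complex.add_re, Complex.re_ofReal_mul,
        Complex.re_ofReal_mul]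
      simp [Complex.mul_re]
      try ring
    rw [e1, e2, hβ]
    field_simp
    ring
  have hbd : ∃ M, ∀ w, ‖G w‖ ≤ M := by
    have hn1 : ∀ (w : ℂ) (m : ℤ), ‖G (w + m / 2)‖ = ‖G w‖ := by
      intro w m
      induction m using Int.induction_on with
      | zero => simp
      | succ i ih =>
        rw [← ih, ← q1 (w + ((i : ℤ) : ℂ) / 2)]
        congr 2
        push_cast
        ring
      | pred i ih =>
        rw [← ih, ← q1 (w + ((-(i : ℤ) - 1 : ℤ) : ℂ) / 2)]
        congr 2
        push_cast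
        ring
    have hn2 : ∀ (w : ℂ) (m : ℤ), ‖G (w + m * (τ / 2))‖ = ‖G w‖ := by
      intro w m
      induction m using Int.induction_on with
      | zero => simp
      | succ i ih =>
        rw [← ih, ← q2 (w + ((i : ℤ) : ℂ) * (τ / 2))]
        congr 2
        push_cast
        ring
      | pred i ih =>
        rw [← ih, ← q2 (w + ((-(i : ℤ) - 1 : ℤ) : ℂ) * (τ / 2))]
        congr 2
        push_cast
        ring
    have hK : IsCompact ((fun p : ℝ × ℝ => (p.1 : ℂ) / 2 + p.2 * (τ / 2)) '' (Icc 0 1 ×ˢ Icc 0 1)) :=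
      (isCompact_Icc.prod isCompact_Icc).image (by fun_prop)
    obtain ⟨M, hM⟩ := hK.exists_bound_of_continuousOn hGd.continuous.continuousOn
    refine ⟨M, fun w => ?_⟩
    set b : ℝ := 2 * w.im / τ.im with hb
    set a : ℝ := 2 * w.re - b * τ.re with ha
    have hw : w = (a : ℂ) / 2 + b * (τ / 2) := by
      apply Complex.ext
      · simp [Complex.div_re, Complex.mul_re, Complex.div_im, ha]
        ring
      · simp [Complex.mul_im, Complex.div_re, Complex.div_im, hb]
        field_simp
    have h1 := hM ((Int.fract a : ℝ) / 2 + (Int.fract b : ℝ) * (τ / 2))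
      ⟨(Int.fract a, Int.fract b), ⟨⟨Int.fract_nonneg _, (Int.fract_lt_one _).le⟩,
        ⟨Int.fract_nonneg _, (Int.fract_lt_one _).le⟩⟩, rfl⟩
    rw [← hn1 _ ⌊a⌋, ← hn2 _ ⌊b⌋] at h1
    convert h1 using 3
    rw [hw]
    have ea : (a : ℂ) = (Int.fract a : ℝ) + (⌊a⌋ : ℤ) := by
      have := Int.fract_add_floor a
      exact_mod_cast this.symm
    have eb : (b : ℂ) = (Int.fract b : ℝ) + (⌊b⌋ : ℤ) := by
      have := Int.fract_add_floor b
      exact_mod_cast this.symm
    rw [ea, eb]
    ring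
  obtain ⟨M, hM⟩ := hbd
  have hconst : ∀ w, G w = G 0 := fun w =>
    hGd.apply_eq_apply_of_bounded (isBounded_iff_forall_norm_le.2
      ⟨M, by rintro _ ⟨z, rfl⟩; exact hM z⟩) w 0
  have hEw : ∀ w, E w = G 0 * cexp (-(2 * π * I * β * w)) := by
    intro w
    rw [← hconst w]
    simp only [hG]
    rw [mul_assoc, ← Complex.exp_add, add_neg_cancel, Complex.exp_zero, mul_one]
  have hG0 : G 0 ≠ 0 := by
    intro h
    have h1 : ∀ w, E w = 0 := fun w => by rw [hEw, h, zero_mul]
    rcases no_common hτ (0 + s) with h2 | h2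
    · exact h2 (by rw [← hE0, h1, zero_mul])
    · exact h2 (by rw [← hE1, h1, zero_mul])
  have r1 := p1 0
  rw [hEw, hEw] at r1
  have r1' := mul_left_cancel₀ hG0 r1
  rw [Complex.exp_eq_exp_iff_exists_int] at r1'
  obtain ⟨k, hk⟩ := r1'
  have hpi : (π : ℂ) * I ≠ 0 := mul_ne_zero (by exact_mod_cast Real.pi_ne_zero) I_ne_zero
  have hβk : (β : ℂ) = -2 * k := by
    apply mul_left_cancel₀ hpi
    linear_combination -hk
  have r2 := p2 0
  rw [hEw, hEw, mul_assoc, ← Complex.exp_add] at r2
  have r2' := mul_left_cancel₀ hG0 r2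
  rw [Complex.exp_eq_exp_iff_exists_int] at r2'
  obtain ⟨l, hl⟩ := r2'
  refine ⟨l, -k, ?_⟩
  apply mul_left_cancel₀ hpi
  push_cast
  linear_combination hl / 2 + π * I * τ / 2 * hβk

end Run7.h92
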