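import Pool.Agent.Run7.h92.Good
import Pool.Agent.Run7.h92.OneD

/-!
# Products with an elliptic curve
-/

namespace Run7.h92

open Matrix Complex

variable {g : ℕ}

/-- one-dimensional theta function with real characteristics -/
noncomputable def t1 (s : ℂ) (ε δ : ℝ) : ℂ :=
  ∑' n : ℤ, cexp (Real.pi * I * ((n : ℂ) + ε) ^ 2 * s + 2 * Real.pi * I * ((n : ℂ) + ε) * δ)

theorem t1_eq (s : ℂ) (ε δ : ℝ) : t1 s ε δ =
    cexp (Real.pi * I * ε ^ 2 * s + 2 * Real.pi * I * ε * δ) * jacobiTheta₂ (δ + ε * s) s := by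
  unfold t1 jacobiTheta₂ jacobiTheta₂_term
  rw [← tsum_mul_left]
  congr 1
  funext n
  rw [← Complex.exp_add]
  congr 1
  ring

/-- the lower right block -/
def tl (τ : MM (g + 1)) : MM g := fun i j => τ i.succ j.succ

theorem tl_HH {τ : MM (g + 1)} (hτ : τ ∈ HH (g + 1)) : tl τ ∈ HH g := by
  obtain ⟨hs, c, hc, hLB⟩ := hτ
  refine ⟨fun i j => hs _ _, c, hc, fun x => ?_⟩
  have := hLB (Fin.cons 0 x)
  simpa [Fin.sum_univ_succ, tl] using this

theorem th_prod {τ : MM (g + 1)} (hτ : τ ∈ HH (g + 1)) (h0 : ∀ j : Fin g, τ 0 j.succ = 0)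
    (ε δ : Fin (g + 1) → ℝ) :
    th τ ε δ = t1 (τ 0 0) (ε 0) (δ 0) * th (tl τ) (fun i => ε i.succ) (fun i => δ i.succ) := by
  obtain ⟨hs, c, hc, hLB⟩ := hτ
  set e : ℤ × (Fin g → ℤ) ≃ (Fin (g + 1) → ℤ) := Fin.consEquiv (fun _ => ℤ) with he
  have he' : ∀ p, e p = (Fin.cons p.1 p.2 : Fin (g + 1) → ℤ) := fun p => rfl
  unfold th thc
  have s1 := summable_thc hc hLB ε (fun i => (δ i : ℂ))
  have k1 := (e.summable_iff.2 s1).tsum_prod
  simp only [Function.comp_apply] at k1
  rw [← e.tsum_eq, k1]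
  simp only [he']
  simp only [ex_cons hs, h0]
  unfold t1
  rw [← tsum_mul_right]
  congr 1
  funext a
  rw [← tsum_mul_left]
  congr 1
  funext n
  rw [← Complex.exp_add]
  congr 1
  unfold ex tl
  simp only [zero_mul, Finset.sum_const_zero, mul_zero, add_zero]
  ring

/-- the splitting of characteristics -/
def spl (N g : ℕ) : CN N (g + 1) ≃ CN N 1 × CN N g where
  toFun x := ((fun _ => x.1 0, fun _ => x.2 0), (fun i => x.1 i.succ, fun i => x.2 i.succ))
  invFun y := (Fin.cons (y.1.1 0) y.2.1, Fin.cons (y.1.2 0) y.2.2)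
  left_inv x := by
    refine Prod.ext ?_ ?_
    · exact Fin.cons_self_tail x.1
    · exact Fin.cons_self_tail x.2
  right_inv y := by
    refine Prod.ext (Prod.ext ?_ ?_) (Prod.ext ?_ ?_)
    · funext i
      rw [Subsingleton.elim i 0]
      rfl
    · funext i
      rw [Subsingleton.elim i 0]
      rfl
    · rfl
    · rfl

theorem dp_spl {N : ℕ} (u x : CN N (g + 1)) :
    dp u x = dp (spl N g u).1 (spl N g x).1 + dp (spl N g u).2 (spl N g x).2 := by
  unfold dp spl
  simp only [Equiv.coe_fn_mk, dotProduct, Fin.sum_univ_succ, Fin.sum_univ_zero]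
  ring

theorem norm_le_sum {N : ℕ} [NeZero N] (w : CN N g → ℕ) (u : CN N g) :
    ‖∑ x, (w x : ℂ) * ps (dp u x)‖ ≤ ∑ x, (w x : ℝ) := by
  refine (norm_sum_le _ _).trans (le_of_eq (Finset.sum_congr rfl fun x _ => ?_))
  rw [norm_mul, norm_ps, mul_one, Complex.norm_natCast]

theorem GoodN_prod {N : ℕ} [NeZero N] (hN : 2 ≤ N) {τ : MM (g + 1)} (hτ : τ ∈ HH (g + 1))
    (h0 : ∀ j : Fin g, τ 0 j.succ = 0) (h : GoodN N (tl τ)) : GoodN N τ := by
  classical
  obtain ⟨w', ⟨z0, hz0⟩, hw1, hw2⟩ := h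
  have him : 0 < (τ 0 0).im := by
    obtain ⟨hs, c, hc, hLB⟩ := hτ
    exact hc.trans_le (LB_00 hLB)
  have hN0 : (N : ℝ) ≠ 0 := Nat.cast_ne_zero.2 (NeZero.ne N)
  have hNp : (0 : ℝ) < N := Nat.cast_pos.2 (NeZero.pos N)
  set P : CN N 1 → Prop := fun y =>
    t1 (τ 0 0) (((y.1 0).val : ℝ) / N) (((y.2 0).val : ℝ) / N) ≠ 0 with hP
  have hcard : (Finset.univ.filter fun y => ¬ P y).card ≤ 1 := by
    rw [Finset.card_le_one]
    intro y hy z hz
    simp only [Finset.mem_filter, Finset.mem_univ, true_and, hP, not_not] at hy hz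
    rw [t1_eq] at hy hz
    have hy' := (mul_eq_zero.1 hy).resolve_left (Complex.exp_ne_zero _)
    have hz' := (mul_eq_zero.1 hz).resolve_left (Complex.exp_ne_zero _)
    obtain ⟨m, k, hmk⟩ := jt_zeros him hy' hz'
    have hlt : ∀ a b : ZMod N, ∀ k : ℤ, ((a.val : ℝ) / N - (b.val : ℝ) / N) = k → a = b := by
      intro a b k hk
      have ha : (a.val : ℝ) < N := by exact_mod_cast a.val_lt
      have hb : (b.val : ℝ) < N := by exact_mod_cast b.val_lt
      have ha0 : (0 : ℝ) ≤ a.val := Nat.cast_nonneg _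
      have hb0 : (0 : ℝ) ≤ b.val := Nat.cast_nonneg _
      rw [← sub_div, div_eq_iff hN0] at hk
      have h1 : (k : ℝ) * N < 1 * N := by linarith
      have h2 : (-1 : ℝ) * N < k * N := by linarith
      have h3 : (k : ℝ) < 1 := lt_of_mul_lt_mul_right h1 hNp.le
      have h4 : (-1 : ℝ) < k := lt_of_mul_lt_mul_right h2 hNp.le
      have h5 : k = 0 := by
        have h6 : k < 1 := by exact_mod_cast h3
        have h7 : -1 < k := by exact_mod_cast h4
        omega
      rw [h5] at hk
      have h8 : (a.val : ℝ) = b.val := by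
        simp only [Int.cast_zero, zero_mul] at hk
        linarith
      exact ZMod.val_injective N (by exact_mod_cast h8)
    have e1 := congrArg Complex.im hmk
    simp only [Complex.sub_im, Complex.add_im, Complex.ofReal_im, Complex.mul_im, Complex.ofReal_re,
      Complex.intCast_im, Complex.intCast_re, zero_mul, add_zero, zero_add] at e1
    have e2 : ((y.1 0).val : ℝ) / N - ((z.1 0).val : ℝ) / N = k := by
      apply mul_right_cancel₀ him.ne'
      linarith
    have e3 := congrArg Complex.re hmk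
    simp only [Complex.sub_re, Complex.add_re, Complex.ofReal_im, Complex.mul_re, Complex.ofReal_re,
      Complex.intCast_im, Complex.intCast_re, zero_mul, sub_zero] at e3
    have e4 : ((y.2 0).val : ℝ) / N - ((z.2 0).val : ℝ) / N = m := by
      linear_combination e3 - (τ 0 0).re * e2
    have f1 := hlt _ _ _ e2
    have f2 := hlt _ _ _ e4
    refine Prod.ext ?_ ?_
    · funext i
      rw [Subsingleton.elim i 0]
      exact f1
    · funext i
      rw [Subsingleton.elim i 0]
      exact f2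
  have hfew : (Finset.univ.filter fun y => ¬ P y).card * N ^ 2 ≤ N ^ (2 * 1) := by
    rw [mul_one]
    nlinarith [Nat.zero_le (N ^ 2)]
  obtain ⟨y0, hy0⟩ := exists_of_few hN P hfew
  have hQ1 := QQ_of_few P hfew
  set w1 : CN N 1 → ℕ := fun y => if P y then 1 else 0 with hw1'
  refine ⟨fun x => w1 (spl N g x).1 * w' (spl N g x).2, ?_, ?_, ?_⟩
  · refine ⟨(spl N g).symm (y0, z0), ?_⟩
    show w1 (spl N g ((spl N g).symm (y0, z0))).1 * w' (spl N g ((spl N g).symm (y0, z0))).2 ≠ 0
    rw [Equiv.apply_symm_apply]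
    have : w1 y0 = 1 := if_pos hy0
    rw [this, one_mul]
    exact hz0
  · intro x hx
    have hx1 := left_ne_zero_of_mul hx
    have hx2 := right_ne_zero_of_mul hx
    have hPx : P (spl N g x).1 := by
      rcases Classical.em (P (spl N g x).1) with h5 | h5
      · exact h5
      · have : w1 (spl N g x).1 = 0 := if_neg h5
        exact absurd this hx1
    have h3 := hw1 _ hx2
    unfold FF Fz at h3 ⊢
    have h4 := ne_zero_of_map (f := powMonoidWithZeroHom (M₀ := ℂ) (n := 24 * N ^ 2) (by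
      have := NeZero.ne N
      positivity)) h3
    apply pow_ne_zero
    rw [th_prod hτ h0]
    refine mul_ne_zero ?_ ?_
    · exact hPx
    · exact h4
  · intro u hu
    have e1 : ∑ x : CN N (g + 1), ((w1 (spl N g x).1 * w' (spl N g x).2 : ℕ) : ℂ) * ps (dp u x) =
        (∑ y, (w1 y : ℂ) * ps (dp (spl N g u).1 y)) *
          ∑ z, (w' z : ℂ) * ps (dp (spl N g u).2 z) := by
      rw [Finset.sum_mul_sum, ← Fintype.sum_prod_type', ← (spl N g).sum_comp]
      refine Finset.sum_congr rfl fun x _ => ?_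
      rw [dp_spl, ps_add]
      push_cast
      ring
    have e2 : ∑ x : CN N (g + 1), ((w1 (spl N g x).1 * w' (spl N g x).2 : ℕ) : ℝ) =
        (∑ y, (w1 y : ℝ)) * ∑ z, (w' z : ℝ) := by
      rw [Finset.sum_mul_sum, ← Fintype.sum_prod_type', ← (spl N g).sum_comp]
      refine Finset.sum_congr rfl fun x _ => ?_
      push_cast
      ring
    rw [e1, e2, norm_mul]
    have hN1 : (1 : ℝ) ≤ N := by exact_mod_cast NeZero.one_le
    have hNN : 0 ≤ (N : ℝ) ^ 2 - 1 := by nlinarith
    have b1 := norm_le_sum w1 (spl N g u).1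
    have b2 := norm_le_sum w' (spl N g u).2
    have hS1 : 0 ≤ ∑ y, (w1 y : ℝ) := Finset.sum_nonneg fun _ _ => Nat.cast_nonneg _
    by_cases hu1 : (spl N g u).1 = 0
    · have hu2 : (spl N g u).2 ≠ 0 := by
        intro hu2
        apply hu
        have : spl N g u = spl N g 0 := Prod.ext hu1 hu2
        exact (spl N g).injective this
      have b3 := hw2 _ hu2
      rw [mul_assoc]
      exact mul_le_mul b1 b3 (by positivity) hS1
    · have b3 := hQ1 _ hu1
      rw [mul_right_comm]
      exact mul_le_mul b3 b2 (by positivity) hS1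

/-- the zero-dimensional case -/
theorem GoodN_zero {N : ℕ} [NeZero N] (τ : MM 0) : GoodN N τ := by
  refine ⟨fun _ => 1, ⟨0, one_ne_zero⟩, ?_, ?_⟩
  · intro x _
    unfold FF Fz
    apply pow_ne_zero
    unfold th thc
    rw [tsum_eq_single 0 (fun m hm => absurd (Subsingleton.elim m 0) hm)]
    exact Complex.exp_ne_zero _
  · intro u hu
    exact absurd (Subsingleton.elim u 0) hu

end Run7.h92
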