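import Pool.Agent.Run7.h92.FlatT
import Pool.Agent.Run7.h92.Prd

/-!
# Decomposition in the flat case
-/

namespace Run7.h92

open Matrix Complex Filter Topology

variable {g : ℕ}

/-- flatness in a real direction -/
theorem real_flat {τ : MM (g + 1)} (hτ : τ ∈ HH (g + 1)) {d : ℤ} (hd : d ≠ 0)
    (h : FlatV τ (d • (Pi.single (Sum.inl 0) 1 : Fin (g + 1) ⊕ Fin (g + 1) → ℤ))) :
    ∃ (a : Fin (g + 1) → ℝ) (c : ℂ), a ≠ 0 ∧ ∀ z : Fin (g + 1) → ℂ,
      ∑ i, (a i : ℂ) * z i = c → thc τ 0 z = 0 := by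
  obtain ⟨Q, c, h1, h2, h3⟩ := h
  have hQ : Q = fun i => ((Q i).re : ℂ) := by
    funext i
    have := h1 i
    simp at this
    exact Complex.ext rfl (by simpa using this)
  refine ⟨fun i => (Q i).re, c, ?_, ?_⟩
  · intro h0
    have h4 : Q = 0 := by
      rw [hQ]
      funext i
      have := congrFun h0 i
      simp only [Pi.zero_apply] at this
      simp [this]
    have h5 := h2 0
    rw [h4, mulVec_zero] at h5
    simp at h5
    exact hd (by exact_mod_cast h5.symm)
  · intro z hz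
    obtain ⟨x, rfl⟩ := (AA hτ).surjective z
    rw [← th_zero_iff hτ]
    apply h3
    rw [← hz]
    have hsym : (Matrix.of τ)ᵀ = Matrix.of τ := by
      ext i j
      exact (hτ.1 i j).symm
    have h6 : (AA hτ x) = (fun i => (x (Sum.inr i) : ℂ)) +
        Matrix.of τ *ᵥ (fun i => (x (Sum.inl i) : ℂ)) := by
      funext i
      rw [AA_apply]
      rfl
    have h7 : ∑ i, (((Q i).re : ℝ) : ℂ) * AA hτ x i = Q ⬝ᵥ AA hτ x := by
      conv_rhs => rw [hQ]
      rfl
    rw [h7, h6, dotProduct_add, dotProduct_mulVec, ← mulVec_transpose, hsym, add_comm]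

theorem thc_zero_shift (τ : MM g) (z : Fin g → ℂ) (m : Fin g → ℤ) :
    thc τ 0 (fun i => z i + m i) = thc τ 0 z := by
  rw [thc_shift_z]
  simp

/-- a flat real direction is rational -/
theorem rational_flat {τ : MM (g + 1)} (hτ : τ ∈ HH (g + 1)) {a : Fin (g + 1) → ℝ} {c : ℂ}
    (ha : a ≠ 0) (h : ∀ z : Fin (g + 1) → ℂ, ∑ i, (a i : ℂ) * z i = c → thc τ 0 z = 0) :
    ∃ (M : Fin (g + 1) → ℤ) (c : ℂ), M ≠ 0 ∧ ∀ z : Fin (g + 1) → ℂ,
      ∑ i, (M i : ℂ) * z i = c → thc τ 0 z = 0 := by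
  set φ : (Fin (g + 1) → ℤ) →+ ℝ :=
    { toFun := fun m => ∑ i, a i * m i
      map_zero' := by simp
      map_add' := fun x y => by
        simp only [Pi.add_apply]
        push_cast
        simp only [mul_add, Finset.sum_add_distrib] } with hφ
  have hφa : ∀ m, φ m = ∑ i, a i * m i := fun m => rfl
  have hH : ∀ (m : Fin (g + 1) → ℤ) (z : Fin (g + 1) → ℂ),
      ∑ i, (a i : ℂ) * z i = c + (φ m : ℂ) → thc τ 0 z = 0 := by
    intro m z hz
    have h1 := h (fun i => z i + ((-m i : ℤ) : ℂ)) (by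
      rw [hφa] at hz
      push_cast at hz ⊢
      simp only [mul_add, Finset.sum_add_distrib, mul_neg, Finset.sum_neg_distrib]
      linear_combination hz)
    rw [thc_zero_shift τ z (fun i => -m i)] at h1
    exact h1
  have hfd : Differentiable ℂ (fun z => thc τ 0 z) := by
    obtain ⟨hs, c', hc', hLB⟩ := hτ
    exact thc_diff_z hc' hLB 0
  -- a vector with pairing one
  obtain ⟨e, he⟩ : ∃ e : Fin (g + 1) → ℂ, ∑ i, (a i : ℂ) * e i = 1 := by
    obtain ⟨i, hi⟩ : ∃ i, a i ≠ 0 := by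
      by_contra hcon
      push Not at hcon
      exact ha (funext hcon)
    refine ⟨Pi.single i ((a i : ℂ)⁻¹), ?_⟩
    rw [Finset.sum_eq_single i]
    · rw [Pi.single_eq_same]
      exact mul_inv_cancel₀ (by exact_mod_cast hi)
    · intro j _ hj
      rw [Pi.single_eq_of_ne hj, mul_zero]
    · intro h; exact absurd (Finset.mem_univ _) h
  have hpair : ∀ (z : Fin (g + 1) → ℂ) (s : ℂ),
      ∑ i, (a i : ℂ) * (z + s • e) i = ∑ i, (a i : ℂ) * z i + s := by
    intro z s
    simp only [Pi.add_apply, Pi.smul_apply, smul_eq_mul, mul_add, Finset.sum_add_distrib]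
    congr 1
    calc ∑ i, (a i : ℂ) * (s * e i) = s * ∑ i, (a i : ℂ) * e i := by
          rw [Finset.mul_sum]
          exact Finset.sum_congr rfl fun i _ => by ring
      _ = s := by rw [he, mul_one]
  rcases AddSubgroup.dense_or_cyclic φ.range with hdense | ⟨β, hβ⟩
  · exfalso
    have hreal : ∀ (z : Fin (g + 1) → ℂ) (t : ℝ), ∑ i, (a i : ℂ) * z i = c + (t : ℂ) →
        thc τ 0 z = 0 := by
      intro z t hz
      have hcont : Continuous fun s : ℝ => thc τ 0 (z + ((s - t : ℝ) : ℂ) • e) :=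
        hfd.continuous.comp (by fun_prop)
      have heq : (fun s : ℝ => thc τ 0 (z + ((s - t : ℝ) : ℂ) • e)) = fun _ => 0 := by
        refine Continuous.ext_on hdense hcont continuous_const ?_
        intro s hs
        obtain ⟨m, hm⟩ := hs
        apply hH m
        rw [hpair, hz, hm]
        push_cast
        ring
      have := congrFun heq t
      simpa using this
    obtain ⟨z, hz⟩ := thc_ne hτ
    apply hz
    set G : ℂ → ℂ := fun s => thc τ 0 (z + s • e) with hG
    have hGd : Differentiable ℂ G := hfd.comp (by fun_prop)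
    have aG : AnalyticOnNhd ℂ G Set.univ := hGd.differentiableOn.analyticOnNhd isOpen_univ
    set s0 : ℂ := c - ∑ i, (a i : ℂ) * z i with hs0
    have hfreq : ∃ᶠ s in 𝓝[≠] s0, G s = 0 := by
      have ht : Tendsto (fun n : ℕ => s0 + (((1 : ℝ) / ((n : ℝ) + 1) : ℝ) : ℂ)) atTop (𝓝[≠] s0) := by
        refine tendsto_nhdsWithin_iff.2 ⟨?_, Eventually.of_forall fun n => ?_⟩
        · have h1 : Tendsto (fun n : ℕ => (((1 : ℝ) / ((n : ℝ) + 1) : ℝ) : ℂ)) atTop (𝓝 ((0 : ℝ) : ℂ)) :=
            (Complex.continuous_ofReal.tendsto _).comp tendsto_one_div_add_atTop_nhds_zero_nat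
          have h2 := h1.const_add s0
          simpa using h2
        · simp only [Set.mem_compl_iff, Set.mem_singleton_iff]
          intro h
          have h3 : (((1 : ℝ) / ((n : ℝ) + 1) : ℝ) : ℂ) = 0 := by
            linear_combination h
          have h4 : (1 : ℝ) / ((n : ℝ) + 1) = 0 := by exact_mod_cast h3
          have h5 : 0 < (1 : ℝ) / ((n : ℝ) + 1) := by positivity
          exact h5.ne' h4
      refine ht.frequently ?_
      refine Frequently.of_forall fun n => ?_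
      simp only [hG]
      apply hreal _ ((1 : ℝ) / ((n : ℝ) + 1))
      rw [hpair, hs0]
      ring
    have := aG.eqOn_zero_of_preconnected_of_frequently_eq_zero isPreconnected_univ
      (Set.mem_univ s0) hfreq (Set.mem_univ 0)
    simpa [hG] using this
  · have hmem : ∀ i, ∃ k : ℤ, (k : ℝ) * β = a i := by
      intro i
      have h1 : a i ∈ φ.range := by
        refine ⟨Pi.single i 1, ?_⟩
        rw [hφa, Finset.sum_eq_single i]
        · simp
        · intro j _ hj
          simp [hj]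
        · intro h; exact absurd (Finset.mem_univ _) h
      rw [hβ, AddSubgroup.mem_closure_singleton] at h1
      obtain ⟨k, hk⟩ := h1
      exact ⟨k, by rw [← hk]; simp⟩
    choose M hM using hmem
    have hβ0 : β ≠ 0 := by
      intro h0
      apply ha
      funext i
      rw [← hM i, h0, mul_zero]
      rfl
    refine ⟨M, c / β, ?_, ?_⟩
    · intro h0
      apply ha
      funext i
      rw [← hM i, h0]
      simp
    · intro z hz
      apply h
      have hβc : (β : ℂ) ≠ 0 := by exact_mod_cast hβ0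
      have : ∑ i, (a i : ℂ) * z i = β * ∑ i, (M i : ℂ) * z i := by
        rw [Finset.mul_sum]
        refine Finset.sum_congr rfl fun i _ => ?_
        rw [← hM i]
        push_cast
        ring
      rw [this, hz]
      field_simp

/-- moving the direction to the first coordinate -/
theorem coord_flat {τ : MM (g + 1)} {M : Fin (g + 1) → ℤ} {c : ℂ}
    (hM : M ≠ 0) (h : ∀ z : Fin (g + 1) → ℂ, ∑ i, (M i : ℂ) * z i = c → thc τ 0 z = 0) :
    ∃ N ∈ GG (g + 1), ∃ c : ℂ, ∀ z : Fin (g + 1) → ℂ, z 0 = c → thc (act N τ) 0 z = 0 := by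
  obtain ⟨U, V, h1, h2, d, hd, h3⟩ := exists_gl _ M le_rfl hM
  have h1' : Vᵀ * Uᵀ = 1 := by rw [← transpose_mul, h1, transpose_one]
  have h2' : Uᵀ * Vᵀ = 1 := by rw [← transpose_mul, h2, transpose_one]
  refine ⟨RU Vᵀ Uᵀ, RU_mem h1' h2', c / d, ?_⟩
  intro z hz
  rw [act_RU h1', thc_R τ h1' h2', mulVec_zero]
  apply h
  have hdc : (d : ℂ) ≠ 0 := by exact_mod_cast hd
  have e1 : ∑ i, (M i : ℂ) * ((Uᵀ.map (Int.cast : ℤ → ℂ)) *ᵥ z) i =
      ∑ j, (((U *ᵥ M) j : ℤ) : ℂ) * z j := by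
    simp only [mulVec, dotProduct, map_apply, transpose_apply, Finset.mul_sum]
    rw [Finset.sum_comm]
    refine Finset.sum_congr rfl fun j _ => ?_
    push_cast
    rw [Finset.sum_mul]
    exact Finset.sum_congr rfl fun i _ => by ring
  rw [e1, h3, Finset.sum_eq_single 0]
  · rw [hz]
    simp only [Pi.smul_apply, Pi.single_eq_same, smul_eq_mul, mul_one]
    field_simp
  · intro j _ hj
    simp [hj]
  · intro h; exact absurd (Finset.mem_univ _) h

/-- vanishing on a coordinate hyperplane: periods -/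
theorem periods {τ : MM (g + 1)} (hτ : τ ∈ HH (g + 1)) {c : ℂ}
    (h : ∀ z : Fin (g + 1) → ℂ, z 0 = c → thc τ 0 z = 0) (j : Fin g) :
    ∃ m k : ℤ, τ 0 j.succ = m + k * τ 0 0 := by
  obtain ⟨hs, c', hc', hLB⟩ := hτ
  have him : 0 < (τ 0 0).im := hc'.trans_le (LB_00 hLB)
  set T : (Fin g → ℤ) → ℂ := fun n => ∑ i : Fin g, τ 0 i.succ * (n i : ℂ) with hT
  set R : (Fin g → ℤ) → ℂ := fun n => ∑ i : Fin g, ∑ k : Fin g, (n i : ℂ) * τ i.succ k.succ * (n k : ℂ)
    with hR
  set e : (Fin g → ℤ) × ℤ ≃ (Fin (g + 1) → ℤ) :=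
    (Equiv.prodComm _ _).trans (Fin.consEquiv (fun _ => ℤ)) with he
  have he' : ∀ p, e p = (Fin.cons p.2 p.1 : Fin (g + 1) → ℤ) := fun p => rfl
  have hterm : ∀ (x : Fin g → ℝ) (n : Fin g → ℤ) (a : ℤ),
      cexp (ex τ 0 (Fin.cons c (fun i => (x i : ℂ)) : Fin (g + 1) → ℂ) (e (n, a))) =
      jacobiTheta₂_term a (c + T n) (τ 0 0) * (cexp (Real.pi * I * R n) *
        cexp (2 * Real.pi * I * ∑ i, (n i : ℂ) * x i)) := by
    intro x n a
    rw [he', ex_cons hs]
    unfold jacobiTheta₂_term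
    rw [← Complex.exp_add, ← Complex.exp_add]
    congr 1
    simp only [Fin.cons_zero, Fin.cons_succ, Pi.zero_apply, Complex.ofReal_zero, add_zero, hT, hR]
    ring
  have hinner : ∀ (x : Fin g → ℝ) (n : Fin g → ℤ),
      ∑' a : ℤ, cexp (ex τ 0 (Fin.cons c (fun i => (x i : ℂ)) : Fin (g + 1) → ℂ) (e (n, a))) =
      (jacobiTheta₂ (c + T n) (τ 0 0) * cexp (Real.pi * I * R n)) *
        cexp (2 * Real.pi * I * ∑ i, (n i : ℂ) * x i) := by
    intro x n
    simp_rw [hterm]
    rw [tsum_mul_right]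
    unfold jacobiTheta₂
    ring
  have hsum : ∀ x : Fin g → ℝ, Summable fun p : (Fin g → ℤ) × ℤ =>
      cexp (ex τ 0 (Fin.cons c (fun i => (x i : ℂ)) : Fin (g + 1) → ℂ) (e p)) := fun x =>
    e.summable_iff.2 (summable_thc hc' hLB 0 _)
  have hzero := fu (c := fun n => jacobiTheta₂ (c + T n) (τ 0 0) * cexp (Real.pi * I * R n)) (by
    have h1 := (hsum 0).prod
    refine h1.congr fun n => ?_
    rw [hinner]
    simp) (by
    intro x
    have h1 := h (Fin.cons c (fun i => (x i : ℂ))) rfl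
    unfold thc at h1
    rw [← e.tsum_eq, (hsum x).tsum_prod] at h1
    rw [← h1]
    congr 1
    funext n
    rw [hinner])
  have hz : ∀ n, jacobiTheta₂ (c + T n) (τ 0 0) = 0 := fun n =>
    (mul_eq_zero.1 (hzero n)).resolve_right (Complex.exp_ne_zero _)
  obtain ⟨m, k, hmk⟩ := jt_zeros him (hz (Pi.single j 1)) (hz 0)
  refine ⟨m, k, ?_⟩
  rw [← hmk]
  simp only [hT]
  rw [Finset.sum_eq_single j]
  · simp
  · intro i _ hi
    simp [hi]
  · intro h; exact absurd (Finset.mem_univ _) h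

/-- clearing integral periods -/
theorem clear_periods {τ : MM (g + 1)}
    (h : ∀ j : Fin g, ∃ m k : ℤ, τ 0 j.succ = m + k * τ 0 0) :
    ∃ N ∈ GG (g + 1), ∀ j : Fin g, act N τ 0 j.succ = 0 := by
  choose m k hmk using h
  set U : (Fin g → ℤ) → Matrix (Fin (g + 1)) (Fin (g + 1)) ℤ := fun k =>
    Matrix.of (Fin.cons (Fin.cons 1 0) fun i => Fin.cons (k i) fun j => if i = j then 1 else 0) with hU
  have hUV : ∀ k : Fin g → ℤ, U k * U (-k) = 1 := by
    intro k
    apply ups_ext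
    · simp [Matrix.mul_apply, Fin.sum_univ_succ, hU]
    · intro j
      simp [Matrix.mul_apply, Fin.sum_univ_succ, hU, Matrix.one_apply, z_ne]
    · intro i
      simp [Matrix.mul_apply, Fin.sum_univ_succ, hU, Matrix.one_apply]
    · intro i j
      simp [Matrix.mul_apply, Fin.sum_univ_succ, hU, Matrix.one_apply]
  have h1 : U (-k) * U k = 1 := by
    have := hUV (-k)
    rwa [neg_neg] at this
  have h2 := hUV k
  set B : Matrix (Fin (g + 1)) (Fin (g + 1)) ℤ :=
    Matrix.of (Fin.cons (Fin.cons 0 (-m)) fun i => Fin.cons (-m i) 0) with hB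
  have hBt : Bᵀ = B := by
    apply ups_ext
    · rfl
    · intro j; rfl
    · intro j; rfl
    · intro i j; rfl
  refine ⟨TB B * RU (U (-k)) (U k), mul_mem (TB_mem hBt) (RU_mem h1 h2), fun j => ?_⟩
  have hd : (aut (RU (U (-k)) (U k)) τ).det ≠ 0 := by
    rw [aut_RU, det_transpose]
    intro h
    have h3 : (ci (U (-k)) * ci (U k)).det = 1 := by rw [← ci_mul, h1, ci_one, det_one]
    rw [det_mul, h, mul_zero] at h3
    exact zero_ne_one h3
  rw [act_mul hd, act_TB, act_RU h1]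
  have e1 : Rm (U (-k)) τ 0 j.succ = τ 0 j.succ - k j * τ 0 0 := by
    unfold Rm
    rw [Matrix.mul_apply, Fin.sum_univ_succ]
    simp only [Matrix.mul_apply, Fin.sum_univ_succ, transpose_apply, map_apply, of_apply, hU]
    simp [Finset.sum_ite_eq]
    ring
  show Rm (U (-k)) τ 0 j.succ + (B 0 j.succ : ℂ) = 0
  rw [e1, hmk j]
  have e2 : B 0 j.succ = -m j := rfl
  rw [e2]
  push_cast
  ring

/-- a flat theta divisor belongs to a product with an elliptic curve -/
theorem flat_dec {τ : MM (g + 1)} (hτ : τ ∈ HH (g + 1)) {v : Fin (g + 1) ⊕ Fin (g + 1) → ℤ}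
    (hv : v ≠ 0) (h : FlatV τ v) : ∃ N ∈ GG (g + 1), ∀ j : Fin g, act N τ 0 j.succ = 0 := by
  obtain ⟨M, hM, d, hd, h1⟩ := vec_red _ v le_rfl hv
  have h2 := flat_act M hM τ hτ v h
  rw [h1] at h2
  obtain ⟨c1, c2⟩ := gg_HH M hM τ hτ
  obtain ⟨a, c, ha, h3⟩ := real_flat c2 hd h2
  obtain ⟨M', c', hM', h4⟩ := rational_flat c2 ha h3
  obtain ⟨N, hN, c'', h5⟩ := coord_flat hM' h4
  obtain ⟨c3, c4⟩ := gg_HH N hN _ c2
  obtain ⟨N', hN', h6⟩ := clear_periods (periods c4 h5)
  refine ⟨N' * (N * M), mul_mem hN' (mul_mem hN hM), fun j => ?_⟩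
  have c5 : (aut (N * M) τ).det ≠ 0 := (gg_HH _ (mul_mem hN hM) τ hτ).1
  rw [act_mul c5, act_mul c1]
  exact h6 j

/-- good weights always exist -/
theorem good_all (g : ℕ) : ∀ τ ∈ HH g, ∃ n : ℕ, ∃ _ : NeZero (2 * n), GoodN (2 * n) τ := by
  induction g with
  | zero =>
    intro τ _
    exact ⟨1, ⟨by norm_num⟩, GoodN_zero τ⟩
  | succ g ih =>
    intro τ hτ
    by_cases h : ∀ v ≠ 0, ¬ FlatV τ v
    · exact GoodN_of_not_flat hτ h
    · push Not at h
      obtain ⟨v, hv, hf⟩ := h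
      obtain ⟨N, hN, h1⟩ := flat_dec hτ hv hf
      obtain ⟨c1, c2⟩ := gg_HH N hN τ hτ
      obtain ⟨n, hn, h2⟩ := ih _ (tl_HH c2)
      have hn2 : 2 ≤ 2 * n := by
        have := hn.out
        omega
      exact ⟨n, hn, GoodN_act rfl hN hτ (GoodN_prod hn2 c2 h1 h2)⟩

end Run7.h92
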