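import Pool.Agent.Run7.h92.CountU
import Pool.Agent.Run7.h92.Dec

/-!
# Good weights, uniformly in translates
-/

namespace Run7.h92

open Matrix Complex

variable {g : ℕ}

/-- shifts -/
abbrev SH (g : ℕ) : Type := (Fin g → ℝ) × (Fin g → ℝ)

/-- theta constants at shifted characteristics -/
noncomputable def tz (N : ℕ) (τ : MM g) (a b : Fin g → ℤ) (s : SH g) : ℂ :=
  th τ (fun i => (a i : ℝ) / N + s.1 i) (fun i => (b i : ℝ) / N + s.2 i)

theorem tz_congr (N : ℕ) [NeZero N] (τ : MM g) {a b a' b' : Fin g → ℤ}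
    (h1 : ∀ i, ((a i : ℤ) : ZMod N) = (a' i : ℤ)) (h2 : ∀ i, ((b i : ℤ) : ZMod N) = (b' i : ℤ))
    (s : SH g) : tz N τ a b s ≠ 0 ↔ tz N τ a' b' s ≠ 0 := by
  have hN0 : (N : ℝ) ≠ 0 := Nat.cast_ne_zero.2 (NeZero.ne N)
  have k : ∀ a a' : Fin g → ℤ, (∀ i, ((a i : ℤ) : ZMod N) = (a' i : ℤ)) →
      ∃ m : Fin g → ℤ, a' = fun i => a i + N * m i := by
    intro a a' h
    have : ∀ i, ∃ m : ℤ, a' i = a i + N * m := by
      intro i
      have h3 := (ZMod.intCast_eq_intCast_iff_dvd_sub _ _ N).1 (h i)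
      obtain ⟨m, hm⟩ := h3
      exact ⟨m, by linarith⟩
    choose m hm using this
    exact ⟨m, funext hm⟩
  obtain ⟨m, rfl⟩ := k a a' h1
  obtain ⟨m', rfl⟩ := k b b' h2
  unfold tz
  have e1 : (fun i => ((a i + N * m i : ℤ) : ℝ) / N + s.1 i) =
      fun i => ((a i : ℝ) / N + s.1 i) + m i := by
    funext i
    push_cast
    field_simp
    ring
  have e2 : (fun i => ((b i + N * m' i : ℤ) : ℝ) / N + s.2 i) =
      fun i => ((b i : ℝ) / N + s.2 i) + m' i := by
    funext i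
    push_cast
    field_simp
    ring
  rw [e1, e2, norm_th_add_left, ne_eq, ne_eq]
  have h3 := norm_th_add_right τ (fun i => (a i : ℝ) / N + s.1 i) (fun i => (b i : ℝ) / N + s.2 i) m'
  rw [not_iff_not, ← norm_eq_zero, ← h3, norm_eq_zero]

/-- theta constants at shifted torsion characteristics -/
noncomputable def ths (N : ℕ) (τ : MM g) (x : CN N g) (s : SH g) : ℂ :=
  tz N τ (fun i => ((x.1 i).val : ℤ)) (fun i => ((x.2 i).val : ℤ)) s

theorem ths_rd (N : ℕ) [NeZero N] (τ : MM g) (a b : Fin g → ℤ) (s : SH g) :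
    ths N τ (rd N a b) s ≠ 0 ↔ tz N τ a b s ≠ 0 := by
  unfold ths rd
  apply tz_congr <;> intro i <;> simp

/-- the matrix admits almost uniform weights for all translates -/
def GoodU (N : ℕ) [NeZero N] (τ : MM g) : Prop :=
  ∀ s : SH g, ∃ w : CN N g → ℕ, (∃ x, w x ≠ 0) ∧ (∀ x, w x ≠ 0 → ths N τ x s ≠ 0) ∧ QQ w

/-- the action on characteristics and shifts -/
def Mv2 (N n : ℕ) (M : Z2 g) : Prop :=
  ∃ (σ : CN N g ≃ CN N g) (ρ : CN N g → CN N g) (S : SH g → SH g),
    Function.Surjective S ∧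
    (∀ τ ∈ HH g, ∀ x s, ths N (act M τ) x s ≠ 0 → ths N τ (σ x) (S s) ≠ 0) ∧
    (∀ u x, bq n u (σ x) = bq n (ρ u) x) ∧ (∀ u, ρ u = 0 → u = 0)

theorem Mv2_one (N n : ℕ) : Mv2 N n (1 : Z2 g) := by
  refine ⟨Equiv.refl _, id, id, Function.surjective_id, ?_, fun _ _ => rfl, fun _ h => h⟩
  intro τ _ x s h
  rw [act_one] at h
  exact h

theorem Mv2_mul {N n : ℕ} {M N' : Z2 (g + 1)} (_hM : M ∈ GG (g + 1)) (hN : N' ∈ GG (g + 1))
    (h1 : Mv2 N n M) (h2 : Mv2 N n N') : Mv2 N n (M * N') := by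
  obtain ⟨σ, ρ, S, a0, a1, a2, a4⟩ := h1
  obtain ⟨σ', ρ', S', b0, b1, b2, b4⟩ := h2
  refine ⟨σ.trans σ', ρ ∘ ρ', S' ∘ S, b0.comp a0, ?_, ?_, ?_⟩
  · intro τ hτ x s h
    obtain ⟨c1, c2⟩ := gg_HH N' hN τ hτ
    rw [act_mul c1] at h
    exact b1 _ hτ _ _ (a1 _ c2 _ _ h)
  · intro u x
    simp only [Equiv.trans_apply, Function.comp_apply]
    rw [b2, a2]
  · intro u hu
    exact b4 u (a4 _ hu)

theorem Mv2_TB {N n : ℕ} [NeZero N] (hn : N = 2 * n) {B : Matrix (Fin g) (Fin g) ℤ}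
    (hB : Bᵀ = B) : Mv2 N n (TB B) := by
  have hN0 : (N : ℝ) ≠ 0 := Nat.cast_ne_zero.2 (NeZero.ne N)
  have hN1 : (N : ℝ) = 2 * n := by rw [hn]; push_cast; rfl
  have hn0 : (n : ℝ) ≠ 0 := by
    intro h
    rw [h, mul_zero] at hN1
    exact hN0 hN1
  have hBs : ∀ i j, B i j = B j i := fun i j => by
    have := congrFun (congrFun hB i) j
    rw [transpose_apply] at this
    exact this.symm
  set d : Fin g → ZMod N := fun i => n * ((B i i : ℤ) : ZMod N) with hd
  have hzs : (zm N B)ᵀ = zm N B := by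
    unfold zm
    rw [← transpose_map, hB]
  refine ⟨⟨fun x => (x.1, x.2 + zm N B *ᵥ x.1 + d), fun x => (x.1, x.2 - zm N B *ᵥ x.1 - d), ?_, ?_⟩,
    fun u => (u.1 + zm N B *ᵥ u.2, u.2),
    fun s => (s.1, fun i => s.2 i + ∑ j, (B i j : ℝ) * s.1 j), ?_, ?_, ?_, ?_⟩
  · intro x
    refine Prod.ext rfl ?_
    funext i
    simp only [Pi.add_apply, Pi.sub_apply]
    ring
  · intro x
    refine Prod.ext rfl ?_
    funext i
    simp only [Pi.add_apply, Pi.sub_apply]
    ring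
  · intro s
    refine ⟨(s.1, fun i => s.2 i - ∑ j, (B i j : ℝ) * s.1 j), ?_⟩
    refine Prod.ext rfl ?_
    funext i
    simp
  · intro τ _ x s h
    obtain ⟨a, b, rfl⟩ := exists_rd N x
    rw [act_TB, ths_rd] at h
    have e0 : ((⟨fun x => (x.1, x.2 + zm N B *ᵥ x.1 + d), fun x => (x.1, x.2 - zm N B *ᵥ x.1 - d),
        (by intro x
            refine Prod.ext rfl ?_
            funext i
            simp only [Pi.add_apply, Pi.sub_apply]
            ring), (by
            intro x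
            refine Prod.ext rfl ?_
            funext i
            simp only [Pi.add_apply, Pi.sub_apply]
            ring)⟩ : CN N g ≃ CN N g) (rd N a b)) =
        rd N a (fun i => b i + ∑ j, B i j * a j + n * B i i) := by
      unfold rd
      simp only [Equiv.coe_fn_mk]
      rw [zm_mulVec]
      ext i
      · rfl
      · simp [mulVec, dotProduct, hd]
    rw [e0, ths_rd]
    unfold tz th at h ⊢
    rw [thc_T (fun i j => B i j) hBs] at h
    have h2 := right_ne_zero_of_mul h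
    convert h2 using 2
    funext i
    push_cast
    have e3 : ∑ j, (B i j : ℂ) * ((a j : ℂ) / N + (s.1 j : ℂ)) =
        (∑ j, (B i j : ℂ) * (a j : ℂ)) / N + ∑ j, (B i j : ℂ) * (s.1 j : ℂ) := by
      rw [Finset.sum_div, ← Finset.sum_add_distrib]
      exact Finset.sum_congr rfl fun j _ => by ring
    rw [e3]
    have hN1c : (N : ℂ) = 2 * n := by exact_mod_cast hN1
    have hn0c : (n : ℂ) ≠ 0 := by exact_mod_cast hn0
    rw [hN1c]
    field_simp
    ring
  · intro u x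
    simp only [Equiv.coe_fn_mk, bq, dp]
    rw [dotProduct_add, dotProduct_add, add_dotProduct, add_dotProduct, mul_add,
      parity_mod hn hB u.2]
    have e1 : u.2 ⬝ᵥ zm N B *ᵥ x.1 = (zm N B *ᵥ u.2) ⬝ᵥ x.1 := by
      rw [dotProduct_mulVec, ← mulVec_transpose, hzs]
    have e2 : u.2 ⬝ᵥ d = n * (u.2 ⬝ᵥ fun i => ((B i i : ℤ) : ZMod N)) := by
      rw [hd]
      simp only [dotProduct, Finset.mul_sum]
      exact Finset.sum_congr rfl fun j _ => by ring
    rw [e1, e2]
    ring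
  · intro u hu
    have h1 : u.2 = 0 := congrArg Prod.snd hu
    have h2 : u.1 + zm N B *ᵥ u.2 = 0 := congrArg Prod.fst hu
    rw [h1, mulVec_zero, add_zero] at h2
    exact Prod.ext h2 h1

theorem Mv2_RU {N n : ℕ} [NeZero N] {U V : Matrix (Fin g) (Fin g) ℤ}
    (h1 : U * V = 1) (h2 : V * U = 1) : Mv2 N n (RU U V) := by
  have z1 : zm N U * zm N V = 1 := by rw [← zm_mul, h1, zm_one]
  have z2 : zm N V * zm N U = 1 := by rw [← zm_mul, h2, zm_one]
  have z3 : (zm N U)ᵀ * (zm N V)ᵀ = 1 := by rw [← transpose_mul, z2, transpose_one]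
  have z4 : (zm N V)ᵀ * (zm N U)ᵀ = 1 := by rw [← transpose_mul, z1, transpose_one]
  have r1 : U.map (Int.cast : ℤ → ℝ) * V.map (Int.cast : ℤ → ℝ) = 1 := by
    have := congrArg (fun A : Matrix (Fin g) (Fin g) ℤ => A.map (Int.castRingHom ℝ)) h1
    simp only [Matrix.map_mul, Matrix.map_one _ (map_zero _) (map_one _)] at this
    exact this
  have r2 : V.map (Int.cast : ℤ → ℝ) * U.map (Int.cast : ℤ → ℝ) = 1 := by
    have := congrArg (fun A : Matrix (Fin g) (Fin g) ℤ => A.map (Int.castRingHom ℝ)) h2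
    simp only [Matrix.map_mul, Matrix.map_one _ (map_zero _) (map_one _)] at this
    exact this
  have r3 : (U.map (Int.cast : ℤ → ℝ))ᵀ * (V.map (Int.cast : ℤ → ℝ))ᵀ = 1 := by
    rw [← transpose_mul, r2, transpose_one]
  refine ⟨⟨fun x => ((zm N U)ᵀ *ᵥ x.1, zm N V *ᵥ x.2), fun x => ((zm N V)ᵀ *ᵥ x.1, zm N U *ᵥ x.2),
    ?_, ?_⟩, fun u => (zm N U *ᵥ u.1, (zm N V)ᵀ *ᵥ u.2),
    fun s => ((U.map (Int.cast : ℤ → ℝ))ᵀ *ᵥ s.1, V.map (Int.cast : ℤ → ℝ) *ᵥ s.2), ?_, ?_, ?_, ?_⟩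
  · intro x
    simp only [mulVec_mulVec, z4, z1, one_mulVec]
  · intro x
    simp only [mulVec_mulVec, z3, z2, one_mulVec]
  · intro s
    refine ⟨((V.map (Int.cast : ℤ → ℝ))ᵀ *ᵥ s.1, U.map (Int.cast : ℤ → ℝ) *ᵥ s.2), ?_⟩
    simp only [mulVec_mulVec, r3, r2, one_mulVec]
  · intro τ _ x s h
    obtain ⟨a, b, rfl⟩ := exists_rd N x
    rw [act_RU h1, ths_rd] at h
    have e0 : (((zm N U)ᵀ *ᵥ (rd N a b).1, zm N V *ᵥ (rd N a b).2) : CN N g) =
        rd N (Uᵀ *ᵥ a) (V *ᵥ b) := by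
      unfold rd
      rw [zm_mulVec]
      have : (zm N U)ᵀ = zm N Uᵀ := by
        unfold zm
        rw [transpose_map]
      rw [this, zm_mulVec]
    show ths N τ ((zm N U)ᵀ *ᵥ (rd N a b).1, zm N V *ᵥ (rd N a b).2) _ ≠ 0
    rw [e0, ths_rd]
    unfold tz th at h ⊢
    rw [thc_R τ h1 h2] at h
    convert h using 2
    · funext i
      simp only [mulVec, dotProduct, transpose_apply, map_apply]
      push_cast
      rw [Finset.sum_div, ← Finset.sum_add_distrib]
      exact Finset.sum_congr rfl fun j _ => by ring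
    · funext i
      simp only [mulVec, dotProduct, map_apply]
      push_cast
      rw [Finset.sum_div, ← Finset.sum_add_distrib]
      exact Finset.sum_congr rfl fun j _ => by ring
  · intro u x
    simp only [Equiv.coe_fn_mk, bq, dp]
    have e1 : u.1 ⬝ᵥ (zm N U)ᵀ *ᵥ x.1 = (zm N U *ᵥ u.1) ⬝ᵥ x.1 := by
      rw [dotProduct_mulVec, ← mulVec_transpose, transpose_transpose]
    have e2 : u.2 ⬝ᵥ zm N V *ᵥ x.2 = ((zm N V)ᵀ *ᵥ u.2) ⬝ᵥ x.2 := by
      rw [dotProduct_mulVec, ← mulVec_transpose]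
    have e3 : (zm N U *ᵥ u.1) ⬝ᵥ ((zm N V)ᵀ *ᵥ u.2) = u.1 ⬝ᵥ u.2 := by
      rw [dotProduct_mulVec, ← mulVec_transpose, transpose_transpose, mulVec_mulVec, z2, one_mulVec]
    rw [e1, e2, e3]
  · intro u hu
    have h3 : zm N U *ᵥ u.1 = 0 := congrArg Prod.fst hu
    have h4 : (zm N V)ᵀ *ᵥ u.2 = 0 := congrArg Prod.snd hu
    have h5 := congrArg (fun v => zm N V *ᵥ v) h3
    have h6 := congrArg (fun v => (zm N U)ᵀ *ᵥ v) h4
    simp only [mulVec_mulVec, z2, z3, one_mulVec, mulVec_zero] at h5 h6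
    exact Prod.ext h5 h6

theorem Mv2_JI {N n : ℕ} [NeZero N] (hn : N = 2 * n) : Mv2 N n (JI 0 : Z2 (g + 1)) := by
  refine ⟨⟨fun x => (Function.update x.1 0 (x.2 0), Function.update x.2 0 (-x.1 0)),
    fun x => (Function.update x.1 0 (-x.2 0), Function.update x.2 0 (x.1 0)), ?_, ?_⟩,
    fun u => (Function.update u.1 0 (-u.2 0), Function.update u.2 0 (u.1 0)),
    fun s => (Function.update s.1 0 (s.2 0), Function.update s.2 0 (-s.1 0)), ?_, ?_, ?_, ?_⟩
  · intro x
    simp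
  · intro x
    simp
  · intro s
    refine ⟨(Function.update s.1 0 (-s.2 0), Function.update s.2 0 (s.1 0)), ?_⟩
    simp
  · intro τ hτ x s h
    obtain ⟨a, b, rfl⟩ := exists_rd N x
    rw [act_JI hτ.1 (HH_00 hτ), ths_rd] at h
    have e0 : ((Function.update (rd N a b).1 0 ((rd N a b).2 0),
        Function.update (rd N a b).2 0 (-(rd N a b).1 0)) : CN N (g + 1)) =
        rd N (Function.update a 0 (b 0)) (Function.update b 0 (-a 0)) := by
      unfold rd
      ext i <;> by_cases hi : i = 0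
      · subst hi; simp
      · simp [hi]
      · subst hi; simp
      · simp [hi]
    show ths N τ (Function.update (rd N a b).1 0 ((rd N a b).2 0),
        Function.update (rd N a b).2 0 (-(rd N a b).1 0)) _ ≠ 0
    rw [e0, ths_rd]
    intro h0
    apply h
    unfold tz at h0 ⊢
    apply th_J_zero hτ
    convert h0 using 2
    · funext i
      by_cases hi : i = 0
      · subst hi; simp
      · simp [hi]
    · funext i
      by_cases hi : i = 0
      · subst hi
        simp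
        ring
      · simp [hi]
  · intro u x
    simp only [Equiv.coe_fn_mk, bq, dp]
    rw [dot_update_right, dot_update_right, dot_update_left, dot_update_left, dot_update]
    have e : ∀ p a : Fin (g + 1) → ZMod N, p ⬝ᵥ a = p 0 * a 0 + ∑ i : Fin g, p i.succ * a i.succ := by
      intro p a
      simp only [dotProduct, Fin.sum_univ_succ]
    rw [e u.1 u.2]
    have := n_two hn
    linear_combination (u.1 0 * u.2 0) * this
  · intro u hu
    have h1 : Function.update u.1 0 (-u.2 0) = 0 := congrArg Prod.fst hu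
    have h2 : Function.update u.2 0 (u.1 0) = 0 := congrArg Prod.snd hu
    ext i <;> by_cases hi : i = 0
    · subst hi
      have := congrFun h2 0
      simpa using this
    · have := congrFun h1 i
      simpa [hi] using this
    · subst hi
      have := congrFun h1 0
      simpa using this
    · have := congrFun h2 i
      simpa [hi] using this

theorem Mv2_all {N n : ℕ} [NeZero N] (hn : N = 2 * n) : ∀ M ∈ GG (g + 1), Mv2 N n M :=
  gg_ind (Mv2_one N n) (fun _ _ hM hN h1 h2 => Mv2_mul hM hN h1 h2) (fun _ hB => Mv2_TB hn hB)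
    (fun _ _ h1 h2 => Mv2_RU h1 h2) (Mv2_JI hn)

theorem GoodU_act {N n : ℕ} [NeZero N] (hn : N = 2 * n) {M : Z2 (g + 1)} (hM : M ∈ GG (g + 1))
    {τ : MM (g + 1)} (hτ : τ ∈ HH (g + 1)) (h : GoodU N (act M τ)) : GoodU N τ := by
  obtain ⟨σ, ρ, S, a0, a1, a2, a4⟩ := Mv2_all hn M hM
  intro s
  obtain ⟨s', rfl⟩ := a0 s
  obtain ⟨w, ⟨x0, hx0⟩, h2, h3⟩ := h s'
  refine ⟨fun x => w (σ.symm x), ⟨σ x0, by simpa using hx0⟩, ?_, ?_⟩
  · intro x hx
    have h4 := a1 τ hτ _ _ (h2 _ hx)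
    rwa [Equiv.apply_symm_apply] at h4
  · intro u hu
    have hρ : ρ u ≠ 0 := fun h => hu (a4 u h)
    have e1 : ∑ x, (w (σ.symm x) : ℂ) * ps (dp u x) = ∑ x, (w x : ℂ) * ps (dp u (σ x)) := by
      rw [← σ.sum_comp]
      simp
    have e2 : ∑ x, ((w (σ.symm x) : ℕ) : ℝ) = ∑ x, (w x : ℝ) := by
      rw [← σ.sum_comp]
      simp
    have e3 : ∀ x, dp u (σ x) = dp (ρ u) x +
        (n * ((ρ u).1 ⬝ᵥ (ρ u).2) - n * (u.1 ⬝ᵥ u.2)) := by
      intro x
      have := a2 u x
      unfold bq at this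
      linear_combination this
    rw [e1, e2]
    simp_rw [e3, ps_add]
    have e4 : ∑ x, (w x : ℂ) * (ps (dp (ρ u) x) *
        ps ((n : ZMod N) * ((ρ u).1 ⬝ᵥ (ρ u).2) - (n : ZMod N) * (u.1 ⬝ᵥ u.2))) =
        (∑ x, (w x : ℂ) * ps (dp (ρ u) x)) *
          ps ((n : ZMod N) * ((ρ u).1 ⬝ᵥ (ρ u).2) - (n : ZMod N) * (u.1 ⬝ᵥ u.2)) := by
      rw [Finset.sum_mul]
      exact Finset.sum_congr rfl fun x _ => by ring
    rw [e4, norm_mul, norm_ps, mul_one]
    exact h3 _ hρ

theorem GoodU_of_few {N : ℕ} [NeZero N] (hN : 2 ≤ N) {τ : MM g}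
    (h : ∀ s, (Finset.univ.filter fun x : CN N g => ¬ ths N τ x s ≠ 0).card * N ^ 2 ≤ N ^ (2 * g)) :
    GoodU N τ := by
  classical
  intro s
  refine ⟨fun x => if ths N τ x s ≠ 0 then 1 else 0, ?_, ?_, ?_⟩
  · obtain ⟨x, hx⟩ := exists_of_few hN (fun x : CN N g => ths N τ x s ≠ 0) (by convert h s)
    exact ⟨x, by simp [hx]⟩
  · intro x hx
    by_contra hcon
    simp [hcon] at hx
  · convert QQ_of_few (fun x : CN N g => ths N τ x s ≠ 0) (by convert h s)

theorem card_zero_s {N : ℕ} [NeZero N] {τ : MM g} (hτ : τ ∈ HH g) (s : SH g) :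
    (Finset.univ.filter fun x : CN N g => ¬ ths N τ x s ≠ 0).card =
      (((DT hτ).tr (Sum.elim s.1 s.2)).Zs N).card := by
  classical
  symm
  have key : ∀ x : Fin g ⊕ Fin g → Fin N, ths N τ (cnv N g x) s = 0 ↔
      ((DT hτ).tr (Sum.elim s.1 s.2)).f (((DT hτ).tr (Sum.elim s.1 s.2)).A (xiv x)) = 0 := by
    intro x
    rw [Dat.tr_zero]
    show _ ↔ thc τ 0 (AA hτ _) = 0
    rw [← th_zero_iff hτ]
    have h2 : ths N τ (cnv N g x) s = th τ (fun i => (xiv x + Sum.elim s.1 s.2) (Sum.inl i))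
        (fun i => (xiv x + Sum.elim s.1 s.2) (Sum.inr i)) := by
      unfold ths tz
      congr 1
      · funext i
        simp only [cnv, xiv, Pi.add_apply]
        simp [Equiv.sumArrowEquivProdArrow, val_fin]
      · funext i
        simp only [cnv, xiv, Pi.add_apply]
        simp [Equiv.sumArrowEquivProdArrow, val_fin]
    rw [h2]
  refine Finset.card_bij (fun x _ => cnv N g x) ?_ ?_ ?_
  · intro x hx
    unfold Dat.Zs at hx
    rw [Finset.mem_filter] at hx ⊢
    refine ⟨Finset.mem_univ _, ?_⟩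
    rw [not_not]
    exact (key x).2 hx.2
  · intro x _ y _ h
    exact (cnv N g).injective h
  · intro y hy
    rw [Finset.mem_filter, not_not] at hy
    refine ⟨(cnv N g).symm y, ?_, by simp⟩
    unfold Dat.Zs
    rw [Finset.mem_filter]
    refine ⟨Finset.mem_univ _, ?_⟩
    rw [← key, Equiv.apply_symm_apply]
    exact hy.2

theorem GoodU_of_not_flat {τ : MM g} (hτ : τ ∈ HH g) (h : ∀ v ≠ 0, ¬ FlatV τ v) :
    ∃ n : ℕ, ∃ _ : NeZero (2 * n), GoodU (2 * n) τ := by
  obtain ⟨n, hn, h1⟩ := (DT hτ).count_unif (fun k hk hf => h k hk (flat_iff hτ hf))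
  have : NeZero (2 * n) := ⟨by omega⟩
  refine ⟨n, this, ?_⟩
  apply GoodU_of_few (by omega)
  intro s
  rw [card_zero_s hτ]
  exact h1 _

theorem GoodU_zero {N : ℕ} [NeZero N] (τ : MM 0) : GoodU N τ := by
  intro s
  refine ⟨fun _ => 1, ⟨0, one_ne_zero⟩, ?_, ?_⟩
  · intro x _
    unfold ths tz th thc
    rw [tsum_eq_single 0 (fun m hm => absurd (Subsingleton.elim m 0) hm)]
    exact Complex.exp_ne_zero _
  · intro u hu
    exact absurd (Subsingleton.elim u 0) hu

theorem card_t1 {N : ℕ} [NeZero N] {s : ℂ} (him : 0 < s.im) (e d : ℝ) :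
    (Finset.univ.filter fun y : CN N 1 =>
      ¬ t1 s (((y.1 0).val : ℝ) / N + e) (((y.2 0).val : ℝ) / N + d) ≠ 0).card ≤ 1 := by
  have hN0 : (N : ℝ) ≠ 0 := Nat.cast_ne_zero.2 (NeZero.ne N)
  have hNp : (0 : ℝ) < N := Nat.cast_pos.2 (NeZero.pos N)
  rw [Finset.card_le_one]
  intro y hy z hz
  simp only [Finset.mem_filter, Finset.mem_univ, true_and, not_not] at hy hz
  rw [t1_eq] at hy hz
  have hy' := (mul_eq_zero.1 hy).resolve_left (Complex.exp_ne_zero _)
  have hz' := (mul_eq_zero.1 hz).resolve_left (Complex.exp_ne_zero _)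
  obtain ⟨m, k, hmk⟩ := jt_zeros him hy' hz'
  have hlt : ∀ a b : ZMod N, ∀ k : ℤ, ((a.val : ℝ) / N - (b.val : ℝ) / N) = k → a = b := by
    intro a b k hk
    have ha : (a.val : ℝ) < N := by exact_mod_cast a.val_lt
    have hb : (b.val : ℝ) < N := by exact_mod_cast b.val_lt
    have ha0 : (0 : ℝ) ≤ a.val := Nat.cast_nonneg _
    have hb0 : (0 : ℝ) ≤ b.val := Nat.cast_nonneg _
    rw [← sub_div, div_eq_iff hN0] at hk
    have h1 : (k : ℝ) * N < 1 * N := by linarith
    have h2 : (-1 : ℝ) * N < k * N := by linarith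
    have h3 : (k : ℝ) < 1 := lt_of_mul_lt_mul_right h1 hNp.le
    have h4 : (-1 : ℝ) < k := lt_of_mul_lt_mul_right h2 hNp.le
    have h5 : k = 0 := by
      have h6 : k < 1 := by exact_mod_cast h3
      have h7 : -1 < k := by exact_mod_cast h4
      omega
    rw [h5] at hk
    have h8 : (a.val : ℝ) = b.val := by
      simp only [Int.cast_zero, zero_mul] at hk
      linarith
    exact ZMod.val_injective N (by exact_mod_cast h8)
  have e1 := congrArg Complex.im hmk
  simp only [Complex.sub_im, Complex.add_im, Complex.ofReal_im, Complex.mul_im, Complex.ofReal_re,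
    Complex.intCast_im, Complex.intCast_re, zero_mul, add_zero, zero_add] at e1
  have e2 : ((y.1 0).val : ℝ) / N - ((z.1 0).val : ℝ) / N = k := by
    apply mul_right_cancel₀ him.ne'
    linarith
  have e3 := congrArg Complex.re hmk
  simp only [Complex.sub_re, Complex.add_re, Complex.ofReal_im, Complex.mul_re, Complex.ofReal_re,
    Complex.intCast_im, Complex.intCast_re, zero_mul, sub_zero] at e3
  have e4 : ((y.2 0).val : ℝ) / N - ((z.2 0).val : ℝ) / N = m := by
    linear_combination e3 - s.re * e2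
  have f1 := hlt _ _ _ e2
  have f2 := hlt _ _ _ e4
  refine Prod.ext ?_ ?_
  · funext i
    rw [Subsingleton.elim i 0]
    exact f1
  · funext i
    rw [Subsingleton.elim i 0]
    exact f2

theorem GoodU_prod {N : ℕ} [NeZero N] (hN : 2 ≤ N) {τ : MM (g + 1)} (hτ : τ ∈ HH (g + 1))
    (h0 : ∀ j : Fin g, τ 0 j.succ = 0) (h : GoodU N (tl τ)) : GoodU N τ := by
  classical
  intro s
  obtain ⟨w', ⟨z0, hz0⟩, hw1, hw2⟩ := h (fun i => s.1 i.succ, fun i => s.2 i.succ)
  have him : 0 < (τ 0 0).im := by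
    obtain ⟨hs, c, hc, hLB⟩ := hτ
    exact hc.trans_le (LB_00 hLB)
  set P : CN N 1 → Prop := fun y =>
    t1 (τ 0 0) (((y.1 0).val : ℝ) / N + s.1 0) (((y.2 0).val : ℝ) / N + s.2 0) ≠ 0 with hP
  have hcard : (Finset.univ.filter fun y => ¬ P y).card ≤ 1 := card_t1 him _ _
  have hfew : (Finset.univ.filter fun y => ¬ P y).card * N ^ 2 ≤ N ^ (2 * 1) := by
    rw [mul_one]
    nlinarith [Nat.zero_le (N ^ 2)]
  obtain ⟨y0, hy0⟩ := exists_of_few hN P hfew
  have hQ1 := QQ_of_few P hfew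
  set w1 : CN N 1 → ℕ := fun y => if P y then 1 else 0 with hw1'
  refine ⟨fun x => w1 (spl N g x).1 * w' (spl N g x).2, ?_, ?_, ?_⟩
  · refine ⟨(spl N g).symm (y0, z0), ?_⟩
    show w1 (spl N g ((spl N g).symm (y0, z0))).1 * w' (spl N g ((spl N g).symm (y0, z0))).2 ≠ 0
    rw [Equiv.apply_symm_apply]
    have : w1 y0 = 1 := if_pos hy0
    rw [this, one_mul]
    exact hz0
  · intro x hx
    have hx1 := left_ne_zero_of_mul hx
    have hx2 := right_ne_zero_of_mul hx
    have hPx : P (spl N g x).1 := by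
      rcases Classical.em (P (spl N g x).1) with h5 | h5
      · exact h5
      · have : w1 (spl N g x).1 = 0 := if_neg h5
        exact absurd this hx1
    have h3 := hw1 _ hx2
    unfold ths tz at h3 ⊢
    rw [th_prod hτ h0]
    exact mul_ne_zero hPx h3
  · intro u hu
    have e1 : ∑ x : CN N (g + 1), ((w1 (spl N g x).1 * w' (spl N g x).2 : ℕ) : ℂ) * ps (dp u x) =
        (∑ y, (w1 y : ℂ) * ps (dp (spl N g u).1 y)) *
          ∑ z, (w' z : ℂ) * ps (dp (spl N g u).2 z) := by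
      rw [Finset.sum_mul_sum, ← Fintype.sum_prod_type', ← (spl N g).sum_comp]
      refine Finset.sum_congr rfl fun x _ => ?_
      rw [dp_spl, ps_add]
      push_cast
      ring
    have e2 : ∑ x : CN N (g + 1), ((w1 (spl N g x).1 * w' (spl N g x).2 : ℕ) : ℝ) =
        (∑ y, (w1 y : ℝ)) * ∑ z, (w' z : ℝ) := by
      rw [Finset.sum_mul_sum, ← Fintype.sum_prod_type', ← (spl N g).sum_comp]
      refine Finset.sum_congr rfl fun x _ => ?_
      push_cast
      ring
    rw [e1, e2, norm_mul]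
    have hN1 : (1 : ℝ) ≤ N := by exact_mod_cast NeZero.one_le
    have hNN : 0 ≤ (N : ℝ) ^ 2 - 1 := by nlinarith
    have b1 := norm_le_sum w1 (spl N g u).1
    have b2 := norm_le_sum w' (spl N g u).2
    have hS1 : 0 ≤ ∑ y, (w1 y : ℝ) := Finset.sum_nonneg fun _ _ => Nat.cast_nonneg _
    by_cases hu1 : (spl N g u).1 = 0
    · have hu2 : (spl N g u).2 ≠ 0 := by
        intro hu2
        apply hu
        have : spl N g u = spl N g 0 := Prod.ext hu1 hu2
        exact (spl N g).injective this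
      have b3 := hw2 _ hu2
      rw [mul_assoc]
      exact mul_le_mul b1 b3 (by positivity) hS1
    · have b3 := hQ1 _ hu1
      rw [mul_right_comm]
      exact mul_le_mul b3 b2 (by positivity) hS1

/-- uniformly good weights always exist -/
theorem good_all_unif (g : ℕ) : ∀ τ ∈ HH g, ∃ n : ℕ, ∃ _ : NeZero (2 * n), GoodU (2 * n) τ := by
  induction g with
  | zero =>
    intro τ _
    exact ⟨1, ⟨by norm_num⟩, GoodU_zero τ⟩
  | succ g ih =>
    intro τ hτ
    by_cases h : ∀ v ≠ 0, ¬ FlatV τ v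
    · exact GoodU_of_not_flat hτ h
    · push Not at h
      obtain ⟨v, hv, hf⟩ := h
      obtain ⟨N, hN, h1⟩ := flat_dec hτ hv hf
      obtain ⟨c1, c2⟩ := gg_HH N hN τ hτ
      obtain ⟨n, hn, h2⟩ := ih _ (tl_HH c2)
      have hn2 : 2 ≤ 2 * n := by
        have := hn.out
        omega
      exact ⟨n, hn, GoodU_act rfl hN hτ (GoodU_prod hn2 c2 h1 h2)⟩

end Run7.h92
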