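import Pool.Agent.Run7.h92.Abs5
import Pool.Agent.Run7.h92.GoodU

/-!
# Counting torsion zeros for all large levels
-/

namespace Run7.h92

open Complex MeasureTheory Metric Real Set Filter Topology

variable {g : ℕ}

namespace Dat

variable (D : Dat g)

/-- **Uniform counting theorem**, for all large even levels. -/
theorem count_ev (hnf : ∀ k ≠ 0, ¬ D.Flat k) :
    ∃ n0 : ℕ, ∀ n ≥ n0, ∀ s : XX g, ((D.tr s).Zs (2 * (n + 1))).card * (2 * (n + 1)) ^ 2 ≤
      (2 * (n + 1)) ^ (2 * g) := by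
  by_contra hcon
  push Not at hcon
  choose nn hnn sn hsn using hcon
  have hnt : Tendsto nn atTop atTop := tendsto_atTop_mono hnn tendsto_id
  obtain ⟨c, hc0, hct, hc⟩ := D.map_A
  obtain ⟨R, hR1, hR⟩ := D.exists_R0
  have hcpos : 0 < c.toReal := ENNReal.toReal_pos hc0 hct
  have hv := vU_pos (g := g)
  have hl : 0 < Real.log 2 := Real.log_pos (by norm_num)
  set QU : ℝ := ∫ ζ in UU g, D.q ζ with hQU
  have hR0 : 0 < R := by linarith
  have key : ∀ m : ℕ, 0 < m → c.toReal * (1 / (6 * m * R)) ^ (2 * g) * (vU g ^ 2 * Real.log 2) ≤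
      (4 / (m : ℝ) ^ 2) ^ (2 * g) * ((m : ℝ) ^ (2 * g) * (4 * (1 / (6 * m * R)) ^ 2 * |QU|)) := by
    intro m hm
    have hm' : (0 : ℝ) < m := by exact_mod_cast hm
    set a : ℝ := 1 / (6 * m * R) with ha
    have ha0 : 0 < a := by positivity
    have haR : a * R ≤ 1 / (6 * m) := by
      rw [ha]
      apply le_of_eq
      field_simp
    -- lower bound for each N
    have hlow : ∀ i : ℕ, c.toReal * a ^ (2 * g) * (vU g ^ 2 * Real.log 2) ≤
        (D.tr (sn i)).GG m (2 * (nn i + 1)) a * ((2 * (nn i + 1) : ℕ) : ℝ) ^ 2 := by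
      intro i
      have hNpos : 0 < 2 * (nn i + 1) := by omega
      have h1 := (D.tr (sn i)).G_le hc hNpos hm hR1 hR ha0 haR
      have h2' := (hsn i).le
      set N := 2 * (nn i + 1) with hN
      have hN' : (0 : ℝ) < N := by exact_mod_cast hNpos
      have h2 : ((N : ℝ)) ^ (2 * g) ≤ ((D.tr (sn i)).Zs N).card * (N : ℝ) ^ 2 := by
        exact_mod_cast h2'
      calc c.toReal * a ^ (2 * g) * (vU g ^ 2 * Real.log 2) =
          (c.toReal * (a / N) ^ (2 * g)) * (((N : ℝ) ^ (2 * g)) * (vU g ^ 2 * Real.log 2)) := by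
            have : (a / N) ^ (2 * g) * (N : ℝ) ^ (2 * g) = a ^ (2 * g) := by
              rw [← mul_pow, div_mul_cancel₀ _ hN'.ne']
            rw [← this]
            ring
        _ ≤ (c.toReal * (a / N) ^ (2 * g)) * ((((D.tr (sn i)).Zs N).card * (N : ℝ) ^ 2) *
            (vU g ^ 2 * Real.log 2)) := by gcongr
        _ = (c.toReal * (a / N) ^ (2 * g) * (((D.tr (sn i)).Zs N).card *
            (vU g ^ 2 * Real.log 2))) * (N : ℝ) ^ 2 := by ring
        _ ≤ (D.tr (sn i)).GG m N a * (N : ℝ) ^ 2 := by gcongr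
    -- the limit
    set W : ℕ → ℝ := fun n => ∑ s : Fin g ⊕ Fin g → Fin m, ∑ t : Fin g ⊕ Fin g → Fin m,
          if s = t then 0 else 4 * ‖D.Jb (fr s - fr t) a‖ *
            ‖((n + 1 : ℕ) : ℂ) ^ 2 * D.uh (((n + 1 : ℕ) : ℤ) • ((2 : ℤ) • (fr s - fr t)))‖ with hW
    have hWlim : Tendsto W atTop (𝓝 0) := by
      have e0 : (0 : ℝ) = ∑ _s : Fin g ⊕ Fin g → Fin m, ∑ _t : Fin g ⊕ Fin g → Fin m, (0 : ℝ) := by
        simp
      rw [hW]
      conv => arg 3; rw [e0]
      refine tendsto_finsetSum _ fun s _ => tendsto_finsetSum _ fun t _ => ?_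
      by_cases hst : s = t
      · simp only [if_pos hst]
        exact tendsto_const_nhds
      · simp only [if_neg hst]
        have hk : (2 : ℤ) • (fr s - fr t) ≠ 0 := by
          intro h
          rcases smul_eq_zero.1 h with h | h
          · exact absurd h (by norm_num)
          · exact fr_sub_ne hst h
        have := D.decay hk (hnf _ hk)
        have h4 := this.const_mul (4 * ‖D.Jb (fr s - fr t) a‖)
        rw [mul_zero] at h4
        exact h4
    have hlim := (((hWlim.comp hnt).const_add ((m : ℝ) ^ (2 * g) * |4 * a ^ 2 * QU|)).const_mul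
      ((4 / (m : ℝ) ^ 2) ^ (2 * g)))
    rw [add_zero] at hlim
    have h6 := ge_of_tendsto' hlim (fun i => (hlow i).trans (D.GG_tr_le (sn i) (n := nn i) a))
    refine h6.trans (le_of_eq ?_)
    rw [abs_mul, abs_of_nonneg (by positivity : (0 : ℝ) ≤ 4 * a ^ 2)]
  -- conclusion
  have hconst : ∀ m : ℕ, 0 < m → c.toReal * (vU g ^ 2 * Real.log 2) * (36 * R ^ 2) * (m : ℝ) ^ 2 ≤
      (24 * R) ^ (2 * g) * (4 * |QU|) := by
    intro m hm
    have hm' : (0 : ℝ) < m := by exact_mod_cast hm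
    have h1 := key m hm
    have h2 : (0 : ℝ) < (6 * m * R) ^ (2 * g) * (36 * R ^ 2 * (m : ℝ) ^ 2) := by positivity
    have h3 := mul_le_mul_of_nonneg_right h1 h2.le
    calc c.toReal * (vU g ^ 2 * Real.log 2) * (36 * R ^ 2) * (m : ℝ) ^ 2 =
        c.toReal * (1 / (6 * m * R)) ^ (2 * g) * (vU g ^ 2 * Real.log 2) *
          ((6 * m * R) ^ (2 * g) * (36 * R ^ 2 * (m : ℝ) ^ 2)) := by
          rw [one_div, inv_pow]
          have : (6 * (m : ℝ) * R) ^ (2 * g) ≠ 0 := by positivity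
          field_simp
      _ ≤ _ := h3
      _ = (24 * R) ^ (2 * g) * (4 * |QU|) := by
          have e : (24 * R) ^ (2 * g) = (4 / (m : ℝ) ^ 2) ^ (2 * g) * (m : ℝ) ^ (2 * g) *
              (6 * m * R) ^ (2 * g) := by
            rw [← mul_pow, ← mul_pow]
            congr 1
            field_simp
            ring
          rw [e]
          field_simp
          ring
  have hpos : 0 < c.toReal * (vU g ^ 2 * Real.log 2) * (36 * R ^ 2) := by positivity
  obtain ⟨m, hm⟩ := exists_nat_gt ((24 * R) ^ (2 * g) * (4 * |QU|) /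
    (c.toReal * (vU g ^ 2 * Real.log 2) * (36 * R ^ 2)))
  have hm1 : (m : ℝ) < (m + 1 : ℕ) := by exact_mod_cast Nat.lt_succ_self m
  have h4 := hconst (m + 1) (Nat.succ_pos m)
  rw [div_lt_iff₀ hpos] at hm
  have h5 : ((m + 1 : ℕ) : ℝ) ≤ ((m + 1 : ℕ) : ℝ) ^ 2 := by
    have : (1 : ℝ) ≤ ((m + 1 : ℕ) : ℝ) := by
      push_cast
      linarith [Nat.cast_nonneg (α := ℝ) m]
    nlinarith
  have h6 : (m : ℝ) * (c.toReal * (vU g ^ 2 * Real.log 2) * (36 * R ^ 2)) ≤
      c.toReal * (vU g ^ 2 * Real.log 2) * (36 * R ^ 2) * ((m + 1 : ℕ) : ℝ) ^ 2 := by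
    rw [mul_comm]
    exact mul_le_mul_of_nonneg_left (hm1.le.trans h5) hpos.le
  linarith

end Dat

theorem GoodU_ev_of_not_flat {τ : MM g} (hτ : τ ∈ HH g) (h : ∀ v ≠ 0, ¬ FlatV τ v) :
    ∃ n0 : ℕ, ∀ n ≥ n0, ∀ _ : NeZero (2 * n), GoodU (2 * n) τ := by
  obtain ⟨n0, h1⟩ := (DT hτ).count_ev (fun k hk hf => h k hk (flat_iff hτ hf))
  refine ⟨n0 + 1, fun n hn _ => ?_⟩
  apply GoodU_of_few (by omega)
  intro s
  rw [card_zero_s hτ]
  have h2 := h1 (n - 1) (by omega) (Sum.elim s.1 s.2)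
  have e : n - 1 + 1 = n := by omega
  rw [e] at h2
  exact h2

/-- uniformly good weights exist for all large even levels -/
theorem good_all_ev (g : ℕ) : ∀ τ ∈ HH g, ∃ n0 : ℕ, ∀ n ≥ n0, ∀ _ : NeZero (2 * n),
    GoodU (2 * n) τ := by
  induction g with
  | zero =>
    intro τ _
    exact ⟨1, fun n _ _ => GoodU_zero τ⟩
  | succ g ih =>
    intro τ hτ
    by_cases h : ∀ v ≠ 0, ¬ FlatV τ v
    · exact GoodU_ev_of_not_flat hτ h
    · push Not at h
      obtain ⟨v, hv, hf⟩ := h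
      obtain ⟨N, hN, h1⟩ := flat_dec hτ hv hf
      obtain ⟨c1, c2⟩ := gg_HH N hN τ hτ
      obtain ⟨n0, h2⟩ := ih _ (tl_HH c2)
      refine ⟨max n0 1, fun n hn _ => ?_⟩
      have hn2 : 2 ≤ 2 * n := by
        have := (le_max_right n0 1).trans hn
        omega
      exact GoodU_act rfl hN hτ (GoodU_prod hn2 c2 h1 (h2 n ((le_max_left _ _).trans hn) _))

end Run7.h92
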