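import Pool.Agent.Run7.h92.CesU

/-!
# Counting torsion zeros uniformly in translates
-/

namespace Run7.h92

open Complex MeasureTheory Metric Real Set Filter Topology

variable {g : ℕ}

namespace Dat

variable (D : Dat g)

theorem GG_tr_le (s0 : XX g) {n m : ℕ} (a : ℝ) :
    (D.tr s0).GG m (2 * (n + 1)) a * ((2 * (n + 1) : ℕ) : ℝ) ^ 2 ≤
      (4 / (m : ℝ) ^ 2) ^ (2 * g) * ((m : ℝ) ^ (2 * g) * |4 * a ^ 2 * ∫ ζ in UU g, D.q ζ| +
        ∑ s : Fin g ⊕ Fin g → Fin m, ∑ t : Fin g ⊕ Fin g → Fin m,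
          if s = t then 0 else 4 * ‖D.Jb (fr s - fr t) a‖ *
            ‖((n + 1 : ℕ) : ℂ) ^ 2 * D.uh (((n + 1 : ℕ) : ℤ) • ((2 : ℤ) • (fr s - fr t)))‖) := by
  have h1 := (D.tr s0).G_eq (N := 2 * (n + 1)) (m := m) (by omega) a
  have h2 : ((D.tr s0).GG m (2 * (n + 1)) a * ((2 * (n + 1) : ℕ) : ℝ) ^ 2) ≤
      ‖(((D.tr s0).GG m (2 * (n + 1)) a : ℝ) : ℂ) * ((2 * (n + 1) : ℕ) : ℂ) ^ 2‖ := by
    have h3 : (((D.tr s0).GG m (2 * (n + 1)) a : ℝ) : ℂ) * ((2 * (n + 1) : ℕ) : ℂ) ^ 2 =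
        (((D.tr s0).GG m (2 * (n + 1)) a * ((2 * (n + 1) : ℕ) : ℝ) ^ 2 : ℝ) : ℂ) := by
      push_cast
      rfl
    rw [h3, Complex.norm_real]
    exact le_abs_self _
  refine h2.trans ?_
  rw [h1, norm_mul, Complex.norm_real, Real.norm_of_nonneg (by positivity)]
  refine mul_le_mul_of_nonneg_left ?_ (by positivity)
  have e7 : (m : ℝ) ^ (2 * g) * |4 * a ^ 2 * ∫ ζ in UU g, D.q ζ| =
      ∑ s : Fin g ⊕ Fin g → Fin m, ∑ t : Fin g ⊕ Fin g → Fin m,
        (if s = t then |4 * a ^ 2 * ∫ ζ in UU g, D.q ζ| else 0) := by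
    simp_rw [Finset.sum_ite_eq, Finset.mem_univ, if_true]
    rw [Finset.sum_const, Finset.card_univ, nsmul_eq_mul]
    have : Fintype.card (Fin g ⊕ Fin g → Fin m) = m ^ (2 * g) := by
      rw [Fintype.card_fun, Fintype.card_sum, Fintype.card_fin, Fintype.card_fin, two_mul]
    rw [this]
    push_cast
    rfl
  rw [e7, ← Finset.sum_add_distrib]
  refine (norm_sum_le _ _).trans (Finset.sum_le_sum fun s _ => ?_)
  rw [← Finset.sum_add_distrib]
  refine (norm_sum_le _ _).trans (Finset.sum_le_sum fun t _ => ?_)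
  by_cases hst : s = t
  · rw [if_pos hst, if_pos hst, if_pos hst, add_zero, Complex.norm_real, Real.norm_eq_abs]
    rfl
  · rw [if_neg hst, if_neg hst, if_neg hst, zero_add, norm_mul, norm_mul, tr_uh]
    have e1 : (D.tr s0).Jb (fr s - fr t) a = D.Jb (fr s - fr t) a := rfl
    have e2 : ((2 * (n + 1) : ℕ) : ℤ) • (fr s - fr t) =
        ((n + 1 : ℕ) : ℤ) • ((2 : ℤ) • (fr s - fr t)) := by
      rw [smul_smul]
      congr 1
      push_cast
      ring
    rw [e1, e2, norm_mul]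
    have e3 : ‖((2 * (n + 1) : ℕ) : ℂ) ^ 2‖ = 4 * ‖((n + 1 : ℕ) : ℂ) ^ 2‖ := by
      rw [norm_pow, norm_pow, Complex.norm_natCast, Complex.norm_natCast]
      push_cast
      ring
    rw [e3]
    apply le_of_eq
    ring

/-- **Uniform counting theorem.** -/
theorem count_unif (hnf : ∀ k ≠ 0, ¬ D.Flat k) :
    ∃ n : ℕ, 0 < n ∧ ∀ s : XX g, ((D.tr s).Zs (2 * n)).card * (2 * n) ^ 2 ≤ (2 * n) ^ (2 * g) := by
  by_contra hcon
  push Not at hcon
  have hcon' : ∀ n : ℕ, ∃ s : XX g,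
      (2 * (n + 1)) ^ (2 * g) < ((D.tr s).Zs (2 * (n + 1))).card * (2 * (n + 1)) ^ 2 := fun n =>
    hcon (n + 1) (Nat.succ_pos n)
  choose sn hsn using hcon'
  obtain ⟨c, hc0, hct, hc⟩ := D.map_A
  obtain ⟨R, hR1, hR⟩ := D.exists_R0
  have hcpos : 0 < c.toReal := ENNReal.toReal_pos hc0 hct
  have hv := vU_pos (g := g)
  have hl : 0 < Real.log 2 := Real.log_pos (by norm_num)
  set QU : ℝ := ∫ ζ in UU g, D.q ζ with hQU
  have hR0 : 0 < R := by linarith
  have key : ∀ m : ℕ, 0 < m → c.toReal * (1 / (6 * m * R)) ^ (2 * g) * (vU g ^ 2 * Real.log 2) ≤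
      (4 / (m : ℝ) ^ 2) ^ (2 * g) * ((m : ℝ) ^ (2 * g) * (4 * (1 / (6 * m * R)) ^ 2 * |QU|)) := by
    intro m hm
    have hm' : (0 : ℝ) < m := by exact_mod_cast hm
    set a : ℝ := 1 / (6 * m * R) with ha
    have ha0 : 0 < a := by positivity
    have haR : a * R ≤ 1 / (6 * m) := by
      rw [ha]
      apply le_of_eq
      field_simp
    -- lower bound for each N
    have hlow : ∀ n : ℕ, c.toReal * a ^ (2 * g) * (vU g ^ 2 * Real.log 2) ≤
        (D.tr (sn n)).GG m (2 * (n + 1)) a * ((2 * (n + 1) : ℕ) : ℝ) ^ 2 := by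
      intro n
      have hNpos : 0 < 2 * (n + 1) := by omega
      have h1 := (D.tr (sn n)).G_le hc hNpos hm hR1 hR ha0 haR
      have h2' := (hsn n).le
      set N := 2 * (n + 1) with hN
      have hN' : (0 : ℝ) < N := by exact_mod_cast hNpos
      have h2 : ((N : ℝ)) ^ (2 * g) ≤ ((D.tr (sn n)).Zs N).card * (N : ℝ) ^ 2 := by
        exact_mod_cast h2'
      calc c.toReal * a ^ (2 * g) * (vU g ^ 2 * Real.log 2) =
          (c.toReal * (a / N) ^ (2 * g)) * (((N : ℝ) ^ (2 * g)) * (vU g ^ 2 * Real.log 2)) := by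
            have : (a / N) ^ (2 * g) * (N : ℝ) ^ (2 * g) = a ^ (2 * g) := by
              rw [← mul_pow, div_mul_cancel₀ _ hN'.ne']
            rw [← this]
            ring
        _ ≤ (c.toReal * (a / N) ^ (2 * g)) * ((((D.tr (sn n)).Zs N).card * (N : ℝ) ^ 2) *
            (vU g ^ 2 * Real.log 2)) := by gcongr
        _ = (c.toReal * (a / N) ^ (2 * g) * (((D.tr (sn n)).Zs N).card *
            (vU g ^ 2 * Real.log 2))) * (N : ℝ) ^ 2 := by ring
        _ ≤ (D.tr (sn n)).GG m N a * (N : ℝ) ^ 2 := by gcongr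
    -- the Cesaro limit
    set W : ℕ → ℝ := fun n => ∑ s : Fin g ⊕ Fin g → Fin m, ∑ t : Fin g ⊕ Fin g → Fin m,
          if s = t then 0 else 4 * ‖D.Jb (fr s - fr t) a‖ *
            ‖((n + 1 : ℕ) : ℂ) ^ 2 * D.uh (((n + 1 : ℕ) : ℤ) • ((2 : ℤ) • (fr s - fr t)))‖ with hW
    have hWlim : Tendsto (fun M : ℕ => (M : ℝ)⁻¹ * ∑ n ∈ Finset.range M, W n) atTop (𝓝 0) := by
      have e1 : ∀ M : ℕ, (M : ℝ)⁻¹ * ∑ n ∈ Finset.range M, W n =
          ∑ s : Fin g ⊕ Fin g → Fin m, ∑ t : Fin g ⊕ Fin g → Fin m,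
          if s = t then 0 else 4 * ‖D.Jb (fr s - fr t) a‖ * ((M : ℝ)⁻¹ * ∑ n ∈ Finset.range M,
            ‖((n + 1 : ℕ) : ℂ) ^ 2 * D.uh (((n + 1 : ℕ) : ℤ) • ((2 : ℤ) • (fr s - fr t)))‖) := by
        intro M
        rw [hW]
        simp only
        rw [Finset.sum_comm, Finset.mul_sum]
        refine Finset.sum_congr rfl fun s _ => ?_
        rw [Finset.sum_comm, Finset.mul_sum]
        refine Finset.sum_congr rfl fun t _ => ?_
        split_ifs
        · simp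
        · rw [← Finset.mul_sum]
          ring
      simp_rw [e1]
      have e0 : (0 : ℝ) = ∑ _s : Fin g ⊕ Fin g → Fin m, ∑ _t : Fin g ⊕ Fin g → Fin m, (0 : ℝ) := by
        simp
      conv => arg 3; rw [e0]
      refine tendsto_finsetSum _ fun s _ => tendsto_finsetSum _ fun t _ => ?_
      by_cases hst : s = t
      · simp only [if_pos hst]
        exact tendsto_const_nhds
      · simp only [if_neg hst]
        have hk : (2 : ℤ) • (fr s - fr t) ≠ 0 := by
          intro h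
          rcases smul_eq_zero.1 h with h | h
          · exact absurd h (by norm_num)
          · exact fr_sub_ne hst h
        have := D.cesaro_abs hk fun s0 => (D.tr s0).good_of_not_flat hk fun hf =>
          hnf _ hk (D.tr_flat s0 hf)
        have h4 := this.const_mul (4 * ‖D.Jb (fr s - fr t) a‖)
        rw [mul_zero] at h4
        exact h4
    have hlim := (hWlim.const_add ((m : ℝ) ^ (2 * g) * |4 * a ^ 2 * QU|)).const_mul
      ((4 / (m : ℝ) ^ 2) ^ (2 * g))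
    rw [add_zero] at hlim
    have hev : ∀ᶠ M : ℕ in atTop, c.toReal * a ^ (2 * g) * (vU g ^ 2 * Real.log 2) ≤
        (4 / (m : ℝ) ^ 2) ^ (2 * g) * ((m : ℝ) ^ (2 * g) * |4 * a ^ 2 * QU| +
          (M : ℝ)⁻¹ * ∑ n ∈ Finset.range M, W n) := by
      filter_upwards [Filter.eventually_gt_atTop 0] with M hM
      have hM' : (0 : ℝ) < M := by exact_mod_cast hM
      have h8 : ∀ n, c.toReal * a ^ (2 * g) * (vU g ^ 2 * Real.log 2) ≤
          (4 / (m : ℝ) ^ 2) ^ (2 * g) * ((m : ℝ) ^ (2 * g) * |4 * a ^ 2 * QU| + W n) := fun n =>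
        (hlow n).trans (D.GG_tr_le (sn n) a)
      have h9 : c.toReal * a ^ (2 * g) * (vU g ^ 2 * Real.log 2) = (M : ℝ)⁻¹ *
          ∑ _n ∈ Finset.range M, (c.toReal * a ^ (2 * g) * (vU g ^ 2 * Real.log 2)) := by
        rw [Finset.sum_const, Finset.card_range, nsmul_eq_mul]
        field_simp
      rw [h9]
      refine (mul_le_mul_of_nonneg_left (Finset.sum_le_sum fun n _ => h8 n)
        (by positivity)).trans (le_of_eq ?_)
      rw [← Finset.mul_sum, Finset.sum_add_distrib, Finset.sum_const, Finset.card_range,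
        nsmul_eq_mul]
      field_simp
    have h6 := ge_of_tendsto hlim hev
    refine h6.trans (le_of_eq ?_)
    rw [abs_mul, abs_of_nonneg (by positivity : (0 : ℝ) ≤ 4 * a ^ 2)]
  -- conclusion
  have hconst : ∀ m : ℕ, 0 < m → c.toReal * (vU g ^ 2 * Real.log 2) * (36 * R ^ 2) * (m : ℝ) ^ 2 ≤
      (24 * R) ^ (2 * g) * (4 * |QU|) := by
    intro m hm
    have hm' : (0 : ℝ) < m := by exact_mod_cast hm
    have h1 := key m hm
    have h2 : (0 : ℝ) < (6 * m * R) ^ (2 * g) * (36 * R ^ 2 * (m : ℝ) ^ 2) := by positivity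
    have h3 := mul_le_mul_of_nonneg_right h1 h2.le
    calc c.toReal * (vU g ^ 2 * Real.log 2) * (36 * R ^ 2) * (m : ℝ) ^ 2 =
        c.toReal * (1 / (6 * m * R)) ^ (2 * g) * (vU g ^ 2 * Real.log 2) *
          ((6 * m * R) ^ (2 * g) * (36 * R ^ 2 * (m : ℝ) ^ 2)) := by
          rw [one_div, inv_pow]
          have : (6 * (m : ℝ) * R) ^ (2 * g) ≠ 0 := by positivity
          field_simp
      _ ≤ _ := h3
      _ = (24 * R) ^ (2 * g) * (4 * |QU|) := by
          have e : (24 * R) ^ (2 * g) = (4 / (m : ℝ) ^ 2) ^ (2 * g) * (m : ℝ) ^ (2 * g) *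
              (6 * m * R) ^ (2 * g) := by
            rw [← mul_pow, ← mul_pow]
            congr 1
            field_simp
            ring
          rw [e]
          field_simp
          ring
  have hpos : 0 < c.toReal * (vU g ^ 2 * Real.log 2) * (36 * R ^ 2) := by positivity
  obtain ⟨m, hm⟩ := exists_nat_gt ((24 * R) ^ (2 * g) * (4 * |QU|) /
    (c.toReal * (vU g ^ 2 * Real.log 2) * (36 * R ^ 2)))
  have hm1 : (m : ℝ) < (m + 1 : ℕ) := by exact_mod_cast Nat.lt_succ_self m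
  have h4 := hconst (m + 1) (Nat.succ_pos m)
  rw [div_lt_iff₀ hpos] at hm
  have h5 : ((m + 1 : ℕ) : ℝ) ≤ ((m + 1 : ℕ) : ℝ) ^ 2 := by
    have : (1 : ℝ) ≤ ((m + 1 : ℕ) : ℝ) := by
      push_cast
      linarith [Nat.cast_nonneg (α := ℝ) m]
    nlinarith
  have h6 : (m : ℝ) * (c.toReal * (vU g ^ 2 * Real.log 2) * (36 * R ^ 2)) ≤
      c.toReal * (vU g ^ 2 * Real.log 2) * (36 * R ^ 2) * ((m + 1 : ℕ) : ℝ) ^ 2 := by
    rw [mul_comm]
    exact mul_le_mul_of_nonneg_left (hm1.le.trans h5) hpos.le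
  linarith

end Dat

end Run7.h92
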