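import Pool.Agent.Run7.h92.CertC

/-!
# The certificate of the exceptional configuration in rank four
-/

namespace Run7.h92

open Matrix

variable {k r : ℕ}

/-- the twelve vectors -/
def L12 : List (Fin 4 → ℤ) :=
  [![1, 0, 0, 0], ![0, 1, 0, 0], ![0, 0, 1, 0], ![-1, -1, -1, 2], ![0, 0, 0, 1], ![-1, 0, 0, 1],
    ![0, -1, 0, 1], ![0, 0, -1, 1], ![-1, -1, 0, 1], ![-1, 0, -1, 1], ![0, -1, -1, 1],
    ![-1, -1, -1, 1]]

/-- the weights -/
def P4 (e : Fin 4 → ZMod 2) : ℕ :=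
  if e 0 = 0 ∧ e 1 = 0 ∧ e 2 = 0 then (if e 3 = 0 then 6 else 0) else
    if e 0 = 1 ∧ e 1 = 1 ∧ e 2 = 1 then 0 else 1

theorem D4_ge : ∀ b : Fin 4 → ZMod 2, b ≠ 0 →
    ∑ e, P4 e ≤ 3 * ∑ e, (if b ⬝ᵥ e = 1 then P4 e else 0) := by
  decide

theorem D4_eq : ∀ v ∈ L12, 3 * ∑ e, (if rd2 v ⬝ᵥ e = 1 then P4 e else 0) = ∑ e, P4 e := by
  decide

theorem D4_good : ∀ e : Fin 4 → ZMod 2, P4 e ≠ 0 → ∃ f : Fin 4 → Fin 2, ∀ v ∈ L12,
    |∑ i, v i * (if e i = 0 then 0 else (if f i = 0 then (-1 : ℤ) else 1))| ≤ 1 := by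
  decide

theorem rd2_neg (v : Fin r → ℤ) : rd2 (-v) = rd2 v := by
  funext i
  unfold rd2
  rw [Pi.neg_apply]
  push_cast
  have : ∀ z : ZMod 2, -z = z := by decide
  exact this _

/-- certificates only depend on the vectors up to sign -/
theorem Cert.sign {k' : ℕ} {V : Fin k → Fin r → ℤ} {P : (Fin r → ZMod 2) → ℕ} (h : Cert V P)
    {V' : Fin k' → Fin r → ℤ} (hV : ∀ l, ∃ l', V' l = V l' ∨ V' l = - V l') : Cert V' P where
  pos := h.pos
  ge := h.ge
  eq := fun l => by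
    obtain ⟨l', hl | hl⟩ := hV l
    · rw [hl]
      exact h.eq l'
    · rw [hl, rd2_neg]
      exact h.eq l'
  good := fun e he => by
    obtain ⟨β, hβ, hb⟩ := h.good e he
    refine ⟨β, hβ, fun l => ?_⟩
    obtain ⟨l', hl | hl⟩ := hV l
    · rw [hl]
      exact hb l'
    · rw [hl, neg_dotProduct, abs_neg]
      exact hb l'

theorem cert_D4 {V : Fin k → Fin 4 → ℤ} (h : ∀ l, V l ∈ L12 ∨ -V l ∈ L12) : Cert V P4 where
  pos := ⟨0, by decide⟩
  ge := D4_ge
  eq := fun l => by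
    rcases h l with h1 | h1
    · exact D4_eq _ h1
    · rw [← rd2_neg]
      exact D4_eq _ h1
  good := fun e he => by
    obtain ⟨f, hf⟩ := D4_good e he
    refine ⟨fun i => if e i = 0 then 0 else (if f i = 0 then (-1 : ℤ) else 1), ?_, fun l => ?_⟩
    · funext i
      unfold rd2
      beta_reduce
      rcases z2_cases (e i) with h1 | h1
      · rw [if_pos h1, h1]
        rfl
      · have h2 : ¬ e i = 0 := by rw [h1]; decide
        rw [if_neg h2, h1]
        split_ifs <;> decide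
    · rcases h l with h1 | h1
      · exact hf _ h1
      · have h2 := hf _ h1
        rw [← abs_neg, ← neg_dotProduct]
        exact h2

end Run7.h92
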