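import Mathlib

/-!
# Uniqueness of Fourier coefficients
-/

namespace Run7.h92

open Complex Real Set Filter Topology MeasureTheory

theorem fu_one {c : ℤ → ℂ} (hc : Summable c)
    (h : ∀ x : ℝ, ∑' n : ℤ, c n * cexp (2 * π * I * n * x) = 0) : ∀ n, c n = 0 := by
  have hcn : Summable fun n => ‖c n‖ := hc.norm
  set F : ℤ → C(UnitAddCircle, ℂ) := fun n => c n • fourier n with hF
  have hFs : Summable F := by
    refine Summable.of_norm_bounded hcn fun n => ?_
    rw [hF]
    simp only
    rw [norm_smul, fourier_norm, mul_one]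
  have hF0 : ∑' n, F n = 0 := by
    ext x
    rw [← ContinuousMap.tsum_apply hFs]
    obtain ⟨y, rfl⟩ := QuotientAddGroup.mk_surjective x
    rw [ContinuousMap.zero_apply, ← h y]
    refine tsum_congr fun n => ?_
    rw [hF]
    simp only [ContinuousMap.smul_apply, smul_eq_mul]
    congr 1
    have := fourier_coe_apply (T := (1 : ℝ)) (n := n) (x := y)
    refine this.trans ?_
    congr 1
    push_cast
    ring
  intro m
  have h1 : HasSum F 0 := by
    rw [← hF0]
    exact hFs.hasSum
  have h2 : HasSum (fun n => c n • fourierLp (T := (1 : ℝ)) 2 n) 0 := by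
    have := h1.mapL (ContinuousMap.toLp (E := ℂ) 2 AddCircle.haarAddCircle ℂ)
    rw [map_zero] at this
    simpa [hF] using this
  have h3 := h2.mapL (innerSL ℂ (fourierLp (T := (1 : ℝ)) 2 m))
  rw [map_zero] at h3
  have h4 : HasSum (fun n => if n = m then c m else 0) 0 := by
    refine h3.congr_fun ?_
    intro n
    rw [innerSL_apply_apply, inner_smul_right, orthonormal_iff_ite.1 orthonormal_fourier]
    by_cases hnm : n = m
    · simp [hnm]
    · simp [hnm, Ne.symm hnm]
  have h5 := hasSum_ite_eq m (c m)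
  exact h5.unique h4

theorem fu {g : ℕ} : ∀ {c : (Fin g → ℤ) → ℂ}, Summable c →
    (∀ x : Fin g → ℝ, ∑' n : Fin g → ℤ, c n * cexp (2 * π * I * ∑ i, (n i : ℂ) * x i) = 0) →
    ∀ n, c n = 0 := by
  induction g with
  | zero =>
    intro c _ h n
    have h1 := h 0
    rw [tsum_eq_single n (fun m hm => absurd (Subsingleton.elim m n) hm)] at h1
    simpa using h1
  | succ g ih =>
    intro c hc h n
    set e : ℤ × (Fin g → ℤ) ≃ (Fin (g + 1) → ℤ) := Fin.consEquiv (fun _ => ℤ) with he
    have he' : ∀ p, e p = (Fin.cons p.1 p.2 : Fin (g + 1) → ℤ) := fun p => rfl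
    have hcs : Summable fun p => c (e p) := e.summable_iff.2 hc
    have hcf : ∀ a, Summable fun n => c (e (a, n)) := fun a => hcs.prod_factor a
    have hb : ∀ (x : ℝ) (t : ℂ), ‖t * cexp (2 * π * I * (x : ℂ))‖ = ‖t‖ := by
      intro x t
      rw [norm_mul, show (2 * π * I * (x : ℂ)) = ((2 * π * x : ℝ) : ℂ) * I by push_cast; ring,
        Complex.norm_exp_ofReal_mul_I, mul_one]
    have hbs : ∀ (m : Fin g → ℤ) (x : Fin g → ℝ),
        ∑ i, (m i : ℂ) * x i = ((∑ i, (m i : ℝ) * x i : ℝ) : ℂ) := by
      intro m x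
      push_cast
      rfl
    have key : ∀ (x' : Fin g → ℝ) (a : ℤ),
        ∑' n : Fin g → ℤ, c (e (a, n)) * cexp (2 * π * I * ∑ i, (n i : ℂ) * x' i) = 0 := by
      intro x'
      have hs : Summable fun p : ℤ × (Fin g → ℤ) =>
          c (e p) * cexp (2 * π * I * ∑ i, (p.2 i : ℂ) * x' i) := by
        refine Summable.of_norm ?_
        refine hcs.norm.congr fun p => ?_
        rw [hbs, hb]
      refine fu_one hs.prod ?_
      intro x
      have h1 := h (Fin.cons x x')
      rw [← e.tsum_eq] at h1
      have e1 : ∀ p, c (e p) * cexp (2 * π * I * ∑ i, ((e p i : ℤ) : ℂ) *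
          ((Fin.cons x x' : Fin (g + 1) → ℝ) i : ℂ)) =
          c (e p) * cexp (2 * π * I * ∑ i, (p.2 i : ℂ) * x' i) * cexp (2 * π * I * p.1 * x) := by
        intro p
        rw [mul_assoc (c (e p)), ← Complex.exp_add, he', Fin.sum_univ_succ]
        simp only [Fin.cons_zero, Fin.cons_succ]
        congr 2
        ring
      simp only [e1] at h1
      have hs2 : Summable fun p : ℤ × (Fin g → ℤ) =>
          c (e p) * cexp (2 * π * I * ∑ i, (p.2 i : ℂ) * x' i) * cexp (2 * π * I * p.1 * x) := by
        refine Summable.of_norm ?_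
        refine hs.norm.congr fun p => ?_
        rw [show (2 * π * I * p.1 * x : ℂ) = 2 * π * I * (((p.1 : ℝ) * x : ℝ) : ℂ) by
          push_cast; ring, hb]
      rw [hs2.tsum_prod] at h1
      rw [← h1]
      refine tsum_congr fun a => ?_
      exact tsum_mul_right.symm
    have h2 := ih (hcf (n 0)) (fun x' => key x' (n 0)) (Fin.tail n)
    rw [he'] at h2
    simpa using h2

end Run7.h92
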