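import Pool.Agent.Run7.h92.Wt

/-!
# Moves
-/

namespace Run7.h92

open Matrix Complex

variable {g : ℕ}

/-- the pairing -/
def dp {N : ℕ} (u x : CN N g) : ZMod N := u.1 ⬝ᵥ x.1 + u.2 ⬝ᵥ x.2

/-- the corrected pairing -/
def bq {N : ℕ} (n : ℕ) (u x : CN N g) : ZMod N := dp u x + n * (u.1 ⬝ᵥ u.2) + n

/-- the properties of the action of a symplectic matrix on characteristics -/
def Mv (N n : ℕ) (M : Z2 g) : Prop :=
  ∃ (σ : CN N g ≃ CN N g) (ρ : CN N g → CN N g),
    (∀ τ ∈ HH g, ∀ x, FF N (act M τ) x = (aut M τ).det ^ (12 * N ^ 2) * FF N τ (σ x)) ∧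
    (∀ u x, bq n u (σ x) = bq n (ρ u) x) ∧ (∀ (k : ZMod N) u, ρ (k • u) = k • ρ u) ∧
    (∀ u, ρ u = 0 → u = 0)

theorem Mv_one (N n : ℕ) : Mv N n (1 : Z2 g) := by
  refine ⟨Equiv.refl _, id, ?_, fun _ _ => rfl, fun _ _ => rfl, fun _ h => h⟩
  intro τ _ x
  rw [aut_one, act_one, det_one, one_pow, one_mul]
  rfl

theorem Mv_mul {N n : ℕ} {M N' : Z2 (g + 1)} (_hM : M ∈ GG (g + 1)) (hN : N' ∈ GG (g + 1))
    (h1 : Mv N n M) (h2 : Mv N n N') : Mv N n (M * N') := by
  obtain ⟨σ, ρ, a1, a2, a3, a4⟩ := h1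
  obtain ⟨σ', ρ', b1, b2, b3, b4⟩ := h2
  refine ⟨σ.trans σ', ρ ∘ ρ', ?_, ?_, ?_, ?_⟩
  · intro τ hτ x
    obtain ⟨c1, c2⟩ := gg_HH N' hN τ hτ
    rw [act_mul c1, a1 _ c2, b1 _ hτ, (num_act c1).2, det_mul, mul_pow]
    simp only [Equiv.trans_apply]
    ring
  · intro u x
    simp only [Equiv.trans_apply, Function.comp_apply]
    rw [b2, a2]
  · intro k u
    simp only [Function.comp_apply]
    rw [b3, a3]
  · intro u hu
    exact b4 u (a4 _ hu)

/-- integer matrices modulo `N` -/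
def zm (N : ℕ) (A : Matrix (Fin g) (Fin g) ℤ) : Matrix (Fin g) (Fin g) (ZMod N) :=
  A.map (Int.cast : ℤ → ZMod N)

theorem zm_mul (N : ℕ) (A B : Matrix (Fin g) (Fin g) ℤ) : zm N (A * B) = zm N A * zm N B :=
  Matrix.map_mul (L := A) (M := B) (f := Int.castRingHom (ZMod N))

theorem zm_one (N : ℕ) : zm N (1 : Matrix (Fin g) (Fin g) ℤ) = 1 := by
  ext i j
  simp only [zm, map_apply, Matrix.one_apply]
  split_ifs <;> simp

theorem zm_mulVec (N : ℕ) (A : Matrix (Fin g) (Fin g) ℤ) (a : Fin g → ℤ) :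
    zm N A *ᵥ (fun i => ((a i : ℤ) : ZMod N)) = fun i => (((A *ᵥ a) i : ℤ) : ZMod N) := by
  funext i
  simp only [zm, mulVec, dotProduct, map_apply]
  push_cast
  rfl

theorem n_two {N n : ℕ} (hn : N = 2 * n) : (n : ZMod N) * 2 = 0 := by
  have : ((2 * n : ℕ) : ZMod N) = 0 := by rw [← hn]; exact ZMod.natCast_self N
  rw [← this]
  push_cast
  ring

theorem parity_mod {N n : ℕ} [NeZero N] (hn : N = 2 * n) {B : Matrix (Fin g) (Fin g) ℤ}
    (hB : Bᵀ = B) (q : Fin g → ZMod N) :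
    (n : ZMod N) * ((zm N B *ᵥ q) ⬝ᵥ q) = n * (q ⬝ᵥ fun i => ((B i i : ℤ) : ZMod N)) := by
  have hBs : ∀ i j, B i j = B j i := fun i j => by
    have := congrFun (congrFun hB i) j
    rw [transpose_apply] at this
    exact this.symm
  set m : Fin g → ℤ := fun i => ((q i).val : ℤ) with hm
  have hq : q = fun i => ((m i : ℤ) : ZMod N) := by
    funext i
    simp [hm]
  obtain ⟨k, hk⟩ := parity g (fun i j => B i j) hBs m
  rw [hq, zm_mulVec]
  have e1 : ((fun i => (((B *ᵥ m) i : ℤ) : ZMod N)) ⬝ᵥ fun i => ((m i : ℤ) : ZMod N)) =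
      ((∑ i, ∑ j, m i * B i j * m j : ℤ) : ZMod N) := by
    simp only [dotProduct, mulVec]
    push_cast
    refine Finset.sum_congr rfl fun i _ => ?_
    rw [Finset.sum_mul]
    exact Finset.sum_congr rfl fun j _ => by ring
  have e2 : ((fun i => ((m i : ℤ) : ZMod N)) ⬝ᵥ fun i => ((B i i : ℤ) : ZMod N)) =
      ((∑ i, B i i * m i : ℤ) : ZMod N) := by
    simp only [dotProduct]
    push_cast
    exact Finset.sum_congr rfl fun j _ => by ring
  rw [e1, e2, hk]
  push_cast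
  have := n_two hn
  linear_combination (k : ZMod N) * this

theorem Mv_TB {N n : ℕ} [NeZero N] (hn : N = 2 * n) {B : Matrix (Fin g) (Fin g) ℤ}
    (hB : Bᵀ = B) : Mv N n (TB B) := by
  set d : Fin g → ZMod N := fun i => n * ((B i i : ℤ) : ZMod N) with hd
  have hzs : (zm N B)ᵀ = zm N B := by
    unfold zm
    rw [← transpose_map, hB]
  refine ⟨⟨fun x => (x.1, x.2 + zm N B *ᵥ x.1 + d), fun x => (x.1, x.2 - zm N B *ᵥ x.1 - d), ?_, ?_⟩,
    fun u => (u.1 + zm N B *ᵥ u.2, u.2), ?_, ?_, ?_, ?_⟩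
  · intro x
    refine Prod.ext rfl ?_
    funext i
    simp only [Pi.add_apply, Pi.sub_apply]
    ring
  · intro x
    refine Prod.ext rfl ?_
    funext i
    simp only [Pi.add_apply, Pi.sub_apply]
    ring
  · intro τ _ x
    rw [aut_TB, act_TB, det_one, one_pow, one_mul]
    obtain ⟨a, b, rfl⟩ := exists_rd N x
    rw [FF_rd, Fz_T hn hB, ← FF_rd]
    congr 1
    unfold rd
    simp only [Equiv.coe_fn_mk]
    rw [zm_mulVec]
    ext i
    · rfl
    · simp [mulVec, dotProduct, hd]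
  · intro u x
    simp only [Equiv.coe_fn_mk, bq, dp]
    rw [dotProduct_add, dotProduct_add, add_dotProduct, add_dotProduct, mul_add,
      parity_mod hn hB u.2]
    have e1 : u.2 ⬝ᵥ zm N B *ᵥ x.1 = (zm N B *ᵥ u.2) ⬝ᵥ x.1 := by
      rw [dotProduct_mulVec, ← mulVec_transpose, hzs]
    have e2 : u.2 ⬝ᵥ d = n * (u.2 ⬝ᵥ fun i => ((B i i : ℤ) : ZMod N)) := by
      rw [hd]
      simp only [dotProduct, Finset.mul_sum]
      exact Finset.sum_congr rfl fun j _ => by ring
    rw [e1, e2]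
    ring
  · intro k u
    ext i
    · simp [mulVec_smul]
    · simp
  · intro u hu
    have h1 : u.2 = 0 := congrArg Prod.snd hu
    have h2 : u.1 + zm N B *ᵥ u.2 = 0 := congrArg Prod.fst hu
    rw [h1, mulVec_zero, add_zero] at h2
    exact Prod.ext h2 h1

theorem Mv_RU {N n : ℕ} [NeZero N] {U V : Matrix (Fin g) (Fin g) ℤ}
    (h1 : U * V = 1) (h2 : V * U = 1) : Mv N n (RU U V) := by
  have z1 : zm N U * zm N V = 1 := by rw [← zm_mul, h1, zm_one]
  have z2 : zm N V * zm N U = 1 := by rw [← zm_mul, h2, zm_one]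
  have z3 : (zm N U)ᵀ * (zm N V)ᵀ = 1 := by rw [← transpose_mul, z2, transpose_one]
  have z4 : (zm N V)ᵀ * (zm N U)ᵀ = 1 := by rw [← transpose_mul, z1, transpose_one]
  refine ⟨⟨fun x => ((zm N U)ᵀ *ᵥ x.1, zm N V *ᵥ x.2), fun x => ((zm N V)ᵀ *ᵥ x.1, zm N U *ᵥ x.2),
    ?_, ?_⟩, fun u => (zm N U *ᵥ u.1, (zm N V)ᵀ *ᵥ u.2), ?_, ?_, ?_, ?_⟩
  · intro x
    simp only [mulVec_mulVec, z4, z1, one_mulVec]
  · intro x
    simp only [mulVec_mulVec, z3, z2, one_mulVec]
  · intro τ _ x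
    obtain ⟨a, b, rfl⟩ := exists_rd N x
    have hdet : ((ci V)ᵀ.det) ^ (12 * N ^ 2) = 1 := by
      rw [det_transpose]
      have e1 : (ci V).det = ((V.det : ℤ) : ℂ) := by
        unfold ci
        have := (Int.castRingHom ℂ).map_det V
        exact this.symm
      have e2 : IsUnit V.det := by
        rw [← Matrix.isUnit_iff_isUnit_det]
        exact IsUnit.of_mul_eq_one _ h2
      rw [e1, pow_mul]
      rcases Int.isUnit_iff.1 e2 with h | h
      · rw [h]; simp
      · rw [h]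
        push_cast
        rw [show ((-1 : ℂ)) ^ 12 = 1 by norm_num, one_pow]
    rw [aut_RU, act_RU h1, hdet, one_mul, FF_rd, Fz_R τ h1 h2, ← FF_rd]
    congr 1
    unfold rd
    simp only [Equiv.coe_fn_mk]
    rw [zm_mulVec]
    have : (zm N U)ᵀ = zm N Uᵀ := by
      unfold zm
      rw [transpose_map]
    rw [this, zm_mulVec]
  · intro u x
    simp only [Equiv.coe_fn_mk, bq, dp]
    have e1 : u.1 ⬝ᵥ (zm N U)ᵀ *ᵥ x.1 = (zm N U *ᵥ u.1) ⬝ᵥ x.1 := by
      rw [dotProduct_mulVec, ← mulVec_transpose, transpose_transpose]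
    have e2 : u.2 ⬝ᵥ zm N V *ᵥ x.2 = ((zm N V)ᵀ *ᵥ u.2) ⬝ᵥ x.2 := by
      rw [dotProduct_mulVec, ← mulVec_transpose]
    have e3 : (zm N U *ᵥ u.1) ⬝ᵥ ((zm N V)ᵀ *ᵥ u.2) = u.1 ⬝ᵥ u.2 := by
      rw [dotProduct_mulVec, ← mulVec_transpose, transpose_transpose, mulVec_mulVec, z2, one_mulVec]
    rw [e1, e2, e3]
  · intro k u
    ext i <;> simp [mulVec_smul]
  · intro u hu
    have h3 : zm N U *ᵥ u.1 = 0 := congrArg Prod.fst hu
    have h4 : (zm N V)ᵀ *ᵥ u.2 = 0 := congrArg Prod.snd hu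
    have h5 := congrArg (fun v => zm N V *ᵥ v) h3
    have h6 := congrArg (fun v => (zm N U)ᵀ *ᵥ v) h4
    simp only [mulVec_mulVec, z2, z3, one_mulVec, mulVec_zero] at h5 h6
    exact Prod.ext h5 h6

theorem dot_update {R : Type*} [CommRing R] (p a : Fin (g + 1) → R) (s t : R) :
    (Function.update p 0 s) ⬝ᵥ (Function.update a 0 t) = s * t + ∑ i : Fin g, p i.succ * a i.succ := by
  simp only [dotProduct, Fin.sum_univ_succ, Function.update_self]
  congr 1

theorem dot_update_left {R : Type*} [CommRing R] (p a : Fin (g + 1) → R) (s : R) :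
    (Function.update p 0 s) ⬝ᵥ a = s * a 0 + ∑ i : Fin g, p i.succ * a i.succ := by
  simp only [dotProduct, Fin.sum_univ_succ, Function.update_self]
  congr 1

theorem dot_update_right {R : Type*} [CommRing R] (p a : Fin (g + 1) → R) (t : R) :
    p ⬝ᵥ (Function.update a 0 t) = p 0 * t + ∑ i : Fin g, p i.succ * a i.succ := by
  simp only [dotProduct, Fin.sum_univ_succ, Function.update_self]
  congr 1

theorem Mv_JI {N n : ℕ} [NeZero N] (hn : N = 2 * n) : Mv N n (JI 0 : Z2 (g + 1)) := by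
  refine ⟨⟨fun x => (Function.update x.1 0 (x.2 0), Function.update x.2 0 (-x.1 0)),
    fun x => (Function.update x.1 0 (-x.2 0), Function.update x.2 0 (x.1 0)), ?_, ?_⟩,
    fun u => (Function.update u.1 0 (-u.2 0), Function.update u.2 0 (u.1 0)), ?_, ?_, ?_, ?_⟩
  · intro x
    simp
  · intro x
    simp
  · intro τ hτ x
    obtain ⟨a, b, rfl⟩ := exists_rd N x
    rw [det_aut_JI, act_JI hτ.1 (HH_00 hτ), FF_rd, Fz_J hτ, ← FF_rd]
    congr 2
    unfold rd
    simp only [Equiv.coe_fn_mk]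
    ext i <;> by_cases hi : i = 0
    · subst hi; simp
    · simp [hi]
    · subst hi; simp
    · simp [hi]
  · intro u x
    simp only [Equiv.coe_fn_mk, bq, dp]
    rw [dot_update_right, dot_update_right, dot_update_left, dot_update_left, dot_update]
    have e : ∀ p a : Fin (g + 1) → ZMod N, p ⬝ᵥ a = p 0 * a 0 + ∑ i : Fin g, p i.succ * a i.succ := by
      intro p a
      simp only [dotProduct, Fin.sum_univ_succ]
    rw [e u.1 u.2]
    have := n_two hn
    linear_combination (u.1 0 * u.2 0) * this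
  · intro k u
    ext i <;> by_cases hi : i = 0
    · subst hi; simp
    · simp [hi]
    · subst hi; simp
    · simp [hi]
  · intro u hu
    have h1 : Function.update u.1 0 (-u.2 0) = 0 := congrArg Prod.fst hu
    have h2 : Function.update u.2 0 (u.1 0) = 0 := congrArg Prod.snd hu
    ext i <;> by_cases hi : i = 0
    · subst hi
      have := congrFun h2 0
      simpa using this
    · have := congrFun h1 i
      simpa [hi] using this
    · subst hi
      have := congrFun h1 0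
      simpa using this
    · have := congrFun h2 i
      simpa [hi] using this

theorem Mv_all {N n : ℕ} [NeZero N] (hn : N = 2 * n) : ∀ M ∈ GG (g + 1), Mv N n M :=
  gg_ind (Mv_one N n) (fun _ _ hM hN h1 h2 => Mv_mul hM hN h1 h2) (fun _ hB => Mv_TB hn hB)
    (fun _ _ h1 h2 => Mv_RU h1 h2) (Mv_JI hn)

end Run7.h92
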