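import Pool.Agent.Run7.h92.Bern
import Pool.Agent.Run7.h92.Mv

/-!
# Good weights
-/

namespace Run7.h92

open Matrix Complex

variable {g : ℕ}

/-- almost uniform weights -/
def QQ {N : ℕ} [NeZero N] (w : CN N g → ℕ) : Prop :=
  ∀ u : CN N g, u ≠ 0 →
    ‖∑ x, (w x : ℂ) * ps (dp u x)‖ * ((N : ℝ) ^ 2 - 1) ≤ ∑ x, (w x : ℝ)

/-- the matrix admits an almost uniform weight supported at nonvanishing theta constants -/
def GoodN (N : ℕ) [NeZero N] (τ : MM g) : Prop :=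
  ∃ w : CN N g → ℕ, (∃ x, w x ≠ 0) ∧ (∀ x, w x ≠ 0 → FF N τ x ≠ 0) ∧ QQ w

theorem dp_smul {N : ℕ} (k : ZMod N) (u x : CN N g) : dp (k • u) x = k * dp u x := by
  unfold dp
  simp only [Prod.smul_fst, Prod.smul_snd, smul_dotProduct, smul_eq_mul]
  ring

theorem dp_zero {N : ℕ} (x : CN N g) : dp 0 x = 0 := by
  unfold dp
  simp

theorem GoodN_act {N n : ℕ} [NeZero N] (hn : N = 2 * n) {M : Z2 (g + 1)} (hM : M ∈ GG (g + 1))
    {τ : MM (g + 1)} (hτ : τ ∈ HH (g + 1)) (h : GoodN N (act M τ)) : GoodN N τ := by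
  obtain ⟨σ, ρ, a1, a2, a3, a4⟩ := Mv_all hn M hM
  obtain ⟨w, ⟨x0, hx0⟩, h2, h3⟩ := h
  refine ⟨fun x => w (σ.symm x), ⟨σ x0, by simpa using hx0⟩, ?_, ?_⟩
  · intro x hx
    have h4 := h2 _ hx
    rw [a1 τ hτ, Equiv.apply_symm_apply] at h4
    exact right_ne_zero_of_mul h4
  · intro u hu
    have hρ : ρ u ≠ 0 := fun h => hu (a4 u h)
    have e1 : ∑ x, (w (σ.symm x) : ℂ) * ps (dp u x) = ∑ x, (w x : ℂ) * ps (dp u (σ x)) := by
      rw [← σ.sum_comp]
      simp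
    have e2 : ∑ x, ((w (σ.symm x) : ℕ) : ℝ) = ∑ x, (w x : ℝ) := by
      rw [← σ.sum_comp]
      simp
    have e3 : ∀ x, dp u (σ x) = dp (ρ u) x +
        (n * ((ρ u).1 ⬝ᵥ (ρ u).2) - n * (u.1 ⬝ᵥ u.2)) := by
      intro x
      have := a2 u x
      unfold bq at this
      linear_combination this
    rw [e1, e2]
    simp_rw [e3, ps_add]
    have e4 : ∑ x, (w x : ℂ) * (ps (dp (ρ u) x) *
        ps ((n : ZMod N) * ((ρ u).1 ⬝ᵥ (ρ u).2) - (n : ZMod N) * (u.1 ⬝ᵥ u.2))) =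
        (∑ x, (w x : ℂ) * ps (dp (ρ u) x)) *
          ps ((n : ZMod N) * ((ρ u).1 ⬝ᵥ (ρ u).2) - (n : ZMod N) * (u.1 ⬝ᵥ u.2)) := by
      rw [Finset.sum_mul]
      exact Finset.sum_congr rfl fun x _ => by ring
    rw [e4, norm_mul, norm_ps, mul_one]
    exact h3 _ hρ

theorem sum_dp {N : ℕ} [NeZero N] {u : CN N g} (hu : u ≠ 0) : ∑ x : CN N g, ps (dp u x) = 0 := by
  obtain ⟨y, hy⟩ : ∃ y, dp u y ≠ 0 := by
    by_contra h
    push Not at h
    apply hu
    ext i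
    · have := h (Pi.single i 1, 0)
      simpa [dp] using this
    · have := h (0, Pi.single i 1)
      simpa [dp] using this
  have h1 : ∑ x : CN N g, ps (dp u x) = ps (dp u y) * ∑ x : CN N g, ps (dp u x) := by
    rw [Finset.mul_sum, ← Equiv.sum_comp (Equiv.addRight y)]
    refine Finset.sum_congr rfl fun x _ => ?_
    rw [← ps_add]
    congr 1
    simp only [Equiv.coe_addRight, dp, Prod.fst_add, Prod.snd_add, dotProduct_add]
    ring
  have h2 : (1 - ps (dp u y)) * ∑ x : CN N g, ps (dp u x) = 0 := by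
    linear_combination h1
  rcases mul_eq_zero.1 h2 with h3 | h3
  · exact absurd (sub_eq_zero.1 h3).symm (ps_ne_one hy)
  · exact h3

theorem card_CN {N : ℕ} [NeZero N] : Fintype.card (CN N g) = N ^ (2 * g) := by
  rw [Fintype.card_prod, Fintype.card_fun, ZMod.card, Fintype.card_fin, two_mul, pow_add]

/-- a general criterion -/
theorem QQ_of_few {N : ℕ} [NeZero N] (P : CN N g → Prop) [DecidablePred P]
    (h : (Finset.univ.filter fun x => ¬ P x).card * N ^ 2 ≤ N ^ (2 * g)) :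
    QQ (fun x => if P x then 1 else 0 : CN N g → ℕ) := by
  intro u hu
  set Z := Finset.univ.filter fun x => ¬ P x with hZ
  have h1 : ∑ x : CN N g, ((if P x then 1 else 0 : ℕ) : ℂ) * ps (dp u x) =
      -∑ x ∈ Z, ps (dp u x) := by
    have h2 : ∑ x : CN N g, ps (dp u x) = ∑ x : CN N g, ((if P x then 1 else 0 : ℕ) : ℂ) *
        ps (dp u x) + ∑ x ∈ Z, ps (dp u x) := by
      rw [hZ, Finset.sum_filter, ← Finset.sum_add_distrib]
      refine Finset.sum_congr rfl fun x _ => ?_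
      by_cases hx : P x <;> simp [hx]
    rw [sum_dp hu] at h2
    linear_combination -h2
  have h2 : ∑ x : CN N g, ((if P x then 1 else 0 : ℕ) : ℝ) = (N : ℝ) ^ (2 * g) - Z.card := by
    have h3 : ∑ x : CN N g, (1 : ℝ) = ∑ x : CN N g, ((if P x then 1 else 0 : ℕ) : ℝ) +
        ∑ x ∈ Z, (1 : ℝ) := by
      rw [hZ, Finset.sum_filter, ← Finset.sum_add_distrib]
      refine Finset.sum_congr rfl fun x _ => ?_
      by_cases hx : P x <;> simp [hx]
    rw [Finset.sum_const, Finset.sum_const, Finset.card_univ, card_CN, nsmul_eq_mul, nsmul_eq_mul,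
      mul_one, mul_one] at h3
    push_cast at h3
    push_cast
    linarith
  have h4 : ‖∑ x ∈ Z, ps (dp u x)‖ ≤ Z.card := by
    refine (norm_sum_le _ _).trans ?_
    simp_rw [norm_ps]
    simp
  have h5 : (Z.card : ℝ) * (N : ℝ) ^ 2 ≤ (N : ℝ) ^ (2 * g) := by exact_mod_cast h
  have hN1 : (1 : ℝ) ≤ N := by exact_mod_cast NeZero.one_le
  have hN : 0 ≤ (N : ℝ) ^ 2 - 1 := by nlinarith
  rw [h1, norm_neg, h2]
  calc ‖∑ x ∈ Z, ps (dp u x)‖ * ((N : ℝ) ^ 2 - 1) ≤ Z.card * ((N : ℝ) ^ 2 - 1) := by gcongr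
    _ ≤ _ := by linarith

theorem exists_of_few {N : ℕ} [NeZero N] (hN : 2 ≤ N) (P : CN N g → Prop) [DecidablePred P]
    (h : (Finset.univ.filter fun x => ¬ P x).card * N ^ 2 ≤ N ^ (2 * g)) : ∃ x, P x := by
  by_contra hcon
  push Not at hcon
  have h1 : (Finset.univ.filter fun x => ¬ P x) = Finset.univ := by
    ext x; simp [hcon x]
  rw [h1, Finset.card_univ, card_CN] at h
  have h2 : 0 < N ^ (2 * g) := Nat.pos_of_ne_zero (pow_ne_zero _ (by omega))
  have h3 : 4 ≤ N ^ 2 := by nlinarith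
  nlinarith

theorem GoodN_of_few {N : ℕ} [NeZero N] (hN : 2 ≤ N) {τ : MM g}
    (h : (Finset.univ.filter fun x : CN N g => ¬ FF N τ x ≠ 0).card * N ^ 2 ≤ N ^ (2 * g)) :
    GoodN N τ := by
  classical
  refine ⟨fun x => if FF N τ x ≠ 0 then 1 else 0, ?_, ?_, ?_⟩
  · obtain ⟨x, hx⟩ := exists_of_few hN (fun x : CN N g => FF N τ x ≠ 0) (by convert h)
    exact ⟨x, by simp [hx]⟩
  · intro x hx
    by_contra hcon
    simp [hcon] at hx
  · convert QQ_of_few (fun x : CN N g => FF N τ x ≠ 0) (by convert h)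

/-- the inequality for good weights -/
theorem QQ_ineq {N n : ℕ} [NeZero N] (hn : N = 2 * n) {w : CN N g → ℕ} (hw : QQ w) {u : CN N g}
    (hu : ∀ k : ZMod N, k ≠ 0 → k • u ≠ 0) :
    (∑ x, (w x : ℝ)) / 12 ≤ ∑ x, (w x : ℝ) * gf (bq n u x) := by
  have hN : 2 ≤ N := by
    have := NeZero.ne N
    omega
  refine bern_ineq hN Finset.univ (fun x => (w x : ℝ)) (fun x => bq n u x) ?_
  intro k hk
  have h1 : ∑ x, ((w x : ℝ) : ℂ) * ps (bq n u x * k) =
      (∑ x, (w x : ℂ) * ps (dp (k • u) x)) *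
        ps (((n : ZMod N) * (u.1 ⬝ᵥ u.2) + (n : ZMod N)) * k) := by
    rw [Finset.sum_mul]
    refine Finset.sum_congr rfl fun x _ => ?_
    rw [mul_assoc, ← ps_add, dp_smul]
    unfold bq
    push_cast
    congr 2
    ring
  rw [h1, norm_mul, norm_ps, mul_one]
  exact hw _ (hu k hk)

end Run7.h92
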