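import Pool.Agent.Run7.h92.Count2
import Pool.Agent.Run7.h92.FU
import Pool.Agent.Run7.h92.Good

/-!
# The theta divisor as data on a torus; flatness
-/

namespace Run7.h92

open Matrix Complex

variable {g : ℕ}

/-- the real linear map `(ε, δ) ↦ τ ε + δ` -/
noncomputable def Alin (τ : MM g) : XX g →ₗ[ℝ] (Fin g → ℂ) where
  toFun x := fun i => (x (Sum.inr i) : ℂ) + ∑ j, τ i j * (x (Sum.inl j) : ℂ)
  map_add' x y := by
    funext i
    simp only [Pi.add_apply]
    push_cast
    simp only [mul_add, Finset.sum_add_distrib]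
    ring
  map_smul' c x := by
    funext i
    simp only [Pi.smul_apply, smul_eq_mul, RingHom.id_apply, Complex.real_smul]
    push_cast
    rw [mul_add, Finset.mul_sum]
    congr 1
    exact Finset.sum_congr rfl fun j _ => by ring

theorem Alin_inj {τ : MM g} (hτ : τ ∈ HH g) : Function.Injective (Alin τ) := by
  obtain ⟨hs, c, hc, hLB⟩ := hτ
  rw [injective_iff_map_eq_zero]
  intro x hx
  have h1 : ∀ i, ∑ j, (τ i j).im * x (Sum.inl j) = 0 := by
    intro i
    have := congrArg Complex.im (congrFun hx i)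
    simp only [Alin, LinearMap.coe_mk, AddHom.coe_mk, Pi.zero_apply, Complex.add_im,
      Complex.ofReal_im, zero_add, Complex.im_sum, Complex.zero_im] at this
    rw [← this]
    refine Finset.sum_congr rfl fun j _ => ?_
    rw [mul_comm (τ i j), Complex.im_ofReal_mul, mul_comm]
  have h2 := hLB fun i => x (Sum.inl i)
  have h3 : ∑ i, ∑ j, x (Sum.inl i) * (τ i j).im * x (Sum.inl j) = 0 := by
    refine Finset.sum_eq_zero fun i _ => ?_
    have : ∑ j, x (Sum.inl i) * (τ i j).im * x (Sum.inl j) =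
        x (Sum.inl i) * ∑ j, (τ i j).im * x (Sum.inl j) := by
      rw [Finset.mul_sum]
      exact Finset.sum_congr rfl fun j _ => by ring
    rw [this, h1, mul_zero]
  have h4 : ∀ i, x (Sum.inl i) = 0 := by
    have h5 : ∑ i, x (Sum.inl i) ^ 2 = 0 := by
      refine le_antisymm ?_ (Finset.sum_nonneg fun i _ => sq_nonneg _)
      rw [h3] at h2
      by_contra hcon
      push Not at hcon
      have := mul_pos hc hcon
      linarith
    intro i
    have := (Finset.sum_eq_zero_iff_of_nonneg (fun i _ => sq_nonneg _)).1 h5 i (Finset.mem_univ i)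
    exact pow_eq_zero_iff (two_ne_zero) |>.1 this
  funext α
  rcases α with i | i
  · exact h4 i
  · have := congrArg Complex.re (congrFun hx i)
    simp only [Alin, LinearMap.coe_mk, AddHom.coe_mk, h4] at this
    simpa using this

/-- the real coordinates -/
noncomputable def AA {τ : MM g} (hτ : τ ∈ HH g) : XX g ≃ₗ[ℝ] (Fin g → ℂ) :=
  LinearMap.linearEquivOfInjective (Alin τ) (Alin_inj hτ) (by
    rw [Module.finrank_pi, Module.finrank_pi_fintype]
    simp [Complex.finrank_real_complex]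
    ring)

theorem AA_apply {τ : MM g} (hτ : τ ∈ HH g) (x : XX g) (i : Fin g) :
    AA hτ x i = (x (Sum.inr i) : ℂ) + ∑ j, τ i j * (x (Sum.inl j) : ℂ) := rfl

/-- the bilinear form -/
noncomputable def bT (τ : MM g) : XX g →ₗ[ℝ] XX g →ₗ[ℝ] ℝ :=
  LinearMap.mk₂ ℝ (fun x y => Real.pi * ∑ i, ∑ j, x (Sum.inl i) * (τ i j).im * y (Sum.inl j))
    (fun x y z => by
      simp only [Pi.add_apply, add_mul, Finset.sum_add_distrib, mul_add])
    (fun c x y => by
      simp only [Pi.smul_apply, smul_eq_mul, Finset.mul_sum]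
      exact Finset.sum_congr rfl fun i _ => Finset.sum_congr rfl fun j _ => by ring)
    (fun x y z => by
      simp only [Pi.add_apply, Finset.sum_add_distrib, mul_add])
    (fun c x y => by
      simp only [Pi.smul_apply, smul_eq_mul, Finset.mul_sum]
      exact Finset.sum_congr rfl fun i _ => Finset.sum_congr rfl fun j _ => by ring)

theorem bT_apply (τ : MM g) (x y : XX g) :
    bT τ x y = Real.pi * ∑ i, ∑ j, x (Sum.inl i) * (τ i j).im * y (Sum.inl j) := rfl

theorem norm_th {τ : MM g} (hτ : τ ∈ HH g) (x : XX g) :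
    ‖thc τ 0 (AA hτ x)‖ * Real.exp (-(bT τ x x)) =
      ‖th τ (fun i => x (Sum.inl i)) (fun i => x (Sum.inr i))‖ := by
  have h0 := thc_char hτ.1 (fun i => x (Sum.inl i)) (fun i => ((x (Sum.inr i) : ℝ) : ℂ))
  unfold th
  rw [h0, norm_mul, mul_comm]
  congr 1
  rw [Complex.norm_exp, bT_apply]
  congr 1
  have e1 : (∑ i, ∑ j, ((x (Sum.inl i) : ℝ) : ℂ) * τ i j * ((x (Sum.inl j) : ℝ) : ℂ)).im =
      ∑ i, ∑ j, x (Sum.inl i) * (τ i j).im * x (Sum.inl j) := by
    rw [Complex.im_sum]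
    refine Finset.sum_congr rfl fun i _ => ?_
    rw [Complex.im_sum]
    refine Finset.sum_congr rfl fun j _ => ?_
    have : ((x (Sum.inl i) : ℝ) : ℂ) * τ i j * ((x (Sum.inl j) : ℝ) : ℂ) =
      ((x (Sum.inl i) * x (Sum.inl j) : ℝ) : ℂ) * τ i j := by push_cast; ring
    rw [this, Complex.im_ofReal_mul]
    ring
  have e2 : ∑ i, ((x (Sum.inl i) : ℝ) : ℂ) * ((x (Sum.inr i) : ℝ) : ℂ) =
      ((∑ i, x (Sum.inl i) * x (Sum.inr i) : ℝ) : ℂ) := by
    push_cast
    rfl
  rw [e2, ← e1]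
  generalize (∑ i, ∑ j, ((x (Sum.inl i) : ℝ) : ℂ) * τ i j * ((x (Sum.inl j) : ℝ) : ℂ)) = S
  generalize (∑ i, x (Sum.inl i) * x (Sum.inr i)) = T
  simp [Complex.mul_re, Complex.mul_im]

theorem norm_th_add_left (τ : MM g) (ε δ : Fin g → ℝ) (m : Fin g → ℤ) :
    th τ (fun i => ε i + m i) δ = th τ ε δ := thc_shift_char τ ε _ m

theorem norm_th_add_right (τ : MM g) (ε δ : Fin g → ℝ) (m : Fin g → ℤ) :
    ‖th τ ε (fun i => δ i + m i)‖ = ‖th τ ε δ‖ := by
  unfold th
  have h2 : (fun i => ((δ i + m i : ℝ) : ℂ)) = fun i => (δ i : ℂ) + m i := by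
    funext i
    push_cast
    rfl
  rw [h2, thc_shift_z, norm_mul]
  have : ‖cexp (2 * Real.pi * I * ∑ i, (ε i : ℂ) * m i)‖ = 1 := by
    have e : (2 * Real.pi * I * ∑ i, (ε i : ℂ) * m i) =
        ((2 * Real.pi * ∑ i, ε i * m i : ℝ) : ℂ) * I := by
      push_cast
      ring
    rw [e, Complex.norm_exp_ofReal_mul_I]
  rw [this, one_mul]

theorem thc_ne {τ : MM g} (hτ : τ ∈ HH g) : ∃ z, thc τ 0 z ≠ 0 := by
  obtain ⟨hs, c, hc, hLB⟩ := hτ
  by_contra hcon
  push Not at hcon
  have h1 := fu (c := fun n => cexp (ex τ 0 0 n)) (summable_thc hc hLB 0 0) (by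
    intro x
    rw [← hcon (fun i => (x i : ℂ))]
    unfold thc
    congr 1
    funext n
    rw [← Complex.exp_add]
    congr 1
    unfold ex
    simp) 0
  exact Complex.exp_ne_zero _ h1

/-- the data attached to a point of the Siegel space -/
noncomputable def DT {τ : MM g} (hτ : τ ∈ HH g) : Dat g where
  A := AA hτ
  f := thc τ 0
  hf := by
    obtain ⟨hs, c, hc, hLB⟩ := hτ
    exact thc_diff_z hc hLB 0
  hne := thc_ne hτ
  b := bT τ
  per := by
    intro x m
    rw [norm_th hτ, norm_th hτ]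
    have h1 : (fun i => (x + iv m) (Sum.inl i)) = fun i => x (Sum.inl i) + (m (Sum.inl i) : ℝ) := rfl
    have h2 : (fun i => (x + iv m) (Sum.inr i)) = fun i => x (Sum.inr i) + (m (Sum.inr i) : ℝ) := rfl
    rw [h1, h2, norm_th_add_left τ (fun i => x (Sum.inl i)) _ (fun i => m (Sum.inl i)),
      norm_th_add_right τ _ (fun i => x (Sum.inr i)) (fun i => m (Sum.inr i))]

theorem th_zero_iff {τ : MM g} (hτ : τ ∈ HH g) (x : XX g) :
    th τ (fun i => x (Sum.inl i)) (fun i => x (Sum.inr i)) = 0 ↔ thc τ 0 (AA hτ x) = 0 := by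
  rw [← norm_eq_zero, ← norm_th hτ, mul_eq_zero, norm_eq_zero]
  simp [Real.exp_ne_zero]

/-- characteristics in the two forms -/
def cnv (N g : ℕ) [NeZero N] : (Fin g ⊕ Fin g → Fin N) ≃ CN N g :=
  (Equiv.sumArrowEquivProdArrow (Fin g) (Fin g) (Fin N)).trans
    (Equiv.prodCongr (Equiv.arrowCongr (Equiv.refl _) (ZMod.finEquiv N).toEquiv)
      (Equiv.arrowCongr (Equiv.refl _) (ZMod.finEquiv N).toEquiv))

theorem val_fin {N : ℕ} [NeZero N] (a : Fin N) : (ZMod.finEquiv N a).val = a.val := by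
  obtain ⟨n, rfl⟩ : ∃ n, N = n + 1 := ⟨N - 1, by have := NeZero.pos N; omega⟩
  rfl

theorem card_zero {N : ℕ} [NeZero N] {τ : MM g} (hτ : τ ∈ HH g) :
    (Finset.univ.filter fun x : CN N g => ¬ FF N τ x ≠ 0).card = ((DT hτ).Zs N).card := by
  classical
  symm
  refine Finset.card_bij (fun x _ => cnv N g x) ?_ ?_ ?_
  · intro x hx
    unfold Dat.Zs at hx
    rw [Finset.mem_filter] at hx ⊢
    refine ⟨Finset.mem_univ _, ?_⟩
    rw [not_not]
    unfold FF Fz
    have h1 := (th_zero_iff hτ (xiv x)).2 hx.2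
    have h2 : th τ (fun i => ((((cnv N g x).1 i).val : ℤ) : ℝ) / N)
        (fun i => ((((cnv N g x).2 i).val : ℤ) : ℝ) / N) = 0 := by
      rw [← h1]
      congr 1
      · funext i
        simp only [cnv, xiv]
        simp [Equiv.sumArrowEquivProdArrow, val_fin]
      · funext i
        simp only [cnv, xiv]
        simp [Equiv.sumArrowEquivProdArrow, val_fin]
    rw [h2]
    have := NeZero.pos N
    exact zero_pow (by positivity)
  · intro x _ y _ h
    exact (cnv N g).injective h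
  · intro y hy
    rw [Finset.mem_filter, not_not] at hy
    refine ⟨(cnv N g).symm y, ?_, by simp⟩
    unfold Dat.Zs
    rw [Finset.mem_filter]
    refine ⟨Finset.mem_univ _, ?_⟩
    show thc τ 0 (AA hτ _) = 0
    rw [← th_zero_iff hτ]
    have h1 := hy.2
    unfold FF Fz at h1
    have h2 := pow_eq_zero_iff (by have := NeZero.pos N; positivity) |>.1 h1
    rw [← h2]
    obtain ⟨x, rfl⟩ := (cnv N g).surjective y
    rw [Equiv.symm_apply_apply]
    congr 1
    · funext i
      simp only [cnv, xiv]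
      simp [Equiv.sumArrowEquivProdArrow, val_fin]
    · funext i
      simp only [cnv, xiv]
      simp [Equiv.sumArrowEquivProdArrow, val_fin]

/-- flatness of the theta divisor in an integral direction -/
def FlatV (τ : MM g) (v : Fin g ⊕ Fin g → ℤ) : Prop :=
  ∃ (Q : Fin g → ℂ) (c : ℂ), (∀ i, (Q i).im = v (Sum.inr i)) ∧
    (∀ i, ((Matrix.of τ *ᵥ Q) i).im = v (Sum.inl i)) ∧
    ∀ ε δ : Fin g → ℝ, ((Matrix.of τ *ᵥ Q) ⬝ᵥ fun i => (ε i : ℂ)) + (Q ⬝ᵥ fun i => (δ i : ℂ)) = c →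
      th τ ε δ = 0

theorem flat_iff {τ : MM g} (hτ : τ ∈ HH g) {v : Fin g ⊕ Fin g → ℤ} (h : (DT hτ).Flat v) :
    FlatV τ v := by
  obtain ⟨a, b, hab⟩ := h
  set D := DT hτ with hD
  set Q : Fin g → ℂ := fun j => D.Ell v (Pi.single j 1) with hQ
  have hEll : ∀ z : Fin g → ℂ, D.Ell v z = Q ⬝ᵥ z := by
    intro z
    have h1 : z = ∑ j, z j • (Pi.single j (1 : ℂ) : Fin g → ℂ) := by
      funext i
      simp [Finset.sum_apply, Pi.single_apply]
    conv_lhs => rw [h1]
    rw [map_sum]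
    simp only [map_smul, smul_eq_mul, dotProduct, hQ]
    exact Finset.sum_congr rfl fun j _ => by ring
  have hEA : ∀ x : XX g, D.Ell v (AA hτ x) =
      ((Matrix.of τ *ᵥ Q) ⬝ᵥ fun i => (x (Sum.inl i) : ℂ)) + (Q ⬝ᵥ fun i => (x (Sum.inr i) : ℂ)) := by
    intro x
    rw [hEll]
    have h2 : (AA hτ x) = (fun i => (x (Sum.inr i) : ℂ)) +
        Matrix.of τ *ᵥ (fun i => (x (Sum.inl i) : ℂ)) := by
      funext i
      rw [AA_apply]
      rfl
    have hsym : (Matrix.of τ)ᵀ = Matrix.of τ := by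
      ext i j
      exact (hτ.1 i j).symm
    rw [h2, dotProduct_add, dotProduct_mulVec, ← mulVec_transpose, hsym, add_comm]
  have hIm : ∀ x : XX g, (D.Ell v (AA hτ x)).im = dt v x := by
    intro x
    have : D.Ell v (AA hτ x) = (D.Lam v (I • AA hτ x) : ℂ) + I * (D.Lam v (AA hτ x) : ℂ) := rfl
    rw [this]
    simp only [Complex.add_im, Complex.ofReal_im, Complex.mul_im, Complex.I_re, Complex.I_im,
      Complex.ofReal_re, zero_mul, one_mul, zero_add]
    show dt v ((AA hτ).symm (AA hτ x)) = dt v x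
    rw [LinearEquiv.symm_apply_apply]
  refine ⟨Q, (a : ℂ) + I * (b : ℂ), ?_, ?_, ?_⟩
  · intro i
    have h1 := hIm (Pi.single (Sum.inr i) 1)
    rw [hEA] at h1
    have e1 : (fun j => (((Pi.single (Sum.inr i) (1 : ℝ) : XX g) (Sum.inl j) : ℝ) : ℂ)) = 0 := by
      funext j
      simp
    have e2 : (fun j => (((Pi.single (Sum.inr i) (1 : ℝ) : XX g) (Sum.inr j) : ℝ) : ℂ)) =
        Pi.single i 1 := by
      funext j
      simp [Pi.single_apply, apply_ite]
    rw [e1, e2, dotProduct_zero, zero_add, dotProduct_single, mul_one] at h1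
    rw [h1]
    unfold dt
    simp [Pi.single_apply]
  · intro i
    have h1 := hIm (Pi.single (Sum.inl i) 1)
    rw [hEA] at h1
    have e1 : (fun j => (((Pi.single (Sum.inl i) (1 : ℝ) : XX g) (Sum.inr j) : ℝ) : ℂ)) = 0 := by
      funext j
      simp
    have e2 : (fun j => (((Pi.single (Sum.inl i) (1 : ℝ) : XX g) (Sum.inl j) : ℝ) : ℂ)) =
        Pi.single i 1 := by
      funext j
      simp [Pi.single_apply, apply_ite]
    rw [e1, e2, dotProduct_zero, add_zero, dotProduct_single, mul_one] at h1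
    rw [h1]
    unfold dt
    simp [Pi.single_apply]
  · intro ε δ h
    have h1 := hEA (Sum.elim ε δ)
    simp only [Sum.elim_inl, Sum.elim_inr] at h1
    rw [h] at h1
    obtain ⟨h2, h3⟩ := (D.Ell_eq_iff v _ _ _).1 h1
    have h4 := hab (AA hτ (Sum.elim ε δ)) h3 h2
    exact (th_zero_iff hτ (Sum.elim ε δ)).2 h4

/-- good weights exist when no integral direction is flat -/
theorem GoodN_of_not_flat {τ : MM g} (hτ : τ ∈ HH g) (h : ∀ v ≠ 0, ¬ FlatV τ v) :
    ∃ n : ℕ, ∃ _ : NeZero (2 * n), GoodN (2 * n) τ := by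
  obtain ⟨n, hn, h1⟩ := (DT hτ).count (fun k hk hf => h k hk (flat_iff hτ hf))
  have : NeZero (2 * n) := ⟨by omega⟩
  refine ⟨n, this, ?_⟩
  apply GoodN_of_few (by omega)
  rw [card_zero hτ]
  exact h1

end Run7.h92
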