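import Pool.Agent.Run7.h92.Cesaro

/-!
# The Fejer majorant
-/

namespace Run7.h92

open Complex MeasureTheory Metric Real Set Filter Topology

variable {g : ℕ}

theorem chi_add_left (k l : Fin g ⊕ Fin g → ℤ) (p : TT g) : chi (k + l) p = chi k p * chi l p := by
  rw [← pr_rep p, chi_pr, chi_pr, chi_pr, ← Complex.exp_add]
  congr 1
  have : dt (k + l) (rep p) = dt k (rep p) + dt l (rep p) := by
    unfold dt
    rw [← Finset.sum_add_distrib]
    exact Finset.sum_congr rfl fun i _ => by simp [add_mul]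
  rw [this]
  push_cast
  ring

theorem chi_conj (k : Fin g ⊕ Fin g → ℤ) (p : TT g) : (starRingEnd ℂ) (chi k p) = chi (-k) p := by
  have h1 : chi k p * chi (-k) p = 1 := by
    rw [← chi_add_left, add_neg_cancel, chi_zero]
  have h2 : chi k p * (starRingEnd ℂ) (chi k p) = 1 := by
    rw [Complex.mul_conj, Complex.normSq_eq_norm_sq, norm_chi]
    norm_num
  have h3 : chi k p ≠ 0 := by
    intro h
    rw [h, zero_mul] at h1
    exact zero_ne_one h1
  exact mul_left_cancel₀ h3 (h2.trans h1.symm)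

theorem chi_nsmul (k : Fin g ⊕ Fin g → ℤ) (N : ℕ) (p : TT g) :
    chi k (N • p) = chi ((N : ℤ) • k) p := by
  rw [chi_smul]
  induction N with
  | zero =>
    rw [zero_smul, pow_zero]
    have : (0 : TT g) = pr 0 := by funext i; simp [pr]
    rw [this, chi_pr]
    simp [dt]
  | succ N ih => rw [succ_nsmul, chi_add, ih, pow_succ]

/-- frequencies -/
def fr {m : ℕ} (s : Fin g ⊕ Fin g → Fin m) : Fin g ⊕ Fin g → ℤ := fun i => ((s i : ℕ) : ℤ)

/-- Fejer majorant -/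
noncomputable def Xi (m : ℕ) (p : TT g) : ℝ :=
  (4 / (m : ℝ) ^ 2) ^ (2 * g) * ‖∑ s : Fin g ⊕ Fin g → Fin m, chi (fr s) p‖ ^ 2

theorem Xi_nonneg (m : ℕ) (p : TT g) : 0 ≤ Xi m p := by unfold Xi; positivity

theorem sum_chi_pr (m : ℕ) (y : XX g) : ∑ s : Fin g ⊕ Fin g → Fin m, chi (fr s) (pr y) =
    ∏ i, ∑ j : Fin m, Complex.exp (2 * π * I * (((j : ℕ) : ℝ) * y i : ℝ)) := by
  rw [Finset.prod_univ_sum]
  rw [Fintype.piFinset_univ]
  refine Finset.sum_congr rfl fun s _ => ?_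
  rw [chi_pr, ← Complex.exp_sum]
  congr 1
  unfold dt fr
  rw [← Finset.mul_sum]
  push_cast
  rfl

theorem one_dim {m : ℕ} (hm : 0 < m) {y : ℝ} (hy : |y| ≤ 1 / (6 * m)) :
    (m : ℝ) / 2 ≤ ‖∑ j : Fin m, Complex.exp (2 * π * I * (((j : ℕ) : ℝ) * y : ℝ))‖ := by
  have hm' : (0 : ℝ) < m := by exact_mod_cast hm
  refine le_trans ?_ (Complex.abs_re_le_norm _)
  refine le_trans ?_ (le_abs_self _)
  rw [Complex.re_sum]
  have h1 : ∀ j : Fin m, (1 / 2 : ℝ) ≤ (Complex.exp (2 * π * I * (((j : ℕ) : ℝ) * y : ℝ))).re := by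
    intro j
    have e : (2 * π * I * (((j : ℕ) : ℝ) * y : ℝ) : ℂ) = ((2 * π * (((j : ℕ) : ℝ) * y) : ℝ) : ℂ) * I := by
      push_cast; ring
    rw [e, Complex.exp_ofReal_mul_I_re, ← Real.cos_pi_div_three, ← Real.cos_abs (2 * π * _)]
    have h2 : |2 * π * (((j : ℕ) : ℝ) * y)| ≤ π / 3 := by
      rw [abs_mul (2 * π), abs_mul ((j : ℕ) : ℝ), abs_of_pos Real.two_pi_pos,
        abs_of_nonneg (Nat.cast_nonneg _)]
      have hj : ((j : ℕ) : ℝ) ≤ m := by exact_mod_cast j.2.le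
      calc 2 * π * (((j : ℕ) : ℝ) * |y|) ≤ 2 * π * (m * (1 / (6 * m))) := by gcongr
        _ = π / 3 := by field_simp; ring
    refine Real.cos_le_cos_of_nonneg_of_le_pi (abs_nonneg _) ?_ h2
    linarith [Real.pi_pos]
  calc (m : ℝ) / 2 = ∑ _j : Fin m, (1 / 2 : ℝ) := by
        rw [Finset.sum_const, Finset.card_univ, Fintype.card_fin, nsmul_eq_mul]
        ring
    _ ≤ _ := Finset.sum_le_sum fun j _ => h1 j

theorem Xi_ge_one {m : ℕ} (hm : 0 < m) {y : XX g} (hy : ∀ i, |y i| ≤ 1 / (6 * m)) :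
    1 ≤ Xi m (pr y) := by
  have hm' : (0 : ℝ) < m := by exact_mod_cast hm
  unfold Xi
  rw [sum_chi_pr, norm_prod]
  have h1 : ((m : ℝ) / 2) ^ (2 * g) ≤ ∏ i, ‖∑ j : Fin m, Complex.exp (2 * π * I * (((j : ℕ) : ℝ) * y i : ℝ))‖ := by
    calc ((m : ℝ) / 2) ^ (2 * g) = ∏ _i : Fin g ⊕ Fin g, ((m : ℝ) / 2) := by
          rw [Finset.prod_const, Finset.card_univ, Fintype.card_sum, Fintype.card_fin, two_mul]
      _ ≤ _ := Finset.prod_le_prod (fun _ _ => by positivity) fun i _ => one_dim hm (hy i)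
  calc (1 : ℝ) = (4 / (m : ℝ) ^ 2) ^ (2 * g) * (((m : ℝ) / 2) ^ (2 * g)) ^ 2 := by
        rw [← pow_mul, mul_comm (2 * g) 2, pow_mul _ 2 (2 * g), ← mul_pow]
        rw [show 4 / (m : ℝ) ^ 2 * ((m : ℝ) / 2) ^ 2 = 1 by field_simp; norm_num, one_pow]
    _ ≤ _ := by gcongr

theorem Xi_expand (m : ℕ) (p : TT g) : ((Xi m p : ℝ) : ℂ) = ((4 / (m : ℝ) ^ 2) ^ (2 * g) : ℝ) *
    ∑ s : Fin g ⊕ Fin g → Fin m, ∑ t : Fin g ⊕ Fin g → Fin m, chi (fr s - fr t) p := by
  unfold Xi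
  rw [Complex.ofReal_mul]
  congr 1
  rw [← Complex.normSq_eq_norm_sq, ← Complex.mul_conj, map_sum, Finset.sum_mul_sum]
  refine Finset.sum_congr rfl fun s _ => Finset.sum_congr rfl fun t _ => ?_
  rw [chi_conj, ← chi_add_left, sub_eq_add_neg]

theorem fr_sub_ne {m : ℕ} {s t : Fin g ⊕ Fin g → Fin m} (h : s ≠ t) : fr s - fr t ≠ 0 := by
  intro h0
  apply h
  funext i
  have := congrFun h0 i
  simp only [fr, Pi.sub_apply, Pi.zero_apply] at this
  apply Fin.ext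
  omega

namespace Dat

variable (D : Dat g)

theorem continuous_q : Continuous D.q := by
  have h1 : Continuous fun p : (Fin g → ℂ) × ℝ => D.A.symm (circleMap 0 1 p.2 • p.1) :=
    D.continuous_B.comp (by fun_prop)
  have h2 : Continuous fun ζ : Fin g → ℂ => ∫ θ in (0 : ℝ)..(2 * π),
      D.b (D.A.symm (circleMap 0 1 θ • ζ)) (D.A.symm (circleMap 0 1 θ • ζ)) :=
    intervalIntegral.continuous_parametric_intervalIntegral_of_continuous'
      (f := fun (ζ : Fin g → ℂ) (θ : ℝ) =>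
        D.b (D.A.symm (circleMap 0 1 θ • ζ)) (D.A.symm (circleMap 0 1 θ • ζ)))
      (D.continuous_b.comp h1) _ _
  exact h2.const_smul ((2 * π)⁻¹ : ℝ)

theorem continuous_J (k : Fin g ⊕ Fin g → ℤ) : Continuous (D.J k) := by
  have h1 : Continuous fun p : (Fin g → ℂ) × ℝ => D.A.symm (circleMap 0 1 p.2 • p.1) :=
    D.continuous_B.comp (by fun_prop)
  have h2 : (Function.uncurry fun (ζ : Fin g → ℂ) (θ : ℝ) =>
      chi k (-(D.dis (circleMap 0 1 θ • ζ)))) = fun p =>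
      Complex.exp (-(2 * π * I * (dt k (D.A.symm (circleMap 0 1 p.2 • p.1)) : ℝ))) := by
    funext p
    exact D.chi_dis_neg k _
  have h3 : Continuous (Function.uncurry fun (ζ : Fin g → ℂ) (θ : ℝ) =>
      chi k (-(D.dis (circleMap 0 1 θ • ζ)))) := by
    rw [h2]
    unfold dt
    fun_prop
  have h4 : Continuous fun ζ : Fin g → ℂ => ∫ θ in (0 : ℝ)..(2 * π),
      chi k (-(D.dis (circleMap 0 1 θ • ζ))) :=
    intervalIntegral.continuous_parametric_intervalIntegral_of_continuous' h3 _ _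
  exact (h4.const_smul ((2 * π)⁻¹ : ℝ)).sub continuous_const

/-- the main Fourier expansion -/
theorem int_Xi {m N : ℕ} (hN : 0 < N) (ζ : Fin g → ℂ) :
    ((∫ p, Xi m (N • p) * D.S p ζ : ℝ) : ℂ) = ((4 / (m : ℝ) ^ 2) ^ (2 * g) : ℝ) *
      ∑ s : Fin g ⊕ Fin g → Fin m, ∑ t : Fin g ⊕ Fin g → Fin m,
        if s = t then (D.q ζ : ℂ) else D.J ((N : ℤ) • (fr s - fr t)) ζ *
          D.uh ((N : ℤ) • (fr s - fr t)) := by
  have e1 : ∀ p, ((Xi m (N • p) * D.S p ζ : ℝ) : ℂ) = ((4 / (m : ℝ) ^ 2) ^ (2 * g) : ℝ) *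
      ∑ s : Fin g ⊕ Fin g → Fin m, ∑ t : Fin g ⊕ Fin g → Fin m,
        chi ((N : ℤ) • (fr s - fr t)) p * (D.S p ζ : ℂ) := by
    intro p
    rw [Complex.ofReal_mul, Xi_expand, mul_assoc, Finset.sum_mul]
    congr 1
    refine Finset.sum_congr rfl fun s _ => ?_
    rw [Finset.sum_mul]
    refine Finset.sum_congr rfl fun t _ => ?_
    rw [chi_nsmul]
  have hint : ∀ k, Integrable fun p => chi k p * (D.S p ζ : ℂ) := fun k =>
    (D.integrable_S _).ofReal.bdd_mul (measurable_chi _).aestronglyMeasurable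
      (Filter.Eventually.of_forall fun q => (norm_chi _ q).le)
  rw [← integral_complex_ofReal]
  simp_rw [e1]
  rw [integral_const_mul, integral_finsetSum _ fun s _ => integrable_finsetSum _ fun t _ => hint _]
  congr 1
  refine Finset.sum_congr rfl fun s _ => ?_
  rw [integral_finsetSum _ fun t _ => hint _]
  refine Finset.sum_congr rfl fun t _ => ?_
  by_cases hst : s = t
  · subst hst
    rw [if_pos rfl, sub_self, smul_zero]
    simp_rw [chi_zero, one_mul]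
    rw [integral_complex_ofReal, D.integral_S]
  · rw [if_neg hst]
    refine D.fourier_S ?_ ζ
    intro h
    rcases smul_eq_zero.1 h with h | h
    · exact absurd h (by exact_mod_cast hN.ne')
    · exact fr_sub_ne hst h

end Dat

end Run7.h92
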