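import Pool.Agent.Run7.h92.Lim

/-!
# Change of basis for the limit statement
-/

namespace Run7.h92

open Matrix Complex Filter Topology

variable {g k : ℕ}

theorem HH_mvs {τ : MM g} (hτ : τ ∈ HH g) {s : Fin k → ℝ} (hs : 0 ≤ s) (V : Fin k → Fin g → ℤ) :
    mvs τ s V ∈ HH g := by
  obtain ⟨h1, c, hc, hLB⟩ := hτ
  refine ⟨fun i j => ?_, c, hc, fun x => ?_⟩
  · unfold mvs
    rw [h1 i j]
    congr 2
    refine Finset.sum_congr rfl fun l _ => ?_
    ring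
  · refine (hLB x).trans ?_
    have e1 : ∀ i j, (mvs τ s V i j).im = (τ i j).im + ∑ l, s l * ((V l i : ℝ) * V l j) := by
      intro i j
      unfold mvs
      have e2 : (∑ l, (s l : ℂ) * ((V l i : ℂ) * V l j)) =
          ((∑ l, s l * ((V l i : ℝ) * V l j) : ℝ) : ℂ) := by
        push_cast
        rfl
      rw [e2, Complex.add_im, Complex.I_mul_im, Complex.ofReal_re]
    have e3 : ∑ i, ∑ j, x i * (mvs τ s V i j).im * x j = ∑ i, ∑ j, x i * (τ i j).im * x j +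
        ∑ l, s l * (∑ i, (V l i : ℝ) * x i) ^ 2 := by
      have e4 : ∀ l, s l * (∑ i, (V l i : ℝ) * x i) ^ 2 =
          ∑ i, ∑ j, x i * (s l * ((V l i : ℝ) * V l j)) * x j := by
        intro l
        rw [sq, Finset.sum_mul_sum, Finset.mul_sum]
        refine Finset.sum_congr rfl fun i _ => ?_
        rw [Finset.mul_sum]
        exact Finset.sum_congr rfl fun j _ => by ring
      simp_rw [e4, e1]
      rw [Finset.sum_comm (s := Finset.univ (α := Fin k)), ← Finset.sum_add_distrib]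
      refine Finset.sum_congr rfl fun i _ => ?_
      rw [Finset.sum_comm (s := Finset.univ (α := Fin k)), ← Finset.sum_add_distrib]
      refine Finset.sum_congr rfl fun j _ => ?_
      rw [mul_add, add_mul, Finset.mul_sum, Finset.sum_mul]
    rw [e3]
    have : 0 ≤ ∑ l, s l * (∑ i, (V l i : ℝ) * x i) ^ 2 :=
      Finset.sum_nonneg fun l _ => mul_nonneg (hs l) (sq_nonneg _)
    linarith

theorem Rm_mvs {U U' : Matrix (Fin g) (Fin g) ℤ} (h1 : U * U' = 1) (τ : MM g) (s : Fin k → ℝ)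
    (V : Fin k → Fin g → ℤ) :
    Rm U (mvs (Rm U' τ) s V) = mvs τ s fun l => U *ᵥ V l := by
  have h3 : ci U * ci U' = 1 := by rw [← ci_mul, h1, ci_one]
  have key : ∀ σ : MM g, Rm U σ = ci U * Matrix.of σ * (ci U)ᵀ := fun σ => rfl
  have key' : ∀ σ : MM g, (Matrix.of (Rm U' σ)) = ci U' * Matrix.of σ * (ci U')ᵀ := fun σ => rfl
  set P : Matrix (Fin g) (Fin g) ℂ := ∑ l, (I * (s l : ℂ)) •
    vecMulVec (fun i => (V l i : ℂ)) (fun i => (V l i : ℂ)) with hP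
  have e1 : Matrix.of (mvs (Rm U' τ) s V) = Matrix.of (Rm U' τ) + P := by
    ext i j
    simp only [of_apply, Matrix.add_apply, hP, Matrix.sum_apply, Matrix.smul_apply, vecMulVec_apply, mvs,
      smul_eq_mul, Finset.mul_sum]
    congr 1
    exact Finset.sum_congr rfl fun l _ => by ring
  have e2 : ci U * P * (ci U)ᵀ = ∑ l, (I * (s l : ℂ)) •
      vecMulVec (fun i => ((U *ᵥ V l) i : ℂ)) (fun i => ((U *ᵥ V l) i : ℂ)) := by
    rw [hP, Matrix.mul_sum, Matrix.sum_mul]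
    refine Finset.sum_congr rfl fun l _ => ?_
    rw [Matrix.mul_smul, Matrix.smul_mul]
    congr 1
    have e3 : ci U *ᵥ (fun i => (V l i : ℂ)) = fun i => ((U *ᵥ V l) i : ℂ) := by
      funext i
      simp [mulVec, dotProduct, ci]
    rw [mul_vecMulVec, vecMulVec_mul, e3, vecMul_transpose, e3]
  funext i j
  rw [key, e1, Matrix.mul_add, Matrix.add_mul, e2, key']
  have e4 : ci U * (ci U' * Matrix.of τ * (ci U')ᵀ) * (ci U)ᵀ = Matrix.of τ := by
    have h4 : (ci U')ᵀ * (ci U)ᵀ = 1 := by rw [← transpose_mul, h3, transpose_one]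
    calc ci U * (ci U' * Matrix.of τ * (ci U')ᵀ) * (ci U)ᵀ =
        (ci U * ci U') * Matrix.of τ * ((ci U')ᵀ * (ci U)ᵀ) := by
          simp only [Matrix.mul_assoc]
      _ = _ := by rw [h3, h4, Matrix.one_mul, Matrix.mul_one]
  rw [e4]
  simp only [of_apply, Matrix.add_apply, Matrix.sum_apply, Matrix.smul_apply, vecMulVec_apply, mvs,
    smul_eq_mul, Finset.mul_sum]
  congr 1
  exact Finset.sum_congr rfl fun l _ => by ring

theorem ff_Rm {N n M l : ℕ} [NeZero N] (hn : N = 2 * n) {U U' : Matrix (Fin (g + 1)) (Fin (g + 1)) ℤ}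
    (h1 : U * U' = 1) (h2 : U' * U = 1) {τ : MM (g + 1)} (hτ : τ ∈ HH (g + 1)) :
    ff N n M l (Rm U τ) = ff N n M l τ := by
  have h3 := ff_act (M := M) (l := l) hn (RU_mem h1 h2) hτ
  rw [act_RU h1, aut_RU, det_transpose] at h3
  have h4 : (ci U').det ^ 2 = 1 := by
    have h5 : U'.det * U'.det = 1 := by
      have h6 : U.det * U'.det = 1 := by rw [← det_mul, h1, det_one]
      rcases Int.isUnit_iff.1 (IsUnit.of_mul_eq_one_right _ h6) with h | h <;> rw [h] <;> norm_num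
    have h7 : (ci U').det = (U'.det : ℂ) := by
      unfold ci
      rw [← Int.cast_det]
    rw [h7, sq]
    exact_mod_cast h5
  rw [h3, show 12 * (N ^ 2 * M * l) = 2 * (6 * (N ^ 2 * M * l)) by ring, pow_mul, h4, one_pow, one_mul]

/-- the property of a configuration of integral vectors at a point -/
def GoodC (V : Fin k → Fin g → ℤ) (τ : MM g) : Prop :=
  ∃ n : ℕ, ∃ _ : NeZero (2 * n), ∃ w : CN (2 * n) g → ℕ, (∃ x, w x ≠ 0) ∧
    (∀ x, w x ≠ 0 → cdv V τ (chE (2 * n) x) (chZ (2 * n) x 0) ≠ 0) ∧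
    (∀ u : CN (2 * n) g, Um u → (∑ x, (w x : ℝ)) / 12 ≤ ∑ x, (w x : ℝ) * gf (bq n u x)) ∧
    ∀ i, Exw (2 * n) n w (V i)

theorem ff_lim_U {U U' : Matrix (Fin (g + 1)) (Fin (g + 1)) ℤ}
    (h1 : U * U' = 1) (h2 : U' * U = 1) {τ : MM (g + 1)} (hτ : τ ∈ HH (g + 1))
    (V : Fin k → Fin (g + 1) → ℤ) (hV : ∀ l, ∃ r : Fin (g + 1) → ℤ, ∑ i, r i * V l i = 1)
    (hG : GoodC V (Rm U' τ)) :
    ∃ (n M l : ℕ) (_ : NeZero (2 * n)), 0 < M ∧ 0 < l ∧ ∃ c : ℂ, c ≠ 0 ∧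
      Tendsto (fun s : Fin k → ℝ => ff (2 * n) n M l (mvs τ s fun l => U *ᵥ V l) *
        ((Real.exp (2 * Real.pi * (((2 * n) ^ 2 * M * l : ℕ) : ℝ) * ∑ i, s i) : ℝ) : ℂ))
        atTop (𝓝 c) := by
  obtain ⟨n, hn, w, w1, w2, w3, w4⟩ := hG
  have hτ' : Rm U' τ ∈ HH (g + 1) := HH_RU hτ h2
  have hum : ∀ l, Um (rd (2 * n) (V l) 0) := fun l => by
    obtain ⟨r, hr⟩ := hV l
    exact um_prim hr
  obtain ⟨M, l, hM, hl, c, hc, h3⟩ := ff_lim_ne rfl hτ' V hum w1 w2 w3 w4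
  refine ⟨n, M, l, hn, hM, hl, c, hc, h3.congr' ?_⟩
  filter_upwards [eventually_ge_atTop (0 : Fin k → ℝ)] with s hs
  congr 1
  rw [← Rm_mvs h1, ff_Rm rfl h1 h2 (HH_mvs hτ' hs V)]

end Run7.h92
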