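import Pool.Agent.Run7.h92.MinS

/-!
# Cones with certificates: final form
-/

namespace Run7.h92

open Matrix Complex Filter Topology

variable {g k r : ℕ}

/-- rays with certificates are primitive -/
theorem Cert.prim {V : Fin k → Fin r → ℤ} {P : (Fin r → ZMod 2) → ℕ} (h : Cert V P) (l : Fin k) :
    ∃ c : Fin r → ℤ, ∑ i, c i * V l i = 1 := by
  have h1 := h.eq l
  have hpos : 0 < ∑ e, P e := by
    obtain ⟨e, he⟩ := h.pos
    exact lt_of_lt_of_le (Nat.pos_of_ne_zero he)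
      (Finset.single_le_sum (fun _ _ => Nat.zero_le _) (Finset.mem_univ e))
  obtain ⟨e, he1, he2⟩ : ∃ e, rd2 (V l) ⬝ᵥ e = 1 ∧ P e ≠ 0 := by
    by_contra hc
    push Not at hc
    have h2 : ∑ e, (if rd2 (V l) ⬝ᵥ e = 1 then P e else 0) = 0 := by
      refine Finset.sum_eq_zero fun e _ => ?_
      split_ifs with h3
      · exact hc e h3
      · rfl
    omega
  obtain ⟨β, hβ, hb⟩ := h.good e he2
  have h2 := hb l
  have h3 : ((V l ⬝ᵥ β : ℤ) : ZMod 2) = 1 := by rw [← rd2_dot, hβ, he1]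
  have h4 : V l ⬝ᵥ β ≠ 0 := by
    intro h0
    rw [h0] at h3
    exact absurd h3 (by decide)
  rw [abs_le] at h2
  have h5 : V l ⬝ᵥ β = 1 ∨ V l ⬝ᵥ β = -1 := by omega
  rcases h5 with h5 | h5
  · refine ⟨β, ?_⟩
    rw [← h5]
    exact Finset.sum_congr rfl fun i _ => mul_comm _ _
  · refine ⟨-β, ?_⟩
    have h6 : ∑ i, (-β) i * V l i = -(V l ⬝ᵥ β) := by
      unfold dotProduct
      rw [← Finset.sum_neg_distrib]
      exact Finset.sum_congr rfl fun i _ => by rw [Pi.neg_apply]; ring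
    rw [h6, h5]
    norm_num

/-- block matrices -/
def blk (g : ℕ) (B : Matrix (Fin r) (Fin r) ℤ) : Matrix (Fin (g + r)) (Fin (g + r)) ℤ :=
  Matrix.of fun i j => jn r (B *ᵥ hdv r (Pi.single j 1 : Fin (g + r) → ℤ))
    (tlv r (Pi.single j 1 : Fin (g + r) → ℤ)) i

/-- the corresponding linear map -/
def blkL (g : ℕ) (B : Matrix (Fin r) (Fin r) ℤ) : (Fin (g + r) → ℤ) →ₗ[ℤ] (Fin (g + r) → ℤ) where
  toFun x := jn r (B *ᵥ hdv r x) (tlv r x)
  map_add' x y := by
    have h1 : hdv r (x + y) = hdv r x + hdv r y := hdv_map2 r (fun a b => a + b) x y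
    have h2 : ∀ (r : ℕ) (x y : Fin (g + r) → ℤ), tlv r (x + y) = tlv r x + tlv r y := by
      intro r
      induction r with
      | zero => intro x y; rfl
      | succ r ih => intro x y; exact ih _ _
    have h3 : ∀ (r : ℕ) (a b : Fin r → ℤ) (c d : Fin g → ℤ),
        jn r (a + b) (c + d) = jn r a c + jn r b d := by
      intro r
      induction r with
      | zero => intro a b c d; rfl
      | succ r ih =>
        intro a b c d
        funext i
        refine Fin.cases rfl (fun i => ?_) i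
        exact congrFun (ih _ _ c d) i
    rw [h1, h2, mulVec_add, h3]
  map_smul' c x := by
    have h1 : hdv r (c • x) = c • hdv r x := hdv_map r (fun a : ℤ => c • a) x
    have h2 : tlv r (c • x) = c • tlv r x := tlv_map r (fun a : ℤ => c • a) x
    rw [h1, h2, mulVec_smul]
    exact (jn_map r (fun a : ℤ => c • a) _ _).symm

theorem blk_mulVec (B : Matrix (Fin r) (Fin r) ℤ) (x : Fin (g + r) → ℤ) :
    blk g B *ᵥ x = jn r (B *ᵥ hdv r x) (tlv r x) := by
  have h1 : blk g B = LinearMap.toMatrix' (blkL g B) := by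
    ext i j
    rw [LinearMap.toMatrix'_apply]
    rfl
  rw [h1, ← Matrix.toLin'_apply, Matrix.toLin'_toMatrix']
  rfl

theorem blk_mul {B B' : Matrix (Fin r) (Fin r) ℤ} (h : B * B' = 1) : blk g B * blk g B' = 1 := by
  apply Matrix.toLin'.injective
  refine LinearMap.ext fun x => ?_
  rw [Matrix.toLin'_apply, Matrix.toLin'_apply, one_mulVec, ← mulVec_mulVec, blk_mulVec, blk_mulVec,
    hdv_jn, tlv_jn, mulVec_mulVec, h, one_mulVec, jn_hdv_tlv]

/-- extension by zero -/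
def ext0 (g : ℕ) (a : Fin r → ℤ) : Fin (g + r) → ℤ := jn r a (0 : Fin g → ℤ)

theorem blk_ext (B : Matrix (Fin r) (Fin r) ℤ) (a : Fin r → ℤ) :
    blk g B *ᵥ ext0 g a = ext0 g (B *ᵥ a) := by
  unfold ext0
  rw [blk_mulVec, hdv_jn, tlv_jn]

theorem ext_prim {a c : Fin r → ℤ} (h : ∑ i, c i * a i = 1) :
    ∃ c' : Fin (g + r) → ℤ, ∑ i, c' i * ext0 g a i = 1 := by
  refine ⟨jn r c 0, ?_⟩
  have h1 := dot_jn (g := g) r (jn r c (0 : Fin g → ℤ)) a (0 : Fin g → ℤ)
  rw [hdv_jn, tlv_jn] at h1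
  have h2 : ∑ i, jn r c (0 : Fin g → ℤ) i * ext0 g a i = jn r c (0 : Fin g → ℤ) ⬝ᵥ jn r a (0 : Fin g → ℤ) := rfl
  rw [h2, h1]
  unfold dotProduct
  rw [h]
  simp

/-- the limit statement in arbitrary positive dimension -/
theorem lim_dim {d : ℕ} (hd : 1 ≤ d) {U U' : Matrix (Fin d) (Fin d) ℤ} (h1 : U * U' = 1)
    (h2 : U' * U = 1) {τ : MM d} (hτ : τ ∈ HH d) (V : Fin k → Fin d → ℤ)
    (hV : ∀ l, ∃ r : Fin d → ℤ, ∑ i, r i * V l i = 1) (hG : GoodC V (Rm U' τ)) :
    ∃ (n M l : ℕ) (_ : NeZero (2 * n)), 0 < M ∧ 0 < l ∧ ∃ c : ℂ, c ≠ 0 ∧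
      Tendsto (fun s : Fin k → ℝ => ff (2 * n) n M l (mvs τ s fun l => U *ᵥ V l) *
        ((Real.exp (2 * Real.pi * (((2 * n) ^ 2 * M * l : ℕ) : ℝ) * ∑ i, s i) : ℝ) : ℂ))
        atTop (𝓝 c) := by
  cases d with
  | zero => omega
  | succ d => exact ff_lim_U h1 h2 hτ V hV hG

/-- configurations with certificates -/
theorem Cert.lim {A : Fin k → Fin r → ℤ} {P : (Fin r → ZMod 2) → ℕ} (hA : Cert A P)
    (hsp : ∀ d : Fin r → ℝ, (∀ l, ∑ i, (A l i : ℝ) * d i = 0) → d = 0) (hd : 1 ≤ g + r)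
    {U U' : Matrix (Fin (g + r)) (Fin (g + r)) ℤ} (h1 : U * U' = 1)
    (h2 : U' * U = 1) {τ : MM (g + r)} (hτ : τ ∈ HH (g + r)) :
    ∃ (n M l : ℕ) (_ : NeZero (2 * n)), 0 < M ∧ 0 < l ∧ ∃ c : ℂ, c ≠ 0 ∧
      Tendsto (fun s : Fin k → ℝ => ff (2 * n) n M l (mvs τ s fun l => U *ᵥ ext0 g (A l)) *
        ((Real.exp (2 * Real.pi * (((2 * n) ^ 2 * M * l : ℕ) : ℝ) * ∑ i, s i) : ℝ) : ℂ))
        atTop (𝓝 c) := by
  obtain ⟨f, hf⟩ := exists_frame (fun l i => (A l i : ℝ)) hsp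
  have hdet : (fm A f).det ≠ 0 := by
    intro h0
    apply hf
    have h1 := frm_det A f
    unfold frm at h1
    rw [h1, h0]
    simp
  obtain ⟨C, C', hC, hC', htri⟩ := tri_form r (fm A f)
  set V : Fin k → Fin r → ℤ := fun l => A l ᵥ* C with hV
  have hVC := hA.change hC hC'
  have hfm : fm V f = fm A f * C := by
    ext i j
    rfl
  have hVtri : ∀ i j, i < j → V (f i) j = 0 := fun i j hij => by
    have := htri i j hij
    rw [← hfm] at this
    exact this
  have hVdiag : ∀ i, V (f i) i ≠ 0 := by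
    have h3 : (fm V f).det ≠ 0 := by
      rw [hfm, det_mul]
      refine mul_ne_zero hdet ?_
      intro h0
      have h4 : (C * C').det = 1 := by rw [hC, det_one]
      rw [det_mul, h0, zero_mul] at h4
      norm_num at h4
    exact fun i => tri_det (F := fm V f) hVtri h3 i
  have hCB := hVC.certB hVtri hVdiag
  set B : Matrix (Fin r) (Fin r) ℤ := C'ᵀ with hB
  set B' : Matrix (Fin r) (Fin r) ℤ := Cᵀ with hB'
  have hBB : B * B' = 1 := by rw [hB, hB', ← transpose_mul, hC, transpose_one]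
  have hBB' : B' * B = 1 := by rw [hB, hB', ← transpose_mul, hC', transpose_one]
  have hAV : ∀ l, A l = B *ᵥ V l := by
    intro l
    rw [hB, mulVec_transpose, hV]
    simp only
    rw [vecMul_vecMul, hC, vecMul_one]
  have e1 : (U * blk g B) * (blk g B' * U') = 1 := by
    calc (U * blk g B) * (blk g B' * U') = U * (blk g B * blk g B') * U' := by
          simp only [Matrix.mul_assoc]
      _ = 1 := by rw [blk_mul hBB, Matrix.mul_one, h1]
  have e2 : (blk g B' * U') * (U * blk g B) = 1 := by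
    calc (blk g B' * U') * (U * blk g B) = blk g B' * (U' * U) * blk g B := by
          simp only [Matrix.mul_assoc]
      _ = 1 := by rw [h2, Matrix.mul_one, blk_mul hBB']
  have hτ' : Rm (blk g B' * U') τ ∈ HH (g + r) := HH_RU hτ e2
  have h3 := lim_dim hd e1 e2 hτ (fun l => ext0 g (V l)) (fun l => by
    obtain ⟨c, hc⟩ := hVC.prim l
    exact ext_prim hc) (hCB.goodC hτ')
  have e3 : (fun l => (U * blk g B) *ᵥ ext0 g (V l)) = fun l => U *ᵥ ext0 g (A l) := by
    funext l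
    rw [← mulVec_mulVec, blk_ext, hAV]
  simp only [e3] at h3
  exact h3

theorem ext0_apply (g : ℕ) : ∀ {r : ℕ} (a : Fin r → ℤ) (i : Fin (g + r)),
    ext0 g a i = if h : i.val < r then a ⟨i.val, h⟩ else 0 := by
  intro r
  induction r with
  | zero =>
    intro a i
    rw [dif_neg (Nat.not_lt_zero _)]
    rfl
  | succ r ih =>
    intro a i
    refine Fin.cases ?_ (fun i => ?_) i
    · rw [dif_pos (show ((0 : Fin (g + r + 1)) : ℕ) < r + 1 by simp)]
      rfl
    · have h1 : ext0 g a (Fin.succ i : Fin (g + r + 1)) = ext0 g (fun j => a j.succ) i := rfl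
      rw [h1, ih]
      by_cases h : i.val < r
      · rw [dif_pos h, dif_pos (show ((Fin.succ i : Fin (g + r + 1)) : ℕ) < r + 1 by
          rw [Fin.val_succ]; omega)]
        rfl
      · rw [dif_neg h, dif_neg (show ¬ ((Fin.succ i : Fin (g + r + 1)) : ℕ) < r + 1 by
          rw [Fin.val_succ]; omega)]

end Run7.h92
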