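import Pool.Agent.Run7.h92.DatT

/-!
# Flat directions give decompositions
-/

namespace Run7.h92

open Matrix Complex Filter Topology

variable {g : ℕ}

theorem act_aut {M : Z2 g} {τ : MM g} (h : (aut M τ).det ≠ 0) :
    Matrix.of (act M τ) * aut M τ = num M τ := by
  rw [of_act, Matrix.mul_assoc, nonsing_inv_mul _ (isUnit_iff_ne_zero.2 h), Matrix.mul_one]

theorem im_ci (A : Matrix (Fin g) (Fin g) ℤ) (Q : Fin g → ℂ) {p : Fin g → ℤ}
    (h : ∀ i, (Q i).im = p i) (i : Fin g) : ((ci A *ᵥ Q) i).im = ((A *ᵥ p) i : ℤ) := by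
  simp only [ci, mulVec, dotProduct, map_apply]
  rw [Complex.im_sum]
  push_cast
  refine Finset.sum_congr rfl fun j _ => ?_
  rw [← h j]
  simp [Complex.mul_im]

/-- the automatic part of the transformation of flat directions -/
theorem flat_auto {M : Z2 g} {τ : MM g} (hd : (aut M τ).det ≠ 0) {v : Fin g ⊕ Fin g → ℤ}
    {Q : Fin g → ℂ} (h1 : ∀ i, (Q i).im = v (Sum.inr i))
    (h2 : ∀ i, ((Matrix.of τ *ᵥ Q) i).im = v (Sum.inl i)) :
    (∀ i, ((aut M τ *ᵥ Q) i).im = (M *ᵥ v) (Sum.inr i)) ∧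
    (∀ i, ((Matrix.of (act M τ) *ᵥ (aut M τ *ᵥ Q)) i).im = (M *ᵥ v) (Sum.inl i)) ∧
    Matrix.of (act M τ) *ᵥ (aut M τ *ᵥ Q) = num M τ *ᵥ Q := by
  have h3 : Matrix.of (act M τ) *ᵥ (aut M τ *ᵥ Q) = num M τ *ᵥ Q := by
    rw [mulVec_mulVec, act_aut hd]
  have hv : M *ᵥ v = Sum.elim (M.toBlocks₁₁ *ᵥ (fun i => v (Sum.inl i)) +
      M.toBlocks₁₂ *ᵥ (fun i => v (Sum.inr i))) (M.toBlocks₂₁ *ᵥ (fun i => v (Sum.inl i)) +
      M.toBlocks₂₂ *ᵥ (fun i => v (Sum.inr i))) := by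
    conv_lhs => rw [← fromBlocks_toBlocks M, fromBlocks_mulVec]
    rfl
  refine ⟨?_, ?_, h3⟩
  · intro i
    unfold aut
    rw [add_mulVec, ← mulVec_mulVec, Pi.add_apply, Complex.add_im, im_ci _ _ h2, im_ci _ _ h1, hv]
    simp
  · intro i
    rw [h3]
    unfold num
    rw [add_mulVec, ← mulVec_mulVec, Pi.add_apply, Complex.add_im, im_ci _ _ h2, im_ci _ _ h1, hv]
    simp

theorem flat_TB {τ : MM g} {B : Matrix (Fin g) (Fin g) ℤ} (hB : Bᵀ = B)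
    {v : Fin g ⊕ Fin g → ℤ} (h : FlatV τ v) : FlatV (act (TB B) τ) (TB B *ᵥ v) := by
  obtain ⟨Q, c, h1, h2, h3⟩ := h
  have hd : (aut (TB B) τ).det ≠ 0 := by rw [aut_TB]; simp
  obtain ⟨a1, a2, a3⟩ := flat_auto hd h1 h2
  refine ⟨aut (TB B) τ *ᵥ Q, c - ∑ i, (B i i : ℂ) / 2 * Q i, a1, a2, ?_⟩
  rw [a3]
  intro ε δ hεδ
  have hBs : ∀ i j, B i j = B j i := fun i j => by
    have := congrFun (congrFun hB i) j
    rw [transpose_apply] at this
    exact this.symm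
  rw [aut_TB, one_mulVec] at hεδ
  rw [act_TB]
  have key := h3 ε (fun i => δ i + ∑ j, (B i j : ℝ) * ε j + (B i i : ℝ) / 2) (by
    have e1 : (Q ⬝ᵥ fun i => ((δ i + ∑ j, (B i j : ℝ) * ε j + (B i i : ℝ) / 2 : ℝ) : ℂ)) =
        (Q ⬝ᵥ fun i => (δ i : ℂ)) + (Q ⬝ᵥ (ci B *ᵥ fun i => (ε i : ℂ))) +
          ∑ i, (B i i : ℂ) / 2 * Q i := by
      simp only [dotProduct, ci, mulVec, map_apply]
      rw [← Finset.sum_add_distrib, ← Finset.sum_add_distrib]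
      refine Finset.sum_congr rfl fun i _ => ?_
      push_cast
      ring
    have e2 : num (TB B) τ *ᵥ Q = Matrix.of τ *ᵥ Q + ci B *ᵥ Q := by
      unfold num TB
      rw [toBlocks_fromBlocks₁₁, toBlocks_fromBlocks₁₂, ci_one, Matrix.one_mul, add_mulVec]
    have e3 : (ci B *ᵥ Q) ⬝ᵥ (fun i => (ε i : ℂ)) = Q ⬝ᵥ (ci B *ᵥ fun i => (ε i : ℂ)) := by
      rw [dotProduct_mulVec, ← mulVec_transpose, ← ci_transpose, hB]
    rw [e2, add_dotProduct, e3] at hεδ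
    rw [e1]
    linear_combination hεδ)
  unfold th at key ⊢
  rw [thc_T (fun i j => B i j) hBs]
  have e4 : (fun i => ((δ i : ℂ)) + ∑ j, (B i j : ℂ) * (ε j : ℂ) + (B i i : ℂ) / 2) =
      fun i => ((δ i + ∑ j, (B i j : ℝ) * ε j + (B i i : ℝ) / 2 : ℝ) : ℂ) := by
    funext i
    push_cast
    ring
  rw [e4, key, mul_zero]

theorem flat_RU {τ : MM g} {U V : Matrix (Fin g) (Fin g) ℤ} (h1' : U * V = 1) (h2' : V * U = 1)
    {v : Fin g ⊕ Fin g → ℤ} (h : FlatV τ v) : FlatV (act (RU U V) τ) (RU U V *ᵥ v) := by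
  obtain ⟨Q, c, h1, h2, h3⟩ := h
  have hd : (aut (RU U V) τ).det ≠ 0 := by
    rw [aut_RU, det_transpose]
    intro h
    have h3 : (ci U * ci V).det = 1 := by rw [← ci_mul, h1', ci_one, det_one]
    rw [det_mul, h, mul_zero] at h3
    exact zero_ne_one h3
  obtain ⟨a1, a2, a3⟩ := flat_auto hd h1 h2
  refine ⟨aut (RU U V) τ *ᵥ Q, c, a1, a2, ?_⟩
  rw [a3]
  intro ε δ hεδ
  rw [act_RU h1']
  unfold th
  rw [thc_R τ h1' h2']
  have key := h3 ((U.map (Int.cast : ℤ → ℝ))ᵀ *ᵥ ε) (V.map (Int.cast : ℤ → ℝ) *ᵥ δ) (by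
    rw [← hεδ, aut_RU]
    have e1 : num (RU U V) τ *ᵥ Q = ci U *ᵥ (Matrix.of τ *ᵥ Q) := by
      unfold num RU
      rw [toBlocks_fromBlocks₁₁, toBlocks_fromBlocks₁₂, ci_zero, add_zero, mulVec_mulVec]
    have e2 : (fun i => ((((U.map (Int.cast : ℤ → ℝ))ᵀ *ᵥ ε) i : ℝ) : ℂ)) =
        (ci U)ᵀ *ᵥ fun i => (ε i : ℂ) := by
      funext i
      simp [ci, mulVec, dotProduct, transpose_apply]
    have e3 : (fun i => (((V.map (Int.cast : ℤ → ℝ) *ᵥ δ) i : ℝ) : ℂ)) =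
        ci V *ᵥ fun i => (δ i : ℂ) := by
      funext i
      simp [ci, mulVec, dotProduct]
    rw [e1, e2, e3]
    congr 1
    · rw [dotProduct_mulVec, ← mulVec_transpose, transpose_transpose]
    · rw [dotProduct_mulVec, ← mulVec_transpose])
  unfold th at key
  have e4 : (fun i => (((V.map (Int.cast : ℤ → ℝ) *ᵥ δ) i : ℝ) : ℂ)) =
      V.map (Int.cast : ℤ → ℂ) *ᵥ fun i => (δ i : ℂ) := by
    funext i
    simp [mulVec, dotProduct]
  rw [← e4]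
  exact key

theorem th_J_zero {τ : MM (g + 1)} (hτ : τ ∈ HH (g + 1)) (ε δ : Fin (g + 1) → ℝ)
    (h : th τ (Function.update ε 0 (δ 0)) (Function.update δ 0 (-ε 0)) = 0) :
    th (Jm τ) ε δ = 0 := by
  have h0 : τ 0 0 ≠ 0 := HH_00 hτ
  have hI : (-I * τ 0 0) ≠ 0 := mul_ne_zero (neg_ne_zero.2 I_ne_zero) h0
  rw [thc_J hτ] at h
  have e1 : Function.update (Function.update ε 0 (δ 0)) 0 (-(Function.update δ 0 (-ε 0) 0)) = ε := by
    simp
  have e2 : Function.update (Function.update δ 0 (-ε 0)) 0 (Function.update ε 0 (δ 0) 0) = δ := by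
    simp
  rw [e1, e2] at h
  refine (mul_eq_zero.1 h).resolve_left ?_
  refine mul_ne_zero (one_div_ne_zero ?_) (Complex.exp_ne_zero _)
  rw [Complex.cpow_def_of_ne_zero hI]
  exact Complex.exp_ne_zero _

theorem flat_JI {τ : MM (g + 1)} (hτ : τ ∈ HH (g + 1)) {v : Fin (g + 1) ⊕ Fin (g + 1) → ℤ}
    (h : FlatV τ v) : FlatV (act (JI 0) τ) (JI 0 *ᵥ v) := by
  obtain ⟨Q, c, h1, h2, h3⟩ := h
  have hd : (aut (JI 0) τ).det ≠ 0 := by
    rw [det_aut_JI]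
    exact HH_00 hτ
  obtain ⟨a1, a2, a3⟩ := flat_auto hd h1 h2
  refine ⟨aut (JI 0) τ *ᵥ Q, c, a1, a2, ?_⟩
  rw [a3]
  intro ε δ hεδ
  rw [act_JI hτ.1 (HH_00 hτ)]
  apply th_J_zero hτ
  apply h3
  rw [← hεδ]
  have e1 : num (JI 0) τ *ᵥ Q = Function.update (Matrix.of τ *ᵥ Q) 0 (-Q 0) := by
    rw [num_JI]
    funext i
    refine Fin.cases ?_ (fun i => ?_) i
    · simp [mulVec, dotProduct, Pi.single_apply]
    · simp [mulVec, dotProduct]
  have e2 : aut (JI 0) τ *ᵥ Q = Function.update Q 0 ((Matrix.of τ *ᵥ Q) 0) := by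
    rw [aut_JI]
    funext i
    refine Fin.cases ?_ (fun i => ?_) i
    · simp [mulVec, dotProduct]
    · simp [mulVec, dotProduct, Pi.single_apply]
  have e3 : (fun i => ((Function.update ε 0 (δ 0) i : ℝ) : ℂ)) =
      Function.update (fun i => (ε i : ℂ)) 0 (δ 0 : ℂ) := by
    funext i
    by_cases hi : i = 0
    · subst hi; simp
    · simp [hi]
  have e4 : (fun i => ((Function.update δ 0 (-ε 0) i : ℝ) : ℂ)) =
      Function.update (fun i => (δ i : ℂ)) 0 (-ε 0 : ℂ) := by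
    funext i
    by_cases hi : i = 0
    · subst hi; simp
    · simp [hi]
  rw [e1, e2, e3, e4, dot_update_right, dot_update_right, dot_update_left, dot_update_left]
  ring

theorem flat_act : ∀ M ∈ GG (g + 1), ∀ τ ∈ HH (g + 1), ∀ v, FlatV τ v →
    FlatV (act M τ) (M *ᵥ v) := by
  refine gg_ind ?_ ?_ ?_ ?_ ?_
  · intro τ _ v h
    rw [act_one, one_mulVec]
    exact h
  · intro M N _ hN h1 h2 τ hτ v hv
    obtain ⟨c1, c2⟩ := gg_HH N hN τ hτ
    rw [act_mul c1, ← mulVec_mulVec]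
    exact h1 _ c2 _ (h2 _ hτ _ hv)
  · intro B hB τ _ v h
    exact flat_TB hB h
  · intro U V h1 h2 τ _ v h
    exact flat_RU h1 h2 h
  · intro τ hτ v h
    exact flat_JI hτ h

end Run7.h92
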