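import Pool.Agent.Run7.h92.Dec

/-!
# The modular forms
-/

namespace Run7.h92

open Matrix Complex

variable {g : ℕ}

/-- power sums of numbers, not all zero, do not all vanish -/
theorem power_sums {ι : Type*} (s : Finset ι) (a : ι → ℂ) {i0 : ι} (hi0 : i0 ∈ s) (h0 : a i0 ≠ 0) :
    ∃ l : ℕ, 0 < l ∧ ∑ i ∈ s, a i ^ l ≠ 0 := by
  classical
  by_contra hcon
  push Not at hcon
  have h1 : ∀ P : Polynomial ℂ, ∑ i ∈ s, a i * P.eval (a i) = 0 := by
    intro P
    have h2 : ∀ i, a i * P.eval (a i) = ∑ l ∈ Finset.range (P.natDegree + 1),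
        P.coeff l * a i ^ (l + 1) := by
      intro i
      rw [Polynomial.eval_eq_sum_range, Finset.mul_sum]
      exact Finset.sum_congr rfl fun l _ => by ring
    simp_rw [h2]
    rw [Finset.sum_comm]
    refine Finset.sum_eq_zero fun l _ => ?_
    rw [← Finset.mul_sum, hcon (l + 1) (Nat.succ_pos l), mul_zero]
  set P : Polynomial ℂ := ∏ c ∈ (s.image a).erase (a i0), (Polynomial.X - Polynomial.C c) with hP
  have hev : ∀ x, P.eval x = ∏ c ∈ (s.image a).erase (a i0), (x - c) := by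
    intro x
    rw [hP, Polynomial.eval_prod]
    simp
  have h3 : ∀ i ∈ s, a i * P.eval (a i) = if a i = a i0 then a i0 * P.eval (a i0) else 0 := by
    intro i hi
    by_cases h : a i = a i0
    · rw [if_pos h, h]
    · rw [if_neg h, hev]
      have : (∏ c ∈ (s.image a).erase (a i0), (a i - c)) = 0 := by
        apply Finset.prod_eq_zero (Finset.mem_erase.2 ⟨h, Finset.mem_image_of_mem a hi⟩)
        ring
      rw [this, mul_zero]
  have h4 := h1 P
  rw [Finset.sum_congr rfl h3, ← Finset.sum_filter, Finset.sum_const, nsmul_eq_mul] at h4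
  have h5 : P.eval (a i0) ≠ 0 := by
    rw [hev]
    refine Finset.prod_ne_zero_iff.2 fun c hc => ?_
    exact sub_ne_zero.2 (Finset.mem_erase.1 hc).1.symm
  have h6 : ((s.filter fun i => a i = a i0).card : ℂ) ≠ 0 := by
    rw [Nat.cast_ne_zero, ← Nat.pos_iff_ne_zero, Finset.card_pos]
    exact ⟨i0, Finset.mem_filter.2 ⟨hi0, rfl⟩⟩
  exact mul_ne_zero h6 (mul_ne_zero h0 h5) h4

/-- unimodular vectors -/
def Um {N : ℕ} (u : CN N g) : Prop := ∀ k : ZMod N, k ≠ 0 → k • u ≠ 0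

open Classical in
/-- the admissible exponents -/
noncomputable def WW (N n M g : ℕ) [NeZero N] : Finset (CN N g → ℕ) :=
  (Fintype.piFinset fun _ => Finset.range (M + 1)).filter fun w =>
    ∑ x, w x = M ∧ ∀ u : CN N g, Um u → (M : ℝ) / 12 ≤ ∑ x, (w x : ℝ) * gf (bq n u x)

theorem mem_WW {N n M : ℕ} [NeZero N] {w : CN N g → ℕ} : w ∈ WW N n M g ↔
    ∑ x, w x = M ∧ ∀ u : CN N g, Um u → (M : ℝ) / 12 ≤ ∑ x, (w x : ℝ) * gf (bq n u x) := by
  classical
  unfold WW
  rw [Finset.mem_filter, Fintype.mem_piFinset]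
  constructor
  · exact fun h => h.2
  · intro h
    refine ⟨fun x => ?_, h⟩
    rw [Finset.mem_range, ← h.1]
    exact Nat.lt_succ_of_le (Finset.single_le_sum (fun _ _ => Nat.zero_le _) (Finset.mem_univ x))

/-- the monomials in theta constants -/
noncomputable def mon {N : ℕ} [NeZero N] (w : CN N g → ℕ) (τ : MM g) : ℂ := ∏ x, FF N τ x ^ w x

/-- the forms -/
noncomputable def ff (N n M l : ℕ) [NeZero N] (τ : MM g) : ℂ := ∑ w ∈ WW N n M g, mon w τ ^ l

theorem ff_act {N n M l : ℕ} [NeZero N] (hn : N = 2 * n) {S : Z2 (g + 1)} (hS : S ∈ GG (g + 1))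
    {τ : MM (g + 1)} (hτ : τ ∈ HH (g + 1)) :
    ff N n M l (act S τ) = (aut S τ).det ^ (12 * (N ^ 2 * M * l)) * ff N n M l τ := by
  classical
  obtain ⟨σ, ρ, a1, a2, a3, a4⟩ := Mv_all hn S hS
  set φ : (CN N (g + 1) → ℕ) → (CN N (g + 1) → ℕ) := fun w x => w (σ.symm x) with hφ
  have hφi : Function.Injective φ := by
    intro w w' h
    funext x
    have := congrFun h (σ x)
    simpa [hφ] using this
  have hφm : ∀ w ∈ WW N n M (g + 1), φ w ∈ WW N n M (g + 1) := by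
    intro w hw
    rw [mem_WW] at hw ⊢
    refine ⟨?_, fun u hu => ?_⟩
    · rw [← hw.1, ← σ.sum_comp]
      simp [hφ]
    · have h1 := hw.2 (ρ u) (by
        intro k hk h
        rw [← a3] at h
        exact hu k hk (a4 _ h))
      refine h1.trans (le_of_eq ?_)
      rw [← σ.sum_comp (fun x => (φ w x : ℝ) * gf (bq n u x))]
      refine Finset.sum_congr rfl fun x _ => ?_
      rw [a2]
      simp [hφ]
  have hφs : (WW N n M (g + 1)).image φ = WW N n M (g + 1) := by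
    apply Finset.eq_of_subset_of_card_le
    · intro w hw
      obtain ⟨w', hw', rfl⟩ := Finset.mem_image.1 hw
      exact hφm w' hw'
    · rw [Finset.card_image_of_injective _ hφi]
  have hmon : ∀ w ∈ WW N n M (g + 1), mon w (act S τ) ^ l =
      (aut S τ).det ^ (12 * (N ^ 2 * M * l)) * mon (φ w) τ ^ l := by
    intro w hw
    have hw1 := (mem_WW.1 hw).1
    have h2 : mon w (act S τ) = (aut S τ).det ^ (12 * N ^ 2 * M) * mon (φ w) τ := by
      unfold mon
      simp_rw [a1 τ hτ, mul_pow]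
      rw [Finset.prod_mul_distrib]
      congr 1
      · simp_rw [← pow_mul]
        rw [Finset.prod_pow_eq_pow_sum, ← Finset.mul_sum, hw1]
      · rw [← σ.prod_comp (fun x => FF N τ x ^ φ w x)]
        refine Finset.prod_congr rfl fun x _ => ?_
        simp [hφ]
    rw [h2, mul_pow, ← pow_mul]
    congr 2
    ring
  unfold ff
  rw [Finset.sum_congr rfl hmon, ← Finset.mul_sum]
  congr 1
  conv_rhs => rw [← hφs, Finset.sum_image (fun _ _ _ _ h => hφi h)]

/-- primitive vectors -/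
theorem exists_prim {v : Fin (g + 1) → ℤ} (hv : v ≠ 0) :
    ∃ (d : ℤ) (v0 r : Fin (g + 1) → ℤ), d ≠ 0 ∧ (∀ i, v i = d * v0 i) ∧ ∑ i, r i * v0 i = 1 := by
  obtain ⟨U, V, h1, h2, d, hd, h3⟩ := exists_gl _ v le_rfl hv
  refine ⟨d, V *ᵥ Pi.single 0 1, U 0, hd, ?_, ?_⟩
  · intro i
    have h4 : v = V *ᵥ (U *ᵥ v) := by rw [mulVec_mulVec, h2, one_mulVec]
    rw [h4, h3, mulVec_smul]
    rfl
  · have h5 : (U *ᵥ (V *ᵥ Pi.single 0 1)) 0 = (1 : ℤ) := by
      rw [mulVec_mulVec, h1, one_mulVec]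
      simp
    exact h5

theorem um_prim {N : ℕ} {v0 r : Fin g → ℤ} (h : ∑ i, r i * v0 i = 1) :
    Um (rd N v0 0) := by
  intro k hk h0
  apply hk
  have h1 : ∀ i, k * ((v0 i : ℤ) : ZMod N) = 0 := by
    intro i
    have := congrFun (congrArg Prod.fst h0) i
    simpa [rd] using this
  have h2 : (((∑ i, r i * v0 i : ℤ)) : ZMod N) = 1 := by rw [h]; simp
  calc k = k * (((∑ i, r i * v0 i : ℤ)) : ZMod N) := by rw [h2, mul_one]
    _ = ∑ i, ((r i : ℤ) : ZMod N) * (k * ((v0 i : ℤ) : ZMod N)) := by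
        push_cast
        rw [Finset.mul_sum]
        exact Finset.sum_congr rfl fun i _ => by ring
    _ = 0 := by simp [h1]

/-- moving towards the boundary -/
noncomputable def mv (τ : MM g) (t : ℂ) (v : Fin g → ℤ) : MM g := fun i j => τ i j + t * ((v i : ℂ) * v j)

theorem sq_ge (x : ℝ) (hx : |x| ≤ 1 / 2) (m : ℤ) : x ^ 2 ≤ (x + m) ^ 2 := by
  have h1 : |(m : ℝ)| ≤ (m : ℝ) ^ 2 := by
    rw [← sq_abs]
    rcases eq_or_ne m 0 with h | h
    · subst h; simp
    · have : (1 : ℝ) ≤ |(m : ℝ)| := by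
        have := Int.one_le_abs h
        exact_mod_cast this
      nlinarith
  have h2 : |x * m| ≤ 1 / 2 * |(m : ℝ)| := by
    rw [abs_mul]
    gcongr
  have h3 := (abs_le.1 h2).1
  nlinarith

theorem bound_th {N n : ℕ} [NeZero N] (hn : N = 2 * n) {c : ℝ} (hc : 0 < c) {τ : MM g}
    (hLB : LB c τ) {d : ℤ} (hd : d ≠ 0) {v v0 : Fin g → ℤ} (hv : ∀ i, v i = d * v0 i) (x : CN N g)
    {t : ℂ} (ht : 0 ≤ t.im) :
    ‖th (mv τ t v) (fun i => (((x.1 i).val : ℤ) : ℝ) / N) (fun i => (((x.2 i).val : ℤ) : ℝ) / N)‖ ≤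
      (∑' m, ‖cexp (ex τ (fun i => (((x.1 i).val : ℤ) : ℝ) / N)
        (fun i => (((((x.2 i).val : ℤ) : ℝ) / N : ℝ) : ℂ)) m)‖) *
        Real.exp (-(Real.pi * t.im * gf (bq n (rd N v0 0) x))) := by
  have hN0 : (N : ℝ) ≠ 0 := Nat.cast_ne_zero.2 (NeZero.ne N)
  have hNp : (0 : ℝ) < N := Nat.cast_pos.2 (NeZero.pos N)
  have hN1 : (N : ℝ) = 2 * n := by rw [hn]; push_cast; rfl
  set ε : Fin g → ℝ := fun i => (((x.1 i).val : ℤ) : ℝ) / N with hε
  set z : Fin g → ℂ := fun i => (((((x.2 i).val : ℤ) : ℝ) / N : ℝ) : ℂ) with hz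
  have hs : Summable fun m => ‖cexp (ex τ ε z m)‖ := (summable_thc hc hLB ε z).norm
  have hS := (hs.hasSum).mul_right (Real.exp (-(Real.pi * t.im * gf (bq n (rd N v0 0) x))))
  refine tsum_of_norm_bounded hS fun m => ?_
  have e1 : ex (mv τ t v) ε z m = ex τ ε z m +
      Real.pi * I * (t * (((∑ i, (v i : ℝ) * ((m i : ℝ) + ε i)) ^ 2 : ℝ) : ℂ)) := by
    unfold ex mv
    have e2 : ∑ i, ∑ j, ((m i : ℂ) + ε i) * (τ i j + t * ((v i : ℂ) * v j)) * ((m j : ℂ) + ε j) =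
        ∑ i, ∑ j, ((m i : ℂ) + ε i) * τ i j * ((m j : ℂ) + ε j) +
          t * (((∑ i, (v i : ℝ) * ((m i : ℝ) + ε i)) ^ 2 : ℝ) : ℂ) := by
      push_cast
      rw [sq, Finset.sum_mul_sum, Finset.mul_sum, ← Finset.sum_add_distrib]
      refine Finset.sum_congr rfl fun i _ => ?_
      rw [Finset.mul_sum, ← Finset.sum_add_distrib]
      exact Finset.sum_congr rfl fun j _ => by ring
    rw [e2]
    ring
  show ‖cexp (ex (mv τ t v) ε z m)‖ ≤ _
  rw [e1, Complex.exp_add, norm_mul]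
  refine mul_le_mul_of_nonneg_left ?_ (norm_nonneg _)
  rw [Complex.norm_exp, Real.exp_le_exp]
  have e3 : (Real.pi * I * (t * (((∑ i, (v i : ℝ) * ((m i : ℝ) + ε i)) ^ 2 : ℝ) : ℂ))).re =
      -(Real.pi * t.im * (∑ i, (v i : ℝ) * ((m i : ℝ) + ε i)) ^ 2) := by
    generalize (∑ i, (v i : ℝ) * ((m i : ℝ) + ε i)) ^ 2 = Y
    rw [show (Real.pi * I * (t * (Y : ℂ))) = ((Real.pi * Y : ℝ) : ℂ) * (I * t) by push_cast; ring,
      Complex.re_ofReal_mul]
    simp [Complex.mul_re]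
    ring
  rw [e3]
  -- the key inequality
  set X : ℝ := ∑ i, (v0 i : ℝ) * ((m i : ℝ) + ε i) with hX
  have e4 : ∑ i, (v i : ℝ) * ((m i : ℝ) + ε i) = d * X := by
    rw [hX, Finset.mul_sum]
    refine Finset.sum_congr rfl fun i _ => ?_
    rw [hv i]
    push_cast
    ring
  have hd1 : (1 : ℝ) ≤ (d : ℝ) ^ 2 := by
    have h1 : (1 : ℤ) ≤ |d| := Int.one_le_abs hd
    have h2 : (1 : ℝ) ≤ |(d : ℝ)| := by exact_mod_cast h1
    rw [← sq_abs]
    nlinarith
  have e5 : gf (bq n (rd N v0 0) x) ≤ X ^ 2 := by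
    set r := bq n (rd N v0 0) x with hr
    have h1 : ((r.val : ℤ) : ZMod N) = ((∑ i, v0 i * ((x.1 i).val : ℤ) + n : ℤ) : ZMod N) := by
      rw [hr]
      unfold bq dp rd
      simp [dotProduct]
    obtain ⟨k, hk⟩ := (ZMod.intCast_eq_intCast_iff_dvd_sub _ _ N).1 h1
    have hkr : (∑ i, (v0 i : ℝ) * ((x.1 i).val : ℝ)) + n - r.val = N * k := by
      exact_mod_cast hk
    have e6 : X = ((r.val : ℝ) / N - 1 / 2) + ((∑ i, v0 i * m i + k : ℤ) : ℝ) := by
      have e7 : X = ∑ i, (v0 i : ℝ) * (m i : ℝ) + (∑ i, (v0 i : ℝ) * ((x.1 i).val : ℝ)) / N := by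
        rw [hX, Finset.sum_div, ← Finset.sum_add_distrib]
        refine Finset.sum_congr rfl fun i _ => ?_
        rw [hε]
        push_cast
        ring
      rw [e7]
      push_cast
      have e8 : (∑ i, (v0 i : ℝ) * ((x.1 i).val : ℝ)) = N * k + r.val - n := by linarith
      rw [e8, hN1]
      have hn0 : (n : ℝ) ≠ 0 := by
        intro h
        rw [h, mul_zero] at hN1
        exact hN0 hN1
      field_simp
      ring
    have hr1 : (r.val : ℝ) < N := by exact_mod_cast r.val_lt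
    have hr0 : (0 : ℝ) ≤ r.val := Nat.cast_nonneg _
    have h2 : |(r.val : ℝ) / N - 1 / 2| ≤ 1 / 2 := by
      rw [abs_le]
      constructor
      · have : 0 ≤ (r.val : ℝ) / N := by positivity
        linarith
      · have : (r.val : ℝ) / N ≤ 1 := by
          rw [div_le_one hNp]
          exact hr1.le
        linarith
    rw [e6]
    refine le_trans (le_of_eq ?_) (sq_ge _ h2 _)
    unfold gf
    ring
  rw [e4]
  have h5 : gf (bq n (rd N v0 0) x) ≤ (d * X) ^ 2 := by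
    rw [mul_pow]
    nlinarith [sq_nonneg X]
  have h6 : Real.pi * t.im * gf (bq n (rd N v0 0) x) ≤ Real.pi * t.im * (d * X) ^ 2 :=
    mul_le_mul_of_nonneg_left h5 (mul_nonneg Real.pi_pos.le ht)
  linarith

theorem ff_bound {N n M l : ℕ} [NeZero N] (hn : N = 2 * n) {τ : MM (g + 1)}
    (hτ : τ ∈ HH (g + 1)) {v : Fin (g + 1) → ℤ} (hv : v ≠ 0) :
    ∃ C : ℝ, ∀ t : ℂ, 0 ≤ t.im →
      ‖ff N n M l (mv τ t v)‖ ≤ C * Real.exp (-(2 * Real.pi * ((N ^ 2 * M * l : ℕ) : ℝ) * t.im)) := by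
  obtain ⟨hs, c, hc, hLB⟩ := hτ
  obtain ⟨d, v0, r, hd, hv0, hr⟩ := exists_prim hv
  set K : CN N (g + 1) → ℝ := fun x => ∑' m, ‖cexp (ex τ (fun i => (((x.1 i).val : ℤ) : ℝ) / N)
        (fun i => (((((x.2 i).val : ℤ) : ℝ) / N : ℝ) : ℂ)) m)‖ with hK
  have hK0 : ∀ x, 0 ≤ K x := fun x => tsum_nonneg fun m => norm_nonneg _
  have hFF : ∀ (x : CN N (g + 1)) (t : ℂ), 0 ≤ t.im → ‖FF N (mv τ t v) x‖ ≤
      K x ^ (24 * N ^ 2) *
        Real.exp (-(24 * (N : ℝ) ^ 2 * (Real.pi * t.im) * gf (bq n (rd N v0 0) x))) := by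
    intro x t ht
    unfold FF Fz
    rw [norm_pow]
    have h1 := bound_th hn hc hLB hd hv0 x ht
    calc _ ≤ (K x * Real.exp (-(Real.pi * t.im * gf (bq n (rd N v0 0) x)))) ^ (24 * N ^ 2) := by
          gcongr
      _ = _ := by
          rw [mul_pow, ← Real.exp_nat_mul]
          congr 2
          push_cast
          ring
  have hmon : ∀ w ∈ WW N n M (g + 1), ∀ t : ℂ, 0 ≤ t.im → ‖mon w (mv τ t v)‖ ≤
      (∏ x, (K x ^ (24 * N ^ 2)) ^ w x) *
        Real.exp (-(2 * Real.pi * ((N ^ 2 * M : ℕ) : ℝ) * t.im)) := by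
    intro w hw t ht
    have hw2 := (mem_WW.1 hw).2 _ (um_prim hr)
    unfold mon
    rw [norm_prod]
    calc ∏ x, ‖FF N (mv τ t v) x ^ w x‖ ≤ ∏ x, ((K x ^ (24 * N ^ 2)) ^ w x *
          Real.exp (-(24 * (N : ℝ) ^ 2 * (Real.pi * t.im) * (w x * gf (bq n (rd N v0 0) x))))) := by
          refine Finset.prod_le_prod (fun x _ => norm_nonneg _) fun x _ => ?_
          rw [norm_pow]
          calc ‖FF N (mv τ t v) x‖ ^ w x ≤ (K x ^ (24 * N ^ 2) * Real.exp
                (-(24 * (N : ℝ) ^ 2 * (Real.pi * t.im) * gf (bq n (rd N v0 0) x)))) ^ w x := by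
                gcongr
                exact hFF x t ht
            _ = _ := by
                rw [mul_pow, ← Real.exp_nat_mul]
                congr 2
                ring
      _ = (∏ x, (K x ^ (24 * N ^ 2)) ^ w x) * Real.exp (-(24 * (N : ℝ) ^ 2 * (Real.pi * t.im) *
          ∑ x, (w x * gf (bq n (rd N v0 0) x)))) := by
          rw [Finset.prod_mul_distrib, ← Real.exp_sum, Finset.mul_sum, Finset.sum_neg_distrib]
      _ ≤ _ := by
          refine mul_le_mul_of_nonneg_left ?_ (Finset.prod_nonneg fun x _ => by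
            have := hK0 x
            positivity)
          rw [Real.exp_le_exp]
          have h2 : 24 * (N : ℝ) ^ 2 * (Real.pi * t.im) * ((M : ℝ) / 12) ≤
              24 * (N : ℝ) ^ 2 * (Real.pi * t.im) *
              ∑ x, (w x * gf (bq n (rd N v0 0) x)) :=
            mul_le_mul_of_nonneg_left hw2 (by
              have := Real.pi_pos
              positivity)
          have h3 : 24 * (N : ℝ) ^ 2 * (Real.pi * t.im) * ((M : ℝ) / 12) =
              2 * Real.pi * ((N ^ 2 * M : ℕ) : ℝ) * t.im := by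
            push_cast
            ring
          linarith
  refine ⟨∑ w ∈ WW N n M (g + 1), (∏ x, (K x ^ (24 * N ^ 2)) ^ w x) ^ l, fun t ht => ?_⟩
  unfold ff
  rw [Finset.sum_mul]
  refine (norm_sum_le _ _).trans (Finset.sum_le_sum fun w hw => ?_)
  rw [norm_pow]
  calc ‖mon w (mv τ t v)‖ ^ l ≤ ((∏ x, (K x ^ (24 * N ^ 2)) ^ w x) *
        Real.exp (-(2 * Real.pi * ((N ^ 2 * M : ℕ) : ℝ) * t.im))) ^ l := by
        gcongr
        exact hmon w hw t ht
    _ = _ := by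
        rw [mul_pow, ← Real.exp_nat_mul]
        congr 2
        push_cast
        ring

theorem FF_diff {N : ℕ} {τ : MM g} (hτ : τ ∈ HH g) (x : CN N g) :
    DifferentiableAt ℂ (fun τ => FF N τ x) τ := by
  obtain ⟨hs, c, hc, hLB⟩ := hτ
  unfold FF Fz th
  refine DifferentiableAt.pow ?_ _
  have h1 := thc_diffAt hc hLB (fun i => (((x.1 i).val : ℤ) : ℝ) / N)
    (fun i => (((((x.2 i).val : ℤ) : ℝ) / N : ℝ) : ℂ))
  have h2 : DifferentiableAt ℂ (fun τ : MM g =>
    (τ, fun i => (((((x.2 i).val : ℤ) : ℝ) / N : ℝ) : ℂ))) τ := by fun_prop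
  exact DifferentiableAt.comp τ h1 h2

theorem diff_prod {ι : Type*} (s : Finset ι) (F : ι → MM g → ℂ) (τ : MM g)
    (h : ∀ i, DifferentiableAt ℂ (F i) τ) : DifferentiableAt ℂ (fun τ => ∏ i ∈ s, F i τ) τ := by
  classical
  induction s using Finset.induction_on with
  | empty => simp
  | insert i s hi ih =>
    simp_rw [Finset.prod_insert hi]
    exact (h i).fun_mul ih

theorem ff_diff {N n M l : ℕ} [NeZero N] {τ : MM g} (hτ : τ ∈ HH g) :
    DifferentiableAt ℂ (ff N n M l) τ := by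
  unfold ff mon
  refine DifferentiableAt.fun_sum fun w _ => DifferentiableAt.fun_pow ?_ _
  exact diff_prod _ (fun x τ => FF N τ x ^ w x) τ fun x => (FF_diff hτ x).fun_pow _

/-- nonvanishing -/
theorem ff_ne {τ : MM (g + 1)} (hτ : τ ∈ HH (g + 1)) :
    ∃ (n M l : ℕ) (_ : NeZero (2 * n)), 0 < M ∧ 0 < l ∧ ff (2 * n) n M l τ ≠ 0 := by
  obtain ⟨n, hn, w, ⟨x0, hx0⟩, h1, h2⟩ := good_all (g + 1) τ hτ
  have hM : 0 < ∑ x, w x :=
    Nat.pos_of_ne_zero fun h => hx0 (Finset.sum_eq_zero_iff.1 h x0 (Finset.mem_univ x0))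
  have hw : w ∈ WW (2 * n) n (∑ x, w x) (g + 1) := by
    rw [mem_WW]
    refine ⟨rfl, fun u hu => ?_⟩
    have := QQ_ineq rfl h2 hu
    push_cast
    exact this
  have hne : mon w τ ≠ 0 := by
    unfold mon
    refine Finset.prod_ne_zero_iff.2 fun x _ => ?_
    rcases eq_or_ne (w x) 0 with h | h
    · rw [h, pow_zero]; exact one_ne_zero
    · exact pow_ne_zero _ (h1 x h)
  obtain ⟨l, hl, h3⟩ := power_sums (WW (2 * n) n (∑ x, w x) (g + 1)) (fun w => mon w τ) hw hne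
  exact ⟨n, _, l, hn, hM, hl, h3⟩

end Run7.h92
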