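import Pool.Agent.Run7.h92.CertC

/-!
# Certificates from Gram matrices
-/

namespace Run7.h92

open Matrix

variable {k r N : ℕ}

/-- Cauchy-Schwarz for a form which is nonnegative on integral vectors -/
theorem int_cs {G : Matrix (Fin r) (Fin r) ℤ} (hsym : ∀ a b, G a b = G b a)
    (hpos : ∀ w : Fin r → ℤ, 0 ≤ w ⬝ᵥ G *ᵥ w) {u v : Fin r → ℤ} (hv : 0 < v ⬝ᵥ G *ᵥ v) :
    (v ⬝ᵥ G *ᵥ u) ^ 2 ≤ (v ⬝ᵥ G *ᵥ v) * (u ⬝ᵥ G *ᵥ u) := by
  have hs : u ⬝ᵥ G *ᵥ v = v ⬝ᵥ G *ᵥ u := by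
    have hT : Gᵀ = G := by
      ext i j
      exact hsym j i
    calc u ⬝ᵥ G *ᵥ v = (u ᵥ* G) ⬝ᵥ v := dotProduct_mulVec _ _ _
      _ = (Gᵀ *ᵥ u) ⬝ᵥ v := by rw [mulVec_transpose]
      _ = (G *ᵥ u) ⬝ᵥ v := by rw [hT]
      _ = v ⬝ᵥ G *ᵥ u := dotProduct_comm _ _
  set a := v ⬝ᵥ G *ᵥ v with ha
  set b := v ⬝ᵥ G *ᵥ u with hb
  set c := u ⬝ᵥ G *ᵥ u with hc
  have h1 := hpos (a • u - b • v)
  have h2 : (a • u - b • v) ⬝ᵥ G *ᵥ (a • u - b • v) = a * (a * c - b ^ 2) := by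
    rw [mulVec_sub, mulVec_smul, mulVec_smul, sub_dotProduct, dotProduct_sub, dotProduct_sub,
      smul_dotProduct, smul_dotProduct, dotProduct_smul, dotProduct_smul, smul_dotProduct,
      smul_dotProduct, dotProduct_smul, dotProduct_smul, hs, ← ha, ← hb, ← hc]
    simp only [smul_eq_mul]
    ring
  rw [h2] at h1
  have h3 : 0 ≤ a * c - b ^ 2 := nonneg_of_mul_nonneg_right h1 hv
  linarith

/-- certificates for all vectors of given value of a quadratic form -/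
structure FCert (G : Matrix (Fin r) (Fin r) ℤ) (m : ℤ) (P : (Fin r → ZMod 2) → ℕ) : Prop where
  pos : 0 < ∑ e, P e
  ge : ∀ b : Fin r → ZMod 2, b ≠ 0 → ∑ e, P e ≤ 3 * ∑ e, if b ⬝ᵥ e = 1 then P e else 0
  eq : ∀ w : Fin r → ℤ, w ⬝ᵥ G *ᵥ w = m →
    3 * (∑ e, if rd2 w ⬝ᵥ e = 1 then P e else 0) = ∑ e, P e
  good : ∀ e, P e ≠ 0 → ∃ β : Fin r → ℤ, rd2 β = e ∧ ∀ w : Fin r → ℤ,
    w ⬝ᵥ G *ᵥ w = m → |w ⬝ᵥ β| ≤ 1

theorem FCert.cert {G : Matrix (Fin r) (Fin r) ℤ} {m : ℤ} {P : (Fin r → ZMod 2) → ℕ}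
    (h : FCert G m P) {A : Fin k → Fin r → ℤ} (hA : ∀ l, A l ⬝ᵥ G *ᵥ A l = m) : Cert A P := by
  refine ⟨?_, h.ge, fun l => h.eq _ (hA l), fun e he => ?_⟩
  · obtain ⟨e, -, he⟩ := Finset.exists_ne_zero_of_sum_ne_zero h.pos.ne'
    exact ⟨e, he⟩
  · obtain ⟨β, h1, h2⟩ := h.good e he
    exact ⟨β, h1, fun l => h2 _ (hA l)⟩

/-- certificates from weighted families of vectors -/
theorem gram_cert {G : Matrix (Fin r) (Fin r) ℤ} {m d : ℤ} {p : Fin N → ℕ}
    {β u : Fin N → Fin r → ℤ} (hd : 0 < d) (hm : 0 < m)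
    (h1 : ∀ i, G *ᵥ u i = d • β i) (h2 : ∀ i, m * (β i ⬝ᵥ u i) < 4 * d)
    (h3 : ∀ a b, 3 * m * ∑ i, (p i : ℤ) * (β i a * β i b) = (∑ i, (p i : ℤ)) * G a b)
    (h4 : ∀ b : Fin r → ZMod 2, b ≠ 0 →
      ∑ i, p i ≤ 3 * ∑ i, if b ⬝ᵥ rd2 (β i) = 1 then p i else 0)
    (hp : 0 < ∑ i, p i) :
    FCert G m (fun e => ∑ i, if rd2 (β i) = e then p i else 0) ∧
      (∀ c : Fin r → ZMod 2, ∑ e, (if c ⬝ᵥ e = 1 then
        (∑ i, if rd2 (β i) = e then p i else 0) else 0) =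
        ∑ i, if c ⬝ᵥ rd2 (β i) = 1 then p i else 0) ∧
      (∑ e : Fin r → ZMod 2, (∑ i, if rd2 (β i) = e then p i else 0) = ∑ i, p i) ∧
      (∀ w : Fin r → ℤ, 0 ≤ w ⬝ᵥ G *ᵥ w) ∧ ∀ a b, G a b = G b a := by
  have hS : (0 : ℤ) < ∑ i, (p i : ℤ) := by
    rw [← Nat.cast_sum]
    exact_mod_cast hp
  -- the quadratic identity
  have hq : ∀ w : Fin r → ℤ, 3 * m * ∑ i, (p i : ℤ) * (w ⬝ᵥ β i) ^ 2 =
      (∑ i, (p i : ℤ)) * (w ⬝ᵥ G *ᵥ w) := by
    intro w
    have e1 : ∀ i, (w ⬝ᵥ β i) ^ 2 = ∑ a, ∑ b, w a * w b * (β i a * β i b) := by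
      intro i
      unfold dotProduct
      rw [sq, Finset.sum_mul_sum]
      exact Finset.sum_congr rfl fun a _ => Finset.sum_congr rfl fun b _ => by ring
    have e2 : w ⬝ᵥ G *ᵥ w = ∑ a, ∑ b, w a * w b * G a b := by
      unfold mulVec dotProduct
      refine Finset.sum_congr rfl fun a _ => ?_
      rw [Finset.mul_sum]
      exact Finset.sum_congr rfl fun b _ => by ring
    calc 3 * m * ∑ i, (p i : ℤ) * (w ⬝ᵥ β i) ^ 2
        = 3 * m * ∑ i, ∑ a, ∑ b, w a * w b * ((p i : ℤ) * (β i a * β i b)) := by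
          congr 1
          refine Finset.sum_congr rfl fun i _ => ?_
          rw [e1, Finset.mul_sum]
          refine Finset.sum_congr rfl fun a _ => ?_
          rw [Finset.mul_sum]
          exact Finset.sum_congr rfl fun b _ => by ring
      _ = 3 * m * ∑ a, ∑ b, w a * w b * ∑ i, (p i : ℤ) * (β i a * β i b) := by
          congr 1
          rw [Finset.sum_comm]
          refine Finset.sum_congr rfl fun a _ => ?_
          rw [Finset.sum_comm]
          refine Finset.sum_congr rfl fun b _ => ?_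
          rw [Finset.mul_sum]
      _ = ∑ a, ∑ b, w a * w b * (3 * m * ∑ i, (p i : ℤ) * (β i a * β i b)) := by
          rw [Finset.mul_sum]
          refine Finset.sum_congr rfl fun a _ => ?_
          rw [Finset.mul_sum]
          exact Finset.sum_congr rfl fun b _ => by ring
      _ = ∑ a, ∑ b, w a * w b * ((∑ i, (p i : ℤ)) * G a b) := by
          refine Finset.sum_congr rfl fun a _ => Finset.sum_congr rfl fun b _ => ?_
          rw [h3]
      _ = (∑ i, (p i : ℤ)) * (w ⬝ᵥ G *ᵥ w) := by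
          rw [e2, Finset.mul_sum]
          refine Finset.sum_congr rfl fun a _ => ?_
          rw [Finset.mul_sum]
          exact Finset.sum_congr rfl fun b _ => by ring
  have hsym : ∀ a b, G a b = G b a := by
    intro a b
    have e1 := h3 a b
    have e2 := h3 b a
    have e3 : ∑ i, (p i : ℤ) * (β i a * β i b) = ∑ i, (p i : ℤ) * (β i b * β i a) :=
      Finset.sum_congr rfl fun i _ => by ring
    rw [e3, e2] at e1
    exact (mul_left_cancel₀ hS.ne' e1).symm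
  have hpos : ∀ w : Fin r → ℤ, 0 ≤ w ⬝ᵥ G *ᵥ w := by
    intro w
    have e1 := hq w
    have e2 : 0 ≤ 3 * m * ∑ i, (p i : ℤ) * (w ⬝ᵥ β i) ^ 2 :=
      mul_nonneg (by positivity) (Finset.sum_nonneg fun i _ => by positivity)
    rw [e1] at e2
    exact nonneg_of_mul_nonneg_right e2 hS
  -- bounds
  have hb : ∀ i (w : Fin r → ℤ), w ⬝ᵥ G *ᵥ w = m → |w ⬝ᵥ β i| ≤ 1 := by
    intro i w hA
    have e1 := int_cs hsym hpos (u := u i) (v := w) (by rw [hA]; exact hm)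
    rw [h1, hA, dotProduct_smul, dotProduct_smul, smul_eq_mul, smul_eq_mul] at e1
    have e2 := h2 i
    rw [dotProduct_comm] at e2
    by_contra hc
    rw [not_le] at hc
    have e3 : (2 : ℤ) ^ 2 ≤ (w ⬝ᵥ β i) ^ 2 := by
      rw [← sq_abs (w ⬝ᵥ β i)]
      exact pow_le_pow_left₀ (by norm_num) (by omega) 2
    have e4 : (d * (w ⬝ᵥ β i)) ^ 2 = d * (d * (w ⬝ᵥ β i) ^ 2) := by ring
    rw [e4] at e1
    have e5 : m * (d * (u i ⬝ᵥ β i)) = d * (m * (u i ⬝ᵥ β i)) := by ring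
    rw [e5] at e1
    have e6 := le_of_mul_le_mul_left e1 hd
    nlinarith
  -- sums over classes
  have hsum : ∀ c : Fin r → ZMod 2, ∑ e, (if c ⬝ᵥ e = 1 then
      (∑ i, if rd2 (β i) = e then p i else 0) else 0) =
      ∑ i, if c ⬝ᵥ rd2 (β i) = 1 then p i else 0 := by
    intro c
    have e1 : ∀ e : Fin r → ZMod 2, (if c ⬝ᵥ e = 1 then
        (∑ i, if rd2 (β i) = e then p i else 0) else 0) =
        ∑ i, if rd2 (β i) = e then (if c ⬝ᵥ rd2 (β i) = 1 then p i else 0) else 0 := by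
      intro e
      by_cases h : c ⬝ᵥ e = 1
      · rw [if_pos h]
        refine Finset.sum_congr rfl fun i _ => ?_
        by_cases h' : rd2 (β i) = e
        · rw [if_pos h', if_pos h', h', if_pos h]
        · rw [if_neg h', if_neg h']
      · rw [if_neg h]
        symm
        refine Finset.sum_eq_zero fun i _ => ?_
        by_cases h' : rd2 (β i) = e
        · rw [if_pos h', h', if_neg h]
        · rw [if_neg h']
    simp only [e1]
    rw [Finset.sum_comm]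
    refine Finset.sum_congr rfl fun i _ => ?_
    rw [Finset.sum_ite_eq]
    simp
  have htot : ∑ e : Fin r → ZMod 2, (∑ i, if rd2 (β i) = e then p i else 0) = ∑ i, p i := by
    rw [Finset.sum_comm]
    refine Finset.sum_congr rfl fun i _ => ?_
    rw [Finset.sum_ite_eq]
    simp
  refine ⟨⟨?_, ?_, ?_, ?_⟩, hsum, htot, hpos, hsym⟩
  · rw [htot]
    exact hp
  · intro b hb0
    rw [htot, hsum]
    exact h4 b hb0
  · intro w hA
    rw [htot, hsum]
    have e1 := hq w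
    rw [hA] at e1
    have e2 : ∀ i, (w ⬝ᵥ β i) ^ 2 = if rd2 w ⬝ᵥ rd2 (β i) = 1 then 1 else 0 := by
      intro i
      rw [rd2_dot]
      have e3 := hb i w hA
      rw [abs_le] at e3
      have e4 : w ⬝ᵥ β i = 0 ∨ w ⬝ᵥ β i = 1 ∨ w ⬝ᵥ β i = -1 := by omega
      rcases e4 with e4 | e4 | e4 <;> rw [e4] <;> decide
    have e5 : (3 : ℤ) * ∑ i, (if rd2 w ⬝ᵥ rd2 (β i) = 1 then (p i : ℤ) else 0) =
        ∑ i, (p i : ℤ) := by
      have e6 : ∑ i, (p i : ℤ) * (w ⬝ᵥ β i) ^ 2 =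
          ∑ i, (if rd2 w ⬝ᵥ rd2 (β i) = 1 then (p i : ℤ) else 0) := by
        refine Finset.sum_congr rfl fun i _ => ?_
        rw [e2]
        split_ifs <;> simp
      rw [e6] at e1
      have e7 : m * (3 * ∑ i, (if rd2 w ⬝ᵥ rd2 (β i) = 1 then (p i : ℤ) else 0)) =
          m * ∑ i, (p i : ℤ) := by linarith
      exact mul_left_cancel₀ hm.ne' e7
    exact_mod_cast e5
  · intro e he
    obtain ⟨i, -, hi⟩ : ∃ i ∈ Finset.univ, (if rd2 (β i) = e then p i else 0) ≠ 0 :=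
      Finset.exists_ne_zero_of_sum_ne_zero he
    have h5 : rd2 (β i) = e := by
      by_contra hc
      rw [if_neg hc] at hi
      exact hi rfl
    exact ⟨β i, h5, fun w hw => hb i w hw⟩

end Run7.h92
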