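import Pool.Agent.Run7.h92.Siegel

/-!
# `12 M - D` has no stable base point in the moduli space of ppav

For every `g ≥ 1` and every point `τ` of the Siegel upper half-space there are an `m > 0` and a
Siegel modular form of level one, weight `12 m`, vanishing to order at least `m` along the
boundary divisor `D`, which does not vanish at `τ`.
-/

namespace Run7.h92.NoInteriorOld

open Matrix Complex

/-- The Siegel upper half-space: symmetric complex matrices with positive definite imaginary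
part. -/
def SiegelSpace (g : ℕ) : Set (Matrix (Fin g) (Fin g) ℂ) :=
  {τ | τ.IsSymm ∧ (τ.map Complex.im).PosDef}

/-- An integer matrix as a complex matrix. -/
def toC {g : ℕ} (A : Matrix (Fin g) (Fin g) ℤ) : Matrix (Fin g) (Fin g) ℂ :=
  A.map (Int.cast : ℤ → ℂ)

/-- `f` is holomorphic on the Siegel space and satisfies the transformation law of modular forms
of weight `k` for the full group `Sp(2g, ℤ)`. -/
def IsModularForm (g k : ℕ) (f : Matrix (Fin g) (Fin g) ℂ → ℂ) : Prop :=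
  DifferentiableOn ℂ f (SiegelSpace g) ∧
  ∀ A B C D : Matrix (Fin g) (Fin g) ℤ, fromBlocks A B C D ∈ symplecticGroup (Fin g) ℤ →
    ∀ τ ∈ SiegelSpace g,
      f ((toC A * τ + toC B) * (toC C * τ + toC D)⁻¹) = (toC C * τ + toC D).det ^ k * f τ

/-- `f` vanishes to order at least `m` along the boundary divisor: for every rank one integral
form `v vᵀ`, `v ≠ 0`, one has `|f (τ + t v vᵀ)| ≤ C |q|^m` for `q = exp (2 π i t)`, `Im t ≥ 0`. -/
def VanishesToOrder (g m : ℕ) (f : Matrix (Fin g) (Fin g) ℂ → ℂ) : Prop :=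
  ∀ v : Fin g → ℤ, v ≠ 0 → ∀ τ ∈ SiegelSpace g, ∃ C : ℝ, ∀ t : ℂ, 0 ≤ t.im →
    ‖f (τ + t • vecMulVec (fun i => (v i : ℂ)) (fun i => (v i : ℂ)))‖ ≤
      C * ‖cexp (2 * Real.pi * I * t)‖ ^ m

open Run7.h92 in
/-- The divisor `12 M - D` has no stable base point outside of the boundary, for any `g ≥ 1`. -/
theorem result (g : ℕ) (hg : 1 ≤ g) (τ : Matrix (Fin g) (Fin g) ℂ) (hτ : τ ∈ SiegelSpace g) :
    ∃ m : ℕ, 0 < m ∧ ∃ f : Matrix (Fin g) (Fin g) ℂ → ℂ,
      IsModularForm g (12 * m) f ∧ VanishesToOrder g m f ∧ f τ ≠ 0 := by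
  obtain ⟨g, rfl⟩ : ∃ h, g = h + 1 := ⟨g - 1, by omega⟩
  obtain ⟨n, M, l, hn, hM, hl, hne⟩ := ff_ne (HH_of_pos hτ.1 hτ.2)
  have hN : 0 < 2 * n := Nat.pos_of_ne_zero hn.out
  refine ⟨(2 * n) ^ 2 * M * l, by positivity, fun τ => ff (2 * n) n M l τ, ⟨?_, ?_⟩, ?_, hne⟩
  · intro τ hτ
    exact (ff_diff (HH_of_pos hτ.1 hτ.2)).differentiableWithinAt
  · intro A B C D hmem τ hτ
    have hHH := HH_of_pos hτ.1 hτ.2
    have hG : fromBlocks A B C D ∈ GG (g + 1) := by
      rw [GG_eq]
      exact hmem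
    have e1 : (toC A * τ + toC B) * (toC C * τ + toC D)⁻¹ = act (fromBlocks A B C D) τ := by
      unfold act num aut
      rw [toBlocks_fromBlocks₁₁, toBlocks_fromBlocks₁₂, toBlocks_fromBlocks₂₁,
        toBlocks_fromBlocks₂₂]
      rfl
    have e2 : toC C * τ + toC D = aut (fromBlocks A B C D) τ := by
      unfold aut
      rw [toBlocks_fromBlocks₂₁, toBlocks_fromBlocks₂₂]
      rfl
    rw [e1, e2]
    exact ff_act rfl hG hHH
  · intro v hv τ hτ
    obtain ⟨C, hC⟩ := ff_bound (N := 2 * n) (n := n) (M := M) (l := l) rfl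
      (HH_of_pos hτ.1 hτ.2) hv
    refine ⟨C, fun t ht => ?_⟩
    have h1 := hC t ht
    have e1 : (mv τ t v : MM (g + 1)) =
        τ + t • vecMulVec (fun i => (v i : ℂ)) (fun i => (v i : ℂ)) := rfl
    rw [e1] at h1
    refine h1.trans (le_of_eq ?_)
    congr 1
    rw [Complex.norm_exp, ← Real.exp_nat_mul]
    congr 1
    have : (2 * Real.pi * I * t : ℂ).re = -(2 * Real.pi * t.im) := by
      rw [show (2 * Real.pi * I * t : ℂ) = ((2 * Real.pi : ℝ) : ℂ) * (I * t) by push_cast; ring,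
        Complex.re_ofReal_mul]
      simp
    rw [this]
    ring

end Run7.h92.NoInteriorOld
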