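import Mathlib

/-!
# Minimal vectors in rank at most four: abstract form
-/

namespace Run7.h92

open Matrix

variable {r : ℕ}

/-- value of a quadratic form -/
def qv' (G : Matrix (Fin r) (Fin r) ℝ) (x : Fin r → ℝ) : ℝ := x ⬝ᵥ (G *ᵥ x)

theorem bil_symm {G : Matrix (Fin r) (Fin r) ℝ} (hG : Gᵀ = G) (x y : Fin r → ℝ) :
    x ⬝ᵥ (G *ᵥ y) = y ⬝ᵥ (G *ᵥ x) := by
  rw [dotProduct_mulVec, ← mulVec_transpose, hG, dotProduct_comm]

theorem qv_sub_single {G : Matrix (Fin r) (Fin r) ℝ} (hG : Gᵀ = G) (h1 : ∀ i, G i i = 1)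
    (x : Fin r → ℝ) (s : ℝ) (i : Fin r) :
    qv' G (x - s • Pi.single i 1) = qv' G x - 2 * s * (G *ᵥ x) i + s ^ 2 := by
  have e1 : (Pi.single i 1 : Fin r → ℝ) ⬝ᵥ (G *ᵥ x) = (G *ᵥ x) i := by
    rw [single_dotProduct, one_mul]
  have e2 : x ⬝ᵥ (G *ᵥ Pi.single i 1) = (G *ᵥ x) i := by
    rw [bil_symm hG, e1]
  have e3 : (Pi.single i 1 : Fin r → ℝ) ⬝ᵥ (G *ᵥ Pi.single i 1) = 1 := by
    rw [single_dotProduct, one_mul, mulVec_single_one]
    exact h1 i
  unfold qv'
  rw [mulVec_sub, mulVec_smul, sub_dotProduct, dotProduct_sub, dotProduct_sub, smul_dotProduct,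
    smul_dotProduct, dotProduct_smul, dotProduct_smul, e1, e2, e3]
  simp only [smul_eq_mul]
  ring

/-- the weighted identity -/
theorem kz_identity {G : Matrix (Fin r) (Fin r) ℝ} (hG : Gᵀ = G) (h1 : ∀ i, G i i = 1)
    (x : Fin r → ℝ) :
    ∑ i, |x i| * qv' G (x - (SignType.sign (x i) : ℝ) • Pi.single i 1) =
      ((∑ i, |x i|) - 2) * qv' G x + ∑ i, |x i| := by
  have e1 : ∀ i, |x i| * qv' G (x - (SignType.sign (x i) : ℝ) • Pi.single i 1) =
      |x i| * qv' G x - 2 * (x i * (G *ᵥ x) i) + |x i| := by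
    intro i
    rw [qv_sub_single hG h1]
    have h2 : |x i| * (SignType.sign (x i) : ℝ) = x i := abs_mul_sign (x i)
    have h3 : |x i| * (SignType.sign (x i) : ℝ) ^ 2 = |x i| := by
      rw [sq, ← mul_assoc, h2]
      exact self_mul_sign (x i)
    calc _ = |x i| * qv' G x - 2 * ((|x i| * (SignType.sign (x i) : ℝ)) * (G *ᵥ x) i) +
          |x i| * (SignType.sign (x i) : ℝ) ^ 2 := by ring
      _ = _ := by rw [h2, h3]
  simp_rw [e1]
  rw [Finset.sum_add_distrib, Finset.sum_sub_distrib, ← Finset.sum_mul, ← Finset.mul_sum]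
  have e2 : ∑ i, x i * (G *ᵥ x) i = qv' G x := rfl
  rw [e2]
  ring

/-- a lattice in frame coordinates -/
structure FrL (G : Matrix (Fin r) (Fin r) ℝ) (Λ : AddSubgroup (Fin r → ℝ)) : Prop where
  sym : Gᵀ = G
  dia : ∀ i, G i i = 1
  mem : ∀ i, Pi.single i 1 ∈ Λ
  ge : ∀ x ∈ Λ, x ≠ 0 → 1 ≤ qv' G x

theorem FrL.int_mem {G : Matrix (Fin r) (Fin r) ℝ} {Λ : AddSubgroup (Fin r → ℝ)} (h : FrL G Λ)
    (n : Fin r → ℤ) : (fun i => (n i : ℝ)) ∈ Λ := by
  have : (fun i => (n i : ℝ)) = ∑ i, n i • (Pi.single i 1 : Fin r → ℝ) := by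
    funext j
    rw [Finset.sum_apply, Finset.sum_eq_single j]
    · simp
    · intro i _ hi
      simp [Ne.symm hi]
    · intro h
      exact absurd (Finset.mem_univ _) h
  rw [this]
  exact Λ.sum_mem fun i _ => Λ.zsmul_mem (h.mem i) _

/-- the fundamental estimate -/
theorem FrL.two_le {G : Matrix (Fin r) (Fin r) ℝ} {Λ : AddSubgroup (Fin r → ℝ)} (h : FrL G Λ)
    {x : Fin r → ℝ} (hx : x ∈ Λ) (h0 : x ≠ 0) (hb : ∀ i, |x i| ≤ 1 / 2) : 2 ≤ ∑ i, |x i| := by
  have h1 := kz_identity h.sym h.dia x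
  have hs : ∀ i, (SignType.sign (x i) : ℝ) • (Pi.single i 1 : Fin r → ℝ) ∈ Λ := by
    intro i
    rcases lt_trichotomy (x i) 0 with h2 | h2 | h2
    · rw [sign_neg h2]
      have := Λ.neg_mem (h.mem i)
      simpa using this
    · rw [h2]
      simp
    · rw [sign_pos h2]
      simpa using h.mem i
  have h2 : ∀ i, 1 ≤ qv' G (x - (SignType.sign (x i) : ℝ) • Pi.single i 1) := by
    intro i
    refine h.ge _ (Λ.sub_mem hx (hs i)) ?_
    intro h3
    have h4 := congrFun h3 i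
    simp only [Pi.sub_apply, Pi.smul_apply, Pi.single_eq_same, smul_eq_mul, mul_one,
      Pi.zero_apply] at h4
    rcases lt_trichotomy (x i) 0 with h5 | h5 | h5
    · rw [sign_neg h5] at h4
      have h6 := (abs_le.1 (hb i)).1
      simp at h4
      linarith
    · rw [h5] at h3
      simp at h3
      exact h0 h3
    · rw [sign_pos h5] at h4
      have h6 := (abs_le.1 (hb i)).2
      simp at h4
      linarith
  have h3 : ∑ i, |x i| ≤ ∑ i, |x i| * qv' G (x - (SignType.sign (x i) : ℝ) • Pi.single i 1) := by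
    refine Finset.sum_le_sum fun i _ => ?_
    have := mul_le_mul_of_nonneg_left (h2 i) (abs_nonneg (x i))
    linarith
  rw [h1] at h3
  have h4 : 0 ≤ ((∑ i, |x i|) - 2) * qv' G x := by linarith
  have h5 : 0 < qv' G x := lt_of_lt_of_le one_pos (h.ge x hx h0)
  by_contra hc
  push Not at hc
  have := mul_neg_of_neg_of_pos (show (∑ i, |x i|) - 2 < 0 by linarith) h5
  linarith

/-- rank at most four: integrality up to halves -/
theorem FrL.int_or_half {G : Matrix (Fin r) (Fin r) ℝ} {Λ : AddSubgroup (Fin r → ℝ)}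
    (h : FrL G Λ) (hr : r ≤ 4) {x : Fin r → ℝ} (hx : x ∈ Λ) :
    (∀ i, ∃ n : ℤ, x i = n) ∨ (r = 4 ∧ ∀ i, ∃ n : ℤ, x i = n + 1 / 2) := by
  set y : Fin r → ℝ := fun i => x i - round (x i) with hy
  have hyb : ∀ i, |y i| ≤ 1 / 2 := fun i => abs_sub_round (x i)
  have hyΛ : y ∈ Λ := by
    have : y = x - fun i => ((round (x i) : ℤ) : ℝ) := rfl
    rw [this]
    exact Λ.sub_mem hx (h.int_mem _)
  by_cases h0 : y = 0
  · left
    intro i
    refine ⟨round (x i), ?_⟩
    have := congrFun h0 i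
    rw [hy] at this
    simp only [Pi.zero_apply] at this
    linarith
  · right
    have h1 := h.two_le hyΛ h0 hyb
    have h2 : ∑ i, |y i| ≤ ∑ _i : Fin r, (1 / 2 : ℝ) := Finset.sum_le_sum fun i _ => hyb i
    have h3 : ∑ _i : Fin r, (1 / 2 : ℝ) = (r : ℝ) / 2 := by
      rw [Finset.sum_const, Finset.card_univ, Fintype.card_fin, nsmul_eq_mul]
      ring
    rw [h3] at h2
    have h4 : (4 : ℝ) ≤ r := by linarith
    have h5 : r = 4 := by
      have : 4 ≤ r := by exact_mod_cast h4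
      omega
    refine ⟨h5, fun i => ?_⟩
    have h6 : |y i| = 1 / 2 := by
      by_contra hne
      have hlt : |y i| < 1 / 2 := lt_of_le_of_ne (hyb i) hne
      have h7 : ∑ j, |y j| < ∑ _j : Fin r, (1 / 2 : ℝ) :=
        Finset.sum_lt_sum (fun j _ => hyb j) ⟨i, Finset.mem_univ i, hlt⟩
      rw [h3] at h7
      have h8 : (r : ℝ) = 4 := by exact_mod_cast h5
      linarith
    rcases abs_eq (by norm_num : (0 : ℝ) ≤ 1 / 2) |>.1 h6 with h7 | h7
    · refine ⟨round (x i), ?_⟩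
      rw [hy] at h7
      simp only at h7
      linarith
    · refine ⟨round (x i) - 1, ?_⟩
      rw [hy] at h7
      simp only at h7
      push_cast
      linarith

/-- half-integral sign vectors -/
noncomputable def hs4 (s : Fin 4 → ℤ) : Fin 4 → ℝ := fun i => (s i : ℝ) / 2

theorem sum_abs_hs4 {s : Fin 4 → ℤ} (hs : ∀ i, s i = 1 ∨ s i = -1) : ∑ i, |hs4 s i| = 2 := by
  have : ∀ i, |hs4 s i| = 1 / 2 := by
    intro i
    unfold hs4
    rcases hs i with h | h <;> rw [h] <;> norm_num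
  simp_rw [this]
  norm_num

theorem FrL.hs4_mem {G : Matrix (Fin 4) (Fin 4) ℝ} {Λ : AddSubgroup (Fin 4 → ℝ)} (h : FrL G Λ)
    {x : Fin 4 → ℝ} (hx : x ∈ Λ) (hx2 : ∀ i, ∃ n : ℤ, x i = n + 1 / 2)
    {s : Fin 4 → ℤ} (hs : ∀ i, s i = 1 ∨ s i = -1) : hs4 s ∈ Λ := by
  choose n hn using hx2
  have e : hs4 s = x - fun i => ((n i + (if s i = 1 then 0 else 1) : ℤ) : ℝ) := by
    funext i
    simp only [Pi.sub_apply]
    rw [hn i]
    unfold hs4
    rcases hs i with h | h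
    · rw [h]; simp
    · rw [h]; norm_num
  rw [e]
  exact Λ.sub_mem hx (h.int_mem _)

theorem FrL.hs4_one {G : Matrix (Fin 4) (Fin 4) ℝ} {Λ : AddSubgroup (Fin 4 → ℝ)} (h : FrL G Λ)
    (hm : ∀ s : Fin 4 → ℤ, (∀ i, s i = 1 ∨ s i = -1) → hs4 s ∈ Λ)
    {s : Fin 4 → ℤ} (hs : ∀ i, s i = 1 ∨ s i = -1) : qv' G (hs4 s) = 1 := by
  -- flip the first sign
  have hs' : ∀ i, (Function.update s 0 (- s 0)) i = 1 ∨ (Function.update s 0 (- s 0)) i = -1 := by
    intro i
    by_cases hi : i = 0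
    · subst hi
      rw [Function.update_self]
      rcases hs 0 with h | h <;> rw [h] <;> simp
    · rw [Function.update_of_ne hi]
      exact hs i
  have hne : ∀ s : Fin 4 → ℤ, (∀ i, s i = 1 ∨ s i = -1) → hs4 s ≠ 0 := by
    intro s hs h0
    have := congrFun h0 0
    unfold hs4 at this
    rcases hs 0 with h | h <;> rw [h] at this <;> norm_num at this
  have hge : ∀ s : Fin 4 → ℤ, (∀ i, s i = 1 ∨ s i = -1) → 1 ≤ qv' G (hs4 s) := fun s hs =>
    h.ge _ (hm s hs) (hne s hs)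
  set s' := Function.update s 0 (- s 0) with hs'd
  have h1 := kz_identity h.sym h.dia (hs4 s')
  rw [sum_abs_hs4 hs'] at h1
  have hfl : ∀ i, (hs4 s' - (SignType.sign (hs4 s' i) : ℝ) • (Pi.single i 1 : Fin 4 → ℝ)) =
      hs4 (Function.update s' i (- s' i)) := by
    intro i
    funext j
    have hsg : (SignType.sign (hs4 s' i) : ℝ) = s' i := by
      rcases hs' i with h | h
      · have : 0 < hs4 s' i := by unfold hs4; rw [h]; norm_num
        rw [sign_pos this, h]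
        simp
      · have : hs4 s' i < 0 := by unfold hs4; rw [h]; norm_num
        rw [sign_neg this, h]
        simp
    rw [hsg]
    simp only [Pi.sub_apply, Pi.smul_apply, smul_eq_mul]
    unfold hs4
    by_cases hj : j = i
    · subst hj
      simp
      ring
    · rw [Function.update_of_ne hj, Pi.single_eq_of_ne hj]
      simp
  simp_rw [hfl] at h1
  have habs : ∀ i, |hs4 s' i| = 1 / 2 := by
    intro i
    unfold hs4
    rcases hs' i with h | h <;> rw [h] <;> norm_num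
  simp_rw [habs] at h1
  have hss : ∀ i j, (Function.update s' i (- s' i)) j = 1 ∨ (Function.update s' i (- s' i)) j = -1 := by
    intro i j
    by_cases hj : j = i
    · subst hj
      rw [Function.update_self]
      rcases hs' j with h | h <;> rw [h] <;> simp
    · rw [Function.update_of_ne hj]
      exact hs' j
  rw [Fin.sum_univ_four] at h1
  have g0 := hge _ (hss 0)
  have g1 := hge _ (hss 1)
  have g2 := hge _ (hss 2)
  have g3 := hge _ (hss 3)
  have e0 : Function.update s' 0 (- s' 0) = s := by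
    funext j
    by_cases hj : j = 0
    · subst hj
      rw [hs'd]
      simp
    · rw [hs'd, Function.update_of_ne hj, Function.update_of_ne hj]
  rw [e0] at g0 h1
  linarith

/-- orthogonality of the frame -/
theorem FrL.orth {G : Matrix (Fin 4) (Fin 4) ℝ} {Λ : AddSubgroup (Fin 4 → ℝ)} (h : FrL G Λ)
    {x : Fin 4 → ℝ} (hx : x ∈ Λ) (hx2 : ∀ i, ∃ n : ℤ, x i = n + 1 / 2) : G = 1 := by
  have hm : ∀ s : Fin 4 → ℤ, (∀ i, s i = 1 ∨ s i = -1) → hs4 s ∈ Λ := fun s hs => h.hs4_mem hx hx2 hs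
  have hone : ∀ a b c d : ℤ, (a = 1 ∨ a = -1) → (b = 1 ∨ b = -1) → (c = 1 ∨ c = -1) →
      (d = 1 ∨ d = -1) → qv' G (hs4 ![a, b, c, d]) = 1 := by
    intro a b c d ha hb hc hd
    apply h.hs4_one hm
    intro i
    fin_cases i
    · exact ha
    · exact hb
    · exact hc
    · exact hd
  have hsym : ∀ i j, G i j = G j i := fun i j => by
    conv_rhs => rw [← h.sym]
    rfl
  have d0 := h.dia 0
  have d1 := h.dia 1
  have d2 := h.dia 2
  have d3 := h.dia 3
  have s01 := hsym 1 0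
  have s02 := hsym 2 0
  have s03 := hsym 3 0
  have s12 := hsym 2 1
  have s13 := hsym 3 1
  have s23 := hsym 3 2
  have hexp : ∀ a b c d : ℤ, qv' G (hs4 ![a, b, c, d]) =
      ((a : ℝ) ^ 2 + b ^ 2 + c ^ 2 + d ^ 2) / 4 + (a * b * G 0 1 + a * c * G 0 2 + a * d * G 0 3 +
        b * c * G 1 2 + b * d * G 1 3 + c * d * G 2 3) / 2 := by
    intro a b c d
    unfold qv' hs4
    simp only [dotProduct, mulVec, Fin.sum_univ_four, Matrix.cons_val_zero, Matrix.cons_val_one,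
      Matrix.cons_val]
    rw [d0, d1, d2, d3, s01, s02, s03, s12, s13, s23]
    ring
  have p1 : (1 : ℤ) = 1 ∨ (1 : ℤ) = -1 := Or.inl rfl
  have m1 : (-1 : ℤ) = 1 ∨ (-1 : ℤ) = -1 := Or.inr rfl
  have t1 := hone 1 1 1 1 p1 p1 p1 p1
  have t2 := hone (-1) 1 1 1 m1 p1 p1 p1
  have t3 := hone 1 (-1) 1 1 p1 m1 p1 p1
  have t4 := hone 1 1 (-1) 1 p1 p1 m1 p1
  have t5 := hone 1 1 1 (-1) p1 p1 p1 m1
  have t6 := hone (-1) (-1) 1 1 m1 m1 p1 p1
  have t7 := hone (-1) 1 (-1) 1 m1 p1 m1 p1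
  have t8 := hone (-1) 1 1 (-1) m1 p1 p1 m1
  rw [hexp] at t1 t2 t3 t4 t5 t6 t7 t8
  push_cast at t1 t2 t3 t4 t5 t6 t7 t8
  have g01 : G 0 1 = 0 := by linarith
  have g02 : G 0 2 = 0 := by linarith
  have g03 : G 0 3 = 0 := by linarith
  have g12 : G 1 2 = 0 := by linarith
  have g13 : G 1 3 = 0 := by linarith
  have g23 : G 2 3 = 0 := by linarith
  ext i j
  fin_cases i <;> fin_cases j <;> simp [d0, d1, d2, d3, g01, g02, g03, g12, g13, g23, s01, s02, s03,
    s12, s13, s23]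

/-- integral vectors of the form of length one -/
theorem unit_vectors {G : Matrix (Fin 4) (Fin 4) ℝ} (hG : G = 1) {x : Fin 4 → ℝ}
    (hx : qv' G x = 1) : x 0 ^ 2 + x 1 ^ 2 + x 2 ^ 2 + x 3 ^ 2 = 1 := by
  rw [hG] at hx
  unfold qv' at hx
  rw [one_mulVec] at hx
  simp only [dotProduct, Fin.sum_univ_four] at hx
  linarith

end Run7.h92
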