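import Pool.Agent.Run7.h92.Prd

/-!
# Leading coefficients of theta constants along cones of rank one forms
-/

namespace Run7.h92

open Matrix Complex Filter Topology

variable {g k : ℕ}

/-- squared distance to the nearest integer -/
noncomputable def hmin (t : ℝ) : ℝ := (t - round t) ^ 2

theorem hmin_le (t : ℝ) (m : ℤ) : hmin t ≤ (t + m) ^ 2 := by
  have h := round_le t (-m)
  unfold hmin
  rw [← sq_abs, ← sq_abs (t + m)]
  have e : t - ((-m : ℤ) : ℝ) = t + m := by push_cast; ring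
  rw [e] at h
  exact pow_le_pow_left₀ (abs_nonneg _) h 2

theorem hmin_add_int (t : ℝ) (m : ℤ) : hmin (t + m) = hmin t := by
  unfold hmin
  rw [round_add_intCast]
  push_cast
  ring

/-- the pairing of an integral vector with a real vector -/
noncomputable def pv (v : Fin g → ℤ) (y : Fin g → ℝ) : ℝ := ∑ j, (v j : ℝ) * y j

theorem pv_add (v : Fin g → ℤ) (m : Fin g → ℤ) (y : Fin g → ℝ) :
    pv v (fun j => (m j : ℝ) + y j) = pv v y + ((∑ j, v j * m j : ℤ) : ℝ) := by
  unfold pv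
  push_cast
  rw [← Finset.sum_add_distrib]
  exact Finset.sum_congr rfl fun j _ => by ring

/-- the minimality condition -/
def Mn (V : Fin k → Fin g → ℤ) (ε : Fin g → ℝ) (m : Fin g → ℤ) : Prop :=
  ∀ i, (pv (V i) fun j => (m j : ℝ) + ε j) ^ 2 = hmin (pv (V i) ε)

open Classical in
/-- the leading coefficient of a theta function along a cone -/
noncomputable def cdv (V : Fin k → Fin g → ℤ) (τ : MM g) (ε : Fin g → ℝ) (z : Fin g → ℂ) : ℂ :=
  ∑' m, if Mn V ε m then cexp (ex τ ε z m) else 0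

/-- moving towards a boundary stratum -/
noncomputable def mvs (τ : MM g) (s : Fin k → ℝ) (V : Fin k → Fin g → ℤ) : MM g :=
  fun i j => τ i j + I * ∑ l, (s l : ℂ) * ((V l i : ℂ) * V l j)

theorem ex_mvs (τ : MM g) (s : Fin k → ℝ) (V : Fin k → Fin g → ℤ) (ε : Fin g → ℝ) (z : Fin g → ℂ)
    (m : Fin g → ℤ) : ex (mvs τ s V) ε z m = ex τ ε z m -
      ((Real.pi * ∑ l, s l * (pv (V l) fun j => (m j : ℝ) + ε j) ^ 2 : ℝ) : ℂ) := by
  unfold ex mvs
  have e2 : ∑ i, ∑ j, ((m i : ℂ) + ε i) * (τ i j + I * ∑ l, (s l : ℂ) * ((V l i : ℂ) * V l j)) *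
      ((m j : ℂ) + ε j) = ∑ i, ∑ j, ((m i : ℂ) + ε i) * τ i j * ((m j : ℂ) + ε j) +
        I * ∑ l, (s l : ℂ) * (((pv (V l) fun j => (m j : ℝ) + ε j) ^ 2 : ℝ) : ℂ) := by
    have e3 : ∀ l, (((pv (V l) fun j => (m j : ℝ) + ε j) ^ 2 : ℝ) : ℂ) =
        ∑ i, ∑ j, ((m i : ℂ) + ε i) * ((V l i : ℂ) * V l j) * ((m j : ℂ) + ε j) := by
      intro l
      unfold pv
      push_cast
      rw [sq, Finset.sum_mul_sum]
      exact Finset.sum_congr rfl fun i _ => Finset.sum_congr rfl fun j _ => by ring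
    simp_rw [e3]
    have e4 : I * ∑ l, (s l : ℂ) * ∑ i, ∑ j, ((m i : ℂ) + ε i) * ((V l i : ℂ) * V l j) *
        ((m j : ℂ) + ε j) = ∑ i, ∑ j, ((m i : ℂ) + ε i) * (I * ∑ l, (s l : ℂ) *
          ((V l i : ℂ) * V l j)) * ((m j : ℂ) + ε j) := by
      simp only [Finset.mul_sum, Finset.sum_mul]
      rw [Finset.sum_comm]
      refine Finset.sum_congr rfl fun i _ => ?_
      rw [Finset.sum_comm]
      refine Finset.sum_congr rfl fun j _ => ?_
      exact Finset.sum_congr rfl fun l _ => by ring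
    rw [e4, ← Finset.sum_add_distrib]
    refine Finset.sum_congr rfl fun i _ => ?_
    rw [← Finset.sum_add_distrib]
    exact Finset.sum_congr rfl fun j _ => by ring
  rw [e2]
  push_cast
  linear_combination (Real.pi : ℂ) * (∑ l, (s l : ℂ) *
    ((pv (V l) fun j => (m j : ℝ) + ε j : ℝ) : ℂ) ^ 2) * I_sq

theorem tendsto_coord (i : Fin k) : Tendsto (fun s : Fin k → ℝ => s i) atTop atTop :=
  tendsto_atTop_atTop.2 fun b => ⟨fun _ => b, fun _ ha => ha i⟩

/-- the limit of theta constants -/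
theorem lead_lim {τ : MM g} (hτ : τ ∈ HH g) (V : Fin k → Fin g → ℤ) (ε : Fin g → ℝ)
    (z : Fin g → ℂ) :
    Tendsto (fun s : Fin k → ℝ => thc (mvs τ s V) ε z *
      ((Real.exp (Real.pi * ∑ l, s l * hmin (pv (V l) ε)) : ℝ) : ℂ)) atTop (𝓝 (cdv V τ ε z)) := by
  classical
  obtain ⟨hs, c, hc, hLB⟩ := hτ
  have hsum := (summable_thc hc hLB ε z).norm
  have hgap : ∀ (m : Fin g → ℤ) (l : Fin k),
      0 ≤ (pv (V l) fun j => (m j : ℝ) + ε j) ^ 2 - hmin (pv (V l) ε) := by
    intro m l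
    rw [pv_add]
    linarith [hmin_le (pv (V l) ε) (∑ j, V l j * m j)]
  have hterm : ∀ (s : Fin k → ℝ) (m : Fin g → ℤ), cexp (ex (mvs τ s V) ε z m) *
      ((Real.exp (Real.pi * ∑ l, s l * hmin (pv (V l) ε)) : ℝ) : ℂ) = cexp (ex τ ε z m) *
      ((Real.exp (-(Real.pi * ∑ l, s l * ((pv (V l) fun j => (m j : ℝ) + ε j) ^ 2 -
        hmin (pv (V l) ε)))) : ℝ) : ℂ) := by
    intro s m
    rw [ex_mvs, Complex.ofReal_exp, Complex.ofReal_exp, ← Complex.exp_add, ← Complex.exp_add]
    congr 1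
    push_cast
    simp only [mul_sub, Finset.sum_sub_distrib]
    ring
  have hlim : Tendsto (fun s : Fin k → ℝ => ∑' m, cexp (ex τ ε z m) *
      ((Real.exp (-(Real.pi * ∑ l, s l * ((pv (V l) fun j => (m j : ℝ) + ε j) ^ 2 -
        hmin (pv (V l) ε)))) : ℝ) : ℂ)) atTop (𝓝 (cdv V τ ε z)) := by
    refine tendsto_tsum_of_dominated_convergence (bound := fun m => ‖cexp (ex τ ε z m)‖) hsum ?_ ?_
    · intro m
      by_cases hm : Mn V ε m
      · rw [if_pos hm]
        have e1 : ∀ s : Fin k → ℝ, ∑ l, s l * ((pv (V l) fun j => (m j : ℝ) + ε j) ^ 2 -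
            hmin (pv (V l) ε)) = 0 := by
          intro s
          refine Finset.sum_eq_zero fun l _ => ?_
          rw [hm l, sub_self, mul_zero]
        simp only [e1, mul_zero, neg_zero, Real.exp_zero, Complex.ofReal_one, mul_one]
        exact tendsto_const_nhds
      · rw [if_neg hm]
        unfold Mn at hm
        push Not at hm
        obtain ⟨l0, hl0⟩ := hm
        have hpos : 0 < (pv (V l0) fun j => (m j : ℝ) + ε j) ^ 2 - hmin (pv (V l0) ε) :=
          lt_of_le_of_ne (hgap m l0) (fun h => hl0 (sub_eq_zero.1 h.symm))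
        have h1 : Tendsto (fun s : Fin k → ℝ => Real.exp (-(Real.pi * ∑ l, s l *
            ((pv (V l) fun j => (m j : ℝ) + ε j) ^ 2 - hmin (pv (V l) ε))))) atTop (𝓝 0) := by
          have h2 : Tendsto (fun s : Fin k → ℝ => Real.exp (-(Real.pi * (s l0 *
              ((pv (V l0) fun j => (m j : ℝ) + ε j) ^ 2 - hmin (pv (V l0) ε)))))) atTop (𝓝 0) := by
            refine Real.tendsto_exp_atBot.comp (tendsto_neg_atTop_atBot.comp ?_)
            exact ((tendsto_coord l0).atTop_mul_const hpos).const_mul_atTop Real.pi_pos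
          refine squeeze_zero' (Eventually.of_forall fun s => (Real.exp_pos _).le) ?_ h2
          filter_upwards [eventually_ge_atTop (0 : Fin k → ℝ)] with s hs0
          apply Real.exp_le_exp.2
          have h3 := Finset.single_le_sum (f := fun l => s l *
            ((pv (V l) fun j => (m j : ℝ) + ε j) ^ 2 - hmin (pv (V l) ε)))
            (fun l _ => mul_nonneg (hs0 l) (hgap m l)) (Finset.mem_univ l0)
          have := mul_le_mul_of_nonneg_left h3 Real.pi_pos.le
          linarith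
        have h4 := (Complex.continuous_ofReal.tendsto 0).comp h1
        have h5 := h4.const_mul (cexp (ex τ ε z m))
        rw [Complex.ofReal_zero, mul_zero] at h5
        exact h5
    · filter_upwards [eventually_ge_atTop (0 : Fin k → ℝ)] with s hs0 m
      rw [norm_mul, Complex.norm_real, Real.norm_of_nonneg (Real.exp_pos _).le]
      refine mul_le_of_le_one_right (norm_nonneg _) (Real.exp_le_one_iff.2 ?_)
      have h3 : 0 ≤ ∑ l, s l * ((pv (V l) fun j => (m j : ℝ) + ε j) ^ 2 - hmin (pv (V l) ε)) :=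
        Finset.sum_nonneg fun l _ => mul_nonneg (hs0 l) (hgap m l)
      have := mul_nonneg Real.pi_pos.le h3
      linarith
  refine hlim.congr fun s => ?_
  unfold thc
  rw [← tsum_mul_right]
  exact tsum_congr fun m => (hterm s m).symm

/-- adding a new rank one direction in a new variable -/
def up1 (V : Fin k → Fin g → ℤ) : Fin (k + 1) → Fin (g + 1) → ℤ :=
  Fin.cons (Fin.cons 1 0) fun i => Fin.cons 0 (V i)

theorem pv_cons (a : ℤ) (v : Fin g → ℤ) (y : Fin (g + 1) → ℝ) :
    pv (Fin.cons a v : Fin (g + 1) → ℤ) y = a * y 0 + pv v fun j => y j.succ := by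
  unfold pv
  rw [Fin.sum_univ_succ]
  rfl

theorem Mn_up1 (V : Fin k → Fin g → ℤ) (ε : Fin (g + 1) → ℝ) (a : ℤ) (m : Fin g → ℤ) :
    Mn (up1 V) ε (Fin.cons a m : Fin (g + 1) → ℤ) ↔
      ((a : ℝ) + ε 0) ^ 2 = hmin (ε 0) ∧ Mn V (fun j => ε j.succ) m := by
  unfold Mn up1
  rw [Fin.forall_fin_succ]
  simp only [Fin.cons_zero, Fin.cons_succ, pv_cons]
  have h0 : ∀ y : Fin g → ℝ, pv (0 : Fin g → ℤ) y = 0 := by
    intro y
    simp [pv]
  simp only [h0, Int.cast_one, one_mul, add_zero, Int.cast_zero, zero_mul, zero_add]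

/-- the inner factor -/
noncomputable def inr (V : Fin k → Fin g → ℤ) (τ : MM (g + 1)) (ε : Fin (g + 1) → ℝ)
    (z : Fin (g + 1) → ℂ) (a : ℤ) : ℂ :=
  cexp (Real.pi * I * (((a : ℂ) + ε 0) ^ 2 * τ 0 0) + 2 * Real.pi * I * (((a : ℂ) + ε 0) * z 0)) *
    cdv V (tl τ) (fun j => ε j.succ) fun j => z j.succ + ((a : ℂ) + ε 0) * τ 0 j.succ

open Classical in
theorem cdv_up1 {τ : MM (g + 1)} (hτ : τ ∈ HH (g + 1)) (V : Fin k → Fin g → ℤ)
    (ε : Fin (g + 1) → ℝ) (z : Fin (g + 1) → ℂ) :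
    cdv (up1 V) τ ε z = ∑' a : ℤ, if ((a : ℝ) + ε 0) ^ 2 = hmin (ε 0) then inr V τ ε z a else 0 := by
  obtain ⟨hs, c, hc, hLB⟩ := hτ
  set e : ℤ × (Fin g → ℤ) ≃ (Fin (g + 1) → ℤ) := Fin.consEquiv (fun _ => ℤ) with he
  have he' : ∀ p, e p = (Fin.cons p.1 p.2 : Fin (g + 1) → ℤ) := fun p => rfl
  unfold cdv
  have s1 : Summable fun m => if Mn (up1 V) ε m then cexp (ex τ ε z m) else 0 := by
    refine Summable.of_norm_bounded (summable_thc hc hLB ε z).norm fun m => ?_
    split_ifs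
    · exact le_rfl
    · rw [norm_zero]; exact norm_nonneg _
  have k1 := (e.summable_iff.2 s1).tsum_prod
  simp only [Function.comp_apply] at k1
  rw [← e.tsum_eq, k1]
  refine tsum_congr fun a => ?_
  simp only [he', Mn_up1]
  by_cases ha : ((a : ℝ) + ε 0) ^ 2 = hmin (ε 0)
  · simp only [ha, true_and, if_true]
    unfold inr cdv
    rw [← tsum_mul_left]
    refine tsum_congr fun m => ?_
    by_cases hm : Mn V (fun j => ε j.succ) m
    · rw [if_pos hm, if_pos hm, ← Complex.exp_add, ex_cons hs]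
      congr 1
      unfold ex tl
      have e1 : ∑ i : Fin g, ((m i : ℂ) + ε i.succ) * (z i.succ + ((a : ℂ) + ε 0) * τ 0 i.succ) =
          ∑ i : Fin g, ((m i : ℂ) + ε i.succ) * z i.succ +
            ((a : ℂ) + ε 0) * ∑ j : Fin g, τ 0 j.succ * ((m j : ℂ) + ε j.succ) := by
        rw [Finset.mul_sum, ← Finset.sum_add_distrib]
        exact Finset.sum_congr rfl fun i _ => by ring
      rw [e1]
      ring
    · rw [if_neg hm, if_neg hm, mul_zero]
  · simp only [ha, false_and, if_false, tsum_zero]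

theorem cdv_nil (V : Fin 0 → Fin g → ℤ) (τ : MM g) (ε : Fin g → ℝ) (z : Fin g → ℂ) :
    cdv V τ ε z = thc τ ε z := by
  classical
  unfold cdv thc
  refine tsum_congr fun m => ?_
  rw [if_pos]
  intro i
  exact i.elim0

/-- the minimal elements when the nearest integer is unique -/
theorem min_unique {t : ℝ} {a : ℤ} (h : |(a : ℝ) + t| < 1 / 2) (b : ℤ) :
    ((b : ℝ) + t) ^ 2 = hmin t ↔ b = a := by
  have h1 : hmin t = ((a : ℝ) + t) ^ 2 := by
    refine le_antisymm ?_ ?_
    · rw [add_comm]; exact hmin_le t a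
    · have h2 : |((a : ℝ) + t)| ≤ |t - round t| := by
        by_cases h3 : (-round t : ℤ) = a
        · rw [← h3]
          apply le_of_eq
          congr 1
          push_cast
          ring
        · have h4 : (1 : ℝ) ≤ |((a + round t : ℤ) : ℝ)| := by
            have : (1 : ℤ) ≤ |a + round t| := Int.one_le_abs (fun h5 => h3 (by linarith))
            exact_mod_cast this
          have h5 : |((a + round t : ℤ) : ℝ)| ≤ |(a : ℝ) + t| + |t - round t| := by
            have : ((a + round t : ℤ) : ℝ) = ((a : ℝ) + t) - (t - round t) := by push_cast; ring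
            rw [this]
            exact abs_sub _ _
          linarith
      unfold hmin
      rw [← sq_abs, ← sq_abs (t - round t)]
      exact pow_le_pow_left₀ (abs_nonneg _) h2 2
  rw [h1]
  constructor
  · intro h2
    by_contra hne
    have h3 : (1 : ℝ) ≤ |((b - a : ℤ) : ℝ)| := by
      have : (1 : ℤ) ≤ |b - a| := Int.one_le_abs (sub_ne_zero.2 hne)
      exact_mod_cast this
    have h4 : |((b - a : ℤ) : ℝ)| ≤ |(b : ℝ) + t| + |(a : ℝ) + t| := by
      have : ((b - a : ℤ) : ℝ) = ((b : ℝ) + t) - ((a : ℝ) + t) := by push_cast; ring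
      rw [this]
      exact abs_sub _ _
    have h5 : |(b : ℝ) + t| = |(a : ℝ) + t| := by
      rw [← Real.sqrt_sq_eq_abs, ← Real.sqrt_sq_eq_abs, h2]
    linarith
  · rintro rfl
    rfl

theorem min_half (b : ℤ) : ((b : ℝ) + 1 / 2) ^ 2 = hmin (1 / 2) ↔ b = 0 ∨ b = -1 := by
  have h1 : hmin (1 / 2 : ℝ) = 1 / 4 := by
    refine le_antisymm ?_ ?_
    · have := hmin_le (1 / 2 : ℝ) 0
      norm_num at this
      linarith
    · unfold hmin
      have h2 : (1 / 2 : ℝ) ≤ |1 / 2 - (round (1 / 2 : ℝ) : ℝ)| := by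
        rcases le_or_gt (round (1 / 2 : ℝ)) 0 with h | h
        · have h3 : ((round (1 / 2 : ℝ) : ℤ) : ℝ) ≤ 0 := by exact_mod_cast h
          rw [abs_of_nonneg (by linarith)]
          linarith
        · have h3 : (1 : ℝ) ≤ ((round (1 / 2 : ℝ) : ℤ) : ℝ) := by exact_mod_cast h
          rw [abs_of_nonpos (by linarith)]
          linarith
      rw [← sq_abs]
      nlinarith [abs_nonneg (1 / 2 - (round (1 / 2 : ℝ) : ℝ))]
  rw [h1]
  constructor
  · intro h
    have h2 : (b : ℝ) * (b + 1) = 0 := by nlinarith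
    rcases mul_eq_zero.1 h2 with h3 | h3
    · left
      exact_mod_cast h3
    · right
      have : (b : ℝ) = -1 := by linarith
      exact_mod_cast this
  · rintro (rfl | rfl) <;> norm_num

end Run7.h92
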