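import Pool.Agent.Run7.h92.GoodU
import Pool.Agent.Run7.h92.Lead

/-!
# Adding a rank one direction in a new variable
-/

namespace Run7.h92

open Matrix Complex Filter Topology

variable {g k : ℕ}

/-- real characteristics attached to torsion -/
noncomputable def chE (N : ℕ) (x : CN N g) : Fin g → ℝ := fun i => ((x.1 i).val : ℝ) / N

/-- arguments attached to torsion -/
noncomputable def chZ (N : ℕ) (x : CN N g) (z : Fin g → ℂ) : Fin g → ℂ :=
  fun i => ((((x.2 i).val : ℝ) / N : ℝ) : ℂ) + z i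

/-- exactness of the average in an integral direction -/
def Exw (N n : ℕ) [NeZero N] (w : CN N g → ℕ) (v : Fin g → ℤ) : Prop :=
  ∑ x, (w x : ℝ) * gf (bq n (rd N v 0) x) = (∑ x, (w x : ℝ)) / 12

/-- good weights along a cone -/
def GoodV (V : Fin k → Fin g → ℤ) (N n : ℕ) [NeZero N] (τ : MM g) : Prop :=
  ∀ z : Fin g → ℂ, ∃ w : CN N g → ℕ, (∃ x, w x ≠ 0) ∧
    (∀ x, w x ≠ 0 → cdv V τ (chE N x) (chZ N x z) ≠ 0) ∧ QQ w ∧ ∀ i, Exw N n w (V i)

theorem GoodV_nil {N n : ℕ} [NeZero N] {τ : MM g} (hτ : τ ∈ HH g) (V : Fin 0 → Fin g → ℤ)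
    (h : GoodU N τ) : GoodV V N n τ := by
  intro z
  set x0 := (AA hτ).symm z with hx0
  obtain ⟨w, h1, h2, h3⟩ := h (fun i => x0 (Sum.inl i), fun i => x0 (Sum.inr i))
  refine ⟨w, h1, ?_, h3, fun i => i.elim0⟩
  intro x hx
  have h4 := h2 x hx
  rw [cdv_nil]
  unfold ths tz th at h4
  rw [thc_char hτ.1] at h4 ⊢
  have h5 := right_ne_zero_of_mul h4
  refine mul_ne_zero (Complex.exp_ne_zero _) ?_
  convert h5 using 2
  funext i
  have hz : z i = (x0 (Sum.inr i) : ℂ) + ∑ j, τ i j * (x0 (Sum.inl j) : ℂ) := by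
    rw [← AA_apply hτ, hx0, LinearEquiv.apply_symm_apply]
  unfold chZ chE
  rw [hz]
  push_cast
  simp only [mul_add, Finset.sum_add_distrib]
  ring

/-- splitting off the first coordinate -/
def sp2 (N g : ℕ) : CN N (g + 1) ≃ (ZMod N × ZMod N) × CN N g where
  toFun x := ((x.1 0, x.2 0), (fun i => x.1 i.succ, fun i => x.2 i.succ))
  invFun y := (Fin.cons y.1.1 y.2.1, Fin.cons y.1.2 y.2.2)
  left_inv x := by
    refine Prod.ext ?_ ?_
    · exact Fin.cons_self_tail x.1
    · exact Fin.cons_self_tail x.2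
  right_inv y := by
    refine Prod.ext (Prod.ext ?_ ?_) (Prod.ext ?_ ?_) <;> rfl

theorem dp_sp2 {N : ℕ} (u x : CN N (g + 1)) :
    dp u x = u.1 0 * x.1 0 + u.2 0 * x.2 0 + dp (sp2 N g u).2 (sp2 N g x).2 := by
  unfold dp sp2
  simp only [Equiv.coe_fn_mk, dotProduct, Fin.sum_univ_succ]
  ring

/-- the new weights -/
def wt {N : ℕ} (n : ℕ) (W : ZMod N → CN N g → ℕ) (bad : CN N g → ZMod N) (x : CN N (g + 1)) : ℕ :=
  if x.1 0 = (n : ZMod N) ∧ x.2 0 = bad (sp2 N g x).2 then 0 else W (x.1 0) (sp2 N g x).2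

theorem wt_sum {R : Type*} [CommRing R] {N n : ℕ} [NeZero N] (W : ZMod N → CN N g → ℕ)
    (bad : CN N g → ZMod N) (H : ZMod N → ZMod N → CN N g → R) :
    ∑ x : CN N (g + 1), ((wt n W bad x : ℕ) : R) * H (x.1 0) (x.2 0) (sp2 N g x).2 =
      ∑ j, ∑ l, ∑ y, (W j y : R) * H j l y - ∑ y, (W n y : R) * H n (bad y) y := by
  have e1 : ∑ x : CN N (g + 1), ((wt n W bad x : ℕ) : R) * H (x.1 0) (x.2 0) (sp2 N g x).2 =
      ∑ p : (ZMod N × ZMod N) × CN N g,
        ((if p.1.1 = (n : ZMod N) ∧ p.1.2 = bad p.2 then 0 else W p.1.1 p.2 : ℕ) : R) *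
          H p.1.1 p.1.2 p.2 := by
    rw [← (sp2 N g).sum_comp]
    rfl
  rw [e1, Fintype.sum_prod_type, Fintype.sum_prod_type]
  have e2 : ∀ (j l : ZMod N) (y : CN N g),
      ((if j = (n : ZMod N) ∧ l = bad y then 0 else W j y : ℕ) : R) * H j l y =
        (W j y : R) * H j l y - if j = (n : ZMod N) then (if l = bad y then
          (W n y : R) * H n (bad y) y else 0) else 0 := by
    intro j l y
    by_cases h1 : j = (n : ZMod N)
    · by_cases h2 : l = bad y
      · rw [if_pos ⟨h1, h2⟩, if_pos h1, if_pos h2, h1, h2]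
        simp
      · rw [if_neg (fun h => h2 h.2), if_pos h1, if_neg h2, sub_zero]
    · rw [if_neg (fun h => h1 h.1), if_neg h1, sub_zero]
  simp_rw [e2, Finset.sum_sub_distrib]
  congr 1
  have e3 : ∀ j : ZMod N, ∑ l : ZMod N, ∑ y : CN N g, (if j = (n : ZMod N) then (if l = bad y then
          (W n y : R) * H n (bad y) y else 0) else 0) =
      if j = (n : ZMod N) then ∑ y, (W n y : R) * H n (bad y) y else 0 := by
    intro j
    by_cases h1 : j = (n : ZMod N)
    · simp only [if_pos h1]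
      rw [Finset.sum_comm]
      refine Finset.sum_congr rfl fun y _ => ?_
      rw [Finset.sum_ite_eq']
      simp
    · simp only [if_neg h1, Finset.sum_const_zero]
  simp_rw [e3]
  rw [Finset.sum_ite_eq']
  simp

theorem wt_total {N n : ℕ} [NeZero N] (W : ZMod N → CN N g → ℕ) (bad : CN N g → ZMod N)
    (F : CN N g → ℝ) (c : ℝ)
    (hF : ∀ j, ∑ y, (W j y : ℝ) * F y = c) :
    ∑ x : CN N (g + 1), (wt n W bad x : ℝ) * F (sp2 N g x).2 = ((N : ℝ) ^ 2 - 1) * c := by
  rw [wt_sum W bad fun _ _ y => F y]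
  simp_rw [hF]
  rw [Finset.sum_const, Finset.sum_const, Finset.card_univ, ZMod.card]
  simp only [nsmul_eq_mul]
  ring

theorem wt_total_one {N n : ℕ} [NeZero N] {K : ℕ} (W : ZMod N → CN N g → ℕ)
    (bad : CN N g → ZMod N) (hW : ∀ j, ∑ y, W j y = K) :
    ∑ x : CN N (g + 1), (wt n W bad x : ℝ) = ((N : ℝ) ^ 2 - 1) * K := by
  have h := wt_total (n := n) W bad (fun _ => 1) K (by
    intro j
    simp only [mul_one]
    rw [← hW j]
    push_cast
    rfl)
  simpa using h

theorem wt_QQ {N n : ℕ} [NeZero N] {K : ℕ} (W : ZMod N → CN N g → ℕ) (bad : CN N g → ZMod N)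
    (hW : ∀ j, ∑ y, W j y = K) (hQ : ∀ j, QQ (W j)) : QQ (wt n W bad) := by
  intro u hu
  rw [wt_total_one W bad hW]
  have hN1 : (1 : ℝ) ≤ N := by exact_mod_cast NeZero.one_le
  have hNN : 0 ≤ (N : ℝ) ^ 2 - 1 := by nlinarith
  have hK0 : (0 : ℝ) ≤ K := Nat.cast_nonneg _
  set a := u.1 0 with ha
  set b := u.2 0 with hb
  set u' := (sp2 N g u).2 with hu'
  set Wh : ZMod N → ℂ := fun j => ∑ y, (W j y : ℂ) * ps (dp u' y) with hWh
  have hWK : ∀ j, ‖Wh j‖ ≤ K := by
    intro j
    refine (norm_le_sum (W j) u').trans (le_of_eq ?_)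
    rw [← hW j]
    push_cast
    rfl
  have e1 : ∑ x : CN N (g + 1), ((wt n W bad x : ℕ) : ℂ) * ps (dp u x) =
      ∑ j, ps (a * j) * ((∑ l, ps (l * b)) * Wh j) -
        ∑ y, (W n y : ℂ) * ps (a * (n : ZMod N) + b * bad y + dp u' y) := by
    have e2 : ∀ x : CN N (g + 1), ps (dp u x) =
        (fun j l y => ps (a * j + b * l + dp u' y)) (x.1 0) (x.2 0) (sp2 N g x).2 := by
      intro x
      rw [dp_sp2]
    simp_rw [e2]
    rw [wt_sum W bad fun j l y => ps (a * j + b * l + dp u' y)]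
    congr 1
    refine Finset.sum_congr rfl fun j _ => ?_
    rw [Finset.sum_mul, Finset.mul_sum]
    refine Finset.sum_congr rfl fun l _ => ?_
    rw [hWh]
    simp only
    rw [Finset.mul_sum, Finset.mul_sum]
    refine Finset.sum_congr rfl fun y _ => ?_
    rw [ps_add, ps_add, mul_comm b l]
    ring
  rw [e1]
  have hK2 : ‖∑ y, (W n y : ℂ) * ps (a * (n : ZMod N) + b * bad y + dp u' y)‖ ≤ K := by
    refine (norm_sum_le _ _).trans (le_of_eq ?_)
    rw [← hW n]
    push_cast
    refine Finset.sum_congr rfl fun y _ => ?_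
    rw [norm_mul, norm_ps, mul_one, Complex.norm_natCast]
  by_cases hb0 : b = 0
  · have e3 : ∀ y, ps (a * (n : ZMod N) + b * bad y + dp u' y) = ps (a * (n : ZMod N)) * ps (dp u' y) := by
      intro y
      rw [hb0, zero_mul, add_zero, ps_add]
    have e4 : ∑ y, (W n y : ℂ) * ps (a * (n : ZMod N) + b * bad y + dp u' y) = ps (a * (n : ZMod N)) * Wh n := by
      rw [hWh]
      simp only
      rw [Finset.mul_sum]
      refine Finset.sum_congr rfl fun y _ => ?_
      rw [e3]
      ring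
    have e5 : ∑ l : ZMod N, ps (l * b) = N := by
      rw [sum_ps, if_pos hb0]
    rw [e4, e5]
    by_cases hu0 : u' = 0
    · have ha0 : a ≠ 0 := by
        intro ha0
        apply hu
        apply (sp2 N g).injective
        refine Prod.ext (Prod.ext ha0 hb0) ?_
        rw [← hu', hu0]
        rfl
      have e6 : ∀ j, Wh j = K := by
        intro j
        rw [hWh]
        simp only
        rw [← hW j]
        push_cast
        refine Finset.sum_congr rfl fun y _ => ?_
        rw [hu0]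
        have : dp (0 : CN N g) y = 0 := by unfold dp; simp
        rw [this, ps_zero, mul_one]
      simp_rw [e6]
      rw [← Finset.sum_mul]
      have e7 : ∑ j : ZMod N, ps (a * j) = 0 := by
        simp_rw [mul_comm a]
        rw [sum_ps, if_neg ha0]
      rw [e7, zero_mul, zero_sub, norm_neg, norm_mul, norm_ps, one_mul, Complex.norm_natCast]
      exact le_of_eq (mul_comm _ _)
    · have hq : ∀ j, ‖Wh j‖ * ((N : ℝ) ^ 2 - 1) ≤ K := by
        intro j
        refine (hQ j u' hu0).trans (le_of_eq ?_)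
        rw [← hW j]
        push_cast
        rfl
      have e8 : ∑ j, ps (a * j) * ((N : ℂ) * Wh j) - ps (a * (n : ZMod N)) * Wh n =
          ∑ j, ps (a * j) * ((if j = (n : ZMod N) then ((N : ℂ) - 1) else N) * Wh j) := by
        have : ∀ j : ZMod N, ps (a * j) * ((if j = (n : ZMod N) then ((N : ℂ) - 1) else N) * Wh j) =
            ps (a * j) * ((N : ℂ) * Wh j) - if j = (n : ZMod N) then ps (a * (n : ZMod N)) * Wh n else 0 := by
          intro j
          split_ifs with h
          · rw [h]; ring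
          · ring
        simp_rw [this, Finset.sum_sub_distrib]
        rw [Finset.sum_ite_eq']
        simp
      rw [e8]
      have h9 : ‖∑ j, ps (a * j) * ((if j = (n : ZMod N) then ((N : ℂ) - 1) else N) * Wh j)‖ ≤
          ∑ j, (if j = (n : ZMod N) then ((N : ℝ) - 1) else N) * ‖Wh j‖ := by
        refine (norm_sum_le _ _).trans (le_of_eq ?_)
        refine Finset.sum_congr rfl fun j _ => ?_
        rw [norm_mul, norm_ps, one_mul, norm_mul]
        congr 1
        split_ifs
        · have : ((N : ℂ) - 1) = (((N : ℝ) - 1 : ℝ) : ℂ) := by push_cast; rfl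
          rw [this, Complex.norm_real, Real.norm_of_nonneg (by linarith)]
        · rw [Complex.norm_natCast]
      calc _ ≤ (∑ j, (if j = (n : ZMod N) then ((N : ℝ) - 1) else N) * ‖Wh j‖) *
            ((N : ℝ) ^ 2 - 1) := mul_le_mul_of_nonneg_right h9 hNN
        _ = ∑ j, (if j = (n : ZMod N) then ((N : ℝ) - 1) else N) *
            (‖Wh j‖ * ((N : ℝ) ^ 2 - 1)) := by
          rw [Finset.sum_mul]
          exact Finset.sum_congr rfl fun j _ => by ring
        _ ≤ ∑ j : ZMod N, (if j = (n : ZMod N) then ((N : ℝ) - 1) else N) * K := by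
          refine Finset.sum_le_sum fun j _ => mul_le_mul_of_nonneg_left (hq j) ?_
          split_ifs <;> linarith
        _ = ((N : ℝ) ^ 2 - 1) * K := by
          rw [← Finset.sum_mul]
          have : ∀ j : ZMod N, (if j = (n : ZMod N) then ((N : ℝ) - 1) else (N : ℝ)) =
              N - if j = (n : ZMod N) then 1 else 0 := by
            intro j
            split_ifs <;> ring
          simp_rw [this, Finset.sum_sub_distrib]
          rw [Finset.sum_ite_eq', Finset.sum_const, Finset.card_univ, ZMod.card]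
          simp only [Finset.mem_univ, if_true, nsmul_eq_mul]
          ring
  · have e5 : ∑ l : ZMod N, ps (l * b) = 0 := by
      rw [sum_ps, if_neg hb0]
    simp_rw [e5, zero_mul, mul_zero, Finset.sum_const_zero, zero_sub, norm_neg]
    rw [mul_comm]
    exact mul_le_mul_of_nonneg_left hK2 hNN

theorem exp_inj {N : ℕ} [NeZero N] {l l' : ZMod N}
    (h : cexp (2 * Real.pi * I * (((l.val : ℝ) / N : ℝ) : ℂ)) =
      cexp (2 * Real.pi * I * (((l'.val : ℝ) / N : ℝ) : ℂ))) : l = l' := by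
  have hN0 : (N : ℝ) ≠ 0 := Nat.cast_ne_zero.2 (NeZero.ne N)
  have hNp : (0 : ℝ) < N := Nat.cast_pos.2 (NeZero.pos N)
  obtain ⟨k, hk⟩ := Complex.exp_eq_exp_iff_exists_int.1 h
  have hk1 : (((l.val : ℝ) / N : ℝ) : ℂ) = (((l'.val : ℝ) / N : ℝ) : ℂ) + k := by
    apply mul_left_cancel₀ Complex.two_pi_I_ne_zero
    rw [hk]
    ring
  have hk2 : ((l.val : ℝ) / N) = ((l'.val : ℝ) / N) + k := by exact_mod_cast hk1
  have ha : (l.val : ℝ) < N := by exact_mod_cast l.val_lt
  have hb : (l'.val : ℝ) < N := by exact_mod_cast l'.val_lt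
  have ha0 : (0 : ℝ) ≤ l.val := Nat.cast_nonneg _
  have hb0 : (0 : ℝ) ≤ l'.val := Nat.cast_nonneg _
  have hk3 : (l.val : ℝ) = l'.val + k * N := by
    field_simp at hk2
    linarith
  have h1 : (k : ℝ) * N < 1 * N := by linarith
  have h2 : (-1 : ℝ) * N < k * N := by linarith
  have h3 : (k : ℝ) < 1 := lt_of_mul_lt_mul_right h1 hNp.le
  have h4 : (-1 : ℝ) < k := lt_of_mul_lt_mul_right h2 hNp.le
  have h5 : k = 0 := by
    have h6 : k < 1 := by exact_mod_cast h3
    have h7 : -1 < k := by exact_mod_cast h4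
    omega
  rw [h5] at hk3
  have h8 : (l.val : ℝ) = l'.val := by
    simpa using hk3
  exact ZMod.val_injective N (by exact_mod_cast h8)

/-- the centered representative -/
noncomputable def cen {N : ℕ} (n : ℕ) (j : ZMod N) : ℤ := if j.val ≤ n then 0 else -1

theorem cen_lt {N n : ℕ} [NeZero N] (hn : N = 2 * n) {j : ZMod N} (hj : j ≠ (n : ZMod N)) :
    |((cen n j : ℤ) : ℝ) + (j.val : ℝ) / N| < 1 / 2 := by
  have hNp : (0 : ℝ) < N := Nat.cast_pos.2 (NeZero.pos N)
  have hN1 : (N : ℝ) = 2 * n := by rw [hn]; push_cast; rfl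
  have hn0 : (0 : ℝ) < n := by linarith
  have hnN : n < N := by
    have : 0 < n := by exact_mod_cast hn0
    omega
  have hjn : j.val ≠ n := by
    intro h
    apply hj
    apply ZMod.val_injective N
    rw [h, ZMod.val_natCast_of_lt hnN]
  have hj1 : (j.val : ℝ) < N := by exact_mod_cast j.val_lt
  have hj0 : (0 : ℝ) ≤ j.val := Nat.cast_nonneg _
  unfold cen
  split_ifs with h
  · have h1 : j.val < n := lt_of_le_of_ne h hjn
    have h2 : (j.val : ℝ) < n := by exact_mod_cast h1
    rw [Int.cast_zero, zero_add, abs_of_nonneg (by positivity), div_lt_iff₀ hNp]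
    linarith
  · have h1 : (n : ℝ) < j.val := by exact_mod_cast not_le.1 h
    have e : ((-1 : ℤ) : ℝ) + (j.val : ℝ) / N = -((N - j.val) / N) := by
      field_simp
      push_cast
      ring
    rw [e, abs_neg, abs_of_nonneg (div_nonneg (by linarith) hNp.le), div_lt_iff₀ hNp]
    linarith

end Run7.h92
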