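import Pool.Agent.Run7.h92.Forms
import Pool.Agent.Run7.h92.StepC

/-!
# The limit of the forms along a cone
-/

namespace Run7.h92

open Matrix Complex Filter Topology

variable {g k : ℕ}

/-- link between the two descriptions of the order of vanishing -/
theorem hmin_gf {N n : ℕ} [NeZero N] (hn : N = 2 * n) (v : Fin g → ℤ) (x : CN N g) :
    hmin (pv v (chE N x)) = gf (bq n (rd N v 0) x) := by
  have hN0 : (N : ℝ) ≠ 0 := Nat.cast_ne_zero.2 (NeZero.ne N)
  have hNp : (0 : ℝ) < N := Nat.cast_pos.2 (NeZero.pos N)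
  have hN1 : (N : ℝ) = 2 * n := by rw [hn]; push_cast; rfl
  set r := bq n (rd N v 0) x with hr
  have h1 : ((r.val : ℤ) : ZMod N) = ((∑ i, v i * ((x.1 i).val : ℤ) + n : ℤ) : ZMod N) := by
    rw [hr]
    unfold bq dp rd
    simp [dotProduct]
  obtain ⟨k, hk⟩ := (ZMod.intCast_eq_intCast_iff_dvd_sub _ _ N).1 h1
  have hkr : (∑ i, (v i : ℝ) * ((x.1 i).val : ℝ)) + n - r.val = N * k := by
    exact_mod_cast hk
  have e6 : pv v (chE N x) = ((r.val : ℝ) / N - 1 / 2) + (k : ℤ) := by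
    have e7 : pv v (chE N x) = (∑ i, (v i : ℝ) * ((x.1 i).val : ℝ)) / N := by
      unfold pv chE
      rw [Finset.sum_div]
      refine Finset.sum_congr rfl fun i _ => ?_
      ring
    rw [e7]
    have e8 : (∑ i, (v i : ℝ) * ((x.1 i).val : ℝ)) = N * k + r.val - n := by linarith
    rw [e8, hN1]
    have hn0 : (n : ℝ) ≠ 0 := by
      intro h
      rw [h, mul_zero] at hN1
      exact hN0 hN1
    field_simp
    ring
  have hr1 : (r.val : ℝ) < N := by exact_mod_cast r.val_lt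
  have hr0 : (0 : ℝ) ≤ r.val := Nat.cast_nonneg _
  have h2 : |(r.val : ℝ) / N - 1 / 2| ≤ 1 / 2 := by
    rw [abs_le]
    constructor
    · have : 0 ≤ (r.val : ℝ) / N := by positivity
      linarith
    · have : (r.val : ℝ) / N ≤ 1 := by
        rw [div_le_one hNp]
        exact hr1.le
      linarith
  rw [e6, hmin_add_int]
  have h3 : hmin ((r.val : ℝ) / N - 1 / 2) = ((r.val : ℝ) / N - 1 / 2) ^ 2 := by
    refine le_antisymm ?_ ?_
    · have := hmin_le ((r.val : ℝ) / N - 1 / 2) 0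
      simpa using this
    · unfold hmin
      have := sq_ge _ h2 (-(round ((r.val : ℝ) / N - 1 / 2)))
      refine this.trans (le_of_eq ?_)
      push_cast
      ring
  rw [h3]
  unfold gf
  ring

/-- order of vanishing of a monomial in an integral direction -/
noncomputable def ordw (N n : ℕ) [NeZero N] (w : CN N g → ℕ) (v : Fin g → ℤ) : ℝ :=
  ∑ x, (w x : ℝ) * gf (bq n (rd N v 0) x)

/-- leading coefficient of a monomial -/
noncomputable def lcm' (V : Fin k → Fin g → ℤ) (N : ℕ) [NeZero N] (τ : MM g) (w : CN N g → ℕ) : ℂ :=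
  ∏ x, (cdv V τ (chE N x) (chZ N x 0) ^ (24 * N ^ 2)) ^ w x

theorem chZ_zero (N : ℕ) (x : CN N g) : chZ N x 0 = fun i => ((((x.2 i).val : ℝ) / N : ℝ) : ℂ) := by
  funext i
  simp [chZ]

theorem mon_lim {N n : ℕ} [NeZero N] (hn : N = 2 * n) {τ : MM g} (hτ : τ ∈ HH g)
    (V : Fin k → Fin g → ℤ) (w : CN N g → ℕ) :
    Tendsto (fun s : Fin k → ℝ => mon w (mvs τ s V) *
      ((Real.exp (24 * (N : ℝ) ^ 2 * Real.pi * ∑ l, s l * ordw N n w (V l)) : ℝ) : ℂ)) atTop
      (𝓝 (lcm' V N τ w)) := by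
  have h1 : ∀ x : CN N g, Tendsto (fun s : Fin k → ℝ => FF N (mvs τ s V) x *
      ((Real.exp (24 * (N : ℝ) ^ 2 * Real.pi * ∑ l, s l * gf (bq n (rd N (V l) 0) x)) : ℝ) : ℂ))
      atTop (𝓝 (cdv V τ (chE N x) (chZ N x 0) ^ (24 * N ^ 2))) := by
    intro x
    have h2 := (lead_lim hτ V (chE N x) (chZ N x 0)).pow (24 * N ^ 2)
    refine h2.congr fun s => ?_
    rw [mul_pow]
    congr 1
    · unfold FF Fz th
      rw [chZ_zero]
      rfl
    · rw [← Complex.ofReal_pow, ← Real.exp_nat_mul]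
      congr 2
      simp_rw [hmin_gf hn]
      push_cast
      ring
  have h3 := tendsto_finsetProd Finset.univ fun x (_ : x ∈ Finset.univ) => (h1 x).pow (w x)
  refine h3.congr fun s => ?_
  unfold mon
  simp_rw [mul_pow]
  rw [Finset.prod_mul_distrib]
  congr 1
  simp_rw [← Complex.ofReal_pow, ← Real.exp_nat_mul]
  rw [← Complex.ofReal_prod, ← Real.exp_sum]
  congr 2
  unfold ordw
  have e1 : ∀ l, s l * ∑ x, (w x : ℝ) * gf (bq n (rd N (V l) 0) x) =
      ∑ x, (w x : ℝ) * (s l * gf (bq n (rd N (V l) 0) x)) := by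
    intro l
    rw [Finset.mul_sum]
    exact Finset.sum_congr rfl fun x _ => by ring
  simp_rw [e1]
  rw [Finset.sum_comm, Finset.mul_sum]
  refine Finset.sum_congr rfl fun x _ => ?_
  rw [← Finset.mul_sum]
  ring

open Classical in
/-- the limit of the normalized monomial -/
noncomputable def LC (V : Fin k → Fin g → ℤ) (N n M : ℕ) [NeZero N] (τ : MM g) (w : CN N g → ℕ) : ℂ :=
  if ∀ l, ordw N n w (V l) = (M : ℝ) / 12 then lcm' V N τ w else 0

theorem mon_LC {N n M : ℕ} [NeZero N] (hn : N = 2 * n) {τ : MM g} (hτ : τ ∈ HH g)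
    (V : Fin k → Fin g → ℤ) (hV : ∀ l, Um (rd N (V l) 0)) {w : CN N g → ℕ}
    (hw : w ∈ WW N n M g) :
    Tendsto (fun s : Fin k → ℝ => mon w (mvs τ s V) *
      ((Real.exp (2 * Real.pi * ((N ^ 2 * M : ℕ) : ℝ) * ∑ l, s l) : ℝ) : ℂ)) atTop
      (𝓝 (LC V N n M τ w)) := by
  classical
  have h0 := mon_lim hn hτ V w
  have hge : ∀ l, (M : ℝ) / 12 ≤ ordw N n w (V l) := fun l => (mem_WW.1 hw).2 _ (hV l)
  unfold LC
  by_cases h : ∀ l, ordw N n w (V l) = (M : ℝ) / 12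
  · rw [if_pos h]
    refine h0.congr fun s => ?_
    simp_rw [h]
    rw [← Finset.sum_mul]
    congr 3
    push_cast
    ring
  · rw [if_neg h]
    push Not at h
    obtain ⟨l0, hl0⟩ := h
    have hpos : 0 < ordw N n w (V l0) - (M : ℝ) / 12 :=
      sub_pos.2 (lt_of_le_of_ne (hge l0) (Ne.symm hl0))
    have hN : (0 : ℝ) < N := Nat.cast_pos.2 (NeZero.pos N)
    have h1 : Tendsto (fun s : Fin k → ℝ => Real.exp (-(24 * (N : ℝ) ^ 2 * Real.pi *
        ∑ l, s l * (ordw N n w (V l) - (M : ℝ) / 12)))) atTop (𝓝 0) := by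
      have h2 : Tendsto (fun s : Fin k → ℝ => Real.exp (-(24 * (N : ℝ) ^ 2 * Real.pi *
          (s l0 * (ordw N n w (V l0) - (M : ℝ) / 12))))) atTop (𝓝 0) := by
        refine Real.tendsto_exp_atBot.comp (tendsto_neg_atTop_atBot.comp ?_)
        exact ((tendsto_coord l0).atTop_mul_const hpos).const_mul_atTop
          (by have := Real.pi_pos; positivity)
      refine squeeze_zero' (Eventually.of_forall fun s => (Real.exp_pos _).le) ?_ h2
      filter_upwards [eventually_ge_atTop (0 : Fin k → ℝ)] with s hs0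
      apply Real.exp_le_exp.2
      have h3 := Finset.single_le_sum (f := fun l => s l * (ordw N n w (V l) - (M : ℝ) / 12))
        (fun l _ => mul_nonneg (hs0 l) (sub_nonneg.2 (hge l))) (Finset.mem_univ l0)
      have := mul_le_mul_of_nonneg_left h3
        (show 0 ≤ 24 * (N : ℝ) ^ 2 * Real.pi by have := Real.pi_pos; positivity)
      linarith
    have h4 := (Complex.continuous_ofReal.tendsto 0).comp h1
    have h5 := h0.mul h4
    rw [Complex.ofReal_zero, mul_zero] at h5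
    refine h5.congr fun s => ?_
    simp only [Function.comp_apply]
    rw [mul_assoc, ← Complex.ofReal_mul, ← Real.exp_add]
    congr 3
    simp only [mul_sub, Finset.sum_sub_distrib]
    rw [← Finset.sum_mul]
    push_cast
    ring

/-- the limit of the forms along a cone -/
theorem ff_lim {N n M l : ℕ} [NeZero N] (hn : N = 2 * n) {τ : MM g} (hτ : τ ∈ HH g)
    (V : Fin k → Fin g → ℤ) (hV : ∀ l, Um (rd N (V l) 0)) :
    Tendsto (fun s : Fin k → ℝ => ff N n M l (mvs τ s V) *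
      ((Real.exp (2 * Real.pi * ((N ^ 2 * M * l : ℕ) : ℝ) * ∑ i, s i) : ℝ) : ℂ)) atTop
      (𝓝 (∑ w ∈ WW N n M g, LC V N n M τ w ^ l)) := by
  have h1 := tendsto_finsetSum (WW N n M g) fun w hw => (mon_LC hn hτ V hV hw).pow l
  refine h1.congr fun s => ?_
  unfold ff
  rw [Finset.sum_mul]
  refine Finset.sum_congr rfl fun w _ => ?_
  rw [mul_pow]
  congr 1
  rw [← Complex.ofReal_pow, ← Real.exp_nat_mul]
  congr 2
  push_cast
  ring

/-- nonvanishing of the limit from one good exponent -/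
theorem ff_lim_ne {N n : ℕ} [NeZero N] (hn : N = 2 * n) {τ : MM g} (hτ : τ ∈ HH g)
    (V : Fin k → Fin g → ℤ) (hV : ∀ l, Um (rd N (V l) 0)) {w : CN N g → ℕ} (h0 : ∃ x, w x ≠ 0)
    (h1 : ∀ x, w x ≠ 0 → cdv V τ (chE N x) (chZ N x 0) ≠ 0)
    (h2 : ∀ u : CN N g, Um u → (∑ x, (w x : ℝ)) / 12 ≤ ∑ x, (w x : ℝ) * gf (bq n u x))
    (h3 : ∀ i, Exw N n w (V i)) :
    ∃ M l : ℕ, 0 < M ∧ 0 < l ∧ ∃ c : ℂ, c ≠ 0 ∧
      Tendsto (fun s : Fin k → ℝ => ff N n M l (mvs τ s V) *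
        ((Real.exp (2 * Real.pi * ((N ^ 2 * M * l : ℕ) : ℝ) * ∑ i, s i) : ℝ) : ℂ)) atTop (𝓝 c) := by
  classical
  obtain ⟨x0, hx0⟩ := h0
  have hM0 : 0 < ∑ x, w x :=
    Nat.pos_of_ne_zero fun h => hx0 (Finset.sum_eq_zero_iff.1 h x0 (Finset.mem_univ x0))
  have hMr0 : ((∑ x, w x : ℕ) : ℝ) = ∑ x, (w x : ℝ) := by push_cast; rfl
  obtain ⟨M, hMd⟩ : ∃ M : ℕ, M = ∑ x, w x := ⟨_, rfl⟩
  have hM : 0 < M := by rw [hMd]; exact hM0
  have hMr : (M : ℝ) = ∑ x, (w x : ℝ) := by rw [hMd]; exact hMr0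
  have hw : w ∈ WW N n M g := by
    rw [mem_WW]
    refine ⟨hMd.symm, fun u hu => ?_⟩
    rw [hMr]
    exact h2 u hu
  have hLC : LC V N n M τ w ≠ 0 := by
    unfold LC
    rw [if_pos]
    · unfold lcm'
      refine Finset.prod_ne_zero_iff.2 fun x _ => ?_
      rcases eq_or_ne (w x) 0 with h | h
      · rw [h, pow_zero]; exact one_ne_zero
      · exact pow_ne_zero _ (pow_ne_zero _ (h1 x h))
    · intro l
      rw [hMr]
      exact h3 l
  have h5 : ∃ l : ℕ, 0 < l ∧ ∑ w ∈ WW N n M g, LC V N n M τ w ^ l ≠ 0 :=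
    power_sums (WW N n M g) (LC V N n M τ) hw hLC
  obtain ⟨l, hl, h4⟩ := h5
  have h6 := ff_lim (M := M) (l := l) hn hτ V hV
  exact ⟨M, l, hM, hl, _, h4, h6⟩

end Run7.h92
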