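import Mathlib

/-!
# Averaging over circles
-/

namespace Run7.h92

open Complex MeasureTheory Metric Real Set Filter Topology

theorem avg_joint {X : Type*} [MeasurableSpace X] {μ : Measure X} [SFinite μ] (T : ℝ → X → X)
    (hT : Measurable (Function.uncurry T)) (hp : ∀ θ, MeasurePreserving (T θ) μ μ)
    {h : X → ℝ} (hh : Integrable h μ) :
    Integrable (fun p : ℝ × X => h (T p.1 p.2)) ((volume.restrict (Ioc 0 (2 * π))).prod μ) := by
  have h1 : MeasurePreserving (fun p : ℝ × X => (id p.1, T p.1 p.2))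
      ((volume.restrict (Ioc 0 (2 * π))).prod μ) ((volume.restrict (Ioc 0 (2 * π))).prod μ) :=
    MeasurePreserving.skew_product (MeasurePreserving.id _) hT
      (Filter.Eventually.of_forall fun θ => (hp θ).map_eq)
  have h2 : Integrable (fun p : ℝ × X => h p.2) ((volume.restrict (Ioc 0 (2 * π))).prod μ) :=
    hh.comp_snd _
  exact h1.integrable_comp_of_integrable h2

theorem avg_int {X : Type*} [MeasurableSpace X] {μ : Measure X} [SFinite μ] (T : ℝ → X → X)
    (hT : Measurable (Function.uncurry T)) (hp : ∀ θ, MeasurePreserving (T θ) μ μ)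
    {h : X → ℝ} (hh : Integrable h μ) :
    Integrable (fun x => (2 * π)⁻¹ • ∫ θ in (0)..(2 * π), h (T θ x)) μ ∧
      ∫ x, ((2 * π)⁻¹ • ∫ θ in (0)..(2 * π), h (T θ x)) ∂μ = ∫ x, h x ∂μ := by
  have hj := avg_joint T hT hp hh
  have h2pi : (0 : ℝ) ≤ 2 * π := by positivity
  have e : ∀ x, ∫ θ in (0)..(2 * π), h (T θ x) = ∫ θ in Ioc 0 (2 * π), h (T θ x) := fun x =>
    intervalIntegral.integral_of_le h2pi
  simp_rw [e]
  refine ⟨(hj.integral_prod_right).const_mul _, ?_⟩
  simp_rw [smul_eq_mul]
  rw [integral_const_mul]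
  have hsw := integral_integral_swap (f := fun (x : X) (θ : ℝ) => h (T θ x)) (μ := μ)
    (ν := volume.restrict (Ioc 0 (2 * π))) (by
      have := hj.swap
      exact this)
  rw [hsw]
  have e2 : ∀ θ, ∫ x, h (T θ x) ∂μ = ∫ x, h x ∂μ := by
    intro θ
    have := integral_map (hp θ).measurable.aemeasurable (f := h)
      (by rw [(hp θ).map_eq]; exact hh.aestronglyMeasurable)
    rw [← this, (hp θ).map_eq]
  simp_rw [e2]
  rw [setIntegral_const]
  simp only [measureReal_def, Real.volume_Ioc, sub_zero, smul_eq_mul]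
  rw [ENNReal.toReal_ofReal h2pi, ← mul_assoc, inv_mul_cancel₀ (by positivity), one_mul]

/-- rotation of all coordinates is measure preserving -/
theorem rot_mp {g : ℕ} (w : ℂ) (hw : ‖w‖ = 1) :
    MeasurePreserving (fun z : Fin g → ℂ => w • z) volume volume := by
  have h1 : MeasurePreserving (fun z : ℂ => w * z) volume volume := by
    have h2 := (rotation ⟨w, mem_sphere_zero_iff_norm.2 hw⟩).measurePreserving
    exact h2
  exact volume_preserving_pi (f := fun (_ : Fin g) (z : ℂ) => w * z) fun _ => h1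

theorem rot_mp_ball {g : ℕ} (w : ℂ) (hw : ‖w‖ = 1) (R : ℝ) :
    MeasurePreserving (fun z : Fin g → ℂ => w • z) (volume.restrict (closedBall 0 R))
      (volume.restrict (closedBall 0 R)) := by
  have h := (rot_mp (g := g) w hw).restrict_preimage (s := closedBall 0 R) measurableSet_closedBall
  have e : (fun z : Fin g → ℂ => w • z) ⁻¹' closedBall 0 R = closedBall 0 R := by
    ext z
    simp [norm_smul, hw]
  rwa [e] at h

/-- the circle average of `h` on the circle through `ζ` in the complex line of `ζ` -/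
noncomputable def cav {g : ℕ} (h : (Fin g → ℂ) → ℝ) (ζ : Fin g → ℂ) : ℝ :=
  Real.circleAverage (fun w : ℂ => h (w • ζ)) 0 1

theorem cav_int {g : ℕ} {h : (Fin g → ℂ) → ℝ} {R : ℝ} (hh : IntegrableOn h (closedBall 0 R)) :
    IntegrableOn (cav h) (closedBall 0 R) ∧
      ∫ ζ in closedBall 0 R, cav h ζ = ∫ ζ in closedBall 0 R, h ζ := by
  have h1 := avg_int (μ := volume.restrict (closedBall (0 : Fin g → ℂ) R))
    (fun θ z => circleMap 0 1 θ • z) (by
      have : Continuous (Function.uncurry fun (θ : ℝ) (z : Fin g → ℂ) => circleMap 0 1 θ • z) := by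
        unfold Function.uncurry
        fun_prop
      exact this.measurable) (fun θ => rot_mp_ball _ (by simp) R) hh
  exact h1

end Run7.h92
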