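import Pool.Agent.Run7.h92.OneVar
import Pool.Agent.Run7.h92.Rot

/-!
# Zero sets are null and `log |f|` is locally integrable
-/

namespace Run7.h92

open Complex MeasureTheory Metric Real Set Filter Topology

variable {g : ℕ} {f : (Fin g → ℂ) → ℂ}

/-- restriction of `f` to a complex line -/
theorem line_diff (hf : Differentiable ℂ f) (z e : Fin g → ℂ) :
    Differentiable ℂ fun w : ℂ => f (z + w • e) := by
  have : Differentiable ℂ fun w : ℂ => z + w • e := by fun_prop
  exact hf.comp this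

theorem lint_rot {R : ℝ} {G : (Fin g → ℂ) → ENNReal} (hG : Measurable G) :
    ∫⁻ ζ in closedBall (0 : Fin g → ℂ) R, ∫⁻ θ in Ioc 0 (2 * π), G (circleMap 0 1 θ • ζ) =
      ENNReal.ofReal (2 * π) * ∫⁻ ζ in closedBall (0 : Fin g → ℂ) R, G ζ := by
  have hm : Measurable (Function.uncurry fun (ζ : Fin g → ℂ) (θ : ℝ) => G (circleMap 0 1 θ • ζ)) := by
    have h1 : Continuous (fun p : (Fin g → ℂ) × ℝ => circleMap 0 1 p.2 • p.1) := by fun_prop
    exact hG.comp h1.measurable
  rw [lintegral_lintegral_swap hm.aemeasurable]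
  have e : ∀ θ : ℝ, ∫⁻ ζ in closedBall (0 : Fin g → ℂ) R, G (circleMap 0 1 θ • ζ) =
      ∫⁻ ζ in closedBall (0 : Fin g → ℂ) R, G ζ := fun θ =>
    (rot_mp_ball (circleMap 0 1 θ) (by simp) R).lintegral_comp hG
  simp_rw [e]
  rw [setLIntegral_const, Real.volume_Ioc, sub_zero, mul_comm]

theorem null_zero (hf : Differentiable ℂ f) (hne : ∃ z, f z ≠ 0) : volume {z | f z = 0} = 0 := by
  obtain ⟨z₀, hz₀⟩ := hne
  have hc : Continuous f := hf.continuous
  have hmeas : ∀ z : Fin g → ℂ, MeasurableSet {ζ : Fin g → ℂ | f (z + ζ) = 0} := fun z =>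
    (isClosed_eq (hc.comp (by fun_prop)) continuous_const).measurableSet
  have key : ∀ n : ℕ, volume ({ζ : Fin g → ℂ | f (z₀ + ζ) = 0} ∩ closedBall 0 n) = 0 := by
    intro n
    have h1 := lint_rot (g := g) (R := n)
      (G := indicator {ζ : Fin g → ℂ | f (z₀ + ζ) = 0} 1) (measurable_one.indicator (hmeas z₀))
    have h2 : ∀ ζ : Fin g → ℂ, ∫⁻ θ in Ioc 0 (2 * π),
        indicator {ζ : Fin g → ℂ | f (z₀ + ζ) = 0} (1 : (Fin g → ℂ) → ENNReal)
          (circleMap 0 1 θ • ζ) = 0 := by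
      intro ζ
      have hF : Differentiable ℂ fun w : ℂ => f (z₀ + w • ζ) := line_diff hf z₀ ζ
      have hfin := zeros_finite hF ⟨0, by simpa using hz₀⟩ 0 1
      have h3 : ∀ᵐ θ ∂(volume.restrict (Ioc 0 (2 * π))), f (z₀ + circleMap 0 1 θ • ζ) ≠ 0 := by
        have h4 : ({θ : ℝ | f (z₀ + circleMap 0 1 θ • ζ) = 0} ∩ Ioc 0 (2 * π)).Finite := by
          refine Set.Finite.of_finite_image (f := circleMap 0 1) (hfin.subset ?_) ?_
          · rintro _ ⟨θ, ⟨hθ, -⟩, rfl⟩
            refine ⟨?_, hθ⟩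
            simp
          · intro a ha b hb hab
            exact injOn_circleMap_of_abs_sub_le (c := 0) one_ne_zero (a := 0) (b := 2 * π)
              (by simp [abs_of_pos Real.pi_pos]) (by simpa [uIoc_of_le Real.two_pi_pos.le] using ha.2)
                (by simpa [uIoc_of_le Real.two_pi_pos.le] using hb.2) hab
        rw [ae_restrict_iff' measurableSet_Ioc, ae_iff]
        refine measure_mono_null ?_ (h4.measure_zero volume)
        intro θ hθ
        simp only [ne_eq, Classical.not_imp, not_not, mem_ofPred_eq] at hθ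
        exact ⟨hθ.2, hθ.1⟩
      rw [lintegral_eq_zero_iff']
      · filter_upwards [h3] with θ hθ
        exact indicator_of_notMem (by simpa using hθ) _
      · have h5 : Continuous fun θ : ℝ => circleMap 0 1 θ • ζ := by fun_prop
        exact ((measurable_one.indicator (hmeas z₀)).comp h5.measurable).aemeasurable
    simp_rw [h2] at h1
    rw [lintegral_zero] at h1
    have h6 : ∫⁻ ζ in closedBall (0 : Fin g → ℂ) n,
        indicator {ζ : Fin g → ℂ | f (z₀ + ζ) = 0} 1 ζ = 0 := by
      rcases mul_eq_zero.1 h1.symm with h | h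
      · exact absurd h (by
          rw [ENNReal.ofReal_eq_zero]
          have := Real.two_pi_pos
          linarith)
      · exact h
    rw [lintegral_indicator_one (hmeas z₀)] at h6
    rwa [Measure.restrict_apply (hmeas z₀)] at h6
  have h7 : volume {ζ : Fin g → ℂ | f (z₀ + ζ) = 0} = 0 := by
    have : {ζ : Fin g → ℂ | f (z₀ + ζ) = 0} ⊆
        ⋃ n : ℕ, ({ζ : Fin g → ℂ | f (z₀ + ζ) = 0} ∩ closedBall 0 n) := by
      intro ζ hζ
      obtain ⟨n, hn⟩ := exists_nat_ge ‖ζ‖
      exact mem_iUnion.2 ⟨n, hζ, by simpa using hn⟩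
    exact measure_mono_null this (measure_iUnion_null key)
  have h8 : {z | f z = 0} = (fun z => z - z₀) ⁻¹' {ζ : Fin g → ℂ | f (z₀ + ζ) = 0} := by
    ext z
    simp
  rw [h8]
  have := (measurePreserving_sub_right (volume : Measure (Fin g → ℂ)) z₀).measure_preimage
    (hmeas z₀).nullMeasurableSet
  rw [this, h7]

theorem logint_center (hf : Differentiable ℂ f) {z₀ : Fin g → ℂ} (hz₀ : f z₀ ≠ 0) (R : ℝ) :
    IntegrableOn (fun ζ => Real.log ‖f (z₀ + ζ)‖) (closedBall 0 R) := by
  have hc : Continuous f := hf.continuous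
  have hmeas : Measurable fun ζ : Fin g → ℂ => Real.log ‖f (z₀ + ζ)‖ := by
    have h1 : Continuous fun ζ : Fin g → ℂ => ‖f (z₀ + ζ)‖ := by fun_prop
    exact Real.measurable_log.comp h1.measurable
  obtain ⟨C, hC⟩ := (isCompact_closedBall (0 : Fin g → ℂ) R).exists_bound_of_continuousOn
    (f := fun ζ => f (z₀ + ζ)) (by fun_prop)
  set M : ℝ := Real.log (max C 1) with hM
  have hM0 : 0 ≤ M := Real.log_nonneg (le_max_right _ _)
  have hle : ∀ ζ ∈ closedBall (0 : Fin g → ℂ) R, Real.log ‖f (z₀ + ζ)‖ ≤ M := by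
    intro ζ hζ
    by_cases h0 : f (z₀ + ζ) = 0
    · rw [h0, norm_zero, Real.log_zero]; exact hM0
    · exact Real.log_le_log (norm_pos_iff.2 h0) ((hC ζ hζ).trans (le_max_left _ _))
  set G : (Fin g → ℂ) → ENNReal := fun ζ => ENNReal.ofReal (M - Real.log ‖f (z₀ + ζ)‖) with hG
  have hGm : Measurable G := (measurable_const.sub hmeas).ennreal_ofReal
  have h1 := lint_rot (g := g) (R := R) hGm
  have h2 : ∀ ζ ∈ closedBall (0 : Fin g → ℂ) R, ∫⁻ θ in Ioc 0 (2 * π), G (circleMap 0 1 θ • ζ) ≤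
      ENNReal.ofReal (2 * π * (M - Real.log ‖f z₀‖)) := by
    intro ζ hζ
    have hF : Differentiable ℂ fun w : ℂ => f (z₀ + w • ζ) := line_diff hf z₀ ζ
    have hci : CircleIntegrable (fun w : ℂ => Real.log ‖f (z₀ + w • ζ)‖) 0 1 :=
      ((analyticU hF (sphere 0 |1|)).meromorphicOn).circleIntegrable_log_norm
    have hci' : IntegrableOn (fun θ : ℝ => Real.log ‖f (z₀ + circleMap 0 1 θ • ζ)‖)
        (Ioc 0 (2 * π)) := by
      have := hci
      rw [CircleIntegrable, intervalIntegrable_iff_integrableOn_Ioc_of_le Real.two_pi_pos.le] at this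
      exact this
    have hint : Integrable (fun θ : ℝ => M - Real.log ‖f (z₀ + circleMap 0 1 θ • ζ)‖)
        (volume.restrict (Ioc 0 (2 * π))) := (integrable_const M).sub hci'
    have hrot : ∀ θ : ℝ, circleMap 0 1 θ • ζ ∈ closedBall (0 : Fin g → ℂ) R := by
      intro θ
      rw [mem_closedBall, dist_zero_right, norm_smul]
      simpa using hζ
    rw [hG]
    simp only
    rw [← ofReal_integral_eq_lintegral_ofReal hint (Filter.Eventually.of_forall fun θ =>
      sub_nonneg.2 (hle _ (hrot θ)))]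
    refine ENNReal.ofReal_le_ofReal ?_
    rw [integral_sub (integrable_const M) hci', setIntegral_const]
    have hg := Sg_nonneg hF (w := 0) (by simpa using hz₀) one_pos
    unfold Sg at hg
    simp only [zero_smul, add_zero] at hg
    rw [Real.circleAverage, intervalIntegral.integral_of_le Real.two_pi_pos.le, smul_eq_mul] at hg
    simp only [measureReal_def, Real.volume_Ioc, sub_zero, smul_eq_mul]
    rw [ENNReal.toReal_ofReal Real.two_pi_pos.le]
    have hpi := Real.two_pi_pos
    have h3 : Real.log ‖f z₀‖ ≤ (2 * π)⁻¹ * ∫ θ in Ioc 0 (2 * π),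
        Real.log ‖f (z₀ + circleMap 0 1 θ • ζ)‖ := by linarith
    have h4 : 2 * π * Real.log ‖f z₀‖ ≤ ∫ θ in Ioc 0 (2 * π),
        Real.log ‖f (z₀ + circleMap 0 1 θ • ζ)‖ := by
      calc 2 * π * Real.log ‖f z₀‖ ≤ 2 * π * ((2 * π)⁻¹ * ∫ θ in Ioc 0 (2 * π),
        Real.log ‖f (z₀ + circleMap 0 1 θ • ζ)‖) := by gcongr
        _ = _ := by field_simp
    linarith
  have h3 : ENNReal.ofReal (2 * π) * ∫⁻ ζ in closedBall (0 : Fin g → ℂ) R, G ζ < ⊤ := by
    rw [← h1]
    calc _ ≤ ∫⁻ _ in closedBall (0 : Fin g → ℂ) R, ENNReal.ofReal (2 * π * (M - Real.log ‖f z₀‖)) :=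
          setLIntegral_mono measurable_const h2
      _ < ⊤ := by
        rw [setLIntegral_const]
        exact ENNReal.mul_lt_top ENNReal.ofReal_lt_top measure_closedBall_lt_top
  have h4 : ∫⁻ ζ in closedBall (0 : Fin g → ℂ) R, G ζ < ⊤ := by
    rcases ENNReal.mul_lt_top_iff.1 h3 with h | h | h
    · exact h.2
    · exact absurd h (by
        rw [ENNReal.ofReal_eq_zero]
        have := Real.two_pi_pos
        linarith)
    · rw [h]; exact ENNReal.zero_lt_top
  have h5 : IntegrableOn (fun ζ => M - Real.log ‖f (z₀ + ζ)‖) (closedBall 0 R) := by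
    refine ⟨(measurable_const.sub hmeas).aestronglyMeasurable, ?_⟩
    rw [hasFiniteIntegral_iff_ofReal]
    · exact h4
    · refine (ae_restrict_iff' measurableSet_closedBall).2 (Filter.Eventually.of_forall fun ζ hζ => ?_)
      exact sub_nonneg.2 (hle ζ hζ)
  have h6 : IntegrableOn (fun _ : Fin g → ℂ => M) (closedBall 0 R) := by
    rw [integrableOn_const_iff]
    right
    exact measure_closedBall_lt_top
  have h7 := h6.sub h5
  refine h7.congr (Filter.Eventually.of_forall fun ζ => ?_)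
  simp

theorem logint (hf : Differentiable ℂ f) (hne : ∃ z, f z ≠ 0) (z : Fin g → ℂ) (R : ℝ) :
    IntegrableOn (fun ζ => Real.log ‖f (z + ζ)‖) (closedBall 0 R) := by
  obtain ⟨z₀, hz₀⟩ := hne
  have h := logint_center hf hz₀ (R + ‖z - z₀‖)
  have hmp := measurePreserving_add_right (volume : Measure (Fin g → ℂ)) (z - z₀)
  have h2 : IntegrableOn ((fun ζ => Real.log ‖f (z₀ + ζ)‖) ∘ (fun ζ => ζ + (z - z₀)))
      ((fun ζ => ζ + (z - z₀)) ⁻¹' closedBall 0 (R + ‖z - z₀‖)) := by
    rw [hmp.integrableOn_comp_preimage (measurableEmbedding_addRight _)]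
    exact h
  have h3 : closedBall (0 : Fin g → ℂ) R ⊆
      (fun ζ => ζ + (z - z₀)) ⁻¹' closedBall 0 (R + ‖z - z₀‖) := by
    intro ζ hζ
    rw [mem_preimage, mem_closedBall, dist_zero_right]
    rw [mem_closedBall, dist_zero_right] at hζ
    exact (norm_add_le _ _).trans (by linarith)
  refine (h2.mono_set h3).congr (Filter.Eventually.of_forall fun ζ => ?_)
  simp only [Function.comp_apply]
  congr 3
  abel

end Run7.h92
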