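import Pool.Agent.Run7.h92.LogInt

/-!
# The lower bound for the Jensen gaps around a zero
-/

namespace Run7.h92

open Complex MeasureTheory Metric Real Set Filter Topology

variable {g : ℕ}

/-- The Jensen gap of `f` at `z` in direction `ζ`. -/
noncomputable def SS (f : (Fin g → ℂ) → ℂ) (z ζ : Fin g → ℂ) : ℝ :=
  Sg (fun w => f (z + w • ζ)) 0 1

/-- the unit polydisc -/
def UU (g : ℕ) : Set (Fin g → ℂ) := closedBall 0 1

/-- its volume -/
noncomputable def vU (g : ℕ) : ℝ := (volume (UU g)).toReal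

theorem vU_pos : 0 < vU g := by
  unfold vU UU
  exact ENNReal.toReal_pos (measure_closedBall_pos _ _ one_pos).ne' measure_closedBall_lt_top.ne

theorem SS_nonneg {f : (Fin g → ℂ) → ℂ} (hf : Differentiable ℂ f) {z : Fin g → ℂ} (hz : f z ≠ 0)
    (ζ : Fin g → ℂ) : 0 ≤ SS f z ζ :=
  Sg_nonneg (line_diff hf z ζ) (by simpa using hz) one_pos

/-- the circle average -/
noncomputable def CC (f : (Fin g → ℂ) → ℂ) (z ζ : Fin g → ℂ) : ℝ :=
  Real.circleAverage (fun w : ℂ => Real.log ‖f (z + w • ζ)‖) 0 1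

theorem SS_eq (f : (Fin g → ℂ) → ℂ) (z ζ : Fin g → ℂ) :
    SS f z ζ = CC f z ζ - Real.log ‖f z‖ := by
  unfold SS Sg CC
  simp

theorem CC_cav (f : (Fin g → ℂ) → ℂ) (z ζ : Fin g → ℂ) (r : ℝ) :
    CC f z (r • ζ) = cav (fun ζ => Real.log ‖f (z + r • ζ)‖) ζ := by
  unfold CC cav
  congr 1
  funext w
  rw [smul_comm]

theorem CC_radius (f : (Fin g → ℂ) → ℂ) (z ζ : Fin g → ℂ) (r : ℝ) :
    CC f z (r • ζ) = Real.circleAverage (fun w : ℂ => Real.log ‖f (z + w • ζ)‖) 0 r := by
  unfold CC
  rw [Real.circleAverage_eq_circleAverage_zero_one (R := r)]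
  congr 1
  funext w
  congr 4
  rw [add_zero, mul_smul, smul_comm]
  simp

variable {f : (Fin g → ℂ) → ℂ}

theorem meas_log (hf : Differentiable ℂ f) : Measurable fun z => Real.log ‖f z‖ :=
  Real.measurable_log.comp hf.continuous.norm.measurable

theorem prod_integrable (hf : Differentiable ℂ f) (hne : ∃ z, f z ≠ 0) :
    Integrable (fun q : (Fin g → ℂ) × (Fin g → ℂ) => Real.log ‖f (q.1 + (2 : ℝ) • q.2)‖)
      ((volume.restrict (UU g)).prod (volume.restrict (UU g))) := by
  have hm : Measurable (fun q : (Fin g → ℂ) × (Fin g → ℂ) => Real.log ‖f (q.1 + (2 : ℝ) • q.2)‖) := by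
    have h1 : Continuous (fun q : (Fin g → ℂ) × (Fin g → ℂ) => ‖f (q.1 + (2 : ℝ) • q.2)‖) := by
      have := hf.continuous
      fun_prop
    exact Real.measurable_log.comp h1.measurable
  rw [integrable_prod_iff' hm.aestronglyMeasurable]
  constructor
  · refine Filter.Eventually.of_forall fun ζ => ?_
    have := logint hf hne ((2 : ℝ) • ζ) 1
    refine this.congr (Filter.Eventually.of_forall fun p => ?_)
    simp only
    rw [add_comm]
  · have h3 := (logint hf hne 0 3).norm
    have hb : ∀ᵐ ζ ∂(volume.restrict (UU g)),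
        ‖∫ p in UU g, ‖Real.log ‖f (p + (2 : ℝ) • ζ)‖‖‖ ≤
          ∫ y in closedBall (0 : Fin g → ℂ) 3, ‖Real.log ‖f (0 + y)‖‖ := by
      refine (ae_restrict_iff' measurableSet_closedBall).2 (Filter.Eventually.of_forall fun ζ hζ => ?_)
      rw [mem_closedBall, dist_zero_right] at hζ
      rw [Real.norm_of_nonneg (integral_nonneg fun _ => norm_nonneg _)]
      have hmp := measurePreserving_add_right (volume : Measure (Fin g → ℂ)) ((2 : ℝ) • ζ)
      have e := hmp.setIntegral_preimage_emb (measurableEmbedding_addRight _)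
        (fun y => ‖Real.log ‖f (0 + y)‖‖) (closedBall ((2 : ℝ) • ζ) 1)
      have e2 : (fun x => x + (2 : ℝ) • ζ) ⁻¹' closedBall ((2 : ℝ) • ζ) 1 = UU g := by
        ext x
        simp [UU]
      rw [e2] at e
      simp only [zero_add] at e ⊢
      rw [e]
      refine setIntegral_mono_set ?_ ?_ ?_
      · simpa [IntegrableOn] using h3
      · exact Filter.Eventually.of_forall fun _ => norm_nonneg _
      · refine LE.le.eventuallyLE ?_
        intro y hy
        rw [mem_closedBall, dist_eq_norm] at hy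
        rw [mem_closedBall, dist_zero_right]
        calc ‖y‖ = ‖(y - (2 : ℝ) • ζ) + (2 : ℝ) • ζ‖ := by simp
          _ ≤ ‖y - (2 : ℝ) • ζ‖ + ‖(2 : ℝ) • ζ‖ := norm_add_le _ _
          _ ≤ 1 + 2 * 1 := by
            rw [norm_smul]
            have : ‖(2 : ℝ)‖ = 2 := by norm_num
            rw [this]
            gcongr
          _ = 3 := by norm_num
    have : IsFiniteMeasure (volume.restrict (UU g)) := ⟨by
      rw [Measure.restrict_apply_univ]; exact measure_closedBall_lt_top⟩
    refine Integrable.of_bound ?_ _ hb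
    exact (hm.norm.stronglyMeasurable.integral_prod_left').aestronglyMeasurable

/-- **Lower bound.** Around a zero the Jensen gaps have a definite average. -/
theorem lower (hf : Differentiable ℂ f) (hne : ∃ z, f z ≠ 0) (h0 : f 0 = 0) :
    Integrable (fun q : (Fin g → ℂ) × (Fin g → ℂ) => SS f q.1 ((2 : ℝ) • q.2))
      ((volume.restrict (UU g)).prod (volume.restrict (UU g))) ∧
    vU g ^ 2 * Real.log 2 ≤ ∫ q, SS f q.1 ((2 : ℝ) • q.2)
      ∂((volume.restrict (UU g)).prod (volume.restrict (UU g))) := by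
  have hfin : IsFiniteMeasure (volume.restrict (UU g)) := ⟨by
      rw [Measure.restrict_apply_univ]; exact measure_closedBall_lt_top⟩
  have hP := prod_integrable hf hne
  have hvol : (volume.restrict (UU g)).real univ = vU g := by
    rw [measureReal_restrict_apply_univ]; rfl
  -- (iii)
  have h3 := avg_int (μ := (volume.restrict (UU g)).prod (volume.restrict (UU g)))
    (fun θ (q : (Fin g → ℂ) × (Fin g → ℂ)) => (q.1, circleMap 0 1 θ • q.2)) (by
      have : Continuous (Function.uncurry fun (θ : ℝ) (q : (Fin g → ℂ) × (Fin g → ℂ)) =>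
          (q.1, circleMap 0 1 θ • q.2)) := by
        unfold Function.uncurry
        fun_prop
      exact this.measurable)
    (fun θ => (MeasurePreserving.id _).prod (rot_mp_ball _ (by simp) 1)) hP
  obtain ⟨h3i, h3e⟩ := h3
  have e3 : ∀ q : (Fin g → ℂ) × (Fin g → ℂ), (2 * π)⁻¹ • ∫ θ in (0)..(2 * π),
      Real.log ‖f (q.1 + (2 : ℝ) • circleMap 0 1 θ • q.2)‖ = CC f q.1 ((2 : ℝ) • q.2) := by
    intro q
    unfold CC Real.circleAverage
    simp_rw [smul_comm (circleMap 0 1 _) (2 : ℝ)]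
  simp only at h3i h3e
  simp_rw [e3] at h3i h3e
  -- log at the base point
  have h1 : IntegrableOn (fun p => Real.log ‖f p‖) (UU g) := by
    have := logint hf hne 0 1
    unfold UU
    simpa using this
  have h1' : Integrable (fun q : (Fin g → ℂ) × (Fin g → ℂ) => Real.log ‖f q.1‖)
      ((volume.restrict (UU g)).prod (volume.restrict (UU g))) := h1.comp_fst _
  have hS : Integrable (fun q : (Fin g → ℂ) × (Fin g → ℂ) => SS f q.1 ((2 : ℝ) • q.2))
      ((volume.restrict (UU g)).prod (volume.restrict (UU g))) := by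
    simp_rw [SS_eq]
    exact h3i.sub h1'
  refine ⟨hS, ?_⟩
  simp_rw [SS_eq]
  rw [integral_sub h3i h1', h3e, integral_prod_symm _ hP, integral_prod _ h1']
  simp only
  -- (ii)
  have h2z : ∀ᵐ ζ ∂(volume.restrict (UU g)), f ((2 : ℝ) • ζ) ≠ 0 := by
    refine ae_restrict_of_ae ?_
    rw [ae_iff]
    have hd : Differentiable ℂ fun ζ : Fin g → ℂ => f ((2 : ℝ) • ζ) := by
      have h5 : Differentiable ℂ fun ζ : Fin g → ℂ => (2 : ℂ) • ζ := by fun_prop
      exact hf.comp h5
    have := null_zero hd (by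
      obtain ⟨z, hz⟩ := hne
      exact ⟨(2 : ℝ)⁻¹ • z, by simpa using hz⟩)
    simpa using this
  have h2 : ∀ᵐ ζ ∂(volume.restrict (UU g)), vU g * Real.log ‖f ((2 : ℝ) • ζ)‖ ≤
      ∫ p in UU g, Real.log ‖f (p + (2 : ℝ) • ζ)‖ := by
    filter_upwards [h2z] with ζ hζ
    have h4 : IntegrableOn (fun p => Real.log ‖f (p + (2 : ℝ) • ζ)‖) (closedBall 0 1) := by
      have := logint hf hne ((2 : ℝ) • ζ) 1
      simpa only [add_comm] using this
    obtain ⟨h5, h6⟩ := cav_int h4
    unfold UU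
    rw [← h6]
    have h7 : ∀ p : Fin g → ℂ, Real.log ‖f ((2 : ℝ) • ζ)‖ ≤
        cav (fun p => Real.log ‖f (p + (2 : ℝ) • ζ)‖) p := by
      intro p
      have h8 := Sg_nonneg (line_diff hf ((2 : ℝ) • ζ) p) (w := 0) (by simpa using hζ) one_pos
      unfold Sg at h8
      simp only [zero_smul, add_zero] at h8
      unfold cav
      simp only [add_comm _ ((2 : ℝ) • ζ)]
      linarith
    calc vU g * Real.log ‖f ((2 : ℝ) • ζ)‖ = ∫ _ in closedBall (0 : Fin g → ℂ) 1,
          Real.log ‖f ((2 : ℝ) • ζ)‖ := by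
          rw [setIntegral_const]; rfl
      _ ≤ _ := by
        refine setIntegral_mono (integrableOn_const (measure_closedBall_lt_top.ne)) h5 h7
  -- (i)
  have hz : ∀ᵐ ζ ∂(volume.restrict (UU g)), f ζ ≠ 0 := by
    refine ae_restrict_of_ae ?_
    rw [ae_iff]
    simpa using null_zero hf hne
  have h2i : IntegrableOn (fun ζ => Real.log ‖f ((2 : ℝ) • ζ)‖) (closedBall 0 1) := by
    have hd : Differentiable ℂ fun ζ : Fin g → ℂ => f ((2 : ℝ) • ζ) := by
      have h5 : Differentiable ℂ fun ζ : Fin g → ℂ => (2 : ℂ) • ζ := by fun_prop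
      exact hf.comp h5
    have := logint hd (by
      obtain ⟨z, hz⟩ := hne
      exact ⟨(2 : ℝ)⁻¹ • z, by simpa using hz⟩) 0 1
    simpa using this
  have hA : (∫ ζ in UU g, Real.log ‖f ζ‖) + vU g * Real.log 2 ≤
      ∫ ζ in UU g, Real.log ‖f ((2 : ℝ) • ζ)‖ := by
    obtain ⟨a1, a2⟩ := cav_int h1
    obtain ⟨b1, b2⟩ := cav_int h2i
    unfold UU at *
    rw [← a2, ← b2]
    have e : (∫ ζ in closedBall (0 : Fin g → ℂ) 1, cav (fun p => Real.log ‖f p‖) ζ) +
        vU g * Real.log 2 =
        ∫ ζ in closedBall (0 : Fin g → ℂ) 1, (cav (fun p => Real.log ‖f p‖) ζ + Real.log 2) := by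
      rw [integral_add a1 (integrableOn_const (measure_closedBall_lt_top.ne)), setIntegral_const]
      rfl
    rw [e]
    refine setIntegral_mono_ae_restrict (a1.add (integrableOn_const (measure_closedBall_lt_top.ne)))
      b1 ?_
    filter_upwards [hz] with ζ hζ
    have hl := line_diff hf 0 ζ
    have := circleAverage_double hl ⟨1, by simpa using hζ⟩ (by simpa using h0) one_pos
    have e1 := CC_radius f 0 ζ 1
    have e2 := CC_radius f 0 ζ 2
    have e3 := CC_cav f 0 ζ 1
    have e4 := CC_cav f 0 ζ 2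
    simp only [zero_add, one_smul] at e1 e2 e3 e4 this
    rw [mul_one] at this
    rw [← e3, ← e4, e1, e2]
    exact this
  have hfinal : vU g * ∫ ζ in UU g, Real.log ‖f ((2 : ℝ) • ζ)‖ ≤
      ∫ ζ in UU g, ∫ p in UU g, Real.log ‖f (p + (2 : ℝ) • ζ)‖ := by
    rw [← integral_const_mul]
    refine integral_mono_ae (h2i.const_mul _) ?_ h2
    exact hP.integral_prod_right
  have hc : ∫ p in UU g, ∫ _ in UU g, Real.log ‖f p‖ = vU g * ∫ p in UU g, Real.log ‖f p‖ := by
    simp_rw [setIntegral_const]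
    rw [← integral_const_mul]
    rfl
  rw [hc]
  have hv := vU_pos (g := g)
  nlinarith [mul_le_mul_of_nonneg_left hA hv.le]

end Run7.h92
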