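import Pool.Agent.Run7.h92.RootG
import Pool.Agent.Run7.h92.TUC

/-!
# The root lattices of type A and D
-/

namespace Run7.h92

open Matrix

variable {n : ℕ}

/-- Gram matrix of the root lattice of type A -/
def gA (n : ℕ) : Matrix (Fin n) (Fin n) ℤ := Matrix.of fun i j => if i = j then 2 else 1

/-- Gram matrix of the root lattice of type D, rank `n + 1` -/
def gD (n : ℕ) : Matrix (Fin (n + 1)) (Fin (n + 1)) ℤ := Matrix.of fun i j =>
  if i = 0 then (if j = 0 then 4 else -2) else if j = 0 then -2 else if i = j then 2 else 1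

theorem gA_val (w : Fin n → ℤ) : w ⬝ᵥ gA n *ᵥ w = ∑ i, w i ^ 2 + (∑ i, w i) ^ 2 := by
  have h1 : ∀ i, (gA n *ᵥ w) i = w i + ∑ j, w j := by
    intro i
    unfold mulVec dotProduct gA
    have e : ∀ j, (Matrix.of (fun i j : Fin n => if i = j then (2 : ℤ) else 1) i j) * w j =
        (if i = j then w j else 0) + w j := by
      intro j
      rw [Matrix.of_apply]
      split_ifs <;> ring
    simp only [e]
    rw [Finset.sum_add_distrib, Finset.sum_ite_eq]
    simp
  unfold dotProduct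
  simp only [h1]
  rw [sq (∑ i, w i), Finset.sum_mul, ← Finset.sum_add_distrib]
  exact Finset.sum_congr rfl fun i _ => by ring

theorem gD_val (w : Fin (n + 1) → ℤ) : w ⬝ᵥ gD n *ᵥ w =
    (2 * w 0 - ∑ i : Fin n, w i.succ) ^ 2 + ∑ i : Fin n, w i.succ ^ 2 := by
  have h0 : (gD n *ᵥ w) 0 = 4 * w 0 - 2 * ∑ j : Fin n, w j.succ := by
    unfold mulVec dotProduct gD
    rw [Fin.sum_univ_succ]
    simp only [Matrix.of_apply, if_true, Fin.succ_ne_zero, if_false]
    rw [Finset.mul_sum, sub_eq_add_neg, ← Finset.sum_neg_distrib]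
    congr 1
    exact Finset.sum_congr rfl fun i _ => by ring
  have h1 : ∀ i : Fin n, (gD n *ᵥ w) i.succ = -2 * w 0 + (w i.succ + ∑ j : Fin n, w j.succ) := by
    intro i
    unfold mulVec dotProduct gD
    rw [Fin.sum_univ_succ]
    simp only [Matrix.of_apply, if_true, Fin.succ_ne_zero, if_false, Fin.succ_inj]
    congr 1
    have e : ∀ j : Fin n, (if i = j then (2 : ℤ) else 1) * w j.succ =
        (if i = j then w j.succ else 0) + w j.succ := by
      intro j
      split_ifs <;> ring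
    simp only [e]
    rw [Finset.sum_add_distrib, Finset.sum_ite_eq]
    simp
  unfold dotProduct
  rw [Fin.sum_univ_succ, h0]
  simp only [h1]
  have e2 : ∑ i : Fin n, w i.succ * (-2 * w 0 + (w i.succ + ∑ j : Fin n, w j.succ)) =
      -2 * w 0 * ∑ i : Fin n, w i.succ + ∑ i : Fin n, w i.succ ^ 2 +
        (∑ i : Fin n, w i.succ) * ∑ j : Fin n, w j.succ := by
    rw [Finset.mul_sum, Finset.sum_mul, ← Finset.sum_add_distrib, ← Finset.sum_add_distrib]
    exact Finset.sum_congr rfl fun i _ => by ring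
  rw [e2]
  ring

theorem two_dvd_sq_sub (z : ℤ) : (2 : ℤ) ∣ z ^ 2 - z := by
  have : z ^ 2 - z = z * (z - 1) := by ring
  rw [this]
  have := Int.even_mul_pred_self z
  exact this.two_dvd

theorem two_dvd_sum (w : Fin n → ℤ) : (2 : ℤ) ∣ ∑ i, w i ^ 2 + (∑ i, w i) ^ 2 := by
  have h1 : ∑ i, w i ^ 2 + (∑ i, w i) ^ 2 =
      ∑ i, (w i ^ 2 - w i) + ((∑ i, w i) ^ 2 - ∑ i, w i) + 2 * ∑ i, w i := by
    rw [Finset.sum_sub_distrib]
    ring
  rw [h1]
  refine dvd_add (dvd_add (Finset.dvd_sum fun i _ => two_dvd_sq_sub _) (two_dvd_sq_sub _)) ?_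
  exact dvd_mul_right _ _

theorem sum_sq_pos {w : Fin n → ℤ} (hw : w ≠ 0) : 0 < ∑ i, w i ^ 2 := by
  obtain ⟨i, hi⟩ : ∃ i, w i ≠ 0 := by
    by_contra hc
    push Not at hc
    exact hw (funext hc)
  have h1 : 0 < w i ^ 2 := by positivity
  exact lt_of_lt_of_le h1 (Finset.single_le_sum (f := fun i => w i ^ 2)
    (fun i _ => sq_nonneg _) (Finset.mem_univ i))

theorem even_of_rd2 {w : Fin n → ℤ} {i : Fin n} (h : rd2 w i = 0) : (2 : ℤ) ∣ w i := by
  have h1 : ((w i : ℤ) : ZMod 2) = 0 := h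
  exact (ZMod.intCast_zmod_eq_zero_iff_dvd (w i) 2).1 h1

/-- bounded partial sums -/
theorem part_bound {w : Fin n → ℤ} {c : Fin n → ℤ} (hc : ∀ i, c i = 0 ∨ c i = 1) :
    |∑ i, w i * c i| + |∑ i, w i * (1 - c i)| ≤ ∑ i, w i ^ 2 := by
  have h1 : ∀ z : ℤ, |z| ≤ z ^ 2 := fun z => by
    rw [← sq_abs z]
    rcases eq_or_lt_of_le (abs_nonneg z) with h | h
    · rw [← h]; norm_num
    · nlinarith
  calc |∑ i, w i * c i| + |∑ i, w i * (1 - c i)|
      ≤ ∑ i, |w i * c i| + ∑ i, |w i * (1 - c i)| :=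
        add_le_add (Finset.abs_sum_le_sum_abs _ _) (Finset.abs_sum_le_sum_abs _ _)
    _ = ∑ i, (|w i * c i| + |w i * (1 - c i)|) := (Finset.sum_add_distrib).symm
    _ ≤ ∑ i, w i ^ 2 := by
        refine Finset.sum_le_sum fun i _ => ?_
        rcases hc i with h | h <;> rw [h] <;> simp [h1 (w i)]

theorem small_of {x y : ℤ} (h : |x| + |y| + (x + y) ^ 2 ≤ 2) : |x| ≤ 1 := by
  by_contra hc
  rw [not_le] at hc
  have h1 : 0 ≤ |y| := abs_nonneg y
  have h2 : 0 ≤ (x + y) ^ 2 := sq_nonneg _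
  have h3 : |y| = 0 := by omega
  have h4 : y = 0 := abs_eq_zero.1 h3
  subst h4
  rw [add_zero, ← sq_abs x] at h
  have h5 : |x| = 2 := by
    rw [abs_zero] at h
    nlinarith
  rw [h5] at h
  norm_num at h

theorem gcert_A (n : ℕ) : GCert (gA n) (P0 n) := by
  have hne : ∀ w : Fin n → ℤ, w ⬝ᵥ gA n *ᵥ w = 2 → rd2 w ≠ 0 := by
    intro w hw h0
    have h1 : ∀ i, (2 : ℤ) ∣ w i := fun i => even_of_rd2 (congrFun h0 i)
    rw [gA_val] at hw
    have h2 : (4 : ℤ) ∣ ∑ i, w i ^ 2 := Finset.dvd_sum fun i _ => by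
      obtain ⟨c, hc⟩ := h1 i
      exact ⟨c ^ 2, by rw [hc]; ring⟩
    have h3 : (4 : ℤ) ∣ (∑ i, w i) ^ 2 := by
      obtain ⟨c, hc⟩ := Finset.dvd_sum fun i (_ : i ∈ Finset.univ) => h1 i
      exact ⟨c ^ 2, by rw [hc]; ring⟩
    have h4 := dvd_add h2 h3
    rw [hw] at h4
    norm_num at h4
  refine ⟨⟨?_, ?_, ?_, ?_⟩, ?_, ?_⟩
  · rw [P0_tot]
    positivity
  · intro b hb
    rw [P0_tot, P0_odd hb]
  · intro w hw
    rw [P0_tot, P0_odd (hne w hw)]
  · intro e _
    refine ⟨fun i => if e i = 1 then 1 else 0, ?_, ?_⟩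
    · funext i
      show (((if e i = 1 then 1 else 0 : ℤ)) : ZMod 2) = e i
      rcases zmod2_cases (e i) with h | h <;> rw [h] <;> decide
    · intro w hw
      rw [gA_val] at hw
      have h1 := part_bound (w := w) (c := fun i => if e i = 1 then 1 else 0)
        (fun i => by split_ifs <;> simp)
      have h2 : ∑ i, w i = (∑ i, w i * (if e i = 1 then 1 else 0)) +
          ∑ i, w i * (1 - (if e i = 1 then 1 else 0)) := by
        rw [← Finset.sum_add_distrib]
        exact Finset.sum_congr rfl fun i _ => by ring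
      refine small_of (y := ∑ i, w i * (1 - (if e i = 1 then 1 else 0))) ?_
      show |∑ i, w i * (if e i = 1 then 1 else 0)| + _ + ((∑ i, w i * (if e i = 1 then 1 else 0)) + _) ^ 2 ≤ 2
      rw [← h2]
      linarith
  · intro w hw
    rw [gA_val]
    have h1 := two_dvd_sum w
    have h2 := sum_sq_pos hw
    have h3 : 0 < ∑ i, w i ^ 2 + (∑ i, w i) ^ 2 := by positivity
    exact Int.le_of_dvd h3 h1
  · intro b hb
    rw [P0_tot, P0_odd hb]
    have : 0 < 2 ^ n := by positivity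
    omega

end Run7.h92
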