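import Pool.Agent.Run7.h92.RootA
import Mathlib.LinearAlgebra.Matrix.Cartan

/-!
# Certificates for the Cartan matrices of type A and D
-/

namespace Run7.h92

open Matrix

variable {r n : ℕ}

theorem rd2_mulVec' (B : Matrix (Fin r) (Fin r) ℤ) (w : Fin r → ℤ) :
    rd2 (B *ᵥ w) = B.map (Int.cast : ℤ → ZMod 2) *ᵥ rd2 w := by
  funext i
  show ((∑ j, B i j * w j : ℤ) : ZMod 2) = ∑ j, (B i j : ZMod 2) * (w j : ZMod 2)
  push_cast
  rfl

/-- change of basis -/
theorem GCert.change {G G' B B' : Matrix (Fin r) (Fin r) ℤ} {P : (Fin r → ZMod 2) → ℕ}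
    (h : GCert G P) (h1 : B * B' = 1) (h2 : B' * B = 1)
    (hG : ∀ w : Fin r → ℤ, w ⬝ᵥ G' *ᵥ w = (B *ᵥ w) ⬝ᵥ G *ᵥ (B *ᵥ w)) :
    ∃ P', GCert G' P' := by
  set C : Matrix (Fin r) (Fin r) (ZMod 2) := B.map (Int.cast : ℤ → ZMod 2) with hC
  set C' : Matrix (Fin r) (Fin r) (ZMod 2) := B'.map (Int.cast : ℤ → ZMod 2) with hC'
  have hCC : C * C' = 1 := by
    have := congrArg (fun M : Matrix (Fin r) (Fin r) ℤ => M.map (Int.castRingHom (ZMod 2))) h1
    simp only [Matrix.map_mul] at this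
    rw [Matrix.map_one _ (map_zero _) (map_one _)] at this
    exact this
  have hCC' : C' * C = 1 := by
    have := congrArg (fun M : Matrix (Fin r) (Fin r) ℤ => M.map (Int.castRingHom (ZMod 2))) h2
    simp only [Matrix.map_mul] at this
    rw [Matrix.map_one _ (map_zero _) (map_one _)] at this
    exact this
  -- the bijection of classes
  let φ : (Fin r → ZMod 2) ≃ (Fin r → ZMod 2) :=
    { toFun := fun e => Cᵀ *ᵥ e
      invFun := fun e => C'ᵀ *ᵥ e
      left_inv := fun e => by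
        show C'ᵀ *ᵥ (Cᵀ *ᵥ e) = e
        rw [mulVec_mulVec, ← transpose_mul, hCC, transpose_one, one_mulVec]
      right_inv := fun e => by
        show Cᵀ *ᵥ (C'ᵀ *ᵥ e) = e
        rw [mulVec_mulVec, ← transpose_mul, hCC', transpose_one, one_mulVec] }
  have hφ : ∀ e, C'ᵀ *ᵥ (φ e) = e := fun e => φ.left_inv e
  have hdot : ∀ b e : Fin r → ZMod 2, b ⬝ᵥ φ e = (C *ᵥ b) ⬝ᵥ e := by
    intro b e
    show b ⬝ᵥ Cᵀ *ᵥ e = _
    rw [dotProduct_mulVec, vecMul_transpose]
  have htot : ∑ e, P (C'ᵀ *ᵥ e) = ∑ e, P e := by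
    rw [← φ.sum_comp]
    exact Finset.sum_congr rfl fun e _ => by rw [hφ]
  have hodd : ∀ b : Fin r → ZMod 2, ∑ e, (if b ⬝ᵥ e = 1 then P (C'ᵀ *ᵥ e) else 0) =
      ∑ e, (if (C *ᵥ b) ⬝ᵥ e = 1 then P e else 0) := by
    intro b
    rw [← φ.sum_comp]
    exact Finset.sum_congr rfl fun e _ => by rw [hφ, hdot]
  have hne : ∀ b : Fin r → ZMod 2, b ≠ 0 → C *ᵥ b ≠ 0 := by
    intro b hb h0
    apply hb
    have : C' *ᵥ (C *ᵥ b) = b := by rw [mulVec_mulVec, hCC', one_mulVec]
    rw [← this, h0, mulVec_zero]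
  refine ⟨fun e => P (C'ᵀ *ᵥ e), ⟨?_, ?_, ?_, ?_⟩, ?_, ?_⟩
  · rw [htot]
    exact h.cert.pos
  · intro b hb
    rw [htot, hodd]
    exact h.cert.ge _ (hne b hb)
  · intro w hw
    rw [htot, hodd]
    rw [hG] at hw
    have := h.cert.eq _ hw
    rw [rd2_mulVec'] at this
    exact this
  · intro e he
    obtain ⟨β, hβ, hb⟩ := h.cert.good _ he
    refine ⟨Bᵀ *ᵥ β, ?_, ?_⟩
    · rw [rd2_mulVec', hβ]
      have : (Bᵀ).map (Int.cast : ℤ → ZMod 2) = Cᵀ := rfl
      rw [this, mulVec_mulVec, ← transpose_mul, hCC', transpose_one, one_mulVec]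
    · intro w hw
      rw [hG] at hw
      have e1 : w ⬝ᵥ Bᵀ *ᵥ β = (B *ᵥ w) ⬝ᵥ β := by
        rw [dotProduct_mulVec, vecMul_transpose]
      rw [e1]
      exact hb _ hw
  · intro w hw
    rw [hG]
    refine h.two _ fun h0 => hw ?_
    have : B' *ᵥ (B *ᵥ w) = w := by rw [mulVec_mulVec, h2, one_mulVec]
    rw [← this, h0, mulVec_zero]
  · intro b hb
    rw [htot, hodd]
    exact h.le _ (hne b hb)

/-- change of basis by a surjective linear map -/
theorem GCert.comap {G G' : Matrix (Fin r) (Fin r) ℤ} {P : (Fin r → ZMod 2) → ℕ}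
    (h : GCert G P) (f : (Fin r → ℤ) →ₗ[ℤ] (Fin r → ℤ)) (hf : Function.Surjective f)
    (hG : ∀ w : Fin r → ℤ, w ⬝ᵥ G' *ᵥ w = (f w) ⬝ᵥ G *ᵥ (f w)) :
    ∃ P', GCert G' P' := by
  have hinj : Function.Injective f := IsNoetherian.injective_of_surjective_endomorphism f hf
  let φ : (Fin r → ℤ) ≃ₗ[ℤ] (Fin r → ℤ) := LinearEquiv.ofBijective f ⟨hinj, hf⟩
  have h1 : LinearMap.toMatrix' f * LinearMap.toMatrix' (φ.symm : (Fin r → ℤ) →ₗ[ℤ] (Fin r → ℤ)) = 1 := by
    rw [← LinearMap.toMatrix'_comp, ← LinearMap.toMatrix'_id]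
    congr 1
    refine LinearMap.ext fun x => ?_
    exact φ.apply_symm_apply x
  have h2 : LinearMap.toMatrix' (φ.symm : (Fin r → ℤ) →ₗ[ℤ] (Fin r → ℤ)) * LinearMap.toMatrix' f = 1 := by
    rw [← LinearMap.toMatrix'_comp, ← LinearMap.toMatrix'_id]
    congr 1
    refine LinearMap.ext fun x => ?_
    exact φ.symm_apply_apply x
  refine h.change h1 h2 fun w => ?_
  rw [hG, LinearMap.toMatrix'_mulVec]

/-! ### type A -/

/-- differences -/
def df : (n : ℕ) → ℤ → (Fin n → ℤ) → (Fin n → ℤ)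
  | 0, _, _ => fun i => i.elim0
  | n + 1, c, w => Fin.cons (w 0 - c) (df n (w 0) fun i => w i.succ)

/-- the last entry -/
def ls : (n : ℕ) → ℤ → (Fin n → ℤ) → ℤ
  | 0, c, _ => c
  | n + 1, _, w => ls n (w 0) fun i => w i.succ

/-- the first entry -/
def fs : (n : ℕ) → (Fin n → ℤ) → ℤ
  | 0, _ => 0
  | _ + 1, w => w 0

theorem df_add : ∀ (n : ℕ) (c c' : ℤ) (w w' : Fin n → ℤ),
    df n (c + c') (w + w') = df n c w + df n c' w' := by
  intro n
  induction n with
  | zero => intro c c' w w'; funext i; exact i.elim0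
  | succ n ih =>
    intro c c' w w'
    funext i
    refine Fin.cases ?_ (fun i => ?_) i
    · show (w 0 + w' 0) - (c + c') = (w 0 - c) + (w' 0 - c')
      ring
    · exact congrFun (ih (w 0) (w' 0) (fun i => w i.succ) (fun i => w' i.succ)) i

theorem df_smul : ∀ (n : ℕ) (t c : ℤ) (w : Fin n → ℤ), df n (t * c) (t • w) = t • df n c w := by
  intro n
  induction n with
  | zero => intro t c w; funext i; exact i.elim0
  | succ n ih =>
    intro t c w
    funext i
    refine Fin.cases ?_ (fun i => ?_) i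
    · show (t * w 0) - (t * c) = t * (w 0 - c)
      ring
    · exact congrFun (ih t (w 0) (fun i => w i.succ)) i

theorem df_sum : ∀ (n : ℕ) (c : ℤ) (w : Fin n → ℤ), ∑ i, df n c w i = ls n c w - c := by
  intro n
  induction n with
  | zero => intro c w; simp [ls]
  | succ n ih =>
    intro c w
    rw [Fin.sum_univ_succ]
    have h1 : ∑ i : Fin n, df (n + 1) c w i.succ = ls n (w 0) (fun i => w i.succ) - w 0 :=
      ih (w 0) fun i => w i.succ
    rw [h1]
    show (w 0 - c) + _ = _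
    show _ = ls n (w 0) (fun i => w i.succ) - c
    ring

theorem df_surj : ∀ (n : ℕ) (c : ℤ) (x : Fin n → ℤ), ∃ w, df n c w = x := by
  intro n
  induction n with
  | zero => intro c x; exact ⟨x, by funext i; exact i.elim0⟩
  | succ n ih =>
    intro c x
    obtain ⟨w, hw⟩ := ih (x 0 + c) fun i => x i.succ
    refine ⟨Fin.cons (x 0 + c) w, ?_⟩
    funext i
    refine Fin.cases ?_ (fun i => ?_) i
    · show (x 0 + c) - c = x 0
      ring
    · exact congrFun hw i

/-- adding a node in front -/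
theorem front_val {G : Matrix (Fin (n + 1)) (Fin (n + 1)) ℤ} {G' : Matrix (Fin n) (Fin n) ℤ}
    (h0 : G 0 0 = 2) (hs : ∀ i j : Fin n, G i.succ j.succ = G' i j) (c : Fin n → ℤ)
    (hc : ∀ j : Fin n, G 0 j.succ = -c j) (hc' : ∀ j : Fin n, G j.succ 0 = -c j)
    (w : Fin (n + 1) → ℤ) :
    w ⬝ᵥ G *ᵥ w = 2 * w 0 ^ 2 - 2 * w 0 * (∑ j : Fin n, c j * w j.succ) +
      (fun i : Fin n => w i.succ) ⬝ᵥ G' *ᵥ (fun i : Fin n => w i.succ) := by
  have e0 : (G *ᵥ w) 0 = 2 * w 0 - ∑ j : Fin n, c j * w j.succ := by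
    show ∑ j, G 0 j * w j = _
    rw [Fin.sum_univ_succ, h0, sub_eq_add_neg, ← Finset.sum_neg_distrib]
    congr 1
    exact Finset.sum_congr rfl fun j _ => by rw [hc]; ring
  have e1 : ∀ i : Fin n, (G *ᵥ w) i.succ = -c i * w 0 + (G' *ᵥ fun i : Fin n => w i.succ) i := by
    intro i
    show ∑ j, G i.succ j * w j = -c i * w 0 + ∑ j, G' i j * w j.succ
    rw [Fin.sum_univ_succ, hc']
    congr 1
    exact Finset.sum_congr rfl fun j _ => by rw [hs]
  unfold dotProduct
  rw [Fin.sum_univ_succ, e0]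
  simp only [e1]
  have e2 : ∑ i : Fin n, w i.succ * (-c i * w 0 + (G' *ᵥ fun i : Fin n => w i.succ) i) =
      -w 0 * (∑ j : Fin n, c j * w j.succ) +
        ∑ i : Fin n, w i.succ * (G' *ᵥ fun i : Fin n => w i.succ) i := by
    rw [Finset.mul_sum, ← Finset.sum_add_distrib]
    exact Finset.sum_congr rfl fun i _ => by ring
  rw [e2]
  ring

theorem cartanA_rec (n : ℕ) (w : Fin (n + 1) → ℤ) :
    w ⬝ᵥ CartanMatrix.A (n + 1) *ᵥ w = 2 * w 0 ^ 2 - 2 * w 0 * fs n (fun i => w i.succ) +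
      (fun i : Fin n => w i.succ) ⬝ᵥ CartanMatrix.A n *ᵥ (fun i : Fin n => w i.succ) := by
  rw [front_val (G' := CartanMatrix.A n) (c := fun j => if j.val = 0 then 1 else 0)]
  · congr 2
    congr 1
    cases n with
    | zero => simp [fs]
    | succ n =>
      rw [Fin.sum_univ_succ]
      simp [fs]
  · simp [CartanMatrix.A]
  · intro i j
    simp only [CartanMatrix.A, Matrix.of_apply, Fin.succ_inj, Fin.val_succ]
    congr 1
    congr 1
    apply propext
    constructor <;> intro h <;> omega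
  · intro j
    simp only [CartanMatrix.A, Matrix.of_apply, Fin.val_succ, Fin.val_zero]
    rw [if_neg (Ne.symm (Fin.succ_ne_zero j))]
    by_cases h : j.val = 0
    · rw [if_pos (by omega), if_pos h]
    · rw [if_neg (by omega), if_neg h]
      norm_num
  · intro j
    simp only [CartanMatrix.A, Matrix.of_apply, Fin.val_succ, Fin.val_zero]
    rw [if_neg (Fin.succ_ne_zero j)]
    by_cases h : j.val = 0
    · rw [if_pos (by omega), if_pos h]
    · rw [if_neg (by omega), if_neg h]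
      norm_num

theorem cartanA_val : ∀ (n : ℕ) (c : ℤ) (w : Fin n → ℤ),
    w ⬝ᵥ CartanMatrix.A n *ᵥ w + c ^ 2 - 2 * c * fs n w = ∑ i, df n c w i ^ 2 + ls n c w ^ 2 := by
  intro n
  induction n with
  | zero => intro c w; simp [fs, ls]
  | succ n ih =>
    intro c w
    rw [cartanA_rec, Fin.sum_univ_succ]
    have h1 := ih (w 0) fun i => w i.succ
    have h2 : ∑ i : Fin n, df (n + 1) c w i.succ ^ 2 =
        ∑ i : Fin n, df n (w 0) (fun i => w i.succ) i ^ 2 := rfl
    have h3 : df (n + 1) c w 0 = w 0 - c := rfl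
    have h4 : ls (n + 1) c w = ls n (w 0) fun i => w i.succ := rfl
    have h5 : fs (n + 1) w = w 0 := rfl
    rw [h2, h3, h4, h5]
    linear_combination h1

/-- the root lattices of type A -/
theorem gcert_cartanA (n : ℕ) : ∃ P, GCert (CartanMatrix.A n) P := by
  let f : (Fin n → ℤ) →ₗ[ℤ] (Fin n → ℤ) :=
    { toFun := fun w => df n 0 w
      map_add' := fun w w' => by
        have := df_add n 0 0 w w'
        rw [add_zero] at this
        exact this
      map_smul' := fun t w => by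
        have := df_smul n t 0 w
        rw [mul_zero] at this
        exact this }
  refine (gcert_A n).comap f (fun x => df_surj n 0 x) fun w => ?_
  rw [gA_val]
  show _ = ∑ i, df n 0 w i ^ 2 + (∑ i, df n 0 w i) ^ 2
  rw [df_sum, sub_zero, ← cartanA_val n 0 w]
  ring

end Run7.h92
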