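import Pool.Agent.Run7.h92.RootG

/-!
# Certificates for even lattices given by lists
-/

namespace Run7.h92

open Matrix

variable {r : ℕ}

/-- values of even forms are even -/
theorem even_form {G : Matrix (Fin r) (Fin r) ℤ} (hs : ∀ a b, G a b = G b a)
    (hd : ∀ i, (2 : ℤ) ∣ G i i) (w : Fin r → ℤ) : (2 : ℤ) ∣ w ⬝ᵥ G *ᵥ w := by
  refine (ZMod.intCast_zmod_eq_zero_iff_dvd (w ⬝ᵥ G *ᵥ w) 2).1 ?_
  have e1 : w ⬝ᵥ G *ᵥ w = ∑ p : Fin r × Fin r, w p.1 * w p.2 * G p.1 p.2 := by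
    rw [Fintype.sum_prod_type]
    unfold mulVec dotProduct
    refine Finset.sum_congr rfl fun a _ => ?_
    rw [Finset.mul_sum]
    exact Finset.sum_congr rfl fun b _ => by ring
  rw [e1, Int.cast_sum]
  refine Finset.sum_involution (fun p _ => p.swap) ?_ ?_ ?_ ?_
  · intro p _
    have h1 : w p.swap.1 * w p.swap.2 * G p.swap.1 p.swap.2 = w p.1 * w p.2 * G p.1 p.2 := by
      rw [Prod.fst_swap, Prod.snd_swap, hs p.2 p.1]
      ring
    rw [h1]
    generalize ((w p.1 * w p.2 * G p.1 p.2 : ℤ) : ZMod 2) = x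
    revert x
    decide
  · intro p _ hp hsw
    apply hp
    have h1 : p.1 = p.2 := by
      have := congrArg Prod.snd hsw
      simpa using this
    obtain ⟨c, hc⟩ := hd p.2
    have h2 : ((G p.1 p.2 : ℤ) : ZMod 2) = 0 := by
      rw [h1, hc]
      push_cast
      have : (2 : ZMod 2) = 0 := by decide
      rw [this, zero_mul]
    push_cast
    rw [h2, mul_zero]
  · intro p _
    exact Finset.mem_univ _
  · intro p _
    exact Prod.swap_swap p

/-- nonnegative nondegenerate forms are positive -/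
theorem pos_form {G H : Matrix (Fin r) (Fin r) ℤ} {d : ℤ} (hd : 0 < d) (hGH : G * H = d • 1)
    (hs : ∀ a b, G a b = G b a) (hpos : ∀ w : Fin r → ℤ, 0 ≤ w ⬝ᵥ G *ᵥ w)
    {w : Fin r → ℤ} (hw : w ≠ 0) : 0 < w ⬝ᵥ G *ᵥ w := by
  refine lt_of_le_of_ne (hpos w) fun h0 => hw ?_
  have hT : Gᵀ = G := by
    ext i j
    exact hs j i
  -- the form vanishes against everything
  have h1 : ∀ u : Fin r → ℤ, u ⬝ᵥ G *ᵥ w = 0 := by
    intro u
    have hsw : w ⬝ᵥ G *ᵥ u = u ⬝ᵥ G *ᵥ w := by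
      calc w ⬝ᵥ G *ᵥ u = (w ᵥ* G) ⬝ᵥ u := dotProduct_mulVec _ _ _
        _ = (Gᵀ *ᵥ w) ⬝ᵥ u := by rw [mulVec_transpose]
        _ = (G *ᵥ w) ⬝ᵥ u := by rw [hT]
        _ = u ⬝ᵥ G *ᵥ w := dotProduct_comm _ _
    have h2 : ∀ t : ℤ, 0 ≤ u ⬝ᵥ G *ᵥ u + 2 * t * (u ⬝ᵥ G *ᵥ w) := by
      intro t
      have h3 := hpos (u + t • w)
      rw [mulVec_add, mulVec_smul, add_dotProduct, dotProduct_add, dotProduct_add,
        smul_dotProduct, smul_dotProduct, dotProduct_smul, dotProduct_smul, hsw, ← h0] at h3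
      simp only [smul_eq_mul, mul_zero, add_zero] at h3
      linarith
    by_contra hne
    have h4 := h2 (-(u ⬝ᵥ G *ᵥ u + 1) * (u ⬝ᵥ G *ᵥ w))
    have h5 := hpos u
    have h6 : 1 ≤ (u ⬝ᵥ G *ᵥ w) ^ 2 := by
      have : 0 < (u ⬝ᵥ G *ᵥ w) ^ 2 := by positivity
      omega
    nlinarith
  have h2 : G *ᵥ w = 0 := by
    funext i
    have := h1 (Pi.single i 1)
    rw [single_dotProduct, one_mul] at this
    exact this
  have h3 : Hᵀ * G = d • 1 := by
    have := congrArg Matrix.transpose hGH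
    rw [transpose_mul, hT, transpose_smul, transpose_one] at this
    exact this
  have h4 : d • w = 0 := by
    calc d • w = (d • (1 : Matrix (Fin r) (Fin r) ℤ)) *ᵥ w := by rw [smul_mulVec, one_mulVec]
      _ = Hᵀ *ᵥ (G *ᵥ w) := by rw [← h3, mulVec_mulVec]
      _ = 0 := by rw [h2, mulVec_zero]
  funext i
  have h5 := congrFun h4 i
  rw [Pi.smul_apply, smul_eq_mul, Pi.zero_apply] at h5
  exact (mul_eq_zero.1 h5).resolve_left hd.ne'

/-- the second check -/
def chk2 (r : ℕ) (G : List (List ℤ)) (D : List (ℕ × List ℤ)) : Bool :=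
  (List.range r).all (fun i => decide ((G.getD i []).getD i 0 % 2 = 0)) &&
  (allB r).all (fun b => b.all (fun t => !t) ||
    decide (9 * (D.map fun x => if lb b (x.2.map od) then x.1 else 0).sum ≤
      7 * (D.map Prod.fst).sum))

theorem gcert_of_chk {G H : List (List ℤ)} {d : ℤ} {D : List (ℕ × List ℤ)}
    (h : chk r G H 2 d D = true) (h2 : chk2 r G D = true) : ∃ P, GCert (toM r G) P := by
  obtain ⟨P, hF, hs, ht, hd, hGH, hpos, hsym⟩ := chk_sound h
  unfold chk2 at h2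
  simp only [Bool.and_eq_true, decide_eq_true_eq, List.all_eq_true, List.mem_range,
    Bool.or_eq_true, Bool.not_eq_true'] at h2
  obtain ⟨hev, hle⟩ := h2
  refine ⟨P, hF, fun w hw => ?_, fun b hb => ?_⟩
  · have e1 := even_form hsym (fun i => Int.dvd_of_emod_eq_zero (hev i i.isLt)) w
    exact Int.le_of_dvd (pos_form hd hGH hsym hpos hw) e1
  · rw [hs, ht]
    rcases hle _ (bits_mem r b) with e1 | e1
    · exfalso
      apply hb
      funext i
      have hi : decide (b i = 1) ∈ bits r b := by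
        unfold bits
        rw [List.mem_ofFn]
        exact ⟨i, rfl⟩
      have e2 := e1 _ hi
      rw [decide_eq_false_iff_not] at e2
      rcases zmod2_cases (b i) with h | h
      · exact h
      · exact absurd h e2
    · exact e1

end Run7.h92
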