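import Pool.Agent.Run7.h92.GramL

/-!
# Certificates for root lattices without component E8
-/

namespace Run7.h92

open Matrix

variable {k r s : ℕ}

/-- certificates for Gram matrices of even lattices of minimum two -/
structure GCert (G : Matrix (Fin r) (Fin r) ℤ) (P : (Fin r → ZMod 2) → ℕ) : Prop where
  cert : FCert G 2 P
  two : ∀ w : Fin r → ℤ, w ≠ 0 → 2 ≤ w ⬝ᵥ G *ᵥ w
  le : ∀ b : Fin r → ZMod 2, b ≠ 0 → 9 * (∑ e, if b ⬝ᵥ e = 1 then P e else 0) ≤ 7 * ∑ e, P e

/-- direct sum of Gram matrices -/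
def dsum (G : Matrix (Fin r) (Fin r) ℤ) (G' : Matrix (Fin s) (Fin s) ℤ) :
    Matrix (Fin (r + s)) (Fin (r + s)) ℤ :=
  Matrix.reindex finSumFinEquiv finSumFinEquiv (Matrix.fromBlocks G 0 0 G')

/-- first part -/
def lf {α : Type*} (s : ℕ) (w : Fin (r + s) → α) : Fin r → α := fun i => w (Fin.castAdd s i)

/-- second part -/
def rt {α : Type*} (r : ℕ) (w : Fin (r + s) → α) : Fin s → α := fun i => w (Fin.natAdd r i)

theorem dot_lr {R : Type*} [CommRing R] (v w : Fin (r + s) → R) :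
    v ⬝ᵥ w = lf s v ⬝ᵥ lf s w + rt r v ⬝ᵥ rt r w := by
  unfold dotProduct lf rt
  exact Fin.sum_univ_add _

theorem dsum_mulVec (G : Matrix (Fin r) (Fin r) ℤ) (G' : Matrix (Fin s) (Fin s) ℤ)
    (w : Fin (r + s) → ℤ) : lf s (dsum G G' *ᵥ w) = G *ᵥ lf s w ∧
      rt r (dsum G G' *ᵥ w) = G' *ᵥ rt r w := by
  constructor
  · funext i
    unfold lf mulVec dotProduct
    rw [Fin.sum_univ_add]
    simp [dsum, Matrix.fromBlocks]
  · funext i
    unfold rt mulVec dotProduct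
    rw [Fin.sum_univ_add]
    simp [dsum, Matrix.fromBlocks]

theorem dsum_val (G : Matrix (Fin r) (Fin r) ℤ) (G' : Matrix (Fin s) (Fin s) ℤ)
    (w : Fin (r + s) → ℤ) : w ⬝ᵥ dsum G G' *ᵥ w =
      lf s w ⬝ᵥ G *ᵥ lf s w + rt r w ⬝ᵥ G' *ᵥ rt r w := by
  rw [dot_lr, (dsum_mulVec G G' w).1, (dsum_mulVec G G' w).2]

theorem sum_lr {R : Type*} [AddCommMonoid R] (F : (Fin r → ZMod 2) → (Fin s → ZMod 2) → R) :
    ∑ e : Fin (r + s) → ZMod 2, F (lf s e) (rt r e) = ∑ a, ∑ b, F a b := by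
  rw [← Fintype.sum_prod_type' F]
  rw [← (Fin.appendEquiv r s).sum_comp]
  refine Finset.sum_congr rfl fun x _ => ?_
  have h1 : lf s (Fin.appendEquiv r s x) = x.1 := by
    funext i
    simp [lf, Fin.appendEquiv]
  have h2 : rt r (Fin.appendEquiv r s x) = x.2 := by
    funext i
    simp [rt, Fin.appendEquiv]
  rw [h1, h2]

theorem lr_ext {α : Type*} {v w : Fin (r + s) → α} (h1 : lf s v = lf s w) (h2 : rt r v = rt r w) :
    v = w := by
  funext i
  refine Fin.addCases (fun i => ?_) (fun i => ?_) i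
  · exact congrFun h1 i
  · exact congrFun h2 i

theorem sum_xor {R : (Fin r → ZMod 2) → ℕ} {R' : (Fin s → ZMod 2) → ℕ}
    (b : Fin r → ZMod 2) (b' : Fin s → ZMod 2) :
    ∑ a, ∑ a', (if b ⬝ᵥ a + b' ⬝ᵥ a' = 1 then R a * R' a' else 0) =
      (∑ a, if b ⬝ᵥ a = 1 then R a else 0) * (∑ a', if b' ⬝ᵥ a' = 1 then 0 else R' a') +
      (∑ a, if b ⬝ᵥ a = 1 then 0 else R a) * (∑ a', if b' ⬝ᵥ a' = 1 then R' a' else 0) := by
  rw [Finset.sum_mul_sum, Finset.sum_mul_sum, ← Finset.sum_add_distrib]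
  refine Finset.sum_congr rfl fun a _ => ?_
  rw [← Finset.sum_add_distrib]
  refine Finset.sum_congr rfl fun a' _ => ?_
  rcases zmod2_cases (b ⬝ᵥ a) with h | h <;> rcases zmod2_cases (b' ⬝ᵥ a') with h' | h' <;>
    rw [h, h'] <;> simp

theorem split_tot (b : Fin r → ZMod 2) (R : (Fin r → ZMod 2) → ℕ) :
    ∑ a, R a = (∑ a, if b ⬝ᵥ a = 1 then R a else 0) + ∑ a, if b ⬝ᵥ a = 1 then 0 else R a := by
  rw [← Finset.sum_add_distrib]
  refine Finset.sum_congr rfl fun a _ => ?_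
  split_ifs <;> simp

/-- direct sums of certificates -/
theorem GCert.sum {G : Matrix (Fin r) (Fin r) ℤ} {G' : Matrix (Fin s) (Fin s) ℤ}
    {P : (Fin r → ZMod 2) → ℕ} {P' : (Fin s → ZMod 2) → ℕ} (h : GCert G P) (h' : GCert G' P') :
    GCert (dsum G G') (fun e => P (lf s e) * P' (rt r e)) := by
  have htot : ∑ e : Fin (r + s) → ZMod 2, P (lf s e) * P' (rt r e) = (∑ a, P a) * ∑ a', P' a' := by
    rw [sum_lr fun a b => P a * P' b, Finset.sum_mul_sum]
  have hodd : ∀ b : Fin (r + s) → ZMod 2, ∑ e : Fin (r + s) → ZMod 2,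
      (if b ⬝ᵥ e = 1 then P (lf s e) * P' (rt r e) else 0) =
      (∑ a, if lf s b ⬝ᵥ a = 1 then P a else 0) * (∑ a', if rt r b ⬝ᵥ a' = 1 then 0 else P' a') +
      (∑ a, if lf s b ⬝ᵥ a = 1 then 0 else P a) *
        (∑ a', if rt r b ⬝ᵥ a' = 1 then P' a' else 0) := by
    intro b
    rw [← sum_xor, ← sum_lr fun a a' => if lf s b ⬝ᵥ a + rt r b ⬝ᵥ a' = 1 then P a * P' a' else 0]
    refine Finset.sum_congr rfl fun e _ => ?_
    rw [dot_lr b e]
  -- the values for vectors with one part zero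
  have hz : ∀ (t : ℕ) (R : (Fin t → ZMod 2) → ℕ),
      (∑ a, if (0 : Fin t → ZMod 2) ⬝ᵥ a = 1 then R a else 0) = 0 := by
    intro t R
    refine Finset.sum_eq_zero fun a _ => ?_
    rw [zero_dotProduct, if_neg (by decide)]
  have hz' : ∀ (t : ℕ) (R : (Fin t → ZMod 2) → ℕ),
      (∑ a, if (0 : Fin t → ZMod 2) ⬝ᵥ a = 1 then 0 else R a) = ∑ a, R a := by
    intro t R
    refine Finset.sum_congr rfl fun a _ => ?_
    rw [zero_dotProduct, if_neg (by decide)]
  have hb : ∀ b : Fin (r + s) → ZMod 2, b ≠ 0 →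
      ((∑ a, P a) * ∑ a', P' a' ≤ 3 * ((∑ a, if lf s b ⬝ᵥ a = 1 then P a else 0) *
        (∑ a', if rt r b ⬝ᵥ a' = 1 then 0 else P' a') +
      (∑ a, if lf s b ⬝ᵥ a = 1 then 0 else P a) *
        (∑ a', if rt r b ⬝ᵥ a' = 1 then P' a' else 0))) ∧
      9 * ((∑ a, if lf s b ⬝ᵥ a = 1 then P a else 0) *
        (∑ a', if rt r b ⬝ᵥ a' = 1 then 0 else P' a') +
      (∑ a, if lf s b ⬝ᵥ a = 1 then 0 else P a) *
        (∑ a', if rt r b ⬝ᵥ a' = 1 then P' a' else 0)) ≤ 7 * ((∑ a, P a) * ∑ a', P' a') := by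
    intro b hb0
    by_cases h1 : lf s b = 0
    · have h2 : rt r b ≠ 0 := by
        intro h2
        apply hb0
        refine lr_ext ?_ ?_
        · rw [h1]; rfl
        · rw [h2]; rfl
      rw [h1, hz, hz', zero_mul, zero_add]
      have e1 := h'.cert.ge _ h2
      have e2 := h'.le _ h2
      constructor <;> nlinarith [Nat.zero_le (∑ a, P a)]
    · by_cases h2 : rt r b = 0
      · rw [h2, hz, hz', mul_zero, add_zero]
        have e1 := h.cert.ge _ h1
        have e2 := h.le _ h1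
        constructor <;> nlinarith [Nat.zero_le (∑ a, P' a)]
      · have e1 := h.cert.ge _ h1
        have e2 := h.le _ h1
        have e3 := h'.cert.ge _ h2
        have e4 := h'.le _ h2
        have s1 := split_tot (lf s b) P
        have s2 := split_tot (rt r b) P'
        rw [s1] at e1 e2 ⊢
        rw [s2] at e3 e4 ⊢
        generalize (∑ a, if lf s b ⬝ᵥ a = 1 then P a else 0) = x at *
        generalize (∑ a, if lf s b ⬝ᵥ a = 1 then 0 else P a) = y at *
        generalize (∑ a', if rt r b ⬝ᵥ a' = 1 then P' a' else 0) = z at *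
        generalize (∑ a', if rt r b ⬝ᵥ a' = 1 then 0 else P' a') = w at *
        zify at e1 e2 e3 e4 ⊢
        have f1 : (0 : ℤ) ≤ 2 * x - y := by linarith
        have f2 : (0 : ℤ) ≤ 7 * y - 2 * x := by linarith
        have f3 : (0 : ℤ) ≤ 2 * z - w := by linarith
        have f4 : (0 : ℤ) ≤ 7 * w - 2 * z := by linarith
        constructor <;> nlinarith [mul_nonneg f1 f3, mul_nonneg f1 f4, mul_nonneg f2 f3,
          mul_nonneg f2 f4]
  -- vectors of value two
  have hsp : ∀ w : Fin (r + s) → ℤ, w ⬝ᵥ dsum G G' *ᵥ w = 2 →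
      (lf s w = 0 ∧ rt r w ⬝ᵥ G' *ᵥ rt r w = 2) ∨ (rt r w = 0 ∧ lf s w ⬝ᵥ G *ᵥ lf s w = 2) := by
    intro w hw
    rw [dsum_val] at hw
    by_cases h1 : lf s w = 0
    · left
      refine ⟨h1, ?_⟩
      rw [h1] at hw
      simpa using hw
    · right
      have h2 := h.two _ h1
      by_cases h3 : rt r w = 0
      · refine ⟨h3, ?_⟩
        rw [h3] at hw
        simpa using hw
      · have h4 := h'.two _ h3
        omega
  have hrl : ∀ w : Fin (r + s) → ℤ, lf s (rd2 w) = rd2 (lf s w) ∧ rt r (rd2 w) = rd2 (rt r w) :=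
    fun w => ⟨rfl, rfl⟩
  have hrz : ∀ t : ℕ, rd2 (0 : Fin t → ℤ) = 0 := by
    intro t
    funext i
    show ((0 : ℤ) : ZMod 2) = 0
    norm_num
  refine ⟨⟨?_, ?_, ?_, ?_⟩, ?_, ?_⟩
  · rw [htot]
    exact Nat.mul_pos h.cert.pos h'.cert.pos
  · intro b hb0
    rw [htot, hodd]
    exact (hb b hb0).1
  · intro w hw
    rw [htot, hodd]
    rcases hsp w hw with ⟨h1, h2⟩ | ⟨h1, h2⟩
    · rw [(hrl w).1, (hrl w).2, h1, hrz, hz, hz', zero_mul, zero_add]
      have e1 := h'.cert.eq _ h2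
      rw [← e1]
      ring
    · rw [(hrl w).1, (hrl w).2, h1, hrz, hz, hz', mul_zero, add_zero]
      have e1 := h.cert.eq _ h2
      rw [← e1]
      ring
  · intro e he
    have he1 : P (lf s e) ≠ 0 := fun hc => he (by simp only [hc, zero_mul])
    have he2 : P' (rt r e) ≠ 0 := fun hc => he (by simp only [hc, mul_zero])
    obtain ⟨β, hβ, hβ'⟩ := h.cert.good _ he1
    obtain ⟨γ, hγ, hγ'⟩ := h'.cert.good _ he2
    have l1 : lf s (Fin.append β γ) = β := by
      funext i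
      simp [lf]
    have l2 : rt r (Fin.append β γ) = γ := by
      funext i
      simp [rt]
    refine ⟨Fin.append β γ, ?_, ?_⟩
    · refine lr_ext ?_ ?_
      · rw [(hrl _).1, l1, hβ]
      · rw [(hrl _).2, l2, hγ]
    · intro w hw
      rw [dot_lr, l1, l2]
      rcases hsp w hw with ⟨h1, h2⟩ | ⟨h1, h2⟩
      · rw [h1, zero_dotProduct, zero_add]
        exact hγ' _ h2
      · rw [h1, zero_dotProduct, add_zero]
        exact hβ' _ h2
  · intro w hw
    rw [dsum_val]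
    by_cases h1 : lf s w = 0
    · have h2 : rt r w ≠ 0 := by
        intro h2
        apply hw
        refine lr_ext ?_ ?_
        · rw [h1]; rfl
        · rw [h2]; rfl
      have h3 := h'.two _ h2
      rw [h1]
      simpa using h3
    · have h3 := h.two _ h1
      by_cases h4 : rt r w = 0
      · rw [h4]
        simpa using h3
      · have h5 := h'.two _ h4
        omega
  · intro b hb0
    rw [htot, hodd]
    exact (hb b hb0).2

end Run7.h92
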