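import Mathlib

/-!
# Generators of the integral symplectic group
-/

namespace Run7.h92

open Matrix

/-- square integer matrices of size `2 g` -/
abbrev Z2 (g : ℕ) : Type := Matrix (Fin g ⊕ Fin g) (Fin g ⊕ Fin g) ℤ

variable {g : ℕ}

/-- translations -/
def TB (B : Matrix (Fin g) (Fin g) ℤ) : Z2 g := fromBlocks 1 B 0 1

/-- rotations; `V` is the inverse of `U` -/
def RU (U V : Matrix (Fin g) (Fin g) ℤ) : Z2 g := fromBlocks U 0 0 Vᵀ

/-- the indicator vector -/
def dl (i : Fin g) : Fin g → ℤ := Pi.single i 1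

/-- partial inversions -/
def JI (i : Fin g) : Z2 g :=
  fromBlocks (diagonal (1 - dl i)) (diagonal (-(dl i))) (diagonal (dl i)) (diagonal (1 - dl i))

/-- the generators -/
def gens (g : ℕ) : Set (Z2 g) :=
  {M | (∃ B : Matrix (Fin g) (Fin g) ℤ, Bᵀ = B ∧ M = TB B) ∨
    (∃ U V : Matrix (Fin g) (Fin g) ℤ, U * V = 1 ∧ V * U = 1 ∧ M = RU U V) ∨ ∃ i, M = JI i}

/-- the monoid generated -/
def GG (g : ℕ) : Submonoid (Z2 g) := Submonoid.closure (gens g)

theorem TB_mem {B : Matrix (Fin g) (Fin g) ℤ} (h : Bᵀ = B) : TB B ∈ GG g :=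
  Submonoid.subset_closure (Or.inl ⟨B, h, rfl⟩)

theorem RU_mem {U V : Matrix (Fin g) (Fin g) ℤ} (h1 : U * V = 1) (h2 : V * U = 1) : RU U V ∈ GG g :=
  Submonoid.subset_closure (Or.inr (Or.inl ⟨U, V, h1, h2, rfl⟩))

theorem JI_mem (i : Fin g) : JI i ∈ GG g :=
  Submonoid.subset_closure (Or.inr (Or.inr ⟨i, rfl⟩))

theorem exists_gl {n : ℕ} (s : ℕ) : ∀ x : Fin (n + 1) → ℤ, (∑ i, (x i).natAbs) ≤ s → x ≠ 0 →
    ∃ U V : Matrix (Fin (n + 1)) (Fin (n + 1)) ℤ, U * V = 1 ∧ V * U = 1 ∧
      ∃ d : ℤ, d ≠ 0 ∧ U *ᵥ x = d • (Pi.single 0 1 : Fin (n + 1) → ℤ) := by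
  induction s with
  | zero =>
    intro x hx hx0
    exfalso
    apply hx0
    funext i
    have h1 : ∑ i, (x i).natAbs = 0 := Nat.le_zero.1 hx
    have h2 := (Finset.sum_eq_zero_iff.1 h1) i (Finset.mem_univ i)
    exact Int.natAbs_eq_zero.1 h2
  | succ s ih =>
    intro x hx hx0
    by_cases hone : ∃ i j, i ≠ j ∧ x i ≠ 0 ∧ x j ≠ 0
    · have hwlog : ∃ i j, i ≠ j ∧ x i ≠ 0 ∧ x j ≠ 0 ∧ (x j).natAbs ≤ (x i).natAbs := by
        obtain ⟨i, j, hij, hi, hj⟩ := hone
        rcases le_total (x j).natAbs (x i).natAbs with h | h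
        · exact ⟨i, j, hij, hi, hj, h⟩
        · exact ⟨j, i, hij.symm, hj, hi, h⟩
      obtain ⟨i, j, hij, hi, hj, hle⟩ := hwlog
      obtain ⟨c, hc⟩ : ∃ c : ℤ, (x i + c * x j).natAbs < (x i).natAbs := by
        rcases lt_or_gt_of_ne hi with h1 | h1
        · rcases lt_or_gt_of_ne hj with h2 | h2
          · exact ⟨-1, by omega⟩
          · exact ⟨1, by omega⟩
        · rcases lt_or_gt_of_ne hj with h2 | h2
          · exact ⟨1, by omega⟩
          · exact ⟨-1, by omega⟩
      have hT : (transvection i j c) *ᵥ x = Function.update x i (x i + c * x j) := by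
        funext l
        unfold transvection
        rw [add_mulVec, one_mulVec, Pi.add_apply]
        by_cases hl : l = i
        · subst hl
          simp [single_mulVec]
        · simp [single_mulVec, hl]
      set y : Fin (n + 1) → ℤ := Function.update x i (x i + c * x j) with hy
      have hsum : (∑ l, (y l).natAbs) ≤ s := by
        have e1 : ∑ l, (y l).natAbs < ∑ l, (x l).natAbs := by
          refine Finset.sum_lt_sum (fun l _ => ?_) ⟨i, Finset.mem_univ i, ?_⟩
          · by_cases hl : l = i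
            · subst hl
              rw [hy, Function.update_self]
              exact hc.le
            · rw [hy, Function.update_of_ne hl]
          · rw [hy, Function.update_self]
            exact hc
        omega
      have hy0 : y ≠ 0 := by
        intro h
        have := congrFun h j
        rw [hy, Function.update_of_ne hij.symm] at this
        exact hj this
      obtain ⟨U, V, h1, h2, d, hd, h3⟩ := ih y hsum hy0
      have ht1 : transvection i j c * transvection i j (-c) = 1 := by
        rw [transvection_mul_transvection_same _ _ hij, add_neg_cancel, transvection_zero]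
      have ht2 : transvection i j (-c) * transvection i j c = 1 := by
        rw [transvection_mul_transvection_same _ _ hij, neg_add_cancel, transvection_zero]
      refine ⟨U * transvection i j c, transvection i j (-c) * V, ?_, ?_, d, hd, ?_⟩
      · rw [Matrix.mul_assoc, ← Matrix.mul_assoc (transvection i j c), ht1, Matrix.one_mul, h1]
      · rw [Matrix.mul_assoc, ← Matrix.mul_assoc V, h2, Matrix.one_mul, ht2]
      · rw [← mulVec_mulVec, hT, h3]
    · push Not at hone
      have hex : ∃ j, x j ≠ 0 := by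
        by_contra hcon
        push Not at hcon
        exact hx0 (funext hcon)
      obtain ⟨j, hj⟩ := hex
      have hs : (Equiv.swap 0 j).permMatrix ℤ * (Equiv.swap 0 j).permMatrix ℤ = 1 := by
        rw [← permMatrix_mul, Equiv.swap_mul_self, permMatrix_one]
      refine ⟨_, _, hs, hs, x j, hj, ?_⟩
      rw [permMatrix_mulVec]
      funext l
      simp only [Function.comp_apply, Pi.smul_apply, smul_eq_mul]
      by_cases hl : l = 0
      · subst hl
        simp
      · rw [Pi.single_eq_of_ne hl, mul_zero]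
        by_contra h
        have h2 := hone (Equiv.swap 0 j l) j
        by_cases h3 : Equiv.swap 0 j l = j
        · have : l = 0 := by
            have := congrArg (Equiv.swap 0 j) h3
            simpa using this
          exact hl this
        · exact hj (h2 h3 h)

/-- the potential -/
def pot (w : Fin g ⊕ Fin g → ℤ) : ℕ :=
  2 * ∑ i, (w (Sum.inl i)).natAbs + 3 * ∑ i, (w (Sum.inr i)).natAbs

theorem single_mulVec_TB (i : Fin g) (c : ℤ) (w : Fin g ⊕ Fin g → ℤ) :
    TB (diagonal (c • dl i)) *ᵥ w =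
      Sum.elim (Function.update (w ∘ Sum.inl) i (w (Sum.inl i) + c * w (Sum.inr i)))
        (w ∘ Sum.inr) := by
  unfold TB
  rw [fromBlocks_mulVec]
  congr 1
  · funext l
    simp only [Pi.add_apply, one_mulVec, mulVec_diagonal, Function.comp_apply, dl, Pi.smul_apply,
      smul_eq_mul]
    by_cases hl : l = i
    · subst hl; simp
    · simp [hl]
  · simp

theorem mulVec_JI (i : Fin g) (w : Fin g ⊕ Fin g → ℤ) :
    JI i *ᵥ w = Sum.elim (Function.update (w ∘ Sum.inl) i (-w (Sum.inr i)))
        (Function.update (w ∘ Sum.inr) i (w (Sum.inl i))) := by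
  unfold JI
  rw [fromBlocks_mulVec]
  congr 1
  · funext l
    simp only [Pi.add_apply, mulVec_diagonal, Function.comp_apply, dl, Pi.sub_apply, Pi.one_apply,
      Pi.neg_apply]
    by_cases hl : l = i
    · subst hl; simp
    · simp [hl]
  · funext l
    simp only [Pi.add_apply, mulVec_diagonal, Function.comp_apply, dl, Pi.sub_apply, Pi.one_apply]
    by_cases hl : l = i
    · subst hl; simp
    · simp [hl]

theorem sum_update (x : Fin g → ℤ) (i : Fin g) (a : ℤ) :
    ∑ l, (Function.update x i a l).natAbs + (x i).natAbs = ∑ l, (x l).natAbs + a.natAbs := by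
  have h1 := Finset.sum_update_of_mem (Finset.mem_univ i) (fun l => (x l).natAbs) a.natAbs
  have h2 : (fun l => (Function.update x i a l).natAbs) =
      Function.update (fun l => (x l).natAbs) i a.natAbs := by
    funext l
    by_cases hl : l = i
    · subst hl; simp
    · simp [hl]
  have h3 := Finset.add_sum_erase Finset.univ (fun l => (x l).natAbs) (Finset.mem_univ i)
  rw [← Finset.sdiff_singleton_eq_erase] at h3
  rw [h2, h1]
  omega

/-- an element of the monoid moves a nonzero vector to a multiple of the first basis vector -/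
theorem vec_red {n : ℕ} (s : ℕ) : ∀ w : Fin (n + 1) ⊕ Fin (n + 1) → ℤ, pot w ≤ s → w ≠ 0 →
    ∃ M ∈ GG (n + 1), ∃ d : ℤ, d ≠ 0 ∧
      M *ᵥ w = d • (Pi.single (Sum.inl 0) 1 : Fin (n + 1) ⊕ Fin (n + 1) → ℤ) := by
  induction s using Nat.strong_induction_on with
  | _ s ih =>
    intro w hw hw0
    by_cases hy : ∃ i, w (Sum.inr i) ≠ 0
    · obtain ⟨i, hi⟩ := hy
      -- a generator decreasing the potential
      have key : ∃ M ∈ GG (n + 1), pot (M *ᵥ w) < pot w ∧ M *ᵥ w ≠ 0 := by
        by_cases hle : (w (Sum.inr i)).natAbs ≤ (w (Sum.inl i)).natAbs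
        · obtain ⟨c, hc⟩ : ∃ c : ℤ, (w (Sum.inl i) + c * w (Sum.inr i)).natAbs <
              (w (Sum.inl i)).natAbs := by
            rcases lt_or_gt_of_ne hi with h1 | h1
            · rcases le_or_gt (w (Sum.inl i)) 0 with h2 | h2
              · exact ⟨-1, by omega⟩
              · exact ⟨1, by omega⟩
            · rcases le_or_gt (w (Sum.inl i)) 0 with h2 | h2
              · exact ⟨1, by omega⟩
              · exact ⟨-1, by omega⟩
          refine ⟨TB (diagonal (c • dl i)), TB_mem (diagonal_transpose _), ?_, ?_⟩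
          · rw [single_mulVec_TB]
            unfold pot
            simp only [Sum.elim_inl, Sum.elim_inr]
            have := sum_update (w ∘ Sum.inl) i (w (Sum.inl i) + c * w (Sum.inr i))
            simp only [Function.comp_apply] at this ⊢
            omega
          · rw [single_mulVec_TB]
            intro h
            have := congrFun h (Sum.inr i)
            exact hi this
        · refine ⟨JI i, JI_mem i, ?_, ?_⟩
          · rw [mulVec_JI]
            unfold pot
            simp only [Sum.elim_inl, Sum.elim_inr]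
            have h1 := sum_update (w ∘ Sum.inl) i (-w (Sum.inr i))
            have h2 := sum_update (w ∘ Sum.inr) i (w (Sum.inl i))
            rw [Int.natAbs_neg] at h1
            simp only [Function.comp_apply] at h1 h2 ⊢
            omega
          · rw [mulVec_JI]
            intro h
            have := congrFun h (Sum.inl i)
            simp at this
            exact hi this
      obtain ⟨M, hM, h1, h2⟩ := key
      obtain ⟨M', hM', d, hd, h3⟩ := ih (pot (M *ᵥ w)) (h1.trans_le hw) _ le_rfl h2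
      exact ⟨M' * M, mul_mem hM' hM, d, hd, by rw [← mulVec_mulVec, h3]⟩
    · push Not at hy
      have hx0 : w ∘ Sum.inl ≠ 0 := by
        intro h
        apply hw0
        funext α
        rcases α with i | i
        · exact congrFun h i
        · exact hy i
      obtain ⟨U, V, h1, h2, d, hd, h3⟩ := exists_gl _ (w ∘ Sum.inl) le_rfl hx0
      refine ⟨RU U V, RU_mem h1 h2, d, hd, ?_⟩
      unfold RU
      have hy' : w ∘ Sum.inr = 0 := funext hy
      rw [fromBlocks_mulVec, h3, hy']
      funext α
      rcases α with i | i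
      · by_cases hi : i = 0
        · subst hi; simp
        · simp [hi]
      · simp

theorem gens_sp {M : Z2 g} (hM : M ∈ gens g) : M ∈ symplecticGroup (Fin g) ℤ := by
  rcases hM with ⟨B, hB, rfl⟩ | ⟨U, V, h1, h2, rfl⟩ | ⟨i, rfl⟩
  · unfold TB
    rw [SymplecticGroup.fromBlocks_mem_iff]
    simp [hB]
  · unfold RU
    rw [SymplecticGroup.fromBlocks_mem_iff]
    refine ⟨by simp, by simp, ?_⟩
    rw [← transpose_mul, h2]
    simp
  · unfold JI
    rw [SymplecticGroup.fromBlocks_mem_iff]
    simp only [diagonal_transpose, diagonal_mul_diagonal]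
    refine ⟨by congr 1; funext l; ring, by congr 1; funext l; ring, ?_⟩
    rw [diagonal_sub, ← diagonal_one]
    congr 1
    funext l
    simp only [dl, Pi.sub_apply, Pi.one_apply, Pi.neg_apply]
    by_cases hl : l = i
    · subst hl; simp
    · simp [hl]

theorem GG_le : GG g ≤ symplecticGroup (Fin g) ℤ :=
  Submonoid.closure_le.2 fun _ h => gens_sp h

/-- inverses -/
theorem GG_inv {M : Z2 g} (hM : M ∈ GG g) : ∃ M' ∈ GG g, M' * M = 1 := by
  refine Submonoid.closure_induction (motive := fun M _ => ∃ M' ∈ GG g, M' * M = 1) ?_ ?_ ?_ hM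
  · rintro M (⟨B, hB, rfl⟩ | ⟨U, V, h1, h2, rfl⟩ | ⟨i, rfl⟩)
    · refine ⟨TB (-B), TB_mem (by rw [transpose_neg, hB]), ?_⟩
      unfold TB
      rw [fromBlocks_multiply]
      simp
    · refine ⟨RU V U, RU_mem h2 h1, ?_⟩
      unfold RU
      rw [fromBlocks_multiply]
      simp [h2, ← transpose_mul, h2]
    · refine ⟨JI i * JI i * JI i, mul_mem (mul_mem (JI_mem i) (JI_mem i)) (JI_mem i), ?_⟩
      have h : JI i * JI i = fromBlocks (diagonal (1 - 2 • dl i)) 0 0 (diagonal (1 - 2 • dl i)) := by
        unfold JI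
        rw [fromBlocks_multiply]
        simp only [diagonal_mul_diagonal, diagonal_add]
        rw [← diagonal_zero]
        congr 2 <;> (funext l; by_cases hl : l = i <;> simp [dl, hl])
      rw [Matrix.mul_assoc, h, fromBlocks_multiply]
      simp only [diagonal_mul_diagonal, mul_zero, zero_mul, add_zero, zero_add]
      rw [← fromBlocks_one, ← diagonal_one]
      congr 2 <;> (funext l; by_cases hl : l = i <;> simp [dl, hl])
  · exact ⟨1, one_mem _, by simp⟩
  · rintro M N _ _ ⟨M', hM', h1⟩ ⟨N', hN', h2⟩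
    refine ⟨N' * M', mul_mem hN' hM', ?_⟩
    rw [Matrix.mul_assoc, ← Matrix.mul_assoc M', h1, Matrix.one_mul, h2]

/-- adding a first row and column -/
def ups (s : ℤ) (A : Matrix (Fin g) (Fin g) ℤ) : Matrix (Fin (g + 1)) (Fin (g + 1)) ℤ :=
  Matrix.of (Fin.cons (Fin.cons s 0) fun i => Fin.cons 0 (A i))

@[simp] theorem ups_00 (s : ℤ) (A : Matrix (Fin g) (Fin g) ℤ) : ups s A 0 0 = s := rfl
@[simp] theorem ups_0s (s : ℤ) (A : Matrix (Fin g) (Fin g) ℤ) (j : Fin g) :
    ups s A 0 j.succ = 0 := rfl
@[simp] theorem ups_s0 (s : ℤ) (A : Matrix (Fin g) (Fin g) ℤ) (i : Fin g) :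
    ups s A i.succ 0 = 0 := rfl
@[simp] theorem ups_ss (s : ℤ) (A : Matrix (Fin g) (Fin g) ℤ) (i j : Fin g) :
    ups s A i.succ j.succ = A i j := rfl

theorem ups_ext {X Y : Matrix (Fin (g + 1)) (Fin (g + 1)) ℤ} (h1 : X 0 0 = Y 0 0)
    (h2 : ∀ j : Fin g, X 0 j.succ = Y 0 j.succ) (h3 : ∀ i : Fin g, X i.succ 0 = Y i.succ 0)
    (h4 : ∀ i j : Fin g, X i.succ j.succ = Y i.succ j.succ) : X = Y := by
  ext i j
  refine Fin.cases ?_ (fun i => ?_) i <;> refine Fin.cases ?_ (fun j => ?_) j
  · exact h1
  · exact h2 j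
  · exact h3 i
  · exact h4 i j

theorem ups_mul (s t : ℤ) (A B : Matrix (Fin g) (Fin g) ℤ) :
    ups s A * ups t B = ups (s * t) (A * B) := by
  apply ups_ext <;> intros <;> simp [Matrix.mul_apply, Fin.sum_univ_succ]

theorem ups_add (s t : ℤ) (A B : Matrix (Fin g) (Fin g) ℤ) :
    ups s A + ups t B = ups (s + t) (A + B) := by
  apply ups_ext <;> intros <;> simp

theorem z_ne (j : Fin g) : ¬ (0 : Fin (g + 1)) = j.succ := (Fin.succ_ne_zero j).symm

theorem ups_one : ups 1 (1 : Matrix (Fin g) (Fin g) ℤ) = 1 := by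
  apply ups_ext <;> intros <;> simp [Matrix.one_apply, z_ne]

theorem ups_zero : ups 0 (0 : Matrix (Fin g) (Fin g) ℤ) = 0 := by
  apply ups_ext <;> intros <;> simp

theorem ups_transpose (s : ℤ) (A : Matrix (Fin g) (Fin g) ℤ) : (ups s A)ᵀ = ups s Aᵀ := by
  apply ups_ext <;> intros <;> simp [Matrix.transpose_apply]

theorem ups_diagonal (s : ℤ) (v : Fin g → ℤ) : ups s (diagonal v) = diagonal (Fin.cons s v) := by
  apply ups_ext <;> intros <;> simp [diagonal_apply, z_ne]

/-- the embedding of symplectic groups -/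
def up (M : Z2 g) : Z2 (g + 1) :=
  fromBlocks (ups 1 M.toBlocks₁₁) (ups 0 M.toBlocks₁₂) (ups 0 M.toBlocks₂₁) (ups 1 M.toBlocks₂₂)

theorem up_mul (M N : Z2 g) : up (M * N) = up M * up N := by
  unfold up
  rw [fromBlocks_multiply]
  simp only [ups_mul, ups_add]
  have h : M * N = fromBlocks (M.toBlocks₁₁ * N.toBlocks₁₁ + M.toBlocks₁₂ * N.toBlocks₂₁)
      (M.toBlocks₁₁ * N.toBlocks₁₂ + M.toBlocks₁₂ * N.toBlocks₂₂)
      (M.toBlocks₂₁ * N.toBlocks₁₁ + M.toBlocks₂₂ * N.toBlocks₂₁)
      (M.toBlocks₂₁ * N.toBlocks₁₂ + M.toBlocks₂₂ * N.toBlocks₂₂) := by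
    conv_lhs => rw [← fromBlocks_toBlocks M, ← fromBlocks_toBlocks N, fromBlocks_multiply]
  rw [h]
  simp only [toBlocks_fromBlocks₁₁, toBlocks_fromBlocks₁₂, toBlocks_fromBlocks₂₁,
    toBlocks_fromBlocks₂₂]
  rfl

theorem up_one : up (1 : Z2 g) = 1 := by
  unfold up
  rw [← fromBlocks_one]
  simp only [toBlocks_fromBlocks₁₁, toBlocks_fromBlocks₁₂, toBlocks_fromBlocks₂₁,
    toBlocks_fromBlocks₂₂, ups_one, ups_zero]
  rw [fromBlocks_one]

theorem up_mem {M : Z2 g} (hM : M ∈ GG g) : up M ∈ GG (g + 1) := by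
  refine Submonoid.closure_induction (motive := fun M _ => up M ∈ GG (g + 1)) ?_ ?_ ?_ hM
  · rintro M (⟨B, hB, rfl⟩ | ⟨U, V, h1, h2, rfl⟩ | ⟨i, rfl⟩)
    · have : up (TB B) = TB (ups 0 B) := by
        unfold up TB
        simp only [toBlocks_fromBlocks₁₁, toBlocks_fromBlocks₁₂, toBlocks_fromBlocks₂₁,
          toBlocks_fromBlocks₂₂, ups_one, ups_zero]
      rw [this]
      exact TB_mem (by rw [ups_transpose, hB])
    · have : up (RU U V) = RU (ups 1 U) (ups 1 V) := by
        unfold up RU
        simp only [toBlocks_fromBlocks₁₁, toBlocks_fromBlocks₁₂, toBlocks_fromBlocks₂₁,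
          toBlocks_fromBlocks₂₂, ups_zero, ups_transpose]
      rw [this]
      exact RU_mem (by rw [ups_mul, h1, mul_one, ups_one]) (by rw [ups_mul, h2, mul_one, ups_one])
    · have : up (JI i) = JI i.succ := by
        unfold up JI
        simp only [toBlocks_fromBlocks₁₁, toBlocks_fromBlocks₁₂, toBlocks_fromBlocks₂₁,
          toBlocks_fromBlocks₂₂, ups_diagonal]
        congr 2 <;>
          (funext l; refine Fin.cases ?_ (fun l => ?_) l <;> simp [dl, Pi.single_apply, Fin.succ_inj])
      rw [this]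
      exact JI_mem _
  · rw [up_one]
    exact one_mem _
  · intro M N _ _ h1 h2
    rw [up_mul]
    exact mul_mem h1 h2

/-- clearing the lower left block -/
theorem exists_clear (g : ℕ) : ∀ W : Z2 g, W ∈ symplecticGroup (Fin g) ℤ →
    ∃ N ∈ GG g, (N * W).toBlocks₂₁ = 0 := by
  induction g with
  | zero =>
    intro W _
    exact ⟨1, one_mem _, Subsingleton.elim _ _⟩
  | succ g ih =>
    intro W hW
    have hne : W *ᵥ Pi.single (Sum.inl 0) 1 ≠ 0 := by
      intro h
      have h1 := (SymplecticGroup.symplectic_det hW)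
      obtain ⟨V, hV⟩ := (W.isUnit_iff_isUnit_det.2 h1).exists_left_inv
      have h2 := congrArg (fun v => V *ᵥ v) h
      simp only [mulVec_mulVec, hV, one_mulVec, mulVec_zero] at h2
      have := congrFun h2 (Sum.inl 0)
      simp at this
    obtain ⟨M, hM, d, hd, h1⟩ := vec_red _ _ le_rfl hne
    rw [mulVec_mulVec] at h1
    have hMW : M * W ∈ symplecticGroup (Fin (g + 1)) ℤ := mul_mem (GG_le hM) hW
    set W1 := M * W with hW1
    rw [← fromBlocks_toBlocks W1] at hMW h1
    set A := W1.toBlocks₁₁ with hA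
    set B := W1.toBlocks₁₂ with hB
    set C := W1.toBlocks₂₁ with hC
    set D := W1.toBlocks₂₂ with hD
    obtain ⟨s1, s2, s3⟩ := SymplecticGroup.fromBlocks_mem_iff.1 hMW
    have hA0 : ∀ i, A i 0 = if i = 0 then d else 0 := by
      intro i
      have := congrFun h1 (Sum.inl i)
      simp only [mulVec_single_one, Pi.smul_apply, smul_eq_mul] at this
      rw [show A i 0 = (fromBlocks A B C D).col (Sum.inl 0) (Sum.inl i) from rfl, this]
      by_cases hi : i = 0
      · subst hi; simp
      · simp [hi]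
    have hC0 : ∀ i, C i 0 = 0 := by
      intro i
      have := congrFun h1 (Sum.inr i)
      simp only [mulVec_single_one, Pi.smul_apply, smul_eq_mul] at this
      rw [show C i 0 = (fromBlocks A B C D).col (Sum.inl 0) (Sum.inr i) from rfl, this]
      simp
    have hC00 : ∀ j, C 0 j = 0 := by
      intro j
      have := congrFun (congrFun s1 0) j
      simp only [Matrix.mul_apply, transpose_apply, Fin.sum_univ_succ, hA0, hC0] at this
      simpa [hd, Fin.succ_ne_zero] using this
    have hD00 : ∀ j : Fin g, D 0 j.succ = 0 := by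
      intro j
      have := congrFun (congrFun s3 0) j.succ
      simp only [Matrix.sub_apply, Matrix.mul_apply, transpose_apply, Fin.sum_univ_succ, hA0,
        hC0] at this
      simpa [hd, Fin.succ_ne_zero, Matrix.one_apply, z_ne] using this
    set W' : Z2 g := fromBlocks (A.submatrix Fin.succ Fin.succ) (B.submatrix Fin.succ Fin.succ)
      (C.submatrix Fin.succ Fin.succ) (D.submatrix Fin.succ Fin.succ) with hW'
    have hW'm : W' ∈ symplecticGroup (Fin g) ℤ := by
      rw [hW', SymplecticGroup.fromBlocks_mem_iff]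
      refine ⟨?_, ?_, ?_⟩
      · ext i j
        have := congrFun (congrFun s1 i.succ) j.succ
        simpa [Matrix.mul_apply, Fin.sum_univ_succ, hC00] using this
      · ext i j
        have := congrFun (congrFun s2 i.succ) j.succ
        simpa [Matrix.mul_apply, Fin.sum_univ_succ, hD00] using this
      · ext i j
        have := congrFun (congrFun s3 i.succ) j.succ
        simpa [Matrix.mul_apply, Fin.sum_univ_succ, hD00, hC00, Matrix.one_apply] using this
    obtain ⟨N, hN, hN1⟩ := ih W' hW'm
    refine ⟨up N * M, mul_mem (up_mem hN) hM, ?_⟩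
    rw [Matrix.mul_assoc, ← hW1, ← fromBlocks_toBlocks W1]
    unfold up
    rw [fromBlocks_multiply, toBlocks_fromBlocks₂₁]
    rw [hW', ← fromBlocks_toBlocks N, fromBlocks_multiply, toBlocks_fromBlocks₂₁] at hN1
    apply ups_ext
    · simp [Matrix.mul_apply, Fin.sum_univ_succ, ← hA, ← hC, hC00, hC0]
    · intro j
      simp [Matrix.mul_apply, Fin.sum_univ_succ, ← hA, ← hC, hC00, hC0]
    · intro i
      simp [Matrix.mul_apply, Fin.sum_univ_succ, ← hA, ← hC, hA0, hC0]
    · intro i j
      have := congrFun (congrFun hN1 i) j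
      simpa [Matrix.mul_apply, Fin.sum_univ_succ, ← hA, ← hC] using this

theorem GG_eq : GG g = symplecticGroup (Fin g) ℤ := by
  refine le_antisymm GG_le ?_
  intro W hW
  obtain ⟨N, hN, h0⟩ := exists_clear g W hW
  have hNW : N * W ∈ symplecticGroup (Fin g) ℤ := mul_mem (GG_le hN) hW
  have key : N * W ∈ GG g := by
    set W1 := N * W with hW1
    rw [← fromBlocks_toBlocks W1] at hNW ⊢
    rw [h0] at hNW ⊢
    set A := W1.toBlocks₁₁
    set B := W1.toBlocks₁₂
    set D := W1.toBlocks₂₂
    obtain ⟨-, s2, s3⟩ := SymplecticGroup.fromBlocks_mem_iff.1 hNW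
    simp only [transpose_zero, zero_mul, sub_zero] at s3
    have h1 : Dᵀ * A = 1 := by
      have := congrArg transpose s3
      simpa using this
    have h2 : A * Dᵀ = 1 := mul_eq_one_comm.1 h1
    have h3 : D * Aᵀ = 1 := mul_eq_one_comm.1 s3
    have hS : (B * Aᵀ)ᵀ = B * Aᵀ := by
      rw [transpose_mul, transpose_transpose]
      calc A * Bᵀ = A * Bᵀ * (D * Aᵀ) := by rw [h3, Matrix.mul_one]
        _ = A * (Bᵀ * D) * Aᵀ := by simp only [Matrix.mul_assoc]
        _ = (A * Dᵀ) * B * Aᵀ := by rw [s2]; simp only [Matrix.mul_assoc]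
        _ = B * Aᵀ := by rw [h2, Matrix.one_mul]
    have h4 : fromBlocks A B 0 D = TB (B * Aᵀ) * RU A Dᵀ := by
      unfold TB RU
      rw [fromBlocks_multiply]
      simp only [Matrix.one_mul, Matrix.mul_zero, add_zero, transpose_transpose, zero_add,
        Matrix.zero_mul, Matrix.mul_assoc, s3, Matrix.mul_one]
    rw [h4]
    exact mul_mem (TB_mem hS) (RU_mem h2 h1)
  obtain ⟨N', hN', h5⟩ := GG_inv hN
  have : W = N' * (N * W) := by rw [← Matrix.mul_assoc, h5, Matrix.one_mul]
  rw [this]
  exact mul_mem hN' key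

end Run7.h92
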