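import Pool.Agent.Run7.h92.StepC

/-!
# Adding a rank one direction in a new variable: conclusion
-/

namespace Run7.h92

open Matrix Complex Filter Topology

variable {g k : ℕ}

theorem QQ_mul {N : ℕ} [NeZero N] {w : CN N g → ℕ} (c : ℕ) (h : QQ w) :
    QQ (fun x => c * w x) := by
  intro u hu
  have e1 : ∑ x, ((c * w x : ℕ) : ℂ) * ps (dp u x) = (c : ℂ) * ∑ x, (w x : ℂ) * ps (dp u x) := by
    rw [Finset.mul_sum]
    refine Finset.sum_congr rfl fun x _ => ?_
    push_cast
    ring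
  have e2 : ∑ x, ((c * w x : ℕ) : ℝ) = (c : ℝ) * ∑ x, (w x : ℝ) := by
    rw [Finset.mul_sum]
    refine Finset.sum_congr rfl fun x _ => ?_
    push_cast
    ring
  rw [e1, e2, norm_mul, Complex.norm_natCast, mul_assoc]
  exact mul_le_mul_of_nonneg_left (h u hu) (Nat.cast_nonneg _)

theorem Exw_mul {N n : ℕ} [NeZero N] {w : CN N g → ℕ} (c : ℕ) {v : Fin g → ℤ} (h : Exw N n w v) :
    Exw N n (fun x => c * w x) v := by
  unfold Exw at h ⊢
  have e1 : ∑ x, ((c * w x : ℕ) : ℝ) * gf (bq n (rd N v 0) x) =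
      (c : ℝ) * ∑ x, (w x : ℝ) * gf (bq n (rd N v 0) x) := by
    rw [Finset.mul_sum]
    refine Finset.sum_congr rfl fun x _ => ?_
    push_cast
    ring
  have e2 : ∑ x, ((c * w x : ℕ) : ℝ) = (c : ℝ) * ∑ x, (w x : ℝ) := by
    rw [Finset.mul_sum]
    refine Finset.sum_congr rfl fun x _ => ?_
    push_cast
    ring
  rw [e1, e2, h]
  ring

theorem val_n {N n : ℕ} [NeZero N] (hn : N = 2 * n) : ((n : ZMod N)).val = n := by
  have h0 : 0 < N := NeZero.pos N
  exact ZMod.val_natCast_of_lt (by omega)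

theorem gf_nn {N n : ℕ} [NeZero N] (hn : N = 2 * n) :
    gf ((n : ZMod N) + (n : ZMod N)) = 1 / 4 := by
  have h1 : (n : ZMod N) + (n : ZMod N) = 0 := by
    have := n_two hn
    linear_combination this
  rw [h1]
  unfold gf
  rw [ZMod.val_zero]
  norm_num

theorem sum_gf_shift {N : ℕ} [NeZero N] (c : ZMod N) :
    ∑ j : ZMod N, gf (j + c) = N / 12 + 1 / (6 * N) := by
  rw [← sum_gf (N := N)]
  exact Equiv.sum_comp (Equiv.addRight c) gf

theorem bq_cons_one {N n : ℕ} (x : CN N (g + 1)) :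
    bq n (rd N (Fin.cons 1 0 : Fin (g + 1) → ℤ) 0) x = x.1 0 + (n : ZMod N) := by
  unfold bq dp rd
  simp [dotProduct, Fin.sum_univ_succ]

theorem bq_cons_zero {N n : ℕ} (v : Fin g → ℤ) (x : CN N (g + 1)) :
    bq n (rd N (Fin.cons 0 v : Fin (g + 1) → ℤ) 0) x = bq n (rd N v 0) (sp2 N g x).2 := by
  unfold bq dp rd sp2
  simp [dotProduct, Fin.sum_univ_succ]

theorem expm (a b C : ℂ) : cexp a * (cexp b * C) = cexp (a + b) * C := by
  rw [Complex.exp_add]
  ring

/-- the two-term formula on the middle slice -/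
theorem cdv_half {τ : MM (g + 1)} (hτ : τ ∈ HH (g + 1)) (V : Fin k → Fin g → ℤ)
    {ε : Fin (g + 1) → ℝ} (hε : ε 0 = 1 / 2) (z : Fin (g + 1) → ℂ) :
    cdv (up1 V) τ ε z = inr V τ ε z 0 + inr V τ ε z (-1) := by
  classical
  rw [cdv_up1 hτ]
  have h1 : ∀ a : ℤ, (((a : ℝ) + ε 0) ^ 2 = hmin (ε 0)) ↔ (a = 0 ∨ a = -1) := by
    intro a
    rw [hε]
    exact min_half a
  simp only [h1]
  rw [tsum_eq_sum (s := {0, -1}) (fun a ha => if_neg (by simpa using ha)),
    Finset.sum_pair (by norm_num)]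
  simp

theorem cdv_off {τ : MM (g + 1)} (hτ : τ ∈ HH (g + 1)) (V : Fin k → Fin g → ℤ)
    {ε : Fin (g + 1) → ℝ} {a : ℤ} (hε : |(a : ℝ) + ε 0| < 1 / 2) (z : Fin (g + 1) → ℂ) :
    cdv (up1 V) τ ε z = inr V τ ε z a := by
  classical
  rw [cdv_up1 hτ]
  simp only [min_unique hε]
  exact tsum_ite_eq a _

theorem GoodV_step {N n : ℕ} [NeZero N] (hn : N = 2 * n) (V : Fin k → Fin g → ℤ)
    {τ : MM (g + 1)} (hτ : τ ∈ HH (g + 1)) (h : GoodV V N n (tl τ)) : GoodV (up1 V) N n τ := by
  classical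
  intro z
  have hN0 : (N : ℝ) ≠ 0 := Nat.cast_ne_zero.2 (NeZero.ne N)
  have hN1 : (N : ℝ) = 2 * n := by rw [hn]; push_cast; rfl
  have hn0 : (n : ℝ) ≠ 0 := by
    intro h
    rw [h, mul_zero] at hN1
    exact hN0 hN1
  set zs : ZMod N → Fin g → ℂ := fun j i =>
    z i.succ + (((cen n j : ℤ) : ℂ) + (((j.val : ℝ) / N : ℝ) : ℂ)) * τ 0 i.succ with hzs
  choose w' h1 h2 h3 h4 using fun j => h (zs j)
  set μ : ZMod N → ℕ := fun j => ∑ y, w' j y with hμ
  have hμ0 : ∀ j, 0 < μ j := by
    intro j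
    obtain ⟨x, hx⟩ := h1 j
    exact Nat.pos_of_ne_zero fun h => hx (Finset.sum_eq_zero_iff.1 h x (Finset.mem_univ x))
  set K : ℕ := ∏ j, μ j with hK
  have hK0 : 0 < K := Finset.prod_pos fun j _ => hμ0 j
  set cc : ZMod N → ℕ := fun j => ∏ i ∈ Finset.univ.erase j, μ i with hcc
  have hcc0 : ∀ j, 0 < cc j := fun j => Finset.prod_pos fun i _ => hμ0 i
  set W : ZMod N → CN N g → ℕ := fun j y => cc j * w' j y with hWdef
  have hW : ∀ j, ∑ y, W j y = K := by
    intro j
    rw [hWdef]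
    simp only
    rw [← Finset.mul_sum]
    exact Finset.prod_erase_mul _ _ (Finset.mem_univ j)
  have hQW : ∀ j, QQ (W j) := fun j => QQ_mul (cc j) (h3 j)
  have hEW : ∀ j i, Exw N n (W j) (V i) := fun j i => Exw_mul (cc j) (h4 j i)
  have hWne : ∀ j y, W j y ≠ 0 → cdv V (tl τ) (chE N y) (chZ N y (zs j)) ≠ 0 := by
    intro j y hy
    exact h2 j y (right_ne_zero_of_mul hy)
  -- the bad values
  set f : ZMod N → CN N g → ℂ := fun l y =>
    cdv (up1 V) τ (chE N ((sp2 N g).symm (((n : ZMod N), l), y)))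
      (chZ N ((sp2 N g).symm (((n : ZMod N), l), y)) z) with hf
  have hcenn : cen n (n : ZMod N) = 0 := by
    unfold cen
    rw [if_pos (le_of_eq (val_n hn))]
  have hhalf : (((n : ZMod N).val : ℝ) / N) = 1 / 2 := by
    rw [val_n hn, hN1]
    field_simp
  have hfeq : ∀ l y, f l y =
      cexp (Real.pi * I * (1 / 4 * τ 0 0) + Real.pi * I * z 0 +
        Real.pi * I * (((l.val : ℝ) / N : ℝ) : ℂ)) *
        cdv V (tl τ) (chE N y) (chZ N y (zs n)) +
      cexp (Real.pi * I * (1 / 4 * τ 0 0) - Real.pi * I * z 0 -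
        Real.pi * I * (((l.val : ℝ) / N : ℝ) : ℂ)) *
        cdv V (tl τ) (chE N y) (chZ N y fun i => z i.succ + (-1 / 2) * τ 0 i.succ) := by
    intro l y
    rw [hf]
    simp only
    have hε0 : chE N ((sp2 N g).symm (((n : ZMod N), l), y)) 0 = 1 / 2 := hhalf
    rw [cdv_half hτ V hε0]
    unfold inr
    have hε0' : ((chE N ((sp2 N g).symm (((n : ZMod N), l), y)) 0 : ℝ) : ℂ) = 1 / 2 := by
      rw [hε0]
      push_cast
      rfl
    have hz0 : chZ N ((sp2 N g).symm (((n : ZMod N), l), y)) z 0 =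
        (((l.val : ℝ) / N : ℝ) : ℂ) + z 0 := rfl
    rw [hε0', hz0]
    have e1 : (fun j => chE N ((sp2 N g).symm (((n : ZMod N), l), y)) (Fin.succ j)) = chE N y := rfl
    rw [e1]
    congr 1
    · congr 1
      · congr 1
        push_cast
        ring
      · congr 1
        funext i
        have e2 : chZ N ((sp2 N g).symm (((n : ZMod N), l), y)) z i.succ =
            ((((y.2 i).val : ℝ) / N : ℝ) : ℂ) + z i.succ := rfl
        rw [e2]
        unfold chZ
        rw [hzs]
        simp only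
        rw [hcenn, hhalf]
        push_cast
        ring
    · congr 1
      · congr 1
        push_cast
        ring
      · congr 1
        funext i
        have e2 : chZ N ((sp2 N g).symm (((n : ZMod N), l), y)) z i.succ =
            ((((y.2 i).val : ℝ) / N : ℝ) : ℂ) + z i.succ := rfl
        rw [e2]
        unfold chZ
        push_cast
        ring
  have huniq : ∀ y, W n y ≠ 0 → ∀ l l', f l y = 0 → f l' y = 0 → l = l' := by
    intro y hy
    have hC := hWne n y hy
    set C0 := cdv V (tl τ) (chE N y) (chZ N y (zs n)) with hC0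
    set C1 := cdv V (tl τ) (chE N y) (chZ N y fun i => z i.succ + (-1 / 2) * τ 0 i.succ) with hC1
    have key : ∀ l, f l y = 0 → cexp (2 * Real.pi * I * (((l.val : ℝ) / N : ℝ) : ℂ)) *
        (cexp (Real.pi * I * (1 / 4 * τ 0 0) + Real.pi * I * z 0) * C0) =
        -(cexp (Real.pi * I * (1 / 4 * τ 0 0) - Real.pi * I * z 0) * C1) := by
      intro l hl
      rw [hfeq] at hl
      have e1 : cexp (2 * Real.pi * I * (((l.val : ℝ) / N : ℝ) : ℂ)) *
        (cexp (Real.pi * I * (1 / 4 * τ 0 0) + Real.pi * I * z 0) * C0) =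
          cexp (Real.pi * I * (((l.val : ℝ) / N : ℝ) : ℂ)) *
          (cexp (Real.pi * I * (1 / 4 * τ 0 0) + Real.pi * I * z 0 +
            Real.pi * I * (((l.val : ℝ) / N : ℝ) : ℂ)) * C0) := by
        rw [expm, expm]
        congr 2
        ring
      have e2 : cexp (Real.pi * I * (((l.val : ℝ) / N : ℝ) : ℂ)) *
          (cexp (Real.pi * I * (1 / 4 * τ 0 0) - Real.pi * I * z 0 -
            Real.pi * I * (((l.val : ℝ) / N : ℝ) : ℂ)) * C1) =
          cexp (Real.pi * I * (1 / 4 * τ 0 0) - Real.pi * I * z 0) * C1 := by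
        rw [expm]
        congr 2
        ring
      rw [e1, eq_neg_of_add_eq_zero_left hl, mul_neg, e2]
    intro l l' hl hl'
    have h5 := (key l hl).trans (key l' hl').symm
    exact exp_inj (mul_right_cancel₀ (mul_ne_zero (Complex.exp_ne_zero _) hC) h5)
  set bad : CN N g → ZMod N := fun y => if hy : ∃ l, f l y = 0 then hy.choose else 0 with hbad
  have hbadne : ∀ y, W n y ≠ 0 → ∀ l, l ≠ bad y → f l y ≠ 0 := by
    intro y hy l hl h0
    apply hl
    have hex : ∃ l, f l y = 0 := ⟨l, h0⟩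
    have : bad y = hex.choose := by
      rw [hbad]
      simp only
      rw [dif_pos hex]
    rw [this]
    exact huniq y hy _ _ h0 hex.choose_spec
  have htot := wt_total_one (n := n) W bad hW
  have hN2 : (2 : ℝ) ≤ N := by
    have h0 : 0 < N := NeZero.pos N
    have : 2 ≤ N := by omega
    exact_mod_cast this
  refine ⟨wt n W bad, ?_, ?_, wt_QQ W bad hW hQW, ?_⟩
  · by_contra hcon
    push Not at hcon
    have h5 : ∑ x : CN N (g + 1), (wt n W bad x : ℝ) = 0 :=
      Finset.sum_eq_zero fun x _ => by rw [hcon x]; simp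
    rw [htot] at h5
    have h6 : (0 : ℝ) < K := by exact_mod_cast hK0
    have h7 : 0 < ((N : ℝ) ^ 2 - 1) * K := mul_pos (by nlinarith) h6
    linarith
  · intro x hx
    unfold wt at hx
    by_cases hj : x.1 0 = (n : ZMod N)
    · have hx2 : ¬ (x.1 0 = (n : ZMod N) ∧ x.2 0 = bad (sp2 N g x).2) := by
        intro h5
        exact hx (if_pos h5)
      rw [if_neg hx2, hj] at hx
      have h6 := hbadne _ hx (x.2 0) (fun h5 => hx2 ⟨hj, h5⟩)
      have e1 : (sp2 N g).symm (((n : ZMod N), x.2 0), (sp2 N g x).2) = x := by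
        rw [← hj]
        exact (sp2 N g).symm_apply_apply x
      rw [hf] at h6
      simp only at h6
      rwa [e1] at h6
    · have hx2 : ¬ (x.1 0 = (n : ZMod N) ∧ x.2 0 = bad (sp2 N g x).2) := fun h5 => hj h5.1
      rw [if_neg hx2] at hx
      have hlt := cen_lt hn hj
      have e0 : |((cen n (x.1 0) : ℤ) : ℝ) + chE N x 0| < 1 / 2 := hlt
      rw [cdv_off hτ V e0]
      unfold inr
      refine mul_ne_zero (Complex.exp_ne_zero _) ?_
      have h6 := hWne _ _ hx
      have e6 : (fun i => chZ N x z (Fin.succ i) + (((cen n (x.1 0) : ℤ) : ℂ) + (chE N x 0 : ℂ)) *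
          τ 0 i.succ) = chZ N (sp2 N g x).2 (zs (x.1 0)) := by
        funext i
        have e2 : chZ N x z i.succ = ((((x.2 i.succ).val : ℝ) / N : ℝ) : ℂ) + z i.succ := rfl
        have e3 : chZ N (sp2 N g x).2 (zs (x.1 0)) i =
            ((((x.2 i.succ).val : ℝ) / N : ℝ) : ℂ) + zs (x.1 0) i := rfl
        have e4 : (chE N x 0 : ℝ) = ((x.1 0).val : ℝ) / N := rfl
        rw [e2, e3, e4, hzs]
        ring
      rw [e6]
      exact h6
  · intro i
    refine Fin.cases ?_ (fun i => ?_) i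
    · unfold Exw
      have e1 : up1 V 0 = (Fin.cons 1 0 : Fin (g + 1) → ℤ) := rfl
      rw [e1, htot]
      simp_rw [bq_cons_one]
      rw [wt_sum W bad fun j _ _ => gf (j + (n : ZMod N))]
      have e2 : ∀ j : ZMod N, ∑ _l : ZMod N, ∑ y, (W j y : ℝ) * gf (j + (n : ZMod N)) =
          N * K * gf (j + (n : ZMod N)) := by
        intro j
        rw [Finset.sum_const, Finset.card_univ, ZMod.card, nsmul_eq_mul, ← Finset.sum_mul]
        have : ∑ y, (W j y : ℝ) = K := by
          rw [← hW j]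
          push_cast
          rfl
        rw [this]
        ring
      have e3 : ∑ y, (W (n : ZMod N) y : ℝ) * gf ((n : ZMod N) + (n : ZMod N)) = K * (1 / 4) := by
        rw [← Finset.sum_mul, gf_nn hn]
        have : ∑ y, (W (n : ZMod N) y : ℝ) = K := by
          rw [← hW n]
          push_cast
          rfl
        rw [this]
      simp_rw [e2]
      rw [e3, ← Finset.mul_sum, sum_gf_shift]
      field_simp
      ring
    · unfold Exw
      have e1 : up1 V i.succ = (Fin.cons 0 (V i) : Fin (g + 1) → ℤ) := rfl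
      rw [e1, htot]
      simp_rw [bq_cons_zero]
      rw [wt_total W bad (fun y => gf (bq n (rd N (V i) 0) y)) (K / 12)]
      · ring
      · intro j
        have := hEW j i
        unfold Exw at this
        rw [this, ← hW j]
        push_cast
        rfl

end Run7.h92
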