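import Pool.Agent.Run7.h92.TorusS

/-!
# The mass of the gap on thin strips
-/

namespace Run7.h92

open Complex MeasureTheory Metric Real Set Filter Topology

variable {g : ℕ}

theorem avg_gen {Ω X : Type*} [MeasurableSpace Ω] [MeasurableSpace X] {ν : Measure Ω}
    [IsFiniteMeasure ν] {μ : Measure X} [SFinite μ] (T : Ω → X → X)
    (hT : Measurable (Function.uncurry T)) (hp : ∀ θ, MeasurePreserving (T θ) μ μ)
    {h : X → ℝ} (hh : Integrable h μ) :
    Integrable (fun q : Ω × X => h (T q.1 q.2)) (ν.prod μ) ∧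
    Integrable (fun x => ∫ θ, h (T θ x) ∂ν) μ ∧
      ∫ x, (∫ θ, h (T θ x) ∂ν) ∂μ = ν.real univ * ∫ x, h x ∂μ := by
  have hj : Integrable (fun q : Ω × X => h (T q.1 q.2)) (ν.prod μ) := by
    have h1 : MeasurePreserving (fun p : Ω × X => (id p.1, T p.1 p.2)) (ν.prod μ) (ν.prod μ) :=
      MeasurePreserving.skew_product (MeasurePreserving.id _) hT
        (Filter.Eventually.of_forall fun θ => (hp θ).map_eq)
    have h2 : Integrable (fun p : Ω × X => h p.2) (ν.prod μ) := hh.comp_snd _
    exact h1.integrable_comp_of_integrable h2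
  refine ⟨hj, hj.integral_prod_right, ?_⟩
  have hsw := integral_integral_swap (f := fun (x : X) (θ : Ω) => h (T θ x)) (μ := μ)
    (ν := ν) (by
      have := hj.swap
      exact this)
  rw [hsw]
  have e2 : ∀ θ, ∫ x, h (T θ x) ∂μ = ∫ x, h x ∂μ := by
    intro θ
    have := integral_map (hp θ).measurable.aemeasurable (f := h)
      (by rw [(hp θ).map_eq]; exact hh.aestronglyMeasurable)
    rw [← this, (hp θ).map_eq]
  simp_rw [e2]
  rw [integral_const, smul_eq_mul]

theorem SS_line (f : (Fin g → ℂ) → ℂ) (z e : Fin g → ℂ) (w : ℂ) (σ : ℝ) :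
    SS f (z + w • e) (σ • e) = Sg (fun v => f (z + v • e)) w σ := by
  unfold SS Sg
  congr 1
  · rw [Real.circleAverage_eq_circleAverage_zero_one (c := w) (R := σ)]
    congr 1
    funext v
    show Real.log ‖f (z + w • e + v • σ • e)‖ = Real.log ‖f (z + ((σ : ℂ) * v + w) • e)‖
    congr 3
    rw [add_smul, mul_smul, smul_comm v σ e, add_assoc, add_comm (w • e)]
    simp
  · simp

namespace Dat

variable (D : Dat g)

/-- direction adapted to `k` -/
noncomputable def dir (k : Fin g ⊕ Fin g → ℤ) : Fin g → ℂ := D.A (iv k)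

/-- no zeros on the hyperplanes, almost everywhere -/
def Good (k : Fin g ⊕ Fin g → ℤ) : Prop :=
  ∀ᵐ x : XX g, ∀ w : ℂ, (∃ s : ℤ, dt k (x + D.A.symm (w • D.dir k)) = s) →
    D.f (D.A x + w • D.dir k) ≠ 0

/-- the strip -/
def strip (k : Fin g ⊕ Fin g → ℤ) (δ : ℝ) : Set (TT g) := {p | ‖chi k p - 1‖ < δ}

theorem measurableSet_strip (k : Fin g ⊕ Fin g → ℤ) (δ : ℝ) : MeasurableSet (strip k δ) :=
  measurableSet_lt ((measurable_chi k).sub_const 1).norm measurable_const

theorem chi_eq_one {k : Fin g ⊕ Fin g → ℤ} {x : XX g} (h : chi k (pr x) = 1) :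
    ∃ s : ℤ, dt k x = s := by
  rw [chi_pr, Complex.exp_eq_one_iff] at h
  obtain ⟨n, hn⟩ := h
  refine ⟨n, ?_⟩
  have h1 : (2 * π * I : ℂ) ≠ 0 := Complex.two_pi_I_ne_zero
  have h2 : ((dt k x : ℝ) : ℂ) = (n : ℂ) := by
    apply mul_left_cancel₀ h1
    rw [hn]
    ring
  exact_mod_cast h2

/-- the function integrated in the strip lemma -/
noncomputable def hm (k : Fin g ⊕ Fin g → ℤ) (δ σ : ℝ) (p : TT g) : ℝ :=
  indicator (strip k δ) (fun p => (σ ^ 2)⁻¹ * D.S p (σ • D.dir k)) p

theorem integrable_hm (k : Fin g ⊕ Fin g → ℤ) (δ σ : ℝ) : Integrable (D.hm k δ σ) :=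
  ((D.integrable_S _).const_mul _).indicator (measurableSet_strip k δ)

theorem strip_small {k : Fin g ⊕ Fin g → ℤ} (hk : D.Good k) {ε : ℝ} (hε : 0 < ε) :
    ∃ δ > 0, ∃ σ₀ > 0, ∀ σ : ℝ, 0 < σ → σ < σ₀ → ∫ p, D.hm k δ σ p ≤ ε := by
  by_contra hcon
  push Not at hcon
  have hm1 : ∀ m : ℕ, (0 : ℝ) < 1 / ((m : ℝ) + 1) := fun m => by positivity
  choose σ hσ0 hσ1 hσ2 using fun m : ℕ => hcon (1 / ((m : ℝ) + 1)) (hm1 m) (1 / ((m : ℝ) + 1)) (hm1 m)
  have htend : Tendsto (fun m : ℕ => 1 / ((m : ℝ) + 1)) atTop (𝓝 0) :=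
    tendsto_one_div_add_atTop_nhds_zero_nat
  set cB : Set ℂ := closedBall 0 1 with hcB
  have hcBfin : volume cB < ⊤ := measure_closedBall_lt_top
  have hfinm : IsFiniteMeasure (volume.restrict cB) := ⟨by rw [Measure.restrict_apply_univ]; exact hcBfin⟩
  set e := D.dir k with he
  have hTm : Measurable (Function.uncurry fun (w : ℂ) (p : TT g) => p + D.dis (w • e)) := by
    have h1 : Measurable fun q : ℂ × TT g => q.1 • e := by
      have : Continuous fun w : ℂ => w • e := by fun_prop
      exact this.measurable.comp measurable_fst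
    exact measurable_snd.add (D.measurable_dis.comp h1)
  set δ : ℕ → ℝ := fun m => 1 / ((m : ℝ) + 1) with hδ
  set Im : ℕ → TT g → ℝ := fun m p => ∫ w in cB, D.hm k (δ m) (σ m) (p + D.dis (w • e)) with hIm
  have hgen := fun m => avg_gen (ν := volume.restrict cB) (fun (w : ℂ) (p : TT g) => p + D.dis (w • e))
    hTm (fun _ => tr_mp _) (D.integrable_hm k (δ m) (σ m))
  have hval : ∀ m, ∫ p, Im m p = (volume.restrict cB).real univ * ∫ p, D.hm k (δ m) (σ m) p :=
    fun m => (hgen m).2.2
  have hvpos : 0 < (volume.restrict cB).real univ := by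
    rw [measureReal_restrict_apply_univ, measureReal_def]
    exact ENNReal.toReal_pos (measure_closedBall_pos _ _ one_pos).ne' hcBfin.ne
  -- pointwise description
  have hpt : ∀ p : TT g, D.f (D.A (rep p)) ≠ 0 → ∀ m, ∀ᵐ w ∂(volume.restrict cB),
      D.hm k (δ m) (σ m) (p + D.dis (w • e)) =
        indicator (strip k (δ m)) (fun _ => (σ m ^ 2)⁻¹ *
          Sg (fun v => D.f (D.A (rep p) + v • e)) w (σ m)) (p + D.dis (w • e)) := by
    intro p hp m
    have hF := line_diff D.hf (D.A (rep p)) e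
    have h1 : ∀ᵐ w ∂(volume.restrict cB), D.f (D.A (rep p) + w • e) ≠ 0 := by
      refine ae_restrict_of_ae ?_
      rw [ae_iff]
      simpa using zeros_null hF ⟨0, by simpa using hp⟩
    filter_upwards [h1] with w hw
    unfold hm
    have h2 : p + D.dis (w • e) = pr (rep p + D.A.symm (w • e)) := by
      rw [pr_add, pr_rep, dis]
    have h3 : D.A (rep p + D.A.symm (w • e)) = D.A (rep p) + w • e := by
      rw [map_add, LinearEquiv.apply_symm_apply]
    have h4 : D.S (p + D.dis (w • e)) (σ m • D.dir k) =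
        Sg (fun v => D.f (D.A (rep p) + v • e)) w (σ m) := by
      rw [h2, D.S_lift (by rw [h3]; exact hw), h3, SS_line]
    by_cases hs : p + D.dis (w • e) ∈ strip k (δ m)
    · rw [indicator_of_mem hs, indicator_of_mem hs, h4]
    · rw [indicator_of_notMem hs, indicator_of_notMem hs]
  -- domination
  have hdom : ∀ m, ∀ᵐ p : TT g, ‖Im m p‖ ≤ C0 / Real.log 2 * D.S p ((4 : ℝ) • e) := by
    intro m
    filter_upwards [D.ae_fne] with p hp
    have hF := line_diff D.hf (D.A (rep p)) e
    have hF0 : (fun v : ℂ => D.f (D.A (rep p) + v • e)) 0 ≠ 0 := by simpa using hp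
    have hσ1' : σ m ≤ 1 := by
      refine (hσ1 m).le.trans ?_
      rw [div_le_one (by positivity)]
      linarith [Nat.cast_nonneg (α := ℝ) m]
    obtain ⟨i1, i2⟩ := Sg_integral hF hF0 (hσ0 m) hσ1'
    have hS4 : D.S p ((4 : ℝ) • e) = Sg (fun v : ℂ => D.f (D.A (rep p) + v • e)) 0 4 := by
      rw [D.S_rep hp]
      have := SS_line D.f (D.A (rep p)) e 0 4
      simpa using this
    rw [hS4]
    rw [hIm]
    simp only
    rw [integral_congr_ae (hpt p hp m)]
    refine (norm_integral_le_integral_norm _).trans ?_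
    have h5 : ∫ w in cB, ‖indicator (strip k (δ m)) (fun _ => (σ m ^ 2)⁻¹ *
          Sg (fun v => D.f (D.A (rep p) + v • e)) w (σ m)) (p + D.dis (w • e))‖ ≤
        ∫ w in cB, (σ m ^ 2)⁻¹ * Sg (fun v => D.f (D.A (rep p) + v • e)) w (σ m) := by
      refine integral_mono_of_nonneg (Filter.Eventually.of_forall fun _ => norm_nonneg _)
        (i1.const_mul _) ?_
      have h1 : ∀ᵐ w ∂(volume.restrict cB), D.f (D.A (rep p) + w • e) ≠ 0 := by
        refine ae_restrict_of_ae ?_
        rw [ae_iff]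
        simpa using zeros_null hF ⟨0, by simpa using hp⟩
      filter_upwards [h1] with w hw
      have h6 : 0 ≤ (σ m ^ 2)⁻¹ * Sg (fun v => D.f (D.A (rep p) + v • e)) w (σ m) :=
        mul_nonneg (by positivity) (Sg_nonneg hF hw (hσ0 m))
      by_cases hs : p + D.dis (w • e) ∈ strip k (δ m)
      · rw [indicator_of_mem hs, Real.norm_of_nonneg h6]
      · rw [indicator_of_notMem hs, norm_zero]
        exact h6
    refine h5.trans ?_
    rw [integral_const_mul]
    calc (σ m ^ 2)⁻¹ * ∫ w in cB, Sg (fun v => D.f (D.A (rep p) + v • e)) w (σ m) ≤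
        (σ m ^ 2)⁻¹ * (C0 / Real.log 2 * σ m ^ 2 *
          Sg (fun v : ℂ => D.f (D.A (rep p) + v • e)) 0 4) := by
          exact mul_le_mul_of_nonneg_left i2 (by positivity)
      _ = _ := by
        have := (hσ0 m).ne'
        field_simp
  -- convergence
  have hconv : ∀ᵐ p : TT g, Tendsto (fun m => Im m p) atTop (𝓝 0) := by
    filter_upwards [D.ae_fne, ae_torus hk] with p hp hgood
    have hF := line_diff D.hf (D.A (rep p)) e
    have hF0 : (fun v : ℂ => D.f (D.A (rep p) + v • e)) 0 ≠ 0 := by simpa using hp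
    have hfin := zeros_finite hF ⟨0, hF0⟩ 0 2
    have hcont : Continuous fun w : ℂ => chi k (p + D.dis (w • e)) := by
      have h2 : ∀ w : ℂ, chi k (p + D.dis (w • e)) =
          Complex.exp (2 * π * I * (dt k (rep p + D.A.symm (w • e)) : ℝ)) := by
        intro w
        rw [← chi_pr, pr_add, pr_rep, dis]
      simp_rw [h2]
      have hcB' : Continuous fun w : ℂ => D.A.symm (w • e) := D.continuous_B.comp (by fun_prop)
      unfold dt
      fun_prop
    have hev : ∀ z ∈ {u ∈ closedBall (0:ℂ) 2 | D.f (D.A (rep p) + u • e) = 0}, ∀ᶠ m in atTop,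
        ∀ w : ℂ, ‖w - z‖ ≤ σ m → δ m ≤ ‖chi k (p + D.dis (w • e)) - 1‖ := by
      rintro z ⟨-, hz⟩
      have h3 : chi k (p + D.dis (z • e)) ≠ 1 := by
        intro h
        have h4 : p + D.dis (z • e) = pr (rep p + D.A.symm (z • e)) := by
          rw [pr_add, pr_rep, dis]
        rw [h4] at h
        obtain ⟨s, hs⟩ := chi_eq_one h
        exact hgood z ⟨s, hs⟩ hz
      set η := ‖chi k (p + D.dis (z • e)) - 1‖ with hη
      have hηpos : 0 < η := norm_pos_iff.2 (sub_ne_zero.2 h3)
      obtain ⟨ρ, hρ, hρ2⟩ := Metric.continuous_iff.1 hcont z (η / 2) (by positivity)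
      have h5 : ∀ᶠ m in atTop, δ m < ρ := htend.eventually (gt_mem_nhds hρ)
      have h6 : ∀ᶠ m in atTop, δ m < η / 2 := htend.eventually (gt_mem_nhds (by positivity))
      filter_upwards [h5, h6] with m hm1 hm2 w hw
      have h7 := hρ2 w (by
        rw [dist_eq_norm]
        exact (hw.trans (hσ1 m).le).trans_lt hm1)
      rw [dist_eq_norm] at h7
      have h8 : η ≤ ‖chi k (p + D.dis (w • e)) - 1‖ + ‖chi k (p + D.dis (w • e)) -
          chi k (p + D.dis (z • e))‖ := by
        rw [hη]
        calc ‖chi k (p + D.dis (z • e)) - 1‖ = ‖(chi k (p + D.dis (w • e)) - 1) -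
            (chi k (p + D.dis (w • e)) - chi k (p + D.dis (z • e)))‖ := by congr 1; ring
          _ ≤ _ := norm_sub_le _ _
      linarith
    have hev2 := (hfin.eventually_all).2 hev
    refine tendsto_const_nhds.congr' ?_
    filter_upwards [hev2] with m hm
    symm
    rw [hIm]
    simp only
    rw [integral_congr_ae (hpt p hp m)]
    refine (integral_congr_ae (g := fun _ => (0 : ℝ)) ?_).trans (by simp)
    refine (ae_restrict_iff' measurableSet_closedBall).2 (Filter.Eventually.of_forall fun w hw => ?_)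
    beta_reduce
    by_cases hs : p + D.dis (w • e) ∈ strip k (δ m)
    · rw [indicator_of_mem hs]
      have : Sg (fun v => D.f (D.A (rep p) + v • e)) w (σ m) = 0 := by
        refine Sg_eq_zero hF (hσ0 m) fun z hz hz0 => ?_
        have hσ1' : σ m ≤ 1 := by
          refine (hσ1 m).le.trans ?_
          rw [div_le_one (by positivity)]
          linarith [Nat.cast_nonneg (α := ℝ) m]
        have hz2 : z ∈ closedBall (0:ℂ) 2 := by
          rw [mem_closedBall, dist_zero_right]
          rw [mem_closedBall, dist_eq_norm] at hz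
          rw [mem_closedBall, dist_zero_right] at hw
          calc ‖z‖ = ‖(z - w) + w‖ := by ring_nf
            _ ≤ ‖z - w‖ + ‖w‖ := norm_add_le _ _
            _ ≤ 2 := by linarith
        have h9 := hm z ⟨hz2, hz0⟩ w (by
          rw [mem_closedBall, dist_comm, dist_eq_norm] at hz
          exact hz)
        exact absurd hs (not_lt.2 h9)
      rw [this, mul_zero]
    · rw [indicator_of_notMem hs]
  have hlim := tendsto_integral_of_dominated_convergence (F := Im) (f := fun _ => (0 : ℝ))
    (fun p => C0 / Real.log 2 * D.S p ((4 : ℝ) • e)) (fun m => (hgen m).2.1.aestronglyMeasurable)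
    ((D.integrable_S _).const_mul _) hdom hconv
  rw [integral_zero] at hlim
  have hlb : ∀ m, (volume.restrict cB).real univ * ε ≤ ∫ p, Im m p := by
    intro m
    rw [hval]
    exact mul_le_mul_of_nonneg_left (hσ2 m).le hvpos.le
  have := ge_of_tendsto' hlim hlb
  nlinarith

end Dat

end Run7.h92
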