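import Pool.Agent.Helper540.Holo
import Pool.Agent.N139.Th.Prod

/-!
# Theta functions with characteristics
-/

namespace Run7.h92

open Complex Metric Real Set Filter Topology
open Pool.Agent.Helper540 (differentiableOn_of_uniform_limit)

variable {g : ℕ}

/-- matrices as functions -/
abbrev MM (g : ℕ) : Type := Fin g → Fin g → ℂ

/-- exponent of the theta series -/
noncomputable def ex (τ : MM g) (ε : Fin g → ℝ) (z : Fin g → ℂ) (n : Fin g → ℤ) : ℂ :=
  π * I * (∑ i, ∑ j, ((n i : ℂ) + ε i) * τ i j * ((n j : ℂ) + ε j)) +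
    2 * π * I * ∑ i, ((n i : ℂ) + ε i) * z i

/-- theta function with characteristic `ε` -/
noncomputable def thc (τ : MM g) (ε : Fin g → ℝ) (z : Fin g → ℂ) : ℂ := ∑' n, cexp (ex τ ε z n)

/-- lower bound for the imaginary part -/
def LB (c : ℝ) (τ : MM g) : Prop :=
  ∀ x : Fin g → ℝ, c * ∑ i, x i ^ 2 ≤ ∑ i, ∑ j, x i * (τ i j).im * x j

theorem re_ex (τ : MM g) (ε : Fin g → ℝ) (z : Fin g → ℂ) (n : Fin g → ℤ) :
    (ex τ ε z n).re = -(π * ∑ i, ∑ j, ((n i : ℝ) + ε i) * (τ i j).im * ((n j : ℝ) + ε j)) -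
      2 * π * ∑ i, ((n i : ℝ) + ε i) * (z i).im := by
  unfold ex
  have e1 : (∑ i, ∑ j, ((n i : ℂ) + ε i) * τ i j * ((n j : ℂ) + ε j)).im =
      ∑ i, ∑ j, ((n i : ℝ) + ε i) * (τ i j).im * ((n j : ℝ) + ε j) := by
    rw [Complex.im_sum]
    refine Finset.sum_congr rfl fun i _ => ?_
    rw [Complex.im_sum]
    refine Finset.sum_congr rfl fun j _ => ?_
    have : ((n i : ℂ) + ε i) * τ i j * ((n j : ℂ) + ε j) =
        (((((n i : ℝ) + ε i) * ((n j : ℝ) + ε j) : ℝ)) : ℂ) * τ i j := by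
      push_cast; ring
    rw [this, Complex.im_ofReal_mul]
    ring
  have e2 : (∑ i, ((n i : ℂ) + ε i) * z i).im = ∑ i, ((n i : ℝ) + ε i) * (z i).im := by
    rw [Complex.im_sum]
    refine Finset.sum_congr rfl fun i _ => ?_
    have : ((n i : ℂ) + ε i) * z i = (((n i : ℝ) + ε i : ℝ) : ℂ) * z i := by push_cast; ring
    rw [this, Complex.im_ofReal_mul]
  rw [Complex.add_re, ← e1, ← e2]
  generalize (∑ i, ∑ j, ((n i : ℂ) + ε i) * τ i j * ((n j : ℂ) + ε j)) = S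
  generalize (∑ i, ((n i : ℂ) + ε i) * z i) = T
  simp [Complex.mul_re, Complex.mul_im]
  ring

/-- the majorant -/
noncomputable def bd (c r : ℝ) (ε : Fin g → ℝ) (n : Fin g → ℤ) : ℝ :=
  ∏ i, (Real.exp (2 * π * r ^ 2 / c + π * c * ε i ^ 2 / 2) * Real.exp (-π * (c / 4 * (n i : ℝ) ^ 2)))

theorem summable_gauss {c : ℝ} (hc : 0 < c) :
    Summable fun n : ℤ => Real.exp (-π * (c * (n : ℝ) ^ 2)) := by
  have := summable_pow_mul_jacobiTheta₂_term_bound 0 hc 0
  refine this.congr fun n => ?_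
  simp

theorem summable_bd {c : ℝ} (hc : 0 < c) (r : ℝ) (ε : Fin g → ℝ) : Summable (bd c r ε) := by
  have h := (Pool.Agent.N139.Th.tsum_prod_fin g (fun i n =>
    ((Real.exp (2 * π * r ^ 2 / c + π * c * ε i ^ 2 / 2) *
      Real.exp (-π * (c / 4 * (n : ℝ) ^ 2)) : ℝ) : ℂ)) (fun i => by
        have h1 := (summable_gauss (c := c / 4) (by positivity)).mul_left
          (Real.exp (2 * π * r ^ 2 / c + π * c * ε i ^ 2 / 2))
        refine h1.congr fun n => ?_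
        rw [Complex.norm_real, Real.norm_of_nonneg (by positivity)])).1
  refine h.congr fun n => ?_
  unfold bd
  rw [norm_prod]
  refine Finset.prod_congr rfl fun i _ => ?_
  rw [Complex.norm_real, Real.norm_of_nonneg (by positivity)]

theorem norm_le_bd {c r : ℝ} (hc : 0 < c) (_hr : 0 ≤ r) {τ : MM g} (hτ : LB c τ) (ε : Fin g → ℝ)
    {z : Fin g → ℂ} (hz : ∀ i, |(z i).im| ≤ r) (n : Fin g → ℤ) :
    ‖cexp (ex τ ε z n)‖ ≤ bd c r ε n := by
  rw [Complex.norm_exp, re_ex]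
  unfold bd
  simp_rw [← Real.exp_add]
  rw [← Real.exp_sum, Real.exp_le_exp]
  have h1 := hτ fun i => (n i : ℝ) + ε i
  have hpi := Real.pi_pos
  have h2 : ∀ i, -(π * (c * ((n i : ℝ) + ε i) ^ 2)) - 2 * π * (((n i : ℝ) + ε i) * (z i).im) ≤
      2 * π * r ^ 2 / c + π * c * ε i ^ 2 / 2 + -π * (c / 4 * (n i : ℝ) ^ 2) := by
    intro i
    set x := (n i : ℝ) + ε i with hx
    have h3 : -(x * (z i).im) ≤ |x| * r := by
      calc -(x * (z i).im) ≤ |x * (z i).im| := neg_le_abs _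
        _ = |x| * |(z i).im| := abs_mul _ _
        _ ≤ |x| * r := by gcongr; exact hz i
    have h4 : 2 * (|x| * r) ≤ c * x ^ 2 / 2 + 2 * r ^ 2 / c := by
      have h5 : 0 ≤ (c * |x| - 2 * r) ^ 2 / (2 * c) := by positivity
      have h6 : (c * |x| - 2 * r) ^ 2 / (2 * c) = c * x ^ 2 / 2 + 2 * r ^ 2 / c - 2 * (|x| * r) := by
        rw [← sq_abs x]
        field_simp
        ring
      linarith
    have h7 : (n i : ℝ) ^ 2 / 2 - ε i ^ 2 ≤ x ^ 2 := by
      rw [hx]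
      nlinarith [sq_nonneg ((n i : ℝ) + 2 * ε i)]
    have h8 : -(c * x ^ 2) - 2 * (x * (z i).im) ≤ 2 * r ^ 2 / c - c * x ^ 2 / 2 := by
      linarith
    have h9 : -(c * x ^ 2) - 2 * (x * (z i).im) ≤
        2 * r ^ 2 / c + c * ε i ^ 2 / 2 - c / 4 * (n i : ℝ) ^ 2 := by
      nlinarith
    calc -(π * (c * x ^ 2)) - 2 * π * (x * (z i).im) = π * (-(c * x ^ 2) - 2 * (x * (z i).im)) := by
          ring
      _ ≤ π * (2 * r ^ 2 / c + c * ε i ^ 2 / 2 - c / 4 * (n i : ℝ) ^ 2) := by gcongr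
      _ = _ := by ring
  calc -(π * ∑ i, ∑ j, ((n i : ℝ) + ε i) * (τ i j).im * ((n j : ℝ) + ε j)) -
      2 * π * ∑ i, ((n i : ℝ) + ε i) * (z i).im ≤
      -(π * (c * ∑ i, ((n i : ℝ) + ε i) ^ 2)) - 2 * π * ∑ i, ((n i : ℝ) + ε i) * (z i).im := by
        gcongr
    _ = ∑ i, (-(π * (c * ((n i : ℝ) + ε i) ^ 2)) - 2 * π * (((n i : ℝ) + ε i) * (z i).im)) := by
        rw [Finset.sum_sub_distrib, Finset.mul_sum, Finset.mul_sum, Finset.mul_sum,
          Finset.sum_neg_distrib]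
    _ ≤ _ := Finset.sum_le_sum fun i _ => h2 i

theorem exists_im_bound (z : Fin g → ℂ) : ∃ r : ℝ, 0 ≤ r ∧ ∀ i, |(z i).im| ≤ r :=
  ⟨‖z‖, norm_nonneg _, fun i => (Complex.abs_im_le_norm _).trans (norm_le_pi_norm z i)⟩

theorem summable_thc {c : ℝ} (hc : 0 < c) {τ : MM g} (hτ : LB c τ) (ε : Fin g → ℝ)
    (z : Fin g → ℂ) : Summable fun n => cexp (ex τ ε z n) := by
  obtain ⟨r, hr, hz⟩ := exists_im_bound z
  exact Summable.of_norm_bounded (summable_bd hc r ε) (norm_le_bd hc hr hτ ε hz)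

theorem LB_near {c : ℝ} (hc : 0 < c) {τ : MM g} (hτ : LB c τ) {τ' : MM g}
    (h : ∀ i j, ‖τ' i j - τ i j‖ ≤ c / (2 * (g + 1))) : LB (c / 2) τ' := by
  intro x
  have h1 := hτ x
  have h2 : |∑ i, ∑ j, x i * (τ' i j).im * x j - ∑ i, ∑ j, x i * (τ i j).im * x j| ≤
      c / (2 * (g + 1)) * (∑ i, |x i|) ^ 2 := by
    rw [← Finset.sum_sub_distrib]
    simp_rw [← Finset.sum_sub_distrib]
    calc |∑ i, ∑ j, (x i * (τ' i j).im * x j - x i * (τ i j).im * x j)| ≤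
        ∑ i, |∑ j, (x i * (τ' i j).im * x j - x i * (τ i j).im * x j)| :=
          Finset.abs_sum_le_sum_abs _ _
      _ ≤ ∑ i, ∑ j, |x i * (τ' i j).im * x j - x i * (τ i j).im * x j| :=
          Finset.sum_le_sum fun i _ => Finset.abs_sum_le_sum_abs _ _
      _ ≤ ∑ i, ∑ j, c / (2 * (g + 1)) * (|x i| * |x j|) := by
          refine Finset.sum_le_sum fun i _ => Finset.sum_le_sum fun j _ => ?_
          have e : x i * (τ' i j).im * x j - x i * (τ i j).im * x j =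
              (τ' i j - τ i j).im * (x i * x j) := by
            rw [Complex.sub_im]; ring
          rw [e, abs_mul, abs_mul]
          gcongr
          exact (Complex.abs_im_le_norm _).trans (h i j)
      _ = _ := by
          rw [sq, Finset.sum_mul_sum, Finset.mul_sum]
          refine Finset.sum_congr rfl fun i _ => ?_
          rw [Finset.mul_sum]
  have h3 : (∑ i, |x i|) ^ 2 ≤ g * ∑ i, x i ^ 2 := by
    have := sq_sum_le_card_mul_sum_sq (s := (Finset.univ : Finset (Fin g))) (f := fun i => |x i|)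
    simpa using this
  have h4 : c / (2 * (g + 1)) * (∑ i, |x i|) ^ 2 ≤ c / 2 * ∑ i, x i ^ 2 := by
    have hs : 0 ≤ ∑ i, x i ^ 2 := Finset.sum_nonneg fun i _ => sq_nonneg _
    calc c / (2 * (g + 1)) * (∑ i, |x i|) ^ 2 ≤ c / (2 * (g + 1)) * (g * ∑ i, x i ^ 2) := by gcongr
      _ = c / 2 * (g / (g + 1)) * ∑ i, x i ^ 2 := by field_simp
      _ ≤ c / 2 * 1 * ∑ i, x i ^ 2 := by
        gcongr
        rw [div_le_one (by positivity)]
        linarith
      _ = _ := by ring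
  rw [abs_le] at h2
  linarith [h2.1]

theorem thc_diffAt {c : ℝ} (hc : 0 < c) {τ₀ : MM g} (hτ : LB c τ₀) (ε : Fin g → ℝ)
    (z₀ : Fin g → ℂ) :
    DifferentiableAt ℂ (fun p : MM g × (Fin g → ℂ) => thc p.1 ε p.2) (τ₀, z₀) := by
  set ρ : ℝ := min (c / (2 * (g + 1))) 1 with hρ
  have hρ0 : 0 < ρ := lt_min (by positivity) one_pos
  obtain ⟨u, hu⟩ := exists_seq_tendsto (atTop : Filter (Finset (Fin g → ℤ)))
  have hbd : ∀ n, ∀ p ∈ ball (τ₀, z₀) ρ, ‖cexp (ex p.1 ε p.2 n)‖ ≤ bd (c / 2) (‖z₀‖ + 1) ε n := by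
    intro n p hp
    rw [mem_ball, Prod.dist_eq, max_lt_iff, dist_eq_norm, dist_eq_norm] at hp
    refine norm_le_bd (by positivity) (by positivity) (LB_near hc hτ fun i j => ?_) ε (fun i => ?_) n
    · have h1 : ‖(p.1 - τ₀) i j‖ ≤ ‖p.1 - τ₀‖ := (norm_le_pi_norm _ j).trans (norm_le_pi_norm _ i)
      exact h1.trans (hp.1.le.trans (min_le_left _ _))
    · have h1 : ‖p.2‖ ≤ ‖z₀‖ + 1 := by
        have h3 : ‖p.2 - z₀‖ ≤ 1 := hp.2.le.trans (min_le_right _ _)
        calc ‖p.2‖ = ‖z₀ + (p.2 - z₀)‖ := by rw [add_sub_cancel]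
          _ ≤ ‖z₀‖ + ‖p.2 - z₀‖ := norm_add_le _ _
          _ ≤ _ := by linarith
      exact (Complex.abs_im_le_norm _).trans ((norm_le_pi_norm p.2 i).trans h1)
  have hunif := (tendstoUniformlyOn_tsum (summable_bd (c := c / 2) (by positivity) (‖z₀‖ + 1) ε)
    (f := fun n (p : MM g × (Fin g → ℂ)) => cexp (ex p.1 ε p.2 n)) (s := ball (τ₀, z₀) ρ) hbd)
  have hunif2 : TendstoUniformlyOn (fun N (p : MM g × (Fin g → ℂ)) =>
      ∑ n ∈ u N, cexp (ex p.1 ε p.2 n)) (fun p => thc p.1 ε p.2) atTop (ball (τ₀, z₀) ρ) := by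
    intro v hv
    exact hu.eventually (hunif v hv)
  have hd := differentiableOn_of_uniform_limit (fun N => by
    have : Differentiable ℂ fun p : MM g × (Fin g → ℂ) => ∑ n ∈ u N, cexp (ex p.1 ε p.2 n) := by
      unfold ex
      fun_prop
    exact this.differentiableOn) hunif2
  exact (hd (τ₀, z₀) (mem_ball_self (by positivity))).differentiableAt
    (isOpen_ball.mem_nhds (mem_ball_self (by positivity)))

theorem thc_diff_z {c : ℝ} (hc : 0 < c) {τ : MM g} (hτ : LB c τ) (ε : Fin g → ℝ) :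
    Differentiable ℂ (fun z => thc τ ε z) := by
  intro z
  have h1 := thc_diffAt hc hτ ε z
  have h2 : DifferentiableAt ℂ (fun z : Fin g → ℂ => (τ, z)) z := by fun_prop
  exact DifferentiableAt.comp z h1 h2

end Run7.h92
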