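import Pool.Agent.Run7.h92.Bern

/-!
# Dyadic levels
-/

namespace Run7.h92

open Matrix Complex Filter Topology

variable {J : ℕ}

/-- divisibility by a power of two -/
def Dy (i : ℕ) (k : ZMod (2 ^ J)) : Prop := (2 : ZMod (2 ^ J)) ^ (J - i) * k = 0

instance decDy (i : ℕ) (k : ZMod (2 ^ J)) : Decidable (Dy i k) := by
  unfold Dy
  infer_instance

theorem two_pow_J : (2 : ZMod (2 ^ J)) ^ J = 0 := by
  have : ((2 ^ J : ℕ) : ZMod (2 ^ J)) = 0 := ZMod.natCast_self _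
  push_cast at this
  exact this

theorem dy_zero (k : ZMod (2 ^ J)) : Dy 0 k := by
  unfold Dy
  rw [Nat.sub_zero, two_pow_J, zero_mul]

theorem dy_top (k : ZMod (2 ^ J)) : Dy J k ↔ k = 0 := by
  unfold Dy
  rw [Nat.sub_self, pow_zero, one_mul]

theorem dy_mono {i i' : ℕ} (h : i ≤ i') {k : ZMod (2 ^ J)} (hk : Dy i' k) : Dy i k := by
  unfold Dy at hk ⊢
  have e : J - i = (J - i - (J - i')) + (J - i') := by omega
  rw [e, pow_add, mul_assoc, hk, mul_zero]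

theorem dy_two {t : ℕ} (h1 : 1 ≤ t) (h2 : t ≤ J) (k : ZMod (2 ^ J)) : Dy t (2 * k) ↔ Dy (t - 1) k := by
  unfold Dy
  have e : J - (t - 1) = (J - t) + 1 := by omega
  rw [e, pow_succ, mul_assoc]

theorem pow_two_val {i : ℕ} (hi : i ≤ J) {c : ℕ} (hc : c < 2 ^ i) :
    (((2 ^ (J - i) * c : ℕ) : ZMod (2 ^ J))).val = 2 ^ (J - i) * c := by
  apply ZMod.val_natCast_of_lt
  have e : 2 ^ J = 2 ^ (J - i) * 2 ^ i := by rw [← pow_add]; congr 1; omega
  rw [e]
  exact Nat.mul_lt_mul_of_pos_left hc (by positivity)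

/-- sums over the subgroup of elements killed by a power of two -/
theorem sum_sub {M : Type*} [AddCommMonoid M] {i : ℕ} (hi : i ≤ J) (F : ZMod (2 ^ J) → M) :
    (∑ δ : ZMod (2 ^ J), if (2 : ZMod (2 ^ J)) ^ i * δ = 0 then F δ else 0) =
      ∑ c ∈ Finset.range (2 ^ i), F ((2 ^ (J - i) * c : ℕ) : ZMod (2 ^ J)) := by
  classical
  rw [← Finset.sum_filter]
  symm
  refine Finset.sum_bij (fun c _ => ((2 ^ (J - i) * c : ℕ) : ZMod (2 ^ J))) ?_ ?_ ?_ ?_
  · intro c _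
    rw [Finset.mem_filter]
    refine ⟨Finset.mem_univ _, ?_⟩
    push_cast
    rw [← mul_assoc, ← pow_add, show i + (J - i) = J by omega, two_pow_J, zero_mul]
  · intro c hc c' hc' h
    have h1 := congrArg ZMod.val h
    rw [pow_two_val hi (Finset.mem_range.1 hc), pow_two_val hi (Finset.mem_range.1 hc')] at h1
    exact Nat.eq_of_mul_eq_mul_left (by positivity) h1
  · intro δ hδ
    have h1 := (Finset.mem_filter.1 hδ).2
    have h2 : ((2 ^ i * δ.val : ℕ) : ZMod (2 ^ J)) = 0 := by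
      push_cast
      rw [ZMod.natCast_zmod_val]
      exact h1
    rw [ZMod.natCast_eq_zero_iff] at h2
    have e : 2 ^ J = 2 ^ i * 2 ^ (J - i) := by rw [← pow_add]; congr 1; omega
    conv at h2 => lhs; rw [e]
    obtain ⟨c, hc⟩ := Nat.dvd_of_mul_dvd_mul_left (by positivity) h2
    refine ⟨c, ?_, ?_⟩
    · rw [Finset.mem_range]
      have h3 : δ.val < 2 ^ J := δ.val_lt
      rw [hc, e, mul_comm (2 ^ i)] at h3
      exact Nat.lt_of_mul_lt_mul_left h3
    · rw [← hc, ZMod.natCast_zmod_val]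
  · intro c _
    rfl

theorem ps_pow (a : ZMod (2 ^ J)) (c : ℕ) : ps ((c : ZMod (2 ^ J)) * a) = ps a ^ c := by
  induction c with
  | zero => simp [ps_zero]
  | succ c ih =>
    push_cast
    rw [add_mul, one_mul, ps_add, ih, pow_succ]

theorem U_sum {i : ℕ} (hi : i ≤ J) (v : ZMod (2 ^ J)) :
    (∑ δ : ZMod (2 ^ J), if (2 : ZMod (2 ^ J)) ^ i * δ = 0 then ps (v * δ) else 0) =
      if (2 : ZMod (2 ^ J)) ^ (J - i) * v = 0 then (2 : ℂ) ^ i else 0 := by
  classical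
  rw [sum_sub hi]
  have h1 : ∀ c : ℕ, ps (v * ((2 ^ (J - i) * c : ℕ) : ZMod (2 ^ J))) =
      ps ((2 : ZMod (2 ^ J)) ^ (J - i) * v) ^ c := by
    intro c
    rw [← ps_pow]
    congr 1
    push_cast
    ring
  simp_rw [h1]
  split_ifs with h
  · rw [h, ps_zero]
    simp
  · have h2 : ps ((2 : ZMod (2 ^ J)) ^ (J - i) * v) ≠ 1 := ps_ne_one h
    have h3 : ps ((2 : ZMod (2 ^ J)) ^ (J - i) * v) ^ (2 ^ i) = 1 := by
      rw [← ps_pow]
      have : (((2 ^ i : ℕ) : ZMod (2 ^ J))) * ((2 : ZMod (2 ^ J)) ^ (J - i) * v) = 0 := by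
        push_cast
        rw [← mul_assoc, ← pow_add, show i + (J - i) = J by omega, two_pow_J, zero_mul]
      rw [this, ps_zero]
    have h4 := geom_sum_mul (ps ((2 : ZMod (2 ^ J)) ^ (J - i) * v)) (2 ^ i)
    rw [h3, sub_self] at h4
    exact (mul_eq_zero.1 h4).resolve_right (sub_ne_zero.2 h2)

theorem sum_sq_half (m : ℕ) (hm : 0 < m) :
    ∑ c ∈ Finset.range m, ((1 : ℝ) / 2 - (c : ℝ) / (m : ℝ)) ^ 2 = (m : ℝ) / 12 + 1 / (6 * (m : ℝ)) := by
  have key : ∀ (c : ℝ), c ≠ 0 → ∀ m : ℕ, ∑ i ∈ Finset.range m, (1 / 2 - (i : ℝ) / c) ^ 2 =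
      m / 4 - (m : ℝ) * (m - 1) / (2 * c) + (m : ℝ) * (m - 1) * (2 * m - 1) / (6 * c ^ 2) := by
    intro c hc m
    induction m with
    | zero => simp
    | succ m ih =>
      rw [Finset.sum_range_succ, ih]
      push_cast
      field_simp
      ring
  have hm' : (m : ℝ) ≠ 0 := by exact_mod_cast hm.ne'
  rw [key _ hm']
  field_simp
  ring

/-- the mass of the Fourier coefficients on the subgroup -/
noncomputable def Gm (J i : ℕ) : ℝ := (1 / 6) * ((1 / 4) ^ i - (1 / 4) ^ J)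

theorem gh_sub {i : ℕ} (hi : i ≤ J) :
    ∑ k ∈ (Finset.univ.erase (0 : ZMod (2 ^ J))), (if Dy i k then (gh k).re else 0) =
      (2 : ℝ) ^ J * Gm J i := by
  have h1 : ∑ k : ZMod (2 ^ J), (if Dy i k then gh k else 0) =
      (((2 : ℝ) ^ J * (1 / 12 + 1 / (6 * 4 ^ i)) : ℝ) : ℂ) := by
    have h2 : (∑ δ : ZMod (2 ^ J), if (2 : ZMod (2 ^ J)) ^ i * δ = 0 then (gf δ : ℂ) else 0) =
        ((2 ^ i / 12 + 1 / (6 * 2 ^ i) : ℝ) : ℂ) := by
      rw [sum_sub hi]
      have h3 : ∀ c ∈ Finset.range (2 ^ i), ((gf ((2 ^ (J - i) * c : ℕ) : ZMod (2 ^ J)) : ℝ) : ℂ) =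
          (((1 / 2 - (c : ℝ) / ((2 ^ i : ℕ) : ℝ)) ^ 2 : ℝ) : ℂ) := by
        intro c hc
        unfold gf
        rw [pow_two_val hi (Finset.mem_range.1 hc)]
        congr 3
        have e : ((2 ^ J : ℕ) : ℝ) = 2 ^ (J - i) * 2 ^ i := by
          rw [← pow_add]
          push_cast
          congr 1
          omega
        rw [e]
        push_cast
        field_simp
      rw [Finset.sum_congr rfl h3, ← Complex.ofReal_sum, sum_sq_half _ (by positivity)]
      push_cast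
      rfl
    have h4 : (∑ δ : ZMod (2 ^ J), if (2 : ZMod (2 ^ J)) ^ i * δ = 0 then (gf δ : ℂ) else 0) =
        1 / (2 ^ J : ℕ) * ∑ k : ZMod (2 ^ J), gh k * (if Dy i k then (2 : ℂ) ^ i else 0) := by
      have h5 : ∀ δ : ZMod (2 ^ J), (if (2 : ZMod (2 ^ J)) ^ i * δ = 0 then (gf δ : ℂ) else 0) =
          ∑ k : ZMod (2 ^ J), 1 / (2 ^ J : ℕ) * (gh k *
            (if (2 : ZMod (2 ^ J)) ^ i * δ = 0 then ps (k * δ) else 0)) := by
        intro δ
        split_ifs with h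
        · rw [gf_inv δ, Finset.mul_sum]
          refine Finset.sum_congr rfl fun k _ => ?_
          rw [mul_comm δ k]
        · simp
      simp_rw [h5]
      rw [Finset.sum_comm, Finset.mul_sum]
      refine Finset.sum_congr rfl fun k _ => ?_
      rw [← Finset.mul_sum, ← Finset.mul_sum, U_sum hi]
      unfold Dy
      rfl
    rw [h2] at h4
    have h6 : ∑ k : ZMod (2 ^ J), gh k * (if Dy i k then (2 : ℂ) ^ i else 0) =
        (2 : ℂ) ^ i * ∑ k : ZMod (2 ^ J), (if Dy i k then gh k else 0) := by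
      rw [Finset.mul_sum]
      refine Finset.sum_congr rfl fun k _ => ?_
      split_ifs <;> ring
    rw [h6] at h4
    have h7 : ((2 : ℂ) ^ J) ≠ 0 := pow_ne_zero _ two_ne_zero
    have h8 : ((2 : ℂ) ^ i) ≠ 0 := pow_ne_zero _ two_ne_zero
    have h9 : ∑ k : ZMod (2 ^ J), (if Dy i k then gh k else 0) = ((2 : ℂ) ^ J / 2 ^ i) *
        (1 / (2 ^ J : ℕ) * ((2 : ℂ) ^ i * ∑ k : ZMod (2 ^ J), (if Dy i k then gh k else 0))) := by
      push_cast
      field_simp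
    rw [h9, ← h4]
    have e4 : (4 : ℝ) ^ i = 2 ^ i * 2 ^ i := by rw [← mul_pow]; norm_num
    rw [e4]
    push_cast
    field_simp
  have h2 : ∑ k : ZMod (2 ^ J), (if Dy i k then (gh k).re else 0) =
      (2 : ℝ) ^ J * (1 / 12 + 1 / (6 * 4 ^ i)) := by
    have h3 := congrArg Complex.re h1
    rw [Complex.re_sum, Complex.ofReal_re] at h3
    rw [← h3]
    refine Finset.sum_congr rfl fun k _ => ?_
    split_ifs <;> simp
  rw [← Finset.add_sum_erase _ _ (Finset.mem_univ (0 : ZMod (2 ^ J)))] at h2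
  have h3 : Dy i (0 : ZMod (2 ^ J)) := by
    unfold Dy
    rw [mul_zero]
  rw [if_pos h3, gh_zero, Complex.ofReal_re] at h2
  unfold Gm
  have e5 : (((2 ^ J : ℕ) : ℝ)) = 2 ^ J := by push_cast; rfl
  rw [e5] at h2
  have e4 : (4 : ℝ) ^ J = 2 ^ J * 2 ^ J := by rw [← mul_pow]; norm_num
  have h4 : ∑ k ∈ (Finset.univ.erase (0 : ZMod (2 ^ J))), (if Dy i k then (gh k).re else 0) =
      (2 : ℝ) ^ J * (1 / 12 + 1 / (6 * 4 ^ i)) - (2 ^ J / 12 + 1 / (6 * 2 ^ J)) := by linarith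
  rw [h4, _root_.one_div_pow, _root_.one_div_pow, e4]
  field_simp
  ring

end Run7.h92
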