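import Pool.Agent.Run7.h92.Tor1

/-!
# Dyadic levels: the weighted formula and annihilators
-/

namespace Run7.h92

open Matrix Complex Filter Topology

variable {J : ℕ}

theorem dy_formula (hJ : 1 ≤ J) {ι : Type*} (s : Finset ι) (w : ι → ℝ) (y : ι → ZMod (2 ^ J)) :
    ∑ x ∈ s, w x * gf (y x) = (∑ x ∈ s, w x) * (1 / 12 + 1 / (6 * 4 ^ J)) +
      (1 / 2 ^ J) * ∑ k ∈ Finset.univ.erase (0 : ZMod (2 ^ J)),
        (gh k).re * (∑ x ∈ s, (w x : ℂ) * ps (y x * k)).re := by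
  have hN : 2 ≤ 2 ^ J := by
    calc 2 = 2 ^ 1 := rfl
      _ ≤ 2 ^ J := Nat.pow_le_pow_right (by norm_num) hJ
  have h1 : ((∑ x ∈ s, w x * gf (y x) : ℝ) : ℂ) =
      1 / (2 ^ J : ℕ) * ∑ k, gh k * ∑ x ∈ s, (w x : ℂ) * ps (y x * k) := by
    push_cast
    have e : ∀ x, (w x : ℂ) * (gf (y x) : ℂ) =
        ∑ k, 1 / (2 ^ J : ℕ) * (gh k * ((w x : ℂ) * ps (y x * k))) := by
      intro x
      rw [gf_inv (y x), Finset.mul_sum, Finset.mul_sum]
      refine Finset.sum_congr rfl fun k _ => ?_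
      ring
    simp_rw [e, Finset.mul_sum]
    rw [Finset.sum_comm]
    push_cast
    rfl
  have h2 : ∑ x ∈ s, w x * gf (y x) = (1 / 2 ^ J) *
      (∑ k, gh k * ∑ x ∈ s, (w x : ℂ) * ps (y x * k)).re := by
    have h3 := congrArg Complex.re h1
    rw [Complex.ofReal_re] at h3
    rw [h3]
    have e5 : (1 / ((2 ^ J : ℕ) : ℂ)) = ((1 / 2 ^ J : ℝ) : ℂ) := by push_cast; rfl
    rw [e5, Complex.re_ofReal_mul]
  rw [h2, ← Finset.add_sum_erase _ _ (Finset.mem_univ (0 : ZMod (2 ^ J))), Complex.add_re,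
    Complex.re_sum, mul_add]
  congr 1
  · rw [gh_zero]
    simp only [mul_zero, ps_zero, mul_one]
    rw [← Complex.ofReal_sum, ← Complex.ofReal_mul, Complex.ofReal_re]
    have e4 : (4 : ℝ) ^ J = 2 ^ J * 2 ^ J := by rw [← mul_pow]; norm_num
    rw [e4]
    push_cast
    field_simp
  · congr 1
    refine Finset.sum_congr rfl fun k hk => ?_
    obtain ⟨-, g2⟩ := gh_pos hN (Finset.mem_erase.1 hk).1
    rw [Complex.mul_re, g2, zero_mul, sub_zero]

/-- the weighted inequality with a profile of three levels -/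
theorem dy_ineq (hJ : 1 ≤ J) {ι : Type*} (s : Finset ι) (w : ι → ℝ) (y : ι → ZMod (2 ^ J))
    (hS : 0 ≤ ∑ x ∈ s, w x) (a1 a2 a3 : ℝ) {i1 i2 i3 : ℕ} (h1 : i1 ≤ J) (h2 : i2 ≤ J) (h3 : i3 ≤ J)
    (ha : -((1 / 6) * (1 / 4) ^ J) ≤ a1 * Gm J i1 + a2 * Gm J i2 + a3 * Gm J i3)
    (hP : ∀ k : ZMod (2 ^ J), k ≠ 0 → (∑ x ∈ s, w x) * ((if Dy i1 k then a1 else 0) +
      (if Dy i2 k then a2 else 0) + (if Dy i3 k then a3 else 0)) ≤
        (∑ x ∈ s, (w x : ℂ) * ps (y x * k)).re) :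
    (∑ x ∈ s, w x) / 12 ≤ ∑ x ∈ s, w x * gf (y x) := by
  have hN : 2 ≤ 2 ^ J := by
    calc 2 = 2 ^ 1 := rfl
      _ ≤ 2 ^ J := Nat.pow_le_pow_right (by norm_num) hJ
  rw [dy_formula hJ]
  set S := ∑ x ∈ s, w x with hSd
  have h4 : S * ((2 : ℝ) ^ J * (a1 * Gm J i1 + a2 * Gm J i2 + a3 * Gm J i3)) ≤
      ∑ k ∈ Finset.univ.erase (0 : ZMod (2 ^ J)),
        (gh k).re * (∑ x ∈ s, (w x : ℂ) * ps (y x * k)).re := by
    have e1 : S * ((2 : ℝ) ^ J * (a1 * Gm J i1 + a2 * Gm J i2 + a3 * Gm J i3)) =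
        ∑ k ∈ Finset.univ.erase (0 : ZMod (2 ^ J)), (gh k).re * (S * ((if Dy i1 k then a1 else 0) +
          (if Dy i2 k then a2 else 0) + (if Dy i3 k then a3 else 0))) := by
      have e2 : ∀ k : ZMod (2 ^ J), (gh k).re * (S * ((if Dy i1 k then a1 else 0) +
          (if Dy i2 k then a2 else 0) + (if Dy i3 k then a3 else 0))) =
          S * (a1 * (if Dy i1 k then (gh k).re else 0) + a2 * (if Dy i2 k then (gh k).re else 0) +
            a3 * (if Dy i3 k then (gh k).re else 0)) := by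
        intro k
        split_ifs <;> ring
      simp_rw [e2]
      rw [← Finset.mul_sum, Finset.sum_add_distrib, Finset.sum_add_distrib, ← Finset.mul_sum,
        ← Finset.mul_sum, ← Finset.mul_sum, gh_sub h1, gh_sub h2, gh_sub h3]
      ring
    rw [e1]
    refine Finset.sum_le_sum fun k hk => ?_
    have hk0 := (Finset.mem_erase.1 hk).1
    exact mul_le_mul_of_nonneg_left (hP k hk0) (gh_pos hN hk0).1
  have h5 : (0 : ℝ) < 2 ^ J := by positivity
  have h6 : S * (a1 * Gm J i1 + a2 * Gm J i2 + a3 * Gm J i3) ≤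
      (1 / 2 ^ J) * ∑ k ∈ Finset.univ.erase (0 : ZMod (2 ^ J)),
        (gh k).re * (∑ x ∈ s, (w x : ℂ) * ps (y x * k)).re := by
    rw [one_div, inv_mul_eq_div, le_div_iff₀ h5]
    refine le_trans (le_of_eq ?_) h4
    ring
  have h7 := mul_le_mul_of_nonneg_left ha hS
  rw [_root_.one_div_pow] at h7
  have h8 : S * -(1 / 6 * (1 / 4 ^ J)) = -(S * (1 / (6 * 4 ^ J))) := by
    field_simp
  rw [h8] at h7
  have h9 : S * (1 / 12 + 1 / (6 * 4 ^ J)) = S / 12 + S * (1 / (6 * 4 ^ J)) := by ring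
  rw [h9]
  linarith

/-- the exact version -/
theorem dy_eq (hJ : 1 ≤ J) {ι : Type*} (s : Finset ι) (w : ι → ℝ) (y : ι → ZMod (2 ^ J))
    (hP : ∀ k : ZMod (2 ^ J), k ≠ 0 → (∑ x ∈ s, (w x : ℂ) * ps (y x * k)).re =
      (∑ x ∈ s, w x) * (-(1 / 3) + (if Dy 1 k then 4 / 3 else 0))) :
    ∑ x ∈ s, w x * gf (y x) = (∑ x ∈ s, w x) / 12 := by
  rw [dy_formula hJ]
  set S := ∑ x ∈ s, w x with hSd
  have e1 : ∑ k ∈ Finset.univ.erase (0 : ZMod (2 ^ J)),
        (gh k).re * (∑ x ∈ s, (w x : ℂ) * ps (y x * k)).re =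
      S * ((2 : ℝ) ^ J * (-(1 / 3) * Gm J 0 + 4 / 3 * Gm J 1)) := by
    have e2 : ∀ k ∈ Finset.univ.erase (0 : ZMod (2 ^ J)),
        (gh k).re * (∑ x ∈ s, (w x : ℂ) * ps (y x * k)).re =
          S * (-(1 / 3) * (if Dy 0 k then (gh k).re else 0) +
            4 / 3 * (if Dy 1 k then (gh k).re else 0)) := by
      intro k hk
      rw [hP k (Finset.mem_erase.1 hk).1, if_pos (dy_zero k)]
      split_ifs <;> ring
    rw [Finset.sum_congr rfl e2, ← Finset.mul_sum, Finset.sum_add_distrib, ← Finset.mul_sum,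
      ← Finset.mul_sum, gh_sub (Nat.zero_le _), gh_sub hJ]
    ring
  rw [e1]
  unfold Gm
  have h5 : (0 : ℝ) < 2 ^ J := by positivity
  have e3 : ((1 : ℝ) / 4) ^ J = 1 / 4 ^ J := _root_.one_div_pow _ _
  rw [e3]
  field_simp
  ring

theorem ann_single (g : ZMod (2 ^ J)) : ∃ b ≤ J, ∀ k : ZMod (2 ^ J),
    k * g = 0 ↔ (2 : ZMod (2 ^ J)) ^ b * k = 0 := by
  by_cases hg : g = 0
  · exact ⟨J, le_rfl, fun k => by rw [hg, mul_zero, two_pow_J, zero_mul]⟩
  · have hv : g.val ≠ 0 := fun h => hg ((ZMod.val_eq_zero g).1 h)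
    obtain ⟨b, q, hq, hb⟩ := Nat.exists_eq_two_pow_mul_odd hv
    have hgv : g = (2 : ZMod (2 ^ J)) ^ b * (q : ZMod (2 ^ J)) := by
      rw [← ZMod.natCast_zmod_val g, hb]
      push_cast
      rfl
    have hu : IsUnit (q : ZMod (2 ^ J)) := by
      rw [ZMod.isUnit_iff_coprime]
      exact Nat.Coprime.pow_right _ (Nat.coprime_two_right.2 hq)
    refine ⟨b, ?_, ?_⟩
    · by_contra hlt
      push Not at hlt
      apply hg
      have e : b = J + (b - J) := by omega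
      rw [hgv, e, pow_add, two_pow_J, zero_mul, zero_mul]
    · intro k
      rw [hgv, show k * ((2 : ZMod (2 ^ J)) ^ b * (q : ZMod (2 ^ J))) =
        ((2 : ZMod (2 ^ J)) ^ b * k) * q by ring]
      exact hu.mul_left_eq_zero

theorem ann_fin {κ : Type*} [Fintype κ] (G : κ → ZMod (2 ^ J)) :
    ∃ t ≤ J, ∀ k : ZMod (2 ^ J), (∀ m, k * G m = 0) ↔ Dy t k := by
  classical
  have key : ∀ S : Finset κ, ∃ b ≤ J, ∀ k : ZMod (2 ^ J), (∀ m ∈ S, k * G m = 0) ↔
      (2 : ZMod (2 ^ J)) ^ b * k = 0 := by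
    intro S
    induction S using Finset.induction_on with
    | empty =>
      refine ⟨J, le_rfl, fun k => ?_⟩
      rw [two_pow_J, zero_mul]
      simp
    | insert m S hm ih =>
      obtain ⟨b, hb, h1⟩ := ih
      obtain ⟨b', hb', h2⟩ := ann_single (G m)
      have hmul : ∀ {b b' : ℕ}, b ≤ b' → ∀ k : ZMod (2 ^ J), (2 : ZMod (2 ^ J)) ^ b * k = 0 →
          (2 : ZMod (2 ^ J)) ^ b' * k = 0 := by
        intro b b' hbb k hk
        have e : b' = (b' - b) + b := by omega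
        rw [e, pow_add, mul_assoc, hk, mul_zero]
      refine ⟨min b b', (min_le_left _ _).trans hb, fun k => ?_⟩
      rw [Finset.forall_mem_insert, h1, h2]
      constructor
      · rintro ⟨h3, h4⟩
        rcases min_choice b b' with h | h <;> rw [h]
        · exact h4
        · exact h3
      · intro h3
        exact ⟨hmul (min_le_right _ _) k h3, hmul (min_le_left _ _) k h3⟩
  obtain ⟨b, hb, h1⟩ := key Finset.univ
  refine ⟨J - b, Nat.sub_le _ _, fun k => ?_⟩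
  unfold Dy
  rw [Nat.sub_sub_self hb]
  simpa using h1 k

end Run7.h92
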