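import Pool.Agent.Run7.h92.Tor1

/-!
# The toric weights
-/

namespace Run7.h92

open Matrix Complex Filter Topology

variable {J g r : ℕ}

/-- joining toric and inner coordinates -/
def jn {α : Type*} {g : ℕ} : (r : ℕ) → (Fin r → α) → (Fin g → α) → Fin (g + r) → α
  | 0, _, y => y
  | r + 1, a, y => (Fin.cons (a 0) (jn r (fun i => a i.succ) y) : Fin (g + r + 1) → α)

/-- toric coordinates -/
def hdv {α : Type*} {g : ℕ} : (r : ℕ) → (Fin (g + r) → α) → Fin r → α
  | 0, _ => fun i => i.elim0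
  | r + 1, m => (Fin.cons (m (0 : Fin (g + r + 1))) (hdv r fun i => m (Fin.succ i : Fin (g + r + 1))) :
      Fin (r + 1) → α)

/-- inner coordinates -/
def tlv {α : Type*} {g : ℕ} : (r : ℕ) → (Fin (g + r) → α) → Fin g → α
  | 0, m => m
  | r + 1, m => tlv r fun i => m (Fin.succ i : Fin (g + r + 1))

theorem hdv_jn {α : Type*} (r : ℕ) (a : Fin r → α) (y : Fin g → α) : hdv r (jn r a y) = a := by
  induction r with
  | zero => funext i; exact i.elim0
  | succ r ih =>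
    funext i
    refine Fin.cases rfl (fun i => ?_) i
    exact congrFun (ih (fun i => a i.succ)) i

theorem tlv_jn {α : Type*} (r : ℕ) (a : Fin r → α) (y : Fin g → α) : tlv r (jn r a y) = y := by
  induction r with
  | zero => rfl
  | succ r ih => exact ih (fun i => a i.succ)

theorem jn_hdv_tlv {α : Type*} (r : ℕ) (m : Fin (g + r) → α) : jn r (hdv r m) (tlv r m) = m := by
  induction r with
  | zero => rfl
  | succ r ih =>
    funext i
    refine Fin.cases rfl (fun i => ?_) i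
    exact congrFun (ih (fun i => m (Fin.succ i : Fin (g + r + 1)))) i

theorem dot_jn {R : Type*} [CommRing R] (r : ℕ) (u : Fin (g + r) → R) (a : Fin r → R) (y : Fin g → R) :
    u ⬝ᵥ jn r a y = hdv r u ⬝ᵥ a + tlv r u ⬝ᵥ y := by
  induction r with
  | zero =>
    simp [dotProduct, jn, tlv]
  | succ r ih =>
    have h1 : u ⬝ᵥ jn (r + 1) a y = u (0 : Fin (g + r + 1)) * a 0 +
        (fun i : Fin (g + r) => u (Fin.succ i : Fin (g + r + 1))) ⬝ᵥ jn r (fun i => a i.succ) y := by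
      unfold dotProduct
      exact Fin.sum_univ_succ (n := g + r) _
    have h2 : hdv (r + 1) u ⬝ᵥ a = u (0 : Fin (g + r + 1)) * a 0 +
        hdv r (fun i => u (Fin.succ i : Fin (g + r + 1))) ⬝ᵥ fun i => a i.succ := by
      unfold dotProduct
      exact Fin.sum_univ_succ _
    rw [h1, ih, h2]
    exact (add_assoc _ _ _).symm

/-- weights of the toric arguments -/
def cw (J : ℕ) (b : Bool) (j : ℕ) (δ : ZMod (2 ^ J)) : ℕ :=
  if b then (if (2 : ZMod (2 ^ J)) ^ j * δ = 0 ∧ (2 : ZMod (2 ^ J)) ^ (j - 1) * δ ≠ 0 then 2 else 0)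
  else (if (2 : ZMod (2 ^ J)) ^ j * δ = 0 then 1 else 0)

/-- their Fourier transform -/
noncomputable def chh (J : ℕ) (b : Bool) (j : ℕ) (v : ZMod (2 ^ J)) : ℂ :=
  ∑ δ : ZMod (2 ^ J), (cw J b j δ : ℂ) * ps (v * δ)

theorem chh_false {j : ℕ} (hj : j ≤ J) (v : ZMod (2 ^ J)) :
    chh J false j v = if Dy j v then (2 : ℂ) ^ j else 0 := by
  unfold chh Dy
  rw [← U_sum hj]
  refine Finset.sum_congr rfl fun δ _ => ?_
  unfold cw
  split_ifs <;> simp_all

theorem chh_true {j : ℕ} (hj1 : 1 ≤ j) (hj : j ≤ J) (v : ZMod (2 ^ J)) :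
    chh J true j v = if Dy j v then (2 : ℂ) ^ j else if Dy (j - 1) v then -(2 : ℂ) ^ j else 0 := by
  have h1 : chh J true j v = 2 * ((∑ δ : ZMod (2 ^ J), if (2 : ZMod (2 ^ J)) ^ j * δ = 0 then
      ps (v * δ) else 0) - ∑ δ : ZMod (2 ^ J), if (2 : ZMod (2 ^ J)) ^ (j - 1) * δ = 0 then
      ps (v * δ) else 0) := by
    unfold chh
    rw [← Finset.sum_sub_distrib, Finset.mul_sum]
    refine Finset.sum_congr rfl fun δ _ => ?_
    unfold cw
    by_cases h2 : (2 : ZMod (2 ^ J)) ^ (j - 1) * δ = 0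
    · have h3 : (2 : ZMod (2 ^ J)) ^ j * δ = 0 := by
        have e : j = 1 + (j - 1) := by omega
        rw [e, pow_add, mul_assoc, h2, mul_zero]
      simp [h2, h3]
    · by_cases h3 : (2 : ZMod (2 ^ J)) ^ j * δ = 0
      · simp [h2, h3]
      · simp [h2, h3]
  rw [h1, U_sum hj, U_sum (show j - 1 ≤ J by omega)]
  have e : (2 : ℂ) ^ j = 2 * 2 ^ (j - 1) := by
    rw [← pow_succ']
    congr 1
    omega
  by_cases h2 : Dy j v
  · have h3 : Dy (j - 1) v := dy_mono (Nat.sub_le _ _) h2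
    unfold Dy at h2 h3 ⊢
    rw [if_pos h2, if_pos h3, if_pos h2, e]
    ring
  · by_cases h3 : Dy (j - 1) v
    · unfold Dy at h2 h3 ⊢
      rw [if_neg h2, if_pos h3, if_neg h2, if_pos h3, e]
      ring
    · unfold Dy at h2 h3 ⊢
      rw [if_neg h2, if_neg h3, if_neg h2, if_neg h3]
      ring

theorem norm_chh_le {j : ℕ} (hj1 : 1 ≤ j) (hj : j ≤ J) (b : Bool) (v : ZMod (2 ^ J)) :
    ‖chh J b j v‖ ≤ 2 ^ j := by
  cases b with
  | false =>
    rw [chh_false hj]
    split_ifs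
    · simp
    · simp
  | true =>
    rw [chh_true hj1 hj]
    split_ifs
    · simp
    · simp
    · simp

/-- the toric factor -/
noncomputable def At (J : ℕ) (jl : Fin r → ℕ) (e o : Fin r → Bool) (a b : Fin r → ZMod (2 ^ J))
    (k : ZMod (2 ^ J)) : ℂ :=
  ∏ i, (ps (k * a i * (if e i then (2 : ZMod (2 ^ J)) ^ (J - 1) else 0)) * chh J (o i) (jl i) (k * b i))

theorem At_norm (jl : Fin r → ℕ) (h1 : ∀ i, 1 ≤ jl i) (h2 : ∀ i, jl i ≤ J) (e o : Fin r → Bool)
    (a b : Fin r → ZMod (2 ^ J)) (k : ZMod (2 ^ J)) : ‖At J jl e o a b k‖ ≤ ∏ i, (2 : ℝ) ^ jl i := by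
  unfold At
  rw [norm_prod]
  refine Finset.prod_le_prod (fun i _ => norm_nonneg _) fun i _ => ?_
  rw [norm_mul, norm_ps, one_mul]
  exact norm_chh_le (h1 i) (h2 i) _ _

theorem At_zero (jl : Fin r → ℕ) (h1 : ∀ i, 1 ≤ jl i) (h2 : ∀ i, jl i ≤ J) (e o : Fin r → Bool)
    (a b : Fin r → ZMod (2 ^ J)) (k : ZMod (2 ^ J)) (i : Fin r)
    (h : ¬ Dy (jl i - 1) (k * b i) ∨ (o i = false ∧ ¬ Dy (jl i) (k * b i))) : At J jl e o a b k = 0 := by
  unfold At
  apply Finset.prod_eq_zero (Finset.mem_univ i)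
  have h3 : ¬ Dy (jl i) (k * b i) := by
    rcases h with h | h
    · exact fun h4 => h (dy_mono (Nat.sub_le _ _) h4)
    · exact h.2
  have h4 : chh J (o i) (jl i) (k * b i) = 0 := by
    rcases h with h | h
    · cases hb : o i with
      | false => rw [chh_false (h2 i), if_neg h3]
      | true => rw [chh_true (h1 i) (h2 i), if_neg h3, if_neg h]
    · rw [h.1, chh_false (h2 i), if_neg h3]
  rw [h4, mul_zero]

theorem At_full (jl : Fin r → ℕ) (h1 : ∀ i, 1 ≤ jl i) (h2 : ∀ i, jl i ≤ J) (e o : Fin r → Bool)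
    (a b : Fin r → ZMod (2 ^ J)) (k : ZMod (2 ^ J)) (h : ∀ i, Dy (jl i) (k * b i)) :
    At J jl e o a b k = ((∏ i, (2 : ℝ) ^ jl i : ℝ) : ℂ) *
      ∏ i, ps (k * a i * (if e i then (2 : ZMod (2 ^ J)) ^ (J - 1) else 0)) := by
  unfold At
  rw [Finset.prod_mul_distrib, mul_comm]
  congr 1
  push_cast
  refine Finset.prod_congr rfl fun i _ => ?_
  cases hb : o i with
  | false => rw [chh_false (h2 i), if_pos (h i)]
  | true => rw [chh_true (h1 i) (h2 i), if_pos (h i)]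

theorem At_full_even (jl : Fin r → ℕ) (h1 : ∀ i, 1 ≤ jl i) (h2 : ∀ i, jl i ≤ J) (e o : Fin r → Bool)
    (a b : Fin r → ZMod (2 ^ J)) (k : ZMod (2 ^ J)) (h : ∀ i, Dy (jl i) (k * b i)) (hk : Dy 1 k) :
    At J jl e o a b k = ((∏ i, (2 : ℝ) ^ jl i : ℝ) : ℂ) := by
  rw [At_full jl h1 h2 e o a b k h]
  have : ∀ i, ps (k * a i * (if e i then (2 : ZMod (2 ^ J)) ^ (J - 1) else 0)) = 1 := by
    intro i
    split_ifs
    · have : k * a i * (2 : ZMod (2 ^ J)) ^ (J - 1) = (2 ^ (J - 1) * k) * a i := by ring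
      unfold Dy at hk
      rw [this, hk, zero_mul, ps_zero]
    · rw [mul_zero, ps_zero]
  rw [Finset.prod_congr rfl fun i _ => this i, Finset.prod_const_one, mul_one]

/-- the sum over toric arguments -/
theorem sum_toric (jl : Fin r → ℕ) (e o : Fin r → Bool) (a b : Fin r → ZMod (2 ^ J))
    (k : ZMod (2 ^ J)) :
    ∑ δ : Fin r → ZMod (2 ^ J), ((∏ i, cw J (o i) (jl i) (δ i) : ℕ) : ℂ) *
      ps (k * (a ⬝ᵥ (fun i => if e i then (2 : ZMod (2 ^ J)) ^ (J - 1) else 0) + b ⬝ᵥ δ)) =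
        At J jl e o a b k := by
  have hps : ∀ (f : Fin r → ZMod (2 ^ J)), ps (∑ i, f i) = ∏ i, ps (f i) := by
    intro f
    induction (Finset.univ : Finset (Fin r)) using Finset.induction_on with
    | empty => simp [ps_zero]
    | insert i s hi ih => rw [Finset.sum_insert hi, Finset.prod_insert hi, ps_add, ih]
  unfold At
  have h1 : ∀ i, ps (k * a i * (if e i then (2 : ZMod (2 ^ J)) ^ (J - 1) else 0)) *
      chh J (o i) (jl i) (k * b i) = ∑ δ : ZMod (2 ^ J), (cw J (o i) (jl i) δ : ℂ) *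
        ps (k * (a i * (if e i then (2 : ZMod (2 ^ J)) ^ (J - 1) else 0) + b i * δ)) := by
    intro i
    unfold chh
    rw [Finset.mul_sum]
    refine Finset.sum_congr rfl fun δ _ => ?_
    rw [show k * (a i * (if e i then (2 : ZMod (2 ^ J)) ^ (J - 1) else 0) + b i * δ) =
      k * a i * (if e i then (2 : ZMod (2 ^ J)) ^ (J - 1) else 0) + k * b i * δ by ring, ps_add]
    ring
  simp_rw [h1]
  rw [Finset.prod_univ_sum, Fintype.piFinset_univ]
  refine Finset.sum_congr rfl fun δ _ => ?_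
  rw [Finset.prod_mul_distrib, ← hps]
  push_cast
  congr 2
  unfold dotProduct
  rw [← Finset.sum_add_distrib, Finset.mul_sum]

end Run7.h92
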