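import Pool.Agent.Run7.h92.Prd
import Pool.Agent.Run7.h92.Tor3

/-!
# The toric weights: Fourier transform
-/

namespace Run7.h92

open Matrix Complex Filter Topology

variable {J g r a : ℕ}

theorem ps_natCast {N : ℕ} [NeZero N] (m : ℕ) : ps ((m : ℕ) : ZMod N) = cexp (2 * Real.pi * I * m / N) := by
  unfold ps
  have := ZMod.stdAddChar_coe (N := N) (m : ℤ)
  push_cast at this
  exact this

theorem ps_half (hJ : 1 ≤ J) : ps ((2 : ZMod (2 ^ J)) ^ (J - 1)) = -1 := by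
  have h1 : (2 : ZMod (2 ^ J)) ^ (J - 1) = ((2 ^ (J - 1) : ℕ) : ZMod (2 ^ J)) := by push_cast; rfl
  rw [h1, ps_natCast, ← Complex.exp_pi_mul_I]
  congr 1
  have e : ((2 ^ J : ℕ) : ℂ) = 2 ^ (J - 1) * 2 := by
    push_cast
    rw [← pow_succ]
    congr 1
    omega
  rw [e]
  have : (2 : ℂ) ^ (J - 1) ≠ 0 := pow_ne_zero _ two_ne_zero
  push_cast
  field_simp

theorem half_mul_odd (hJ : 1 ≤ J) {k : ZMod (2 ^ J)} (hk : ¬ Dy 1 k) :
    (2 : ZMod (2 ^ J)) ^ (J - 1) * k = 2 ^ (J - 1) := by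
  rcases Nat.even_or_odd k.val with h | h
  · exfalso
    apply hk
    obtain ⟨m, hm⟩ := h
    unfold Dy
    rw [← ZMod.natCast_zmod_val k, hm]
    push_cast
    have : (2 : ZMod (2 ^ J)) ^ (J - 1) * ((m : ZMod (2 ^ J)) + m) =
        (2 ^ (J - 1) * 2) * m := by ring
    rw [this, ← pow_succ, show J - 1 + 1 = J by omega, two_pow_J, zero_mul]
  · obtain ⟨m, hm⟩ := h
    rw [← ZMod.natCast_zmod_val k, hm]
    push_cast
    have : (2 : ZMod (2 ^ J)) ^ (J - 1) * (2 * (m : ZMod (2 ^ J)) + 1) =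
        (2 ^ (J - 1) * 2) * m + 2 ^ (J - 1) := by ring
    rw [this, ← pow_succ, show J - 1 + 1 = J by omega, two_pow_J, zero_mul, zero_add]

/-- reduction of the level -/
def rdc (ha : a ≤ J) : ZMod (2 ^ J) →+* ZMod (2 ^ a) := ZMod.castHom (pow_dvd_pow 2 ha) _

theorem rdc_val (ha : a ≤ J) (v : ZMod (2 ^ J)) : rdc ha v = ((v.val : ℕ) : ZMod (2 ^ a)) := by
  conv_lhs => rw [← ZMod.natCast_zmod_val v]
  rw [map_natCast]

theorem rdc_zero_iff (ha : a ≤ J) (v : ZMod (2 ^ J)) : rdc ha v = 0 ↔ Dy a v := by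
  rw [rdc_val, ZMod.natCast_eq_zero_iff]
  unfold Dy
  have h1 : (2 : ZMod (2 ^ J)) ^ (J - a) * v = ((2 ^ (J - a) * v.val : ℕ) : ZMod (2 ^ J)) := by
    push_cast
    rw [ZMod.natCast_zmod_val]
  rw [h1, ZMod.natCast_eq_zero_iff]
  have e : 2 ^ J = 2 ^ (J - a) * 2 ^ a := by rw [← pow_add]; congr 1; omega
  conv_rhs => lhs; rw [e]
  exact (Nat.mul_dvd_mul_iff_left (by positivity)).symm

theorem ps_rdc (ha : a ≤ J) (v : ZMod (2 ^ J)) (y : ZMod (2 ^ a)) :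
    ps (v * ((2 : ZMod (2 ^ J)) ^ (J - a) * ((y.val : ℕ) : ZMod (2 ^ J)))) = ps (rdc ha v * y) := by
  have h1 : v * ((2 : ZMod (2 ^ J)) ^ (J - a) * ((y.val : ℕ) : ZMod (2 ^ J))) =
      ((v.val * (2 ^ (J - a) * y.val) : ℕ) : ZMod (2 ^ J)) := by
    push_cast
    rw [ZMod.natCast_zmod_val]
  have h2 : rdc ha v * y = ((v.val * y.val : ℕ) : ZMod (2 ^ a)) := by
    rw [rdc_val]
    push_cast
    rw [ZMod.natCast_zmod_val]
  rw [h1, h2, ps_natCast, ps_natCast]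
  congr 1
  have e : ((2 ^ J : ℕ) : ℂ) = 2 ^ (J - a) * 2 ^ a := by
    push_cast
    rw [← pow_add]
    congr 1
    omega
  rw [e]
  have h3 : (2 : ℂ) ^ (J - a) ≠ 0 := pow_ne_zero _ two_ne_zero
  have h4 : (2 : ℂ) ^ a ≠ 0 := pow_ne_zero _ two_ne_zero
  push_cast
  field_simp

theorem ps_sum {N : ℕ} [NeZero N] {ι : Type*} (s : Finset ι) (f : ι → ZMod N) :
    ps (∑ i ∈ s, f i) = ∏ i ∈ s, ps (f i) := by
  classical
  induction s using Finset.induction_on with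
  | empty => simp [ps_zero]
  | insert i s hi ih => rw [Finset.sum_insert hi, Finset.prod_insert hi, ps_add, ih]

/-- rescaled vectors -/
def sc (J : ℕ) (y : Fin g → ZMod (2 ^ a)) : Fin g → ZMod (2 ^ J) :=
  fun i => (2 : ZMod (2 ^ J)) ^ (J - a) * (((y i).val : ℕ) : ZMod (2 ^ J))

theorem ps_inner (ha : a ≤ J) (k : ZMod (2 ^ J)) (u1 u2 : Fin g → ZMod (2 ^ J)) (y : CN (2 ^ a) g) :
    ps (k * (u1 ⬝ᵥ sc J y.1 + u2 ⬝ᵥ sc J y.2)) =
      ps (dp ((fun i => rdc ha (k * u1 i), fun i => rdc ha (k * u2 i)) : CN (2 ^ a) g) y) := by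
  unfold dp dotProduct sc
  rw [mul_add, ps_add, ps_add, Finset.mul_sum, Finset.mul_sum, ps_sum, ps_sum, ps_sum, ps_sum]
  simp only
  congr 1
  · refine Finset.prod_congr rfl fun i _ => ?_
    rw [← ps_rdc ha, mul_assoc]
  · refine Finset.prod_congr rfl fun i _ => ?_
    rw [← ps_rdc ha, mul_assoc]

/-- the parameter space -/
abbrev Om (J a r g : ℕ) := (Fin r → Bool) × (Fin r → ZMod (2 ^ J)) × CN (2 ^ a) g

/-- the map to torsion points -/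
def emb (J : ℕ) (p : Om J a r g) : CN (2 ^ J) (g + r) :=
  (jn r (fun i => if p.1 i then (2 : ZMod (2 ^ J)) ^ (J - 1) else 0) (sc J p.2.2.1),
    jn r p.2.1 (sc J p.2.2.2))

/-- the weights on the parameter space -/
def om (J : ℕ) (P : (Fin r → Bool) → ℕ) (o : (Fin r → Bool) → Fin r → Bool) (jl : Fin r → ℕ)
    (W : (Fin r → Bool) → CN (2 ^ a) g → ℕ)
    (p : Om J a r g) : ℕ := P p.1 * (∏ i, cw J (o p.1 i) (jl i) (p.2.1 i)) * W p.1 p.2.2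

/-- the inner factor -/
noncomputable def Wh (ha : a ≤ J) (W : CN (2 ^ a) g → ℕ) (u1 u2 : Fin g → ZMod (2 ^ J))
    (k : ZMod (2 ^ J)) : ℂ :=
  ∑ y, (W y : ℂ) * ps (dp ((fun i => rdc ha (k * u1 i), fun i => rdc ha (k * u2 i)) : CN (2 ^ a) g) y)

/-- the phase -/
noncomputable def phs (J : ℕ) {g : ℕ} (u : CN (2 ^ J) g) (k : ZMod (2 ^ J)) : ℂ :=
  ps ((((2 ^ (J - 1) : ℕ) : ZMod (2 ^ J)) * (u.1 ⬝ᵥ u.2) + ((2 ^ (J - 1) : ℕ) : ZMod (2 ^ J))) * k)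

theorem T_eq (ha : a ≤ J) (P : (Fin r → Bool) → ℕ) (o : (Fin r → Bool) → Fin r → Bool)
    (jl : Fin r → ℕ)
    (W : (Fin r → Bool) → CN (2 ^ a) g → ℕ) (u : CN (2 ^ J) (g + r)) (k : ZMod (2 ^ J)) :
    ∑ p : Om J a r g, (om J P o jl W p : ℂ) * ps (bq (2 ^ (J - 1)) u (emb J p) * k) =
      phs J u k * ∑ e, (P e : ℂ) * At J jl e (o e) (hdv r u.1) (hdv r u.2) k *
        Wh ha (W e) (tlv r u.1) (tlv r u.2) k := by
  rw [Fintype.sum_prod_type, Finset.mul_sum]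
  refine Finset.sum_congr rfl fun e _ => ?_
  rw [← sum_toric, Fintype.sum_prod_type]
  unfold Wh
  rw [show ∀ A B C D : ℂ, A * (B * C * D) = A * B * (C * D) by intros; ring, Finset.sum_mul_sum,
    Finset.mul_sum]
  refine Finset.sum_congr rfl fun δ _ => ?_
  rw [Finset.mul_sum]
  refine Finset.sum_congr rfl fun y _ => ?_
  rw [← ps_inner ha]
  have h1 : bq (2 ^ (J - 1)) u (emb J (e, δ, y)) * k =
      (((2 ^ (J - 1) : ℕ) : ZMod (2 ^ J)) * (u.1 ⬝ᵥ u.2) + ((2 ^ (J - 1) : ℕ) : ZMod (2 ^ J))) * k +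
      (k * (hdv r u.1 ⬝ᵥ (fun i => if e i then (2 : ZMod (2 ^ J)) ^ (J - 1) else 0) +
        hdv r u.2 ⬝ᵥ δ) + k * (tlv r u.1 ⬝ᵥ sc J y.1 + tlv r u.2 ⬝ᵥ sc J y.2)) := by
    unfold bq dp emb
    simp only
    rw [dot_jn, dot_jn]
    ring
  rw [h1, ps_add, ps_add]
  unfold phs om
  push_cast
  ring

theorem Wh_norm (ha : a ≤ J) (W : CN (2 ^ a) g → ℕ) (u1 u2 : Fin g → ZMod (2 ^ J))
    (k : ZMod (2 ^ J)) : ‖Wh ha W u1 u2 k‖ ≤ ∑ y, (W y : ℝ) := by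
  unfold Wh
  exact norm_le_sum _ _

theorem Wh_full (ha : a ≤ J) (W : CN (2 ^ a) g → ℕ) (u1 u2 : Fin g → ZMod (2 ^ J))
    (k : ZMod (2 ^ J)) (h1 : ∀ i, Dy a (k * u1 i)) (h2 : ∀ i, Dy a (k * u2 i)) :
    Wh ha W u1 u2 k = ((∑ y, (W y : ℝ) : ℝ) : ℂ) := by
  unfold Wh
  have e : ((fun i => rdc ha (k * u1 i), fun i => rdc ha (k * u2 i)) : CN (2 ^ a) g) = 0 :=
    Prod.ext (funext fun i => (rdc_zero_iff ha _).2 (h1 i)) (funext fun i => (rdc_zero_iff ha _).2 (h2 i))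
  rw [e]
  push_cast
  refine Finset.sum_congr rfl fun y _ => ?_
  have : dp (0 : CN (2 ^ a) g) y = 0 := by unfold dp; simp
  rw [this, ps_zero, mul_one]

theorem Wh_small (ha : a ≤ J) {W : CN (2 ^ a) g → ℕ} (hW : QQ W) (u1 u2 : Fin g → ZMod (2 ^ J))
    (k : ZMod (2 ^ J)) (h : (∃ i, ¬ Dy a (k * u1 i)) ∨ ∃ i, ¬ Dy a (k * u2 i)) :
    ‖Wh ha W u1 u2 k‖ * ((4 : ℝ) ^ a - 1) ≤ ∑ y, (W y : ℝ) := by
  unfold Wh
  have h1 := hW ((fun i => rdc ha (k * u1 i), fun i => rdc ha (k * u2 i)) : CN (2 ^ a) g) (by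
    intro h0
    rcases h with ⟨i, hi⟩ | ⟨i, hi⟩
    · exact hi ((rdc_zero_iff ha _).1 (congrFun (congrArg Prod.fst h0) i))
    · exact hi ((rdc_zero_iff ha _).1 (congrFun (congrArg Prod.snd h0) i)))
  have e : (((2 ^ a : ℕ) : ℝ)) ^ 2 = 4 ^ a := by
    push_cast
    rw [← pow_mul, mul_comm, pow_mul]
    norm_num
  rw [e] at h1
  exact h1

end Run7.h92
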