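import Pool.Agent.Run7.h92.Tor4

/-!
# The toric weights: the inequality
-/

namespace Run7.h92

open Matrix Complex Filter Topology

variable {J g r a : ℕ}

/-- the sign pairing -/
def sg (b e : Fin r → Bool) : ℝ := ∏ i, if b i && e i then (-1 : ℝ) else 1

/-- the data of toric weights -/
structure TorD (J a r g : ℕ) where
  hJ : 1 ≤ J
  ha1 : 1 ≤ a
  ha : a ≤ J
  P : (Fin r → Bool) → ℕ
  o : (Fin r → Bool) → Fin r → Bool
  jl : Fin r → ℕ
  h1 : ∀ i, 1 ≤ jl i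
  h2 : ∀ i, jl i ≤ J
  W : (Fin r → Bool) → CN (2 ^ a) g → ℕ
  K : ℕ
  hK : ∀ e, ∑ y, W e y = K
  hQ : ∀ e, QQ (W e)
  c1 : ∀ i, 3 * ∑ e, (if o e i then (P e : ℝ) else 0) ≤ ∑ e, (P e : ℝ)
  c2 : ∀ b : Fin r → Bool, b ≠ (fun _ => false) → 3 * ∑ e, (P e : ℝ) * sg b e ≤ ∑ e, (P e : ℝ)

namespace TorD

variable (D : TorD J a r g)

/-- total mass of the first factor -/
noncomputable def S : ℝ := ∑ e, (D.P e : ℝ)

/-- total mass of the toric factor -/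
noncomputable def C : ℝ := ∏ i, (2 : ℝ) ^ D.jl i

theorem S_nonneg : 0 ≤ D.S := Finset.sum_nonneg fun _ _ => Nat.cast_nonneg _

theorem C_pos : 0 < D.C := Finset.prod_pos fun _ _ => by positivity

/-- the Fourier transform -/
noncomputable def T (u : CN (2 ^ J) (g + r)) (k : ZMod (2 ^ J)) : ℂ :=
  phs J u k * ∑ e, (D.P e : ℂ) * At J D.jl e (D.o e) (hdv r u.1) (hdv r u.2) k *
        Wh D.ha (D.W e) (tlv r u.1) (tlv r u.2) k

theorem norm_phs (u : CN (2 ^ J) (g + r)) (k : ZMod (2 ^ J)) : ‖phs J u k‖ = 1 := norm_ps _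

theorem phs_even (u : CN (2 ^ J) (g + r)) {k : ZMod (2 ^ J)} (hk : Dy 1 k) : phs J u k = 1 := by
  unfold phs
  unfold Dy at hk
  have : (((2 ^ (J - 1) : ℕ) : ZMod (2 ^ J)) * (u.1 ⬝ᵥ u.2) + ((2 ^ (J - 1) : ℕ) : ZMod (2 ^ J))) * k =
      ((2 : ZMod (2 ^ J)) ^ (J - 1) * k) * ((u.1 ⬝ᵥ u.2) + 1) := by
    push_cast
    ring
  rw [this, hk, zero_mul, ps_zero]

theorem T_le {u : CN (2 ^ J) (g + r)} {k : ZMod (2 ^ J)} {B : ℝ}
    (hB : ∀ e, ‖Wh D.ha (D.W e) (tlv r u.1) (tlv r u.2) k‖ ≤ B) : ‖D.T u k‖ ≤ D.S * D.C * B := by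
  unfold T
  rw [norm_mul, norm_phs, one_mul]
  have e : D.S * D.C * B = ∑ e, (D.P e : ℝ) * D.C * B := by
    unfold S
    rw [Finset.sum_mul, Finset.sum_mul]
  rw [e]
  refine (norm_sum_le _ _).trans (Finset.sum_le_sum fun e _ => ?_)
  rw [norm_mul, norm_mul, Complex.norm_natCast]
  have h3 := At_norm D.jl D.h1 D.h2 e (D.o e) (hdv r u.1) (hdv r u.2) k
  have h4 : 0 ≤ (D.P e : ℝ) := Nat.cast_nonneg _
  exact mul_le_mul (mul_le_mul_of_nonneg_left h3 h4) (hB e) (norm_nonneg _)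
    (mul_nonneg h4 D.C_pos.le)

theorem T_le3 {u : CN (2 ^ J) (g + r)} {k : ZMod (2 ^ J)} {B : ℝ}
    (hB : ∀ e, ‖Wh D.ha (D.W e) (tlv r u.1) (tlv r u.2) k‖ ≤ B) (i : Fin r)
    (hi : ¬ Dy (D.jl i) (k * hdv r u.2 i)) : ‖D.T u k‖ ≤ D.S / 3 * D.C * B := by
  have hB0 : 0 ≤ B := (norm_nonneg _).trans (hB fun _ => false)
  unfold T
  rw [norm_mul, norm_phs, one_mul]
  have h5 : ‖∑ e, (D.P e : ℂ) * At J D.jl e (D.o e) (hdv r u.1) (hdv r u.2) k *
        Wh D.ha (D.W e) (tlv r u.1) (tlv r u.2) k‖ ≤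
      ∑ e : Fin r → Bool, (if D.o e i then (D.P e : ℝ) else 0) * D.C * B := by
    refine (norm_sum_le _ _).trans (Finset.sum_le_sum fun e _ => ?_)
    rw [norm_mul, norm_mul, Complex.norm_natCast]
    have h4 : 0 ≤ (D.P e : ℝ) := Nat.cast_nonneg _
    cases hb : D.o e i with
    | false =>
      rw [At_zero D.jl D.h1 D.h2 e (D.o e) (hdv r u.1) (hdv r u.2) k i (Or.inr ⟨hb, hi⟩)]
      simp
    | true =>
      have h3 := At_norm D.jl D.h1 D.h2 e (D.o e) (hdv r u.1) (hdv r u.2) k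
      rw [if_pos rfl]
      exact mul_le_mul (mul_le_mul_of_nonneg_left h3 h4) (hB e) (norm_nonneg _)
        (mul_nonneg h4 D.C_pos.le)
  refine h5.trans ?_
  rw [← Finset.sum_mul, ← Finset.sum_mul]
  have h6 := D.c1 i
  have h7 : ∑ e, (if D.o e i then (D.P e : ℝ) else 0) ≤ D.S / 3 := by
    unfold S
    linarith
  exact mul_le_mul_of_nonneg_right (mul_le_mul_of_nonneg_right h7 D.C_pos.le) hB0

theorem T_zero {u : CN (2 ^ J) (g + r)} {k : ZMod (2 ^ J)} (i : Fin r)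
    (hi : ¬ Dy (D.jl i - 1) (k * hdv r u.2 i)) : D.T u k = 0 := by
  unfold T
  rw [Finset.sum_eq_zero, mul_zero]
  intro e _
  rw [At_zero D.jl D.h1 D.h2 e (D.o e) (hdv r u.1) (hdv r u.2) k i (Or.inl hi)]
  ring

theorem T_one {u : CN (2 ^ J) (g + r)} {k : ZMod (2 ^ J)} (hk : Dy 1 k)
    (h3 : ∀ i, Dy (D.jl i) (k * hdv r u.2 i)) (h4 : ∀ i, Dy a (k * tlv r u.1 i))
    (h5 : ∀ i, Dy a (k * tlv r u.2 i)) : D.T u k = ((D.S * D.C * D.K : ℝ) : ℂ) := by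
  unfold T
  rw [phs_even u hk, one_mul]
  have e : ∀ e, (D.P e : ℂ) * At J D.jl e (D.o e) (hdv r u.1) (hdv r u.2) k *
        Wh D.ha (D.W e) (tlv r u.1) (tlv r u.2) k = (((D.P e : ℝ) * D.C * D.K : ℝ) : ℂ) := by
    intro e
    rw [At_full_even D.jl D.h1 D.h2 e (D.o e) _ _ k h3 hk, Wh_full D.ha _ _ _ k h4 h5]
    have : (∑ y, (D.W e y : ℝ)) = D.K := by
      rw [← D.hK e]
      push_cast
      rfl
    rw [this]
    unfold C
    push_cast
    rfl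
  simp_rw [e]
  rw [← Complex.ofReal_sum]
  congr 1
  unfold S
  rw [Finset.sum_mul, Finset.sum_mul]

theorem sum_om : ∑ p : Om J a r g, (om J D.P D.o D.jl D.W p : ℝ) = D.S * D.C * D.K := by
  have h3 := T_eq D.ha D.P D.o D.jl D.W (0 : CN (2 ^ J) (g + r)) 0
  have h4 : D.T (0 : CN (2 ^ J) (g + r)) 0 = ((D.S * D.C * D.K : ℝ) : ℂ) := by
    refine D.T_one ?_ (fun i => ?_) (fun i => ?_) fun i => ?_
    · unfold Dy; rw [mul_zero]
    · unfold Dy; rw [zero_mul, mul_zero]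
    · unfold Dy; rw [zero_mul, mul_zero]
    · unfold Dy; rw [zero_mul, mul_zero]
  unfold T at h4
  rw [h4] at h3
  simp only [mul_zero, ps_zero, mul_one] at h3
  have h5 : ((∑ p : Om J a r g, (om J D.P D.o D.jl D.W p : ℝ) : ℝ) : ℂ) = ((D.S * D.C * D.K : ℝ) : ℂ) := by
    rw [← h3]
    push_cast
    rfl
  exact_mod_cast h5

/-- the bias constant -/
noncomputable def et (a : ℕ) : ℝ := 1 / ((4 : ℝ) ^ a - 1)

theorem four_pow (ha1 : 1 ≤ a) : (4 : ℝ) ≤ 4 ^ a := by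
  calc (4 : ℝ) = 4 ^ 1 := by norm_num
    _ ≤ 4 ^ a := pow_le_pow_right₀ (by norm_num) ha1

theorem et_pos (ha1 : 1 ≤ a) : 0 < et a := by
  have := four_pow ha1
  unfold et
  apply one_div_pos.2
  linarith

theorem et_le (ha1 : 1 ≤ a) : et a ≤ 1 := by
  have := four_pow ha1
  unfold et
  rw [div_le_one (by linarith)]
  linarith

theorem Wh_et (u1 u2 : Fin g → ZMod (2 ^ J)) (k : ZMod (2 ^ J))
    (h : (∃ i, ¬ Dy a (k * u1 i)) ∨ ∃ i, ¬ Dy a (k * u2 i)) (e : Fin r → Bool) :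
    ‖Wh D.ha (D.W e) u1 u2 k‖ ≤ et a * D.K := by
  have h3 := Wh_small D.ha (D.hQ e) u1 u2 k h
  have h4 := four_pow D.ha1
  have h5 : (∑ y, (D.W e y : ℝ)) = D.K := by
    rw [← D.hK e]
    push_cast
    rfl
  rw [h5] at h3
  unfold et
  rw [one_div, inv_mul_eq_div, le_div_iff₀ (by linarith)]
  exact h3

theorem Wh_K (u1 u2 : Fin g → ZMod (2 ^ J)) (k : ZMod (2 ^ J)) (e : Fin r → Bool) :
    ‖Wh D.ha (D.W e) u1 u2 k‖ ≤ D.K := by
  refine (Wh_norm D.ha _ _ _ _).trans (le_of_eq ?_)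
  rw [← D.hK e]
  push_cast
  rfl

theorem dy_pow_le {s : ℕ} (hs : s ≤ J) (h : Dy s ((2 : ZMod (2 ^ J)) ^ a)) : s ≤ a := by
  unfold Dy at h
  have h1 : ((2 ^ (J - s) * 2 ^ a : ℕ) : ZMod (2 ^ J)) = 0 := by
    push_cast
    exact h
  rw [ZMod.natCast_eq_zero_iff, ← pow_add, Nat.pow_dvd_pow_iff_le_right (by norm_num)] at h1
  omega

theorem sg_prod {k : ZMod (2 ^ J)} (hJ : 1 ≤ J) (hk : ¬ Dy 1 k) (b : Fin r → ZMod (2 ^ J))
    (e : Fin r → Bool) :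
    ∏ i, ps (k * b i * (if e i then (2 : ZMod (2 ^ J)) ^ (J - 1) else 0)) =
      ((sg (fun i => decide (¬ Dy 1 (b i))) e : ℝ) : ℂ) := by
  unfold sg
  push_cast
  refine Finset.prod_congr rfl fun i _ => ?_
  cases hb : e i with
  | false => simp [ps_zero]
  | true =>
    by_cases h : Dy 1 (b i)
    · have h0 : k * b i * (2 : ZMod (2 ^ J)) ^ (J - 1) = k * (2 ^ (J - 1) * b i) := by ring
      unfold Dy at h
      have h' : Dy 1 (b i) := h
      simp only [if_true, h0, h, mul_zero, ps_zero, h', not_true_eq_false, decide_false,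
        Bool.false_and, Bool.false_eq_true, if_false]
      norm_num
    · have h0 : k * b i * (2 : ZMod (2 ^ J)) ^ (J - 1) = 2 ^ (J - 1) := by
        rw [show k * b i * (2 : ZMod (2 ^ J)) ^ (J - 1) = 2 ^ (J - 1) * k * b i by ring,
          half_mul_odd hJ hk, half_mul_odd hJ h]
      simp only [if_true, h0, ps_half hJ, h, not_false_eq_true, decide_true, Bool.and_self]
      norm_num

/-- the value at odd arguments when everything even is killed -/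
theorem T_odd {u : CN (2 ^ J) (g + r)} {k : ZMod (2 ^ J)} (hk : ¬ Dy 1 k)
    (h3 : ∀ i, Dy (D.jl i) (hdv r u.2 i)) (h4 : ∀ i, Dy a (tlv r u.1 i))
    (h5 : ∀ i, Dy a (tlv r u.2 i)) : D.T u k =
      ((-(∑ e, (D.P e : ℝ) * sg (fun i => decide (¬ Dy 1 (hdv r u.1 i))) e) * (D.C * D.K) : ℝ) : ℂ) := by
  have hmul : ∀ {j : ℕ} {x : ZMod (2 ^ J)}, Dy j x → Dy j (k * x) := by
    intro j x hx
    unfold Dy at hx ⊢
    rw [show (2 : ZMod (2 ^ J)) ^ (J - j) * (k * x) = k * (2 ^ (J - j) * x) by ring, hx, mul_zero]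
  have hphs : phs J u k = -1 := by
    unfold phs
    have e1 : ((2 ^ (J - 1) : ℕ) : ZMod (2 ^ J)) * (u.1 ⬝ᵥ u.2) = 0 := by
      have e2 : u.1 ⬝ᵥ u.2 = hdv r u.1 ⬝ᵥ hdv r u.2 + tlv r u.1 ⬝ᵥ tlv r u.2 := by
        conv_lhs => rw [← jn_hdv_tlv r u.2]
        exact dot_jn r _ _ _
      rw [e2, mul_add]
      unfold dotProduct
      rw [Finset.mul_sum, Finset.mul_sum]
      push_cast
      have e3 : ∀ i, (2 : ZMod (2 ^ J)) ^ (J - 1) * (hdv r u.1 i * hdv r u.2 i) = 0 := by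
        intro i
        have := dy_mono (D.h1 i) (h3 i)
        unfold Dy at this
        rw [show (2 : ZMod (2 ^ J)) ^ (J - 1) * (hdv r u.1 i * hdv r u.2 i) =
          hdv r u.1 i * (2 ^ (J - 1) * hdv r u.2 i) by ring, this, mul_zero]
      have e4 : ∀ i, (2 : ZMod (2 ^ J)) ^ (J - 1) * (tlv r u.1 i * tlv r u.2 i) = 0 := by
        intro i
        have := dy_mono D.ha1 (h5 i)
        unfold Dy at this
        rw [show (2 : ZMod (2 ^ J)) ^ (J - 1) * (tlv r u.1 i * tlv r u.2 i) =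
          tlv r u.1 i * (2 ^ (J - 1) * tlv r u.2 i) by ring, this, mul_zero]
      simp [e3, e4]
    rw [e1, zero_add]
    push_cast
    rw [half_mul_odd D.hJ hk, ps_half D.hJ]
  unfold T
  rw [hphs]
  have e : ∀ e, (D.P e : ℂ) * At J D.jl e (D.o e) (hdv r u.1) (hdv r u.2) k *
        Wh D.ha (D.W e) (tlv r u.1) (tlv r u.2) k =
      (((D.P e : ℝ) * sg (fun i => decide (¬ Dy 1 (hdv r u.1 i))) e * (D.C * D.K) : ℝ) : ℂ) := by
    intro e
    rw [At_full D.jl D.h1 D.h2 e (D.o e) _ _ k (fun i => hmul (h3 i)), sg_prod D.hJ hk,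
      Wh_full D.ha _ _ _ k (fun i => hmul (h4 i)) (fun i => hmul (h5 i))]
    have : (∑ y, (D.W e y : ℝ)) = D.K := by
      rw [← D.hK e]
      push_cast
      rfl
    rw [this]
    unfold C
    push_cast
    ring
  simp_rw [e]
  rw [← Complex.ofReal_sum, ← Finset.sum_mul]
  push_cast
  ring

end TorD

end Run7.h92
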