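import Pool.Agent.Run7.h92.Forms
import Pool.Agent.Run7.h92.Tor2
import Pool.Agent.Run7.h92.Tor5

/-!
# The toric weights: the inequality
-/

namespace Run7.h92

open Matrix Complex Filter Topology

variable {J g r a : ℕ}

namespace TorD

variable (D : TorD J a r g)

theorem qq_eq (ha1 : 1 ≤ a) : (1 + et a) * (1 / 4) ^ a = et a := by
  have h1 := four_pow ha1
  unfold et
  rw [_root_.one_div_pow]
  have h2 : (4 : ℝ) ^ a - 1 ≠ 0 := by linarith
  field_simp
  ring

theorem sum_T (u : CN (2 ^ J) (g + r)) (k : ZMod (2 ^ J)) :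
    ∑ p : Om J a r g, (((om J D.P D.o D.jl D.W p : ℝ)) : ℂ) * ps (bq (2 ^ (J - 1)) u (emb J p) * k) =
      D.T u k := by
  have h := T_eq D.ha D.P D.o D.jl D.W u k
  unfold T
  rw [← h]
  push_cast
  rfl

theorem dy_mul {j : ℕ} {x : ZMod (2 ^ J)} (k : ZMod (2 ^ J)) (hx : Dy j x) : Dy j (k * x) := by
  unfold Dy at hx ⊢
  rw [show (2 : ZMod (2 ^ J)) ^ (J - j) * (k * x) = k * (2 ^ (J - j) * x) by ring, hx, mul_zero]

theorem ex_t (u : CN (2 ^ J) (g + r)) : ∃ t ≤ J, ∀ k : ZMod (2 ^ J),
    (∀ i, Dy (D.jl i) (k * hdv r u.2 i)) ↔ Dy t k := by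
  obtain ⟨t, ht, h⟩ := ann_fin fun i : Fin r => (2 : ZMod (2 ^ J)) ^ (J - D.jl i) * hdv r u.2 i
  refine ⟨t, ht, fun k => ?_⟩
  rw [← h k]
  unfold Dy
  refine forall_congr' fun i => ?_
  rw [show (2 : ZMod (2 ^ J)) ^ (J - D.jl i) * (k * hdv r u.2 i) =
    k * (2 ^ (J - D.jl i) * hdv r u.2 i) by ring]

theorem ex_s (D : TorD J a r g) (u : CN (2 ^ J) (g + r)) : ∃ s ≤ a, ∀ k : ZMod (2 ^ J),
    ((∀ i, Dy a (k * tlv r u.1 i)) ∧ ∀ i, Dy a (k * tlv r u.2 i)) ↔ Dy s k := by
  obtain ⟨s, hs, h⟩ := ann_fin fun m : Fin g ⊕ Fin g =>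
    (2 : ZMod (2 ^ J)) ^ (J - a) * Sum.elim (tlv r u.1) (tlv r u.2) m
  have h2 : ∀ k : ZMod (2 ^ J),
    ((∀ i, Dy a (k * tlv r u.1 i)) ∧ ∀ i, Dy a (k * tlv r u.2 i)) ↔ Dy s k := by
    intro k
    rw [← h k, Sum.forall]
    unfold Dy
    simp only [Sum.elim_inl, Sum.elim_inr]
    refine and_congr (forall_congr' fun i => ?_) (forall_congr' fun i => ?_)
    · rw [show (2 : ZMod (2 ^ J)) ^ (J - a) * (k * tlv r u.1 i) =
        k * (2 ^ (J - a) * tlv r u.1 i) by ring]
    · rw [show (2 : ZMod (2 ^ J)) ^ (J - a) * (k * tlv r u.2 i) =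
        k * (2 ^ (J - a) * tlv r u.2 i) by ring]
  refine ⟨s, ?_, h2⟩
  apply dy_pow_le hs
  rw [← h2]
  have h3 : ∀ x : ZMod (2 ^ J), Dy a ((2 : ZMod (2 ^ J)) ^ a * x) := by
    intro x
    unfold Dy
    rw [← mul_assoc, ← pow_add, show J - a + a = J by have := D.ha; omega, two_pow_J, zero_mul]
  exact ⟨fun i => h3 _, fun i => h3 _⟩

theorem SCK_nonneg : 0 ≤ D.S * D.C * D.K :=
  mul_nonneg (mul_nonneg D.S_nonneg D.C_pos.le) (Nat.cast_nonneg _)

/-- the inequality for the toric weights -/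
theorem ineq {u : CN (2 ^ J) (g + r)} (hu : Um u) :
    (∑ p : Om J a r g, (om J D.P D.o D.jl D.W p : ℝ)) / 12 ≤
      ∑ p : Om J a r g, (om J D.P D.o D.jl D.W p : ℝ) * gf (bq (2 ^ (J - 1)) u (emb J p)) := by
  obtain ⟨t, ht, h1⟩ := D.ex_t u
  obtain ⟨s, hs, h2⟩ := D.ex_s u
  have hJ := D.hJ
  have ha := D.ha
  have ha1 := D.ha1
  have hS0 : 0 ≤ ∑ p : Om J a r g, (om J D.P D.o D.jl D.W p : ℝ) :=
    Finset.sum_nonneg fun _ _ => Nat.cast_nonneg _
  have hZ := D.SCK_nonneg
  have het := et_pos ha1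
  have hqq := qq_eq ha1
  -- the four facts
  have f1 : ∀ k : ZMod (2 ^ J), 1 ≤ t → ¬ Dy (t - 1) k → D.T u k = 0 := by
    intro k ht1 hk
    have h3 : ¬ ∀ i, Dy (D.jl i - 1) (k * hdv r u.2 i) := by
      intro h4
      apply hk
      rw [← dy_two ht1 ht, ← h1]
      intro i
      rw [mul_assoc, dy_two (D.h1 i) (D.h2 i)]
      exact h4 i
    push Not at h3
    obtain ⟨i, hi⟩ := h3
    exact D.T_zero i hi
  have hB : ∀ k : ZMod (2 ^ J), ¬ Dy s k → ∀ e, ‖Wh D.ha (D.W e) (tlv r u.1) (tlv r u.2) k‖ ≤ et a * D.K := by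
    intro k hk e
    apply D.Wh_et
    rw [← h2] at hk
    rw [not_and_or] at hk
    push Not at hk
    exact hk
  have f2 : ∀ (k : ZMod (2 ^ J)) (B : ℝ), ¬ Dy t k →
      (∀ e, ‖Wh D.ha (D.W e) (tlv r u.1) (tlv r u.2) k‖ ≤ B) → ‖D.T u k‖ ≤ D.S / 3 * D.C * B := by
    intro k B hk hB
    rw [← h1] at hk
    push Not at hk
    obtain ⟨i, hi⟩ := hk
    exact D.T_le3 hB i hi
  have f3 : ∀ k : ZMod (2 ^ J), Dy 1 k → Dy t k → Dy s k → D.T u k = ((D.S * D.C * D.K : ℝ) : ℂ) := by
    intro k hk1 hkt hks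
    exact D.T_one hk1 ((h1 k).2 hkt) ((h2 k).2 hks).1 ((h2 k).2 hks).2
  have hre : ∀ (z : ℂ) (B : ℝ), ‖z‖ ≤ B → -B ≤ z.re := fun z B h =>
    (abs_le.1 ((Complex.abs_re_le_norm z).trans h)).1
  rcases Nat.eq_zero_or_pos t with ht0 | ht1
  · subst ht0
    rcases Nat.eq_zero_or_pos s with hs0 | hs1
    · subst hs0
      -- both zero
      refine dy_ineq hJ Finset.univ _ _ hS0 (-(1 / 3)) (4 / 3) 0 (i1 := 0) (i2 := 1) (i3 := 0)
        (Nat.zero_le _) hJ (Nat.zero_le _) ?_ ?_
      · unfold Gm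
        rw [pow_zero, pow_one]
        apply le_of_eq
        ring
      · intro k hk
        rw [D.sum_T, D.sum_om, if_pos (dy_zero k), ite_self, add_zero]
        by_cases hk1 : Dy 1 k
        · rw [if_pos hk1, f3 k hk1 (dy_zero k) (dy_zero k), Complex.ofReal_re]
          apply le_of_eq
          ring
        · rw [if_neg hk1]
          have g1 : ∀ i, Dy (D.jl i) (hdv r u.2 i) := fun i => by
            simpa using (h1 1).2 (dy_zero 1) i
          have g2 : ∀ i, Dy a (tlv r u.1 i) := fun i => by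
            simpa using ((h2 1).2 (dy_zero 1)).1 i
          have g3 : ∀ i, Dy a (tlv r u.2 i) := fun i => by
            simpa using ((h2 1).2 (dy_zero 1)).2 i
          rw [D.T_odd hk1 g1 g2 g3, Complex.ofReal_re]
          have hb : (fun i => decide (¬ Dy 1 (hdv r u.1 i))) ≠ (fun _ => false) := by
            intro hb
            have g0 : ∀ i, Dy 1 (hdv r u.1 i) := by
              intro i
              have := congrFun hb i
              simpa using this
            have hne : (2 : ZMod (2 ^ J)) ^ (J - 1) ≠ 0 := by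
              intro h0
              have h5 := ps_half hJ
              rw [h0, ps_zero] at h5
              norm_num at h5
            apply hu _ hne
            have e1 : u.1 = jn r (hdv r u.1) (tlv r u.1) := (jn_hdv_tlv r u.1).symm
            have e2 : u.2 = jn r (hdv r u.2) (tlv r u.2) := (jn_hdv_tlv r u.2).symm
            have key : ∀ (x : Fin (g + r) → ZMod (2 ^ J)), (∀ i, Dy 1 (hdv r x i)) →
                (∀ i, Dy 1 (tlv r x i)) → (2 : ZMod (2 ^ J)) ^ (J - 1) • x = 0 := by
              intro x hx1 hx2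
              have e3 : ∀ r' (x : Fin (g + r') → ZMod (2 ^ J)), (∀ i, Dy 1 (hdv r' x i)) →
                (∀ i, Dy 1 (tlv r' x i)) → ∀ i, (2 : ZMod (2 ^ J)) ^ (J - 1) * x i = 0 := by
                intro r'
                induction r' with
                | zero =>
                  intro x _ h i
                  exact h i
                | succ r' ih =>
                  intro x h h' i
                  refine Fin.cases ?_ (fun i => ?_) i
                  · exact h 0
                  · exact ih (fun i => x (Fin.succ i : Fin (g + r' + 1))) (fun i => h i.succ) h' i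
              funext i
              exact e3 r x hx1 hx2 i
            refine Prod.ext ?_ ?_
            · exact key u.1 g0 fun i => dy_mono ha1 (g2 i)
            · exact key u.2 (fun i => dy_mono (D.h1 i) (g1 i)) fun i => dy_mono ha1 (g3 i)
          have h6 := D.c2 _ hb
          have h7 : 0 ≤ D.C * D.K := mul_nonneg D.C_pos.le (Nat.cast_nonneg _)
          have h8 : (∑ e, (D.P e : ℝ) * sg (fun i => decide (¬ Dy 1 (hdv r u.1 i))) e) ≤ D.S / 3 := by
            unfold S
            linarith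
          have h9 := mul_le_mul_of_nonneg_right h8 h7
          linarith
    · -- t = 0, s ≥ 1
      refine dy_ineq hJ Finset.univ _ _ hS0 (-(et a)) (1 + et a) 0 (i1 := 0) (i2 := s) (i3 := 0)
        (Nat.zero_le _) (hs.trans ha) (Nat.zero_le _) ?_ ?_
      · unfold Gm
        rw [pow_zero]
        have h5 : ((1 : ℝ) / 4) ^ a ≤ (1 / 4) ^ s := pow_le_pow_of_le_one (by norm_num) (by norm_num) hs
        have h6 := mul_le_mul_of_nonneg_left h5 (show 0 ≤ 1 + et a by linarith)
        linarith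
      · intro k hk
        rw [D.sum_T, D.sum_om, if_pos (dy_zero k), ite_self, add_zero]
        by_cases hks : Dy s k
        · rw [if_pos hks, f3 k (dy_mono hs1 hks) (dy_zero k) hks, Complex.ofReal_re]
          apply le_of_eq
          ring
        · rw [if_neg hks, add_zero]
          have h5 := hre _ _ (D.T_le (hB k hks))
          linarith
  · rcases Nat.lt_or_ge s t with hst | hst
    · -- s ≤ t - 1
      refine dy_ineq hJ Finset.univ _ _ hS0 (-(1 / 3)) (4 / 3) 0 (i1 := t - 1) (i2 := t) (i3 := 0)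
        ((Nat.sub_le _ _).trans ht) ht (Nat.zero_le _) ?_ ?_
      · unfold Gm
        have e1 : ((1 : ℝ) / 4) ^ t = (1 / 4) ^ (t - 1) * (1 / 4) := by
          rw [← pow_succ]
          congr 1
          omega
        rw [e1]
        apply le_of_eq
        ring
      · intro k hk
        rw [D.sum_T, D.sum_om, ite_self, add_zero]
        by_cases hkt : Dy t k
        · rw [if_pos hkt, if_pos (dy_mono (Nat.sub_le _ _) hkt), f3 k (dy_mono ht1 hkt) hkt
            (dy_mono hst.le hkt), Complex.ofReal_re]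
          apply le_of_eq
          ring
        · rw [if_neg hkt, add_zero]
          by_cases hkt1 : Dy (t - 1) k
          · rw [if_pos hkt1]
            have h5 := hre _ _ (f2 k D.K hkt fun e => D.Wh_K _ _ _ e)
            linarith
          · rw [if_neg hkt1, f1 k ht1 hkt1]
            simp
    · -- t ≤ s
      refine dy_ineq hJ Finset.univ _ _ hS0 (-(et a / 3)) (-(2 * et a / 3)) (1 + et a)
        (i1 := t - 1) (i2 := t) (i3 := s)
        ((Nat.sub_le _ _).trans ht) ht (hs.trans ha) ?_ ?_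
      · unfold Gm
        have e1 : ((1 : ℝ) / 4) ^ t = (1 / 4) ^ (t - 1) * (1 / 4) := by
          rw [← pow_succ]
          congr 1
          omega
        have h5 : ((1 : ℝ) / 4) ^ a ≤ (1 / 4) ^ s := pow_le_pow_of_le_one (by norm_num) (by norm_num) hs
        have h6 := mul_le_mul_of_nonneg_left h5 (show 0 ≤ 1 + et a by linarith)
        have h7 : ((1 : ℝ) / 4) ^ (t - 1) ≤ 1 := pow_le_one₀ (by norm_num) (by norm_num)
        have h8 : et a * ((1 : ℝ) / 4) ^ (t - 1) ≤ et a * 1 := mul_le_mul_of_nonneg_left h7 het.le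
        rw [e1]
        linarith
      · intro k hk
        rw [D.sum_T, D.sum_om]
        by_cases hks : Dy s k
        · have hkt := dy_mono hst hks
          rw [if_pos hks, if_pos hkt, if_pos (dy_mono (Nat.sub_le _ _) hkt),
            f3 k (dy_mono ht1 hkt) hkt hks, Complex.ofReal_re]
          apply le_of_eq
          ring
        · rw [if_neg hks, add_zero]
          by_cases hkt : Dy t k
          · rw [if_pos hkt, if_pos (dy_mono (Nat.sub_le _ _) hkt)]
            have h5 := hre _ _ (D.T_le (hB k hks))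
            linarith
          · rw [if_neg hkt, add_zero]
            by_cases hkt1 : Dy (t - 1) k
            · rw [if_pos hkt1]
              have h5 := hre _ _ (f2 k _ hkt (hB k hks))
              linarith
            · rw [if_neg hkt1, f1 k ht1 hkt1]
              simp

/-- exactness of the toric weights in a toric direction -/
theorem exact {u : CN (2 ^ J) (g + r)} (h1 : u.2 = 0) (h2 : ∀ i, tlv r u.1 i = 0)
    (h3 : 3 * (∑ e, (D.P e : ℝ) * sg (fun i => decide (¬ Dy 1 (hdv r u.1 i))) e) =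
      ∑ e, (D.P e : ℝ)) :
    ∑ p : Om J a r g, (om J D.P D.o D.jl D.W p : ℝ) * gf (bq (2 ^ (J - 1)) u (emb J p)) =
      (∑ p : Om J a r g, (om J D.P D.o D.jl D.W p : ℝ)) / 12 := by
  have hz : ∀ (r' : ℕ) (j : ℕ) (i : Fin r'), hdv r' (0 : Fin (g + r') → ZMod (2 ^ J)) i = 0 := by
    intro r' j
    induction r' with
    | zero => intro i; exact i.elim0
    | succ r' ih =>
      intro i
      refine Fin.cases rfl (fun i => ?_) i
      exact ih i
  have hz' : ∀ (r' : ℕ) (i : Fin g), tlv r' (0 : Fin (g + r') → ZMod (2 ^ J)) i = 0 := by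
    intro r'
    induction r' with
    | zero => intro i; rfl
    | succ r' ih => exact ih
  have dz : ∀ j, Dy j (0 : ZMod (2 ^ J)) := by
    intro j
    unfold Dy
    rw [mul_zero]
  have g1 : ∀ i, Dy (D.jl i) (hdv r u.2 i) := by
    intro i
    rw [h1, hz r 0]
    exact dz _
  have g2 : ∀ i, Dy a (tlv r u.1 i) := by
    intro i
    rw [h2]
    exact dz _
  have g3 : ∀ i, Dy a (tlv r u.2 i) := by
    intro i
    rw [h1, hz' r]
    exact dz _
  refine dy_eq D.hJ Finset.univ _ _ fun k hk => ?_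
  rw [D.sum_T, D.sum_om]
  by_cases hk1 : Dy 1 k
  · rw [D.T_one hk1 (fun i => dy_mul k (g1 i)) (fun i => dy_mul k (g2 i)) fun i => dy_mul k (g3 i),
      Complex.ofReal_re, if_pos hk1]
    ring
  · rw [D.T_odd hk1 g1 g2 g3, Complex.ofReal_re, if_neg hk1]
    unfold S
    rw [← h3]
    ring

end TorD

end Run7.h92
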