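import Pool.Agent.Run7.h92.CountE
import Pool.Agent.Run7.h92.StepC
import Pool.Agent.Run7.h92.Tor3

/-!
# Leading coefficients: peeling off toric coordinates
-/

namespace Run7.h92

open Matrix Complex Filter Topology

variable {g : ℕ}

open Classical in
/-- leading coefficients given by a condition on toric coordinates -/
noncomputable def cdp (r : ℕ) (Pd : (Fin r → ℤ) → Prop) (τ : MM (g + r)) (ε : Fin (g + r) → ℝ)
    (z : Fin (g + r) → ℂ) : ℂ :=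
  ∑' m : Fin (g + r) → ℤ, if Pd (hdv r m) then cexp (ex τ ε z m) else 0

/-- the factor of one slice -/
noncomputable def slf (r : ℕ) (τ : MM (g + r + 1)) (ε : Fin (g + r + 1) → ℝ)
    (z : Fin (g + r + 1) → ℂ) (a : ℤ) : ℂ :=
  cexp (Real.pi * I * (((a : ℂ) + ε 0) ^ 2 * τ 0 0) + 2 * Real.pi * I * (((a : ℂ) + ε 0) * z 0))

/-- one slice -/
noncomputable def slc (r : ℕ) (Pd : (Fin (r + 1) → ℤ) → Prop) (τ : MM (g + r + 1))
    (ε : Fin (g + r + 1) → ℝ) (z : Fin (g + r + 1) → ℂ) (a : ℤ) : ℂ :=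
  cdp r (fun m => Pd (Fin.cons a m)) (tl τ) (fun j => ε j.succ)
    fun j => z j.succ + ((a : ℂ) + ε 0) * τ 0 j.succ

theorem cdp_peel (r : ℕ) (Pd : (Fin (r + 1) → ℤ) → Prop) {τ : MM (g + r + 1)}
    (hτ : τ ∈ HH (g + r + 1)) (ε : Fin (g + r + 1) → ℝ) (z : Fin (g + r + 1) → ℂ) :
    cdp (r + 1) Pd τ ε z = ∑' a : ℤ, slf r τ ε z a * slc r Pd τ ε z a := by
  classical
  obtain ⟨hs, c, hc, hLB⟩ := hτ
  set e : ℤ × (Fin (g + r) → ℤ) ≃ (Fin (g + r + 1) → ℤ) := Fin.consEquiv (fun _ => ℤ) with he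
  have he' : ∀ p, e p = (Fin.cons p.1 p.2 : Fin (g + r + 1) → ℤ) := fun p => rfl
  have hh : ∀ (a : ℤ) (m : Fin (g + r) → ℤ), hdv (r + 1) (Fin.cons a m : Fin (g + r + 1) → ℤ) =
      (Fin.cons a (hdv r m) : Fin (r + 1) → ℤ) := fun a m => rfl
  have s1 : Summable fun m : Fin (g + r + 1) → ℤ =>
      if Pd (hdv (r + 1) m) then cexp (ex τ ε z m) else 0 := by
    refine Summable.of_norm_bounded (summable_thc hc hLB ε z).norm fun m => ?_
    split_ifs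
    · exact le_rfl
    · rw [norm_zero]; exact norm_nonneg _
  have k1 := (e.summable_iff.2 s1).tsum_prod
  simp only [Function.comp_apply] at k1
  have k2 : cdp (r + 1) Pd τ ε z = ∑' m : Fin (g + r + 1) → ℤ,
      if Pd (hdv (r + 1) m) then cexp (ex τ ε z m) else 0 := rfl
  rw [k2, ← e.tsum_eq, k1]
  refine tsum_congr fun a => ?_
  simp only [he', hh]
  unfold slc cdp slf
  rw [← tsum_mul_left]
  refine tsum_congr fun m => ?_
  by_cases hm : Pd (Fin.cons a (hdv r m))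
  · rw [if_pos hm, if_pos hm, ← Complex.exp_add, ex_cons hs]
    congr 1
    unfold ex tl
    have e1 : ∑ i : Fin (g + r), ((m i : ℂ) + ε i.succ) *
        (z i.succ + ((a : ℂ) + ε 0) * τ 0 i.succ) =
        ∑ i : Fin (g + r), ((m i : ℂ) + ε i.succ) * z i.succ +
          ((a : ℂ) + ε 0) * ∑ j : Fin (g + r), τ 0 j.succ * ((m j : ℂ) + ε j.succ) := by
      rw [Finset.mul_sum, ← Finset.sum_add_distrib]
      exact Finset.sum_congr rfl fun i _ => by ring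
    rw [e1]
    ring
  · rw [if_neg hm, if_neg hm, mul_zero]

theorem cdp_empty (r : ℕ) {Pd : (Fin r → ℤ) → Prop} (h : ∀ m, ¬ Pd m) (τ : MM (g + r))
    (ε : Fin (g + r) → ℝ) (z : Fin (g + r) → ℂ) : cdp r Pd τ ε z = 0 := by
  classical
  unfold cdp
  simp [h]

/-- the branching condition: along a suitable path every coordinate takes at most two adjacent
values, and a single one when the corresponding mark is not set -/
def Nice : (r : ℕ) → ((Fin r → ℤ) → Prop) → (Fin r → Bool) → Prop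
  | 0, Pd, _ => ∃ m, Pd m
  | r + 1, Pd, o => ∃ a s : ℤ, (s = 1 ∨ s = -1) ∧
      (∀ m, Pd m → m 0 = a ∨ (o 0 = true ∧ m 0 = a + s)) ∧
        Nice r (fun m => Pd (Fin.cons a m)) fun i => o i.succ

theorem cdp_two (r : ℕ) {Pd : (Fin (r + 1) → ℤ) → Prop} {o : Fin (r + 1) → Bool} {a s : ℤ}
    (hs : s = 1 ∨ s = -1) (h : ∀ m, Pd m → m 0 = a ∨ (o 0 = true ∧ m 0 = a + s))
    {τ : MM (g + r + 1)} (hτ : τ ∈ HH (g + r + 1)) (ε : Fin (g + r + 1) → ℝ)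
    (z : Fin (g + r + 1) → ℂ) :
    cdp (r + 1) Pd τ ε z = slf r τ ε z a * slc r Pd τ ε z a +
      slf r τ ε z (a + s) * slc r Pd τ ε z (a + s) := by
  have hne : a ≠ a + s := by
    rcases hs with h | h <;> rw [h] <;> omega
  rw [cdp_peel r Pd hτ, tsum_eq_sum (s := {a, a + s}), Finset.sum_pair hne]
  intro b hb
  unfold slc
  rw [cdp_empty, mul_zero]
  intro m hm
  apply hb
  rcases h _ hm with h1 | ⟨_, h1⟩
  · simp only [Fin.cons_zero] at h1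
    rw [h1]
    simp
  · simp only [Fin.cons_zero] at h1
    rw [h1]
    simp

theorem cdp_one (r : ℕ) {Pd : (Fin (r + 1) → ℤ) → Prop} {a : ℤ}
    (h : ∀ m, Pd m → m 0 = a)
    {τ : MM (g + r + 1)} (hτ : τ ∈ HH (g + r + 1)) (ε : Fin (g + r + 1) → ℝ)
    (z : Fin (g + r + 1) → ℂ) :
    cdp (r + 1) Pd τ ε z = slf r τ ε z a * slc r Pd τ ε z a := by
  rw [cdp_peel r Pd hτ]
  refine tsum_eq_single a fun b hb => ?_
  unfold slc
  rw [cdp_empty, mul_zero]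
  intro m hm
  exact hb (h _ hm)

theorem avoid_one (ζ : ℂ) : ∃ j0 : ℕ, ∀ j ≥ j0, ∀ q : ℕ, Odd q →
    cexp (2 * Real.pi * I * ((((q : ℝ) / 2 ^ j : ℝ)) : ℂ)) ≠ ζ := by
  by_cases h : ∃ j1 q1 : ℕ, cexp (2 * Real.pi * I * ((((q1 : ℝ) / 2 ^ j1 : ℝ)) : ℂ)) = ζ
  · obtain ⟨j1, q1, h1⟩ := h
    refine ⟨j1 + 1, fun j hj q hq h2 => ?_⟩
    have h3 : ζ ^ (2 ^ j1) = 1 := by
      rw [← h1, ← Complex.exp_nat_mul]
      have e : ((2 ^ j1 : ℕ) : ℂ) * (2 * Real.pi * I * ((((q1 : ℝ) / 2 ^ j1 : ℝ)) : ℂ)) =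
          (q1 : ℕ) * (2 * Real.pi * I) := by
        have : (2 : ℂ) ^ j1 ≠ 0 := pow_ne_zero _ two_ne_zero
        push_cast
        field_simp
      rw [e]
      exact Complex.exp_nat_mul_two_pi_mul_I q1
    rw [← h2, ← Complex.exp_nat_mul, Complex.exp_eq_one_iff] at h3
    obtain ⟨n, hn⟩ := h3
    have e : ((2 ^ j1 : ℕ) : ℂ) * (2 * Real.pi * I * ((((q : ℝ) / 2 ^ j : ℝ)) : ℂ)) =
        ((q : ℂ) * 2 ^ j1 / 2 ^ j) * (2 * Real.pi * I) := by
      push_cast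
      ring
    rw [e] at hn
    have h4 := mul_right_cancel₀ Complex.two_pi_I_ne_zero hn
    have h5 : (q : ℂ) * 2 ^ j1 = n * 2 ^ j := by
      have : (2 : ℂ) ^ j ≠ 0 := pow_ne_zero _ two_ne_zero
      rw [div_eq_iff this] at h4
      exact h4
    have h6 : (q : ℤ) * 2 ^ j1 = n * 2 ^ j := by exact_mod_cast h5
    have e2 : (2 : ℤ) ^ j = 2 ^ (j - j1 - 1) * 2 * 2 ^ j1 := by
      rw [← pow_succ, ← pow_add]
      congr 1
      omega
    rw [e2, ← mul_assoc] at h6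
    have h7 := mul_right_cancel₀ (pow_ne_zero j1 (two_ne_zero)) h6
    have h8 : Even (q : ℤ) := ⟨n * 2 ^ (j - j1 - 1), by rw [h7]; ring⟩
    have h9 : Even q := by exact_mod_cast h8
    exact (Nat.not_even_iff_odd.2 hq) h9
  · push Not at h
    exact ⟨0, fun j _ q _ => h j q⟩

theorem avoid {κ : Type*} [Fintype κ] (Z : κ → ℂ) : ∃ j : ℕ, 1 ≤ j ∧ ∀ q : ℕ, Odd q → ∀ x,
    cexp (2 * Real.pi * I * ((((q : ℝ) / 2 ^ j : ℝ)) : ℂ)) ≠ Z x := by
  choose j0 hj0 using fun x => avoid_one (Z x)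
  refine ⟨Finset.univ.sup j0 + 1, by omega, fun q hq x => hj0 x _ ?_ q hq⟩
  have := Finset.le_sup (f := j0) (Finset.mem_univ x)
  omega

/-- toric characteristics -/
noncomputable def hfv {r : ℕ} (e : Fin r → Bool) : Fin r → ℝ := fun i => if e i then 1 / 2 else 0

/-- toric arguments -/
noncomputable def qv {r : ℕ} (jl q : Fin r → ℕ) : Fin r → ℂ :=
  fun i => ((((q i : ℕ) : ℝ) / 2 ^ jl i : ℝ) : ℂ)

/-- the arguments -/
noncomputable def azv (r a : ℕ) (jl q : Fin r → ℕ) (y : CN (2 ^ a) g) (z : Fin (g + r) → ℂ) :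
    Fin (g + r) → ℂ :=
  fun i => jn r (qv jl q) (chZ (2 ^ a) y 0) i + z i

theorem good_pow (τ : MM g) (hτ : τ ∈ HH g) : ∃ a : ℕ, 1 ≤ a ∧ GoodU (2 ^ a) τ := by
  obtain ⟨n0, h⟩ := good_all_ev g τ hτ
  have key : ∀ N n : ℕ, N = 2 * n → n0 ≤ n → ∀ _ : NeZero N, GoodU N τ := by
    rintro _ n rfl hn hN
    exact h n hn hN
  exact ⟨n0 + 1, by omega, key (2 ^ (n0 + 1)) (2 ^ n0) (by ring) (Nat.lt_two_pow_self).le _⟩

theorem lev_zero {τ : MM g} (hτ : τ ∈ HH g) {ι : Type} (Pd : ι → (Fin 0 → ℤ) → Prop)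
    (z : ι → Fin g → ℂ) : ∃ (a : ℕ) (W : ι → CN (2 ^ a) g → ℕ), 1 ≤ a ∧
      (∀ c, ∃ y, W c y ≠ 0) ∧ (∀ c, QQ (W c)) ∧
      ∀ c, (∃ m, Pd c m) → ∀ y, W c y ≠ 0 →
        cdp 0 (Pd c) τ (chE (2 ^ a) y) (chZ (2 ^ a) y (z c)) ≠ 0 := by
  classical
  obtain ⟨a, ha, hG⟩ := good_pow τ hτ
  have h1 := GoodV_nil (n := 0) hτ (fun i : Fin 0 => (i.elim0 : Fin g → ℤ)) hG
  choose w h2 h3 h4 _ using h1
  refine ⟨a, fun c => w (z c), ha, fun c => h2 (z c), fun c => h4 (z c), ?_⟩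
  rintro c ⟨m, hm⟩ y hy
  have h5 := h3 (z c) y hy
  rw [cdv_nil] at h5
  have e1 : cdp 0 (Pd c) τ (chE (2 ^ a) y) (chZ (2 ^ a) y (z c)) =
      thc τ (chE (2 ^ a) y) (chZ (2 ^ a) y (z c)) := by
    unfold cdp thc
    refine tsum_congr fun m' => ?_
    rw [if_pos]
    rwa [Subsingleton.elim (hdv 0 m') m]
  rw [e1]
  exact h5

end Run7.h92
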