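import Pool.Agent.Run7.h92.Tor7

/-!
# Leading coefficients: choice of the levels
-/

namespace Run7.h92

open Matrix Complex Filter Topology

variable {g : ℕ}

theorem azv_zero (r a : ℕ) (jl q : Fin (r + 1) → ℕ) (y : CN (2 ^ a) g) (z : Fin (g + r + 1) → ℂ) :
    azv (r + 1) a jl q y z 0 = ((((q 0 : ℕ) : ℝ) / 2 ^ jl 0 : ℝ) : ℂ) + z 0 := rfl

theorem azv_succ (r a : ℕ) (jl q : Fin (r + 1) → ℕ) (y : CN (2 ^ a) g) (z : Fin (g + r + 1) → ℂ)
    (t : ℂ) (τ : MM (g + r + 1)) :
    (fun j : Fin (g + r) => azv (r + 1) a jl q y z j.succ + t * τ 0 j.succ) =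
      azv r a (fun i => jl i.succ) (fun i => q i.succ) y fun j => z j.succ + t * τ 0 j.succ := by
  funext j
  have e1 : azv (r + 1) a jl q y z j.succ = jn r (qv (fun i => jl i.succ) fun i => q i.succ)
      (chZ (2 ^ a) y 0) j + z j.succ := rfl
  have e2 : azv r a (fun i => jl i.succ) (fun i => q i.succ) y (fun j => z j.succ + t * τ 0 j.succ) j =
      jn r (qv (fun i => jl i.succ) fun i => q i.succ) (chZ (2 ^ a) y 0) j +
        (z j.succ + t * τ 0 j.succ) := rfl
  rw [e1, e2]
  ring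

/-- choice of the levels -/
theorem lev (r : ℕ) : ∀ {τ : MM (g + r)}, τ ∈ HH (g + r) → ∀ {ι : Type} [Fintype ι]
    (e o : ι → Fin r → Bool) (Pd : ι → (Fin r → ℤ) → Prop) (z : ι → Fin (g + r) → ℂ),
    ∃ (a : ℕ) (jl : Fin r → ℕ) (W : ι → CN (2 ^ a) g → ℕ), 1 ≤ a ∧ (∀ i, 1 ≤ jl i) ∧
      (∀ c, ∃ y, W c y ≠ 0) ∧ (∀ c, QQ (W c)) ∧
      ∀ c, Nice r (Pd c) (o c) → ∀ y, W c y ≠ 0 → ∀ q : Fin r → ℕ,
        (∀ i, q i < 2 ^ jl i ∧ (o c i = true → Odd (q i))) →
        cdp r (Pd c) τ (jn r (hfv (e c)) (chE (2 ^ a) y)) (azv r a jl q y (z c)) ≠ 0 := by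
  classical
  induction r with
  | zero =>
    intro τ hτ ι _ e o Pd z
    obtain ⟨a, W, h1, h2, h3, h4⟩ := lev_zero hτ Pd z
    refine ⟨a, fun _ => 1, W, h1, fun _ => le_rfl, h2, h3, ?_⟩
    intro c hc y hy q _
    have h5 := h4 c hc y hy
    have e1 : azv 0 a (fun _ => 1) q y (z c) = chZ (2 ^ a) y (z c) := by
      funext i
      have : azv 0 a (fun _ => 1) q y (z c) i = ((((y.2 i).val : ℝ) / (2 ^ a : ℕ) : ℝ) : ℂ) +
        (0 : Fin g → ℂ) i + z c i := rfl
      rw [this, Pi.zero_apply, add_zero]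
      rfl
    rw [e1]
    exact h5
  | succ r ih =>
    intro τ hτ ι _ e o Pd z
    have hτ' : tl τ ∈ HH (g + r) := tl_HH hτ
    have key : ∀ c, ∃ p : ℤ × ℤ, (p.2 = 1 ∨ p.2 = -1) ∧ (Nice (r + 1) (Pd c) (o c) →
        (∀ m, Pd c m → m 0 = p.1 ∨ (o c 0 = true ∧ m 0 = p.1 + p.2)) ∧
          Nice r (fun m => Pd c (Fin.cons p.1 m)) fun i => o c i.succ) := by
      intro c
      by_cases h : Nice (r + 1) (Pd c) (o c)
      · obtain ⟨a, s, h1, h2, h3⟩ := h
        exact ⟨(a, s), h1, fun _ => ⟨h2, h3⟩⟩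
      · exact ⟨(0, 1), Or.inl rfl, fun h' => absurd h' h⟩
    choose p hp1 hp2 using key
    set ε0 : ι → ℂ := fun c => (((if e c 0 then 1 / 2 else 0 : ℝ)) : ℂ) with hε0
    obtain ⟨a, jl, W, h1, h2, h3, h4, h5⟩ := ih hτ' (fun c i => e c i.succ) (fun c i => o c i.succ)
      (fun c m => Pd c (Fin.cons (p c).1 m))
      (fun c j => z c j.succ + ((((p c).1 : ℤ) : ℂ) + ε0 c) * τ 0 j.succ)
    -- the slices
    set sl : ι → ℤ → CN (2 ^ a) g → (Fin r → ℕ) → ℂ := fun c α y q =>
      cdp r (fun m => Pd c (Fin.cons α m)) (tl τ) (jn r (hfv fun i => e c i.succ) (chE (2 ^ a) y))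
        (azv r a jl q y fun j => z c j.succ + ((α : ℂ) + ε0 c) * τ 0 j.succ) with hsl
    have hslb : ∀ c, Nice (r + 1) (Pd c) (o c) → ∀ y, W c y ≠ 0 → ∀ q : Fin r → ℕ,
        (∀ i, q i < 2 ^ jl i ∧ (o c i.succ = true → Odd (q i))) → sl c (p c).1 y q ≠ 0 := by
      intro c hc y hy q hq
      exact h5 c (hp2 c hc).2 y hy q hq
    -- the bad values
    set E : ι → ℤ → ℂ := fun c α => cexp (Real.pi * I * (((α : ℂ) + ε0 c) ^ 2 * τ 0 0) +
      2 * Real.pi * I * (((α : ℂ) + ε0 c) * z c 0)) with hE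
    set X : ι × CN (2 ^ a) g × (∀ i : Fin r, Fin (2 ^ jl i)) → ℂ := fun x =>
      E x.1 (p x.1).1 * sl x.1 (p x.1).1 x.2.1 fun i => (x.2.2 i : ℕ) with hX
    set Y : ι × CN (2 ^ a) g × (∀ i : Fin r, Fin (2 ^ jl i)) → ℂ := fun x =>
      E x.1 ((p x.1).1 + (p x.1).2) * sl x.1 ((p x.1).1 + (p x.1).2) x.2.1
        fun i => (x.2.2 i : ℕ) with hY
    obtain ⟨j0, hj0, hav⟩ := avoid fun x : ι × CN (2 ^ a) g × (∀ i : Fin r, Fin (2 ^ jl i)) =>
      if (p x.1).2 = 1 then - X x / Y x else - Y x / X x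
    refine ⟨a, Fin.cons j0 jl, W, h1, ?_, h3, h4, ?_⟩
    · intro i
      refine Fin.cases hj0 (fun i => ?_) i
      exact h2 i
    · intro c hc y hy q hq
      have hq0 := hq 0
      have hqs : ∀ i : Fin r, q i.succ < 2 ^ jl i ∧ (o c i.succ = true → Odd (q i.succ)) :=
        fun i => hq i.succ
      have hslice : ∀ α : ℤ, slc r (Pd c) τ
          (jn (r + 1) (hfv (e c)) (chE (2 ^ a) y) : Fin (g + r + 1) → ℝ)
          (azv (r + 1) a (Fin.cons j0 jl : Fin (r + 1) → ℕ) q y (z c)) α =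
            sl c α y fun i => q i.succ := by
        intro α
        unfold slc
        rw [azv_succ]
        rfl
      have hfac : ∀ α : ℤ, slf r τ
          (jn (r + 1) (hfv (e c)) (chE (2 ^ a) y) : Fin (g + r + 1) → ℝ)
          (azv (r + 1) a (Fin.cons j0 jl : Fin (r + 1) → ℕ) q y (z c)) α =
          cexp (Real.pi * I * (((α : ℂ) + ε0 c) ^ 2 * τ 0 0) + 2 * Real.pi * I *
            (((α : ℂ) + ε0 c) * (((((q 0 : ℕ) : ℝ) / 2 ^ j0 : ℝ) : ℂ) + z c 0))) := by
        intro α
        rfl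
      have h6 := hslb c hc y hy _ hqs
      obtain ⟨h7, -⟩ := hp2 c hc
      cases hc0 : o c 0 with
      | false =>
        rw [cdp_one r (a := (p c).1) (fun m hm => ?_) hτ, hslice]
        · exact mul_ne_zero (Complex.exp_ne_zero _) h6
        · rcases h7 m hm with h | ⟨h, _⟩
          · exact h
          · rw [hc0] at h
            exact absurd h (by decide)
      | true =>
        have hodd : Odd (q 0) := hq0.2 hc0
        rw [cdp_two r (hp1 c) h7 hτ, hslice, hslice, hfac, hfac]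
        set t : ℂ := ((((q 0 : ℕ) : ℝ) / 2 ^ j0 : ℝ) : ℂ) with ht
        intro h0
        have h8 := hav (q 0) hodd (c, y, fun i => ⟨q i.succ, (hqs i).1⟩)
        set C0 := sl c (p c).1 y fun i => q i.succ with hC0
        set C1 := sl c ((p c).1 + (p c).2) y fun i => q i.succ with hC1
        have hXc : X (c, y, fun i => ⟨q i.succ, (hqs i).1⟩) = E c (p c).1 * C0 := rfl
        have hYc : Y (c, y, fun i => ⟨q i.succ, (hqs i).1⟩) = E c ((p c).1 + (p c).2) * C1 := rfl
        have hX0 : E c (p c).1 * C0 ≠ 0 := mul_ne_zero (Complex.exp_ne_zero _) h6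
        have e1 : cexp (Real.pi * I * ((((p c).1 : ℂ) + ε0 c) ^ 2 * τ 0 0) + 2 * Real.pi * I *
            ((((p c).1 : ℂ) + ε0 c) * (t + z c 0))) =
            cexp (2 * Real.pi * I * ((((p c).1 : ℂ) + ε0 c) * t)) * E c (p c).1 := by
          rw [hE]
          simp only
          rw [← Complex.exp_add]
          congr 1
          ring
        have e2 : cexp (Real.pi * I * (((((p c).1 + (p c).2 : ℤ) : ℂ) + ε0 c) ^ 2 * τ 0 0) +
            2 * Real.pi * I * (((((p c).1 + (p c).2 : ℤ) : ℂ) + ε0 c) * (t + z c 0))) =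
            cexp (2 * Real.pi * I * ((((p c).1 : ℂ) + ε0 c) * t)) *
              (cexp (2 * Real.pi * I * (((p c).2 : ℂ) * t)) * E c ((p c).1 + (p c).2)) := by
          rw [hE]
          simp only
          rw [← Complex.exp_add, ← Complex.exp_add]
          congr 1
          push_cast
          ring
        rw [e1, e2] at h0
        have h9 : E c (p c).1 * C0 + cexp (2 * Real.pi * I * (((p c).2 : ℂ) * t)) *
            (E c ((p c).1 + (p c).2) * C1) = 0 := by
          have h10 : cexp (2 * Real.pi * I * ((((p c).1 : ℂ) + ε0 c) * t)) *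
              (E c (p c).1 * C0 + cexp (2 * Real.pi * I * (((p c).2 : ℂ) * t)) *
                (E c ((p c).1 + (p c).2) * C1)) = 0 := by
            rw [← h0]
            ring
          exact (mul_eq_zero.1 h10).resolve_left (Complex.exp_ne_zero _)
        have hY0 : E c ((p c).1 + (p c).2) * C1 ≠ 0 := by
          intro hY0
          rw [hY0, mul_zero, add_zero] at h9
          exact hX0 h9
        rcases hp1 c with hs | hs
        · apply h8
          have hs' : (p (c, y, fun i => (⟨q i.succ, (hqs i).1⟩ : Fin (2 ^ jl i))).1).2 = 1 := hs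
          rw [if_pos hs', hXc, hYc, eq_div_iff hY0]
          rw [hs] at h9
          rw [← ht]
          have h11 : (2 * Real.pi * I * (((1 : ℤ) : ℂ) * t)) = 2 * Real.pi * I * t := by
            push_cast
            ring
          rw [h11] at h9
          rw [hs]
          linear_combination h9
        · apply h8
          have hs' : ¬ (p (c, y, fun i => (⟨q i.succ, (hqs i).1⟩ : Fin (2 ^ jl i))).1).2 = 1 := by
            intro h12
            have h13 : (p c).2 = 1 := h12
            rw [hs] at h13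
            norm_num at h13
          rw [if_neg hs', hXc, hYc, eq_div_iff hX0]
          rw [hs] at h9
          rw [← ht]
          have h11 : (2 * Real.pi * I * (((-1 : ℤ) : ℂ) * t)) = -(2 * Real.pi * I * t) := by
            push_cast
            ring
          rw [h11] at h9
          have h12 : cexp (2 * Real.pi * I * t) * cexp (-(2 * Real.pi * I * t)) = 1 := by
            rw [← Complex.exp_add, add_neg_cancel, Complex.exp_zero]
          rw [hs]
          linear_combination cexp (2 * Real.pi * I * t) * h9 -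
            (E c ((p c).1 + -1) * C1) * h12

end Run7.h92
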