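import Pool.Agent.Run7.h92.Fin2
import Pool.Agent.Run7.h92.Tor4
import Pool.Agent.Run7.h92.Tor7

/-!
# Good weights along cones: transfer
-/

namespace Run7.h92

open Matrix Complex Filter Topology

variable {g k : ℕ}

/-- transfer of weights from a parameter space -/
theorem goodC_push {N n : ℕ} [NeZero N] (hn : N = 2 * n) (V : Fin k → Fin g → ℤ) (τ : MM g)
    {ι : Type*} [Fintype ι] (em : ι → CN N g) (w : ι → ℕ) (h0 : ∃ p, w p ≠ 0)
    (h1 : ∀ p, w p ≠ 0 → cdv V τ (chE N (em p)) (chZ N (em p) 0) ≠ 0)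
    (h2 : ∀ u : CN N g, Um u → (∑ p, (w p : ℝ)) / 12 ≤ ∑ p, (w p : ℝ) * gf (bq n u (em p)))
    (h3 : ∀ i, ∑ p, (w p : ℝ) * gf (bq n (rd N (V i) 0) (em p)) = (∑ p, (w p : ℝ)) / 12) :
    GoodC V τ := by
  classical
  subst hn
  set W : CN (2 * n) g → ℕ := fun x => ∑ p, if em p = x then w p else 0 with hW
  have hsum : ∀ F : CN (2 * n) g → ℝ, ∑ x, (W x : ℝ) * F x = ∑ p, (w p : ℝ) * F (em p) := by
    intro F
    rw [hW]
    push_cast
    simp_rw [Finset.sum_mul]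
    rw [Finset.sum_comm]
    refine Finset.sum_congr rfl fun p _ => ?_
    rw [Finset.sum_eq_single (em p)]
    · rw [if_pos rfl]
    · intro x _ hx
      rw [if_neg (Ne.symm hx), zero_mul]
    · intro h
      exact absurd (Finset.mem_univ _) h
  have htot : ∑ x, (W x : ℝ) = ∑ p, (w p : ℝ) := by
    have := hsum fun _ => 1
    simpa using this
  refine ⟨n, inferInstance, W, ?_, ?_, ?_, ?_⟩
  · obtain ⟨p, hp⟩ := h0
    refine ⟨em p, fun h => hp ?_⟩
    rw [hW] at h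
    simp only at h
    have := Finset.sum_eq_zero_iff.1 h p (Finset.mem_univ p)
    rwa [if_pos rfl] at this
  · intro x hx
    rw [hW] at hx
    obtain ⟨p, _, hp⟩ := Finset.exists_ne_zero_of_sum_ne_zero hx
    by_cases h : em p = x
    · rw [if_pos h] at hp
      rw [← h]
      exact h1 p hp
    · rw [if_neg h] at hp
      exact absurd rfl hp
  · intro u hu
    rw [htot, hsum fun x => gf (bq n u x)]
    exact h2 u hu
  · intro i
    unfold Exw
    rw [htot, hsum fun x => gf (bq n (rd (2 * n) (V i) 0) x)]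
    exact h3 i

theorem pv_jn (r : ℕ) (A : Fin r → ℤ) (y : Fin (g + r) → ℝ) :
    pv (jn r A (0 : Fin g → ℤ)) y = ∑ i, (A i : ℝ) * hdv r y i := by
  induction r with
  | zero =>
    unfold pv jn
    simp
  | succ r ih =>
    have h1 : pv (jn (r + 1) A (0 : Fin g → ℤ)) y = (A 0 : ℝ) * y (0 : Fin (g + r + 1)) +
        pv (jn r (fun i => A i.succ) (0 : Fin g → ℤ)) fun j => y (Fin.succ j : Fin (g + r + 1)) :=
      pv_cons (A 0) _ _
    rw [h1, ih, Fin.sum_univ_succ]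
    rfl

/-- the toric condition -/
def Pdc {r : ℕ} (V : Fin k → Fin r → ℤ) (e : Fin r → Bool) (m : Fin r → ℤ) : Prop :=
  ∀ l, (∑ i, (V l i : ℝ) * ((m i : ℝ) + hfv e i)) ^ 2 = hmin (∑ i, (V l i : ℝ) * hfv e i)

theorem hdv_map {α β : Type*} (r : ℕ) (f : α → β) (m : Fin (g + r) → α) :
    hdv r (fun j => f (m j)) = fun i => f (hdv r m i) := by
  induction r with
  | zero => funext i; exact i.elim0
  | succ r ih =>
    funext i
    refine Fin.cases rfl (fun i => ?_) i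
    exact congrFun (ih fun j => m (Fin.succ j : Fin (g + r + 1))) i

theorem hdv_map2 {α β γ : Type*} (r : ℕ) (f : α → β → γ) (m : Fin (g + r) → α)
    (m' : Fin (g + r) → β) :
    hdv r (fun j => f (m j) (m' j)) = fun i => f (hdv r m i) (hdv r m' i) := by
  induction r with
  | zero => funext i; exact i.elim0
  | succ r ih =>
    funext i
    refine Fin.cases rfl (fun i => ?_) i
    exact congrFun (ih (fun j => m (Fin.succ j : Fin (g + r + 1)))
      fun j => m' (Fin.succ j : Fin (g + r + 1))) i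

theorem tlv_map {α β : Type*} (r : ℕ) (f : α → β) (m : Fin (g + r) → α) :
    tlv r (fun j => f (m j)) = fun i => f (tlv r m i) := by
  induction r with
  | zero => rfl
  | succ r ih => exact ih fun j => m (Fin.succ j : Fin (g + r + 1))

theorem Mn_jn {r : ℕ} (V : Fin k → Fin r → ℤ) (e : Fin r → Bool) (ε : Fin g → ℝ)
    (m : Fin (g + r) → ℤ) :
    Mn (fun l => jn r (V l) (0 : Fin g → ℤ)) (jn r (hfv e) ε) m ↔ Pdc V e (hdv r m) := by
  unfold Mn Pdc
  refine forall_congr' fun l => ?_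
  rw [pv_jn, pv_jn, hdv_jn, hdv_map2 r (fun (a : ℤ) (b : ℝ) => (a : ℝ) + b), hdv_jn]

theorem cdv_jn {r : ℕ} (V : Fin k → Fin r → ℤ) (e : Fin r → Bool) (ε : Fin g → ℝ)
    (τ : MM (g + r)) (z : Fin (g + r) → ℂ) :
    cdv (fun l => jn r (V l) (0 : Fin g → ℤ)) τ (jn r (hfv e) ε) z =
      cdp r (Pdc V e) τ (jn r (hfv e) ε) z := by
  classical
  unfold cdv cdp
  refine tsum_congr fun m => ?_
  by_cases h : Pdc V e (hdv r m)
  · rw [if_pos h, if_pos ((Mn_jn V e ε m).2 h)]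
  · rw [if_neg h, if_neg fun h' => h ((Mn_jn V e ε m).1 h')]

/-- joining commutes with pointwise maps -/
theorem jn_map {α β : Type*} (r : ℕ) (f : α → β) (a : Fin r → α) (y : Fin g → α) :
    (fun j => f (jn r a y j)) = jn r (fun i => f (a i)) fun i => f (y i) := by
  induction r with
  | zero => rfl
  | succ r ih =>
    funext i
    refine Fin.cases rfl (fun i => ?_) i
    exact congrFun (ih (fun i => a i.succ)) i

variable {J a r : ℕ}

theorem val_sc (ha : a ≤ J) (v : ZMod (2 ^ a)) :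
    ((((2 : ZMod (2 ^ J)) ^ (J - a) * ((v.val : ℕ) : ZMod (2 ^ J))).val : ℝ)) / ((2 ^ J : ℕ) : ℝ) =
      (v.val : ℝ) / ((2 ^ a : ℕ) : ℝ) := by
  have h1 : (2 : ZMod (2 ^ J)) ^ (J - a) * ((v.val : ℕ) : ZMod (2 ^ J)) =
      ((2 ^ (J - a) * v.val : ℕ) : ZMod (2 ^ J)) := by
    push_cast
    rfl
  rw [h1, pow_two_val ha v.val_lt]
  have e : ((2 ^ J : ℕ) : ℝ) = 2 ^ (J - a) * 2 ^ a := by
    push_cast
    rw [← pow_add]
    congr 1
    omega
  rw [e]
  push_cast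
  have h3 : (2 : ℝ) ^ (J - a) ≠ 0 := pow_ne_zero _ two_ne_zero
  have h4 : (2 : ℝ) ^ a ≠ 0 := pow_ne_zero _ two_ne_zero
  field_simp

theorem val_half (hJ : 1 ≤ J) :
    ((((2 : ZMod (2 ^ J)) ^ (J - 1)).val : ℝ)) / ((2 ^ J : ℕ) : ℝ) = 1 / 2 := by
  have h1 : (2 : ZMod (2 ^ J)) ^ (J - 1) = ((2 ^ (J - 1) * 1 : ℕ) : ZMod (2 ^ J)) := by
    push_cast
    ring
  rw [h1, pow_two_val hJ (show 1 < 2 ^ 1 by norm_num)]
  have e : ((2 ^ J : ℕ) : ℝ) = 2 ^ (J - 1) * 2 := by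
    push_cast
    rw [← pow_succ]
    congr 1
    omega
  rw [e]
  have h3 : (2 : ℝ) ^ (J - 1) ≠ 0 := pow_ne_zero _ two_ne_zero
  push_cast
  field_simp

theorem chE_emb (hJ : 1 ≤ J) (ha : a ≤ J) (p : Om J a r g) :
    chE (2 ^ J) (emb J p) = jn r (hfv p.1) (chE (2 ^ a) p.2.2) := by
  have h1 : chE (2 ^ J) (emb J p) = fun j => (((emb J p).1 j).val : ℝ) / ((2 ^ J : ℕ) : ℝ) := rfl
  have h2 : (emb J p).1 = jn r (fun i => if p.1 i then (2 : ZMod (2 ^ J)) ^ (J - 1) else 0)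
    (sc J p.2.2.1) := rfl
  rw [h1, h2, jn_map r (fun x : ZMod (2 ^ J) => (x.val : ℝ) / ((2 ^ J : ℕ) : ℝ))]
  congr 1
  · funext i
    unfold hfv
    cases hb : p.1 i with
    | false => simp
    | true => simp only [if_true]; exact val_half hJ
  · funext i
    exact val_sc ha _

theorem chZ_emb (ha : a ≤ J) (p : Om J a r g) (jl q : Fin r → ℕ)
    (hq : ∀ i, ((p.2.1 i).val : ℝ) / ((2 ^ J : ℕ) : ℝ) = ((q i : ℕ) : ℝ) / 2 ^ jl i) :
    chZ (2 ^ J) (emb J p) 0 = azv r a jl q p.2.2 0 := by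
  have h1 : chZ (2 ^ J) (emb J p) 0 = fun j =>
    ((((((emb J p).2 j).val : ℝ) / ((2 ^ J : ℕ) : ℝ) : ℝ)) : ℂ) + 0 := rfl
  have h2 : (emb J p).2 = jn r p.2.1 (sc J p.2.2.2) := rfl
  have h3 : azv r a jl q p.2.2 0 = fun j => jn r (qv jl q) (chZ (2 ^ a) p.2.2 0) j + 0 := rfl
  rw [h1, h2, h3, jn_map r (fun x : ZMod (2 ^ J) =>
    ((((x.val : ℝ) / ((2 ^ J : ℕ) : ℝ) : ℝ)) : ℂ) + 0), jn_map r (fun x : ℂ => x + 0)]
  congr 1
  · funext i
    unfold qv
    rw [hq i]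
  · funext i
    have h4 : chZ (2 ^ a) p.2.2 0 i = ((((p.2.2.2 i).val : ℝ) / ((2 ^ a : ℕ) : ℝ) : ℝ) : ℂ) + 0 := rfl
    rw [h4, ← val_sc ha (p.2.2.2 i)]
    simp only [add_zero]
    rfl

/-- numerators of toric arguments -/
theorem cw_num {j : ℕ} (hj1 : 1 ≤ j) (hj : j ≤ J) {b : Bool} {δ : ZMod (2 ^ J)}
    (h : cw J b j δ ≠ 0) : ∃ q : ℕ, q < 2 ^ j ∧ (b = true → Odd q) ∧
      (δ.val : ℝ) / ((2 ^ J : ℕ) : ℝ) = (q : ℝ) / 2 ^ j := by
  have h1 : (2 : ZMod (2 ^ J)) ^ j * δ = 0 := by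
    unfold cw at h
    cases b with
    | false =>
      by_contra hc
      simp [hc] at h
    | true =>
      by_contra hc
      simp [hc] at h
  have h2 : ((2 ^ j * δ.val : ℕ) : ZMod (2 ^ J)) = 0 := by
    push_cast
    rw [ZMod.natCast_zmod_val]
    exact h1
  rw [ZMod.natCast_eq_zero_iff] at h2
  have e : 2 ^ J = 2 ^ j * 2 ^ (J - j) := by rw [← pow_add]; congr 1; omega
  conv at h2 => lhs; rw [e]
  obtain ⟨q, hq⟩ := Nat.dvd_of_mul_dvd_mul_left (by positivity) h2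
  refine ⟨q, ?_, ?_, ?_⟩
  · have h3 : δ.val < 2 ^ J := δ.val_lt
    rw [hq, e, mul_comm (2 ^ j)] at h3
    exact Nat.lt_of_mul_lt_mul_left h3
  · intro hb
    rw [hb] at h
    have h3 : (2 : ZMod (2 ^ J)) ^ (j - 1) * δ ≠ 0 := by
      intro hc
      unfold cw at h
      simp [hc] at h
    by_contra hodd
    rw [Nat.not_odd_iff_even] at hodd
    obtain ⟨m, hm⟩ := hodd
    apply h3
    rw [← ZMod.natCast_zmod_val δ, hq, hm]
    push_cast
    have : (2 : ZMod (2 ^ J)) ^ (j - 1) * (2 ^ (J - j) * ((m : ZMod (2 ^ J)) + m)) =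
        2 ^ (j - 1) * 2 ^ (J - j) * 2 * m := by ring
    rw [this, ← pow_add, ← pow_succ, show j - 1 + (J - j) + 1 = J by omega, two_pow_J, zero_mul]
  · rw [hq]
    have e2 : ((2 ^ J : ℕ) : ℝ) = 2 ^ j * 2 ^ (J - j) := by
      push_cast
      rw [← pow_add]
      congr 1
      omega
    rw [e2]
    push_cast
    have h3 : (2 : ℝ) ^ (J - j) ≠ 0 := pow_ne_zero _ two_ne_zero
    have h4 : (2 : ℝ) ^ j ≠ 0 := pow_ne_zero _ two_ne_zero
    field_simp

end Run7.h92
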