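import Pool.Agent.Run7.h92.StepD
import Pool.Agent.Run7.h92.Tor6
import Pool.Agent.Run7.h92.Tor8
import Pool.Agent.Run7.h92.Tor9

/-!
# Certificates of cones give good weights
-/

namespace Run7.h92

open Matrix Complex Filter Topology

variable {g k r : ℕ}

/-- parity vector -/
def par (v : Fin r → ℤ) : Fin r → Bool := fun i => decide (v i % 2 = 1)

/-- certificate of a configuration of vectors -/
structure CertB (V : Fin k → Fin r → ℤ) (P : (Fin r → Bool) → ℕ)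
    (o : (Fin r → Bool) → Fin r → Bool) : Prop where
  pos : ∃ e, P e ≠ 0
  c1 : ∀ i, 3 * ∑ e, (if o e i then (P e : ℝ) else 0) ≤ ∑ e, (P e : ℝ)
  c2 : ∀ b : Fin r → Bool, b ≠ (fun _ => false) → 3 * ∑ e, (P e : ℝ) * sg b e ≤ ∑ e, (P e : ℝ)
  c3 : ∀ l, 3 * ∑ e, (P e : ℝ) * sg (par (V l)) e = ∑ e, (P e : ℝ)
  c4 : ∀ e, P e ≠ 0 → Nice r (Pdc V e) (o e)

theorem dy_one_int {J : ℕ} (hJ : 1 ≤ J) (v : ℤ) :
    decide (¬ Dy 1 ((v : ℤ) : ZMod (2 ^ J))) = decide (v % 2 = 1) := by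
  have h1 : Dy 1 ((v : ℤ) : ZMod (2 ^ J)) ↔ (2 : ℤ) ∣ v := by
    unfold Dy
    have e : (2 : ZMod (2 ^ J)) ^ (J - 1) * ((v : ℤ) : ZMod (2 ^ J)) =
        (((2 ^ (J - 1) * v : ℤ)) : ZMod (2 ^ J)) := by
      push_cast
      rfl
    rw [e, ZMod.intCast_zmod_eq_zero_iff_dvd]
    have e2 : ((2 ^ J : ℕ) : ℤ) = 2 ^ (J - 1) * 2 := by
      push_cast
      rw [← pow_succ]
      congr 1
      omega
    rw [e2]
    exact mul_dvd_mul_iff_left (pow_ne_zero _ two_ne_zero)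
  rw [decide_eq_decide, h1]
  omega

theorem CertB.goodC {V : Fin k → Fin r → ℤ} {P : (Fin r → Bool) → ℕ}
    {o : (Fin r → Bool) → Fin r → Bool} (h : CertB V P o) {τ : MM (g + r)} (hτ : τ ∈ HH (g + r)) :
    GoodC (fun l => jn r (V l) (0 : Fin g → ℤ)) τ := by
  classical
  obtain ⟨a, jl, W', ha1, hj1, h3, h4, h5⟩ := lev r hτ (ι := Fin r → Bool) (fun e => e) o
    (fun e => Pdc V e) (fun _ => 0)
  set J : ℕ := a + ∑ i, jl i with hJd
  have haJ : a ≤ J := Nat.le_add_right _ _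
  have hjJ : ∀ i, jl i ≤ J := fun i =>
    (Finset.single_le_sum (fun _ _ => Nat.zero_le _) (Finset.mem_univ i)).trans (Nat.le_add_left _ _)
  have hJ : 1 ≤ J := ha1.trans haJ
  set μ : (Fin r → Bool) → ℕ := fun e => ∑ y, W' e y with hμ
  have hμ0 : ∀ e, 0 < μ e := by
    intro e
    obtain ⟨x, hx⟩ := h3 e
    exact Nat.pos_of_ne_zero fun h => hx (Finset.sum_eq_zero_iff.1 h x (Finset.mem_univ x))
  set K : ℕ := ∏ e, μ e with hK
  have hK0 : 0 < K := Finset.prod_pos fun e _ => hμ0 e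
  set cc : (Fin r → Bool) → ℕ := fun e => ∏ i ∈ Finset.univ.erase e, μ i with hcc
  set W : (Fin r → Bool) → CN (2 ^ a) g → ℕ := fun e y => cc e * W' e y with hWdef
  have hW : ∀ e, ∑ y, W e y = K := by
    intro e
    rw [hWdef]
    simp only
    rw [← Finset.mul_sum]
    exact Finset.prod_erase_mul _ _ (Finset.mem_univ e)
  set D : TorD J a r g :=
    { hJ := hJ, ha1 := ha1, ha := haJ, P := P, o := o, jl := jl, h1 := hj1, h2 := hjJ, W := W, K := K,
      hK := hW, hQ := fun e => QQ_mul (cc e) (h4 e), c1 := h.c1, c2 := h.c2 } with hD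
  have hn : 2 ^ J = 2 * 2 ^ (J - 1) := by
    rw [← pow_succ']
    congr 1
    omega
  refine goodC_push hn _ τ (emb J) (om J P o jl W) ?_ ?_ ?_ ?_
  · by_contra hcon
    push Not at hcon
    have h6 := D.sum_om
    have h7 : ∑ p : Om J a r g, (om J D.P D.o D.jl D.W p : ℝ) = 0 :=
      Finset.sum_eq_zero fun p _ => by
        have : om J D.P D.o D.jl D.W p = 0 := hcon p
        rw [this]
        simp
    rw [h7] at h6
    have h8 : 0 < D.S := by
      obtain ⟨e, he⟩ := h.pos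
      refine lt_of_lt_of_le (Nat.cast_pos.2 (Nat.pos_of_ne_zero he)) ?_
      exact Finset.single_le_sum (f := fun e => (P e : ℝ)) (fun _ _ => Nat.cast_nonneg _)
        (Finset.mem_univ e)
    have h9 : (0 : ℝ) < D.K := Nat.cast_pos.2 hK0
    have := mul_pos (mul_pos h8 D.C_pos) h9
    linarith
  · intro p hp
    unfold om at hp
    have hP : P p.1 ≠ 0 := left_ne_zero_of_mul (left_ne_zero_of_mul hp)
    have hc : ∀ i, cw J (o p.1 i) (jl i) (p.2.1 i) ≠ 0 := fun i =>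
      Finset.prod_ne_zero_iff.1 (right_ne_zero_of_mul (left_ne_zero_of_mul hp)) i (Finset.mem_univ i)
    have hWp : W' p.1 p.2.2 ≠ 0 := right_ne_zero_of_mul (right_ne_zero_of_mul hp)
    choose q hq1 hq2 hq3 using fun i => cw_num (hj1 i) (hjJ i) (hc i)
    rw [chE_emb hJ haJ, chZ_emb haJ p jl q hq3, cdv_jn]
    exact h5 p.1 (h.c4 _ hP) p.2.2 hWp q fun i => ⟨hq1 i, hq2 i⟩
  · intro u hu
    exact D.ineq hu
  · intro l
    have hz : ∀ v : Fin r → ℤ, (rd (2 ^ J) (jn r v (0 : Fin g → ℤ)) 0).2 = 0 := by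
      intro v
      funext i
      simp [rd]
    have ht : ∀ v : Fin r → ℤ, ∀ i, tlv r (rd (2 ^ J) (jn r v (0 : Fin g → ℤ)) 0).1 i = 0 := by
      intro v i
      have e1 : (rd (2 ^ J) (jn r v (0 : Fin g → ℤ)) 0).1 =
        fun j => ((jn r v (0 : Fin g → ℤ) j : ℤ) : ZMod (2 ^ J)) := rfl
      rw [e1, tlv_map r (fun x : ℤ => (x : ZMod (2 ^ J))), tlv_jn]
      simp
    have hh : ∀ v : Fin r → ℤ, (fun i => decide (¬ Dy 1 (hdv r
        (rd (2 ^ J) (jn r v (0 : Fin g → ℤ)) 0).1 i))) = par v := by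
      intro v
      funext i
      have e1 : (rd (2 ^ J) (jn r v (0 : Fin g → ℤ)) 0).1 =
        fun j => ((jn r v (0 : Fin g → ℤ) j : ℤ) : ZMod (2 ^ J)) := rfl
      rw [e1, hdv_map r (fun x : ℤ => (x : ZMod (2 ^ J))), hdv_jn]
      exact dy_one_int hJ (v i)
    refine D.exact (hz (V l)) (ht (V l)) ?_
    rw [hh]
    exact h.c3 l

end Run7.h92
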