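import Pool.Agent.Run7.h92.Lower

/-!
# The torus side
-/

namespace Run7.h92

open Complex MeasureTheory Metric Real Set Filter Topology

/-- real coordinates -/
abbrev XX (g : ℕ) : Type := Fin g ⊕ Fin g → ℝ

/-- the torus -/
abbrev TT (g : ℕ) : Type := Fin g ⊕ Fin g → UnitAddCircle

variable {g : ℕ}

/-- projection to the torus -/
def pr (x : XX g) : TT g := fun i => (x i : UnitAddCircle)

theorem pr_add (x y : XX g) : pr (x + y) = pr x + pr y := by
  funext i
  simp [pr]

/-- integer vectors as real vectors -/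
def iv (m : Fin g ⊕ Fin g → ℤ) : XX g := fun i => (m i : ℝ)

theorem pr_eq_iff {x y : XX g} : pr x = pr y ↔ ∃ m : Fin g ⊕ Fin g → ℤ, x = y + iv m := by
  constructor
  · intro h
    have h1 : ∀ i, ∃ n : ℤ, x i = y i + n := by
      intro i
      have h2 : (x i : UnitAddCircle) = (y i : UnitAddCircle) := congrFun h i
      have h3 : ((y i - x i : ℝ) : UnitAddCircle) = 0 := by
        rw [AddCircle.coe_sub, h2, sub_self]
      rw [AddCircle.coe_eq_zero_iff] at h3
      obtain ⟨n, hn⟩ := h3
      refine ⟨-n, ?_⟩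
      simp only [zsmul_eq_mul, mul_one] at hn
      push_cast
      linarith
    choose m hm using h1
    exact ⟨m, funext fun i => by simp [iv, hm i]⟩
  · rintro ⟨m, rfl⟩
    funext i
    have : ((m i : ℝ) : UnitAddCircle) = 0 := by
      rw [AddCircle.coe_eq_zero_iff]
      exact ⟨m i, by simp⟩
    simp [pr, iv]

/-- the half open cube -/
def cube (a : XX g) : Set (XX g) := Set.pi univ fun i => Ioc (a i) (a i + 1)

theorem measurableSet_cube (a : XX g) : MeasurableSet (cube a) :=
  MeasurableSet.univ_pi fun _ => measurableSet_Ioc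

theorem pr_mp (a : XX g) : MeasurePreserving (pr (g := g)) (volume.restrict (cube a)) volume := by
  have h := measurePreserving_pi (fun i => (volume : Measure ℝ).restrict (Ioc (a i) (a i + 1)))
    (fun _ => (volume : Measure UnitAddCircle)) (f := fun _ => ((↑) : ℝ → UnitAddCircle))
    (fun i => UnitAddCircle.measurePreserving_mk (a i))
  rw [← Measure.restrict_pi_pi] at h
  exact h

theorem measurable_pr : Measurable (pr (g := g)) := by
  unfold pr
  fun_prop

/-- representative in the unit cube -/
noncomputable def rep (p : TT g) : XX g := fun i => (AddCircle.equivIoc 1 0 (p i) : ℝ)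

theorem pr_rep (p : TT g) : pr (rep p) = p := by
  funext i
  exact AddCircle.coe_equivIoc (p := (1:ℝ)) (a := 0)

theorem measurable_rep : Measurable (rep (g := g)) := by
  refine measurable_pi_lambda _ fun i => ?_
  exact measurable_subtype_coe.comp ((AddCircle.measurableEquivIoc 1 0).measurable.comp
    (measurable_pi_apply i))

theorem rep_mem (p : TT g) : rep p ∈ cube (0 : XX g) := by
  intro i _
  have := (AddCircle.equivIoc (1:ℝ) 0 (p i)).2
  simpa [rep] using this

theorem rep_pr {x : XX g} (hx : x ∈ cube (0 : XX g)) : rep (pr x) = x := by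
  funext i
  have h := hx i (mem_univ i)
  have := AddCircle.equivIoc_coe_of_mem (p := (1:ℝ)) (a := 0) (y := x i) (by simpa using h)
  exact this

theorem rep_mp : MeasurePreserving (rep (g := g)) volume (volume.restrict (cube 0)) := by
  refine ⟨measurable_rep, ?_⟩
  have h1 := (pr_mp (0 : XX g)).map_eq
  rw [← h1, Measure.map_map measurable_rep measurable_pr]
  have h2 : (rep ∘ pr : XX g → XX g) =ᵐ[volume.restrict (cube 0)] id := by
    refine (ae_restrict_iff' (measurableSet_cube 0)).2 (Filter.Eventually.of_forall fun x hx => ?_)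
    exact rep_pr hx
  rw [Measure.map_congr h2, Measure.map_id]

/-- The data: an entire function on `ℂ^g` whose absolute value, weighted by a Gaussian factor,
is periodic for a lattice. -/
structure Dat (g : ℕ) where
  /-- real coordinates with integral lattice -/
  A : XX g ≃ₗ[ℝ] (Fin g → ℂ)
  /-- the function -/
  f : (Fin g → ℂ) → ℂ
  hf : Differentiable ℂ f
  hne : ∃ z, f z ≠ 0
  /-- the bilinear form -/
  b : XX g →ₗ[ℝ] XX g →ₗ[ℝ] ℝ
  per : ∀ (x : XX g) (m : Fin g ⊕ Fin g → ℤ),
    ‖f (A (x + iv m))‖ * Real.exp (-(b (x + iv m) (x + iv m))) = ‖f (A x)‖ * Real.exp (-(b x x))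

namespace Dat

variable (D : Dat g)

/-- logarithm of the norm -/
noncomputable def lg (x : XX g) : ℝ := Real.log (‖D.f (D.A x)‖ * Real.exp (-(D.b x x)))

theorem lg_per (x : XX g) (m : Fin g ⊕ Fin g → ℤ) : D.lg (x + iv m) = D.lg x := by
  unfold lg
  rw [D.per]

theorem lg_eq {x : XX g} (hx : D.f (D.A x) ≠ 0) :
    D.lg x = Real.log ‖D.f (D.A x)‖ - D.b x x := by
  unfold lg
  rw [Real.log_mul (norm_ne_zero_iff.2 hx) (Real.exp_ne_zero _), Real.log_exp]
  ring

theorem abs_lg_le (x : XX g) : |D.lg x| ≤ |Real.log ‖D.f (D.A x)‖| + |D.b x x| := by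
  by_cases hx : D.f (D.A x) = 0
  · unfold lg
    rw [hx]
    simp
  · rw [D.lg_eq hx]
    exact abs_sub _ _

theorem continuous_A : Continuous D.A :=
  D.A.toLinearMap.continuous_of_finiteDimensional

theorem continuous_B : Continuous D.A.symm :=
  D.A.symm.toLinearMap.continuous_of_finiteDimensional

theorem continuous_bxy : Continuous fun p : XX g × XX g => D.b p.1 p.2 := by
  set L : XX g →ₗ[ℝ] (XX g →L[ℝ] ℝ) := (LinearMap.toContinuousLinearMap.toLinearMap).comp D.b with hL
  have h1 : Continuous L := L.continuous_of_finiteDimensional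
  have h2 : Continuous fun p : XX g × XX g => L p.1 p.2 :=
    (h1.comp continuous_fst).clm_apply continuous_snd
  exact h2

theorem continuous_b : Continuous fun x => D.b x x :=
  D.continuous_bxy.comp (continuous_id.prodMk continuous_id)

/-- the periodic function -/
noncomputable def u (p : TT g) : ℝ := D.lg (rep p)

theorem u_pr (x : XX g) : D.u (pr x) = D.lg x := by
  unfold u
  have h : pr (rep (pr x)) = pr x := pr_rep (pr x)
  obtain ⟨m, hm⟩ := pr_eq_iff.1 h
  rw [hm, D.lg_per]

theorem measurable_lg : Measurable D.lg := by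
  unfold lg
  have h1 : Continuous fun x => ‖D.f (D.A x)‖ * Real.exp (-(D.b x x)) :=
    ((D.hf.continuous.comp D.continuous_A).norm).mul (Real.continuous_exp.comp D.continuous_b.neg)
  exact Real.measurable_log.comp h1.measurable

theorem measurable_u : Measurable D.u := D.measurable_lg.comp measurable_rep

/-- the image of Lebesgue measure under `A` -/
theorem map_A : ∃ c : ENNReal, c ≠ 0 ∧ c ≠ ⊤ ∧
    Measure.map D.A (volume : Measure (XX g)) = c • (volume : Measure (Fin g → ℂ)) := by
  set e := D.A.toContinuousLinearEquiv with he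
  have h1 : (Measure.map e (volume : Measure (XX g))).IsAddHaarMeasure :=
    e.isAddHaarMeasure_map volume
  have h2 := Measure.isAddLeftInvariant_eq_smul (Measure.map e (volume : Measure (XX g)))
    (volume : Measure (Fin g → ℂ))
  refine ⟨_, ?_, ?_, h2⟩
  · intro h0
    have h0' := ENNReal.coe_eq_zero.1 h0
    rw [h0', zero_smul] at h2
    have := h1.toIsOpenPosMeasure.open_pos univ isOpen_univ univ_nonempty
    apply this
    rw [h2]
    simp
  · exact ENNReal.coe_ne_top

theorem null_A {s : Set (Fin g → ℂ)} (hs : volume s = 0) : volume (D.A ⁻¹' s) = 0 := by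
  obtain ⟨c, -, -, h⟩ := D.map_A
  obtain ⟨t, hst, ht, ht0⟩ := exists_measurable_superset_of_null hs
  refine measure_mono_null (preimage_mono hst) ?_
  rw [← Measure.map_apply D.continuous_A.measurable ht, h]
  simp [ht0]

theorem ae_ne : ∀ᵐ x : XX g, D.f (D.A x) ≠ 0 := by
  rw [ae_iff]
  have := D.null_A (null_zero D.hf D.hne)
  simpa using this

theorem integrableOn_comp_A {h : (Fin g → ℂ) → ℝ} {s : Set (Fin g → ℂ)}
    (hh : IntegrableOn h s) : IntegrableOn (h ∘ D.A) (D.A ⁻¹' s) := by
  obtain ⟨c, -, hc, h1⟩ := D.map_A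
  have hemb : MeasurableEmbedding D.A :=
    D.A.toContinuousLinearEquiv.toHomeomorph.measurableEmbedding
  have h2 := hemb.integrableOn_map_iff (f := h) (μ := (volume : Measure (XX g))) (s := s)
  rw [← h2, h1, IntegrableOn, Measure.restrict_smul]
  exact Integrable.smul_measure hh hc

theorem integrable_u : Integrable D.u := by
  have h1 : IntegrableOn D.lg (cube (0 : XX g)) := by
    obtain ⟨R, hR⟩ : ∃ R : ℝ, ∀ x ∈ Set.pi univ fun i => Icc ((0 : XX g) i) ((0 : XX g) i + 1),
        ‖D.A x‖ ≤ R := by
      have hK : IsCompact (Set.pi univ fun i => Icc ((0 : XX g) i) ((0 : XX g) i + 1)) :=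
        isCompact_univ_pi fun _ => isCompact_Icc
      exact hK.exists_bound_of_continuousOn D.continuous_A.continuousOn
    obtain ⟨R', hR'⟩ : ∃ R : ℝ, ∀ x ∈ Set.pi univ fun i => Icc ((0 : XX g) i) ((0 : XX g) i + 1),
        ‖D.b x x‖ ≤ R := by
      have hK : IsCompact (Set.pi univ fun i => Icc ((0 : XX g) i) ((0 : XX g) i + 1)) :=
        isCompact_univ_pi fun _ => isCompact_Icc
      exact hK.exists_bound_of_continuousOn D.continuous_b.continuousOn
    have hsub : cube (0 : XX g) ⊆ Set.pi univ fun i => Icc ((0 : XX g) i) ((0 : XX g) i + 1) :=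
      fun x hx i hi => Ioc_subset_Icc_self (hx i hi)
    have h2 : IntegrableOn (fun z => Real.log ‖D.f z‖) (closedBall 0 R) := by
      have := logint D.hf D.hne 0 R
      simpa using this
    have h3 := D.integrableOn_comp_A h2
    have h4 : IntegrableOn ((fun z => Real.log ‖D.f z‖) ∘ D.A) (cube (0 : XX g)) :=
      h3.mono_set fun x hx => by
        rw [mem_preimage, mem_closedBall, dist_zero_right]
        exact hR x (hsub hx)
    have hvol : volume (cube (0 : XX g)) < ⊤ := by
      refine lt_of_le_of_lt (measure_mono hsub) ?_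
      exact (isCompact_univ_pi fun _ => isCompact_Icc).measure_lt_top
    have h5 : IntegrableOn (fun x => |Real.log ‖D.f (D.A x)‖| + R') (cube (0 : XX g)) := by
      refine Integrable.add ?_ ?_
      · exact h4.abs
      · rw [← IntegrableOn, integrableOn_const_iff]
        right
        exact hvol
    refine h5.mono' D.measurable_lg.aestronglyMeasurable ?_
    refine (ae_restrict_iff' (measurableSet_cube 0)).2 (Filter.Eventually.of_forall fun x hx => ?_)
    rw [Real.norm_eq_abs]
    refine (D.abs_lg_le x).trans ?_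
    have := hR' x (hsub hx)
    rw [Real.norm_eq_abs] at this
    linarith
  exact rep_mp.integrable_comp_of_integrable h1

theorem ae_torus {P : XX g → Prop} (h : ∀ᵐ x : XX g, P x) : ∀ᵐ p : TT g, P (rep p) := by
  have h1 : ∀ᵐ x ∂(volume.restrict (cube (0 : XX g))), P x := ae_restrict_of_ae h
  exact rep_mp.quasiMeasurePreserving.ae h1

/-- displacement on the torus along a complex direction -/
noncomputable def dis (ζ : Fin g → ℂ) : TT g := pr (D.A.symm ζ)

theorem measurable_dis : Measurable D.dis := measurable_pr.comp D.continuous_B.measurable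

/-- the quadratic correction -/
noncomputable def q (ζ : Fin g → ℂ) : ℝ :=
  Real.circleAverage (fun w => D.b (D.A.symm (w • ζ)) (D.A.symm (w • ζ))) 0 1

/-- the Jensen gap on the torus -/
noncomputable def S (p : TT g) (ζ : Fin g → ℂ) : ℝ :=
  Real.circleAverage (fun w => D.u (p + D.dis (w • ζ))) 0 1 - D.u p + D.q ζ

theorem b_expand (x y : XX g) : D.b (x + y) (x + y) = D.b x x + (D.b x y + D.b y x) + D.b y y := by
  simp only [map_add, LinearMap.add_apply]
  ring

/-- circle averages of real linear functions vanish -/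
theorem circleAverage_lin (L : ℂ →ₗ[ℝ] ℝ) : Real.circleAverage (fun w => L w) 0 1 = 0 := by
  have h1 : CircleIntegrable (fun w : ℂ => w) 0 1 := by
    exact continuous_id.continuousOn.circleIntegrable'
  have h2 := (LinearMap.toContinuousLinearMap L).circleAverage_comp_comm h1
  have h3 : Real.circleAverage (fun w : ℂ => w) 0 1 = 0 := by
    have := DiffContOnCl.circleAverage (f := fun w : ℂ => w) (c := 0) (R := 1)
      (differentiable_id.diffContOnCl)
    exact this
  rw [h3] at h2
  simpa [Function.comp_def] using h2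

theorem circleIntegrable_of_continuous {h : ℂ → ℝ} (hh : Continuous h) (c : ℂ) (R : ℝ) :
    CircleIntegrable h c R := hh.continuousOn.circleIntegrable'

theorem S_lift {x : XX g} (hx : D.f (D.A x) ≠ 0) (ζ : Fin g → ℂ) :
    D.S (pr x) ζ = SS D.f (D.A x) ζ := by
  have hF : Differentiable ℂ fun w : ℂ => D.f (D.A x + w • ζ) := line_diff D.hf (D.A x) ζ
  have e0 : ∀ w : ℂ, D.u (pr x + D.dis (w • ζ)) = D.lg (x + D.A.symm (w • ζ)) := by
    intro w
    rw [dis, ← pr_add, u_pr]
  have e1 : ∀ w : ℂ, D.A (x + D.A.symm (w • ζ)) = D.A x + w • ζ := by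
    intro w
    rw [map_add, LinearEquiv.apply_symm_apply]
  have hfin := zeros_finite hF ⟨0, by simpa using hx⟩ 0 1
  have hlin : Real.circleAverage (fun w : ℂ => D.b x (D.A.symm (w • ζ)) +
      D.b (D.A.symm (w • ζ)) x) 0 1 = 0 := by
    set M : ℂ →ₗ[ℝ] (Fin g → ℂ) :=
      { toFun := fun w => w • ζ
        map_add' := fun a b => add_smul a b ζ
        map_smul' := fun r a => by simp [mul_smul] } with hM
    set L : ℂ →ₗ[ℝ] ℝ := ((D.b x) + (D.b.flip x)).comp ((D.A.symm : (Fin g → ℂ) →ₗ[ℝ] XX g).comp M) with hL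
    exact circleAverage_lin L
  have e2 : Real.circleAverage (fun w => D.u (pr x + D.dis (w • ζ))) 0 1 =
      Real.circleAverage (fun w => Real.log ‖D.f (D.A x + w • ζ)‖ - (D.b x x +
        (D.b x (D.A.symm (w • ζ)) + D.b (D.A.symm (w • ζ)) x) +
        D.b (D.A.symm (w • ζ)) (D.A.symm (w • ζ)))) 0 1 := by
    refine Real.circleAverage_congr_codiscreteWithin ?_ one_ne_zero
    rw [Filter.EventuallyEq, Filter.Eventually, mem_codiscreteWithin_iff_forall_mem_nhdsNE]
    intro w hw
    have h4 : (hfin.toFinset : Set ℂ)ᶜ ∈ 𝓝[≠] w ∨ True := Or.inr trivial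
    have h5 : ∀ᶠ y in 𝓝[≠] w, y ∉ ({u ∈ closedBall (0:ℂ) 1 | D.f (D.A x + u • ζ) = 0} \ {w}) := by
      have h6 : ({u ∈ closedBall (0:ℂ) 1 | D.f (D.A x + u • ζ) = 0} \ {w}).Finite :=
        hfin.subset sdiff_subset
      have h7 : ∀ᶠ y in 𝓝 w, y ∉ ({u ∈ closedBall (0:ℂ) 1 | D.f (D.A x + u • ζ) = 0} \ {w}) := by
        refine h6.isClosed.isOpen_compl.mem_nhds ?_
        simp
      exact h7.filter_mono nhdsWithin_le_nhds
    filter_upwards [h5, self_mem_nhdsWithin] with y hy hyw
    by_cases hys : y ∈ sphere (0:ℂ) |1|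
    · left
      have hyb : y ∈ closedBall (0:ℂ) 1 := by
        have := sphere_subset_closedBall hys
        simpa using this
      have hne : D.f (D.A x + y • ζ) ≠ 0 := by
        intro h0
        exact hy ⟨⟨hyb, h0⟩, hyw⟩
      show D.u (pr x + D.dis (y • ζ)) = _
      rw [e0, D.lg_eq (by rw [e1]; exact hne), e1, D.b_expand]
    · right
      exact hys
  have hi1 : CircleIntegrable (fun w : ℂ => Real.log ‖D.f (D.A x + w • ζ)‖) 0 1 :=
    ((analyticU hF (sphere 0 |1|)).meromorphicOn).circleIntegrable_log_norm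
  have hcB : Continuous fun w : ℂ => D.A.symm (w • ζ) := D.continuous_B.comp (by fun_prop)
  have hc1 : Continuous fun w : ℂ => D.b x (D.A.symm (w • ζ)) + D.b (D.A.symm (w • ζ)) x :=
    (D.continuous_bxy.comp (continuous_const.prodMk hcB)).add
      (D.continuous_bxy.comp (hcB.prodMk continuous_const))
  have hc2 : Continuous fun w : ℂ => D.b (D.A.symm (w • ζ)) (D.A.symm (w • ζ)) :=
    D.continuous_b.comp hcB
  have hi2 := circleIntegrable_of_continuous (continuous_const (y := D.b x x)) 0 1
  have hi3 := circleIntegrable_of_continuous hc1 0 1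
  have hi4 := circleIntegrable_of_continuous hc2 0 1
  have hi23 : CircleIntegrable (fun w : ℂ => D.b x x +
      (D.b x (D.A.symm (w • ζ)) + D.b (D.A.symm (w • ζ)) x)) 0 1 :=
    circleIntegrable_of_continuous ((continuous_const (y := D.b x x)).add hc1) 0 1
  have hi234 : CircleIntegrable (fun w : ℂ => D.b x x +
      (D.b x (D.A.symm (w • ζ)) + D.b (D.A.symm (w • ζ)) x) +
      D.b (D.A.symm (w • ζ)) (D.A.symm (w • ζ))) 0 1 := circleIntegrable_of_continuous
    (((continuous_const (y := D.b x x)).add hc1).add hc2) 0 1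
  unfold S
  rw [e2, Real.circleAverage_fun_sub hi1 hi234, SS_eq, D.u_pr, D.lg_eq hx]
  have e3 : Real.circleAverage (fun w : ℂ => D.b x x +
        (D.b x (D.A.symm (w • ζ)) + D.b (D.A.symm (w • ζ)) x) +
        D.b (D.A.symm (w • ζ)) (D.A.symm (w • ζ))) 0 1 = D.b x x + 0 + D.q ζ := by
    rw [Real.circleAverage_fun_add hi23 hi4, Real.circleAverage_fun_add hi2 hi3, hlin,
      Real.circleAverage_const]
    rfl
  rw [e3]
  unfold CC
  ring

end Dat

end Run7.h92
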