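import Pool.Agent.Run7.h92.Torus

/-!
# Integrals of the Jensen gap over the torus
-/

namespace Run7.h92

open Complex MeasureTheory Metric Real Set Filter Topology

variable {g : ℕ}

/-- characters of the torus -/
noncomputable def chi (k : Fin g ⊕ Fin g → ℤ) (p : TT g) : ℂ := ∏ i, (fourier (k i) (p i) : ℂ)

/-- the pairing -/
noncomputable def dt (k : Fin g ⊕ Fin g → ℤ) (x : XX g) : ℝ := ∑ i, (k i : ℝ) * x i

theorem chi_pr (k : Fin g ⊕ Fin g → ℤ) (x : XX g) :
    chi k (pr x) = Complex.exp (2 * π * I * (dt k x : ℝ)) := by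
  unfold chi pr dt
  have : ∀ i, (fourier (k i) ((x i : ℝ) : UnitAddCircle) : ℂ) =
      Complex.exp (2 * π * I * ((k i : ℝ) * x i : ℝ)) := by
    intro i
    rw [fourier_coe_apply]
    congr 1
    push_cast
    ring
  simp_rw [this]
  rw [← Complex.exp_sum]
  congr 1
  push_cast
  rw [Finset.mul_sum]

theorem chi_add (k : Fin g ⊕ Fin g → ℤ) (p t : TT g) : chi k (p + t) = chi k p * chi k t := by
  rw [← pr_rep p, ← pr_rep t, ← pr_add, chi_pr, chi_pr, chi_pr, ← Complex.exp_add]
  congr 1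
  have : dt k (rep p + rep t) = dt k (rep p) + dt k (rep t) := by
    unfold dt
    rw [← Finset.sum_add_distrib]
    exact Finset.sum_congr rfl fun i _ => by simp [mul_add]
  rw [this]
  push_cast
  ring

theorem norm_chi (k : Fin g ⊕ Fin g → ℤ) (p : TT g) : ‖chi k p‖ = 1 := by
  rw [← pr_rep p, chi_pr, show (2 * π * I * (dt k (rep p) : ℝ) : ℂ) =
    ((2 * π * dt k (rep p) : ℝ) : ℂ) * I by push_cast; ring, Complex.norm_exp_ofReal_mul_I]

theorem measurable_chi (k : Fin g ⊕ Fin g → ℤ) : Measurable (chi k) := by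
  unfold chi
  refine Finset.measurable_prod _ fun i _ => ?_
  exact (fourier (k i)).continuous.measurable.comp (measurable_pi_apply i)

theorem chi_zero (p : TT g) : chi 0 p = 1 := by
  rw [← pr_rep p, chi_pr]
  simp [dt]

instance : IsProbabilityMeasure (volume : Measure UnitAddCircle) :=
  ⟨UnitAddCircle.measure_univ⟩

theorem integrable_chi (k : Fin g ⊕ Fin g → ℤ) : Integrable (chi k) := by
  refine Integrable.of_bound (measurable_chi k).aestronglyMeasurable 1
    (Filter.Eventually.of_forall fun p => (norm_chi k p).le)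

theorem integral_chi {k : Fin g ⊕ Fin g → ℤ} (hk : k ≠ 0) : ∫ p, chi k p = 0 := by
  obtain ⟨i, hi⟩ : ∃ i, k i ≠ 0 := by
    by_contra h
    push Not at h
    exact hk (funext h)
  set x : XX g := Pi.single i (1 / (2 * (k i : ℝ))) with hx
  have h1 : chi k (pr x) = -1 := by
    rw [chi_pr]
    have : dt k x = 1 / 2 := by
      unfold dt
      rw [Finset.sum_eq_single i]
      · have : (k i : ℝ) ≠ 0 := by exact_mod_cast hi
        simp [hx]
        field_simp
      · intro j _ hj
        simp [hx, hj]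
      · intro h; exact absurd (Finset.mem_univ i) h
    rw [this]
    push_cast
    rw [show (2 * π * I * (1 / 2) : ℂ) = π * I by ring, Complex.exp_pi_mul_I]
  have h2 : ∫ p, chi k (p + pr x) = ∫ p, chi k p := integral_add_right_eq_self _ _
  simp_rw [chi_add, h1] at h2
  rw [integral_mul_const] at h2
  have : (2 : ℂ) * ∫ p, chi k p = 0 := by linear_combination -h2
  simpa using this

namespace Dat

variable (D : Dat g)

/-- Fourier coefficient -/
noncomputable def uh (k : Fin g ⊕ Fin g → ℤ) : ℂ := ∫ p, chi k p * (D.u p : ℂ)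

/-- the symbol of the gap operator -/
noncomputable def J (k : Fin g ⊕ Fin g → ℤ) (ζ : Fin g → ℂ) : ℂ :=
  Real.circleAverage (fun w => chi k (-(D.dis (w • ζ)))) 0 1 - 1

theorem tr_mp (t : TT g) : MeasurePreserving (fun p : TT g => p + t) volume volume :=
  measurePreserving_add_right volume t

theorem meas_tr (ζ : Fin g → ℂ) :
    Measurable (Function.uncurry fun (θ : ℝ) (p : TT g) => p + D.dis (circleMap 0 1 θ • ζ)) := by
  have h1 : Measurable fun q : ℝ × TT g => circleMap 0 1 q.1 • ζ := by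
    have : Continuous fun θ : ℝ => circleMap 0 1 θ • ζ := by fun_prop
    exact this.measurable.comp measurable_fst
  exact measurable_snd.add (D.measurable_dis.comp h1)

theorem joint (ζ : Fin g → ℂ) :
    Integrable (fun q : ℝ × TT g => D.u (q.2 + D.dis (circleMap 0 1 q.1 • ζ)))
      ((volume.restrict (Ioc 0 (2 * π))).prod volume) :=
  avg_joint (fun θ p => p + D.dis (circleMap 0 1 θ • ζ)) (D.meas_tr ζ) (fun _ => tr_mp _)
    D.integrable_u

theorem avg_u (ζ : Fin g → ℂ) :
    Integrable (fun p => Real.circleAverage (fun w => D.u (p + D.dis (w • ζ))) 0 1) ∧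
      ∫ p, Real.circleAverage (fun w => D.u (p + D.dis (w • ζ))) 0 1 = ∫ p, D.u p :=
  avg_int (fun θ p => p + D.dis (circleMap 0 1 θ • ζ)) (D.meas_tr ζ) (fun _ => tr_mp _)
    D.integrable_u

theorem integrable_S (ζ : Fin g → ℂ) : Integrable (fun p => D.S p ζ) :=
  ((D.avg_u ζ).1.sub D.integrable_u).add (integrable_const _)

theorem integral_S (ζ : Fin g → ℂ) : ∫ p, D.S p ζ = D.q ζ := by
  unfold S
  have h1 : Integrable (fun p => Real.circleAverage (fun w => D.u (p + D.dis (w • ζ))) 0 1 - D.u p) :=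
    (D.avg_u ζ).1.sub D.integrable_u
  rw [integral_add h1 (integrable_const _), integral_sub (D.avg_u ζ).1 D.integrable_u,
    (D.avg_u ζ).2]
  simp

theorem ae_fne : ∀ᵐ p : TT g, D.f (D.A (rep p)) ≠ 0 := ae_torus D.ae_ne

theorem S_rep {p : TT g} (hp : D.f (D.A (rep p)) ≠ 0) (ζ : Fin g → ℂ) :
    D.S p ζ = SS D.f (D.A (rep p)) ζ := by
  have := D.S_lift hp ζ
  rwa [pr_rep] at this

theorem ae_nonneg (ζ : Fin g → ℂ) : ∀ᵐ p : TT g, 0 ≤ D.S p ζ := by
  filter_upwards [D.ae_fne] with p hp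
  rw [D.S_rep hp]
  exact SS_nonneg D.hf hp ζ

theorem q_nonneg (ζ : Fin g → ℂ) : 0 ≤ D.q ζ := by
  rw [← D.integral_S]
  exact integral_nonneg_of_ae (D.ae_nonneg ζ)

theorem q_smul (r : ℝ) (ζ : Fin g → ℂ) : D.q (r • ζ) = r ^ 2 * D.q ζ := by
  unfold q
  have : ∀ w : ℂ, D.b (D.A.symm (w • r • ζ)) (D.A.symm (w • r • ζ)) =
      r ^ 2 • D.b (D.A.symm (w • ζ)) (D.A.symm (w • ζ)) := by
    intro w
    rw [smul_comm, map_smul]
    simp only [map_smul, LinearMap.smul_apply, smul_eq_mul]
    ring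
  simp_rw [this]
  rw [Real.circleAverage_fun_smul, smul_eq_mul]

theorem chi_dis_neg (k : Fin g ⊕ Fin g → ℤ) (ζ : Fin g → ℂ) :
    chi k (-(D.dis ζ)) = Complex.exp (-(2 * π * I * (dt k (D.A.symm ζ) : ℝ))) := by
  have h1 : chi k (-(D.dis ζ)) * chi k (D.dis ζ) = 1 := by
    rw [← chi_add, neg_add_cancel]
    rw [← pr_rep (0 : TT g)]
    have : pr (0 : XX g) = (0 : TT g) := by
      funext i
      simp [pr]
    rw [pr_rep, ← this, chi_pr]
    simp [dt]
  rw [dis, chi_pr] at h1
  rw [Complex.exp_neg]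
  exact eq_inv_of_mul_eq_one_left h1

theorem fourier_avg (k : Fin g ⊕ Fin g → ℤ) (ζ : Fin g → ℂ) :
    ∫ p, chi k p * ((Real.circleAverage (fun w => D.u (p + D.dis (w • ζ))) 0 1 : ℝ) : ℂ) =
      Real.circleAverage (fun w => chi k (-(D.dis (w • ζ)))) 0 1 * D.uh k := by
  have hj : Integrable (fun q : ℝ × TT g =>
      chi k q.2 * (D.u (q.2 + D.dis (circleMap 0 1 q.1 • ζ)) : ℂ))
      ((volume.restrict (Ioc 0 (2 * π))).prod volume) := by
    refine (D.joint ζ).ofReal.bdd_mul ?_ (Filter.Eventually.of_forall fun q => (norm_chi k q.2).le)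
    exact ((measurable_chi k).comp measurable_snd).aestronglyMeasurable
  have h2pi : (0 : ℝ) ≤ 2 * π := by positivity
  have e1 : ∀ p, chi k p * ((Real.circleAverage (fun w => D.u (p + D.dis (w • ζ))) 0 1 : ℝ) : ℂ) =
      (2 * π : ℂ)⁻¹ * ∫ θ in Ioc 0 (2 * π), chi k p * (D.u (p + D.dis (circleMap 0 1 θ • ζ)) : ℂ) := by
    intro p
    unfold Real.circleAverage
    rw [intervalIntegral.integral_of_le h2pi, integral_const_mul, smul_eq_mul,
      integral_complex_ofReal]
    push_cast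
    ring
  simp_rw [e1]
  rw [integral_const_mul]
  have hsw := integral_integral_swap (f := fun (p : TT g) (θ : ℝ) =>
    chi k p * (D.u (p + D.dis (circleMap 0 1 θ • ζ)) : ℂ)) (μ := volume)
    (ν := volume.restrict (Ioc 0 (2 * π))) (by
      have := hj.swap
      exact this)
  rw [hsw]
  have e2 : ∀ t : TT g, ∫ p, chi k p * (D.u (p + t) : ℂ) = chi k (-t) * D.uh k := by
    intro t
    have h3 : ∫ p, chi k (p + t) * chi k (-t) * (D.u (p + t) : ℂ) =
        ∫ p, chi k p * chi k (-t) * (D.u p : ℂ) :=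
      integral_add_right_eq_self (fun p => chi k p * chi k (-t) * (D.u p : ℂ)) t
    have h4 : ∀ p, chi k p * (D.u (p + t) : ℂ) = chi k (p + t) * chi k (-t) * (D.u (p + t) : ℂ) := by
      intro p
      rw [← chi_add]
      congr 2
      abel
    simp_rw [h4]
    rw [h3]
    unfold uh
    rw [← integral_const_mul]
    congr 1
    funext p
    ring
  simp_rw [e2]
  rw [integral_mul_const]
  unfold Real.circleAverage
  rw [intervalIntegral.integral_of_le h2pi]
  simp only [Complex.real_smul]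
  push_cast
  ring

theorem fourier_S {k : Fin g ⊕ Fin g → ℤ} (hk : k ≠ 0) (ζ : Fin g → ℂ) :
    ∫ p, chi k p * (D.S p ζ : ℂ) = D.J k ζ * D.uh k := by
  unfold S J
  push_cast
  have hb : ∀ {h : TT g → ℝ}, Integrable h → Integrable fun p => chi k p * (h p : ℂ) := by
    intro h hh
    exact hh.ofReal.bdd_mul (measurable_chi k).aestronglyMeasurable
      (Filter.Eventually.of_forall fun q => (norm_chi k q).le)
  have i1 := hb (D.avg_u ζ).1
  have i2 := hb D.integrable_u
  have i3 := hb (integrable_const (D.q ζ))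
  have e : ∀ p, chi k p * (((Real.circleAverage (fun w => D.u (p + D.dis (w • ζ))) 0 1 : ℝ) : ℂ) -
      (D.u p : ℂ) + (D.q ζ : ℂ)) =
      (chi k p * ((Real.circleAverage (fun w => D.u (p + D.dis (w • ζ))) 0 1 : ℝ) : ℂ) -
      chi k p * (D.u p : ℂ)) + chi k p * (D.q ζ : ℂ) := by
    intro p
    ring
  simp_rw [e]
  have i12 : Integrable fun p =>
      chi k p * ((Real.circleAverage (fun w => D.u (p + D.dis (w • ζ))) 0 1 : ℝ) : ℂ) -
      chi k p * (D.u p : ℂ) := i1.sub i2
  rw [integral_add i12 i3, integral_sub i1 i2, D.fourier_avg, integral_mul_const,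
    integral_chi hk]
  unfold uh
  ring

theorem J_smul (k : Fin g ⊕ Fin g → ℤ) (n : ℤ) (ζ : Fin g → ℂ) :
    D.J (n • k) ζ = D.J k ((n : ℝ) • ζ) := by
  unfold J
  congr 2
  funext w
  rw [D.chi_dis_neg, D.chi_dis_neg]
  congr 3
  rw [smul_comm w (n : ℝ) ζ, map_smul D.A.symm (n : ℝ) (w • ζ)]
  have : dt (n • k) (D.A.symm (w • ζ)) = dt k ((n : ℝ) • D.A.symm (w • ζ)) := by
    unfold dt
    refine Finset.sum_congr rfl fun i _ => ?_
    simp
    ring
  rw [this]

end Dat

end Run7.h92
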