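import Pool.Agent.Run7.h92.Count2

/-!
# Translated data
-/

namespace Run7.h92

open Complex MeasureTheory Metric Real Set Filter Topology

variable {g : ℕ}

/-- complex linear functional with a given real part -/
noncomputable def cx (L : (Fin g → ℂ) →ₗ[ℝ] ℝ) : (Fin g → ℂ) →ₗ[ℂ] ℂ where
  toFun z := (L z : ℂ) - I * (L (I • z) : ℂ)
  map_add' a b := by
    rw [smul_add, map_add, map_add]
    push_cast
    ring
  map_smul' c z := by
    have h1 : c • z = c.re • z + c.im • (I • z) := by
      conv_lhs => rw [← Complex.re_add_im c]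
      rw [add_smul, mul_smul]
      rfl
    have h2 : I • (c • z) = c.re • (I • z) - c.im • z := by
      rw [h1, smul_add, smul_comm I c.re, smul_comm I c.im, smul_smul I I, I_mul_I]
      simp [sub_eq_add_neg]
    have e1 : L (c.re • (I • z) - c.im • z) = c.re * L (I • z) - c.im * L z := by
      rw [map_sub, map_smul L c.re (I • z), map_smul L c.im z]
      rfl
    have e2 : L (c.re • z + c.im • (I • z)) = c.re * L z + c.im * L (I • z) := by
      rw [map_add, map_smul L c.re z, map_smul L c.im (I • z)]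
      rfl
    rw [h2, h1, e1, e2, RingHom.id_apply, smul_eq_mul]
    conv_rhs => rw [← Complex.re_add_im c]
    push_cast
    linear_combination ((c.im : ℂ) * (L (I • z) : ℂ)) * I_sq

theorem cx_re (L : (Fin g → ℂ) →ₗ[ℝ] ℝ) (z : Fin g → ℂ) : (cx L z).re = L z := by
  show ((L z : ℂ) - I * (L (I • z) : ℂ)).re = L z
  simp

namespace Dat

variable (D : Dat g)

/-- the correction functional -/
noncomputable def crr (s : XX g) : (Fin g → ℂ) →ₗ[ℝ] ℝ :=
  -((D.b.flip s).comp D.A.symm.toLinearMap + (D.b s).comp D.A.symm.toLinearMap)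

theorem crr_apply (s x : XX g) : D.crr s (D.A x) = -(D.b x s + D.b s x) := by
  simp [crr]

/-- the translated data -/
noncomputable def tr (s : XX g) : Dat g where
  A := D.A
  f := fun z => D.f (z + D.A s) * Complex.exp (cx (D.crr s) z - (D.b s s : ℝ))
  hf := by
    have h1 : Differentiable ℂ (cx (D.crr s)) :=
      (LinearMap.toContinuousLinearMap (cx (D.crr s))).differentiable
    have h2 : Differentiable ℂ fun z => D.f (z + D.A s) := D.hf.comp (by fun_prop)
    exact h2.mul (by fun_prop)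
  hne := by
    obtain ⟨z, hz⟩ := D.hne
    exact ⟨z - D.A s, by
      simp only [sub_add_cancel]
      exact mul_ne_zero hz (Complex.exp_ne_zero _)⟩
  b := D.b
  per := by
    intro x m
    have key : ∀ x : XX g, ‖D.f (D.A x + D.A s) * Complex.exp (cx (D.crr s) (D.A x) -
        (D.b s s : ℝ))‖ * Real.exp (-(D.b x x)) =
        ‖D.f (D.A (x + s))‖ * Real.exp (-(D.b (x + s) (x + s))) := by
      intro x
      rw [norm_mul, Complex.norm_exp, Complex.sub_re, cx_re, crr_apply, Complex.ofReal_re, map_add,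
        mul_assoc, ← Real.exp_add, D.b_expand]
      congr 2
      ring
    rw [key, key, add_right_comm, D.per]

theorem tr_norm (s x : XX g) : ‖(D.tr s).f ((D.tr s).A x)‖ * Real.exp (-((D.tr s).b x x)) =
    ‖D.f (D.A (x + s))‖ * Real.exp (-(D.b (x + s) (x + s))) := by
  show ‖D.f (D.A x + D.A s) * Complex.exp (cx (D.crr s) (D.A x) -
        (D.b s s : ℝ))‖ * Real.exp (-(D.b x x)) = _
  rw [norm_mul, Complex.norm_exp, Complex.sub_re, cx_re, crr_apply, Complex.ofReal_re, map_add,
    mul_assoc, ← Real.exp_add, D.b_expand]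
  congr 2
  ring

theorem tr_lg (s x : XX g) : (D.tr s).lg x = D.lg (x + s) := by
  unfold lg
  rw [tr_norm]

theorem tr_zero (s x : XX g) : (D.tr s).f ((D.tr s).A x) = 0 ↔ D.f (D.A (x + s)) = 0 := by
  show D.f (D.A x + D.A s) * Complex.exp (cx (D.crr s) (D.A x) - (D.b s s : ℝ)) = 0 ↔ _
  rw [mul_eq_zero, map_add]
  simp [Complex.exp_ne_zero]

theorem tr_u (s : XX g) (p : TT g) : (D.tr s).u p = D.u (p + pr s) := by
  show (D.tr s).lg (rep p) = _
  rw [tr_lg, ← D.u_pr, pr_add, pr_rep]

theorem tr_dis (s : XX g) (ζ : Fin g → ℂ) : (D.tr s).dis ζ = D.dis ζ := rfl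

theorem tr_q (s : XX g) (ζ : Fin g → ℂ) : (D.tr s).q ζ = D.q ζ := rfl

theorem tr_dir (s : XX g) (k : Fin g ⊕ Fin g → ℤ) : (D.tr s).dir k = D.dir k := rfl

theorem tr_S (s : XX g) (p : TT g) (ζ : Fin g → ℂ) : (D.tr s).S p ζ = D.S (p + pr s) ζ := by
  unfold S
  rw [tr_q, tr_u]
  congr 3
  funext w
  rw [tr_u, tr_dis, add_right_comm]

theorem tr_J (s : XX g) (k : Fin g ⊕ Fin g → ℤ) (ζ : Fin g → ℂ) : (D.tr s).J k ζ = D.J k ζ := rfl

theorem tr_Jb (s : XX g) (k : Fin g ⊕ Fin g → ℤ) (a : ℝ) : (D.tr s).Jb k a = D.Jb k a := rfl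

theorem tr_uh (s : XX g) (k : Fin g ⊕ Fin g → ℤ) : ‖(D.tr s).uh k‖ = ‖D.uh k‖ := by
  have h1 : (D.tr s).uh k = chi k (-(pr s)) * D.uh k := by
    unfold uh
    rw [← integral_const_mul]
    have h2 := integral_add_right_eq_self (μ := (volume : Measure (TT g)))
      (fun p : TT g => chi k (-(pr s)) * (chi k p * (D.u p : ℂ))) (pr s)
    rw [← h2]
    congr 1
    funext p
    rw [tr_u, ← mul_assoc, ← chi_add]
    congr 2
    rw [neg_add_cancel_comm_assoc]
  rw [h1, norm_mul, norm_chi, one_mul]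

theorem tr_flat (s : XX g) {k : Fin g ⊕ Fin g → ℤ} (h : (D.tr s).Flat k) : D.Flat k := by
  obtain ⟨a, b, hab⟩ := h
  have hdt : ∀ x y : XX g, dt k (x + y) = dt k x + dt k y := by
    intro x y
    unfold dt
    rw [← Finset.sum_add_distrib]
    exact Finset.sum_congr rfl fun i _ => by simp [mul_add]
  refine ⟨a + dt k (D.A.symm (I • D.A s)), b + dt k (D.A.symm (D.A s)), fun z h1 h2 => ?_⟩
  have e : z = (z - D.A s) + D.A s := by simp
  have h3 : dt k (D.A.symm (z - D.A s)) = b := by
    rw [e, map_add, hdt] at h1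
    linarith
  have h4 : dt k (D.A.symm (I • (z - D.A s))) = a := by
    rw [e, smul_add, map_add, hdt] at h2
    linarith
  have h5 := hab (z - D.A s) h3 h4
  have h6 : D.f (z - D.A s + D.A s) * Complex.exp (cx (D.crr s) (z - D.A s) - (D.b s s : ℝ)) = 0 := h5
  rw [sub_add_cancel] at h6
  exact (mul_eq_zero.1 h6).resolve_right (Complex.exp_ne_zero _)

end Dat

end Run7.h92
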