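import Pool.Agent.Run7.h92.Act

/-!
# Theta constants with torsion characteristics and the moves
-/

namespace Run7.h92

open Matrix Complex

variable {g : ℕ}

/-- torsion characteristics -/
abbrev CN (N g : ℕ) : Type := (Fin g → ZMod N) × (Fin g → ZMod N)

/-- powers of theta constants -/
noncomputable def Fz (N : ℕ) (τ : MM g) (a b : Fin g → ℤ) : ℂ :=
  th τ (fun i => (a i : ℝ) / N) (fun i => (b i : ℝ) / N) ^ (24 * N ^ 2)

theorem exp_int (k : ℤ) : cexp (2 * Real.pi * I * k) = 1 := by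
  rw [mul_comm]
  exact Complex.exp_int_mul_two_pi_mul_I k

theorem Fz_add_left (N : ℕ) [NeZero N] (τ : MM g) (a b m : Fin g → ℤ) :
    Fz N τ (fun i => a i + N * m i) b = Fz N τ a b := by
  unfold Fz th
  rw [← thc_shift_char τ (fun i => (a i : ℝ) / N) _ m]
  congr 3
  funext i
  have hN0 : (N : ℝ) ≠ 0 := Nat.cast_ne_zero.2 (NeZero.ne N)
  push_cast
  field_simp

theorem Fz_add_right (N : ℕ) [NeZero N] (τ : MM g) (a b m : Fin g → ℤ) :
    Fz N τ a (fun i => b i + N * m i) = Fz N τ a b := by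
  have hN0 : (N : ℂ) ≠ 0 := Nat.cast_ne_zero.2 (NeZero.ne N)
  unfold Fz th
  have h1 := thc_shift_z τ (fun i => (a i : ℝ) / N) (fun i => (((b i : ℝ) / N : ℝ) : ℂ)) m
  have h2 : (fun i => ((((b i + N * m i : ℤ) : ℝ) / N : ℝ) : ℂ)) =
      fun i => (((b i : ℝ) / N : ℝ) : ℂ) + m i := by
    funext i
    push_cast
    field_simp
  rw [h2, h1, mul_pow, ← Complex.exp_nat_mul]
  have h3 : ((24 * N ^ 2 : ℕ) : ℂ) * (2 * Real.pi * I * ∑ i, (((a i : ℝ) / N : ℝ) : ℂ) * m i) =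
      2 * Real.pi * I * ((24 * N * ∑ i, a i * m i : ℤ) : ℂ) := by
    have : ∑ i, (((a i : ℝ) / N : ℝ) : ℂ) * m i = (∑ i, (a i : ℂ) * m i) / N := by
      rw [Finset.sum_div]
      refine Finset.sum_congr rfl fun i _ => ?_
      push_cast
      ring
    rw [this]
    push_cast
    field_simp
  rw [h3, exp_int, one_mul]

theorem Fz_congr (N : ℕ) [NeZero N] (τ : MM g) {a b a' b' : Fin g → ℤ}
    (h1 : ∀ i, ((a i : ℤ) : ZMod N) = (a' i : ℤ)) (h2 : ∀ i, ((b i : ℤ) : ZMod N) = (b' i : ℤ)) :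
    Fz N τ a b = Fz N τ a' b' := by
  have k : ∀ a a' : Fin g → ℤ, (∀ i, ((a i : ℤ) : ZMod N) = (a' i : ℤ)) →
      ∃ m : Fin g → ℤ, a' = fun i => a i + N * m i := by
    intro a a' h
    have : ∀ i, ∃ m : ℤ, a' i = a i + N * m := by
      intro i
      have h3 := (ZMod.intCast_eq_intCast_iff_dvd_sub _ _ N).1 (h i)
      obtain ⟨m, hm⟩ := h3
      exact ⟨m, by linarith⟩
    choose m hm using this
    exact ⟨m, funext hm⟩
  obtain ⟨m, rfl⟩ := k a a' h1
  obtain ⟨m', rfl⟩ := k b b' h2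
  rw [Fz_add_left, Fz_add_right]

/-- powers of theta constants, at torsion characteristics -/
noncomputable def FF (N : ℕ) (τ : MM g) (x : CN N g) : ℂ :=
  Fz N τ (fun i => ((x.1 i).val : ℤ)) (fun i => ((x.2 i).val : ℤ))

/-- reduction of integral vectors -/
def rd (N : ℕ) (a b : Fin g → ℤ) : CN N g := (fun i => ((a i : ℤ) : ZMod N), fun i => ((b i : ℤ) : ZMod N))

theorem FF_rd (N : ℕ) [NeZero N] (τ : MM g) (a b : Fin g → ℤ) : FF N τ (rd N a b) = Fz N τ a b := by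
  unfold FF rd
  apply Fz_congr <;> intro i <;> simp

theorem exists_rd (N : ℕ) [NeZero N] (x : CN N g) : ∃ a b, x = rd N a b := by
  refine ⟨fun i => ((x.1 i).val : ℤ), fun i => ((x.2 i).val : ℤ), ?_⟩
  unfold rd
  ext i <;> simp

theorem parity : ∀ (G : ℕ) (B : Fin G → Fin G → ℤ), (∀ i j, B i j = B j i) → ∀ n : Fin G → ℤ,
    ∃ k : ℤ, ∑ i, ∑ j, n i * B i j * n j = ∑ i, B i i * n i + 2 * k := by
  intro G
  induction G with
  | zero => intro B _ n; exact ⟨0, by simp⟩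
  | succ G ih =>
    intro B hB n
    obtain ⟨k, hk⟩ := ih (fun i j => B i.succ j.succ) (fun i j => hB _ _) (fun i => n i.succ)
    have hpar : ∃ l : ℤ, n 0 * n 0 = n 0 + 2 * l := by
      obtain ⟨l, hl⟩ := Int.even_mul_pred_self (n 0)
      exact ⟨l, by linarith⟩
    obtain ⟨l, hl⟩ := hpar
    refine ⟨k + l * B 0 0 + ∑ j : Fin G, n 0 * B 0 j.succ * n j.succ, ?_⟩
    simp only [Fin.sum_univ_succ, Finset.sum_add_distrib]
    rw [hk]
    have e1 : ∑ x : Fin G, n x.succ * B x.succ 0 * n 0 = ∑ j : Fin G, n 0 * B 0 j.succ * n j.succ := by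
      refine Finset.sum_congr rfl fun j _ => ?_
      rw [hB j.succ 0]; ring
    rw [e1]
    linear_combination B 0 0 * hl

theorem Fz_T {N n : ℕ} [NeZero N] (hn : N = 2 * n) {τ : MM g} {B : Matrix (Fin g) (Fin g) ℤ}
    (hB : Bᵀ = B) (a b : Fin g → ℤ) :
    Fz N (fun i j => τ i j + B i j) a b =
      Fz N τ a (fun i => b i + ∑ j, B i j * a j + n * B i i) := by
  have hN0 : (N : ℂ) ≠ 0 := Nat.cast_ne_zero.2 (NeZero.ne N)
  have hN1 : (N : ℂ) = 2 * n := by rw [hn]; push_cast; rfl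
  have hn0 : (n : ℂ) ≠ 0 := by
    intro h
    rw [h, mul_zero] at hN1
    exact hN0 hN1
  have hBs : ∀ i j, B i j = B j i := fun i j => by
    have := congrFun (congrFun hB i) j
    rw [transpose_apply] at this
    exact this.symm
  unfold Fz th
  rw [thc_T (fun i j => B i j) hBs, mul_pow, ← Complex.exp_nat_mul]
  have h3 : ((24 * N ^ 2 : ℕ) : ℂ) * (-(Real.pi * I * (∑ i, ∑ j, (((a i : ℝ) / N : ℝ) : ℂ) *
      B i j * (((a j : ℝ) / N : ℝ) : ℂ))) -
      Real.pi * I * ∑ i, (B i i : ℂ) * (((a i : ℝ) / N : ℝ) : ℂ)) =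
      2 * Real.pi * I *
        ((-(12 * ∑ i, ∑ j, a i * B i j * a j) - 12 * N * ∑ i, B i i * a i : ℤ) : ℂ) := by
    have e1 : ∑ i, ∑ j, (((a i : ℝ) / N : ℝ) : ℂ) * B i j * (((a j : ℝ) / N : ℝ) : ℂ) =
        (∑ i, ∑ j, (a i : ℂ) * B i j * a j) / N ^ 2 := by
      rw [Finset.sum_div]
      refine Finset.sum_congr rfl fun i _ => ?_
      rw [Finset.sum_div]
      refine Finset.sum_congr rfl fun j _ => ?_
      push_cast
      field_simp
    have e2 : ∑ i, (B i i : ℂ) * (((a i : ℝ) / N : ℝ) : ℂ) = (∑ i, (B i i : ℂ) * a i) / N := by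
      rw [Finset.sum_div]
      refine Finset.sum_congr rfl fun i _ => ?_
      push_cast
      ring
    rw [e1, e2]
    push_cast
    field_simp
    ring
  rw [h3, exp_int, one_mul]
  congr 2
  funext i
  push_cast
  have e3 : ∑ j, (B i j : ℂ) * ((a j : ℂ) / N) = (∑ j, (B i j : ℂ) * a j) / N := by
    rw [Finset.sum_div]
    exact Finset.sum_congr rfl fun j _ => by ring
  rw [e3, hN1]
  field_simp

theorem Fz_R {N : ℕ} (τ : MM g) {U V : Matrix (Fin g) (Fin g) ℤ} (h1 : U * V = 1) (h2 : V * U = 1)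
    (a b : Fin g → ℤ) : Fz N (Rm U τ) a b = Fz N τ (Uᵀ *ᵥ a) (V *ᵥ b) := by
  unfold Fz th
  rw [thc_R τ h1 h2]
  congr 2
  · funext i
    simp only [mulVec, dotProduct, transpose_apply, map_apply]
    push_cast
    rw [Finset.sum_div]
    exact Finset.sum_congr rfl fun j _ => by ring
  · funext i
    simp only [mulVec, dotProduct, map_apply]
    push_cast
    rw [Finset.sum_div]
    exact Finset.sum_congr rfl fun j _ => by ring

theorem Fz_J {N : ℕ} [NeZero N] {τ : MM (g + 1)} (hτ : τ ∈ HH (g + 1)) (a b : Fin (g + 1) → ℤ) :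
    Fz N (Jm τ) a b =
      τ 0 0 ^ (12 * N ^ 2) * Fz N τ (Function.update a 0 (b 0)) (Function.update b 0 (-a 0)) := by
  have hN0 : (N : ℂ) ≠ 0 := Nat.cast_ne_zero.2 (NeZero.ne N)
  have h0 : τ 0 0 ≠ 0 := HH_00 hτ
  have hI : (-I * τ 0 0) ≠ 0 := mul_ne_zero (neg_ne_zero.2 I_ne_zero) h0
  unfold Fz
  have h1 := thc_J hτ (fun i => ((Function.update a 0 (b 0) i : ℤ) : ℝ) / N)
    (fun i => ((Function.update b 0 (-a 0) i : ℤ) : ℝ) / N)
  rw [h1, mul_pow, mul_pow]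
  have e1 : (1 / (-I * τ 0 0) ^ (1 / 2 : ℂ)) ^ (24 * N ^ 2) = 1 / τ 0 0 ^ (12 * N ^ 2) := by
    rw [_root_.one_div_pow, show 24 * N ^ 2 = 2 * (12 * N ^ 2) by ring, pow_mul, ← Complex.cpow_nat_mul]
    have : ((2 : ℕ) : ℂ) * (1 / 2) = 1 := by norm_num
    rw [this, Complex.cpow_one, mul_pow]
    have hI12 : (-I : ℂ) ^ (12 * N ^ 2) = 1 := by
      rw [pow_mul, show (-I : ℂ) ^ 12 = 1 by
        rw [show (12 : ℕ) = 4 * 3 by norm_num, pow_mul]
        rw [show (-I : ℂ) ^ 4 = 1 by rw [neg_pow, Complex.I_pow_four]; norm_num, one_pow], one_pow]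
    rw [hI12, one_mul]
  have e2 : cexp (2 * Real.pi * I * ((((((Function.update a 0 (b 0) 0 : ℤ) : ℝ) / N : ℝ) : ℂ)) *
      ((((Function.update b 0 (-a 0) 0 : ℤ) : ℝ) / N : ℝ) : ℂ))) ^ (24 * N ^ 2) = 1 := by
    rw [← Complex.exp_nat_mul, ← exp_int (-(24 * (b 0 * a 0)))]
    congr 1
    simp only [Function.update_self]
    push_cast
    field_simp
  rw [e1, e2]
  have e3 : (Function.update (fun i => ((Function.update a 0 (b 0) i : ℤ) : ℝ) / N) 0
      (-(((Function.update b 0 (-a 0) 0 : ℤ) : ℝ) / N))) = fun i => (a i : ℝ) / N := by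
    funext i
    by_cases hi : i = 0
    · subst hi
      simp only [Function.update_self]
      push_cast
      ring
    · simp [hi]
  have e4 : (Function.update (fun i => ((Function.update b 0 (-a 0) i : ℤ) : ℝ) / N) 0
      (((Function.update a 0 (b 0) 0 : ℤ) : ℝ) / N)) = fun i => (b i : ℝ) / N := by
    funext i
    by_cases hi : i = 0
    · subst hi
      simp only [Function.update_self]
    · simp [hi]
  rw [e3, e4]
  field_simp

end Run7.h92
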